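import Mathlib
import Pool.Agent.Work.MP_122e00_nt.TS.Stmts12

/-!
# The full polynomial at every scale of the shifts: definitions

`D_r(X; h) = X P_h(log X) + O(X (log X)^(2r-2) (log log X)^C (log h)^(-2r))` for almost all values
`h = F(k)` of a polynomial.
-/

namespace Pool.Agent.Work.MP_122e00_nt.FP

open Finset Filter Topology ArithmeticFunction
open Pool.Agent.Work.MP_122e00_nt.TS
open scoped ArithmeticFunction.zeta ArithmeticFunction.Moebius

/-- `log log X` -/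
noncomputable def l2 (X : ℝ) : ℝ := Real.log (Real.log X)

/-- the classes of window primes are `(zi X i, zi X (i+1)]`, `zi X i = exp(2^i (log log X)^3)` -/
noncomputable def zi (X : ℝ) (i : ℕ) : ℝ := Real.exp (2 ^ i * l2 X ^ 3)

/-- the number of classes -/
noncomputable def nI (X H : ℝ) : ℕ := ⌊Real.log (Real.log H / l2 X ^ 5) / Real.log 2⌋₊

/-- the window is `(zc X, wc X H]` -/
noncomputable def zc (X : ℝ) : ℝ := zi X 0

/-- the upper end of the window -/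
noncomputable def wc (X H : ℝ) : ℝ := zi X (nI X H)

/-- the bound for the smooth factor -/
noncomputable def Sc (H : ℝ) : ℕ := ⌊H ^ (1 / 16 : ℝ)⌋₊

/-- the level of the models -/
noncomputable def Qc (η X : ℝ) : ℕ := ⌊Real.exp (η * l2 X ^ 3)⌋₊

/-- all prime factors of `s ≥ 1` are in the window `(z, w]` -/
def Wsm (z w : ℝ) (s : ℕ) : Prop := 1 ≤ s ∧ ∀ p ∈ s.primeFactors, z < (p : ℝ) ∧ (p : ℝ) ≤ w

/-- the coefficients `k` of the smooth factor: `k * d_r = d_r/(1 + ω)`, `ω` = number of window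
primes -/
def KK (r : ℕ) (z w : ℝ) (k : ℕ → ℝ) : Prop :=
  (∀ s, |k s| ≤ dr (2 * r) s) ∧ (∀ s, k s ≠ 0 → Wsm z w s) ∧
  ∀ m : ℕ, 1 ≤ m → dr r m / (1 + (ow z w m : ℝ)) = ∑ s ∈ m.divisors, k s * dr r (m / s)

/-- the structured part of `d_r`: `r ∑_{s ∣ n, s ≤ S} k(s) u(n/s)` -/
noncomputable def fS (r : ℕ) (k : ℕ → ℝ) (z w : ℝ) (S n : ℕ) : ℝ :=
  r * ∑ s ∈ (Finset.Icc 1 S).filter (· ∣ n), k s * TS.up r z w (n / s)

open Classical in
/-- `d_r(n)` if `n` has no window prime, else `0` -/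
noncomputable def dfree (r : ℕ) (z w : ℝ) (n : ℕ) : ℝ := if ow z w n = 0 then dr r n else 0

/-- the number of window primes with `p² ∣ n` -/
noncomputable def nu2 (z w : ℝ) (n : ℕ) : ℕ := ((PW z w).filter (fun p => p ^ 2 ∣ n)).card

open Classical in
/-- the error of the decomposition `d_r = fS + dfree + O(tau)` -/
noncomputable def tau (r : ℕ) (z w : ℝ) (S n : ℕ) : ℝ := r * nu2 z w n * dr r n +
  (if ∃ s, s ∣ n ∧ S < s ∧ Wsm z w s then r * dr (3 * r + 1) n else 0)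

/-- the polynomials of the means of `fS(n) e(a n/q)` (`q` without window primes) -/
noncomputable def E0 (r : ℕ) (k : ℕ → ℝ) (E : ℕ → Polynomial ℝ) (z w : ℝ) (S q : ℕ) :
    Polynomial ℝ :=
  ∑ s ∈ Finset.Icc 1 S, Polynomial.C (r * k s / s) *
    (Eu E z w q).comp (Polynomial.X - Polynomial.C (Real.log s))

/-- `fS` minus its model of level `Q` -/
noncomputable def fb (r : ℕ) (k : ℕ → ℝ) (E : ℕ → Polynomial ℝ) (z w : ℝ) (S Q n : ℕ) : ℝ :=
  fS r k z w S n - fs (E0 r k E z w S) Q n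

/-- the level for the class `i` -/
noncomputable def Qi (η X : ℝ) (i : ℕ) : ℕ := ⌊Real.exp (8 * η * 2 ^ i * l2 X ^ 3)⌋₊

/-- `u(n/s)` if `s ∣ n`, else `0` -/
noncomputable def dil (s : ℕ) (u : ℕ → ℝ) (n : ℕ) : ℝ := if s ∣ n then u (n / s) else 0

/-- the model of `fS`, class by class -/
noncomputable def mS (r : ℕ) (k : ℕ → ℝ) (E : ℕ → Polynomial ℝ) (η X : ℝ) (I S n : ℕ) : ℝ :=
  r * ∑ s ∈ Finset.Icc 1 S, k s * ∑ i ∈ Finset.range I,
    dil s (fs (Eu E (zi X i) (zi X (i + 1))) (Qi η X i)) n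

open Classical in
/-- the weight of a pair without window primes -/
noncomputable def Wz (r : ℕ) (z w σ : ℝ) (a b : ℕ) : ℝ :=
  if ow z w (a * b) = 0 then Wp r z w 1 σ a b else 0

/-- the error bound of the final theorem, without the constant -/
noncomputable def eb (r : ℕ) (C X H : ℝ) : ℝ :=
  X * Real.log X ^ (2 * r - 2) * l2 X ^ C / Real.log H ^ (2 * r)

/-- Weyl's inequality with polynomial dependence on the loss `T` -/
def WeylT (d : ℕ) : Prop := ∃ C : ℕ, 1 ≤ C ∧ ∀ (K : ℕ) (T : ℝ), 1 ≤ K → 1 ≤ T →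
  ∀ f : Polynomial ℝ, f.natDegree ≤ d → ∀ A B : ℕ, B ≤ A + K →
  (K : ℝ) / T ≤ ‖∑ k ∈ Finset.Ioc A B, ee (f.eval (k : ℝ))‖ →
  ∃ q : ℕ, 1 ≤ q ∧ (q : ℝ) ≤ C * T ^ C ∧ ∃ m : ℤ, |(q : ℝ) * f.coeff d - m| ≤ C * T ^ C / (K : ℝ) ^ d

end Pool.Agent.Work.MP_122e00_nt.FP
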