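import Mathlib
import Pool.Agent.Work.MP_122e00_nt.FP.Defs

/-!
# Full polynomial, part A: structure, rare parts, means, singular series

Every docstring is a complete proof.  Earlier items (and items of `TS`) are hypotheses.  Write
`z`, `w` for the window, `PW z w` = its primes, `ow z w n` = number of window primes dividing `n`.
-/

namespace Pool.Agent.Work.MP_122e00_nt.FP

open Finset Filter Topology ArithmeticFunction MeasureTheory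
open Pool.Agent.Work.MP_122e00_nt.TS
open scoped ArithmeticFunction.zeta ArithmeticFunction.Moebius

/-- P1 (EASY): sizes.  PROOF.  `l = l2 X → ∞`, `log X = exp l`, `exp l ≥ 100 l³` for large `l`, and
`A l ≤ l²`. -/
def fpP1 : Prop := ∀ A : ℝ, ∃ X0 : ℝ, ∀ X : ℝ, X0 ≤ X → 16 ≤ X ∧ 3 ≤ Real.log X ∧ A ≤ l2 X ∧
  Real.log X ^ A ≤ Real.exp (l2 X ^ 2) ∧ Real.exp (l2 X ^ 3) ≤ X ^ (1 / 100 : ℝ)

/-- P2 (EASY-MEDIUM): the window.  PROOF.  `l = l2 X ≥ 2`, `y = log H/l⁵ ≥ l ≥ 2`, `I = ⌊log y/log 2⌋`, so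
`1 ≤ I`, `2^I ≤ y < 2^(I+1)`; `log (wc X H) = 2^I l³` lies between `y l³/2` and `y l³ = log H/l²`; `2^I ≥ 1`;
`I ≤ 2^I ≤ y ≤ log H ≤ log X`. -/
def fpP2 : Prop := ∀ X H : ℝ, 2 ≤ l2 X → l2 X ^ 6 ≤ Real.log H → H ≤ X → 0 < H →
  Real.log (zc X) = l2 X ^ 3 ∧ zc X ≤ wc X H ∧ Real.log (wc X H) ≤ Real.log H / l2 X ^ 2 ∧
  Real.log H / (2 * l2 X ^ 2) ≤ Real.log (wc X H) ∧ 1 ≤ nI X H ∧ (nI X H : ℝ) ≤ Real.log X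

/-- P3 (EASY): the window is the disjoint union of the classes.  PROOF.  `zi X i` is increasing in `i` for
`l2 X > 0`; so `PW (zi X 0) (zi X I)` is the disjoint union of the `PW (zi X i) (zi X (i+1))`, `i < I`
(induction on `I`). -/
def fpP3 : Prop := ∀ (X : ℝ) (I : ℕ), 0 < l2 X →
  (∀ r n : ℕ, TS.up r (zi X 0) (zi X I) n =
    ∑ i ∈ Finset.range I, TS.up r (zi X i) (zi X (i + 1)) n) ∧
  ∀ (E : ℕ → Polynomial ℝ) (q : ℕ), Eu E (zi X 0) (zi X I) q =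
    ∑ i ∈ Finset.range I, Eu E (zi X i) (zi X (i + 1)) q

/-- P4 (EASY; uses P2, TS.N1): the density of the integers without window primes.  PROOF.  N1 (third part;
`z ≥ 2`, `z ≤ w`): `exp (-pw z w) ≤ e^C log z/log w`, and `log z = l³`, `log w ≥ log H/(2 l²)` (P2). -/
def fpP4 : Prop := ∃ C : ℝ, 0 < C ∧ ∀ X H : ℝ, 2 ≤ l2 X → l2 X ^ 6 ≤ Real.log H → H ≤ X → 0 < H →
  Real.exp (-pw (zc X) (wc X H)) ≤ C * l2 X ^ 5 / Real.log H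

/-- K (MEDIUM): the smooth factor.  PROOF.  In the ring of arithmetic functions with real values.  Call `s ≥ 1`
smooth if `Wsm z w s`, `l ≥ 1` free if no window prime divides `l`.  The indicator function `1_W` of the
smooth integers is completely multiplicative, so `f ↦ 1_W f` respects convolution; the same for the indicator
function `1_V` of the free integers.  Every `m ≥ 1` is `s₀ l` with `s₀` smooth, `l` free in exactly one way, so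
`ζ = (1_W ζ) * (1_V ζ)`.  Let `G(s) = d_r(s)/(1 + ow s)` for smooth `s`, `0` otherwise, `B = 1_W μ^r` (`μ^r` the
`r`-th power in the ring), `k = G * B`.  `B = (1_W μ)^r` and `(1_W μ) * (1_W ζ) = 1_W (μ * ζ) = 1`, so
`B * ζ^r = (1_V ζ)^r = 1_V ζ^r`, and `(k * d_r)(m) = (G * 1_V d_r)(m) = G(s₀) d_r(l) = d_r(m)/(1 + ow m)`
(`d_r` is multiplicative, `ow m = ow s₀`).  `k` is supported on smooth integers, and `|μ^r| ≤ ζ^r` gives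
`|k| ≤ ζ^r * ζ^r = ζ^(2r)`. -/
def fpK : Prop := ∀ (r : ℕ) (z w : ℝ), 1 ≤ r → ∃ k : ℕ → ℝ, KK r z w k

/-- A1 (MEDIUM): the decomposition of `d_r` (Ramare's weights).  PROOF.  Let `g(m) = d_r(m)/(1 + ow m)`.  If
`ow n = 0` then all `up (n/s)` vanish, `fS = 0`, `dfree = dr`.  Let `ow n ≥ 1`; `dfree n = 0` and
`dr n = ∑_{p ∈ PW, p ∣ n} dr n/ow n`.  If `p ∥ n` then `d_r(n) = r d_r(n/p)`, `ow (n/p) = ow n - 1`, so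
`r g(n/p) = dr n/ow n`.  If `p² ∣ n` then `0 ≤ r g(n/p) ≤ r dr n` and `0 ≤ dr n/ow n ≤ r dr n` (`d_r(n/p) ≤ d_r(n)`),
so the difference is `≤ r dr n` in absolute value.  Hence `|dr n - r ∑_{p ∣ n} g(n/p)| ≤ r nu2 n dr n`.  By KK
`∑_{p ∣ n} g(n/p) = ∑_{p ∣ n} ∑_{s ∣ n/p} k(s) dr(n/(ps)) = ∑_{s ∣ n} k(s) up(n/s)`.  The terms with `s > S`
vanish unless `Wsm s`, and `∑_{s ∣ n} |k s| up(n/s) ≤ ∑_{s ∣ n} dr(2r)(s) dr(r+1)(n/s) = dr(3r+1)(n)`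
(`0 ≤ up r ≤ dr (r+1)`, third part of TS.X2; `ζ^(2r) * ζ^(r+1) = ζ^(3r+1)`).  Second part: the same bound. -/
def fpA1 : Prop := ∀ (r : ℕ) (z w : ℝ) (k : ℕ → ℝ) (S n : ℕ), 1 ≤ r → KK r z w k → 1 ≤ n →
  |dr r n - fS r k z w S n - dfree r z w n| ≤ tau r z w S n ∧
  |fS r k z w S n| ≤ r * dr (3 * r + 1) n

open Classical in
/-- B1 (MEDIUM; uses TS.N1, TS.X2): integers with a large smooth divisor.  PROOF.  `σ = 1/log w ≤ 1/4`.  The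
indicator function of the condition is `≤ ∑_{s ∣ n, Wsm s} (s/S)^σ`.  `dr R (s m) ≤ dr R s dr R m`, so the sum is
`≤ S^(-σ) ∑_{s ≤ y, Wsm s} dr R s s^σ ∑_{m ≤ y/s} dr R m ≤ S^(-σ) y (1+log y)^(R-1) ∑_{s ≤ y, Wsm s} dr R s s^(σ-1)`
(X2).  The last sum is `≤ ∏_{p ≤ w} (1 + ∑_{1 ≤ j ≤ J} dr R (p^j) p^(j(σ-1)))` (`J` large), and the factor is
`≤ exp (R e/p + C p^(-3/2))`: `p^σ ≤ e`, and for `j ≥ 2` `dr R (p^j) ≤ (j+1)^R`, `p^(j(σ-1)) ≤ p^(-3j/4)`.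
`∑_{p ≤ w} 1/p ≤ log log w + C` (N1), `log w ≤ log y`.  `S^(-σ) = exp (-log S/log w)`. -/
def fpB1 : Prop := ∀ R : ℕ, 1 ≤ R → ∃ C : ℝ, 0 < C ∧ ∀ (y z w : ℝ) (S : ℕ), Real.exp 4 ≤ w → w ≤ y →
  1 ≤ S → ∑ n ∈ (Finset.Icc 1 ⌊y⌋₊).filter (fun n => ∃ s, s ∣ n ∧ S < s ∧ Wsm z w s), dr R n ≤
    C * y * Real.log y ^ C * Real.exp (-(Real.log S / Real.log w))

/-- B2 (EASY-MEDIUM; uses TS.X2): integers divisible by the square of a window prime.  PROOF.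
`∑_n nu2 n dr R n = ∑_{p ∈ PW} ∑_{m ≤ y/p²} dr R (p² m) ≤ ∑_p dr R (p²) (y/p²) (1+log y)^(R-1)`,
`dr R (p²) ≤ R²`, `∑_{p > z} 1/p² ≤ ∑_{n > z} 1/n² ≤ 2/z` (`z ≥ 1`). -/
def fpB2 : Prop := ∀ R : ℕ, 1 ≤ R → ∃ C : ℝ, 0 < C ∧ ∀ (y z w : ℝ), 3 ≤ y → 1 ≤ z →
  ∑ n ∈ Finset.Icc 1 ⌊y⌋₊, (nu2 z w n : ℝ) * dr R n ≤ C * y * Real.log y ^ C / z

/-- B3 (EASY-MEDIUM; uses B1, B2, TS.X2): the second moment of `tau`.  PROOF.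
`tau² ≤ 2 r² nu2² dr(r)² + 2 r² [condition] dr(3r+1)²`; `nu2 n ≤ log n/log 4 ≤ log y` (`n ≤ y`; the product of the
`p²` divides `n`); `dr(r)² ≤ dr(r²)`, `dr(3r+1)² ≤ dr((3r+1)²)` (X2); B2, B1. -/
def fpB3 : Prop := ∀ r : ℕ, 1 ≤ r → ∃ C : ℝ, 0 < C ∧ ∀ (y z w : ℝ) (S : ℕ), 1 ≤ z →
  Real.exp 4 ≤ w → w ≤ y → 1 ≤ S →
  ∑ n ∈ Finset.Icc 1 ⌊y⌋₊, tau r z w S n ^ 2 ≤
    C * y * Real.log y ^ C * (1 / z + Real.exp (-(Real.log S / Real.log w)))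

/-- B4 (EASY-MEDIUM; uses B1, B2): `tau` over the multiples of `e`.  PROOF.  `n = e m`.  The window primes are
`> z` and do not divide `e`; so `nu2 (e m) = nu2 m`, and a divisor `s` of `e m` with `Wsm s` is coprime to `e`
and divides `m`.  `dr (e m) ≤ dr e dr m`, `dr r ≤ dr (3r+1)`.  B2 and B1 with `y = x/e` and the index `3r+1`;
`log (x/e) ≤ log x`. -/
def fpB4 : Prop := ∀ r : ℕ, 1 ≤ r → ∃ C : ℝ, 0 < C ∧ ∀ (x z w : ℝ) (S e : ℕ), 1 ≤ z →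
  Real.exp 4 ≤ w → 1 ≤ e → (∀ p ∈ e.primeFactors, (p : ℝ) ≤ z) → w ≤ x / e → 1 ≤ S →
  ∑ n ∈ (Finset.Icc 1 ⌊x⌋₊).filter (e ∣ ·), tau r z w S n ≤
    C * dr (3 * r + 1) e * (x / e) * Real.log x ^ C *
      (1 / z + Real.exp (-(Real.log S / Real.log w)))

/-- C1 (MEDIUM; uses TS.N1, TS.X2): the mean of `d_r` over the integers without window primes.  PROOF.
`f = dfree r z w ≥ 0` satisfies `f(a b) ≤ f(a) dr r b` and is multiplicative; `F = ∑_{m ≤ y} f(m)`.  Writing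
`log m = ∑_{p^j ∥ m} j log p` and `m = a p^j`, `p ∤ a`:
`∑_{m ≤ y} f(m) log m ≤ ∑_{a ≤ y} f(a) ∑_{p^j ≤ y/a} dr r (p^j) j log p ≤ C y ∑_{a ≤ y} f(a)/a`, because
`∑_{p^j ≤ t} dr r (p^j) j log p ≤ C t` for `t ≥ 1` (`j = 1`: Chebyshev; `j ≥ 2`: at most `√t log₂ t` terms, each
`≤ (j+1)^r log t`).  And `∑ f(m) log (y/m) ≤ ∑ f(m) y/m`.  So `F log y ≤ C y ∑_{a ≤ y} f(a)/a ≤
C y ∏_{p ≤ y, p ∉ PW} (1 + ∑_j dr r (p^j) p^(-j)) ≤ C y exp (∑_{p ≤ y, p ∉ PW} r/p + C)`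
`≤ C y (log y)^r exp (-r pw z w)` (N1; `w ≤ y`). -/
def fpC1 : Prop := ∀ r : ℕ, 1 ≤ r → ∃ C : ℝ, 0 < C ∧ ∀ y z w : ℝ, 3 ≤ y → 1 ≤ z → z ≤ w → w ≤ y →
  ∑ m ∈ Finset.Icc 1 ⌊y⌋₊, dfree r z w m ≤
    C * y * Real.log y ^ (r - 1) * Real.exp (-(r * pw z w))

/-- C2 (EASY; uses C1): the same over the multiples of `e`.  PROOF.  `n = e m`; `ow (e m) = ow m` (window primes do
not divide `e`), `dfree (e m) ≤ dr e dfree m`; C1 with `y = x/e`, `log (x/e) ≤ log x`. -/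
def fpC2 : Prop := ∀ r : ℕ, 1 ≤ r → ∃ C : ℝ, 0 < C ∧ ∀ (x z w : ℝ) (e : ℕ), 1 ≤ z → z ≤ w → 1 ≤ e →
  (∀ p ∈ e.primeFactors, (p : ℝ) ≤ z) → w ≤ x / e → 3 ≤ x / e →
  ∑ n ∈ (Finset.Icc 1 ⌊x⌋₊).filter (e ∣ ·), dfree r z w n ≤
    C * dr r e * (x / e) * Real.log x ^ (r - 1) * Real.exp (-(r * pw z w))

/-- E1 (EASY-MEDIUM; uses TS.N1): `∑_{p ∣ h} 1/p`.  PROOF.  `L = log (h+16) ≥ 2`, `log L = ll h`.  The `p ≤ L`: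
`≤ ∑_{p ≤ L} 1/p ≤ log (log L) + C` (N1 with `Z = ⌊L⌋`).  The `p > L` dividing `h`: at most `log h/log 2` of them,
each `1/p ≤ 1/L`: total `≤ 2`. -/
def fpE1 : Prop := ∃ C : ℝ, 0 < C ∧ ∀ h : ℕ, 1 ≤ h → Sh h ≤ Real.log (ll h) + C

/-- Z2 (MEDIUM; uses TS.N1; model: `TS/I_Z2.lean`): a divisor sum which is small for EVERY `h`.  PROOF.  As
TS.Z2, whose proof gives it: `L = log (h+16)`, `δ = 1/(4 ll h) ≤ 1/4`; `(1+log g)^(2r) ≤ C (ll h)^(2r) g^δ`, so the sum is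
`≤ C (ll h)^(2r) ∑_{g ∣ h} d(g)^A (g/φ(g))² g^(2δ-1) ≤ C (ll h)^(2r) exp (C_A ∑_{p ∣ h} p^(2δ-1))`
(`2δ ≤ 1/2`), and `∑_{p ∣ h} p^(2δ-1) ≤ 2 (log (ll h) + C) + 2` (`p ≤ L`: `p^(2δ) ≤ L^(1/(2 ll h)) = e^(1/2)`;
`p > L`: at most `2L` primes, each `p^(2δ-1) ≤ 2/L`). -/
def fpZ2 : Prop := ∀ A r : ℕ, ∃ C : ℝ, 0 < C ∧ ∀ h : ℕ, 1 ≤ h →
  ∑ g ∈ h.divisors, (g.divisors.card : ℝ) ^ A * ((g : ℝ) / (Nat.totient g : ℝ)) ^ 2 *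
    (1 + Real.log g) ^ (2 * r) * (g : ℝ) ^ (1 / (4 * ll h)) / (g : ℝ) ≤ C * ll h ^ C

/-- Z3 (MEDIUM; uses Z2; model: `TS/I_Z3.lean`): the tail of the singular series, for EVERY `h`.  PROOF.  As in
TS.Z3 with `w(q) = d(q)^(2r) (q/φ(q))² (1+log q)^(2r)`: `(be r q)² ≤ w(q)/q²`, `w(g m) ≤ w(g) w(m)`,
`|Gh h q| ≤ ∑_{g ∣ q, g ∣ h} g`, so the sum is `≤ ∑_{g ∣ h} (w(g)/g) ∑_{m : g m > Q} w(m)/m²`.  For `g > √Q`: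
`∑_m w(m)/m² ≤ C` and `1 ≤ (g/√Q)^(1/(4 ll h))`, so with Z2 (`A = 2r`) these contribute
`≤ C ll^C Q^(-1/(8 ll h))`.  For `g ≤ √Q`: `m > √Q`, `∑_{m > √Q} w(m)/m² ≤ Q^(-1/8) ∑_m w(m) m^(-7/4) ≤ C Q^(-1/8)`,
and `Q^(-1/8) ≤ Q^(-1/(8 ll h))` as `ll h ≥ 1`. -/
def fpZ3 : Prop := ∀ r : ℕ, 1 ≤ r → ∃ C : ℝ, 0 < C ∧ ∀ h Q Q' : ℕ, 1 ≤ h → 1 ≤ Q →
  ∑ q ∈ Finset.Ioc Q Q', |Gh h q| * be r q ^ 2 ≤
    C * ll h ^ C * Real.exp (-(Real.log Q / (8 * ll h)))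

/-- Z4 (MEDIUM; uses Z3, TS.F9, TS.G2, TS.Z1, TS.Z3): the polynomial `P_h` and its partial sums, for EVERY `h`.
PROOF.  TS.Z1: `|(E q).coeff j| ≤ C be r q`; so the coefficients of `ed (E q)` and of `ed (E q) ^ 2` are `≤ C be r q`,
`≤ C (be r q)²`, and by F9 those of `rr (ed (E q) ^ 2)` too; they vanish in degrees `> 2 (r-1)`.  The series defining
the coefficients of `PH` converge absolutely (G2; `Gh h 0 = 0`); the tail over `q > Q` is a limit of the finite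
sums over `Ioc Q Q'`, at most `C ll^C exp (-log Q/(8 ll h))` (Z3).  Sum over the `2r-1` coefficients times
`t^j ≤ (1+t)^(2(r-1))`.  Second part: the coefficient is at most the sum over all `q ≥ 1`, TS.Z3 in the limit. -/
def fpZ4 : Prop := ∀ (r : ℕ) (E : ℕ → Polynomial ℝ), 1 ≤ r → AP r E → CB E → ∃ C : ℝ, 0 < C ∧
  ∀ h : ℕ, 1 ≤ h → (∀ (Q : ℕ) (t : ℝ), 1 ≤ Q → 0 ≤ t →
    |(PH r E h).eval t - ∑ q ∈ Finset.Icc 1 Q, Gh h q * (rr (ed (E q) ^ 2)).eval t| ≤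
      C * ll h ^ C * Real.exp (-(Real.log Q / (8 * ll h))) * (1 + t) ^ (2 * (r - 1))) ∧
  ∀ j, |(PH r E h).coeff j| ≤ C * ll h ^ C

/-- Z5 (EASY-MEDIUM; uses Z4, TS.F9, TS.Z1, TS.Z3): the main term.  PROOF.  `R_q = rr (ed (E q)^2)`, `ed R_q = ed (E q)^2`
(F9), and `(ed R)(log t)` is the derivative of `t R(log t)`, so `∫_1^X (ed (E q))(log t)² dt = X R_q(log X) - R_q(0)`.
Sum with Z4 at `t = log X`; `∑_{q ≤ Q} |Gh h q| |R_q(0)| ≤ C ∑ |Gh h q| (be r q)² ≤ C ll^C` (TS.Z3). -/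
def fpZ5 : Prop := ∀ (r : ℕ) (E : ℕ → Polynomial ℝ), 1 ≤ r → AP r E → CB E → ∃ C : ℝ, 0 < C ∧
  ∀ (h Q : ℕ) (X : ℝ), 1 ≤ h → 1 ≤ Q → 3 ≤ X →
    |(∑ q ∈ Finset.Icc 1 Q, Gh h q * ∫ t in (1 : ℝ)..X, ((ed (E q)).eval (Real.log t)) ^ 2) -
      X * (PH r E h).eval (Real.log X)| ≤
    C * ll h ^ C * (1 + X * Real.log X ^ (2 * r) * Real.exp (-(Real.log Q / (8 * ll h))))

/-- S1 (EASY; uses TS.L0): the numbers `be r q`.  PROOF.  `φ(q) ≥ q/d(q)` (`q/φ(q) = ∑_{e ∣ q} μ²(e)/φ(e) ≤ d(q)`), so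
`be r q ≤ d(q)² dr r q (1+log q)^r/q`, and L0 (`d = dr 2`). -/
def fpS1 : Prop := ∀ (r : ℕ) (ε : ℝ), 0 < ε → ∃ C : ℝ, 0 < C ∧ ∀ q : ℕ, 1 ≤ q →
  0 ≤ be r q ∧ be r q ≤ C * (q : ℝ) ^ (ε - 1)

/-- S2 (MEDIUM): pointwise bound of a model.  PROOF.  `|(ed (E' q))(log n)| ≤ 2r M be r q (1+log 3X)^r` and
`|Gh n q| ≤ ∑_{g ∣ q, g ∣ n} g`, so `|fs E' Q n| ≤ C M (log X)^r ∑_{g ∣ n} g ∑_{m ≤ Q/g} be r (g m)`.
`be r (g m) ≤ be r g be r m`: `d`, `dr r` are submultiplicative, `φ(g m) ≥ φ(g) φ(m)`,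
`1 + log (g m) ≤ (1+log g)(1+log m)`.  `q/φ(q) ≤ d(q)` gives `g be r g ≤ d(g)² dr r g (1+log X)^r ≤
dr (4r) g (1+log X)^r` (TS.X2: `d² ≤ dr 4`, `dr 4 · dr r ≤ dr (4r)`) and `∑_{m ≤ Q} be r m ≤ (1+log X)^r
∑_{m ≤ Q} dr (4r) m/m ≤ (1+log X)^(5r)`.  Finally `∑_{g ∣ n} dr (4r) g = dr (4r+1) n`. -/
def fpS2 : Prop := ∀ r : ℕ, 1 ≤ r → ∃ C : ℝ, 0 < C ∧ ∀ (E' : ℕ → Polynomial ℝ) (M X : ℝ) (Q n : ℕ),
  3 ≤ X → 0 ≤ M → (∀ s, (E' s).natDegree ≤ r - 1) →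
  (∀ s j, 1 ≤ s → |(E' s).coeff j| ≤ M * be r s) → (Q : ℝ) ≤ X → 1 ≤ n → (n : ℝ) ≤ 3 * X →
  |fs E' Q n| ≤ C * M * Real.log X ^ C * dr (4 * r + 1) n

/-- V1 (EASY-MEDIUM; uses TS.Z1; model: `TS/I_K5.lean`): degree and coefficients of `E0`.  PROOF.  As K5: the
coefficients of `P.comp (X - C l)`, `0 ≤ l ≤ log X`, are `≤ r 2^r max|P_i| (1+log X)^r`.  Twice:
`|(E0 q).coeff j| ≤ C (1+log X)^(2r) be r q (∑_{s ≤ S} |k s|/s) (∑_{p ≤ w} 1/p)`, `|k s| ≤ dr (2r) s`,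
`∑_{s ≤ S} dr (2r) s/s ≤ (1+log X)^(2r)`. -/
def fpV1 : Prop := ∀ (r : ℕ) (E : ℕ → Polynomial ℝ), 1 ≤ r → AP r E → CB E → ∃ C : ℝ, 0 < C ∧
  ∀ (X z w : ℝ) (k : ℕ → ℝ) (S q : ℕ), KK r z w k → 3 ≤ X → 1 ≤ w → w ≤ X → (S : ℝ) ≤ X →
  (E0 r k E z w S q).natDegree ≤ r - 1 ∧
  ∀ j, 1 ≤ q → |(E0 r k E z w S q).coeff j| ≤ C * Real.log X ^ C * be r q

/-- V2 (MEDIUM): the means of `fS(n) e(a n/q)`.  PROOF.  `fS n = r ∑_{s ∣ n, s ≤ S} k(s) ∑_{p ∈ PW, p ∣ n/s} dr(n/(ps))`, so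
`SS fS ⌊x⌋ (a/q) = r ∑_{s ≤ S} k(s) ∑_{p ∈ PW} ∑_{m ≤ x/(ps)} dr r m ee(m (a p s)/q)`.  For `k(s) ≠ 0` (`Wsm s`) the
primes of `p s` are `> z`, those of `q` are `≤ z`: `a p s` is coprime to `q`, and `x/(ps) ≥ x^(3/4) ≥ 1`.  AP:
the inner sum is `(x/(ps)) (E q)(log x - log p - log s) + O(C q^C (x/(ps))^(1-c))`; the main terms give exactly
`x (E0 q)(log x)`.  The errors: `≤ C r q^C x^(1-c) ∑_{s ≤ S} dr (2r) s s^(c-1) ∑_{p ≤ w} p^(c-1) ≤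
C r q^C x^(1-c) (S w)^c (1+log x)^(2r+1) ≤ C q^C x^(1-c+c/4) (1+log x)^(2r+1) ≤ C' q^C x^(1-c/2)`. -/
def fpV2 : Prop := ∀ (r : ℕ) (E : ℕ → Polynomial ℝ), 1 ≤ r → AP r E → CB E → ∃ c C : ℝ, 0 < c ∧
  0 < C ∧ ∀ (x z w : ℝ) (k : ℕ → ℝ) (S q : ℕ) (a : ℤ), KK r z w k → 1 ≤ x → 1 ≤ w → 1 ≤ S →
  (S : ℝ) * w ≤ x ^ (1 / 4 : ℝ) → 1 ≤ q → (∀ p ∈ q.primeFactors, (p : ℝ) ≤ z) →
  IsCoprime a (q : ℤ) →
  ‖SS (fS r k z w S) ⌊x⌋₊ (a / q) - ((x * (E0 r k E z w S q).eval (Real.log x) : ℝ) : ℂ)‖ ≤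
    C * (q : ℝ) ^ C * x ^ (1 - c)

/-- G1 (EASY-MEDIUM; model: `TS/I_E4.lean`): a polynomial bounded on `[A, 2A]`.  PROOF.  As E4:
`p(A s) = ∑_i p(A s_i) ℓ_i(s)` with `s_i = 1 + i/(d+1)`; for `s ∈ [0, 2]` the `|ℓ_i(s)|`, `|ℓ_i'(s)|` are bounded by
constants, so `|p(A s)| ≤ C M`, `A |p'(A s)| ≤ C M`. -/
def fpG1 : Prop := ∀ d : ℕ, ∃ C : ℝ, 0 < C ∧ ∀ p : Polynomial ℝ, p.natDegree ≤ d → ∀ A M : ℝ,
  1 ≤ A → 0 ≤ M → (∀ t ∈ Set.Icc A (2 * A), |p.eval t| ≤ M) → ∀ t ∈ Set.Icc 0 (2 * A),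
  |p.eval t| ≤ C * M ∧ |(Polynomial.derivative p).eval t| ≤ C * M / A

/-- G2 (MEDIUM; uses P1, P2, B4, C2, V2, TS.E1, TS.N1): the means of `d_r` and of `fS` are close.  PROOF.
`z = zc X`, `w = wc X H`, `S = Sc H`, `l = l2 X`; `x ∈ [X^(1/2), X]`, `X` large; `S w ≤ H^(1/16) H^(1/l²) ≤ X^(1/8) ≤
x^(1/4)`, `w ≤ X^(1/8) ≤ x/e`, `3 ≤ x/e` for `e ∣ q` (`q ≤ exp (l³) = z`, P1).  All primes of `q` are `≤ q ≤ z`.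
AP and V2 for all reduced `a` mod `q`, summed; by TS.E1
`φ(q) x (E q - E0 q)(log x) = ∑_{n ≤ x} (dr n - fS n) Gh n q + O(q · C q^C x^(1-c))`.  By A1
`|dr n - fS n| ≤ dfree n + tau n`, and `|Gh n q| ≤ ∑_{e ∣ q, e ∣ n} e`, so by C2 and B4 the sum is
`≤ ∑_{e ∣ q} C x (dr r e (log X)^(r-1) exp (-r pw z w) + dr (3r+1) e (log X)^C (1/z + exp (-log S/log w)))`.
`1/z = exp (-l³)`, `log S/log w ≥ l²/20`, and `exp (-r pw z w) ≥ c (log X)^(-r)` (N1); so for large `X` the second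
part is smaller than the first, and `q^(C+1) x^(-c) ≤ exp ((C+1) l³) X^(-c/2)` too.  So
`|(E q - E0 q)(log x)| ≤ C (d(q) dr (3r+1) q/φ(q)) (log X)^(r-1) exp (-r pw z w)`. -/
def fpG2 : Prop := ∀ (r : ℕ) (E : ℕ → Polynomial ℝ), 2 ≤ r → AP r E → CB E → ∃ C X0 : ℝ, 0 < C ∧
  ∀ (X H x : ℝ) (k : ℕ → ℝ) (q : ℕ), X0 ≤ X → l2 X ^ 6 ≤ Real.log H → H ≤ X → 0 < H →
  KK r (zc X) (wc X H) k → 1 ≤ q → (q : ℝ) ≤ Real.exp (l2 X ^ 3) → X ^ (1 / 2 : ℝ) ≤ x → x ≤ X →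
  |(E q - E0 r k E (zc X) (wc X H) (Sc H) q).eval (Real.log x)| ≤
    C * be (3 * r + 1) q * (Real.log X ^ (r - 1) * Real.exp (-(r * pw (zc X) (wc X H))))

/-- G3 (MEDIUM; uses G1, G2, V1, TS.Z3): the main term of the unstructured part.  PROOF.  `D = E q - E0 q` has degree
`≤ r-1` (V1; `(E q).natDegree ≤ r-1` by AP) and is `≤ M_q = C be(3r+1, q) ϖ` on `[log X/2, log X]`,
`ϖ = (log X)^(r-1) exp (-r pw z w)` (G2 with `x = e^t`).  G1 with `A = log X/2`: `|ed D| ≤ 2 C M_q` on `[0, log X]`, and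
`ed (E q) - ed (E0 q) = ed D`.  So each integral is `≤ C X be(3r+1, q)² ϖ²`; TS.Z3 with `3r+1` in place of `r`. -/
def fpG3 : Prop := ∀ (r : ℕ) (E : ℕ → Polynomial ℝ), 2 ≤ r → AP r E → CB E → ∃ C X0 : ℝ, 0 < C ∧
  ∀ (X H : ℝ) (k : ℕ → ℝ) (Q h : ℕ), X0 ≤ X → l2 X ^ 6 ≤ Real.log H → H ≤ X → 0 < H →
  KK r (zc X) (wc X H) k → (Q : ℝ) ≤ Real.exp (l2 X ^ 3) → 1 ≤ h →
  |∑ q ∈ Finset.Icc 1 Q, Gh h q * ∫ t in (1 : ℝ)..X, ((ed (E q)).eval (Real.log t) -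
      (ed (E0 r k E (zc X) (wc X H) (Sc H) q)).eval (Real.log t)) ^ 2| ≤
    C * ll h ^ C * X * Real.log X ^ (2 * r - 2) * Real.exp (-(2 * r * pw (zc X) (wc X H)))

end Pool.Agent.Work.MP_122e00_nt.FP
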