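import Mathlib
import Pool.Agent.Work.MP_122e00_nt.FP.Defs

/-!
# Full polynomial, part B: Weyl sums with polynomial losses, the second moment over the shifts, pairs
without window primes, correlations of the models

Every docstring is a complete proof.  Earlier items (and items of `TS`) are hypotheses: item `B.X`
is the file `FP/I_X.lean`, theorem `prX`; the hypotheses `tsY` of `TS` are theorems (`TS/I_Y.lean`).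
-/

namespace Pool.Agent.Work.MP_122e00_nt.FP

open Finset Filter Topology ArithmeticFunction MeasureTheory
open Pool.Agent.Work.MP_122e00_nt.TS
open scoped ArithmeticFunction.zeta ArithmeticFunction.Moebius

/-! ### Weyl sums -/

/-- WT1 (EASY; uses TS.GS; model: `TS/I_W1.lean`): degree one.  PROOF.  `C = 1`, `q = 1`, `m = round α`,
`α = f.coeff 1`; `f.eval k = α k + f.coeff 0`, so the sum has norm `‖∑ ee (k α)‖ ≥ K/T`, and GS gives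
`nn α ≤ T/(2K) ≤ T/K`. -/
def fpWT1 : Prop := WeylT 1

/-- WT2 (MEDIUM; uses TS.W2, TS.W3; model: `TS/I_W4.lean`): the induction step.  PROOF.  `C` that of `WeylT d`,
`Q₀ = C (4T²)^C = C 4^C T^(2C)`, `α = f.coeff (d+1)`.  If `K < 200 T² Q₀²` take `q = 1`, `m = round α`: `nn α ≤ 1 ≤
(200 T² Q₀²)^(d+1)/K^(d+1)`.  Let `K ≥ 200 T² Q₀²` (so `K ≥ 8T²`).  `S_h = ∑_{k ∈ Ioc A (B-h)} ee(f_h k)`,
`f_h(x) = f(x+h) - f(x)`, `‖S_h‖ ≤ K`; W2: `K²/T² ≤ K + 2 ∑_{h ≤ K} ‖S_h‖`, `K ≤ K²/(8T²)`.  Let `n₁` be the number of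
`h ∈ [1, K]` with `‖S_h‖ ≥ K/(4T²)`; the others contribute `≤ 2 K · K/(4T²) = K²/(2T²)`, so `2 n₁ K ≥ (3/8) K²/T²`,
`n₁ ≥ K/(8T²)`.  For these `h` `WeylT d` (with `4T²`; `natDegree f_h ≤ d`, its coefficient of degree `d` is
`(d+1) h α`; `B - h ≤ A + K`) gives `q_h ∈ [1, Q₀]`, `|q_h (d+1) h α - m_h| ≤ Q₀/K^d`.  Pigeonhole: one `q` serves at
least `κ K` of them, `κ = 1/(8T²Q₀) ≤ 1`.  W3 with `β = q (d+1) α`, `N = K`, `ε = Q₀/K^d`, `ε ≤ κ/25` because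
`K^d ≥ K ≥ 200 T² Q₀²`: `q₂ ≤ 12/κ = 96 T² Q₀`, `|q₂ β - m| ≤ ε/(κK) = 8 T² Q₀²/K^(d+1)`.  The wanted integer is
`q₂ q (d+1) ≤ 96 (d+1) T² Q₀²`.  With `T ≥ 1` everything is `≤ C' T^C'`, `/K^(d+1)`, for
`C' = (200 (d+1) C² 16^C)^(d+1) + (4C+2)(d+1)`. -/
def fpWT2 : Prop := ∀ d : ℕ, 1 ≤ d → WeylT d → WeylT (d + 1)

/-- TW (EASY-MEDIUM; uses WT1, WT2; model: `TS/I_W5.lean`, `TS/I_T1.lean`): the frequencies where the Weyl sum of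
`F` is large.  PROOF.  Induction: `WeylT d` for `d = F.natDegree ≥ 1`, constant `C₀`.  `L = F.leadingCoeff ≥ 1`.
`ee((fv F k) t/M) = ee(f.eval k)` for `k > A`, `f = (t/M) F` (a real polynomial, `f.coeff d = (t/M) L`), interval
`Ioc A K` (empty if `K < A`; `K ≤ A + K`).  So there is `q ≥ 1`, `q ≤ C₀T^C₀`, `|q L t/M - m| ≤ C₀T^C₀/K^d`; divide by
`q L ≥ 1`.  `Γ` is the set of all `m/(q L)` with `1 ≤ q ≤ C₀T^C₀`, `|m| ≤ q L + C₀T^C₀` (`0 ≤ t/M < 1`, `K ≥ 1`): at most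
`C₀T^C₀ (2 (C₀T^C₀ L + C₀T^C₀) + 1) ≤ C T^C` elements, `C = (2L+3) C₀² + 2C₀`. -/
def fpTW : Prop := ∀ (F : Polynomial ℤ) (A : ℕ), 1 ≤ F.natDegree → 0 < F.leadingCoeff →
  (∀ k : ℕ, A < k → 1 ≤ F.eval (k : ℤ)) → ∃ C : ℕ, 1 ≤ C ∧ ∀ (K : ℕ) (T : ℝ), 1 ≤ K → 1 ≤ T →
  ∃ Γ : Finset ℝ, (Γ.card : ℝ) ≤ C * T ^ C ∧
  ∀ M t : ℕ, t < M → (K : ℝ) / T < ‖∑ k ∈ Finset.Ioc A K, ee ((fv F k : ℝ) * t / M)‖ →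
    ∃ g ∈ Γ, |(t : ℝ) / M - g| ≤ C * T ^ C / (K : ℝ) ^ F.natDegree

/-- Q1 (MEDIUM; uses TS.Q5, TS.H2, TW; model: `TS/I_X17.lean`): the second moment over the shifts.  PROOF.
`d = deg F`, `H = K^d`, `l = l2 X`, `N = ⌊X⌋`, `H' = ⌊X/2⌋`, `κ = Ioc A K`, `T = (log X)^B`, `B = 2 C₁ + A₁ + 2` (a
natural number; we may take `C₁`, `A₁` natural numbers, as `log X ≥ 1`).  `C`, `Γ` of TW, `w = K/T`,
`L = ⌊K^d/(8 C T^C)⌋`, `M = N + H' + L + 1`.  For large `X`: `C T^C = C exp(B C l)`, `log H ≥ l⁶`, so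
`H^(3/4) ≤ H/(16 C T^C) ≤ L ≤ H`, `L ≥ 1`, and `C T^C/K^d ≤ 1/(8L)`; `nn(x) ≤ |x|`; `F(k) ≤ C K^d ≤ C X^θ₂ ≤ H'` (H2) for
`k ≤ K`; `N + H' ≤ 2X`.  Q5 (first part) with `Y = L² X exp(-l²)`: the sum is at most
`(K/T) (X (log X)^C₁)² + K · C T^C · 4 X exp(-l²) · X (log X)^C₁`.  The first term is `≤ K X² (log X)^(-A₁)/2`, and
`exp(-l²)` is smaller than every power of `log X = exp l`.  Second part: Q5, second part, with `N + H' ≤ 2X`.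
(`K ≥ 1`, since `log H ≥ l⁶ > 0`.) -/
def fpQ1 : Prop := ∀ (F : Polynomial ℤ) (A : ℕ), 1 ≤ F.natDegree → 0 < F.leadingCoeff →
  (∀ k : ℕ, A < k → 1 ≤ F.eval (k : ℤ)) → ∀ C₁ A₁ θ₂ : ℝ, 0 < θ₂ → θ₂ < 1 → ∃ X1 : ℝ,
  ∀ (X H : ℝ) (K : ℕ) (u v : ℕ → ℝ), X1 ≤ X → H = (K : ℝ) ^ F.natDegree →
  l2 X ^ 6 ≤ Real.log H → H ≤ X ^ θ₂ →
  ∑ n ∈ Finset.Icc 1 ⌊2 * X⌋₊, u n ^ 2 ≤ X * Real.log X ^ C₁ →
  ∑ n ∈ Finset.Icc 1 ⌊2 * X⌋₊, v n ^ 2 ≤ X * Real.log X ^ C₁ →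
  ((∀ (γ : ℝ) (N L : ℕ), (N : ℝ) ≤ 2 * X → H ^ (3 / 4 : ℝ) ≤ L → (L : ℝ) ≤ H →
      SI u N L γ ≤ (L : ℝ) ^ 2 * X * Real.exp (-(l2 X ^ 2))) →
    ∑ k ∈ Finset.Ioc A K, cor u v ⌊X⌋₊ (fv F k) ^ 2 ≤ K * X ^ 2 * Real.log X ^ (-A₁)) ∧
  ((∀ (γ : ℝ) (N L : ℕ), (N : ℝ) ≤ 2 * X → H ^ (3 / 4 : ℝ) ≤ L → (L : ℝ) ≤ H →
      SI v N L γ ≤ (L : ℝ) ^ 2 * X * Real.exp (-(l2 X ^ 2))) →
    ∑ k ∈ Finset.Ioc A K, cor u v ⌊X⌋₊ (fv F k) ^ 2 ≤ K * X ^ 2 * Real.log X ^ (-A₁))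

/-! ### Pairs without window primes -/

/-- D1 (EASY-MEDIUM; uses TS.N6): the local sums.  PROOF.  `ow z w (p^i p^j) ≥ 1` for `p ∈ PW z w`, `i + j ≥ 1`, so
all terms of `LF` vanish.  If `p ∉ PW z w` then `ow z w (p^i p^j) = 0` (the only prime factor is `p`), `Wz = Wp r z w 1 σ`
at these arguments, and N6 with `y = 1`. -/
def fpD1 : Prop := ∀ r : ℕ, 1 ≤ r → ∃ C : ℝ, 0 < C ∧ ∀ (z w σ : ℝ) (h M p : ℕ), p.Prime →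
  0 ≤ σ → σ ≤ 1 / 16 → LF (Wz r z w σ) h M p ≤ if p ∈ PW z w then 0 else
    (if p ∣ h then (r : ℝ) ^ 2 * (p : ℝ) ^ (2 * σ - 1) else 2 * r * (p : ℝ) ^ (σ - 1)) +
    C * (p : ℝ) ^ (-(3 / 2) : ℝ)

/-- D2 (MEDIUM; uses TS.N1, TS.N5, D1; model: `TS/I_N7.lean`): the sum over the admissible pairs.  PROOF.  `Wz`
satisfies the hypotheses of N5: it is `≥ 0`; if `Wz (a p^i) (b p^j) ≠ 0` (`p ∤ a`, `p ∤ b`) then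
`ow (a p^i b p^j) = 0`, so `ow (a b) = 0`, `ow (p^(i+j)) = 0`, and `Wp` is multiplicative as in N7.  `Wz 1 1 = 1`.
`∏ (1 + LF) ≤ exp (∑ LF)`, D1, `∑ p^(-3/2) ≤ 3`.  For `τ ≤ 2σ`: `p^τ ≤ 1 + 2σ log p Z^(2σ)`, so `∑_{p ≤ Z} LF ≤
2r ∑_{p ≤ Z, p ∉ PW} 1/p + (r²-2r) ∑_{p ≤ Z, p ∣ h} 1/p + (2r+r²) 2σ Z^(2σ) ∑_{p ≤ Z} (log p)/p + 3C`
(`r² - 2r ≥ 0`), and `∑_{p ≤ Z, p ∉ PW} 1/p = ∑_{p ≤ Z} 1/p - pw z (min w Z)`.  N1. -/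
def fpD2 : Prop := ∀ r : ℕ, 2 ≤ r → ∃ C : ℝ, 0 < C ∧ ∀ (z w σ : ℝ) (h Z M : ℕ), 1 ≤ h → 2 ≤ Z →
  0 ≤ σ → σ ≤ 1 / 16 → ∑ q ∈ AdP h Z M, Wz r z w σ q.1 q.2 ≤
    Real.exp (C + C * σ * (Z : ℝ) ^ (2 * σ) * (1 + Real.log Z) - 2 * r * pw z (min w Z) +
      ((r : ℝ) ^ 2 - 2 * r) * Sh h) * Real.log Z ^ (2 * r)

open Classical in
/-- D3 (MEDIUM-HARD; uses TS.N1, TS.N4, TS.N8, D2; model: `TS/I_N9.lean`): one bucket.  PROOF.  Word for word N9.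
For `n` in the bucket choose `Z_n`; `a = sm Z_n n`, `a' = sm Z_n (n+h)`.  If `dfree n · dfree (n+h) ≠ 0` then
`ow n = ow (n+h) = 0`, so `ow (a a') = 0` (`a ∣ n`, `a' ∣ n+h`), and by N8 (twice, `k = s+1`, `y = 1`)
`dfree n · dfree (n+h) ≤ d_r(a) d_r(a') (2r)^(2s+2)`.  `n ∈ Ns X h a a' Z'` as in N9, N4, `1 ≤ (a a'/T)^σ`:
sum `≤ (2r)^(2s+2) C X (h/φ(h)) (s+1)² (log X)^(-2) T^(-σ) ∑_{AdP} Wz`.  D2 with `Z = ⌊X^(1/s)⌋` in place of N7: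
the additional factor is `exp (-2r pw z (min w Z))`, and
`-2r pw z (min w Z) ≤ -2r pw z w + 2r ∑_{Z < p ≤ w} 1/p ≤ -2r pw z w + 2r (log (2s) + C)` (N1; `w ≤ X`,
`Z ≥ X^(1/(2s))`).  The rest as in N9. -/
def fpD3 : Prop := ∀ r : ℕ, 2 ≤ r → ∃ C : ℝ, 0 < C ∧ ∀ (X z w σ T : ℝ) (h s : ℕ), 32 ≤ s →
  4 ≤ X ^ (1 / ((s : ℝ) + 1)) → 1 ≤ h → (h : ℝ) ≤ X → w ≤ X → 0 ≤ σ →
  σ ≤ 1 / 16 → σ * Real.log X ≤ s * Real.log s / 4 → 0 < T →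
  ∑ n ∈ (Finset.Icc 1 ⌊X⌋₊).filter (Bk X T h s), dfree r z w n * dfree r z w (n + h) ≤
    Real.exp (C * s - 2 * r * pw z w + ((r : ℝ) - 1) ^ 2 * Sh h) * T ^ (-σ) * X *
      Real.log X ^ (2 * r - 2)

/-- D4 (MEDIUM; uses TS.L0, TS.N1, TS.N10, TS.N11, D3; model: `TS/I_N12.lean`, `TS/I_X18.lean`): pairs without window
primes.  PROOF.  As N12.  By N11 the sum is at most (a) the bucket `(32, 1/2)`: D3 with `σ = 0`; (b) for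
`32 ≤ s ≤ S₀` the buckets `(s, X^(1/8))`: D3 with `σ = s log s/(4 log X) ≤ 1/16`, and
`∑_s exp (C s - s log s/32) ≤ C'`; (c) `n` or `n+h` in `Ex X`: number `≤ 2 X^(1-1/200)` (N10), each term
`≤ d_r(n) d_r(n+h) ≤ C X^(1/1000)` (L0), so `≤ X^(1-1/300)` for large `X`; the right hand side is
`≥ C exp (-2r pw z w) X`, and `pw z w ≤ log (log w/log z) + C ≤ log log X + C` (N1; `log z ≥ log 2`), so it is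
`≥ c X (log X)^(-2r)`. -/
def fpD4 : Prop := ∀ r : ℕ, 2 ≤ r → ∃ C X0 : ℝ, 0 < C ∧ ∀ (X z w : ℝ) (h : ℕ), X0 ≤ X → 2 ≤ z →
  z ≤ w → w ≤ X ^ (1 / 4 : ℝ) → 1 ≤ h → (h : ℝ) ≤ X →
  ∑ n ∈ Finset.Icc 1 ⌊X⌋₊, dfree r z w n * dfree r z w (n + h) ≤
    C * Real.exp (-(2 * r * pw z w) + ((r : ℝ) - 1) ^ 2 * Sh h) * X * Real.log X ^ (2 * r - 2)

/-! ### Correlations of the models -/

/-- H0 (MEDIUM; model: `TS/I_Y2.lean`): a twisted sum of `d_r(n)` with a shifted smooth weight.  PROOF.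
`c₀ ≤ 1/4`, `C₀` of AP, `e = E q`, `α = a/q`, `g(t) = p(log(t+h))`, `S(t) = SS (dr r) ⌊t⌋ α = t e(log t) + R(t)`,
`‖R(t)‖ ≤ C₀ q^C₀ t^(1-c₀)` for `t ≥ 1` (AP).  Abel summation: the sum is `g(X) S(X) - ∫_1^X g'(t) S(t) dt`.  With
`G(t) = t e(log t)`, `G'(t) = (ed e)(log t)`, the main part is `g(1) G(1) + ∫_1^X g(t) G'(t) dt`,
`|g(1) G(1)| = |p(log(1+h)) e(0)| ≤ C M (1+log 2X)^r` (CB with `ε = 1`), and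
`|g(t) - p(log t)| ≤ log(1+h/t) r² M (1+log 2X)^r ≤ (h/t) r² M (1+log 2X)^r`, whose integral against
`|G'| ≤ C (1+log 2X)^r` is `≤ C M h (1+log 2X)^(2r+1) ≤ C M X^θ (1+log 2X)^(2r+1)`.  The `R` part is
`≤ C M (1+log 2X)^(r+1) q^C₀ X^(1-c₀)` (`|g'(t)| ≤ r² M (1+log 2X)^r/t`).  `c = min (c₀/2) ((1-θ)/2)`. -/
def fpH0 : Prop := ∀ (r : ℕ) (E : ℕ → Polynomial ℝ) (θ : ℝ), 1 ≤ r → AP r E → CB E → 0 < θ → θ < 1 →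
  ∃ c C X0 : ℝ, 0 < c ∧ 0 < C ∧ ∀ (p : Polynomial ℝ) (M X : ℝ) (q h : ℕ) (a : ℤ), X0 ≤ X → 0 ≤ M →
  p.natDegree ≤ r - 1 → (∀ j, |p.coeff j| ≤ M) → 1 ≤ q → IsCoprime a (q : ℤ) → 1 ≤ h →
  (h : ℝ) ≤ X ^ θ →
  ‖∑ n ∈ Finset.Icc 1 ⌊X⌋₊, ((p.eval (Real.log ((n : ℝ) + h)) * dr r n : ℝ) : ℂ) *
      ee ((n : ℝ) * (a / q)) -
    ((∫ t in (1 : ℝ)..X, p.eval (Real.log t) * (ed (E q)).eval (Real.log t) : ℝ) : ℂ)‖ ≤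
  C * M * (q : ℝ) ^ C * X ^ (1 - c)

/-- H1 (MEDIUM; uses TS.E1, H0; model: `TS/I_Y3.lean`): the correlation of `d_r` with a model, for every shift.
PROOF.  `cor (dr r) (fs E' Q) N h = ∑_{q ≤ Q} ∑_n d_r(n) Gh (n+h) q p_q(log(n+h))`, `p_q = ed (E' q)` (degree
`≤ r-1`, coefficients `≤ (r+1) M`).  E1: `Gh (n+h) q = ∑_a ee(h a/q) ee(n a/q)` over the reduced `a` mod `q`.  H0 for
each `a`, and `∑_a ee(h a/q) = Gh h q` (E1).  Total error `≤ Q² C (r+1) M Q^C X^(1-c)`.  `η = c/(2(C+2))`, `δ = c/4`,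
`X` large (`(r+1) C ≤ X^(c/4)`). -/
def fpH1 : Prop := ∀ (r : ℕ) (E : ℕ → Polynomial ℝ) (θ : ℝ), 1 ≤ r → AP r E → CB E → 0 < θ → θ < 1 →
  ∃ η δ X0 : ℝ, 0 < η ∧ 0 < δ ∧ ∀ (E' : ℕ → Polynomial ℝ) (M X : ℝ) (Q h : ℕ), X0 ≤ X → 0 ≤ M →
  (∀ s, (E' s).natDegree ≤ r - 1) → (∀ s j, 1 ≤ s → |(E' s).coeff j| ≤ M) → (Q : ℝ) ≤ X ^ η →
  1 ≤ h → (h : ℝ) ≤ X ^ θ →
  |cor (dr r) (fs E' Q) ⌊X⌋₊ h - ∑ q ∈ Finset.Icc 1 Q, Gh h q *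
    ∫ t in (1 : ℝ)..X, (ed (E' q)).eval (Real.log t) * (ed (E q)).eval (Real.log t)| ≤
  M * X ^ (1 - δ)

/-- H2 (MEDIUM; uses TS.F2, TS.F3, TS.F7, TS.F8, TS.F9; model: `TS/I_G3.lean`): the correlation of a model with
itself.  PROOF.  `N = ⌊X⌋`, `p_q = ed (E' q)`, coefficients `≤ (r+1) M`, degree `≤ r-1`.
`cor = ∑_{q, q' ≤ Q} ∑_{n ≤ N} Gh n q Gh (n+h) q' p_q(log n) p_q'(log(n+h))`.  F7 with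
`b n = p_q(log n) p_q'(log(n+h))` and F2 (`V ≤ C M² (1 + log(N+h))^(2r)`): up to an error
`≤ Q⁶ C M² (1+log 2X)^(2r)` it is `∑_{q ≤ Q} Gh h q ∑_{n ≤ N} p_q(log n) p_q(log(n+h))`.  F8 and `|Gh h q| ≤ q` (a sum of
at most `q` numbers of norm `1`): replacing `log(n+h)` by `log n` costs `≤ Q² C M² h (1+log 2X)^(2r+1)`.
`p_q² = ed R_q`, `R_q = rr (p_q²)` with coefficients `≤ C M²` (F9); F3: `∑_{n ≤ N} p_q(log n)² = X R_q(log X) +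
O(M² (1+log X)^(2r))`, and `(ed R)(log t)` is the derivative of `t R(log t)`, so
`∫_1^X p_q(log t)² dt = X R_q(log X) - R_q(0)`; sum over `q`: `≤ Q² C M² (1+log X)^(2r)`.  With
`η = min (1/100) ((1-θ)/8)`, `δ = min (1/2) ((1-θ)/4)` all errors are `≤ M² X^(1-δ)/4` for large `X`. -/
def fpH2 : Prop := ∀ (r : ℕ) (θ : ℝ), 1 ≤ r → 0 < θ → θ < 1 →
  ∃ η δ X0 : ℝ, 0 < η ∧ 0 < δ ∧ ∀ (E' : ℕ → Polynomial ℝ) (M X : ℝ) (Q h : ℕ), X0 ≤ X → 0 ≤ M →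
  (∀ s, (E' s).natDegree ≤ r - 1) → (∀ s j, 1 ≤ s → |(E' s).coeff j| ≤ M) → (Q : ℝ) ≤ X ^ η →
  1 ≤ h → (h : ℝ) ≤ X ^ θ →
  |cor (fs E' Q) (fs E' Q) ⌊X⌋₊ h - ∑ q ∈ Finset.Icc 1 Q, Gh h q *
    ∫ t in (1 : ℝ)..X, ((ed (E' q)).eval (Real.log t)) ^ 2| ≤
  M ^ 2 * X ^ (1 - δ)

end Pool.Agent.Work.MP_122e00_nt.FP
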