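import Mathlib
import Pool.Agent.Work.MP_122e00_nt.FP.StmtsA

/-!
# Full polynomial, part C: windows and models

Every docstring is a complete proof.  Earlier items (and items of `TS`) are hypotheses.
`wn u N L x γ` is the sum of `u(n) e(n γ)` over `n ∈ [1, N]`, `x - L < n ≤ x`; `SI u N L γ` the sum of its squares
over `x`.  `H_i = (zi X i)^8`, so `(zi X i, zi X (i+1)] = (H_i^(1/8), H_i^(1/4)]`.
-/

namespace Pool.Agent.Work.MP_122e00_nt.FP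

open Finset Filter Topology ArithmeticFunction MeasureTheory
open Pool.Agent.Work.MP_122e00_nt.TS
open scoped ArithmeticFunction.zeta ArithmeticFunction.Moebius

/-- W1 (MEDIUM): long windows of `u(n/s)` from short windows of `u`.  PROOF.  `n = m s` is in the window at `x` iff
`m ≤ y := x/s` (integer division), `x < m s + L`, and `m ≤ N/s`; `ee(n γ) = ee(m (s γ))`.  `G = L/(s L₁)` (integer
division).  Blocks `j < G`: the window of length `L₁` at `y - j L₁` (natural subtraction; empty if it is `0`); all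
its `m` satisfy `m > y - G L₁` and `m s > x - s G L₁ ≥ x - L` as `(y+1) s > x`.  The rest `R(x)`: `m ≤ y - G L₁` and
`m s > x - L`, contained in `(y - G L₁ - L₁, y - G L₁]` since `L/s - G L₁ < L₁`.  So
`‖wn (dil s u)‖² ≤ 2 G ∑_j ‖wn u (N/s) L₁ (y - j L₁) (s γ)‖² + 2 L₁ ∑_{m ∈ R(x)} u m²`.  Sum over `x`: each `y` comes from
at most `s` values `x`, so the first part is `≤ 2 G² s SI u (N/s) L₁ (s γ)` (`wn` vanishes at `x' ≥ N/s + L₁`); each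
`m` is in `R(x)` for at most `s L₁` values `x`. -/
def fpW1 : Prop := ∀ (s L L₁ N : ℕ) (u : ℕ → ℝ) (γ : ℝ), 1 ≤ s → 1 ≤ L₁ →
  SI (dil s u) N L γ ≤ 2 * s * ((L : ℝ) / (s * L₁)) ^ 2 * SI u (N / s) L₁ (s * γ) +
    2 * s * ((L₁ : ℝ) + 3) ^ 2 * ∑ m ∈ Finset.Icc 1 (N / s), u m ^ 2

/-- W2 (EASY): Cauchy's inequality for `SI`.  PROOF.  `wn` is linear in `u`;
`(∑ |c_j| a_j)² ≤ (∑ |c_j|/λ_j) (∑ |c_j| λ_j a_j²)` with `a_j = ‖wn (u j)‖`; sum over `x`. -/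
def fpW2 : Prop := ∀ (ι : Type) (J : Finset ι) (c lam : ι → ℝ) (u : ι → ℕ → ℝ) (N L : ℕ) (γ : ℝ),
  (∀ j ∈ J, 0 < lam j) → SI (fun n => ∑ j ∈ J, c j * u j n) N L γ ≤
    (∑ j ∈ J, |c j| / lam j) * ∑ j ∈ J, |c j| * lam j * SI (u j) N L γ

/-- L1 (EASY): sums of divisor functions.  PROOF.  `∑_{s ≤ S} dr R s/s ≤ (∑_{s ≤ S} 1/s)^R` (every factorisation of
`s ≤ S` has its factors `≤ S`; induction on `R` with `ζ^(R+1) = ζ^R * ζ`), `∑_{s ≤ S} 1/s ≤ 1 + log S`. -/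
def fpL1 : Prop := ∀ R S : ℕ, 1 ≤ S →
  ∑ s ∈ Finset.Icc 1 S, dr R s / (s : ℝ) ≤ (1 + Real.log S) ^ R

/-- W3 (MEDIUM-HARD; uses P1, P2, P3, W1, W2, L1, TS.X3, TS.X16): the mean square of `fS` minus its model class by
class.  PROOF.  TS.X16 with `ε₂ = 1/8`, `θ₂ = 1/2` gives `η₀`; `η ≤ η₀` gives `δ`, `A₀`, `X₀`.  `l = l2 X`, `H_i = exp (8 · 2^i l³)`;
`Qi η X i = ⌊H_i^η⌋`.  By P3 `fS - mS = ∑_{s ≤ S} ∑_{i < I} r k(s) dil s (fu_i)`, `fu_i = fu r E (zi i) (zi (i+1)) (Qi i)`.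
Let `s ≤ S`, `i < I`, `X' = X/s ≥ X^(15/16)`, `L₁ = ⌊H_i⌋`.  `H_i ≤ wc^4 ≤ H^(4/l²)`, so `H_i ≤ H^(1/100)`,
`H_i ≤ X'^(1/2)`, and `(log X')^A₀ ≤ exp (8 l³) ≤ H_i`; X16 at `X'`, `H_i`: `SI fu_i (N/s) L₁ (s γ) ≤ L₁² (X/s) H_i^(-δ)
≤ L₁² (X/s) exp (-8 δ l³)`.  TS.X3 (`a = 0`, `b = ⌊2X/s⌋`, `ε = 1`; `(x - y)² ≤ 2x² + 2y²`):
`∑_{m ≤ N/s} fu_i² ≤ C (X/s) (log X)^C Qi ≤ (X/s) H^(1/20)`.  W1: `SI (dil s fu_i) N L γ ≤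
2 L² X s^(-2) exp (-8 δ l³) + 2 (L₁+3)² X H^(1/20) ≤ L² X s^(-2) (2 exp (-8 δ l³) + H^(-1/2))`, because
`L² s^(-2) ≥ H^(3/2-1/8)` and `(L₁+3)² ≤ 16 H^(1/50)`.  W2 with the weights `λ = s`, `|k s| ≤ dr (2r) s` and L1:
`SI (fS - mS) ≤ (r I (1+log X)^(2r))² L² X (2 exp (-8 δ l³) + H^(-1/2)) ≤ L² X exp (-2 l²)` for large `X`
(`I ≤ log X = e^l`, `log H ≥ l⁶`). -/
def fpW3 : Prop := ∀ (r : ℕ) (E : ℕ → Polynomial ℝ), 2 ≤ r → AP r E → CB E → ∃ η₀ : ℝ, 0 < η₀ ∧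
  ∀ η : ℝ, 0 < η → η ≤ η₀ → ∃ X0 : ℝ, ∀ (X H γ : ℝ) (k : ℕ → ℝ) (N L : ℕ), X0 ≤ X →
  l2 X ^ 6 ≤ Real.log H → H ≤ X → 0 < H → KK r (zc X) (wc X H) k → (N : ℝ) ≤ 2 * X →
  H ^ (3 / 4 : ℝ) ≤ L → (L : ℝ) ≤ H →
  SI (fun n => fS r k (zc X) (wc X H) (Sc H) n - mS r k E η X (nI X H) (Sc H) n) N L γ ≤
    (L : ℝ) ^ 2 * X * Real.exp (-(2 * l2 X ^ 2))

/-- M1 (EASY; uses TS.F1, TS.F2): a geometric sum with a smooth weight.  PROOF.  `b n = p(log n)`; F2 with `p' = 1`,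
`h = 0` bounds value plus variation at `N` by `C M (1+log N)^(2d)`; F1 at `N = hi` and at `N = lo` (if `lo ≥ 1`). -/
def fpM1 : Prop := ∀ d : ℕ, ∃ C : ℝ, 0 < C ∧ ∀ (p : Polynomial ℝ) (M φ : ℝ) (lo hi : ℕ),
  p.natDegree ≤ d → (∀ j, |p.coeff j| ≤ M) → 0 ≤ M → lo ≤ hi → 1 ≤ hi →
  ‖∑ m ∈ Finset.Ioc lo hi, ((p.eval (Real.log m) : ℝ) : ℂ) * ee (m * φ)‖ * nn φ ≤
    C * M * (1 + Real.log hi) ^ (2 * d)

/-- M2 (MEDIUM): the sum over the multiples of `s` and the whole sum.  PROOF.  Let `n₁ < … < n_J` be the multiples of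
`s` in `(lo, hi]`, `B_j = (n_j - s, n_j] ∩ (lo, hi]`.  `#B_j = s` for `j ≥ 2`, `1 ≤ #B₁ ≤ s`, and fewer than `s`
elements of `(lo, hi]` are above `n_J`.  `F(n_j) - (1/s) ∑_{B_j} F = (1/s) ∑_{n ∈ B_j} (F(n_j) - F(n)) + (1 - #B_j/s) F(n_j)`,
and `‖F(n_j) - F(n)‖ ≤ ∑_{n' ∈ B_j, n' < n_j} ‖F(n'+1) - F(n')‖`.  Total `≤ V + G + G`.  If there is no multiple, the
interval has fewer than `s` elements. -/
def fpM2 : Prop := ∀ (F : ℕ → ℂ) (s lo hi : ℕ) (G V : ℝ), 1 ≤ s → lo ≤ hi → 0 ≤ G →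
  (∀ n ∈ Finset.Ioc lo hi, ‖F n‖ ≤ G) → ∑ n ∈ Finset.Ioc lo (hi - 1), ‖F (n + 1) - F n‖ ≤ V →
  ‖∑ n ∈ (Finset.Ioc lo hi).filter (s ∣ ·), F n - (1 / (s : ℂ)) * ∑ n ∈ Finset.Ioc lo hi, F n‖ ≤
    V + 2 * G

/-- M3 (EASY-MEDIUM): variation of `p(log n - log s) e(n θ)`.  PROOF.  For `1 ≤ n ≤ hi`: `|log n - log s| ≤ 2Λ`, so
`|p| ≤ C M Λ^d`, `|p'| ≤ C M Λ^d` there; `‖ee(θ) - 1‖ ≤ 2π|θ|`; `log (n+1) - log n ≤ 1/n`, `∑_{n ≤ hi} 1/n ≤ 1 + log hi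
≤ 2Λ`. -/
def fpM3 : Prop := ∀ d : ℕ, ∃ C : ℝ, 0 < C ∧ ∀ (p : Polynomial ℝ) (M θ lam : ℝ) (s lo hi : ℕ),
  p.natDegree ≤ d → (∀ j, |p.coeff j| ≤ M) → 0 ≤ M → 1 ≤ s → lo ≤ hi → 1 ≤ lam →
  Real.log hi ≤ lam → Real.log s ≤ lam →
  (∀ n ∈ Finset.Ioc lo hi,
    ‖((p.eval (Real.log n - Real.log s) : ℝ) : ℂ) * ee (n * θ)‖ ≤ C * M * lam ^ d) ∧
  ∑ n ∈ Finset.Ioc lo (hi - 1),
    ‖((p.eval (Real.log ((n + 1 : ℕ) : ℝ) - Real.log s) : ℝ) : ℂ) * ee (((n + 1 : ℕ) : ℝ) * θ) -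
      ((p.eval (Real.log n - Real.log s) : ℝ) : ℂ) * ee (n * θ)‖ ≤
    C * M * lam ^ (d + 1) * (1 + |θ| * ((hi : ℝ) - lo))

/-- M4 (EASY): at most one fraction with denominator `≤ R` is near `γ`.  PROOF.  If `b/q ≠ c/D`, `q, D ≤ R`, then
`|b/q - c/D| ≥ 1/(q D) ≥ 1/R²`; so if `|γ - c/D| < 1/(2R²)` then `|γ - b/q| ≥ 1/(2R²)`.  Take `c/D` reduced. -/
def fpM4 : Prop := ∀ (R : ℕ) (γ : ℝ), 1 ≤ R →
  (∀ (q : ℕ) (b : ℤ), 1 ≤ q → q ≤ R → 1 / (2 * (R : ℝ) ^ 2) ≤ |γ - b / q|) ∨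
  ∃ (D : ℕ) (c : ℤ), 1 ≤ D ∧ D ≤ R ∧ IsCoprime c (D : ℤ) ∧ |γ - c / D| < 1 / (2 * (R : ℝ) ^ 2) ∧
    ∀ (q : ℕ) (b : ℤ), 1 ≤ q → q ≤ R → b * (D : ℤ) ≠ c * (q : ℤ) →
      1 / (2 * (R : ℝ) ^ 2) ≤ |γ - b / q|

/-- M5 (EASY-MEDIUM; uses L1, TS.L0): a sum over common divisors.  PROOF.  `(gcd D s)^(1/2) ≤ ∑_{g ∣ D, g ∣ s} g^(1/2)`,
`∑_{s ≤ S, g ∣ s} dr R s/s ≤ (dr R g/g) (1+log S)^R` (L1), so the sum is
`≤ D^(-1/2) (1+log S)^R ∑_{g ∣ D} dr R g g^(-1/2)`, and `dr R g ≤ C g^(1/2)`, `#divisors D ≤ C D^(1/4)` (L0). -/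
def fpM5 : Prop := ∀ R : ℕ, 1 ≤ R → ∃ C : ℝ, 0 < C ∧ ∀ D S : ℕ, 1 ≤ D → 1 ≤ S →
  ∑ s ∈ Finset.Icc 1 S, dr R s / (s : ℝ) * ((Nat.gcd D s : ℝ) / D) ^ (1 / 2 : ℝ) ≤
    C * (D : ℝ) ^ (-(1 / 4) : ℝ) * (1 + Real.log S) ^ R

/-- M6 (EASY-MEDIUM; uses TS.E1): windows of a model at `n/s`, opened.  PROOF.  `Gh m q = ∑_a ee(m a/q)` over the
reduced `a ∈ [0, q)` (E1); the `n = m s` of the window are the `m` with `(x - L)/s < m ≤ min (N/s) (x/s)` (integer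
division and natural subtraction), and `ee(m a/q) ee(m s γ) = ee(m (a/q + s γ))`. -/
def fpM6 : Prop := ∀ (E' : ℕ → Polynomial ℝ) (s Q N L x : ℕ) (γ : ℝ), 1 ≤ s →
  wn (dil s (fs E' Q)) N L x γ = ∑ q ∈ Finset.Icc 1 Q,
    ∑ a ∈ (Finset.range q).filter (fun a => Nat.Coprime a q),
      ∑ m ∈ Finset.Ioc ((x - L) / s) (min (N / s) (x / s)),
        (((ed (E' q)).eval (Real.log m) : ℝ) : ℂ) * ee (m * ((a : ℝ) / q + s * γ))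

/-- M7 (MEDIUM; uses P1, P2, P3, M2, M3, L1, TS.K5): the matched terms for a small denominator `D`.  PROOF.
`θ = γ - c/D`, `|θ| ≤ H^(-1/6)`; `lo = x - L`, `hi = min N x ≤ 2X`, `hi - lo ≤ L` (if `hi < lo` all sums are empty; if
`hi = 0` too).  The `m ∈ Ioc ((x-L)/s) (min (N/s) (x/s))` are the `m` with `m s ∈ Ioc lo hi`.  For `s ≤ S`, `i < I` apply
M2 to `F(n) = p_i(log n - log s) ee(n θ)`, `p_i = ed (Eu E (zi i) (zi (i+1)) D)`, with the bounds of M3 (`M` from K5 with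
`ε = 1`, `lam = log X + 1`): the sum over `m` differs from `(1/s) ∑_{n ∈ (lo, hi]} F(n)` by
`≤ (log X)^C (1 + H^(-1/6) L)`.  Sum with the weights `r |k s|`, `∑_{s ≤ S} |k s| ≤ S (1+log S)^(2r)` (L1), `I ≤ log X`:
`≤ S (log X)^C (1 + L H^(-1/6)) ≤ L H^(-1/20)` for large `X` (`S ≤ H^(1/16)`, `L ≥ H^(3/4)`, `log H ≥ l⁶`).  And
`∑_s (r k(s)/s) ∑_i p_i(log n - log s) = (ed (E0 D))(log n)`: P3, and `ed` commutes with `comp (X - C l)`. -/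
def fpM7 : Prop := ∀ (r : ℕ) (E : ℕ → Polynomial ℝ), 2 ≤ r → AP r E → CB E → ∃ X0 : ℝ,
  ∀ (X H θ : ℝ) (k : ℕ → ℝ) (N L x D : ℕ), X0 ≤ X → l2 X ^ 6 ≤ Real.log H → H ≤ X → 0 < H →
  KK r (zc X) (wc X H) k → (N : ℝ) ≤ 2 * X → H ^ (3 / 4 : ℝ) ≤ L → (L : ℝ) ≤ H → 1 ≤ D →
  |θ| ≤ H ^ (-(1 / 6) : ℝ) →
  ‖(r : ℂ) * ∑ s ∈ Finset.Icc 1 (Sc H), (k s : ℂ) * ∑ i ∈ Finset.range (nI X H),
      ∑ m ∈ Finset.Ioc ((x - L) / s) (min (N / s) (x / s)),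
        (((ed (Eu E (zi X i) (zi X (i + 1)) D)).eval (Real.log m) : ℝ) : ℂ) * ee (m * (s * θ)) -
    ∑ n ∈ Finset.Ioc (x - L) (min N x),
      (((ed (E0 r k E (zc X) (wc X H) (Sc H) D)).eval (Real.log n) : ℝ) : ℂ) * ee (n * θ)‖ ≤
  L * H ^ (-(1 / 20) : ℝ)

/-- `(q, a)` is matched to `c/D` at `s`: `a/q + s c/D` is an integer -/
def Mt (D : ℕ) (c : ℤ) (s q a : ℕ) : Prop := ∃ j : ℤ, (j * q - a) * (D : ℤ) = c * ((q : ℤ) * s)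

/-- M8 (EASY-MEDIUM): matching.  PROOF.  `a/q + s c/D = j` is an integer; the reduced denominator of `s c/D` is
`D/gcd(D, s)` (`c` coprime to `D`), that of `a/q` is `q`: first part.  Two matched `a, a' ∈ [0, q)` have
`(a - a')/q` integral: equal.  If `gcd(D, s) = 1` take `a ∈ [0, D)`, `a ≡ -s c (mod D)`.  Fourth part:
`m (a/q + s γ) - m s (γ - c/D) = m j`. -/
def fpM8 : Prop := ∀ (D s : ℕ) (c : ℤ), 1 ≤ D → 1 ≤ s → IsCoprime c (D : ℤ) →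
  (∀ q a : ℕ, 1 ≤ q → Nat.Coprime a q → Mt D c s q a → q = D / Nat.gcd D s) ∧
  (∀ q a a' : ℕ, a < q → a' < q → Mt D c s q a → Mt D c s q a' → a = a') ∧
  (Nat.Coprime D s → ∃ a < D, Nat.Coprime a D ∧ Mt D c s D a) ∧
  ∀ (q a m : ℕ) (γ : ℝ), 1 ≤ q → Mt D c s q a →
    ee (m * ((a : ℝ) / q + s * γ)) = ee (m * (s * (γ - c / D)))

/-- M9 (EASY; uses M4): unmatched frequencies are far from the integers.  PROOF.  Let `j` be the nearest integer to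
`φ = a/q + s γ`: `nn φ = |φ - j| = s |γ - (j q - a)/(q s)|`, `q s ≤ R`.  In the first case of M4 this is `≥ s/(2R²)`; in
the second case, if `(q, a)` is not matched then `(j q - a) D ≠ c (q s)` and again it is `≥ s/(2R²)`. -/
def fpM9 : Prop := ∀ (R : ℕ) (γ : ℝ), 1 ≤ R →
  (∀ s q a : ℕ, 1 ≤ s → 1 ≤ q → q * s ≤ R → 1 / (2 * (R : ℝ) ^ 2) ≤ nn ((a : ℝ) / q + s * γ)) ∨
  ∃ (D : ℕ) (c : ℤ), 1 ≤ D ∧ D ≤ R ∧ IsCoprime c (D : ℤ) ∧ |γ - c / D| < 1 / (2 * (R : ℝ) ^ 2) ∧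
    ∀ s q a : ℕ, 1 ≤ s → 1 ≤ q → q * s ≤ R → ¬ Mt D c s q a →
      1 / (2 * (R : ℝ) ^ 2) ≤ nn ((a : ℝ) / q + s * γ)

/-- M10 (MEDIUM-HARD; uses P1, P2, M1, M5, M6, M7, M8, M9, L1, V1, S1, TS.K5): the two models have nearly equal windows,
all frequencies.  PROOF.  `0 < η ≤ 1/100`.  `l = l2 X`, `z = zc X`, `w = wc X H`, `S = Sc H`, `Q = Qc (4η) X`, `I = nI X H`,
`Q_i = Qi η X i`: `Q ≤ Q_i` and `Q < z` (`4η ≤ 1/25`); `Q_i ≤ exp (8η 2^i l³) ≤ w^(8η) ≤ H^(1/100)` for `i < I`.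
`R = ⌊H^(1/12)⌋`, so `S Q_i, Q ≤ R`, `1/(2R²) ≤ H^(-1/6)`, `2R² ≤ 2 H^(1/6)`.  M6: `wn (mS)` is the sum over
`s ≤ S`, `i < I`, `q ≤ Q_i`, `a` of `r k(s)` times a sum over `m`; `wn (fs E0 Q)` (`s = 1`, `dil 1 u = u`) the sum over
`q ≤ Q`, `a`.  Terms `(s, i, q, a)` not matched (all terms, in the first case of M9): M1 and K5 (`ε = 1`), V1 and S1 for
`E0`: each is `≤ (log X)^C 2 H^(1/6)`, and `∑_{s ≤ S} |k s| ≤ S (1+log S)^(2r)` (L1): total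
`≤ (log X)^C H^(1/16 + 1/50 + 1/6) ≤ H^(1/3) ≤ L H^(-1/3)`.  Matched terms, `D ≤ Q`: `D` has no window primes (`D < z`), so
for `k(s) ≠ 0` (`Wsm s`) `gcd(D, s) = 1`, and by M8 the matched `(q, a)` are `q = D ≤ Q_i` and one `a`: their sum is the
first term of M7, and the matched term of `fs E0 Q` is the second: M7.  Matched terms, `D > Q`: none for
`fs E0 Q`; for each `s`, `i` at most one, `q = D/gcd(D, s)`, at most `2L/s` values `m`, `|ed (Eu …)| ≤ (log X)^C q^(-1/2)`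
(K5, `ε = 1/2`): total `≤ L (log X)^C ∑_s dr (2r) s/s (gcd(D,s)/D)^(1/2) ≤ L (log X)^C D^(-1/4) ≤ L (log X)^C Q^(-1/4)`
(M5), `Q^(-1/4) ≤ 2 exp (-η l³)`.  Everything is `≤ (L/3) exp (-2 l²)` for large `X`. -/
def fpM10 : Prop := ∀ (r : ℕ) (E : ℕ → Polynomial ℝ), 2 ≤ r → AP r E → CB E →
  ∀ η : ℝ, 0 < η → η ≤ 1 / 100 → ∃ X0 : ℝ, ∀ (X H γ : ℝ) (k : ℕ → ℝ) (N L x : ℕ), X0 ≤ X →
  l2 X ^ 6 ≤ Real.log H → H ≤ X → 0 < H → KK r (zc X) (wc X H) k → (N : ℝ) ≤ 2 * X →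
  H ^ (3 / 4 : ℝ) ≤ L → (L : ℝ) ≤ H →
  ‖wn (fun n => mS r k E η X (nI X H) (Sc H) n -
    fs (E0 r k E (zc X) (wc X H) (Sc H)) (Qc (4 * η) X) n) N L x γ‖ ≤
  L * Real.exp (-(2 * l2 X ^ 2))

/-- W4 (EASY; uses W3, M10, P1): the mean square of `fb`.  PROOF.  `fb = (fS - mS) + (mS - fs E0 Q)`, `η₀` the minimum of
that of W3 and `1/100`; `SI (u + v) ≤ 2 SI u + 2 SI v`, and by M10 `SI v ≤ (N + L) L² exp (-4 l²) ≤ 3X L² exp (-4 l²)`. -/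
def fpW4 : Prop := ∀ (r : ℕ) (E : ℕ → Polynomial ℝ), 2 ≤ r → AP r E → CB E → ∃ η₀ : ℝ, 0 < η₀ ∧
  ∀ η : ℝ, 0 < η → η ≤ η₀ → ∃ X0 : ℝ, ∀ (X H γ : ℝ) (k : ℕ → ℝ) (N L : ℕ), X0 ≤ X →
  l2 X ^ 6 ≤ Real.log H → H ≤ X → 0 < H → KK r (zc X) (wc X H) k → (N : ℝ) ≤ 2 * X →
  H ^ (3 / 4 : ℝ) ≤ L → (L : ℝ) ≤ H →
  SI (fb r k E (zc X) (wc X H) (Sc H) (Qc (4 * η) X)) N L γ ≤
    (L : ℝ) ^ 2 * X * Real.exp (-(l2 X ^ 2))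

end Pool.Agent.Work.MP_122e00_nt.FP
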