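import Mathlib
import Pool.Agent.Work.MP_122e00_nt.FP.StmtsA
import Pool.Agent.Work.MP_122e00_nt.FP.StmtsB
import Pool.Agent.Work.MP_122e00_nt.FP.StmtsC

/-!
# Full polynomial, part D: assembly

Every docstring is a complete proof.  Earlier items (and items of `TS`) are hypotheses.
`l = l2 X = log log X`, `z = zc X`, `w = wc X H`, `S = Sc H`, `Q = Qc (4η) X`.
-/

namespace Pool.Agent.Work.MP_122e00_nt.FP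

open Finset Filter Topology ArithmeticFunction MeasureTheory
open Pool.Agent.Work.MP_122e00_nt.TS
open scoped ArithmeticFunction.zeta ArithmeticFunction.Moebius

/-- the structured part of `d_r` at the scale `X`, `H` -/
noncomputable def fX (r : ℕ) (k : ℕ → ℝ) (X H : ℝ) : ℕ → ℝ := fS r k (zc X) (wc X H) (Sc H)

/-- its model -/
noncomputable def fm (r : ℕ) (k : ℕ → ℝ) (E : ℕ → Polynomial ℝ) (η X H : ℝ) : ℕ → ℝ :=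
  fs (E0 r k E (zc X) (wc X H) (Sc H)) (Qc (4 * η) X)

/-- the difference -/
noncomputable def fd (r : ℕ) (k : ℕ → ℝ) (E : ℕ → Polynomial ℝ) (η X H : ℝ) : ℕ → ℝ :=
  fb r k E (zc X) (wc X H) (Sc H) (Qc (4 * η) X)

/-- `d_r` minus its structured part -/
noncomputable def fr (r : ℕ) (k : ℕ → ℝ) (X H : ℝ) (n : ℕ) : ℝ := dr r n - fX r k X H n

/-- the four correlations with `fd` are small at the shift `h` -/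
def Cr (r : ℕ) (k : ℕ → ℝ) (E : ℕ → Polynomial ℝ) (η X H : ℝ) (h : ℕ) : Prop :=
  |cor (fd r k E η X H) (dr r) ⌊X⌋₊ h| ≤ X / Real.log X ^ 2 ∧
  |cor (dr r) (fd r k E η X H) ⌊X⌋₊ h| ≤ X / Real.log X ^ 2 ∧
  |cor (fm r k E η X H) (fd r k E η X H) ⌊X⌋₊ h| ≤ X / Real.log X ^ 2 ∧
  |cor (fd r k E η X H) (fX r k X H) ⌊X⌋₊ h| ≤ X / Real.log X ^ 2

/-- the formula for the shift `h` at `X`, with the constant `C` -/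
def Gf (r : ℕ) (E : ℕ → Polynomial ℝ) (C X H : ℝ) (h : ℕ) : Prop :=
  |cor (dr r) (dr r) ⌊X⌋₊ h - X * (PH r E h).eval (Real.log X)| ≤ C * eb r C X H

/-- the grid -/
noncomputable def gX (r n : ℕ) : ℝ := Real.exp ((n : ℝ) ^ (1 / (2 * (r : ℝ) + 4)))

/-- `k` is bad: `F(k) ≤ 0`, or the formula fails for some `X ≥ 16` with `F(k) ≤ X^b` -/
def BadF (r : ℕ) (E : ℕ → Polynomial ℝ) (F : Polynomial ℤ) (b C : ℝ) (k : ℕ) : Prop :=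
  ¬ 1 ≤ F.eval (k : ℤ) ∨ ∃ X : ℝ, 16 ≤ X ∧ ((F.eval (k : ℤ) : ℤ) : ℝ) ≤ X ^ b ∧
    C * (X * Real.log X ^ (2 * r - 2) * l2 X ^ C /
      Real.log (((F.eval (k : ℤ) : ℤ) : ℝ) + 1) ^ (2 * r)) <
    |cor (dr r) (dr r) ⌊X⌋₊ (fv F k) - X * (PH r E (fv F k)).eval (Real.log X)|

/-- X0 (EASY): the bilinear identity.  PROOF.  `cor` is bilinear;
`cor d d = cor f d + cor d f - cor f f + cor (d-f) (d-f)`, `f = m + b`, and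
`cor f f = cor m m + cor m b + cor b f`. -/
def fpX0 : Prop := ∀ (d f m b : ℕ → ℝ) (N h : ℕ), (∀ n, f n = m n + b n) →
  cor d d N h = (cor m d N h + cor d m N h - cor m m N h) +
    (cor b d N h + cor d b N h - cor m b N h - cor b f N h) +
    cor (fun n => d n - f n) (fun n => d n - f n) N h

/-- S4 (EASY-MEDIUM; uses P1, P2, A1, S1, S2, V1, TS.X2): second moments.  PROOF.  `⌊2X⌋ ≤ 3X`; `dr r`, `|fX| ≤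
r dr (3r+1)` (A1), `|fm n| ≤ C (log X)^C dr (4r+1) n` (V1: the coefficients of `E0 q` are `≤ C (log X)^C be r q`; S2 with
`M = C (log X)^C`; `Q ≤ exp (l³) ≤ X`), `fd = fX - fm` and `(x-y)² ≤ 2x² + 2y²`; `dr R² ≤ dr (R²)` and the sum of X2. -/
def fpS4 : Prop := ∀ (r : ℕ) (E : ℕ → Polynomial ℝ), 2 ≤ r → AP r E → CB E → ∃ C X0 : ℝ, 0 < C ∧
  ∀ (X H η : ℝ) (k : ℕ → ℝ), X0 ≤ X → l2 X ^ 6 ≤ Real.log H → H ≤ X → 0 < H → 0 < η →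
  η ≤ 1 / 100 → KK r (zc X) (wc X H) k →
  ∑ n ∈ Finset.Icc 1 ⌊2 * X⌋₊, dr r n ^ 2 ≤ X * Real.log X ^ C ∧
  ∑ n ∈ Finset.Icc 1 ⌊2 * X⌋₊, fX r k X H n ^ 2 ≤ X * Real.log X ^ C ∧
  ∑ n ∈ Finset.Icc 1 ⌊2 * X⌋₊, fm r k E η X H n ^ 2 ≤ X * Real.log X ^ C ∧
  ∑ n ∈ Finset.Icc 1 ⌊2 * X⌋₊, fd r k E η X H n ^ 2 ≤ X * Real.log X ^ C

/-- X1a (MEDIUM; uses P1, P2, P4, A1, B3, E1, D4, TS.X2): the unstructured part.  PROOF.  `|fr n| ≤ dfree n + tau n` (A1),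
so `|cor fr fr| ≤ ∑ dfree(n) dfree(n+h) + ∑ dfree(n) tau(n+h) + ∑ tau(n) dfree(n+h) + ∑ tau(n) tau(n+h)` over
`n ≤ X`, `n + h ≤ 2X`.  The last three are `≤ 3 (∑ tau²)^(1/2) (∑ (dr r)² + ∑ tau²)^(1/2)` (sums over `n ≤ 2X`; `dfree ≤ dr`),
and by B3 (`y = 2X`), X2: `≤ X (log X)^C (exp (-l³) + exp (-l²/20))^(1/2) ≤ X/(log X)²`, because
`log S/log w ≥ (log H/17)/(log H/l²)` (`S = ⌊H^(1/16)⌋`, P2).  The first: D4 (`log X ≤ z`, `w ≤ H^(1/l²) ≤ X^(1/4)`),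
`exp (-2r pw) ≤ (C l⁵/log H)^(2r)` (P4), `exp ((r-1)² Sh h) ≤ C (ll h)^C ≤ C l^C` (E1; `h ≤ X`).  And
`X/(log X)² ≤ eb r C X H` since `log H ≤ log X`. -/
def fpX1a : Prop := ∀ r : ℕ, 2 ≤ r → ∃ C X0 : ℝ, 0 < C ∧ ∀ (X H : ℝ) (k : ℕ → ℝ) (h : ℕ), X0 ≤ X →
  l2 X ^ 6 ≤ Real.log H → H ≤ X → 0 < H → KK r (zc X) (wc X H) k → 1 ≤ h → (h : ℝ) ≤ X →
  |cor (fr r k X H) (fr r k X H) ⌊X⌋₊ h| ≤ C * eb r C X H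

/-- X1b (MEDIUM; uses P1, P2, P4, Z5, S1, V1, G3, H1, H2, TS.Y3): the structured part.  PROOF.  `E0 = E0 r k E z w S` has
degrees `≤ r-1` and coefficients `≤ C (log X)^C` (V1, S1 with `ε = 1`), and `Q ≤ exp (l³)` is smaller than every
power of `X`.  TS.Y3, H1, H2 (`E' = E0`): with `I_q(f, g) = ∫_1^X f g`, `e_q = ed (E q)(log t)`, `e⁰_q = ed (E0 q)(log t)`,
`cor fm dr + cor dr fm - cor fm fm = ∑_{q ≤ Q} Gh h q (2 I_q(e⁰, e) - I_q(e⁰, e⁰)) + O((log X)^C X^(1-δ))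
= ∑_{q ≤ Q} Gh h q I_q(e, e) - ∑_{q ≤ Q} Gh h q ∫ (e - e⁰)² + O(…)`.  The first sum is `X P_h(log X)` up to
`C ll^C (1 + X (log X)^(2r) exp (-log Q/(8 ll h)))` (Z5), `log Q ≥ 4 η l³ - 1`, `ll h ≤ 2 l` (`h ≤ X`): at most `X/(log X)²`
for large `X`.  The second is `≤ C ll^C X (log X)^(2r-2) exp (-2r pw)` (G3) and P4.  `X/(log X)² ≤ eb`. -/
def fpX1b : Prop := ∀ (r : ℕ) (E : ℕ → Polynomial ℝ), 2 ≤ r → AP r E → CB E → ∀ θ' η : ℝ, 0 < θ' →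
  θ' < 1 → 0 < η → η ≤ 1 / 100 → ∃ C X0 : ℝ, 0 < C ∧ ∀ (X H : ℝ) (k : ℕ → ℝ) (h : ℕ), X0 ≤ X →
  l2 X ^ 6 ≤ Real.log H → H ≤ X → 0 < H → KK r (zc X) (wc X H) k → 1 ≤ h → (h : ℝ) ≤ X ^ θ' →
  |(cor (fm r k E η X H) (dr r) ⌊X⌋₊ h + cor (dr r) (fm r k E η X H) ⌊X⌋₊ h -
      cor (fm r k E η X H) (fm r k E η X H) ⌊X⌋₊ h) - X * (PH r E h).eval (Real.log X)| ≤
    C * eb r C X H

/-- X1 (EASY-MEDIUM; uses P1, X0, X1a, X1b): the formula for one shift.  PROOF.  X0 with `d = dr r`, `f = fX`, `m = fm`,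
`b = fd` (`fX = fm + fd` by definition); the middle terms are `≤ 4 X/(log X)² ≤ 4 eb` (Cr; `log H ≤ log X`, `l ≥ 1`);
`eb r C` is nondecreasing in `C` (`l ≥ 1`). -/
def fpX1 : Prop := ∀ (r : ℕ) (E : ℕ → Polynomial ℝ), 2 ≤ r → AP r E → CB E → ∀ θ' η : ℝ, 0 < θ' →
  θ' < 1 → 0 < η → η ≤ 1 / 100 → ∃ C X0 : ℝ, 0 < C ∧ ∀ (X H : ℝ) (k : ℕ → ℝ) (h : ℕ), X0 ≤ X →
  l2 X ^ 6 ≤ Real.log H → H ≤ X → 0 < H → KK r (zc X) (wc X H) k → 1 ≤ h → (h : ℝ) ≤ X ^ θ' →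
  Cr r k E η X H h → Gf r E C X H h

open Classical in
/-- X2 (MEDIUM; uses P1, K, S4, W4, Q1, X1, TS.H2): few exceptions for fixed `X`.  PROOF.  `d = deg F`, `H = K^d`,
`θ' = (1+θ)/2`; `η` = minimum of the `η₀` of W4 and `1/100`; `k` from K (for `z`, `w`).  W4 holds for all `X` large, `H ≤ X`,
so Q1 (`θ₂ = θ`, exponent `A₁ + 5`, moments S4) applies to the four pairs `(fd, dr)`, `(dr, fd)`, `(fm, fd)`,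
`(fd, fX)`: `∑_κ cor² ≤ K X² (log X)^(-A₁-5)` over `κ ∈ Ioc A K`, so `|cor| > X/(log X)²` for at most
`K (log X)^(-A₁-1)` values `κ`.  For all others Cr holds at `h = F(κ)`, `1 ≤ F(κ) ≤ C K^d ≤ X^θ'` for large `X` (H2), and X1
gives Gf.  `4 (log X)^(-1) ≤ 1`. -/
def fpX2 : Prop := ∀ (r : ℕ) (E : ℕ → Polynomial ℝ), 2 ≤ r → AP r E → CB E →
  ∀ (F : Polynomial ℤ) (A : ℕ), 1 ≤ F.natDegree → 0 < F.leadingCoeff →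
  (∀ k : ℕ, A < k → 1 ≤ F.eval (k : ℤ)) → ∀ θ A₁ : ℝ, 0 < θ → θ < 1 → 0 < A₁ →
  ∃ C X0 : ℝ, 0 < C ∧ ∀ (X : ℝ) (K : ℕ), X0 ≤ X → 1 ≤ K →
  l2 X ^ 6 ≤ Real.log ((K : ℝ) ^ F.natDegree) → (K : ℝ) ^ F.natDegree ≤ X ^ θ →
  (((Finset.Ioc A K).filter
    (fun k => ¬ Gf r E C X ((K : ℝ) ^ F.natDegree) (fv F k))).card : ℝ) ≤
    K * Real.log X ^ (-A₁)

/-- X3 (EASY-MEDIUM; uses D4, E1, Z4): the trivial bound for every shift.  PROOF.  D4 with `z = w = X^(1/4)`: the window is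
empty, `pw = 0`, `dfree = dr`; `exp ((r-1)² Sh h) ≤ C (ll h)^C` (E1), `ll h ≤ 2 l`.  And
`|P_h(log X)| ≤ (2r-1) C ll^C (log X)^(2r-2)` (Z4, second part; `natDegree ≤ 2(r-1)`: the coefficients of `PH` in
higher degrees vanish). -/
def fpX3 : Prop := ∀ (r : ℕ) (E : ℕ → Polynomial ℝ), 2 ≤ r → AP r E → CB E → ∃ C X0 : ℝ, 0 < C ∧
  ∀ (X : ℝ) (h : ℕ), X0 ≤ X → 1 ≤ h → (h : ℝ) ≤ X →
  |cor (dr r) (dr r) ⌊X⌋₊ h - X * (PH r E h).eval (Real.log X)| ≤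
    C * (X * Real.log X ^ (2 * r - 2) * l2 X ^ C)

/-- U1 (EASY-MEDIUM): the grid.  PROOF.  `κ = 1/(2r+4)`, `log (gX n) = n^κ`, increasing to infinity, `gX 0 = 1`
(`0^κ = 0`).  `(n+1)^κ - n^κ ≤ κ n^(κ-1) ≤ 1` for `n ≥ 1`, `n^(κ-1) = (log (gX n))^(1-1/κ) = (log (gX n))^(-(2r+3))`, and
`e^u - 1 ≤ 2u` for `0 ≤ u ≤ 1`.  Third part: `n^(-κ A₂) ≤ ∫_(n-1)^n`, `∑_{n ≥ n₀} n^(-κ A₂) ≤ n₀^(-κ A₂) + n₀^(1-κ A₂)/(κ A₂ - 1)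
≤ C n₀^(1-κ A₂)`, `n₀^(1-κ A₂) = (log (gX n₀))^(2r+4-A₂)`. -/
def fpU1 : Prop := ∀ r : ℕ, (∀ X : ℝ, 1 ≤ X → ∃ n : ℕ, gX r n ≤ X ∧ X ≤ gX r (n + 1)) ∧
  (∀ n : ℕ, 1 ≤ n → Real.log (gX r n) = (n : ℝ) ^ (1 / (2 * (r : ℝ) + 4)) ∧ gX r n ≤ gX r (n + 1) ∧
    gX r (n + 1) ≤ gX r n * (1 + 2 * Real.log (gX r n) ^ (-(2 * (r : ℝ) + 3)))) ∧
  ∀ A₂ : ℝ, 2 * r + 4 < A₂ → ∃ C : ℝ, 0 < C ∧ ∀ n₀ n₁ : ℕ, 1 ≤ n₀ →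
    ∑ n ∈ Finset.Icc n₀ n₁, Real.log (gX r n) ^ (-A₂) ≤
      C * Real.log (gX r n₀) ^ (2 * r + 4 - A₂)

/-- U2 (MEDIUM; uses P1, U1, Z4): between two points of the grid.  PROOF.  `X_n = gX r n ≤ X ≤ X_(n+1)`, both in
`[X/2, 2X]` for large `X` (U1).  `cor (dr) (dr) ⌊Y⌋ h` is nondecreasing in `Y`.  So `|D(X) - X P(log X)|` is at most the maximum
over `i ∈ {n, n+1}` of `|D(X_i) - X_i P(log X_i)|` plus `sup_{s,t ∈ [X_n, X_(n+1)]} |s P(log s) - t P(log t)|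
≤ (X_(n+1) - X_n) sup |(P+P')(log t)| ≤ 4X (log X/2)^(-(2r+3)) C (ll h)^C (log X)^(2r-2) ≤ X/(log X)² ≤ eb` (Z4;
`ll h ≤ 2l`, large `X`).  And `eb r C X_i H ≤ 2 · 2^(2r) 2^C eb r C X H`; `l2 (2X) ≤ 2 l2 X`. -/
def fpU2 : Prop := ∀ (r : ℕ) (E : ℕ → Polynomial ℝ), 2 ≤ r → AP r E → CB E → ∀ C : ℝ, 0 < C →
  ∃ C' X0 : ℝ, 0 < C' ∧ ∀ (X H : ℝ) (h n : ℕ), X0 ≤ X → 1 < H → H ≤ X → 1 ≤ h → (h : ℝ) ≤ X →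
  gX r n ≤ X → X ≤ gX r (n + 1) → Gf r E C (gX r n) H h → Gf r E C (gX r (n + 1)) H h →
  Gf r E C' X H h

/-- U3 (MEDIUM; uses P1, U1, U2, X2, X3, TS.H2; model: `TS/I_X23.lean`): all `X` at once.  PROOF.  `d = deg F`, `θ = (1+b)/2`,
`H = K^d`, `A`, `c`, `C₀` of H2 (`c k^d ≤ F(k) ≤ C₀ k^d` for `k > A`).  X2 with `θ` and `A₂ = A₁ + 2r + 5` gives `C₂`.  Let `K` be
large, `𝒩` the set of the `n` with `l2 (gX n)^6 ≤ log H` and `H ≤ (gX n)^θ` (finite; all have `log (gX n) ≥ log H ≥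
log K`, as `θ < 1`).  Let `B` be the union over `n ∈ 𝒩` of the exceptional sets of X2 at `gX n`:
`#B ≤ K ∑_{n ≥ n₀} (log (gX n))^(-A₂) ≤ C K (log K)^(2r+4-A₂) ≤ K (log K)^(-A₁)` (U1; `n₀` the least element of `𝒩`).
Let `K/2 < k ≤ K`, `k ∉ B`; `h = F(k)`, `c 2^(-d) H ≤ h ≤ C₀ H`.  Let `X ≥ 16`, `h ≤ X^b`; then `X ≥ h^(1/b)` is large, `H ≤ X`,
`log (h+1) ≤ 2 log H`.  (i) If `l2 (2X)^6 > log H`: `(log (h+1))^(2r) ≤ (2 l2 (2X)^6)^(2r) ≤ C l^(12r)` and X3.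
(ii) Otherwise let `gX n ≤ X ≤ gX (n+1)` (U1), both in `[X/2, 2X]`; `(gX n)^θ ≥ (X/2)^θ ≥ (h^(1/b)/2)^θ ≥ H` for large `K`
(`θ/b > 1`): `n, n+1 ∈ 𝒩`, Gf holds at both, U2 gives `Gf r E C' X H h`, and `1/(log H)^(2r) ≤ 4^r/(log (h+1))^(2r)`.
So `k` is not bad for the maximum `C` of all constants (`l ≥ 1` for `X ≥ 16`). -/
def fpU3 : Prop := ∀ (r : ℕ) (E : ℕ → Polynomial ℝ), 2 ≤ r → AP r E → CB E → ∀ F : Polynomial ℤ,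
  1 ≤ F.natDegree → 0 < F.leadingCoeff → ∀ b A₁ : ℝ, 0 < b → b < 1 → 0 < A₁ →
  ∃ C K0 : ℝ, 0 < C ∧ ∀ K : ℕ, K0 ≤ (K : ℝ) →
  (Set.ncard {k : ℕ | BadF r E F b C k ∧ K < 2 * k ∧ k ≤ K} : ℝ) ≤ K * Real.log K ^ (-A₁)

/-- U4 (EASY-MEDIUM; model: `TS/I_H6.lean`): from dyadic blocks to `[1, K]`.  PROOF.  `f(K) = #(S ∩ [1, K])`,
`f(K) ≤ f(⌊K/2⌋) + #{k ∈ S : K < 2k, k ≤ K}`.  Let `g(K) = K (log K)^(-A₁)` for `K ≥ 2`.  There is `K₁ ≥ max K0 4` with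
`g(⌊K/2⌋) ≤ (3/4) g(K)` for `K ≥ K₁` (`⌊K/2⌋ ≤ K/2`, `log ⌊K/2⌋ ≥ (1 - small) log K`).  Induction: `f(K) ≤ C g(K)`,
`C = 4 +` a bound for `K < K₁` (`f(K) ≤ K₁`, `g` bounded below on `[2, K₁]`): `(3/4) C + 1 ≤ C`. -/
def fpU4 : Prop := ∀ (S : Set ℕ) (A₁ K0 : ℝ), 0 < A₁ →
  (∀ K : ℕ, K0 ≤ (K : ℝ) → (Set.ncard {k : ℕ | k ∈ S ∧ K < 2 * k ∧ k ≤ K} : ℝ) ≤
    K * Real.log K ^ (-A₁)) →
  ∃ C : ℝ, 0 < C ∧ ∀ K : ℕ, 2 ≤ K → (Set.ncard {k : ℕ | k ∈ S ∧ 1 ≤ k ∧ k ≤ K} : ℝ) ≤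
    C * (K * Real.log K ^ (-A₁))

end Pool.Agent.Work.MP_122e00_nt.FP
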