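import Mathlib
import Pool.Agent.Work.MP_122e00_nt.FP.StmtsD

/-!
# The full polynomial: assembly
-/

namespace Pool.Agent.Work.MP_122e00_nt.FP

open Finset Filter Topology ArithmeticFunction
open Pool.Agent.Work.MP_122e00_nt.TS
open scoped ArithmeticFunction.zeta ArithmeticFunction.Moebius

/-- the final theorem -/
def StFinF : Prop := ∀ r : ℕ, 2 ≤ r → ∃ P : ℕ → Polynomial ℝ,
  (∀ h : ℕ, 1 ≤ h → (P h).natDegree = 2 * (r - 1) ∧
    (P h).leadingCoeff = Csing (r - 1) h / ((r - 1).factorial : ℝ) ^ 2) ∧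
  ∀ F : Polynomial ℤ, 1 ≤ F.natDegree → 0 < F.leadingCoeff →
  ∀ b A : ℝ, 0 < b → b < 1 → 0 < A →
  ∃ (C : ℝ) (S : Set ℕ),
  (∀ K : ℕ, 2 ≤ K → (Set.ncard {k : ℕ | k ∈ S ∧ 1 ≤ k ∧ k ≤ K} : ℝ) ≤
    C * (K / Real.log K ^ A)) ∧
  ∀ k : ℕ, k ∉ S → 1 ≤ F.eval (k : ℤ) ∧ ∀ X : ℝ, 16 ≤ X →
    ((F.eval (k : ℤ) : ℤ) : ℝ) ≤ X ^ b →
    |cor (dr r) (dr r) ⌊X⌋₊ (F.eval (k : ℤ)).toNat -
      X * (P (F.eval (k : ℤ)).toNat).eval (Real.log X)| ≤
    C * (X * Real.log X ^ (2 * r - 2) * Real.log (Real.log X) ^ C /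
      Real.log (((F.eval (k : ℤ) : ℤ) : ℝ) + 1) ^ (2 * r))

theorem one_le_l2 {X : ℝ} (hX : 16 ≤ X) : 1 ≤ l2 X := by
  have h0 : Real.exp 1 < 2.7182818286 := Real.exp_one_lt_d9
  have h2 : (0.6931471803 : ℝ) < Real.log 2 := Real.log_two_gt_d9
  have h1 : Real.exp 1 ≤ Real.log X := by
    have : Real.log 16 ≤ Real.log X := Real.log_le_log (by norm_num) hX
    have h16 : Real.log 16 = 4 * Real.log 2 := by
      rw [show (16 : ℝ) = 2 ^ (4 : ℕ) by norm_num, Real.log_pow]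
      norm_num
    linarith
  unfold l2
  rw [Real.le_log_iff_exp_le (lt_of_lt_of_le (Real.exp_pos 1) h1)]
  exact h1

theorem finF (hM4 : tsM4) (hE3 : tsE3) (hE5 : tsE5) (hG4 : tsG4) (hU3 : fpU3) (hU4 : fpU4) :
    StFinF := by
  intro r hr
  have hr1 : 1 ≤ r := by omega
  obtain ⟨B, hB⟩ := hM4 r hr1
  obtain ⟨E, hE⟩ := hE3 r B hr1 hB
  have hCB := hE5 r E hr1 hE
  refine ⟨PH r E, fun h hh => hG4 r E hr hE hCB h hh, ?_⟩
  intro F hF hFl b A hb hb1 hA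
  obtain ⟨C, K0, hC, h⟩ := hU3 r E hr hE hCB F hF hFl b A hb hb1 hA
  obtain ⟨C', hC', h'⟩ := hU4 {k : ℕ | BadF r E F b C k} A K0 hA h
  refine ⟨max C C', {k : ℕ | BadF r E F b C k}, fun K hK => ?_, fun k hk => ?_⟩
  · have h1 := h' K hK
    have hK0 : (0 : ℝ) < K := by
      have : 0 < K := by omega
      exact_mod_cast this
    have hlog : 0 < Real.log K := by
      apply Real.log_pos
      have : (2 : ℝ) ≤ K := by exact_mod_cast hK
      linarith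
    rw [Real.rpow_neg hlog.le, ← div_eq_mul_inv] at h1
    refine h1.trans ?_
    apply mul_le_mul_of_nonneg_right (le_max_right _ _)
    positivity
  · have hk' : ¬ BadF r E F b C k := hk
    have h1 : 1 ≤ F.eval (k : ℤ) := by
      by_contra hc
      exact hk' (Or.inl hc)
    refine ⟨h1, fun X hX hXb => ?_⟩
    have hn : ¬ (C * (X * Real.log X ^ (2 * r - 2) * l2 X ^ C /
        Real.log (((F.eval (k : ℤ) : ℤ) : ℝ) + 1) ^ (2 * r)) <
        |cor (dr r) (dr r) ⌊X⌋₊ (fv F k) - X * (PH r E (fv F k)).eval (Real.log X)|) := by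
      intro hG
      exact hk' (Or.inr ⟨X, hX, hXb, hG⟩)
    have h2 := not_lt.1 hn
    have hl := one_le_l2 hX
    have hX0 : 0 < X := by linarith
    have hlogX : 0 < Real.log X := Real.log_pos (by linarith)
    have hF1 : (1 : ℝ) ≤ ((F.eval (k : ℤ) : ℤ) : ℝ) := by exact_mod_cast h1
    have hlogh : 0 < Real.log (((F.eval (k : ℤ) : ℤ) : ℝ) + 1) := Real.log_pos (by linarith)
    refine le_trans h2 ?_
    have h3 : l2 X ^ C ≤ l2 X ^ (max C C') :=
      Real.rpow_le_rpow_of_exponent_le hl (le_max_left _ _)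
    change C * (X * Real.log X ^ (2 * r - 2) * l2 X ^ C /
        Real.log (((F.eval (k : ℤ) : ℤ) : ℝ) + 1) ^ (2 * r)) ≤
      max C C' * (X * Real.log X ^ (2 * r - 2) * l2 X ^ (max C C') /
        Real.log (((F.eval (k : ℤ) : ℤ) : ℝ) + 1) ^ (2 * r))
    apply mul_le_mul (le_max_left _ _) _ (by positivity) (hC.le.trans (le_max_left _ _))
    apply div_le_div_of_nonneg_right _ (by positivity)
    apply mul_le_mul_of_nonneg_left h3 (by positivity)

end Pool.Agent.Work.MP_122e00_nt.FP
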