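import Pool.Agent.Work.MP_122e00_nt.FP.StmtsA
import Pool.Agent.Work.MP_122e00_nt.TS.I_X19

/-!
Item A1 of block FP: the decomposition of `d_r`.
-/

set_option autoImplicit false

namespace Pool.Agent.Work.MP_122e00_nt.FP

open Finset Filter Topology ArithmeticFunction MeasureTheory
open Pool.Agent.Work.MP_122e00_nt.TS
open scoped ArithmeticFunction.zeta ArithmeticFunction.Moebius

namespace A1x

theorem dr_conv (a b n : ℕ) :
    ∑ s ∈ n.divisors, dr a s * dr b (n / s) = dr (a + b) n := by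
  unfold dr
  rw [pow_add, ArithmeticFunction.mul_apply,
    Nat.sum_divisorsAntidiagonal (f := fun i j => ((ζ : ArithmeticFunction ℕ) ^ a) i *
      ((ζ : ArithmeticFunction ℕ) ^ b) j)]
  push_cast
  rfl

/-- the sum over all divisors -/
noncomputable def full (r : ℕ) (k : ℕ → ℝ) (z w : ℝ) (n : ℕ) : ℝ :=
  ∑ s ∈ n.divisors, k s * TS.up r z w (n / s)

theorem full_eq (r : ℕ) (k : ℕ → ℝ) (z w : ℝ) (n : ℕ) (hn : 1 ≤ n) (hK : KK r z w k) :
    full r k z w n = ∑ p ∈ (PW z w).filter (· ∣ n), dr r (n / p) / (1 + (ow z w (n / p) : ℝ)) := by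
  unfold full TS.up
  have h1 : ∀ s ∈ n.divisors, k s * ∑ p ∈ (PW z w).filter (· ∣ n / s), dr r (n / s / p) =
      ∑ p ∈ PW z w, (if p ∣ n / s then k s * dr r (n / s / p) else 0) := by
    intro s _
    rw [Finset.mul_sum, Finset.sum_filter]
  rw [Finset.sum_congr rfl h1, Finset.sum_comm, Finset.sum_filter]
  refine Finset.sum_congr rfl fun p hp => ?_
  have hpp : p.Prime := (Finset.mem_filter.1 hp).2.1
  by_cases hpn : p ∣ n
  · rw [if_pos hpn]
    have hnp : 1 ≤ n / p := Nat.div_pos (Nat.le_of_dvd (by omega) hpn) hpp.pos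
    rw [hK.2.2 (n / p) hnp, ← Finset.sum_filter]
    have hset : n.divisors.filter (fun s => p ∣ n / s) = (n / p).divisors := by
      ext s
      rw [Finset.mem_filter, Nat.mem_divisors, Nat.mem_divisors]
      constructor
      · rintro ⟨⟨h1, _⟩, h2⟩
        refine ⟨?_, by omega⟩
        obtain ⟨c, rfl⟩ := h1
        have hs : 0 < s := by
          rcases Nat.eq_zero_or_pos s with h | h
          · rw [h] at hn; simp at hn
          · exact h
        rw [Nat.mul_div_cancel_left c hs] at h2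
        obtain ⟨e, rfl⟩ := h2
        refine ⟨e, ?_⟩
        rw [show s * (p * e) = p * (s * e) by ring, Nat.mul_div_cancel_left _ hpp.pos]
      · rintro ⟨h1, _⟩
        obtain ⟨c, hc⟩ := hpn
        rw [hc, Nat.mul_div_cancel_left c hpp.pos] at h1
        obtain ⟨e, he⟩ := h1
        have hs : 0 < s := by
          rcases Nat.eq_zero_or_pos s with h | h
          · rw [he, h] at hc; simp at hc; omega
          · exact h
        refine ⟨⟨⟨p * e, by rw [hc, he]; ring⟩, by omega⟩, ?_⟩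
        rw [hc, he, show p * (s * e) = s * (p * e) by ring, Nat.mul_div_cancel_left _ hs]
        exact dvd_mul_right p e
    rw [hset]
    refine Finset.sum_congr rfl fun s _ => ?_
    rw [Nat.div_div_eq_div_mul, Nat.div_div_eq_div_mul, mul_comm s p]
  · rw [if_neg hpn]
    refine Finset.sum_eq_zero fun s hs => ?_
    rw [if_neg]
    intro h
    exact hpn (h.trans (Nat.div_dvd_of_dvd (Nat.dvd_of_mem_divisors hs)))

theorem abs_le_conv (hX2 : tsX2) (r : ℕ) (k : ℕ → ℝ) (z w : ℝ) (n : ℕ) (hn : 1 ≤ n)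
    (hK : KK r z w k) (A : Finset ℕ) (hA : A ⊆ n.divisors) :
    |∑ s ∈ A, k s * TS.up r z w (n / s)| ≤ dr (3 * r + 1) n := by
  have h0 : ∀ s ∈ n.divisors, |k s * TS.up r z w (n / s)| ≤ dr (2 * r) s * dr (r + 1) (n / s) := by
    intro s hs
    have hs1 : 1 ≤ n / s := Nat.div_pos (Nat.divisor_le hs) (Nat.pos_of_mem_divisors hs)
    obtain ⟨u1, u2⟩ := hX2.2.2 r (n / s) z w hs1
    rw [abs_mul, abs_of_nonneg u1]
    exact mul_le_mul (hK.1 s) u2 u1 (IN15.dr_nonneg _ _)
  calc |∑ s ∈ A, k s * TS.up r z w (n / s)| ≤ ∑ s ∈ A, |k s * TS.up r z w (n / s)| :=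
        Finset.abs_sum_le_sum_abs _ _
    _ ≤ ∑ s ∈ n.divisors, |k s * TS.up r z w (n / s)| :=
        Finset.sum_le_sum_of_subset_of_nonneg hA fun _ _ _ => abs_nonneg _
    _ ≤ ∑ s ∈ n.divisors, dr (2 * r) s * dr (r + 1) (n / s) := Finset.sum_le_sum h0
    _ = dr (3 * r + 1) n := by
        rw [dr_conv]
        congr 1
        ring

theorem ow_div (z w : ℝ) (n p : ℕ) (hp : p ∈ PW z w) (hpn : p ∣ n) (h2 : ¬ p ^ 2 ∣ n) :
    1 + (ow z w (n / p) : ℝ) = (ow z w n : ℝ) := by
  have hpp : p.Prime := (Finset.mem_filter.1 hp).2.1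
  have h3 : ¬ p ∣ n / p := by
    intro h
    apply h2
    obtain ⟨c, rfl⟩ := hpn
    rw [Nat.mul_div_cancel_left c hpp.pos] at h
    rw [pow_two]
    exact Nat.mul_dvd_mul_left p h
  have hset : (PW z w).filter (· ∣ n / p) = ((PW z w).filter (· ∣ n)).erase p := by
    ext q
    rw [Finset.mem_erase, Finset.mem_filter, Finset.mem_filter]
    constructor
    · rintro ⟨h4, h5⟩
      refine ⟨?_, h4, h5.trans (Nat.div_dvd_of_dvd hpn)⟩
      rintro rfl
      exact h3 h5
    · rintro ⟨h4, h5, h6⟩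
      refine ⟨h5, ?_⟩
      have hqp : q.Prime := (Finset.mem_filter.1 h5).2.1
      have h7 : q ∣ p * (n / p) := by rw [Nat.mul_div_cancel' hpn]; exact h6
      rcases (Nat.Prime.dvd_mul hqp).1 h7 with h8 | h8
      · exact absurd ((Nat.prime_dvd_prime_iff_eq hqp hpp).1 h8) h4
      · exact h8
  have hmem : p ∈ (PW z w).filter (· ∣ n) := Finset.mem_filter.2 ⟨hp, hpn⟩
  have hpos : 0 < ((PW z w).filter (· ∣ n)).card := Finset.card_pos.2 ⟨p, hmem⟩
  have : 1 + ow z w (n / p) = ow z w n := by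
    unfold ow
    rw [hset, Finset.card_erase_of_mem hmem]
    omega
  exact_mod_cast this

theorem main1 (r : ℕ) (k : ℕ → ℝ) (z w : ℝ) (n : ℕ) (hr : 1 ≤ r) (hn : 1 ≤ n)
    (hK : KK r z w k) :
    |dr r n - r * full r k z w n - dfree r z w n| ≤ r * nu2 z w n * dr r n := by
  have hr1 : (1 : ℝ) ≤ r := by exact_mod_cast hr
  have hd0 := IN15.dr_nonneg r n
  rw [full_eq r k z w n hn hK]
  obtain ⟨A, hA⟩ : ∃ A : Finset ℕ, A = (PW z w).filter (· ∣ n) := ⟨_, rfl⟩
  have how : ow z w n = A.card := by rw [hA]; rfl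
  rw [← hA]
  have hnu : (nu2 z w n : ℝ) * (r * dr r n) =
      ∑ p ∈ A, (if p ^ 2 ∣ n then (r : ℝ) * dr r n else 0) := by
    rw [← Finset.sum_filter, Finset.sum_const, nsmul_eq_mul]
    congr 2
    unfold nu2
    congr 1
    ext p
    rw [hA, Finset.mem_filter, Finset.mem_filter, Finset.mem_filter]
    constructor
    · rintro ⟨h1, h2⟩
      exact ⟨⟨h1, (dvd_pow_self p two_ne_zero).trans h2⟩, h2⟩
    · rintro ⟨⟨h1, _⟩, h2⟩
      exact ⟨h1, h2⟩
  rw [show (r : ℝ) * nu2 z w n * dr r n = nu2 z w n * (r * dr r n) by ring, hnu]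
  unfold dfree
  by_cases h0 : ow z w n = 0
  · rw [if_pos h0]
    have : A = ∅ := by
      rw [how] at h0
      exact Finset.card_eq_zero.1 h0
    rw [this]
    simp
  · rw [if_neg h0]
    have hop : (0 : ℝ) < ow z w n := by exact_mod_cast Nat.pos_of_ne_zero h0
    have ho1 : (1 : ℝ) ≤ ow z w n := by exact_mod_cast Nat.pos_of_ne_zero h0
    have e1 : dr r n = ∑ p ∈ A, dr r n / (ow z w n : ℝ) := by
      rw [Finset.sum_const, nsmul_eq_mul, ← how]
      field_simp
    have e2 : dr r n - r * ∑ p ∈ A, dr r (n / p) / (1 + (ow z w (n / p) : ℝ)) - 0 =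
        ∑ p ∈ A, (dr r n / (ow z w n : ℝ) - r * (dr r (n / p) / (1 + (ow z w (n / p) : ℝ)))) := by
      rw [Finset.sum_sub_distrib, ← e1, Finset.mul_sum, sub_zero]
    rw [e2]
    refine (Finset.abs_sum_le_sum_abs _ _).trans (Finset.sum_le_sum fun p hp => ?_)
    rw [hA, Finset.mem_filter] at hp
    obtain ⟨hp1, hpn⟩ := hp
    have hpp : p.Prime := (Finset.mem_filter.1 hp1).2.1
    by_cases h2 : p ^ 2 ∣ n
    · rw [if_pos h2]
      have b1 := IX19.dr_mono r (n / p) n hr (Nat.div_dvd_of_dvd hpn) hn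
      have b3 := IN15.dr_nonneg r (n / p)
      have b4 : (0 : ℝ) ≤ ow z w (n / p) := Nat.cast_nonneg _
      have b5 : dr r (n / p) / (1 + (ow z w (n / p) : ℝ)) ≤ dr r (n / p) :=
        div_le_self b3 (by linarith)
      have b6 : 0 ≤ dr r (n / p) / (1 + (ow z w (n / p) : ℝ)) := div_nonneg b3 (by linarith)
      have b7 : dr r n / (ow z w n : ℝ) ≤ dr r n := div_le_self hd0 ho1
      have b8 : 0 ≤ dr r n / (ow z w n : ℝ) := div_nonneg hd0 hop.le
      have b9 : (r : ℝ) * (dr r (n / p) / (1 + (ow z w (n / p) : ℝ))) ≤ r * dr r n :=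
        mul_le_mul_of_nonneg_left (b5.trans b1) (by linarith)
      have b10 : 0 ≤ (r : ℝ) * (dr r (n / p) / (1 + (ow z w (n / p) : ℝ))) :=
        mul_nonneg (by linarith) b6
      have b11 : dr r n ≤ (r : ℝ) * dr r n := by nlinarith
      rw [abs_le]
      constructor <;> linarith
    · rw [if_neg h2, ow_div z w n p hp1 hpn h2]
      have b1 := IN15.term r n p hpp hpn h2
      have b2 : (r : ℝ) * dr r (n / p) = dr r n := by linarith
      have b3 : dr r n / (ow z w n : ℝ) - r * (dr r (n / p) / (ow z w n : ℝ)) = 0 := by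
        rw [← mul_div_assoc, b2, sub_self]
      rw [b3, abs_zero]

end A1x

open A1x in
/-- A1. -/
theorem pfA1 (h1 : tsX2) : fpA1 := by
  intro r z w k S n hr hK hn
  have hr0 : (0 : ℝ) ≤ r := Nat.cast_nonneg r
  have hsub : (Finset.Icc 1 S).filter (· ∣ n) ⊆ n.divisors := by
    intro s hs
    rw [Finset.mem_filter] at hs
    exact Nat.mem_divisors.2 ⟨hs.2, by omega⟩
  refine ⟨?_, ?_⟩
  · have e1 : full r k z w n = ∑ s ∈ (Finset.Icc 1 S).filter (· ∣ n), k s * TS.up r z w (n / s) +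
        ∑ s ∈ n.divisors.filter (fun s => S < s), k s * TS.up r z w (n / s) := by
      unfold full
      rw [← Finset.sum_filter_add_sum_filter_not n.divisors (fun s => s ≤ S)]
      have s1 : n.divisors.filter (fun s => s ≤ S) = (Finset.Icc 1 S).filter (· ∣ n) := by
        ext s
        rw [Finset.mem_filter, Finset.mem_filter, Finset.mem_Icc, Nat.mem_divisors]
        constructor
        · rintro ⟨⟨h2, h3⟩, h4⟩
          exact ⟨⟨Nat.pos_of_dvd_of_pos h2 (by omega), h4⟩, h2⟩
        · rintro ⟨⟨_, h4⟩, h2⟩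
          exact ⟨⟨h2, by omega⟩, h4⟩
      have s2 : n.divisors.filter (fun s => ¬ s ≤ S) = n.divisors.filter (fun s => S < s) := by
        refine Finset.filter_congr fun s _ => ?_
        exact not_le
      rw [s1, s2]
    have e2 : dr r n - fS r k z w S n - dfree r z w n =
        (dr r n - r * full r k z w n - dfree r z w n) +
          r * ∑ s ∈ n.divisors.filter (fun s => S < s), k s * TS.up r z w (n / s) := by
      rw [e1]
      unfold fS
      ring
    rw [e2]
    refine (abs_add_le _ _).trans ?_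
    unfold tau
    refine add_le_add (main1 r k z w n hr hn hK) ?_
    rw [abs_mul, abs_of_nonneg hr0]
    split_ifs with hex
    · exact mul_le_mul_of_nonneg_left
        (abs_le_conv h1 r k z w n hn hK _ (Finset.filter_subset _ _)) hr0
    · have : ∑ s ∈ n.divisors.filter (fun s => S < s), k s * TS.up r z w (n / s) = 0 := by
        refine Finset.sum_eq_zero fun s hs => ?_
        rw [Finset.mem_filter] at hs
        by_cases hk : k s = 0
        · rw [hk, zero_mul]
        · exact absurd ⟨s, Nat.dvd_of_mem_divisors hs.1, hs.2, hK.2.1 s hk⟩ hex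
      rw [this, abs_zero, mul_zero]
  · unfold fS
    rw [abs_mul, abs_of_nonneg hr0]
    exact mul_le_mul_of_nonneg_left (abs_le_conv h1 r k z w n hn hK _ hsub) hr0

end Pool.Agent.Work.MP_122e00_nt.FP
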