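import Pool.Agent.Work.MP_122e00_nt.FP.StmtsA

/-!
# Item B1 of block FP: integers with a large smooth divisor
-/

set_option autoImplicit false

namespace Pool.Agent.Work.MP_122e00_nt.FP

open Finset Filter Topology ArithmeticFunction
open Pool.Agent.Work.MP_122e00_nt.TS
open scoped ArithmeticFunction.zeta ArithmeticFunction.Moebius

namespace B1x

theorem dr_nonneg (r n : ℕ) : 0 ≤ dr r n := Nat.cast_nonneg _

theorem dr_mul (r a b : ℕ) (hab : Nat.Coprime a b) : dr r (a * b) = dr r a * dr r b := by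
  have hm : ((ζ : ArithmeticFunction ℕ) ^ r).IsMultiplicative := isMultiplicative_zeta.pow
  unfold dr
  rw [hm.map_mul_of_coprime hab, Nat.cast_mul]

theorem dr_one (r : ℕ) : dr r 1 = 1 := by
  have hm : ((ζ : ArithmeticFunction ℕ) ^ r).IsMultiplicative := isMultiplicative_zeta.pow
  unfold dr
  rw [hm.map_one, Nat.cast_one]

theorem z_succ (r n : ℕ) :
    ((ζ : ArithmeticFunction ℕ) ^ (r + 1)) n = ∑ d ∈ n.divisors, ((ζ : ArithmeticFunction ℕ) ^ r) d := by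
  rw [pow_succ, mul_zeta_apply]

theorem z_sub (r a b : ℕ) : ((ζ : ArithmeticFunction ℕ) ^ r) (a * b) ≤
    ((ζ : ArithmeticFunction ℕ) ^ r) a * ((ζ : ArithmeticFunction ℕ) ^ r) b := by
  induction r generalizing a b with
  | zero =>
    rw [pow_zero]
    by_cases h : a * b = 1
    · have h1 : a = 1 := Nat.eq_one_of_mul_eq_one_right h
      have h2 : b = 1 := Nat.eq_one_of_mul_eq_one_left h
      rw [h1, h2]
      simp
    · rw [ArithmeticFunction.one_apply_ne h]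
      exact Nat.zero_le _
  | succ r ih =>
    rcases Nat.eq_zero_or_pos (a * b) with h0 | h0
    · rw [h0]
      simp
    · have ha : a ≠ 0 := by
        rintro rfl
        simp at h0
      have hb : b ≠ 0 := by
        rintro rfl
        simp at h0
      rw [z_succ, z_succ, z_succ, Finset.sum_mul_sum, ← Finset.sum_product']
      have h1 : (a * b).divisors ⊆
          (a.divisors ×ˢ b.divisors).image fun x => x.1 * x.2 := by
        intro d hd
        obtain ⟨d1, d2, h2, h3, h4⟩ := Nat.dvd_mul.1 (Nat.dvd_of_mem_divisors hd)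
        exact Finset.mem_image.2 ⟨(d1, d2), Finset.mem_product.2
          ⟨Nat.mem_divisors.2 ⟨h2, ha⟩, Nat.mem_divisors.2 ⟨h3, hb⟩⟩, h4⟩
      calc ∑ d ∈ (a * b).divisors, ((ζ : ArithmeticFunction ℕ) ^ r) d
          ≤ ∑ d ∈ (a.divisors ×ˢ b.divisors).image fun x => x.1 * x.2,
              ((ζ : ArithmeticFunction ℕ) ^ r) d := Finset.sum_le_sum_of_subset h1
        _ ≤ ∑ x ∈ a.divisors ×ˢ b.divisors, ((ζ : ArithmeticFunction ℕ) ^ r) (x.1 * x.2) :=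
            Finset.sum_image_le_of_nonneg fun _ _ => Nat.zero_le _
        _ ≤ _ := Finset.sum_le_sum fun x _ => ih x.1 x.2

theorem dr_sub (r a b : ℕ) : dr r (a * b) ≤ dr r a * dr r b := by
  unfold dr
  exact_mod_cast z_sub r a b

/-- `d_r(p^j) ≤ (j+1)^r` -/
theorem dr_pow_le (r p j : ℕ) (hp : p.Prime) : dr r (p ^ j) ≤ ((j : ℝ) + 1) ^ r := by
  have h : ∀ j, ((ζ : ArithmeticFunction ℕ) ^ r) (p ^ j) ≤ (j + 1) ^ r := by
    induction r with
    | zero =>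
      intro j
      rw [pow_zero, pow_zero]
      by_cases h : p ^ j = 1
      · rw [h]
        simp
      · rw [ArithmeticFunction.one_apply_ne h]
        exact Nat.zero_le _
    | succ r ih =>
      intro j
      rw [z_succ, Nat.sum_divisors_prime_pow hp]
      calc ∑ i ∈ Finset.range (j + 1), ((ζ : ArithmeticFunction ℕ) ^ r) (p ^ i)
          ≤ ∑ i ∈ Finset.range (j + 1), (j + 1) ^ r := by
            refine Finset.sum_le_sum fun i hi => (ih i).trans ?_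
            have : i < j + 1 := Finset.mem_range.1 hi
            exact Nat.pow_le_pow_left (by omega) r
        _ = (j + 1) ^ (r + 1) := by
            rw [Finset.sum_const, Finset.card_range, smul_eq_mul, pow_succ, mul_comm]
  unfold dr
  exact_mod_cast h j

/-- the summand -/
noncomputable def g (R : ℕ) (σ : ℝ) (n : ℕ) : ℝ := dr R n * (n : ℝ) ^ (σ - 1)

theorem g_nonneg (R : ℕ) (σ : ℝ) (n : ℕ) : 0 ≤ g R σ n :=
  mul_nonneg (dr_nonneg _ _) (Real.rpow_nonneg (Nat.cast_nonneg _) _)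

theorem g_one (R : ℕ) (σ : ℝ) : g R σ 1 = 1 := by
  unfold g
  rw [dr_one, Nat.cast_one, Real.one_rpow, mul_one]

theorem g_mul (R : ℕ) (σ : ℝ) {m n : ℕ} (h : Nat.Coprime m n) :
    g R σ (m * n) = g R σ m * g R σ n := by
  unfold g
  rw [dr_mul R m n h, Nat.cast_mul, Real.mul_rpow (Nat.cast_nonneg _) (Nat.cast_nonneg _)]
  ring

/-- the ratio of the geometric series -/
noncomputable def x (p : ℕ) : ℝ := (p : ℝ) ^ (-(3 / 4) : ℝ)

theorem x_nonneg (p : ℕ) : 0 ≤ x p := Real.rpow_nonneg (Nat.cast_nonneg _) _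

theorem x_le {p : ℕ} (hp : p.Prime) : x p ≤ 3 / 5 := by
  have hp2 : (2 : ℝ) ≤ p := by exact_mod_cast hp.two_le
  have h1 : x p ^ 4 ≤ (3 / 5) ^ 4 := by
    unfold x
    rw [← Real.rpow_natCast, ← Real.rpow_mul (Nat.cast_nonneg p)]
    have e : (-(3 / 4) : ℝ) * ((4 : ℕ) : ℝ) = -((3 : ℕ) : ℝ) := by norm_num
    rw [e, Real.rpow_neg (Nat.cast_nonneg p), Real.rpow_natCast]
    calc ((p : ℝ) ^ 3)⁻¹ ≤ ((2 : ℝ) ^ 3)⁻¹ := by gcongr
      _ ≤ (3 / 5) ^ 4 := by norm_num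
  exact le_of_pow_le_pow_left₀ (by norm_num) (by norm_num) h1

theorem x_sq (p : ℕ) : x p ^ 2 = (p : ℝ) ^ (-(3 / 2) : ℝ) := by
  unfold x
  rw [← Real.rpow_natCast, ← Real.rpow_mul (Nat.cast_nonneg p)]
  norm_num

/-- `g(p^j) ≤ (j+1)^R x^j` for `σ ≤ 1/4` -/
theorem g_pow_le (R : ℕ) (σ : ℝ) (hσ : σ ≤ 1 / 4) {p : ℕ} (hp : p.Prime) (j : ℕ) :
    g R σ (p ^ j) ≤ ((j : ℝ) + 1) ^ R * x p ^ j := by
  unfold g
  refine mul_le_mul (dr_pow_le R p j hp) ?_ (Real.rpow_nonneg (Nat.cast_nonneg _) _) (by positivity)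
  have hp1 : (1 : ℝ) ≤ p := by exact_mod_cast hp.one_lt.le
  have e : ((p ^ j : ℕ) : ℝ) ^ (σ - 1) = ((p : ℝ) ^ (σ - 1)) ^ j := by
    rw [Nat.cast_pow, ← Real.rpow_natCast, ← Real.rpow_natCast, ← Real.rpow_mul (by linarith),
      ← Real.rpow_mul (by linarith), mul_comm]
  rw [e]
  refine pow_le_pow_left₀ (Real.rpow_nonneg (by linarith) _) ?_ j
  exact Real.rpow_le_rpow_of_exponent_le hp1 (by linarith)

theorem sum_aux (R : ℕ) : Summable (fun i : ℕ => ((i : ℝ) + 3) ^ R * (3 / 5 : ℝ) ^ i) := by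
  have h1 : Summable (fun n : ℕ => (n : ℝ) ^ R * (3 / 5 : ℝ) ^ n) :=
    summable_pow_mul_geometric_of_norm_lt_one R (by rw [Real.norm_eq_abs]; norm_num [abs_lt])
  have h2 := (summable_nat_add_iff 3).2 h1
  have h3 := h2.mul_right ((3 / 5 : ℝ) ^ 3)⁻¹
  refine h3.congr fun i => ?_
  rw [pow_add]
  push_cast
  have : ((3 / 5 : ℝ) ^ 3) ≠ 0 := by norm_num
  field_simp

/-- the constant -/
noncomputable def KR (R : ℕ) : ℝ := ∑' i : ℕ, ((i : ℝ) + 3) ^ R * (3 / 5 : ℝ) ^ i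

theorem KR_nonneg (R : ℕ) : 0 ≤ KR R := tsum_nonneg fun _ => by positivity

theorem g_summable (R : ℕ) (σ : ℝ) (hσ : σ ≤ 1 / 4) {p : ℕ} (hp : p.Prime) :
    Summable (fun n : ℕ => g R σ (p ^ n)) := by
  have h1 : Summable (fun n : ℕ => ((n : ℝ) + 3) ^ R * (3 / 5 : ℝ) ^ n) := sum_aux R
  refine Summable.of_nonneg_of_le (fun n => g_nonneg _ _ _) (fun n => ?_) h1
  refine (g_pow_le R σ hσ hp n).trans ?_
  have := x_nonneg p
  have := x_le hp
  gcongr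
  norm_num

theorem g_tsum (R : ℕ) (σ : ℝ) (hσ : σ ≤ 1 / 4) {p : ℕ} (hp : p.Prime)
    (hpσ : (p : ℝ) ^ σ ≤ Real.exp 1) :
    ∑' n : ℕ, g R σ (p ^ n) ≤
      Real.exp (2 ^ R * Real.exp 1 * (1 / (p : ℝ)) + KR R * (p : ℝ) ^ (-(3 / 2) : ℝ)) := by
  have hp0 : (0 : ℝ) < p := by exact_mod_cast hp.pos
  have hs := g_summable R σ hσ hp
  have hs1 : Summable (fun n : ℕ => g R σ (p ^ (n + 1))) := (summable_nat_add_iff 1).2 hs
  have hs2 : Summable (fun n : ℕ => g R σ (p ^ (n + 1 + 1))) :=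
    (summable_nat_add_iff (f := fun n : ℕ => g R σ (p ^ (n + 1))) 1).2 hs1
  rw [hs.tsum_eq_zero_add, pow_zero, g_one, hs1.tsum_eq_zero_add]
  have h1 : g R σ (p ^ (0 + 1)) ≤ 2 ^ R * Real.exp 1 * (1 / (p : ℝ)) := by
    unfold g
    have h2 : dr R (p ^ (0 + 1)) ≤ 2 ^ R := by
      have := dr_pow_le R p 1 hp
      norm_num at this
      simpa using this
    have h3 : ((p ^ (0 + 1) : ℕ) : ℝ) ^ (σ - 1) ≤ Real.exp 1 * (1 / p) := by
      rw [zero_add, pow_one, Real.rpow_sub_one hp0.ne', div_eq_mul_one_div]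
      gcongr
    calc dr R (p ^ (0 + 1)) * ((p ^ (0 + 1) : ℕ) : ℝ) ^ (σ - 1)
        ≤ 2 ^ R * (Real.exp 1 * (1 / p)) :=
          mul_le_mul h2 h3 (Real.rpow_nonneg (Nat.cast_nonneg _) _) (by positivity)
      _ = _ := by ring
  have h2 : ∑' n : ℕ, g R σ (p ^ (n + 1 + 1)) ≤ KR R * (p : ℝ) ^ (-(3 / 2) : ℝ) := by
    have h3 : Summable (fun i : ℕ => ((i : ℝ) + 3) ^ R * (3 / 5 : ℝ) ^ i * x p ^ 2) :=
      (sum_aux R).mul_right _
    have h4 : ∑' n : ℕ, g R σ (p ^ (n + 1 + 1)) ≤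
        ∑' i : ℕ, ((i : ℝ) + 3) ^ R * (3 / 5 : ℝ) ^ i * x p ^ 2 := by
      refine hs2.tsum_le_tsum (fun n => ?_) h3
      refine (g_pow_le R σ hσ hp (n + 1 + 1)).trans ?_
      have e1 : (((n + 1 + 1 : ℕ) : ℝ) + 1) = (n : ℝ) + 3 := by
        push_cast
        ring
      rw [e1]
      have e2 : x p ^ (n + 1 + 1) = x p ^ n * x p ^ 2 := by ring
      rw [e2, mul_assoc]
      have := x_nonneg p
      have := x_le hp
      gcongr
    rw [tsum_mul_right, x_sq] at h4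
    exact h4
  have h5 := Real.add_one_le_exp
    (2 ^ R * Real.exp 1 * (1 / (p : ℝ)) + KR R * (p : ℝ) ^ (-(3 / 2) : ℝ))
  linarith

/-- the constant for the sum of `p ^ (-3/2)` -/
noncomputable def S32 : ℝ := ∑' n : ℕ, (n : ℝ) ^ (-(3 / 2) : ℝ)

theorem sum_le_S32 (A : Finset ℕ) : ∑ p ∈ A, (p : ℝ) ^ (-(3 / 2) : ℝ) ≤ S32 :=
  (Real.summable_nat_rpow.2 (by norm_num)).sum_le_tsum _
    fun _ _ => Real.rpow_nonneg (Nat.cast_nonneg _) _

theorem S32_nonneg : 0 ≤ S32 := tsum_nonneg fun _ => Real.rpow_nonneg (Nat.cast_nonneg _) _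

theorem primesBelow_eq (Z : ℕ) : (Z + 1).primesBelow = pr1 Z := by
  ext p
  unfold pr1
  rw [Nat.mem_primesBelow, Finset.mem_filter, Finset.mem_Icc]
  constructor
  · rintro ⟨h1, h2⟩
    exact ⟨⟨h2.one_lt.le, by omega⟩, h2⟩
  · rintro ⟨⟨_, h1⟩, h2⟩
    exact ⟨by omega, h2⟩

/-- the Euler product bound -/
theorem sum_g_le (R : ℕ) (C0 : ℝ) (w : ℝ) (hw : Real.exp 4 ≤ w)
    (hC0 : |∑ p ∈ pr1 ⌊w⌋₊, 1 / (p : ℝ) - Real.log (Real.log ⌊w⌋₊)| ≤ C0) (A : Finset ℕ)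
    (hA : ∀ s ∈ A, s ∈ (⌊w⌋₊ + 1).smoothNumbers) :
    ∑ s ∈ A, g R (1 / Real.log w) s ≤
      Real.exp (2 ^ R * Real.exp 1 * C0 + KR R * S32) * Real.log w ^ (2 ^ R * Real.exp 1) := by
  have hw0 : 0 < w := lt_of_lt_of_le (Real.exp_pos 4) hw
  have hlw : 4 ≤ Real.log w := by
    rw [Real.le_log_iff_exp_le hw0]
    exact hw
  set σ : ℝ := 1 / Real.log w with hσdef
  have hσ : σ ≤ 1 / 4 := by
    rw [hσdef]
    exact one_div_le_one_div_of_le (by norm_num) hlw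
  have hσ0 : 0 ≤ σ := by
    rw [hσdef]
    positivity
  have hsum : ∀ {p : ℕ}, p.Prime → Summable (fun n : ℕ => ‖g R σ (p ^ n)‖) := by
    intro p hp
    have := g_summable R σ hσ hp
    simpa only [Real.norm_eq_abs, abs_of_nonneg (g_nonneg R σ _)] using this
  have h1 := (EulerProduct.summable_and_hasSum_smoothNumbers_prod_primesBelow_tsum
    (f := g R σ) (g_one R σ) (fun {m n} h => g_mul R σ h) hsum (⌊w⌋₊ + 1)).2
  have h2 : HasSum ((⌊w⌋₊ + 1).smoothNumbers.indicator (g R σ))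
      (∏ p ∈ (⌊w⌋₊ + 1).primesBelow, ∑' n : ℕ, g R σ (p ^ n)) :=
    hasSum_subtype_iff_indicator.1 h1
  have h3 : ∑ s ∈ A, (⌊w⌋₊ + 1).smoothNumbers.indicator (g R σ) s ≤
      ∏ p ∈ (⌊w⌋₊ + 1).primesBelow, ∑' n : ℕ, g R σ (p ^ n) :=
    sum_le_hasSum _ (fun i _ => Set.indicator_nonneg (fun _ _ => g_nonneg R σ _) _) h2
  have h4 : ∑ s ∈ A, g R σ s = ∑ s ∈ A, (⌊w⌋₊ + 1).smoothNumbers.indicator (g R σ) s := by
    refine Finset.sum_congr rfl fun s hs => ?_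
    rw [Set.indicator_of_mem (hA s hs)]
  rw [h4]
  refine h3.trans ?_
  rw [primesBelow_eq]
  have h5 : ∏ p ∈ pr1 ⌊w⌋₊, ∑' n : ℕ, g R σ (p ^ n) ≤ ∏ p ∈ pr1 ⌊w⌋₊,
      Real.exp (2 ^ R * Real.exp 1 * (1 / (p : ℝ)) + KR R * (p : ℝ) ^ (-(3 / 2) : ℝ)) := by
    refine Finset.prod_le_prod (fun p _ => tsum_nonneg fun n => g_nonneg R σ _) fun p hp => ?_
    have hp' : p.Prime := (Finset.mem_filter.1 hp).2
    have hpw : (p : ℝ) ≤ w := by
      have h6 := (Finset.mem_Icc.1 (Finset.mem_filter.1 hp).1).2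
      exact (Nat.le_floor_iff hw0.le).1 h6
    refine g_tsum R σ hσ hp' ?_
    have hp0 : (0 : ℝ) < p := by exact_mod_cast hp'.pos
    calc (p : ℝ) ^ σ ≤ w ^ σ := Real.rpow_le_rpow hp0.le hpw hσ0
      _ = Real.exp 1 := by
        rw [Real.rpow_def_of_pos hw0, hσdef, mul_one_div_cancel (by linarith)]
  refine h5.trans ?_
  rw [← Real.exp_sum, Finset.sum_add_distrib, ← Finset.mul_sum, ← Finset.mul_sum]
  have hZ : Real.log (Real.log ⌊w⌋₊) ≤ Real.log (Real.log w) := by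
    have h54 : (5 : ℝ) ≤ Real.exp 4 := by
      have := Real.add_one_le_exp (4 : ℝ)
      linarith
    have h7 : (4 : ℝ) ≤ (⌊w⌋₊ : ℝ) := by
      have := Nat.lt_floor_add_one w
      linarith
    have h8 : (⌊w⌋₊ : ℝ) ≤ w := Nat.floor_le hw0.le
    have h9 : 0 < Real.log ⌊w⌋₊ := Real.log_pos (by linarith)
    exact Real.log_le_log h9 (Real.log_le_log (by linarith) h8)
  have h10 : ∑ p ∈ pr1 ⌊w⌋₊, 1 / (p : ℝ) ≤ Real.log (Real.log w) + C0 := by
    have := (abs_le.1 hC0).2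
    linarith
  have h11 : KR R * ∑ p ∈ pr1 ⌊w⌋₊, (p : ℝ) ^ (-(3 / 2) : ℝ) ≤ KR R * S32 :=
    mul_le_mul_of_nonneg_left (sum_le_S32 _) (KR_nonneg R)
  have h12 : 2 ^ R * Real.exp 1 * ∑ p ∈ pr1 ⌊w⌋₊, 1 / (p : ℝ) ≤
      2 ^ R * Real.exp 1 * (Real.log (Real.log w) + C0) :=
    mul_le_mul_of_nonneg_left h10 (by positivity)
  have h13 : Real.exp (2 ^ R * Real.exp 1 * C0 + KR R * S32) *
      Real.log w ^ (2 ^ R * Real.exp 1) =
      Real.exp (2 ^ R * Real.exp 1 * (Real.log (Real.log w) + C0) + KR R * S32) := by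
    rw [Real.rpow_def_of_pos (by linarith : 0 < Real.log w), ← Real.exp_add]
    congr 1
    ring
  rw [h13]
  exact Real.exp_le_exp.2 (add_le_add h12 h11)

/-- the sum over the multiples of `s` -/
theorem sum_mult (hX : ∀ r N : ℕ, 1 ≤ r → 1 ≤ N →
    ∑ n ∈ Finset.Icc 1 N, dr r n ≤ N * (1 + Real.log N) ^ (r - 1)) (R : ℕ) (hR : 1 ≤ R) (y : ℝ)
    (hy : 1 ≤ y) (s : ℕ) (hs : s ∈ Finset.Icc 1 ⌊y⌋₊) :
    ∑ n ∈ (Finset.Icc 1 ⌊y⌋₊).filter (s ∣ ·), dr R n ≤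
      dr R s * (y / s) * (1 + Real.log y) ^ (R - 1) := by
  rw [Finset.mem_Icc] at hs
  obtain ⟨hs1, hsN⟩ := hs
  have hs0 : (0 : ℝ) < s := by exact_mod_cast hs1
  have hsub : (Finset.Icc 1 ⌊y⌋₊).filter (s ∣ ·) ⊆
      (Finset.Icc 1 (⌊y⌋₊ / s)).image (s * ·) := by
    intro n hn
    rw [Finset.mem_filter, Finset.mem_Icc] at hn
    obtain ⟨⟨h1, h2⟩, m, rfl⟩ := hn
    rw [Finset.mem_image]
    refine ⟨m, Finset.mem_Icc.2 ⟨?_, ?_⟩, rfl⟩
    · rcases Nat.eq_zero_or_pos m with h | h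
      · rw [h] at h1
        omega
      · exact h
    · rw [Nat.le_div_iff_mul_le hs1, mul_comm]
      exact h2
  have hinj : Set.InjOn (s * ·) ((Finset.Icc 1 (⌊y⌋₊ / s) : Finset ℕ) : Set ℕ) := by
    intro a _ b _ hab
    exact Nat.eq_of_mul_eq_mul_left hs1 hab
  have hN1 : 1 ≤ ⌊y⌋₊ / s := (Nat.le_div_iff_mul_le hs1).2 (by omega)
  have hNy : ((⌊y⌋₊ / s : ℕ) : ℝ) ≤ y / s := by
    refine (Nat.cast_div_le).trans ?_
    have := Nat.floor_le (by linarith : 0 ≤ y)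
    gcongr
  have hNy2 : ((⌊y⌋₊ / s : ℕ) : ℝ) ≤ y :=
    hNy.trans (div_le_self (by linarith) (by exact_mod_cast hs1))
  have hNpos : (0 : ℝ) < ((⌊y⌋₊ / s : ℕ) : ℝ) := by exact_mod_cast hN1
  calc ∑ n ∈ (Finset.Icc 1 ⌊y⌋₊).filter (s ∣ ·), dr R n
      ≤ ∑ n ∈ (Finset.Icc 1 (⌊y⌋₊ / s)).image (s * ·), dr R n :=
        Finset.sum_le_sum_of_subset_of_nonneg hsub fun _ _ _ => dr_nonneg _ _
    _ = ∑ m ∈ Finset.Icc 1 (⌊y⌋₊ / s), dr R (s * m) := Finset.sum_image hinj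
    _ ≤ ∑ m ∈ Finset.Icc 1 (⌊y⌋₊ / s), dr R s * dr R m :=
        Finset.sum_le_sum fun m _ => dr_sub R s m
    _ = dr R s * ∑ m ∈ Finset.Icc 1 (⌊y⌋₊ / s), dr R m := by rw [Finset.mul_sum]
    _ ≤ dr R s * (((⌊y⌋₊ / s : ℕ) : ℝ) * (1 + Real.log ((⌊y⌋₊ / s : ℕ) : ℝ)) ^ (R - 1)) :=
        mul_le_mul_of_nonneg_left (hX R _ hR hN1) (dr_nonneg _ _)
    _ ≤ dr R s * ((y / s) * (1 + Real.log y) ^ (R - 1)) := by
        have h1 : 0 ≤ Real.log ((⌊y⌋₊ / s : ℕ) : ℝ) := Real.log_natCast_nonneg _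
        have h2 : Real.log ((⌊y⌋₊ / s : ℕ) : ℝ) ≤ Real.log y := Real.log_le_log hNpos hNy2
        have h3 := dr_nonneg R s
        gcongr
    _ = _ := by ring

end B1x

open B1x

open Classical in
theorem pfB1 (h1 : tsN1) (h2 : tsX2) : fpB1 := by
  intro R hR
  obtain ⟨C0, hC0, hM, -⟩ := h1
  obtain ⟨-, hX, -⟩ := h2
  set K1 : ℝ := Real.exp (2 ^ R * Real.exp 1 * C0 + KR R * S32) with hK1
  have hK1pos : 0 < K1 := Real.exp_pos _
  set a : ℝ := ((R - 1 : ℕ) : ℝ) + 2 ^ R * Real.exp 1 with ha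
  have ha0 : 0 ≤ a := by positivity
  refine ⟨max (2 ^ (R - 1) * K1) a, lt_max_of_lt_left (by positivity), ?_⟩
  intro y z w S hw hwy hS
  have hw0 : 0 < w := lt_of_lt_of_le (Real.exp_pos 4) hw
  have hy0 : 0 < y := hw0.trans_le hwy
  have hlw : 4 ≤ Real.log w := by
    rw [Real.le_log_iff_exp_le hw0]
    exact hw
  have hly : Real.log w ≤ Real.log y := Real.log_le_log hw0 hwy
  have hy1 : 1 ≤ y := by
    have := Real.add_one_le_exp (4 : ℝ)
    linarith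
  have hS0 : (0 : ℝ) < S := by exact_mod_cast hS
  set σ : ℝ := 1 / Real.log w with hσdef
  have hσ0 : 0 ≤ σ := by
    rw [hσdef]
    positivity
  set A : Finset ℕ := (Finset.Icc 1 ⌊y⌋₊).filter (fun s => Wsm z w s) with hA
  -- first step
  have step1 : ∑ n ∈ (Finset.Icc 1 ⌊y⌋₊).filter (fun n => ∃ s, s ∣ n ∧ S < s ∧ Wsm z w s), dr R n ≤
      ∑ s ∈ A, ((s : ℝ) / S) ^ σ * ∑ n ∈ (Finset.Icc 1 ⌊y⌋₊).filter (s ∣ ·), dr R n := by
    have e1 : ∑ s ∈ A, ((s : ℝ) / S) ^ σ * ∑ n ∈ (Finset.Icc 1 ⌊y⌋₊).filter (s ∣ ·), dr R n =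
        ∑ n ∈ Finset.Icc 1 ⌊y⌋₊, ∑ s ∈ A, (if s ∣ n then ((s : ℝ) / S) ^ σ * dr R n else 0) := by
      rw [Finset.sum_comm]
      refine Finset.sum_congr rfl fun s _ => ?_
      rw [Finset.mul_sum, Finset.sum_filter]
    rw [e1, Finset.sum_filter]
    refine Finset.sum_le_sum fun n hn => ?_
    have hnn : ∀ s ∈ A, 0 ≤ (if s ∣ n then ((s : ℝ) / S) ^ σ * dr R n else 0) := by
      intro s _
      split_ifs
      · exact mul_nonneg (Real.rpow_nonneg (by positivity) _) (dr_nonneg _ _)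
      · exact le_rfl
    split_ifs with h
    · obtain ⟨s, hsn, hSs, hWs⟩ := h
      have hn' := Finset.mem_Icc.1 hn
      have hsA : s ∈ A := by
        rw [hA, Finset.mem_filter, Finset.mem_Icc]
        refine ⟨⟨hWs.1, (Nat.le_of_dvd (by omega) hsn).trans hn'.2⟩, hWs⟩
      refine le_trans ?_ (Finset.single_le_sum hnn hsA)
      rw [if_pos hsn]
      have h1 : (1 : ℝ) ≤ ((s : ℝ) / S) ^ σ := by
        refine Real.one_le_rpow ?_ hσ0
        rw [one_le_div hS0]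
        exact_mod_cast hSs.le
      exact le_mul_of_one_le_left (dr_nonneg _ _) h1
    · exact Finset.sum_nonneg hnn
  refine step1.trans ?_
  -- second step
  have step2 : ∑ s ∈ A, ((s : ℝ) / S) ^ σ *
      ∑ n ∈ (Finset.Icc 1 ⌊y⌋₊).filter (s ∣ ·), dr R n ≤
      (y * (1 + Real.log y) ^ (R - 1) * Real.exp (-(Real.log S / Real.log w))) *
        ∑ s ∈ A, g R σ s := by
    rw [Finset.mul_sum]
    refine Finset.sum_le_sum fun s hs => ?_
    rw [hA, Finset.mem_filter] at hs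
    have hs1 : 1 ≤ s := (Finset.mem_Icc.1 hs.1).1
    have hs0 : (0 : ℝ) < s := by exact_mod_cast hs1
    have h3 := sum_mult hX R hR y hy1 s hs.1
    calc ((s : ℝ) / S) ^ σ * ∑ n ∈ (Finset.Icc 1 ⌊y⌋₊).filter (s ∣ ·), dr R n
        ≤ ((s : ℝ) / S) ^ σ * (dr R s * (y / s) * (1 + Real.log y) ^ (R - 1)) :=
          mul_le_mul_of_nonneg_left h3 (Real.rpow_nonneg (by positivity) _)
      _ = _ := by
        have e1 : ((s : ℝ) / S) ^ σ = (s : ℝ) ^ σ * Real.exp (-(Real.log S / Real.log w)) := by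
          rw [Real.div_rpow hs0.le hS0.le, div_eq_mul_inv, ← Real.rpow_neg hS0.le,
            Real.rpow_def_of_pos hS0 (-σ)]
          congr 2
          rw [hσdef]
          ring
        unfold g
        rw [e1, Real.rpow_sub_one hs0.ne']
        ring
  refine step2.trans ?_
  have hAs : ∀ s ∈ A, s ∈ (⌊w⌋₊ + 1).smoothNumbers := by
    intro s hs
    rw [hA, Finset.mem_filter] at hs
    obtain ⟨_, hs1, hsp⟩ := hs
    rw [Nat.mem_smoothNumbers]
    refine ⟨by omega, fun p hp => ?_⟩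
    have := (hsp p (Nat.mem_primeFactors_iff_mem_primeFactorsList.2 hp)).2
    have := (Nat.le_floor_iff hw0.le).2 this
    omega
  have hZ2 : 2 ≤ ⌊w⌋₊ := by
    rw [Nat.le_floor_iff hw0.le]
    have := Real.add_one_le_exp (4 : ℝ)
    push_cast
    linarith
  have step3 := sum_g_le R C0 w hw (hM _ hZ2).2 A hAs
  rw [← hK1, ← hσdef] at step3
  have hlogy : 1 ≤ Real.log y := by linarith
  calc (y * (1 + Real.log y) ^ (R - 1) * Real.exp (-(Real.log S / Real.log w))) *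
        ∑ s ∈ A, g R σ s
      ≤ (y * (1 + Real.log y) ^ (R - 1) * Real.exp (-(Real.log S / Real.log w))) *
        (K1 * Real.log w ^ (2 ^ R * Real.exp 1)) := by
        refine mul_le_mul_of_nonneg_left step3 ?_
        have : 0 ≤ 1 + Real.log y := by linarith
        positivity
    _ ≤ (y * (2 ^ (R - 1) * Real.log y ^ (((R - 1 : ℕ) : ℝ))) *
        Real.exp (-(Real.log S / Real.log w))) * (K1 * Real.log y ^ (2 ^ R * Real.exp 1)) := by
        have h4 : (1 + Real.log y) ^ (R - 1) ≤ 2 ^ (R - 1) * Real.log y ^ (((R - 1 : ℕ) : ℝ)) := by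
          rw [Real.rpow_natCast, ← mul_pow]
          exact pow_le_pow_left₀ (by linarith) (by linarith) _
        have h5 : Real.log w ^ (2 ^ R * Real.exp 1) ≤ Real.log y ^ (2 ^ R * Real.exp 1) :=
          Real.rpow_le_rpow (by linarith) hly (by positivity)
        have h6 : 0 ≤ 1 + Real.log y := by linarith
        have h7 : 0 ≤ Real.log w := by linarith
        gcongr
    _ = (2 ^ (R - 1) * K1) * y * Real.log y ^ a * Real.exp (-(Real.log S / Real.log w)) := by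
        rw [ha, Real.rpow_add (by linarith)]
        ring
    _ ≤ max (2 ^ (R - 1) * K1) a * y * Real.log y ^ (max (2 ^ (R - 1) * K1) a) *
        Real.exp (-(Real.log S / Real.log w)) := by
        have h8 : Real.log y ^ a ≤ Real.log y ^ (max (2 ^ (R - 1) * K1) a) :=
          Real.rpow_le_rpow_of_exponent_le hlogy (le_max_right _ _)
        have h9 : 2 ^ (R - 1) * K1 ≤ max (2 ^ (R - 1) * K1) a := le_max_left _ _
        have h10 : 0 ≤ Real.log y ^ a := Real.rpow_nonneg (by linarith) _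
        gcongr

end Pool.Agent.Work.MP_122e00_nt.FP
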