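import Pool.Agent.Work.MP_122e00_nt.FP.StmtsA
import Pool.Agent.Work.MP_122e00_nt.TS.I_X19

/-!
Item B2 of block FP: integers divisible by the square of a window prime.
-/

set_option autoImplicit false

namespace Pool.Agent.Work.MP_122e00_nt.FP

open Finset Filter Topology ArithmeticFunction MeasureTheory
open Pool.Agent.Work.MP_122e00_nt.TS
open scoped ArithmeticFunction.zeta ArithmeticFunction.Moebius

namespace B2x

/-- powers of the logarithm -/
theorem logpow (R : ℕ) (C L : ℝ) (hL : 1 ≤ L) (hC : (R : ℝ) ≤ C) :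
    (1 + L) ^ (R - 1) ≤ 2 ^ R * L ^ C := by
  have h0 : (0 : ℝ) ≤ L := by linarith
  have h1 : (1 + L) ^ (R - 1) ≤ (2 * L) ^ R :=
    (pow_le_pow_left₀ (by linarith) (by linarith) _).trans
      (pow_le_pow_right₀ (by linarith) (Nat.sub_le _ _))
  have h2 : L ^ R ≤ L ^ C := by
    rw [← Real.rpow_natCast]
    exact Real.rpow_le_rpow_of_exponent_le hL hC
  rw [mul_pow] at h1
  exact h1.trans (mul_le_mul_of_nonneg_left h2 (by positivity))

end B2x

open B2x in
/-- B2. Integers divisible by the square of a window prime. -/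
theorem pfB2 (h1 : tsX2) : fpB2 := by
  intro R hR
  obtain ⟨C, hCdef⟩ : ∃ C : ℝ, C = 2 * (R : ℝ) ^ 2 * 2 ^ R := ⟨_, rfl⟩
  have hR1 : (1 : ℝ) ≤ R := by exact_mod_cast hR
  have h2R : (1 : ℝ) ≤ 2 ^ R := one_le_pow₀ (by norm_num)
  have hRC : (R : ℝ) ≤ C := by
    rw [hCdef]
    nlinarith [mul_le_mul hR1 h2R (by norm_num) (by linarith)]
  refine ⟨C, by linarith, fun y z w hy hz => ?_⟩
  have hL : 1 ≤ Real.log y := by
    rw [Real.le_log_iff_exp_le (by linarith)]
    linarith [Real.exp_one_lt_d9]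
  have h2 := IX19.sum_nu h1 R hR z w y hz (by linarith)
  have h3 : ∑ n ∈ Finset.Icc 1 ⌊y⌋₊, (nu2 z w n : ℝ) * dr R n =
      ∑ n ∈ Finset.Icc 1 ⌊y⌋₊, dr R n * IX19.nu z w n :=
    Finset.sum_congr rfl fun n _ => mul_comm _ _
  rw [h3]
  refine h2.trans ?_
  have h4 := logpow R C (Real.log y) hL hRC
  have h5 : (R : ℝ) ^ 2 * (y * (1 + Real.log y) ^ (R - 1)) * (2 / z) ≤
      (R : ℝ) ^ 2 * (y * (2 ^ R * Real.log y ^ C)) * (2 / z) :=
    mul_le_mul_of_nonneg_right (mul_le_mul_of_nonneg_left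
      (mul_le_mul_of_nonneg_left h4 (by linarith)) (by positivity)) (by positivity)
  refine h5.trans (le_of_eq ?_)
  have h6 : (R : ℝ) ^ 2 * (y * (2 ^ R * Real.log y ^ C)) * (2 / z) =
      (2 * (R : ℝ) ^ 2 * 2 ^ R) * y * Real.log y ^ C / z := by ring
  rw [h6, ← hCdef]

end Pool.Agent.Work.MP_122e00_nt.FP
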