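import Mathlib
import Pool.Agent.Work.MP_122e00_nt.FP.StmtsA

/-!
# Full polynomial, item B3: the second moment of `tau`
-/

namespace Pool.Agent.Work.MP_122e00_nt.FP

open Finset Filter Topology ArithmeticFunction MeasureTheory
open Pool.Agent.Work.MP_122e00_nt.TS
open scoped ArithmeticFunction.zeta ArithmeticFunction.Moebius

namespace B3x

theorem dr_nonneg (r n : ℕ) : 0 ≤ dr r n := by
  unfold dr
  positivity

theorem nu2_le (y z w : ℝ) (n : ℕ) (hn : 1 ≤ n) (hy : (n : ℝ) ≤ y) :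
    (nu2 z w n : ℝ) ≤ 2 * Real.log y := by
  have h1 : nu2 z w n ≤ n.primeFactors.card := by
    unfold nu2
    apply Finset.card_le_card
    intro p hp
    rw [Finset.mem_filter, PW, Finset.mem_filter] at hp
    rw [Nat.mem_primeFactors]
    exact ⟨hp.1.2.1, (dvd_pow_self p two_ne_zero).trans hp.2, by omega⟩
  have h2 : 2 ^ n.primeFactors.card ≤ n := by
    calc 2 ^ n.primeFactors.card ≤ ∏ p ∈ n.primeFactors, p :=
          Finset.pow_card_le_prod _ _ _ fun p hp => (Nat.prime_of_mem_primeFactors hp).two_le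
      _ ≤ n := Nat.le_of_dvd (by omega) (Nat.prod_primeFactors_dvd n)
  have h3 : 2 ^ nu2 z w n ≤ n := (Nat.pow_le_pow_right (by norm_num) h1).trans h2
  have h4 : ((2 : ℝ) ^ nu2 z w n) ≤ y := by
    have : ((2 ^ nu2 z w n : ℕ) : ℝ) ≤ n := by exact_mod_cast h3
    push_cast at this
    exact this.trans hy
  have h5 := Real.log_le_log (by positivity) h4
  rw [Real.log_pow] at h5
  have h6 := Real.log_two_gt_d9
  have h7 : (0 : ℝ) ≤ nu2 z w n := by positivity
  nlinarith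

theorem comb (A B : ℝ) : (A + B) ^ 2 ≤ 2 * A ^ 2 + 2 * B ^ 2 := by
  nlinarith [sq_nonneg (A - B)]

open Classical in
theorem key (h3 : tsX2) (r : ℕ) (hr : 1 ≤ r) (y z w : ℝ) (S n : ℕ) (hn : 1 ≤ n)
    (hy : (n : ℝ) ≤ y) :
    tau r z w S n ^ 2 ≤ 4 * r ^ 2 * Real.log y * ((nu2 z w n : ℝ) * dr (r * r) n) +
      2 * r ^ 2 * (if ∃ s, s ∣ n ∧ S < s ∧ Wsm z w s then
        dr ((3 * r + 1) * (3 * r + 1)) n else 0) := by
  unfold tau
  refine (comb _ _).trans (add_le_add ?_ ?_)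
  · have h1 := h3.1 r r n hr hr
    have h2 := nu2_le y z w n hn hy
    have h0 : (0 : ℝ) ≤ nu2 z w n := by positivity
    have hd := dr_nonneg r n
    have hd2 := dr_nonneg (r * r) n
    have hr0 : (0 : ℝ) ≤ (r : ℝ) ^ 2 := by positivity
    have e1 : (nu2 z w n : ℝ) * nu2 z w n ≤ 2 * Real.log y * nu2 z w n :=
      mul_le_mul_of_nonneg_right h2 h0
    have e2 : ((nu2 z w n : ℝ) * nu2 z w n) * (dr r n * dr r n) ≤
        (2 * Real.log y * nu2 z w n) * dr (r * r) n :=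
      mul_le_mul e1 h1 (mul_nonneg hd hd) ((mul_nonneg h0 h0).trans e1)
    calc 2 * (r * (nu2 z w n : ℝ) * dr r n) ^ 2
        = 2 * r ^ 2 * (((nu2 z w n : ℝ) * nu2 z w n) * (dr r n * dr r n)) := by ring
      _ ≤ 2 * r ^ 2 * ((2 * Real.log y * nu2 z w n) * dr (r * r) n) :=
          mul_le_mul_of_nonneg_left e2 (by positivity)
      _ = _ := by ring
  · split_ifs with hc
    · have h1 := h3.1 (3 * r + 1) (3 * r + 1) n (by omega) (by omega)
      calc 2 * (r * dr (3 * r + 1) n) ^ 2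
          = 2 * r ^ 2 * (dr (3 * r + 1) n * dr (3 * r + 1) n) := by ring
        _ ≤ 2 * r ^ 2 * dr ((3 * r + 1) * (3 * r + 1)) n :=
            mul_le_mul_of_nonneg_left h1 (by positivity)
    · simp

end B3x

theorem pfB3 (h1 : fpB1) (h2 : fpB2) (h3 : tsX2) : fpB3 := by
  classical
  intro r hr
  obtain ⟨C1, hC1, h1⟩ := h1 ((3 * r + 1) * (3 * r + 1)) (Nat.mul_pos (by omega) (by omega))
  obtain ⟨C2, hC2, h2⟩ := h2 (r * r) (Nat.mul_pos hr hr)
  have hrp : (0 : ℝ) < (r : ℝ) ^ 2 := by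
    have : (0 : ℝ) < r := by exact_mod_cast hr
    positivity
  refine ⟨4 * r ^ 2 * (C1 + C2) + C1 + C2 + 1, by positivity, ?_⟩
  intro y z w S hz hw hwy hS
  have hy4 : Real.exp 4 ≤ y := hw.trans hwy
  have hy5 : (5 : ℝ) ≤ y := by
    have := Real.add_one_le_exp 4
    linarith
  have hL : 4 ≤ Real.log y := by
    rw [Real.le_log_iff_exp_le (by linarith)]
    exact hy4
  set C : ℝ := 4 * r ^ 2 * (C1 + C2) + C1 + C2 + 1 with hC
  set L : ℝ := Real.log y with hLdef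
  set K : ℝ := Real.exp (-(Real.log S / Real.log w)) with hK
  have hKp : 0 < K := Real.exp_pos _
  have hzp : 0 < 1 / z := by positivity
  have g1 := h1 y z w S hw hwy hS
  have g2 := h2 y z w (by linarith) hz
  rw [Finset.sum_filter] at g1
  have hsum : ∑ n ∈ Finset.Icc 1 ⌊y⌋₊, tau r z w S n ^ 2 ≤
      4 * r ^ 2 * L * (∑ n ∈ Finset.Icc 1 ⌊y⌋₊, (nu2 z w n : ℝ) * dr (r * r) n) +
      2 * r ^ 2 * ∑ n ∈ Finset.Icc 1 ⌊y⌋₊, (if ∃ s, s ∣ n ∧ S < s ∧ Wsm z w s then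
        dr ((3 * r + 1) * (3 * r + 1)) n else 0) := by
    rw [Finset.mul_sum, Finset.mul_sum, ← Finset.sum_add_distrib]
    refine Finset.sum_le_sum fun n hn => ?_
    rw [Finset.mem_Icc] at hn
    refine B3x.key h3 r hr y z w S n hn.1 ?_
    exact (Nat.cast_le.2 hn.2).trans (Nat.floor_le (by linarith))
  have e1 : L ^ (1 + C2) ≤ L ^ C := Real.rpow_le_rpow_of_exponent_le (by linarith) (by
    rw [hC]
    have : 0 ≤ 4 * (r : ℝ) ^ 2 * (C1 + C2) := by positivity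
    linarith)
  have e2 : L ^ C1 ≤ L ^ C := Real.rpow_le_rpow_of_exponent_le (by linarith) (by
    rw [hC]
    have : 0 ≤ 4 * (r : ℝ) ^ 2 * (C1 + C2) := by positivity
    linarith)
  have e3 : L * L ^ C2 = L ^ (1 + C2) := by
    rw [Real.rpow_add (by linarith), Real.rpow_one]
  have hLC : 0 < L ^ C := Real.rpow_pos_of_pos (by linarith) _
  have f1 : 4 * r ^ 2 * L * (C2 * y * L ^ C2 / z) ≤ C * y * L ^ C * (1 / z) := by
    have q1 : 4 * r ^ 2 * L * (C2 * y * L ^ C2 / z) =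
        (4 * r ^ 2 * C2) * (y * (L * L ^ C2) * (1 / z)) := by ring
    have q2 : C * y * L ^ C * (1 / z) = C * (y * L ^ C * (1 / z)) := by ring
    rw [q1, q2, e3]
    refine mul_le_mul ?_ ?_ (by positivity) (by positivity)
    · rw [hC]
      have : 0 ≤ 4 * (r : ℝ) ^ 2 * C1 := by positivity
      linarith
    · exact mul_le_mul_of_nonneg_right (mul_le_mul_of_nonneg_left e1 (by linarith)) hzp.le
  have f2 : 2 * r ^ 2 * (C1 * y * L ^ C1 * K) ≤ C * y * L ^ C * K := by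
    have q1 : 2 * r ^ 2 * (C1 * y * L ^ C1 * K) = (2 * r ^ 2 * C1) * (y * L ^ C1 * K) := by ring
    have q2 : C * y * L ^ C * K = C * (y * L ^ C * K) := by ring
    rw [q1, q2]
    refine mul_le_mul ?_ ?_ (by positivity) (by positivity)
    · rw [hC]
      have : 0 ≤ 2 * (r : ℝ) ^ 2 * C1 := by positivity
      have : 0 ≤ 4 * (r : ℝ) ^ 2 * C2 := by positivity
      linarith
    · exact mul_le_mul_of_nonneg_right (mul_le_mul_of_nonneg_left e2 (by linarith)) hKp.le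
  have f3 : 4 * r ^ 2 * L * (∑ n ∈ Finset.Icc 1 ⌊y⌋₊, (nu2 z w n : ℝ) * dr (r * r) n) ≤
      4 * r ^ 2 * L * (C2 * y * L ^ C2 / z) :=
    mul_le_mul_of_nonneg_left g2 (by positivity)
  have f4 : 2 * r ^ 2 * ∑ n ∈ Finset.Icc 1 ⌊y⌋₊, (if ∃ s, s ∣ n ∧ S < s ∧ Wsm z w s then
      dr ((3 * r + 1) * (3 * r + 1)) n else 0) ≤ 2 * r ^ 2 * (C1 * y * L ^ C1 * K) := by
    refine mul_le_mul_of_nonneg_left ?_ (by positivity)
    refine le_trans (le_of_eq ?_) g1
    refine Finset.sum_congr rfl fun n _ => ?_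
    congr
  have f5 : C * y * L ^ C * (1 / z + K) = C * y * L ^ C * (1 / z) + C * y * L ^ C * K := by ring
  rw [f5]
  linarith

end Pool.Agent.Work.MP_122e00_nt.FP

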