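import Pool.Agent.Work.MP_122e00_nt.FP.StmtsA
import Pool.Agent.Work.MP_122e00_nt.TS.I_X2

set_option autoImplicit false

/-!
# Item B4: `tau` over the multiples of `e`
-/

namespace Pool.Agent.Work.MP_122e00_nt.FP

open Finset Filter Topology ArithmeticFunction MeasureTheory
open Pool.Agent.Work.MP_122e00_nt.TS
open scoped ArithmeticFunction.zeta ArithmeticFunction.Moebius

namespace B4x

theorem dr_nonneg (r n : ℕ) : 0 ≤ dr r n := Nat.cast_nonneg _

theorem dr_sub (r a b : ℕ) : dr r (a * b) ≤ dr r a * dr r b := by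
  unfold dr
  exact_mod_cast IX2.z_sub r a b

theorem dr_succ_le (r n : ℕ) (hn : 1 ≤ n) : dr r n ≤ dr (r + 1) n := by
  unfold dr
  have h : ((ζ : ArithmeticFunction ℕ) ^ r) n ≤ ((ζ : ArithmeticFunction ℕ) ^ (r + 1)) n := by
    rw [IX2.z_succ]
    exact Finset.single_le_sum (f := fun d => ((ζ : ArithmeticFunction ℕ) ^ r) d)
      (fun _ _ => Nat.zero_le _) (Nat.mem_divisors_self n (by omega))
  exact_mod_cast h

theorem dr_up (r k n : ℕ) (hn : 1 ≤ n) : dr r n ≤ dr (r + k) n := by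
  induction k with
  | zero => exact le_rfl
  | succ k ih => exact ih.trans (dr_succ_le (r + k) n hn)

theorem dr_le (r n : ℕ) (hn : 1 ≤ n) : dr r n ≤ dr (3 * r + 1) n := by
  have := dr_up r (2 * r + 1) n hn
  rwa [show r + (2 * r + 1) = 3 * r + 1 by ring] at this

theorem PW_mem {z w : ℝ} {p : ℕ} (hp : p ∈ PW z w) : p.Prime ∧ z < (p : ℝ) := by
  unfold PW at hp
  exact (Finset.mem_filter.1 hp).2

theorem nu2_le (z w : ℝ) (e m : ℕ) (he : 1 ≤ e) (hpe : ∀ p ∈ e.primeFactors, (p : ℝ) ≤ z) :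
    nu2 z w (e * m) ≤ nu2 z w m := by
  unfold nu2
  refine Finset.card_le_card fun p hp => ?_
  obtain ⟨h1, h2⟩ := Finset.mem_filter.1 hp
  refine Finset.mem_filter.2 ⟨h1, ?_⟩
  obtain ⟨h3, h4⟩ := PW_mem h1
  have h5 : ¬ p ∣ e := by
    intro h
    have := hpe p (Nat.mem_primeFactors.2 ⟨h3, h, by omega⟩)
    linarith
  have h6 : Nat.Coprime (p ^ 2) e := Nat.Coprime.pow_left 2 ((Nat.Prime.coprime_iff_not_dvd h3).2 h5)
  exact h6.dvd_of_dvd_mul_left h2

theorem smooth_dvd (z w : ℝ) (e m s : ℕ) (he : 1 ≤ e)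
    (hpe : ∀ p ∈ e.primeFactors, (p : ℝ) ≤ z) (hs : Wsm z w s) (h : s ∣ e * m) : s ∣ m := by
  have hs1 : 1 ≤ s := hs.1
  have hc : Nat.Coprime s e := by
    rw [← Nat.disjoint_primeFactors (by omega) (by omega), Finset.disjoint_left]
    intro p hp hp'
    have h1 := (hs.2 p hp).1
    have h2 := hpe p hp'
    linarith
  exact hc.dvd_of_dvd_mul_left h

open Classical in
theorem tau_le (r : ℕ) (z w : ℝ) (S e m : ℕ) (he : 1 ≤ e) (hm : 1 ≤ m)
    (hpe : ∀ p ∈ e.primeFactors, (p : ℝ) ≤ z) :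
    tau r z w S (e * m) ≤ r * dr (3 * r + 1) e * ((nu2 z w m : ℝ) * dr (3 * r + 1) m +
      (if ∃ s, s ∣ m ∧ S < s ∧ Wsm z w s then dr (3 * r + 1) m else 0)) := by
  have hem : 1 ≤ e * m := Nat.mul_pos he hm
  have hr0 : (0 : ℝ) ≤ r := Nat.cast_nonneg _
  have h1 : dr (3 * r + 1) (e * m) ≤ dr (3 * r + 1) e * dr (3 * r + 1) m := dr_sub _ _ _
  have h2 : dr r (e * m) ≤ dr (3 * r + 1) e * dr (3 * r + 1) m := (dr_le r (e * m) hem).trans h1
  have h3 : (nu2 z w (e * m) : ℝ) ≤ nu2 z w m := by exact_mod_cast nu2_le z w e m he hpe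
  have h0 : 0 ≤ dr (3 * r + 1) e * dr (3 * r + 1) m := mul_nonneg (dr_nonneg _ _) (dr_nonneg _ _)
  unfold tau
  have a1 : (r : ℝ) * nu2 z w (e * m) * dr r (e * m) ≤
      r * nu2 z w m * (dr (3 * r + 1) e * dr (3 * r + 1) m) :=
    mul_le_mul (mul_le_mul_of_nonneg_left h3 hr0) h2 (dr_nonneg _ _)
      (mul_nonneg hr0 (Nat.cast_nonneg _))
  have a2 : (if ∃ s, s ∣ e * m ∧ S < s ∧ Wsm z w s then (r : ℝ) * dr (3 * r + 1) (e * m) else 0) ≤
      r * dr (3 * r + 1) e * (if ∃ s, s ∣ m ∧ S < s ∧ Wsm z w s then dr (3 * r + 1) m else 0) := by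
    by_cases hc : ∃ s, s ∣ e * m ∧ S < s ∧ Wsm z w s
    · have hc' : ∃ s, s ∣ m ∧ S < s ∧ Wsm z w s := by
        obtain ⟨s, h4, h5, h6⟩ := hc
        exact ⟨s, smooth_dvd z w e m s he hpe h6 h4, h5, h6⟩
      rw [if_pos hc, if_pos hc', mul_assoc]
      exact mul_le_mul_of_nonneg_left h1 hr0
    · rw [if_neg hc]
      refine mul_nonneg (mul_nonneg hr0 (dr_nonneg _ _)) ?_
      split_ifs
      · exact dr_nonneg _ _
      · exact le_rfl
  calc _ ≤ r * nu2 z w m * (dr (3 * r + 1) e * dr (3 * r + 1) m) +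
        r * dr (3 * r + 1) e * (if ∃ s, s ∣ m ∧ S < s ∧ Wsm z w s then dr (3 * r + 1) m else 0) :=
      add_le_add a1 a2
    _ = _ := by ring

theorem filt (x : ℝ) (e : ℕ) (he : 1 ≤ e) (hx : 0 ≤ x) :
    (Finset.Icc 1 ⌊x⌋₊).filter (e ∣ ·) = (Finset.Icc 1 ⌊x / e⌋₊).image (e * ·) := by
  have he' : (0 : ℝ) < e := by exact_mod_cast he
  ext n
  simp only [Finset.mem_filter, Finset.mem_Icc, Finset.mem_image]
  constructor
  · rintro ⟨⟨h1, h2⟩, m, rfl⟩
    refine ⟨m, ⟨?_, ?_⟩, rfl⟩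
    · rcases Nat.eq_zero_or_pos m with h | h
      · rw [h] at h1; simp at h1
      · exact h
    · rw [Nat.le_floor_iff hx] at h2
      rw [Nat.le_floor_iff (by positivity), le_div_iff₀ he']
      push_cast at h2
      linarith
  · rintro ⟨m, ⟨h1, h2⟩, rfl⟩
    refine ⟨⟨Nat.mul_pos he h1, ?_⟩, Dvd.intro m rfl⟩
    rw [Nat.le_floor_iff (by positivity), le_div_iff₀ he'] at h2
    rw [Nat.le_floor_iff hx]
    push_cast
    linarith

end B4x

open B4x in
theorem pfB4 (h1 : fpB1) (h2 : fpB2) : fpB4 := by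
  classical
  intro r hr
  obtain ⟨C1, hC1, H1⟩ := h1 (3 * r + 1) (by omega)
  obtain ⟨C2, hC2, H2⟩ := h2 (3 * r + 1) (by omega)
  have hr1 : (1 : ℝ) ≤ r := by exact_mod_cast hr
  refine ⟨r * (C1 + C2), by positivity, ?_⟩
  intro x z w S e hz hw he hpe hwx hS
  have he' : (0 : ℝ) < e := by exact_mod_cast he
  have he1 : (1 : ℝ) ≤ e := by exact_mod_cast he
  set y : ℝ := x / e with hy
  have hy4 : Real.exp 4 ≤ y := hw.trans hwx
  have he4 : (5 : ℝ) ≤ Real.exp 4 := by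
    have := Real.add_one_le_exp (4 : ℝ)
    linarith
  have hy5 : 5 ≤ y := he4.trans hy4
  have hxy : x = e * y := by rw [hy]; field_simp
  have hyx : y ≤ x := by
    rw [hxy]
    nlinarith
  have hx0 : 0 ≤ x := by linarith
  have hly : 4 ≤ Real.log y := by
    rw [Real.le_log_iff_exp_le (by linarith)]
    exact hy4
  have hlx : Real.log y ≤ Real.log x := Real.log_le_log (by linarith) hyx
  set L := Real.log x with hL
  have hL1 : 1 ≤ L := by linarith
  have hz0 : 0 < z := by linarith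
  set C : ℝ := r * (C1 + C2) with hC
  have hCC1 : C1 ≤ C := by rw [hC]; nlinarith
  have hCC2 : C2 ≤ C := by rw [hC]; nlinarith
  have q1 : Real.log y ^ C1 ≤ L ^ C :=
    (Real.rpow_le_rpow (by linarith) hlx hC1.le).trans (Real.rpow_le_rpow_of_exponent_le hL1 hCC1)
  have q2 : Real.log y ^ C2 ≤ L ^ C :=
    (Real.rpow_le_rpow (by linarith) hlx hC2.le).trans (Real.rpow_le_rpow_of_exponent_le hL1 hCC2)
  set D : ℝ := dr (3 * r + 1) e with hD
  have hD0 : 0 ≤ D := dr_nonneg _ _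
  set X1 : ℝ := Real.exp (-(Real.log S / Real.log w)) with hX1
  have hX10 : 0 < X1 := Real.exp_pos _
  have hLC : 0 ≤ L ^ C := Real.rpow_nonneg (by linarith) _
  have s1 := H1 y z w S hw hwx hS
  have s2 := H2 y z w (by linarith) hz
  rw [filt x e he hx0, Finset.sum_image (fun a _ b _ h => Nat.eq_of_mul_eq_mul_left he h)]
  calc ∑ m ∈ Finset.Icc 1 ⌊y⌋₊, tau r z w S (e * m)
      ≤ ∑ m ∈ Finset.Icc 1 ⌊y⌋₊, r * D * ((nu2 z w m : ℝ) * dr (3 * r + 1) m +
      (if ∃ s, s ∣ m ∧ S < s ∧ Wsm z w s then dr (3 * r + 1) m else 0)) := by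
        refine Finset.sum_le_sum fun m hm => ?_
        have := tau_le r z w S e m he (Finset.mem_Icc.1 hm).1 hpe
        convert this
    _ = r * D * (∑ m ∈ Finset.Icc 1 ⌊y⌋₊, (nu2 z w m : ℝ) * dr (3 * r + 1) m +
      ∑ m ∈ (Finset.Icc 1 ⌊y⌋₊).filter (fun n => ∃ s, s ∣ n ∧ S < s ∧ Wsm z w s),
        dr (3 * r + 1) m) := by
        rw [← Finset.mul_sum, Finset.sum_add_distrib, Finset.sum_filter]
    _ ≤ r * D * (C2 * y * Real.log y ^ C2 / z + C1 * y * Real.log y ^ C1 * X1) := by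
        refine mul_le_mul_of_nonneg_left (add_le_add s2 ?_) (by positivity)
        convert s1
    _ ≤ r * D * (C2 * y * L ^ C / z + C1 * y * L ^ C * X1) := by
        refine mul_le_mul_of_nonneg_left (add_le_add ?_ ?_) (by positivity)
        · exact div_le_div_of_nonneg_right (mul_le_mul_of_nonneg_left q2 (by positivity)) hz0.le
        · exact mul_le_mul_of_nonneg_right (mul_le_mul_of_nonneg_left q1 (by positivity)) hX10.le
    _ = D * y * L ^ C * (r * C2 * (1 / z) + r * C1 * X1) := by ring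
    _ ≤ D * y * L ^ C * (C * (1 / z) + C * X1) := by
        refine mul_le_mul_of_nonneg_left (add_le_add ?_ ?_) (by positivity)
        · refine mul_le_mul_of_nonneg_right ?_ (by positivity)
          rw [hC]; nlinarith
        · refine mul_le_mul_of_nonneg_right ?_ hX10.le
          rw [hC]; nlinarith
    _ = C * D * y * L ^ C * (1 / z + X1) := by ring

end Pool.Agent.Work.MP_122e00_nt.FP
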