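import Pool.Agent.Work.MP_122e00_nt.FP.StmtsA

/-!
# Item C1: the mean of the divisor function over the integers without window primes
-/

namespace Pool.Agent.Work.MP_122e00_nt.FP

open Finset Filter Topology ArithmeticFunction
open Pool.Agent.Work.MP_122e00_nt.TS
open scoped ArithmeticFunction.zeta ArithmeticFunction.Moebius

namespace C1x

theorem dr_nonneg (r n : ℕ) : 0 ≤ dr r n := Nat.cast_nonneg _

theorem z_succ (r n : ℕ) :
    ((ζ : ArithmeticFunction ℕ) ^ (r + 1)) n = ∑ d ∈ n.divisors, ((ζ : ArithmeticFunction ℕ) ^ r) d := by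
  rw [pow_succ, mul_zeta_apply]

theorem z_one (r : ℕ) : ((ζ : ArithmeticFunction ℕ) ^ r) 1 = 1 := by
  induction r with
  | zero => simp
  | succ r ih => rw [z_succ, Nat.divisors_one, Finset.sum_singleton, ih]

theorem z_sub (r a b : ℕ) : ((ζ : ArithmeticFunction ℕ) ^ r) (a * b) ≤
    ((ζ : ArithmeticFunction ℕ) ^ r) a * ((ζ : ArithmeticFunction ℕ) ^ r) b := by
  induction r generalizing a b with
  | zero =>
    rw [pow_zero]
    by_cases h : a * b = 1
    · have h1 : a = 1 := Nat.eq_one_of_mul_eq_one_right h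
      have h2 : b = 1 := Nat.eq_one_of_mul_eq_one_left h
      rw [h1, h2]
      simp
    · rw [ArithmeticFunction.one_apply_ne h]
      exact Nat.zero_le _
  | succ r ih =>
    rcases Nat.eq_zero_or_pos (a * b) with h0 | h0
    · rw [h0]
      simp
    · have ha : a ≠ 0 := by
        rintro rfl
        simp at h0
      have hb : b ≠ 0 := by
        rintro rfl
        simp at h0
      rw [z_succ, z_succ, z_succ, Finset.sum_mul_sum, ← Finset.sum_product']
      have h1 : (a * b).divisors ⊆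
          (a.divisors ×ˢ b.divisors).image fun x => x.1 * x.2 := by
        intro d hd
        obtain ⟨d1, d2, h2, h3, h4⟩ := Nat.dvd_mul.1 (Nat.dvd_of_mem_divisors hd)
        exact Finset.mem_image.2 ⟨(d1, d2), Finset.mem_product.2
          ⟨Nat.mem_divisors.2 ⟨h2, ha⟩, Nat.mem_divisors.2 ⟨h3, hb⟩⟩, h4⟩
      refine (Finset.sum_le_sum_of_subset h1).trans ?_
      refine (Finset.sum_image_le_of_nonneg ?_).trans ?_
      · intro _ _
        exact Nat.zero_le _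
      · exact Finset.sum_le_sum fun x _ => ih x.1 x.2

theorem dr_sub (r a b : ℕ) : dr r (a * b) ≤ dr r a * dr r b := by
  unfold dr
  exact_mod_cast z_sub r a b

theorem dr_mul (r a b : ℕ) (hab : Nat.Coprime a b) : dr r (a * b) = dr r a * dr r b := by
  have hm : ((ζ : ArithmeticFunction ℕ) ^ r).IsMultiplicative := isMultiplicative_zeta.pow
  unfold dr
  rw [hm.map_mul_of_coprime hab, Nat.cast_mul]

theorem dr_one (r : ℕ) : dr r 1 = 1 := by
  unfold dr
  rw [z_one, Nat.cast_one]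

theorem zpp (r p j : ℕ) (hp : p.Prime) :
    ((ζ : ArithmeticFunction ℕ) ^ r) (p ^ j) ≤ (j + 1) ^ r := by
  induction r generalizing j with
  | zero =>
    rw [pow_zero, pow_zero]
    by_cases h : p ^ j = 1
    · rw [h]
      simp
    · rw [ArithmeticFunction.one_apply_ne h]
      exact Nat.zero_le _
  | succ r ih =>
    rw [z_succ, Nat.sum_divisors_prime_pow hp]
    refine (Finset.sum_le_sum (g := fun _ => (j + 1) ^ r) fun i hi => (ih i).trans ?_).trans ?_
    · have : i < j + 1 := Finset.mem_range.1 hi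
      exact Nat.pow_le_pow_left (by omega) r
    · rw [Finset.sum_const, Finset.card_range, smul_eq_mul, pow_succ']

theorem dr_pp (r p j : ℕ) (hp : p.Prime) : dr r (p ^ j) ≤ ((j : ℝ) + 1) ^ r := by
  unfold dr
  exact_mod_cast zpp r p j hp

theorem z_prime (r p : ℕ) (hp : p.Prime) : ((ζ : ArithmeticFunction ℕ) ^ r) p = r := by
  induction r with
  | zero =>
    rw [pow_zero, ArithmeticFunction.one_apply_ne hp.ne_one]
  | succ r ih =>
    rw [z_succ, Nat.Prime.sum_divisors hp, ih, z_one]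

theorem dr_prime (r p : ℕ) (hp : p.Prime) : dr r p = r := by
  unfold dr
  rw [z_prime r p hp]

/-! ### the function dfree -/

theorem mem_PW_prime {z w : ℝ} {p : ℕ} (hp : p ∈ PW z w) : p.Prime :=
  (Finset.mem_filter.1 hp).2.1

theorem ow_zero_iff (z w : ℝ) (n : ℕ) : ow z w n = 0 ↔ ∀ p ∈ PW z w, ¬ p ∣ n := by
  unfold ow
  rw [Finset.card_eq_zero, Finset.filter_eq_empty_iff]

theorem ow_mul_iff (z w : ℝ) (a b : ℕ) : ow z w (a * b) = 0 ↔ ow z w a = 0 ∧ ow z w b = 0 := by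
  rw [ow_zero_iff, ow_zero_iff, ow_zero_iff]
  constructor
  · intro h
    exact ⟨fun p hp hd => h p hp (Dvd.dvd.mul_right hd _), fun p hp hd => h p hp (Dvd.dvd.mul_left hd _)⟩
  · rintro ⟨h1, h2⟩ p hp hd
    rcases (mem_PW_prime hp).dvd_mul.1 hd with h | h
    · exact h1 p hp h
    · exact h2 p hp h

theorem df_nonneg (r : ℕ) (z w : ℝ) (n : ℕ) : 0 ≤ dfree r z w n := by
  unfold dfree
  split_ifs
  · exact dr_nonneg _ _
  · exact le_rfl

theorem df_le (r : ℕ) (z w : ℝ) (n : ℕ) : dfree r z w n ≤ dr r n := by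
  unfold dfree
  split_ifs
  · exact le_rfl
  · exact dr_nonneg _ _

theorem df_one (r : ℕ) (z w : ℝ) : dfree r z w 1 = 1 := by
  unfold dfree
  rw [if_pos, dr_one]
  rw [ow_zero_iff]
  intro p hp hd
  exact (mem_PW_prime hp).one_lt.ne' (Nat.dvd_one.1 hd)

theorem df_zero (r : ℕ) (z w : ℝ) : dfree r z w 0 = 0 := by
  have h : dr r 0 = 0 := by
    unfold dr
    simp
  unfold dfree
  rw [h]
  split_ifs <;> rfl

theorem df_mul (r : ℕ) (z w : ℝ) (a b : ℕ) (hab : Nat.Coprime a b) :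
    dfree r z w (a * b) = dfree r z w a * dfree r z w b := by
  unfold dfree
  by_cases h1 : ow z w a = 0
  · by_cases h2 : ow z w b = 0
    · rw [if_pos ((ow_mul_iff z w a b).2 ⟨h1, h2⟩), if_pos h1, if_pos h2, dr_mul r a b hab]
    · rw [if_neg (fun h => h2 ((ow_mul_iff z w a b).1 h).2), if_neg h2, mul_zero]
  · rw [if_neg (fun h => h1 ((ow_mul_iff z w a b).1 h).1), if_neg h1, zero_mul]

theorem df_sub (r : ℕ) (z w : ℝ) (a b : ℕ) :
    dfree r z w (a * b) ≤ dfree r z w a * dr r b := by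
  unfold dfree
  by_cases h : ow z w (a * b) = 0
  · rw [if_pos h, if_pos ((ow_mul_iff z w a b).1 h).1]
    exact dr_sub r a b
  · rw [if_neg h]
    split_ifs
    · exact mul_nonneg (dr_nonneg _ _) (dr_nonneg _ _)
    · rw [zero_mul]

theorem df_pw (r : ℕ) (z w : ℝ) (p e : ℕ) (hp : p ∈ PW z w) (he : e ≠ 0) :
    dfree r z w (p ^ e) = 0 := by
  unfold dfree
  rw [if_neg]
  rw [ow_zero_iff]
  intro h
  exact h p hp (dvd_pow_self p he)

/-! ### the sum of the weights over prime powers -/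

theorem np_bound (r M n : ℕ) (hn : n ≤ M) :
    vonMangoldt n * dr r n ≤ vonMangoldt n * ((Nat.log 2 M : ℝ) + 1) ^ r := by
  by_cases h : IsPrimePow n
  · refine mul_le_mul_of_nonneg_left ?_ vonMangoldt_nonneg
    obtain ⟨p, k, hp, hk, rfl⟩ := (isPrimePow_nat_iff n).1 h
    refine (dr_pp r p k hp).trans ?_
    have h1 : 2 ^ k ≤ M := (Nat.pow_le_pow_left hp.two_le k).trans hn
    have h2 : k ≤ Nat.log 2 M := Nat.le_log_of_pow_le (by norm_num) h1
    have h3 : (k : ℝ) ≤ (Nat.log 2 M : ℝ) := by exact_mod_cast h2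
    exact pow_le_pow_left₀ (by positivity) (by linarith) r
  · rw [vonMangoldt_eq_zero_iff.2 h, zero_mul, zero_mul]

theorem log_est (r M : ℕ) (hM : 1 ≤ M) :
    ((Nat.log 2 M : ℝ) + 1) ^ r * (2 * Real.sqrt M * Real.log M) ≤
      ((2 * (r + 1) / Real.log 2 + 1) ^ r * (4 * (r + 1))) * M := by
  have hM' : (1 : ℝ) ≤ M := by exact_mod_cast hM
  have hM0 : (0 : ℝ) < M := by linarith
  set ε : ℝ := 1 / (2 * ((r : ℝ) + 1)) with hε
  have hε0 : 0 < ε := by positivity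
  have h1 : Real.log M ≤ 2 * ((r : ℝ) + 1) * (M : ℝ) ^ ε := by
    have h := Real.log_le_rpow_div (x := (M : ℝ)) (by linarith) hε0
    rw [hε] at h ⊢
    refine h.trans (le_of_eq ?_)
    field_simp
  have h2 : (Nat.log 2 M : ℝ) ≤ Real.log M / Real.log 2 := by
    have h : (Nat.log 2 M : ℝ) ≤ Real.logb 2 M := by
      have := Real.natLog_le_logb M 2
      exact_mod_cast this
    exact h
  have hl2 : 0 < Real.log 2 := Real.log_pos (by norm_num)
  have hX : 1 ≤ (M : ℝ) ^ ε := Real.one_le_rpow hM' hε0.le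
  have h3 : (Nat.log 2 M : ℝ) + 1 ≤ (2 * (r + 1) / Real.log 2 + 1) * (M : ℝ) ^ ε := by
    have : Real.log M / Real.log 2 ≤ (2 * (r + 1) / Real.log 2) * (M : ℝ) ^ ε := by
      rw [div_le_iff₀ hl2]
      calc Real.log M ≤ 2 * ((r : ℝ) + 1) * (M : ℝ) ^ ε := h1
        _ = 2 * (r + 1) / Real.log 2 * (M : ℝ) ^ ε * Real.log 2 := by field_simp
    nlinarith
  have h4 : ((M : ℝ) ^ ε) ^ (r + 1) = Real.sqrt M := by
    rw [← Real.rpow_natCast, ← Real.rpow_mul hM0.le, Real.sqrt_eq_rpow]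
    congr 1
    rw [hε]
    push_cast
    field_simp
  have hK : 0 ≤ 2 * ((r : ℝ) + 1) / Real.log 2 + 1 := by positivity
  have hlM : 0 ≤ Real.log M := Real.log_nonneg hM'
  have hs : Real.sqrt M * Real.sqrt M = M := Real.mul_self_sqrt hM0.le
  calc ((Nat.log 2 M : ℝ) + 1) ^ r * (2 * Real.sqrt M * Real.log M)
      ≤ ((2 * (r + 1) / Real.log 2 + 1) * (M : ℝ) ^ ε) ^ r *
          (2 * Real.sqrt M * (2 * ((r : ℝ) + 1) * (M : ℝ) ^ ε)) := by
        refine mul_le_mul (pow_le_pow_left₀ (by positivity) h3 r) ?_ (by positivity) (by positivity)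
        exact mul_le_mul_of_nonneg_left h1 (by positivity)
    _ = ((2 * (r + 1) / Real.log 2 + 1) ^ r * (4 * (r + 1))) *
          (Real.sqrt M * ((M : ℝ) ^ ε) ^ (r + 1)) := by
        rw [mul_pow, pow_succ]
        ring
    _ = _ := by rw [h4, hs]

theorem lam_sum (r : ℕ) : ∃ K : ℝ, 0 < K ∧ ∀ M : ℕ,
    ∑ n ∈ Finset.Ioc 0 M, vonMangoldt n * dr r n ≤ K * M := by
  have hl2 : 0 < Real.log 2 := Real.log_pos (by norm_num)
  have hl4 : 0 < Real.log 4 := Real.log_pos (by norm_num)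
  refine ⟨r * Real.log 4 + ((2 * (r + 1) / Real.log 2 + 1) ^ r * (4 * (r + 1))), by positivity, ?_⟩
  intro M
  rcases Nat.eq_zero_or_pos M with h0 | hM
  · rw [h0]
    simp
  · have hM' : (1 : ℝ) ≤ M := by exact_mod_cast hM
    rw [← Finset.sum_filter_add_sum_filter_not _ (fun n => n.Prime)]
    have h1 : ∑ n ∈ (Finset.Ioc 0 M).filter (fun n => n.Prime), vonMangoldt n * dr r n ≤
        r * Real.log 4 * M := by
      have h2 : ∑ n ∈ (Finset.Ioc 0 M).filter (fun n => n.Prime), vonMangoldt n * dr r n =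
          r * Chebyshev.theta M := by
        unfold Chebyshev.theta
        rw [Nat.floor_natCast, Finset.mul_sum]
        refine Finset.sum_congr rfl fun p hp => ?_
        have hpp : p.Prime := (Finset.mem_filter.1 hp).2
        rw [vonMangoldt_apply_prime hpp, dr_prime r p hpp, mul_comm]
      rw [h2, mul_assoc]
      exact mul_le_mul_of_nonneg_left (Chebyshev.theta_le_log4_mul_x (by linarith)) (Nat.cast_nonneg _)
    have h3 : ∑ n ∈ (Finset.Ioc 0 M).filter (fun n => ¬ n.Prime), vonMangoldt n * dr r n ≤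
        ((2 * (r + 1) / Real.log 2 + 1) ^ r * (4 * (r + 1))) * M := by
      have h4 : ∑ n ∈ (Finset.Ioc 0 M).filter (fun n => ¬ n.Prime), vonMangoldt n * dr r n ≤
          ((Nat.log 2 M : ℝ) + 1) ^ r * (Chebyshev.psi M - Chebyshev.theta M) := by
        rw [Chebyshev.psi_sub_theta_eq_sum_not_prime, Nat.floor_natCast, Finset.mul_sum]
        refine Finset.sum_le_sum fun n hn => ?_
        have hn' := Finset.mem_Ioc.1 (Finset.mem_filter.1 hn).1
        rw [mul_comm (((Nat.log 2 M : ℝ) + 1) ^ r)]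
        exact np_bound r M n hn'.2
      refine h4.trans ((mul_le_mul_of_nonneg_left (Chebyshev.psi_sub_theta_le hM') (by positivity)).trans ?_)
      exact log_est r M hM
    rw [add_mul]
    exact add_le_add h1 h3

/-! ### the Euler product -/

theorem sumA (r : ℕ) : Summable fun i : ℕ => ((i : ℝ) + 3) ^ r * (1 / 2) ^ i := by
  have h := summable_pow_mul_geometric_of_norm_lt_one (R := ℝ) r (r := (1 / 2 : ℝ))
    (by rw [Real.norm_eq_abs, abs_of_pos] <;> norm_num)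
  have h2 := ((summable_nat_add_iff 3).2 h).mul_left 8
  refine h2.congr fun i => ?_
  push_cast
  rw [pow_add]
  ring

theorem fac_bd (r p i : ℕ) (hp : p.Prime) :
    dr r (p ^ (i + 2)) / ((p ^ (i + 2) : ℕ) : ℝ) ≤
      1 / (p : ℝ) ^ 2 * (((i : ℝ) + 3) ^ r * (1 / 2) ^ i) := by
  have hp2 : (2 : ℝ) ≤ p := by exact_mod_cast hp.two_le
  have hp0 : (0 : ℝ) < p := by linarith
  have h1 := dr_pp r p (i + 2) hp
  push_cast at h1 ⊢
  have h2 : ((i : ℝ) + 2 + 1) ^ r = ((i : ℝ) + 3) ^ r := by ring_nf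
  rw [h2] at h1
  have h3 : (1 / (p : ℝ)) ^ i ≤ (1 / 2) ^ i :=
    pow_le_pow_left₀ (by positivity) (one_div_le_one_div_of_le (by norm_num) hp2) i
  calc dr r (p ^ (i + 2)) / (p : ℝ) ^ (i + 2) ≤ ((i : ℝ) + 3) ^ r / (p : ℝ) ^ (i + 2) :=
        div_le_div_of_nonneg_right h1 (by positivity)
    _ = 1 / (p : ℝ) ^ 2 * (((i : ℝ) + 3) ^ r * (1 / (p : ℝ)) ^ i) := by
        rw [pow_add, one_div_pow]
        field_simp
    _ ≤ _ := by
        refine mul_le_mul_of_nonneg_left ?_ (by positivity)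
        exact mul_le_mul_of_nonneg_left h3 (by positivity)

theorem gf_nonneg (r : ℕ) (z w : ℝ) (n : ℕ) : 0 ≤ dfree r z w n / (n : ℝ) :=
  div_nonneg (df_nonneg r z w n) (Nat.cast_nonneg _)

theorem gf_bd (r : ℕ) (z w : ℝ) (p i : ℕ) (hp : p.Prime) :
    dfree r z w (p ^ (i + 2)) / ((p ^ (i + 2) : ℕ) : ℝ) ≤
      1 / (p : ℝ) ^ 2 * (((i : ℝ) + 3) ^ r * (1 / 2) ^ i) :=
  (div_le_div_of_nonneg_right (df_le r z w _) (Nat.cast_nonneg _)).trans (fac_bd r p i hp)

theorem gf_sum2 (r : ℕ) (z w : ℝ) (p : ℕ) (hp : p.Prime) :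
    Summable fun i : ℕ => dfree r z w (p ^ (i + 2)) / ((p ^ (i + 2) : ℕ) : ℝ) :=
  Summable.of_nonneg_of_le (fun _ => gf_nonneg r z w _) (fun i => gf_bd r z w p i hp)
    ((sumA r).mul_left _)

theorem gf_sum (r : ℕ) (z w : ℝ) (p : ℕ) (hp : p.Prime) :
    Summable fun i : ℕ => dfree r z w (p ^ i) / ((p ^ i : ℕ) : ℝ) :=
  (summable_nat_add_iff 2).1 (gf_sum2 r z w p hp)

open Classical in
theorem gf_fac (r : ℕ) (z w : ℝ) (p : ℕ) (hp : p.Prime) :
    ∑' i : ℕ, dfree r z w (p ^ i) / ((p ^ i : ℕ) : ℝ) ≤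
      Real.exp ((if p ∈ PW z w then 0 else (r : ℝ) / p) +
        (∑' i : ℕ, ((i : ℝ) + 3) ^ r * (1 / 2) ^ i) * (1 / (p : ℝ) ^ 2)) := by
  have hA : 0 ≤ ∑' i : ℕ, ((i : ℝ) + 3) ^ r * (1 / 2) ^ i := tsum_nonneg fun i => by positivity
  have hp0 : (0 : ℝ) < p := by exact_mod_cast hp.pos
  have h1 := (gf_sum r z w p hp).sum_add_tsum_nat_add 2
  rw [← h1, Finset.sum_range_succ, Finset.sum_range_one, pow_zero, df_one, pow_one, Nat.cast_one, div_one]
  have h2 : dfree r z w p / (p : ℝ) ≤ if p ∈ PW z w then 0 else (r : ℝ) / p := by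
    split_ifs with h
    · have := df_pw r z w p 1 h one_ne_zero
      rw [pow_one] at this
      rw [this, zero_div]
    · have := df_le r z w p
      rw [dr_prime r p hp] at this
      exact div_le_div_of_nonneg_right this hp0.le
  have h3 : ∑' i : ℕ, dfree r z w (p ^ (i + 2)) / ((p ^ (i + 2) : ℕ) : ℝ) ≤
      (∑' i : ℕ, ((i : ℝ) + 3) ^ r * (1 / 2) ^ i) * (1 / (p : ℝ) ^ 2) := by
    rw [mul_comm, ← tsum_mul_left]
    exact Summable.tsum_le_tsum (fun i => gf_bd r z w p i hp) (gf_sum2 r z w p hp)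
      ((sumA r).mul_left _)
  have h4 := Real.add_one_le_exp ((if p ∈ PW z w then 0 else (r : ℝ) / p) +
        (∑' i : ℕ, ((i : ℝ) + 3) ^ r * (1 / 2) ^ i) * (1 / (p : ℝ) ^ 2))
  linarith

theorem pr1_eq (N : ℕ) : Nat.primesBelow (N + 1) = pr1 N := by
  ext p
  unfold pr1
  rw [Nat.mem_primesBelow, Finset.mem_filter, Finset.mem_Icc]
  constructor
  · rintro ⟨h1, h2⟩
    exact ⟨⟨h2.one_lt.le, by omega⟩, h2⟩
  · rintro ⟨⟨h1, h2⟩, h3⟩
    exact ⟨by omega, h3⟩

theorem euler (r : ℕ) (hr : 1 ≤ r) (z w : ℝ) (N : ℕ) :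
    ∑ m ∈ Finset.Ioc 0 N, dfree r z w m / (m : ℝ) ≤
      ∏ p ∈ pr1 N, ∑' i : ℕ, dfree r z w (p ^ i) / ((p ^ i : ℕ) : ℝ) := by
  have hE := EulerProduct.summable_and_hasSum_smoothNumbers_prod_primesBelow_tsum
    (f := fun n : ℕ => dfree r z w n / (n : ℝ)) (by simp only [df_one, Nat.cast_one, div_one])
    (by
      intro m n hmn
      rw [df_mul r z w m n hmn, Nat.cast_mul, mul_div_mul_comm])
    (by
      intro p hp
      have := gf_sum r z w p hp
      refine this.congr fun i => ?_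
      rw [Real.norm_of_nonneg (gf_nonneg r z w _)]) (N + 1)
  rw [pr1_eq] at hE
  have h1 : ∀ m ∈ Finset.Ioc 0 N, m ∈ (N + 1).smoothNumbers := by
    intro m hm
    have hm' := Finset.mem_Ioc.1 hm
    exact Nat.mem_smoothNumbers_of_lt hm'.1 (by omega)
  have h2 : ∑ m ∈ Finset.Ioc 0 N, dfree r z w m / (m : ℝ) =
      ∑ x ∈ (Finset.Ioc 0 N).attach.map ⟨fun m => (⟨m.1, h1 m.1 m.2⟩ : (N + 1).smoothNumbers),
        by
          intro a b h
          exact Subtype.ext (Subtype.mk.inj h)⟩,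
        dfree r z w (x : ℕ) / ((x : ℕ) : ℝ) := by
    rw [Finset.sum_map]
    exact (Finset.sum_attach (Finset.Ioc 0 N) (fun m => dfree r z w m / (m : ℝ))).symm
  rw [h2]
  exact sum_le_hasSum _ (fun i _ => gf_nonneg r z w _) hE.2

theorem PW_sub (z w : ℝ) (y : ℝ) (hwy : w ≤ y) : PW z w ⊆ pr1 ⌊y⌋₊ := by
  intro p hp
  unfold PW at hp
  unfold pr1
  rw [Finset.mem_filter, Finset.mem_Icc] at hp ⊢
  exact ⟨⟨hp.1.1, hp.1.2.trans (Nat.floor_le_floor hwy)⟩, hp.2.1⟩

open Classical in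
theorem exp_sum (r : ℕ) (z w y : ℝ) (hwy : w ≤ y) :
    ∑ p ∈ pr1 ⌊y⌋₊, (if p ∈ PW z w then 0 else (r : ℝ) / p) =
      r * (∑ p ∈ pr1 ⌊y⌋₊, 1 / (p : ℝ)) - r * pw z w := by
  have h := PW_sub z w y hwy
  have h1 := Finset.sum_sdiff h (f := fun p : ℕ => (1 : ℝ) / (p : ℝ))
  unfold pw
  rw [← h1, mul_add, add_sub_cancel_right, Finset.mul_sum, ← Finset.sum_sdiff h]
  have h2 : ∑ p ∈ PW z w, (if p ∈ PW z w then 0 else (r : ℝ) / p) = 0 :=
    Finset.sum_eq_zero fun p hp => if_pos hp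
  rw [h2, add_zero]
  refine Finset.sum_congr rfl fun p hp => ?_
  rw [if_neg (Finset.mem_sdiff.1 hp).2, mul_one_div]

theorem euler_bd (h1 : tsN1) (r : ℕ) (hr : 1 ≤ r) : ∃ C : ℝ, 0 < C ∧ ∀ y z w : ℝ, 3 ≤ y → w ≤ y →
    ∑ m ∈ Finset.Ioc 0 ⌊y⌋₊, dfree r z w m / (m : ℝ) ≤
      C * Real.log y ^ r * Real.exp (-(r * pw z w)) := by
  classical
  obtain ⟨C, hC, hN, -⟩ := h1
  set A : ℝ := ∑' i : ℕ, ((i : ℝ) + 3) ^ r * (1 / 2) ^ i with hA
  have hA0 : 0 ≤ A := tsum_nonneg fun i => by positivity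
  have hB : Summable fun n : ℕ => 1 / (n : ℝ) ^ 2 := Real.summable_one_div_nat_pow.2 (by norm_num)
  set B : ℝ := ∑' n : ℕ, 1 / (n : ℝ) ^ 2 with hBdef
  refine ⟨Real.exp (r * C + A * B), Real.exp_pos _, ?_⟩
  intro y z w hy hwy
  have hy2 : 2 ≤ ⌊y⌋₊ := Nat.le_floor (by push_cast; linarith)
  have hN2 := (hN ⌊y⌋₊ hy2).2
  have hfl : ((⌊y⌋₊ : ℕ) : ℝ) ≤ y := Nat.floor_le (by linarith)
  have hfl2 : (2 : ℝ) ≤ ((⌊y⌋₊ : ℕ) : ℝ) := by exact_mod_cast hy2
  have hlogy : 0 < Real.log y := Real.log_pos (by linarith)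
  have hll : Real.log (Real.log ⌊y⌋₊) ≤ Real.log (Real.log y) :=
    Real.log_le_log (Real.log_pos (by linarith)) (Real.log_le_log (by linarith) hfl)
  have hsum : ∑ p ∈ pr1 ⌊y⌋₊, 1 / (p : ℝ) ≤ Real.log (Real.log y) + C := by
    have := (abs_le.1 hN2).2
    linarith
  refine (euler r hr z w _).trans ?_
  have h3 : ∏ p ∈ pr1 ⌊y⌋₊, ∑' i : ℕ, dfree r z w (p ^ i) / ((p ^ i : ℕ) : ℝ) ≤
      ∏ p ∈ pr1 ⌊y⌋₊, Real.exp ((if p ∈ PW z w then 0 else (r : ℝ) / p) + A * (1 / (p : ℝ) ^ 2)) := by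
    refine Finset.prod_le_prod (fun p _ => tsum_nonneg fun i => gf_nonneg r z w _) fun p hp => ?_
    exact gf_fac r z w p (Finset.mem_filter.1 hp).2
  refine h3.trans ?_
  rw [← Real.exp_sum, Finset.sum_add_distrib, exp_sum r z w y hwy, ← Finset.mul_sum]
  have h4 : ∑ p ∈ pr1 ⌊y⌋₊, 1 / (p : ℝ) ^ 2 ≤ B :=
    hB.sum_le_tsum _ (fun n _ => by positivity)
  have h5 : Real.log y ^ r = Real.exp (r * Real.log (Real.log y)) := by
    rw [mul_comm, Real.exp_mul, Real.exp_log hlogy, Real.rpow_natCast]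
  rw [h5, ← Real.exp_add, ← Real.exp_add]
  refine Real.exp_le_exp.2 ?_
  have h6 : (r : ℝ) * ∑ p ∈ pr1 ⌊y⌋₊, 1 / (p : ℝ) ≤ r * (Real.log (Real.log y) + C) :=
    mul_le_mul_of_nonneg_left hsum (Nat.cast_nonneg _)
  have h7 : A * ∑ p ∈ pr1 ⌊y⌋₊, 1 / (p : ℝ) ^ 2 ≤ A * B := mul_le_mul_of_nonneg_left h4 hA0
  linarith

/-! ### the logarithmic sum -/

theorem log_sum (r : ℕ) (hr : 1 ≤ r) : ∃ K : ℝ, 0 < K ∧ ∀ (z w : ℝ) (N : ℕ),
    ∑ m ∈ Finset.Ioc 0 N, dfree r z w m * Real.log m ≤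
      K * N * ∑ m ∈ Finset.Ioc 0 N, dfree r z w m / (m : ℝ) := by
  obtain ⟨K, hK, hKs⟩ := lam_sum r
  refine ⟨K, hK, ?_⟩
  intro z w N
  set F : ArithmeticFunction ℝ := ⟨dfree r z w, df_zero r z w⟩ with hF
  set G : ArithmeticFunction ℝ := ⟨fun n => vonMangoldt n * dr r n, by simp⟩ with hG
  have h1 : ∀ m ∈ Finset.Ioc 0 N, dfree r z w m * Real.log m ≤ (F * G) m := by
    intro m hm
    rw [ArithmeticFunction.mul_apply, ← vonMangoldt_sum,
      ← Nat.sum_divisorsAntidiagonal' (f := fun _ b => vonMangoldt b), Finset.mul_sum]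
    refine Finset.sum_le_sum fun x hx => ?_
    have hx' := (Nat.mem_divisorsAntidiagonal.1 hx).1
    show dfree r z w m * vonMangoldt x.2 ≤ dfree r z w x.1 * (vonMangoldt x.2 * dr r x.2)
    have h2 := df_sub r z w x.1 x.2
    rw [hx'] at h2
    have h3 : (0 : ℝ) ≤ vonMangoldt x.2 := vonMangoldt_nonneg
    calc dfree r z w m * vonMangoldt x.2 ≤ (dfree r z w x.1 * dr r x.2) * vonMangoldt x.2 :=
          mul_le_mul_of_nonneg_right h2 h3
      _ = _ := by ring
  refine (Finset.sum_le_sum h1).trans ?_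
  rw [sum_Ioc_mul_eq_sum_sum, Finset.mul_sum]
  refine Finset.sum_le_sum fun n hn => ?_
  have hn' := Finset.mem_Ioc.1 hn
  have hn0 : (0 : ℝ) < n := by exact_mod_cast hn'.1
  have h4 := hKs (N / n)
  have h5 : (((N / n : ℕ)) : ℝ) ≤ (N : ℝ) / n := Nat.cast_div_le
  show dfree r z w n * ∑ m ∈ Finset.Ioc 0 (N / n), vonMangoldt m * dr r m ≤ _
  calc dfree r z w n * ∑ m ∈ Finset.Ioc 0 (N / n), vonMangoldt m * dr r m
      ≤ dfree r z w n * (K * ((N : ℝ) / n)) := by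
        refine mul_le_mul_of_nonneg_left (h4.trans ?_) (df_nonneg r z w n)
        exact mul_le_mul_of_nonneg_left h5 hK.le
    _ = K * N * (dfree r z w n / (n : ℝ)) := by ring

end C1x

open C1x in
theorem pfC1 (h1 : tsN1) (h2 : tsX2) : fpC1 := by
  intro r hr
  obtain ⟨C, hC, hE⟩ := euler_bd h1 r hr
  obtain ⟨K, hK, hL⟩ := log_sum r hr
  refine ⟨(K + 1) * C, by positivity, ?_⟩
  intro y z w hy hz hzw hwy
  have hy0 : 0 < y := by linarith
  have hlogy : 0 < Real.log y := Real.log_pos (by linarith)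
  have hIcc : Finset.Icc 1 ⌊y⌋₊ = Finset.Ioc 0 ⌊y⌋₊ := by
    ext n
    rw [Finset.mem_Icc, Finset.mem_Ioc]
    omega
  rw [hIcc]
  set T : ℝ := ∑ m ∈ Finset.Ioc 0 ⌊y⌋₊, dfree r z w m / (m : ℝ) with hT
  have hT0 : 0 ≤ T := Finset.sum_nonneg fun m _ => gf_nonneg r z w m
  have hET : T ≤ C * Real.log y ^ r * Real.exp (-(r * pw z w)) := hE y z w hy hwy
  have hLN := hL z w ⌊y⌋₊
  have hfl : ((⌊y⌋₊ : ℕ) : ℝ) ≤ y := Nat.floor_le hy0.le
  have h3 : (∑ m ∈ Finset.Ioc 0 ⌊y⌋₊, dfree r z w m) * Real.log y ≤ (K + 1) * y * T := by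
    have h4 : ∀ m ∈ Finset.Ioc 0 ⌊y⌋₊, dfree r z w m * Real.log y ≤
        dfree r z w m * Real.log m + y * (dfree r z w m / (m : ℝ)) := by
      intro m hm
      have hm' := Finset.mem_Ioc.1 hm
      have hm0 : (0 : ℝ) < m := by exact_mod_cast hm'.1
      have h5 : Real.log y = Real.log m + Real.log (y / m) := by
        rw [Real.log_div hy0.ne' hm0.ne']
        ring
      have h6 : Real.log (y / m) ≤ y / m := by
        have := Real.log_le_sub_one_of_pos (div_pos hy0 hm0)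
        linarith
      have h7 := mul_le_mul_of_nonneg_left h6 (df_nonneg r z w m)
      rw [h5, mul_add]
      have h8 : dfree r z w m * (y / m) = y * (dfree r z w m / (m : ℝ)) := by ring
      linarith
    rw [Finset.sum_mul]
    refine (Finset.sum_le_sum h4).trans ?_
    rw [Finset.sum_add_distrib, ← Finset.mul_sum]
    have h9 : K * (⌊y⌋₊ : ℝ) * T ≤ K * y * T :=
      mul_le_mul_of_nonneg_right (mul_le_mul_of_nonneg_left hfl hK.le) hT0
    have h10 : (K + 1) * y * T = K * y * T + y * T := by ring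
    rw [h10]
    linarith
  have h11 : (K + 1) * y * T ≤
      ((K + 1) * C * y * Real.log y ^ (r - 1) * Real.exp (-(r * pw z w))) * Real.log y := by
    have h12 : Real.log y ^ r = Real.log y ^ (r - 1) * Real.log y := by
      rw [← pow_succ]
      congr 1
      omega
    calc (K + 1) * y * T ≤ (K + 1) * y * (C * Real.log y ^ r * Real.exp (-(r * pw z w))) :=
          mul_le_mul_of_nonneg_left hET (by positivity)
      _ = _ := by
          rw [h12]
          ring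
  exact le_of_mul_le_mul_right (h3.trans h11) hlogy

end Pool.Agent.Work.MP_122e00_nt.FP
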