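import Pool.Agent.Work.MP_122e00_nt.FP.I_B4

/-!
# Item C2: the mean of `dfree` over the multiples of `e`
-/

set_option autoImplicit false

namespace Pool.Agent.Work.MP_122e00_nt.FP

open Finset Filter Topology ArithmeticFunction MeasureTheory
open Pool.Agent.Work.MP_122e00_nt.TS
open scoped ArithmeticFunction.zeta ArithmeticFunction.Moebius

namespace C2x

theorem ow_mul (z w : ℝ) (e m : ℕ) (he : 1 ≤ e) (hpe : ∀ p ∈ e.primeFactors, (p : ℝ) ≤ z) :
    ow z w (e * m) = ow z w m := by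
  unfold ow
  congr 1
  refine Finset.filter_congr fun p hp => ?_
  obtain ⟨h3, h4⟩ := B4x.PW_mem hp
  have h5 : ¬ p ∣ e := by
    intro h
    have := hpe p (Nat.mem_primeFactors.2 ⟨h3, h, by omega⟩)
    linarith
  rw [Nat.Prime.dvd_mul h3]
  exact ⟨fun h => h.resolve_left h5, Or.inr⟩

theorem dfree_le (r : ℕ) (z w : ℝ) (e m : ℕ) (he : 1 ≤ e)
    (hpe : ∀ p ∈ e.primeFactors, (p : ℝ) ≤ z) :
    dfree r z w (e * m) ≤ dr r e * dfree r z w m := by
  unfold dfree
  rw [ow_mul z w e m he hpe]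
  by_cases h : ow z w m = 0
  · rw [if_pos h, if_pos h]
    exact B4x.dr_sub r e m
  · rw [if_neg h, if_neg h, mul_zero]

end C2x

/-- C2. The mean of `dfree` over the multiples of `e`. -/
theorem pfC2 (h1 : fpC1) : fpC2 := by
  intro r hr
  obtain ⟨C, hC, H⟩ := h1 r hr
  refine ⟨C, hC, ?_⟩
  intro x z w e hz hzw he hpe hwx h3x
  have he' : (0 : ℝ) < e := by exact_mod_cast he
  have he1 : (1 : ℝ) ≤ e := by exact_mod_cast he
  have hx : x = e * (x / e) := by field_simp
  have hyx : x / e ≤ x := by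
    rw [div_le_iff₀ he']
    have : 0 ≤ x := by
      rw [hx]
      exact mul_nonneg he'.le (by linarith)
    nlinarith
  have hx0 : 0 ≤ x := by linarith
  have hlog : Real.log (x / e) ^ (r - 1) ≤ Real.log x ^ (r - 1) :=
    pow_le_pow_left₀ (Real.log_nonneg (by linarith)) (Real.log_le_log (by linarith) hyx) _
  rw [B4x.filt x e he hx0,
    Finset.sum_image (fun a _ b _ h => Nat.eq_of_mul_eq_mul_left he h)]
  have h2 := H (x / e) z w h3x hz hzw hwx
  have hD : 0 ≤ dr r e := B4x.dr_nonneg r e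
  calc ∑ m ∈ Finset.Icc 1 ⌊x / e⌋₊, dfree r z w (e * m)
      ≤ ∑ m ∈ Finset.Icc 1 ⌊x / e⌋₊, dr r e * dfree r z w m :=
        Finset.sum_le_sum fun m _ => C2x.dfree_le r z w e m he hpe
    _ = dr r e * ∑ m ∈ Finset.Icc 1 ⌊x / e⌋₊, dfree r z w m := by rw [← Finset.mul_sum]
    _ ≤ dr r e * (C * (x / e) * Real.log (x / e) ^ (r - 1) * Real.exp (-(r * pw z w))) :=
        mul_le_mul_of_nonneg_left h2 hD
    _ ≤ dr r e * (C * (x / e) * Real.log x ^ (r - 1) * Real.exp (-(r * pw z w))) := by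
        refine mul_le_mul_of_nonneg_left ?_ hD
        refine mul_le_mul_of_nonneg_right ?_ (Real.exp_pos _).le
        exact mul_le_mul_of_nonneg_left hlog (mul_nonneg hC.le (by linarith))
    _ = C * dr r e * (x / e) * Real.log x ^ (r - 1) * Real.exp (-(r * pw z w)) := by ring

end Pool.Agent.Work.MP_122e00_nt.FP
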