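import Pool.Agent.Work.MP_122e00_nt.FP.StmtsB

/-!
# Item D1: the local sums of the pairs without window primes
-/

set_option autoImplicit false

namespace Pool.Agent.Work.MP_122e00_nt.FP

open Finset Filter Topology ArithmeticFunction MeasureTheory
open Pool.Agent.Work.MP_122e00_nt.TS

namespace D1x

theorem mem_PW_prime {z w : ℝ} {q : ℕ} (hq : q ∈ PW z w) : q.Prime := by
  unfold PW at hq
  rw [Finset.mem_filter] at hq
  exact hq.2.1

/-- a prime of the window divides the argument: the number of window primes is positive -/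
theorem ow_ne_zero {z w : ℝ} {p n : ℕ} (hp : p ∈ PW z w) (h : p ∣ n) : ow z w n ≠ 0 := by
  unfold ow
  rw [Finset.card_ne_zero]
  exact ⟨p, Finset.mem_filter.2 ⟨hp, h⟩⟩

/-- a power of a prime outside the window has no window prime -/
theorem ow_eq_zero {z w : ℝ} {p k : ℕ} (hpp : p.Prime) (hp : p ∉ PW z w) :
    ow z w (p ^ k) = 0 := by
  unfold ow
  rw [Finset.card_eq_zero, Finset.filter_eq_empty_iff]
  intro q hq hqd
  have hqp : q = p := (Nat.prime_dvd_prime_iff_eq (mem_PW_prime hq) hpp).1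
    ((mem_PW_prime hq).dvd_of_dvd_pow hqd)
  rw [hqp] at hq
  exact hp hq

theorem Wz_zero {r : ℕ} {z w σ : ℝ} {p i j : ℕ} (hp : p ∈ PW z w) (hij : 1 ≤ i + j) :
    Wz r z w σ (p ^ i) (p ^ j) = 0 := by
  unfold Wz
  rw [if_neg]
  apply ow_ne_zero hp
  rw [← pow_add]
  exact dvd_pow_self p (by omega)

theorem Wz_eq {r : ℕ} {z w σ : ℝ} {p i j : ℕ} (hpp : p.Prime) (hp : p ∉ PW z w) :
    Wz r z w σ (p ^ i) (p ^ j) = Wp r z w 1 σ (p ^ i) (p ^ j) := by
  unfold Wz
  rw [if_pos]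
  rw [← pow_add]
  exact ow_eq_zero hpp hp

theorem LF_zero {r : ℕ} {z w σ : ℝ} {h M p : ℕ} (hp : p ∈ PW z w) :
    LF (Wz r z w σ) h M p = 0 := by
  unfold LF
  split_ifs with hph
  · refine Finset.sum_eq_zero fun i hi => Finset.sum_eq_zero fun j _ => ?_
    rw [Finset.mem_Icc] at hi
    exact Wz_zero hp (by omega)
  · refine Finset.sum_eq_zero fun i hi => ?_
    rw [Finset.mem_Icc] at hi
    have h1 : Wz r z w σ (p ^ i) 1 = 0 := by
      have := Wz_zero (r := r) (σ := σ) (i := i) (j := 0) hp (by omega)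
      rwa [pow_zero] at this
    have h2 : Wz r z w σ 1 (p ^ i) = 0 := by
      have := Wz_zero (r := r) (σ := σ) (i := 0) (j := i) hp (by omega)
      rwa [pow_zero] at this
    rw [h1, h2, add_zero]

theorem LF_eq {r : ℕ} {z w σ : ℝ} {h M p : ℕ} (hpp : p.Prime) (hp : p ∉ PW z w) :
    LF (Wz r z w σ) h M p = LF (Wp r z w 1 σ) h M p := by
  unfold LF
  split_ifs with hph
  · exact Finset.sum_congr rfl fun i _ => Finset.sum_congr rfl fun j _ => Wz_eq hpp hp
  · refine Finset.sum_congr rfl fun i _ => ?_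
    have h1 : Wz r z w σ (p ^ i) 1 = Wp r z w 1 σ (p ^ i) 1 := by
      have := Wz_eq (r := r) (σ := σ) (i := i) (j := 0) hpp hp
      rwa [pow_zero] at this
    have h2 : Wz r z w σ 1 (p ^ i) = Wp r z w 1 σ 1 (p ^ i) := by
      have := Wz_eq (r := r) (σ := σ) (i := 0) (j := i) hpp hp
      rwa [pow_zero] at this
    rw [h1, h2]

end D1x

open D1x in
theorem pfD1 (hN6 : tsN6) : fpD1 := by
  intro r hr
  obtain ⟨C, hC, hN⟩ := hN6 r hr
  refine ⟨C, hC, ?_⟩
  intro z w σ h M p hp hσ0 hσ1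
  by_cases hpw : p ∈ PW z w
  · rw [if_pos hpw, LF_zero hpw]
  · rw [if_neg hpw, LF_eq hp hpw]
    refine (hN z w 1 σ h M p hp (by norm_num) (by norm_num) hσ0 hσ1).trans (le_of_eq ?_)
    rw [if_neg hpw]
    split_ifs <;> ring

end Pool.Agent.Work.MP_122e00_nt.FP
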