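import Pool.Agent.Work.MP_122e00_nt.FP.StmtsB
import Pool.Agent.Work.MP_122e00_nt.TS.I_N7

/-!
# Item D2: the sum over the admissible pairs without window primes (model: item N7)
-/

namespace Pool.Agent.Work.MP_122e00_nt.FP

open Finset Filter Topology ArithmeticFunction MeasureTheory
open Pool.Agent.Work.MP_122e00_nt.TS
open scoped ArithmeticFunction.zeta ArithmeticFunction.Moebius

namespace D2x

theorem ow_mono (z w : ℝ) {a b : ℕ} (h : a ∣ b) : ow z w a ≤ ow z w b := by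
  unfold ow
  apply Finset.card_le_card
  intro p hp
  rw [Finset.mem_filter] at hp ⊢
  exact ⟨hp.1, hp.2.trans h⟩

theorem Wz_nonneg (r : ℕ) (z w σ : ℝ) (a b : ℕ) : 0 ≤ Wz r z w σ a b := by
  unfold Wz
  split_ifs
  · exact IN7.Wp_nonneg r z w 1 σ zero_le_one a b
  · exact le_refl _

theorem Wz_one (r : ℕ) (z w σ : ℝ) : Wz r z w σ 1 1 = 1 := by
  unfold Wz
  rw [mul_one, IN7.ow_one, if_pos rfl, IN7.Wp_one]

theorem Wz_mul (r : ℕ) (z w σ : ℝ) (p i j a b : ℕ) (hp : p.Prime) (ha : ¬ p ∣ a)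
    (hb : ¬ p ∣ b) : Wz r z w σ (a * p ^ i) (b * p ^ j) ≤
      Wz r z w σ a b * Wz r z w σ (p ^ i) (p ^ j) := by
  by_cases h : ow z w ((a * p ^ i) * (b * p ^ j)) = 0
  · have h1 : ow z w (a * b) = 0 := by
      have := ow_mono z w (a := a * b) (b := (a * p ^ i) * (b * p ^ j))
        ⟨p ^ i * p ^ j, by ring⟩
      omega
    have h2 : ow z w (p ^ i * p ^ j) = 0 := by
      have := ow_mono z w (a := p ^ i * p ^ j) (b := (a * p ^ i) * (b * p ^ j))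
        ⟨a * b, by ring⟩
      omega
    unfold Wz
    rw [if_pos h, if_pos h1, if_pos h2]
    exact IN7.Wp_mul r z w 1 σ zero_le_one p i j a b hp ha hb
  · have h0 : Wz r z w σ (a * p ^ i) (b * p ^ j) = 0 := by
      unfold Wz
      rw [if_neg h]
    rw [h0]
    exact mul_nonneg (Wz_nonneg _ _ _ _ _ _) (Wz_nonneg _ _ _ _ _ _)

theorem term_bound (r : ℕ) (σ : ℝ) (h Z p : ℕ) (hσ : 0 ≤ σ) (hp : 1 ≤ p) (hpZ : p ≤ Z) :
    (if p ∣ h then (r : ℝ) ^ 2 * (p : ℝ) ^ (2 * σ - 1) else 2 * (r : ℝ) * (p : ℝ) ^ (σ - 1)) ≤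
    2 * r * (1 / (p : ℝ)) + ((r : ℝ) ^ 2 - 2 * r) * (if p ∣ h then 1 / (p : ℝ) else 0) +
      (2 * r + (r : ℝ) ^ 2) * (2 * σ * (Z : ℝ) ^ (2 * σ)) * (Real.log p / p) := by
  have hp' : (1 : ℝ) ≤ (p : ℝ) := by exact_mod_cast hp
  have hlog : 0 ≤ Real.log p / p := div_nonneg (Real.log_nonneg hp') (by linarith)
  have hr0 : (0 : ℝ) ≤ (r : ℝ) := Nat.cast_nonneg r
  have hZ : 0 ≤ 2 * σ * (Z : ℝ) ^ (2 * σ) := by positivity
  have hK : 0 ≤ 2 * σ * (Z : ℝ) ^ (2 * σ) * (Real.log p / p) := mul_nonneg hZ hlog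
  split_ifs with hd
  · have h1 := IN7.rpow_bound' p Z σ (2 * σ) hp hpZ (by linarith) le_rfl
    have h2 := mul_le_mul_of_nonneg_left h1 (sq_nonneg (r : ℝ))
    have h3 : 0 ≤ 2 * (r : ℝ) * (2 * σ * (Z : ℝ) ^ (2 * σ) * (Real.log p / p)) :=
      mul_nonneg (by linarith) hK
    nlinarith [h2, h3]
  · have h1 := IN7.rpow_bound' p Z σ σ hp hpZ hσ (by linarith)
    have h2 := mul_le_mul_of_nonneg_left h1 (show 0 ≤ 2 * (r : ℝ) by linarith)
    have h3 : 0 ≤ (r : ℝ) ^ 2 * (2 * σ * (Z : ℝ) ^ (2 * σ) * (Real.log p / p)) :=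
      mul_nonneg (sq_nonneg _) hK
    nlinarith [h2, h3]

end D2x

open Classical in
theorem pfD2 (hN1 : tsN1) (hN5 : tsN5) (hD1 : fpD1) : fpD2 := by
  intro r hr
  obtain ⟨C1, hC1, hM, -⟩ := hN1
  obtain ⟨C6, hC6, hL⟩ := hD1 r (by omega)
  have hr' : (2 : ℝ) ≤ (r : ℝ) := by exact_mod_cast hr
  have hr0 : (0 : ℝ) ≤ (r : ℝ) := by linarith
  have hS := IN7.S32_nonneg
  set K0 : ℝ := 2 * r * C1 + C6 * IN7.S32 + 1 with hK0
  set K1 : ℝ := (2 * r + (r : ℝ) ^ 2) * 2 * (1 + C1) with hK1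
  have hK0' : 0 < K0 := by positivity
  have hK1' : 0 < K1 := by positivity
  refine ⟨K0 + K1, by positivity, ?_⟩
  intro z w σ h Z M hh hZ hσ hσ2
  have hZ' : (2 : ℝ) ≤ (Z : ℝ) := by exact_mod_cast hZ
  have hlogZ : 0 < Real.log Z := Real.log_pos (by linarith)
  have hZσ : 0 ≤ σ * (Z : ℝ) ^ (2 * σ) := by positivity
  -- the product
  have h1 := hN5 (Wz r z w σ) (D2x.Wz_nonneg r z w σ)
    (fun p i j a b hp ha hb => D2x.Wz_mul r z w σ p i j a b hp ha hb) h Z M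
  rw [D2x.Wz_one, one_mul] at h1
  refine le_trans h1 ?_
  have hLF0 : ∀ p, 0 ≤ LF (Wz r z w σ) h M p := by
    intro p
    unfold LF
    split_ifs
    · exact Finset.sum_nonneg fun _ _ => Finset.sum_nonneg fun _ _ =>
        D2x.Wz_nonneg r z w σ _ _
    · exact Finset.sum_nonneg fun _ _ => add_nonneg (D2x.Wz_nonneg r z w σ _ _)
        (D2x.Wz_nonneg r z w σ _ _)
  have h2 : ∏ p ∈ pr1 Z, (1 + LF (Wz r z w σ) h M p) ≤
      Real.exp (∑ p ∈ pr1 Z, LF (Wz r z w σ) h M p) := by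
    rw [Real.exp_sum]
    refine Finset.prod_le_prod (fun p _ => add_nonneg zero_le_one (hLF0 p)) fun p _ => ?_
    rw [add_comm]
    exact Real.add_one_le_exp _
  refine le_trans h2 ?_
  -- the sum
  have h3 : ∑ p ∈ pr1 Z, LF (Wz r z w σ) h M p ≤
      2 * r * Real.log (Real.log Z) + (K0 + K1 * σ * (Z : ℝ) ^ (2 * σ) * (1 + Real.log Z) -
        2 * r * pw z (min w Z) + ((r : ℝ) ^ 2 - 2 * r) * Sh h) := by
    have h4 : ∀ p ∈ pr1 Z, LF (Wz r z w σ) h M p ≤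
        2 * r * (1 / (p : ℝ)) + ((r : ℝ) ^ 2 - 2 * r) * (if p ∣ h then 1 / (p : ℝ) else 0) +
        (2 * r + (r : ℝ) ^ 2) * (2 * σ * (Z : ℝ) ^ (2 * σ)) * (Real.log p / p) +
        C6 * (p : ℝ) ^ (-(3 / 2) : ℝ) - 2 * r * (if p ∈ PW z w then 1 / (p : ℝ) else 0) := by
      intro p hp
      rw [pr1, Finset.mem_filter, Finset.mem_Icc] at hp
      have hp1 : (1 : ℝ) ≤ (p : ℝ) := by exact_mod_cast hp.1.1
      have hlog : 0 ≤ Real.log p / p := div_nonneg (Real.log_nonneg hp1) (by linarith)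
      have a1 := hL z w σ h M p hp.2 hσ hσ2
      have a2 := D2x.term_bound r σ h Z p hσ hp.1.1 hp.1.2
      have a3 : 0 ≤ ((r : ℝ) ^ 2 - 2 * r) * (if p ∣ h then 1 / (p : ℝ) else 0) := by
        apply mul_nonneg
        · nlinarith
        · split_ifs <;> positivity
      have a4 : 0 ≤ (2 * r + (r : ℝ) ^ 2) * (2 * σ * (Z : ℝ) ^ (2 * σ)) * (Real.log p / p) := by
        positivity
      have a5 : 0 ≤ C6 * (p : ℝ) ^ (-(3 / 2) : ℝ) := by positivity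
      by_cases hw : p ∈ PW z w
      · rw [if_pos hw] at a1 ⊢
        linarith
      · rw [if_neg hw] at a1 ⊢
        linarith
    refine le_trans (Finset.sum_le_sum h4) ?_
    rw [Finset.sum_sub_distrib, Finset.sum_add_distrib, Finset.sum_add_distrib,
      Finset.sum_add_distrib, ← Finset.mul_sum, ← Finset.mul_sum, ← Finset.mul_sum,
      ← Finset.mul_sum, ← Finset.mul_sum, ← Finset.sum_filter, ← Finset.sum_filter, IN7.pw_min]
    have h6 := hM Z hZ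
    have h7 : ∑ p ∈ pr1 Z, 1 / (p : ℝ) ≤ Real.log (Real.log Z) + C1 := by
      have := (abs_le.1 h6.2).2
      linarith
    have h8 : (2 * r + (r : ℝ) ^ 2) * (2 * σ * (Z : ℝ) ^ (2 * σ)) *
        ∑ p ∈ pr1 Z, Real.log p / p ≤ K1 * σ * (Z : ℝ) ^ (2 * σ) * (1 + Real.log Z) := by
      have h9 : ∑ p ∈ pr1 Z, Real.log p / p ≤ (1 + C1) * (1 + Real.log Z) := by
        have := h6.1
        nlinarith [mul_pos hC1 hlogZ]
      calc _ ≤ (2 * r + (r : ℝ) ^ 2) * (2 * σ * (Z : ℝ) ^ (2 * σ)) *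
            ((1 + C1) * (1 + Real.log Z)) := mul_le_mul_of_nonneg_left h9 (by positivity)
        _ = K1 * σ * (Z : ℝ) ^ (2 * σ) * (1 + Real.log Z) := by rw [hK1]; ring
    have h10 : C6 * ∑ p ∈ pr1 Z, (p : ℝ) ^ (-(3 / 2) : ℝ) ≤ C6 * IN7.S32 :=
      mul_le_mul_of_nonneg_left (IN7.sum_le_S32 Z) hC6.le
    have h11 : 2 * (r : ℝ) * ∑ p ∈ pr1 Z, 1 / (p : ℝ) ≤
        2 * r * (Real.log (Real.log Z) + C1) := mul_le_mul_of_nonneg_left h7 (by positivity)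
    have h12 : ∑ p ∈ (pr1 Z).filter (· ∣ h), 1 / (p : ℝ) ≤ Sh h := by
      unfold Sh
      refine Finset.sum_le_sum_of_subset_of_nonneg ?_ fun _ _ _ => by positivity
      intro p hp
      rw [Finset.mem_filter, pr1, Finset.mem_filter] at hp
      exact Nat.mem_primeFactors.2 ⟨hp.1.2, hp.2, by omega⟩
    have h13 : ((r : ℝ) ^ 2 - 2 * r) * ∑ p ∈ (pr1 Z).filter (· ∣ h), 1 / (p : ℝ) ≤
        ((r : ℝ) ^ 2 - 2 * r) * Sh h := by
      apply mul_le_mul_of_nonneg_left h12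
      nlinarith
    rw [hK0]
    linarith
  refine le_trans (Real.exp_le_exp.2 h3) ?_
  rw [Real.exp_add, mul_comm]
  have h12 : Real.exp (2 * r * Real.log (Real.log Z)) = Real.log Z ^ (2 * r) := by
    rw [← Real.exp_log hlogZ, ← Real.exp_nat_mul, Real.log_exp]
    push_cast
    ring_nf
  rw [h12]
  apply mul_le_mul_of_nonneg_right _ (by positivity)
  apply Real.exp_le_exp.2
  have h13 : 0 ≤ K0 * σ * (Z : ℝ) ^ (2 * σ) * (1 + Real.log Z) := by positivity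
  nlinarith

end Pool.Agent.Work.MP_122e00_nt.FP
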