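import Mathlib
import Pool.Agent.Work.MP_122e00_nt.FP.StmtsB
import Pool.Agent.Work.MP_122e00_nt.TS.I_N9

/-!
# Full polynomial, item D3: one bucket, pairs without window primes
-/

namespace Pool.Agent.Work.MP_122e00_nt.FP

open Finset Filter Topology ArithmeticFunction
open Pool.Agent.Work.MP_122e00_nt.TS

namespace D3x

theorem Wz_nonneg (r : ℕ) (z w σ : ℝ) (a b : ℕ) : 0 ≤ Wz r z w σ a b := by
  classical
  unfold Wz
  split_ifs
  · exact TS.IN9.Wp_nonneg r z w 1 σ a b (by norm_num)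
  · exact le_rfl

theorem free_zero (r : ℕ) (z w : ℝ) (n m a b : ℕ) (ha : a ∣ n) (hb : b ∣ m)
    (hab : ow z w (a * b) ≠ 0) : dfree r z w n * dfree r z w m = 0 := by
  classical
  unfold ow at hab
  obtain ⟨p, hp⟩ := Finset.card_ne_zero.mp hab
  obtain ⟨hpW, hpd⟩ := Finset.mem_filter.mp hp
  have hpp : p.Prime := by
    unfold PW at hpW
    exact (Finset.mem_filter.mp hpW).2.1
  rcases (Nat.Prime.dvd_mul hpp).mp hpd with h1 | h1
  · have h2 : ow z w n ≠ 0 := by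
      unfold ow
      exact Finset.card_ne_zero.mpr ⟨p, Finset.mem_filter.mpr ⟨hpW, h1.trans ha⟩⟩
    have h3 : dfree r z w n = 0 := by unfold dfree; rw [if_neg h2]
    rw [h3, zero_mul]
  · have h2 : ow z w m ≠ 0 := by
      unfold ow
      exact Finset.card_ne_zero.mpr ⟨p, Finset.mem_filter.mpr ⟨hpW, h1.trans hb⟩⟩
    have h3 : dfree r z w m = 0 := by unfold dfree; rw [if_neg h2]
    rw [h3, mul_zero]

theorem dfree_nonneg (r : ℕ) (z w : ℝ) (n : ℕ) : 0 ≤ dfree r z w n := by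
  classical
  unfold dfree
  split_ifs
  · exact TS.IN9.dr_nonneg r n
  · exact le_rfl

theorem dfree_le (r : ℕ) (z w : ℝ) (n : ℕ) : dfree r z w n ≤ dr r n := by
  classical
  unfold dfree
  split_ifs
  · exact le_rfl
  · exact TS.IN9.dr_nonneg r n

theorem free_le (r : ℕ) (z w : ℝ) (n h : ℕ) : dfree r z w n * dfree r z w (n + h) ≤
    dr r n * 1 ^ ow z w n * dr r (n + h) := by
  rw [one_pow, mul_one]
  exact mul_le_mul (dfree_le r z w n) (dfree_le r z w (n + h)) (dfree_nonneg r z w (n + h))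
    (TS.IN9.dr_nonneg r n)

end D3x

open Classical in
open TS.IN9 D3x in
theorem pfD3 (hN1 : tsN1) (hN4 : tsN4) (hN8 : tsN8) (hD2 : fpD2) : fpD3 := by
  intro r hr
  obtain ⟨C1, hC1, -, hM⟩ := hN1
  obtain ⟨C4, hC4, h4⟩ := hN4
  obtain ⟨C7, hC7, h7⟩ := hD2 r hr
  obtain ⟨h8a, -, -, -, h8e⟩ := hN8
  have hr0 : (2 : ℝ) ≤ r := by exact_mod_cast hr
  refine ⟨8 * r + C4 + 6 + 2 * C7 + 4 * r + 2 * r * C1, by positivity, ?_⟩
  intro X z w σ T h s hs hX4 hh hhX hwX hσ0 hσ1 hσX hT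
  have hs0 : (32 : ℝ) ≤ s := by exact_mod_cast hs
  have hX1 : (1 : ℝ) ≤ X := by
    have : (1 : ℝ) ≤ h := by exact_mod_cast hh
    linarith
  have hXpos : 0 < X := by linarith
  obtain ⟨u, hu⟩ : ∃ u : ℝ, u = 1 / ((s : ℝ) + 1) := ⟨_, rfl⟩
  rw [← hu] at hX4
  have hu0 : 0 < u := by rw [hu]; positivity
  have hus : u ≤ 1 / (s : ℝ) := by
    rw [hu]; exact one_div_le_one_div_of_le (by linarith) (by linarith)
  have hu1 : 1 / (s : ℝ) ≤ 1 / 4 := one_div_le_one_div_of_le (by norm_num) (by linarith)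
  have hXs4 : 4 ≤ X ^ (1 / (s : ℝ)) := hX4.trans (Real.rpow_le_rpow_of_exponent_le hX1 hus)
  have hX4' : 4 ≤ X := by
    calc (4 : ℝ) ≤ X ^ u := hX4
      _ ≤ X ^ (1 : ℝ) := Real.rpow_le_rpow_of_exponent_le hX1 (by linarith)
      _ = X := Real.rpow_one X
  have hL : 1 ≤ Real.log X := by
    have h1 : Real.exp 1 ≤ X := by
      have := Real.exp_one_lt_d9
      linarith
    exact (Real.le_log_iff_exp_le hXpos).mpr h1
  obtain ⟨Zt, hZt⟩ : ∃ Zt : ℕ, Zt = ⌊X ^ (1 / (s : ℝ))⌋₊ := ⟨_, rfl⟩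
  have hZt4 : 4 ≤ Zt := by rw [hZt]; exact Nat.le_floor (by exact_mod_cast hXs4)
  have hZt4r : (4 : ℝ) ≤ Zt := by exact_mod_cast hZt4
  have hZtX : (Zt : ℝ) ≤ X ^ (1 / (s : ℝ)) := by rw [hZt]; exact Nat.floor_le (by positivity)
  obtain ⟨ZP, hZP⟩ : ∃ ZP : ℕ, ZP = ⌈X ^ u⌉₊ := ⟨_, rfl⟩
  have hZPX : X ^ u ≤ ZP := by rw [hZP]; exact Nat.le_ceil _
  have hlogZP : u * Real.log X ≤ Real.log ZP := by
    rw [← Real.log_rpow hXpos]
    exact Real.log_le_log (by positivity) hZPX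
  have hlogZt : Real.log Zt ≤ 1 / (s : ℝ) * Real.log X := by
    rw [← Real.log_rpow hXpos]
    exact Real.log_le_log (by linarith) hZtX
  have hlogZt2 : Real.log X ≤ 2 * s * Real.log Zt := by
    obtain ⟨v, hv⟩ : ∃ v : ℝ, v = X ^ (1 / (2 * (s : ℝ))) := ⟨_, rfl⟩
    have hv0 : 0 < v := by rw [hv]; positivity
    have hv2 : v ^ 2 = X ^ (1 / (s : ℝ)) := by
      rw [hv, ← Real.rpow_natCast, ← Real.rpow_mul hXpos.le]
      congr 1
      push_cast
      field_simp
    have hv3 : 2 ≤ v := by nlinarith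
    have hv4 : v ≤ Zt := by
      have g1 : X ^ (1 / (s : ℝ)) < Zt + 1 := by rw [hZt]; exact Nat.lt_floor_add_one _
      nlinarith
    have hv5 : Real.log v ≤ Real.log Zt := Real.log_le_log hv0 hv4
    have hv6 : Real.log v = 1 / (2 * (s : ℝ)) * Real.log X := by rw [hv, Real.log_rpow hXpos]
    rw [hv6] at hv5
    have g2 : 2 * (s : ℝ) * (1 / (2 * (s : ℝ)) * Real.log X) ≤ 2 * s * Real.log Zt :=
      mul_le_mul_of_nonneg_left hv5 (by positivity)
    have g3 : 2 * (s : ℝ) * (1 / (2 * (s : ℝ)) * Real.log X) = Real.log X := by field_simp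
    linarith
  have hlogZt0 : 0 < Real.log Zt := Real.log_pos (by linarith)
  -- the choice of `Z`
  have hch : ∀ n, ∃ Z : ℕ, Bk X T h s n → (X ^ u ≤ (Z : ℝ) ∧ (Z : ℝ) ≤ X ^ (1 / (s : ℝ)) ∧
      T < (sm Z n : ℝ) * (sm Z (n + h) : ℝ) ∧
      (sm Z n : ℝ) * (sm Z (n + h) : ℝ) ≤ X ^ (1 / 4 : ℝ)) := by
    intro n
    by_cases hb : Bk X T h s n
    · obtain ⟨Z, hZ⟩ := hb
      exact ⟨Z, fun _ => by rw [hu]; exact hZ⟩
    · exact ⟨0, fun h => absurd h hb⟩
  choose Zf hZf using hch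
  obtain ⟨S, hS⟩ : ∃ S : Finset ℕ, S = (Finset.Icc 1 ⌊X⌋₊).filter (Bk X T h s) := ⟨_, rfl⟩
  obtain ⟨M, hMd⟩ : ∃ M : ℕ, M = ⌊X ^ (1 / 4 : ℝ)⌋₊ := ⟨_, rfl⟩
  rw [← hS]
  have hSm : ∀ n ∈ S, n ∈ Finset.Icc 1 ⌊X⌋₊ ∧ 1 ≤ n ∧ Bk X T h s n := by
    intro n hn
    rw [hS] at hn
    obtain ⟨h1, h2⟩ := Finset.mem_filter.mp hn
    exact ⟨h1, (Finset.mem_Icc.mp h1).1, h2⟩
  have hmaps : ∀ n ∈ S, (sm (Zf n) n, sm (Zf n) (n + h)) ∈ AdP h Zt M := by
    intro n hn
    obtain ⟨hn1, hn2, hn3⟩ := hSm n hn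
    obtain ⟨z1, z2, z3, z4⟩ := hZf n hn3
    have a1 : (1 : ℝ) ≤ (sm (Zf n) n : ℝ) := by exact_mod_cast (h8a (Zf n) n hn2).2.1
    have a2 : (1 : ℝ) ≤ (sm (Zf n) (n + h) : ℝ) := by
      exact_mod_cast (h8a (Zf n) (n + h) (by omega)).2.1
    refine mem_AdP h8a h n (Zf n) Zt M hn2 ?_ ?_ ?_
    · rw [hZt]; exact Nat.le_floor z2
    · rw [hMd]; exact Nat.le_floor (by nlinarith)
    · rw [hMd]; exact Nat.le_floor (by nlinarith)
  rw [← Finset.sum_fiberwise_of_maps_to hmaps]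
  obtain ⟨K, hK⟩ : ∃ K : ℝ, K = (2 * (r : ℝ)) ^ (2 * s + 2) *
      (C4 * X * ((h : ℝ) / (Nat.totient h : ℝ)) / Real.log ZP ^ 2) * T ^ (-σ) := ⟨_, rfl⟩
  have hK0 : 0 ≤ K := by rw [hK]; positivity
  have hfib : ∀ q ∈ AdP h Zt M, ∑ n ∈ S with (sm (Zf n) n, sm (Zf n) (n + h)) = q,
      dfree r z w n * dfree r z w (n + h) ≤ K * Wz r z w σ q.1 q.2 := by
    intro q _
    rcases (S.filter fun n => (sm (Zf n) n, sm (Zf n) (n + h)) = q).eq_empty_or_nonempty with
      he | hne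
    · rw [he, Finset.sum_empty]
      exact mul_nonneg hK0 (Wz_nonneg r z w σ q.1 q.2)
    · obtain ⟨n0, hn0⟩ := hne
      obtain ⟨hn0S, hn0q⟩ := Finset.mem_filter.mp hn0
      obtain ⟨-, hn01, hn0B⟩ := hSm n0 hn0S
      obtain ⟨z1, z2, z3, z4⟩ := hZf n0 hn0B
      have hq1 : sm (Zf n0) n0 = q.1 := congrArg Prod.fst hn0q
      have hq2 : sm (Zf n0) (n0 + h) = q.2 := congrArg Prod.snd hn0q
      have ha1 : 1 ≤ q.1 := by rw [← hq1]; exact (h8a (Zf n0) n0 hn01).2.1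
      have ha2 : 1 ≤ q.2 := by rw [← hq2]; exact (h8a (Zf n0) (n0 + h) (by omega)).2.1
      rw [hq1, hq2] at z3 z4
      have hlcm : ((Nat.lcm q.1 q.2 : ℕ) : ℝ) ≤ X ^ (1 / 4 : ℝ) := by
        have g1 : Nat.lcm q.1 q.2 ≤ q.1 * q.2 := Nat.le_of_dvd (by positivity) (Nat.lcm_dvd_mul _ _)
        have g2 : ((Nat.lcm q.1 q.2 : ℕ) : ℝ) ≤ (q.1 : ℝ) * q.2 := by exact_mod_cast g1
        linarith
      have hZP2 : 2 ≤ ZP := by
        have : (2 : ℝ) ≤ ZP := by linarith
        exact_mod_cast this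
      have hZPn : ∀ n ∈ S, ZP ≤ Zf n := by
        intro n hn
        rw [hZP]
        exact Nat.ceil_le.mpr (hZf n (hSm n hn).2.2).1
      have hZPX4 : (ZP : ℝ) ≤ X ^ (1 / 4 : ℝ) := by
        have g1 : (ZP : ℝ) ≤ Zf n0 := by exact_mod_cast hZPn n0 hn0S
        exact (g1.trans z2).trans (Real.rpow_le_rpow_of_exponent_le hX1 hu1)
      have hcard := h4 X h q.1 q.2 ZP hX1 hh ha1 ha2 hlcm hZP2 hZPX4
      by_cases how : ow z w (q.1 * q.2) = 0
      swap
      · have hz : ∑ n ∈ S with (sm (Zf n) n, sm (Zf n) (n + h)) = q,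
            dfree r z w n * dfree r z w (n + h) = 0 := by
          refine Finset.sum_eq_zero fun n hn => ?_
          obtain ⟨hnS, hnq⟩ := Finset.mem_filter.mp hn
          obtain ⟨-, hn1, -⟩ := hSm n hnS
          have hp1 : sm (Zf n) n = q.1 := congrArg Prod.fst hnq
          have hp2 : sm (Zf n) (n + h) = q.2 := congrArg Prod.snd hnq
          refine free_zero r z w n (n + h) q.1 q.2 ?_ ?_ how
          · rw [← hp1]; exact (h8a (Zf n) n hn1).1
          · rw [← hp2]; exact (h8a (Zf n) (n + h) (by omega)).1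
        rw [hz]
        exact mul_nonneg hK0 (Wz_nonneg r z w σ q.1 q.2)
      obtain ⟨F, hF⟩ : ∃ F : ℝ, F = dr r q.1 * 1 ^ ow z w q.1 * dr r q.2 *
          (2 * (r : ℝ)) ^ (2 * s + 2) := ⟨_, rfl⟩
      have hF0 : 0 ≤ F := by
        rw [hF]
        have d1 := dr_nonneg r q.1
        have d2 := dr_nonneg r q.2
        positivity
      have hterm : ∀ n ∈ S.filter (fun n => (sm (Zf n) n, sm (Zf n) (n + h)) = q),
          dfree r z w n * dfree r z w (n + h) ≤ F := by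
        intro n hn
        obtain ⟨hnS, hnq⟩ := Finset.mem_filter.mp hn
        obtain ⟨hnI, hn1, hnB⟩ := hSm n hnS
        obtain ⟨y1, y2, y3, y4⟩ := hZf n hnB
        have hp1 : sm (Zf n) n = q.1 := congrArg Prod.fst hnq
        have hp2 : sm (Zf n) (n + h) = q.2 := congrArg Prod.snd hnq
        rw [hF, ← hp1, ← hp2]
        refine (free_le r z w n h).trans ?_
        refine term_le h8e r (Zf n) n h s z w 1 (by omega) hn1 (by norm_num) (by norm_num) ?_
        have g1 : ((n + h : ℕ) : ℝ) ≤ 2 * X := by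
          have g2 : (n : ℝ) ≤ X := (Nat.le_floor_iff hXpos.le).mp (Finset.mem_Icc.mp hnI).2
          push_cast
          linarith
        have g3 : 2 * X ≤ ((Zf n : ℕ) : ℝ) ^ (s + 1 + 1) := by
          have g4 : (X ^ u) ^ (s + 1) = X := by
            rw [← Real.rpow_natCast, ← Real.rpow_mul hXpos.le, hu]
            have : 1 / ((s : ℝ) + 1) * ((s + 1 : ℕ) : ℝ) = 1 := by push_cast; field_simp
            rw [this, Real.rpow_one]
          calc 2 * X ≤ X ^ u * (X ^ u) ^ (s + 1) := by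
                rw [g4]; exact mul_le_mul_of_nonneg_right (by linarith) hXpos.le
            _ = (X ^ u) ^ (s + 1 + 1) := by ring
            _ ≤ ((Zf n : ℕ) : ℝ) ^ (s + 1 + 1) := pow_le_pow_left₀ (by positivity) y1 _
        have g5 : ((n + h : ℕ) : ℝ) ≤ ((Zf n ^ (s + 1 + 1) : ℕ) : ℝ) := by
          rw [Nat.cast_pow]
          exact g1.trans g3
        exact_mod_cast g5
      have hsub : S.filter (fun n => (sm (Zf n) n, sm (Zf n) (n + h)) = q) ⊆
          Ns X h q.1 q.2 ZP := by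
        intro n hn
        obtain ⟨hnS, hnq⟩ := Finset.mem_filter.mp hn
        obtain ⟨hnI, hn1, hnB⟩ := hSm n hnS
        have hp1 : sm (Zf n) n = q.1 := congrArg Prod.fst hnq
        have hp2 : sm (Zf n) (n + h) = q.2 := congrArg Prod.snd hnq
        rw [← hp1, ← hp2]
        exact mem_Ns h8a X h n (Zf n) ZP hnI (hZPn n hnS)
      have hsum1 : ∑ n ∈ S with (sm (Zf n) n, sm (Zf n) (n + h)) = q,
          dfree r z w n * dfree r z w (n + h) ≤ ((Ns X h q.1 q.2 ZP).card : ℝ) * F := by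
        refine (Finset.sum_le_sum hterm).trans ?_
        rw [Finset.sum_const, nsmul_eq_mul]
        refine mul_le_mul_of_nonneg_right ?_ hF0
        exact_mod_cast Finset.card_le_card hsub
      refine hsum1.trans ?_
      rw [hF, hK]
      unfold Wz
      rw [if_pos how]
      unfold Wp
      have hpos1 : (0 : ℝ) < (q.1 : ℝ) * q.2 := by
        have : (1 : ℝ) ≤ q.1 := by exact_mod_cast ha1
        have : (1 : ℝ) ≤ q.2 := by exact_mod_cast ha2
        positivity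
      refine alg_le _ _ _ _ _ _ _ _ _ _ _ _ _ hcard (by rw [← hF]; exact hF0) ?_ (by positivity)
      have g6 : T ^ σ ≤ ((q.1 : ℝ) * q.2) ^ σ := Real.rpow_le_rpow hT.le z3.le hσ0
      rw [Real.rpow_neg hT.le]
      have g7 : 0 < T ^ σ := by positivity
      calc (1 : ℝ) = (T ^ σ)⁻¹ * T ^ σ := (inv_mul_cancel₀ g7.ne').symm
        _ ≤ _ := mul_le_mul_of_nonneg_left g6 (by positivity)
  refine (Finset.sum_le_sum hfib).trans ?_
  rw [← Finset.mul_sum]
  have hN7 := h7 z w σ h Zt M hh (by omega) hσ0 hσ1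
  refine (mul_le_mul_of_nonneg_left hN7 hK0).trans ?_
  -- numbers
  have hSh0 : 0 ≤ Sh h := by unfold Sh; positivity
  have hA1 : (2 * (r : ℝ)) ^ (2 * s + 2) ≤ Real.exp (8 * r * s) := by
    have g1 : 2 * (r : ℝ) ≤ Real.exp (2 * r) := by
      have := Real.add_one_le_exp (2 * (r : ℝ))
      linarith
    calc (2 * (r : ℝ)) ^ (2 * s + 2) ≤ Real.exp (2 * r) ^ (2 * s + 2) :=
          pow_le_pow_left₀ (by positivity) g1 _
      _ = Real.exp (((2 * s + 2 : ℕ) : ℝ) * (2 * r)) := (Real.exp_nat_mul _ _).symm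
      _ ≤ Real.exp (8 * r * s) := by
          refine Real.exp_le_exp.mpr ?_
          push_cast
          nlinarith
  have hA2 : C4 ≤ Real.exp (C4 * s) := by
    have := Real.add_one_le_exp (C4 * s)
    nlinarith
  have hA3 := phi_le h hh
  have hA4 : 1 / Real.log ZP ^ 2 ≤ Real.exp (2 * s) / Real.log X ^ 2 := by
    have g1 : 0 < u * Real.log X := by positivity
    have g2 : (u * Real.log X) ^ 2 ≤ Real.log ZP ^ 2 := pow_le_pow_left₀ g1.le hlogZP 2
    have g3 : ((s : ℝ) + 1) ^ 2 ≤ Real.exp (2 * s) := by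
      have g4 := Real.add_one_le_exp (s : ℝ)
      calc ((s : ℝ) + 1) ^ 2 ≤ Real.exp s ^ 2 := pow_le_pow_left₀ (by positivity) g4 2
        _ = Real.exp (2 * s) := by rw [← Real.exp_nat_mul]; push_cast; rfl
    calc 1 / Real.log ZP ^ 2 ≤ 1 / (u * Real.log X) ^ 2 :=
          one_div_le_one_div_of_le (by positivity) g2
      _ = ((s : ℝ) + 1) ^ 2 / Real.log X ^ 2 := by
          rw [hu]
          field_simp
      _ ≤ _ := div_le_div_of_nonneg_right g3 (by positivity)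
  have hA5 : C7 * σ * (Zt : ℝ) ^ (2 * σ) * (1 + Real.log Zt) ≤ C7 * s := by
    have hls : 0 < Real.log s := Real.log_pos (by linarith)
    obtain ⟨q, hq⟩ : ∃ q : ℝ, q = Real.exp (Real.log s / 2) := ⟨_, rfl⟩
    have hq0 : 0 < q := by rw [hq]; exact Real.exp_pos _
    have hq2 : q * q = s := by
      rw [hq, ← Real.exp_add, add_halves, Real.exp_log (by linarith)]
    have hql : Real.log s ≤ 2 * q := by
      have g1 := Real.add_one_le_exp (Real.log s / 2)
      rw [← hq] at g1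
      linarith
    have hq1 : 1 ≤ q := by
      rw [hq]
      exact Real.one_le_exp (by positivity)
    have g2 : σ * Real.log Zt ≤ Real.log s / 4 := by
      have g3 : σ * Real.log Zt ≤ σ * (1 / (s : ℝ) * Real.log X) :=
        mul_le_mul_of_nonneg_left hlogZt hσ0
      have g4 : σ * (1 / (s : ℝ) * Real.log X) = (σ * Real.log X) / s := by ring
      have g5 : (σ * Real.log X) / s ≤ (s * Real.log s / 4) / s :=
        div_le_div_of_nonneg_right hσX (by positivity)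
      have g6 : (s * Real.log s / 4) / s = Real.log s / 4 := by field_simp
      linarith
    have g7 : (Zt : ℝ) ^ (2 * σ) ≤ q := by
      rw [Real.rpow_def_of_pos (by linarith), hq]
      exact Real.exp_le_exp.mpr (by linarith)
    have g8 : σ * (1 + Real.log Zt) ≤ q := by linarith
    have g9 : (Zt : ℝ) ^ (2 * σ) * (σ * (1 + Real.log Zt)) ≤ q * q :=
      mul_le_mul g7 g8 (by positivity) hq0.le
    calc C7 * σ * (Zt : ℝ) ^ (2 * σ) * (1 + Real.log Zt) =
          C7 * ((Zt : ℝ) ^ (2 * σ) * (σ * (1 + Real.log Zt))) := by ring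
      _ ≤ C7 * (q * q) := mul_le_mul_of_nonneg_left g9 hC7.le
      _ = C7 * s := by rw [hq2]
  have hA6 : -(2 * r * pw z (min w Zt)) ≤ -(2 * r * pw z w) + 2 * r * (2 * s + C1) := by
    have hr00 : (0 : ℝ) ≤ 2 * r := by linarith
    have key : pw z w ≤ pw z (min w Zt) + (2 * s + C1) := by
      rcases le_or_gt w Zt with hw | hw
      · rw [min_eq_left hw]
        linarith
      · rw [min_eq_right hw.le]
        have g1 := pw_split z w Zt
        have g2 := (abs_le.mp (hM Zt w (by linarith) hw.le)).2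
        have hw0 : 0 < Real.log w := Real.log_pos (by linarith)
        have g3 : Real.log w ≤ Real.log X := Real.log_le_log (by linarith) hwX
        have g4 : Real.log w / Real.log Zt ≤ 2 * s := by
          rw [div_le_iff₀ hlogZt0]
          linarith
        have g5 := Real.log_le_sub_one_of_pos (show 0 < Real.log w / Real.log Zt by positivity)
        linarith
    have := mul_le_mul_of_nonneg_left key hr00
    linarith
  have hA7 : Real.log Zt ^ (2 * r) ≤ Real.log X ^ (2 * r - 2) * Real.log X ^ 2 := by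
    have g1 : Real.log Zt ≤ Real.log X := by
      refine hlogZt.trans ?_
      have : 1 / (s : ℝ) * Real.log X ≤ 1 * Real.log X :=
        mul_le_mul_of_nonneg_right (by linarith) (by linarith)
      linarith
    calc Real.log Zt ^ (2 * r) ≤ Real.log X ^ (2 * r) := pow_le_pow_left₀ hlogZt0.le g1 _
      _ = _ := by rw [← pow_add]; congr 1; omega
  obtain ⟨E7, hE7⟩ : ∃ E7 : ℝ, E7 = C7 + C7 * σ * (Zt : ℝ) ^ (2 * σ) * (1 + Real.log Zt) -
      2 * r * pw z (min w Zt) + ((r : ℝ) ^ 2 - 2 * r) * Sh h := ⟨_, rfl⟩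
  rw [← hE7]
  have hE7' : E7 ≤ C7 + C7 * s + (-(2 * r * pw z w) + 2 * r * (2 * s + C1)) +
      ((r : ℝ) ^ 2 - 2 * r) * Sh h := by rw [hE7]; linarith
  have hLX2 : 0 < Real.log X ^ 2 := by positivity
  have hG0 : 0 ≤ (h : ℝ) / (Nat.totient h : ℝ) := by positivity
  have hT0 : 0 < T ^ (-σ) := by positivity
  have hlp : 0 < Real.log X ^ (2 * r - 2) := by positivity
  have step1 : K ≤ Real.exp (8 * r * s) * (Real.exp (C4 * s) * X * Real.exp (Sh h + 4) *
      (Real.exp (2 * s) / Real.log X ^ 2)) * T ^ (-σ) := by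
    rw [hK]
    refine mul_le_mul_of_nonneg_right ?_ hT0.le
    refine mul_le_mul hA1 ?_ (by positivity) (Real.exp_pos _).le
    rw [div_eq_mul_one_div]
    refine mul_le_mul ?_ hA4 (by positivity) (by positivity)
    refine mul_le_mul ?_ hA3 hG0 (by positivity)
    exact mul_le_mul_of_nonneg_right hA2 hXpos.le
  have step2 : Real.exp E7 * Real.log Zt ^ (2 * r) ≤ Real.exp (C7 + C7 * s +
      (-(2 * r * pw z w) + 2 * r * (2 * s + C1)) + ((r : ℝ) ^ 2 - 2 * r) * Sh h) *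
      (Real.log X ^ (2 * r - 2) * Real.log X ^ 2) :=
    mul_le_mul (Real.exp_le_exp.mpr hE7') hA7 (by positivity) (Real.exp_pos _).le
  refine (mul_le_mul step1 step2 (by positivity) (by positivity)).trans ?_
  have step3 : Real.exp (8 * r * s) * (Real.exp (C4 * s) * X * Real.exp (Sh h + 4) *
      (Real.exp (2 * s) / Real.log X ^ 2)) * T ^ (-σ) * (Real.exp (C7 + C7 * s +
      (-(2 * r * pw z w) + 2 * r * (2 * s + C1)) + ((r : ℝ) ^ 2 - 2 * r) * Sh h) *
      (Real.log X ^ (2 * r - 2) * Real.log X ^ 2)) =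
      (Real.exp (8 * r * s) * Real.exp (C4 * s) * Real.exp (Sh h + 4) * Real.exp (2 * s) *
        Real.exp (C7 + C7 * s + (-(2 * r * pw z w) + 2 * r * (2 * s + C1)) +
          ((r : ℝ) ^ 2 - 2 * r) * Sh h)) * T ^ (-σ) * X * Real.log X ^ (2 * r - 2) := by
    field_simp
  rw [step3, ← Real.exp_add, ← Real.exp_add, ← Real.exp_add, ← Real.exp_add]
  refine mul_le_mul_of_nonneg_right ?_ hlp.le
  refine mul_le_mul_of_nonneg_right ?_ hXpos.le
  refine mul_le_mul_of_nonneg_right ?_ hT0.le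
  refine Real.exp_le_exp.mpr ?_
  have f1 : C7 ≤ C7 * s := by nlinarith
  have f2 : 2 * r * C1 ≤ 2 * r * C1 * s := by
    have : 0 ≤ 2 * (r : ℝ) * C1 := by positivity
    nlinarith
  have f3 : ((r : ℝ) - 1) ^ 2 * Sh h = ((r : ℝ) ^ 2 - 2 * r) * Sh h + Sh h := by ring
  rw [f3]
  nlinarith

end Pool.Agent.Work.MP_122e00_nt.FP
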