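import Pool.Agent.Work.MP_122e00_nt.FP.StmtsA

/-!
# E1: the sum of `1/p` over the prime divisors of `h`
-/

namespace Pool.Agent.Work.MP_122e00_nt.FP.E1x

open Finset

lemma card_le (h : ℕ) (hh : 1 ≤ h) : (2 : ℝ) ^ (h.primeFactors.card) ≤ h := by
  have h1 : (2 : ℕ) ^ (h.primeFactors.card) ≤ h := by
    calc (2 : ℕ) ^ (h.primeFactors.card) = ∏ _p ∈ h.primeFactors, 2 := by
          rw [Finset.prod_const]
      _ ≤ ∏ p ∈ h.primeFactors, p := by
          apply Finset.prod_le_prod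
          · intro i _; exact Nat.zero_le _
          · intro i hi; exact (Nat.prime_of_mem_primeFactors hi).two_le
      _ ≤ h := Nat.le_of_dvd (by omega) (Nat.prod_primeFactors_dvd h)
  exact_mod_cast h1

lemma card_le_log (h : ℕ) (hh : 1 ≤ h) : (h.primeFactors.card : ℝ) ≤ Real.log h / Real.log 2 := by
  have h2 : 0 < Real.log 2 := Real.log_pos (by norm_num)
  rw [le_div_iff₀ h2]
  have h1 := Real.log_le_log (by positivity) (card_le h hh)
  rwa [Real.log_pow] at h1

end Pool.Agent.Work.MP_122e00_nt.FP.E1x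

namespace Pool.Agent.Work.MP_122e00_nt.FP

open Finset
open Pool.Agent.Work.MP_122e00_nt.TS

open Classical in
theorem pfE1 (h1 : tsN1) : fpE1 := by
  obtain ⟨C, hC, hN, -⟩ := h1
  refine ⟨C + 2, by linarith, ?_⟩
  intro h hh
  have hhR : (1 : ℝ) ≤ h := by exact_mod_cast hh
  set L : ℝ := Real.log ((h : ℝ) + 16) with hL
  have hlog2 : 0 < Real.log 2 := Real.log_pos (by norm_num)
  have hlog2' : (0.5 : ℝ) ≤ Real.log 2 := by
    have := Real.log_two_gt_d9; linarith
  have hL2 : 2 ≤ L := by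
    have h16 : Real.log 16 = 4 * Real.log 2 := by
      rw [show (16 : ℝ) = 2 ^ 4 by norm_num, Real.log_pow]; norm_num
    have := Real.log_le_log (by norm_num : (0 : ℝ) < 16) (by linarith : (16 : ℝ) ≤ (h : ℝ) + 16)
    have := Real.log_two_gt_d9
    linarith
  have hL0 : 0 < L := by linarith
  have hlh : Real.log h ≤ L := Real.log_le_log (by linarith) (by linarith)
  have hlh0 : 0 ≤ Real.log h := Real.log_nonneg hhR
  have hZ2 : 2 ≤ ⌊L⌋₊ := Nat.le_floor (by exact_mod_cast hL2)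
  have hN1 := (hN ⌊L⌋₊ hZ2).2
  have hZ2R : (2 : ℝ) ≤ (⌊L⌋₊ : ℝ) := by exact_mod_cast hZ2
  have hfl : ((⌊L⌋₊ : ℕ) : ℝ) ≤ L := Nat.floor_le hL0.le
  have hlogZ : 0 < Real.log (⌊L⌋₊ : ℝ) := Real.log_pos (by linarith)
  have hll : Real.log (Real.log (⌊L⌋₊ : ℝ)) ≤ Real.log (Real.log L) :=
    Real.log_le_log hlogZ (Real.log_le_log (by linarith) hfl)
  have hsplit : Sh h = (∑ p ∈ h.primeFactors.filter (fun p : ℕ => (p : ℝ) ≤ L), 1 / (p : ℝ)) +
      ∑ p ∈ h.primeFactors.filter (fun p : ℕ => ¬ (p : ℝ) ≤ L), 1 / (p : ℝ) := by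
    unfold Sh
    rw [Finset.sum_filter_add_sum_filter_not]
  have hA : (∑ p ∈ h.primeFactors.filter (fun p : ℕ => (p : ℝ) ≤ L), 1 / (p : ℝ)) ≤
      ∑ p ∈ pr1 ⌊L⌋₊, 1 / (p : ℝ) := by
    apply Finset.sum_le_sum_of_subset_of_nonneg
    · intro p hp
      rw [Finset.mem_filter] at hp
      have hpp := Nat.prime_of_mem_primeFactors hp.1
      unfold pr1
      rw [Finset.mem_filter, Finset.mem_Icc]
      exact ⟨⟨hpp.one_lt.le, Nat.le_floor hp.2⟩, hpp⟩
    · intro i _ _; positivity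
  have hB : (∑ p ∈ h.primeFactors.filter (fun p : ℕ => ¬ (p : ℝ) ≤ L), 1 / (p : ℝ)) ≤ 2 := by
    calc (∑ p ∈ h.primeFactors.filter (fun p : ℕ => ¬ (p : ℝ) ≤ L), 1 / (p : ℝ))
        ≤ ∑ _p ∈ h.primeFactors.filter (fun p : ℕ => ¬ (p : ℝ) ≤ L), 1 / L := by
          apply Finset.sum_le_sum
          intro p hp
          rw [Finset.mem_filter, not_le] at hp
          exact one_div_le_one_div_of_le hL0 hp.2.le
      _ = ((h.primeFactors.filter (fun p : ℕ => ¬ (p : ℝ) ≤ L)).card : ℝ) * (1 / L) := by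
          rw [Finset.sum_const, nsmul_eq_mul]
      _ ≤ (h.primeFactors.card : ℝ) * (1 / L) := by
          apply mul_le_mul_of_nonneg_right _ (by positivity)
          exact_mod_cast Finset.card_filter_le _ _
      _ ≤ (Real.log h / Real.log 2) * (1 / L) := by
          apply mul_le_mul_of_nonneg_right (E1x.card_le_log h hh) (by positivity)
      _ ≤ 2 := by
          rw [mul_one_div, div_le_iff₀ hL0, div_le_iff₀ hlog2]
          nlinarith
  have hC' := (abs_le.mp hN1).2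
  have hfin : Real.log (ll h) = Real.log (Real.log L) := by
    unfold ll
    rw [← hL]
  rw [hsplit, hfin]
  linarith

end Pool.Agent.Work.MP_122e00_nt.FP
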