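import Pool.Agent.Work.MP_122e00_nt.FP.StmtsA
import Pool.Agent.Work.MP_122e00_nt.TS.I_E4

/-!
# Full polynomial, item G1 (helper61): a polynomial bounded on `[A, 2A]`
-/

set_option autoImplicit false

namespace Pool.Agent.Work.MP_122e00_nt.FP

namespace G1x

open Polynomial in
theorem coeffs (d : ℕ) : ∃ C0 : ℝ, 0 < C0 ∧ ∀ p : Polynomial ℝ, p.natDegree ≤ d → ∀ A M : ℝ,
    1 ≤ A → 0 ≤ M → (∀ t ∈ Set.Icc A (2 * A), |p.eval t| ≤ M) → ∀ j, |p.coeff j| * A ^ j ≤ C0 * M := by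
  obtain ⟨C0, hC0, h⟩ := TS.prE4 d
  refine ⟨C0, hC0, ?_⟩
  intro p hp A M hA hM hb j
  have hA0 : 0 ≤ A := by linarith
  let q : Polynomial ℝ := p.comp (C A * X)
  have hqc : ∀ n, q.coeff n = p.coeff n * A ^ n := fun n => Polynomial.comp_C_mul_X_coeff
  have hqd : q.natDegree ≤ d := by
    refine Polynomial.natDegree_le_iff_coeff_eq_zero.2 fun N hN => ?_
    rw [hqc, Polynomial.coeff_eq_zero_of_natDegree_lt (lt_of_le_of_lt hp hN), zero_mul]
  have h1 := h q hqd 1 M le_rfl hM (by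
    intro t ht
    have h6 : q.eval t = p.eval (A * t) := by
      show (p.comp (C A * X)).eval t = _
      rw [Polynomial.eval_comp, Polynomial.eval_mul, Polynomial.eval_C, Polynomial.eval_X]
    rw [h6]
    apply hb
    obtain ⟨h7, h8⟩ := ht
    constructor
    · nlinarith
    · nlinarith) j
  rw [hqc, abs_mul, abs_pow, abs_of_nonneg hA0] at h1
  exact h1

end G1x

theorem pfG1 : fpG1 := by
  intro d
  obtain ⟨C0, hC0, h⟩ := G1x.coeffs d
  let S : ℝ := ∑ j ∈ Finset.range (d + 1), ((j : ℝ) + 1) * 2 ^ j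
  have hS : 0 < S := Finset.sum_pos (fun j _ => by positivity) ⟨0, by simp⟩
  refine ⟨C0 * S, mul_pos hC0 hS, ?_⟩
  intro p hp A M hA hM hb t ht
  have hc := h p hp A M hA hM hb
  have hA0 : 0 < A := by linarith
  obtain ⟨ht0, ht2⟩ := ht
  have hCM : 0 ≤ C0 * M := mul_nonneg hC0.le hM
  constructor
  · rw [Polynomial.eval_eq_sum_range' (n := d + 1) (by omega)]
    refine (Finset.abs_sum_le_sum_abs _ _).trans ?_
    have h2 : C0 * S * M = ∑ j ∈ Finset.range (d + 1), (C0 * M) * (((j : ℝ) + 1) * 2 ^ j) := by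
      rw [← Finset.mul_sum]
      ring
    rw [h2]
    refine Finset.sum_le_sum fun j _ => ?_
    rw [abs_mul, abs_pow, abs_of_nonneg ht0]
    have h3 : t ^ j ≤ (2 * A) ^ j := pow_le_pow_left₀ ht0 ht2 j
    have h4 : |p.coeff j| * t ^ j ≤ |p.coeff j| * (2 * A) ^ j :=
      mul_le_mul_of_nonneg_left h3 (abs_nonneg _)
    have h5 : |p.coeff j| * (2 * A) ^ j = (|p.coeff j| * A ^ j) * 2 ^ j := by
      rw [mul_pow]
      ring
    have h6 : (|p.coeff j| * A ^ j) * 2 ^ j ≤ (C0 * M) * 2 ^ j :=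
      mul_le_mul_of_nonneg_right (hc j) (by positivity)
    have h7 : (C0 * M) * (2 : ℝ) ^ j ≤ (C0 * M) * (((j : ℝ) + 1) * 2 ^ j) := by
      refine mul_le_mul_of_nonneg_left ?_ hCM
      have h8 : (0 : ℝ) ≤ (j : ℝ) * 2 ^ j := by positivity
      linarith
    linarith
  · rw [le_div_iff₀ hA0]
    have hd : (Polynomial.derivative p).natDegree < d + 1 := by
      have := Polynomial.natDegree_derivative_le p
      omega
    rw [Polynomial.eval_eq_sum_range' (n := d + 1) hd]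
    have h1 : |∑ j ∈ Finset.range (d + 1), (Polynomial.derivative p).coeff j * t ^ j| * A ≤
        (∑ j ∈ Finset.range (d + 1), |(Polynomial.derivative p).coeff j * t ^ j|) * A :=
      mul_le_mul_of_nonneg_right (Finset.abs_sum_le_sum_abs _ _) hA0.le
    refine h1.trans ?_
    have h2 : C0 * S * M = ∑ j ∈ Finset.range (d + 1), (C0 * M) * (((j : ℝ) + 1) * 2 ^ j) := by
      rw [← Finset.mul_sum]
      ring
    rw [h2, Finset.sum_mul]
    refine Finset.sum_le_sum fun j _ => ?_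
    rw [Polynomial.coeff_derivative, abs_mul, abs_mul, abs_pow, abs_of_nonneg ht0]
    have h3 : t ^ j ≤ (2 * A) ^ j := pow_le_pow_left₀ ht0 ht2 j
    have h0 : |((j : ℝ) + 1)| = (j : ℝ) + 1 := abs_of_nonneg (by positivity)
    rw [h0]
    have h4 : |p.coeff (j + 1)| * ((j : ℝ) + 1) * t ^ j ≤
        |p.coeff (j + 1)| * ((j : ℝ) + 1) * (2 * A) ^ j :=
      mul_le_mul_of_nonneg_left h3 (by positivity)
    have h5 : |p.coeff (j + 1)| * ((j : ℝ) + 1) * (2 * A) ^ j * A =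
        (|p.coeff (j + 1)| * A ^ (j + 1)) * (((j : ℝ) + 1) * 2 ^ j) := by
      rw [mul_pow, pow_succ]
      ring
    calc |p.coeff (j + 1)| * ((j : ℝ) + 1) * t ^ j * A
        ≤ |p.coeff (j + 1)| * ((j : ℝ) + 1) * (2 * A) ^ j * A :=
          mul_le_mul_of_nonneg_right h4 hA0.le
      _ = (|p.coeff (j + 1)| * A ^ (j + 1)) * (((j : ℝ) + 1) * 2 ^ j) := h5
      _ ≤ (C0 * M) * (((j : ℝ) + 1) * 2 ^ j) :=
          mul_le_mul_of_nonneg_right (hc (j + 1)) (by positivity)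

end Pool.Agent.Work.MP_122e00_nt.FP
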