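import Pool.Agent.Work.MP_122e00_nt.FP.StmtsA

/-!
# Full polynomial, item G2: the means of `d_r` and of its structured part are close
-/

namespace Pool.Agent.Work.MP_122e00_nt.FP

open Finset Filter Topology ArithmeticFunction MeasureTheory
open Pool.Agent.Work.MP_122e00_nt.TS
open scoped ArithmeticFunction.zeta ArithmeticFunction.Moebius

namespace G2x

/-- the residues coprime to `q` -/
def R (q : ℕ) : Finset ℕ := (Finset.range q).filter (fun a => Nat.Coprime a q)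

theorem card_R (q : ℕ) : (R q).card = Nat.totient q := by
  rw [Nat.totient_eq_card_coprime]
  unfold R
  congr 1
  exact Finset.filter_congr fun a _ => Nat.coprime_comm

/-- the mean over the residues -/
theorem mean (h1 : tsE1) (f : ℕ → ℝ) (N q : ℕ) (hq : 1 ≤ q) :
    ∑ a ∈ R q, SS f N (((a : ℕ) : ℤ) / q) =
      ((∑ n ∈ Finset.Icc 1 N, f n * Gh n q : ℝ) : ℂ) := by
  unfold SS
  rw [Finset.sum_comm]
  push_cast
  refine Finset.sum_congr rfl fun n _ => ?_
  rw [← h1 q n hq, Finset.mul_sum]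
  refine Finset.sum_congr rfl fun a _ => ?_
  congr 2
  ring

theorem avg (h1 : tsE1) (f : ℕ → ℝ) (N q : ℕ) (hq : 1 ≤ q) (P B : ℝ)
    (h : ∀ a : ℤ, IsCoprime a (q : ℤ) → ‖SS f N (a / q) - ((P : ℝ) : ℂ)‖ ≤ B) :
    |∑ n ∈ Finset.Icc 1 N, f n * Gh n q - (Nat.totient q : ℝ) * P| ≤ (Nat.totient q : ℝ) * B := by
  have e1 : ((∑ n ∈ Finset.Icc 1 N, f n * Gh n q - (Nat.totient q : ℝ) * P : ℝ) : ℂ) =
      ∑ a ∈ R q, (SS f N (((a : ℕ) : ℤ) / q) - ((P : ℝ) : ℂ)) := by
    rw [Finset.sum_sub_distrib, mean h1 f N q hq, Finset.sum_const, card_R, nsmul_eq_mul]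
    push_cast
    ring
  rw [← Real.norm_eq_abs, ← Complex.norm_real, e1]
  refine (norm_sum_le _ _).trans ?_
  have e2 : ∀ a ∈ R q, ‖SS f N (((a : ℕ) : ℤ) / q) - ((P : ℝ) : ℂ)‖ ≤ B := by
    intro a ha
    exact h a (Nat.isCoprime_iff_coprime.2 (Finset.mem_filter.1 ha).2)
  refine (Finset.sum_le_sum e2).trans ?_
  rw [Finset.sum_const, card_R, nsmul_eq_mul]

theorem abs_Gh (h k : ℕ) : |Gh h k| ≤ ∑ g ∈ k.divisors.filter (· ∣ h), (g : ℝ) := by
  unfold Gh
  rw [ArithmeticFunction.mul_apply]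
  calc |∑ x ∈ k.divisorsAntidiagonal, (μ : ArithmeticFunction ℝ) x.1 * Fh h x.2|
      ≤ ∑ x ∈ k.divisorsAntidiagonal, |(μ : ArithmeticFunction ℝ) x.1 * Fh h x.2| :=
        Finset.abs_sum_le_sum_abs _ _
    _ ≤ ∑ x ∈ k.divisorsAntidiagonal, Fh h x.2 := by
        apply Finset.sum_le_sum
        intro x _
        rw [abs_mul]
        have h1 : |(μ : ArithmeticFunction ℝ) x.1| ≤ 1 := by
          rw [intCoe_apply, ← Int.cast_abs]
          exact_mod_cast abs_moebius_le_one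
        have h2 : 0 ≤ Fh h x.2 := by
          rw [Fh_apply]; split_ifs <;> positivity
        rw [abs_of_nonneg h2]
        exact mul_le_of_le_one_left h2 h1
    _ = ∑ g ∈ k.divisors, Fh h g := by
        rw [← Nat.map_div_left_divisors, Finset.sum_map]
        rfl
    _ = ∑ g ∈ k.divisors.filter (· ∣ h), (g : ℝ) := by
        rw [Finset.sum_filter]
        rfl

theorem swap (f g : ℕ → ℝ) (N q : ℕ) (hfg : ∀ n, 1 ≤ n → |f n| ≤ g n) :
    |∑ n ∈ Finset.Icc 1 N, f n * Gh n q| ≤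
      ∑ e ∈ q.divisors, (e : ℝ) * ∑ n ∈ (Finset.Icc 1 N).filter (e ∣ ·), g n := by
  refine (Finset.abs_sum_le_sum_abs _ _).trans ?_
  have e1 : ∀ n ∈ Finset.Icc 1 N, |f n * Gh n q| ≤
      ∑ e ∈ q.divisors, if e ∣ n then (e : ℝ) * g n else 0 := by
    intro n hn
    have hn1 := (Finset.mem_Icc.1 hn).1
    rw [abs_mul]
    have hg0 : 0 ≤ g n := (abs_nonneg _).trans (hfg n hn1)
    calc |f n| * |Gh n q| ≤ g n * ∑ e ∈ q.divisors.filter (· ∣ n), (e : ℝ) :=
          mul_le_mul (hfg n hn1) (abs_Gh n q) (abs_nonneg _) hg0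
      _ = ∑ e ∈ q.divisors, if e ∣ n then (e : ℝ) * g n else 0 := by
          rw [Finset.mul_sum, Finset.sum_filter]
          refine Finset.sum_congr rfl fun e _ => ?_
          split_ifs
          · ring
          · rfl
  refine (Finset.sum_le_sum e1).trans (le_of_eq ?_)
  rw [Finset.sum_comm]
  refine Finset.sum_congr rfl fun e _ => ?_
  rw [Finset.mul_sum, Finset.sum_filter]

/-! ### The divisor functions -/

theorem z_succ (r n : ℕ) :
    ((ζ : ArithmeticFunction ℕ) ^ (r + 1)) n = ∑ d ∈ n.divisors, ((ζ : ArithmeticFunction ℕ) ^ r) d := by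
  rw [pow_succ, mul_zeta_apply]

theorem z_mono (r g q : ℕ) (h : g ∣ q) (hq : q ≠ 0) :
    ((ζ : ArithmeticFunction ℕ) ^ (r + 1)) g ≤ ((ζ : ArithmeticFunction ℕ) ^ (r + 1)) q := by
  rw [z_succ, z_succ]
  exact Finset.sum_le_sum_of_subset (Nat.divisors_subset_of_dvd hq h)

theorem z_idx (r n : ℕ) (hn : n ≠ 0) : ((ζ : ArithmeticFunction ℕ) ^ r) n ≤
    ((ζ : ArithmeticFunction ℕ) ^ (r + 1)) n := by
  rw [z_succ]
  exact Finset.single_le_sum (f := fun d => ((ζ : ArithmeticFunction ℕ) ^ r) d)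
    (fun _ _ => Nat.zero_le _) (Nat.mem_divisors_self n hn)

theorem z_idx' (r s n : ℕ) (hn : n ≠ 0) (h : r ≤ s) : ((ζ : ArithmeticFunction ℕ) ^ r) n ≤
    ((ζ : ArithmeticFunction ℕ) ^ s) n := by
  induction s, h using Nat.le_induction with
  | base => exact le_rfl
  | succ s _ ih => exact ih.trans (z_idx s n hn)

theorem dr_nonneg (r n : ℕ) : 0 ≤ dr r n := Nat.cast_nonneg _

theorem one_le_dr (r n : ℕ) (hr : 1 ≤ r) (hn : 1 ≤ n) : 1 ≤ dr r n := by
  unfold dr
  have h1 := z_idx' 1 r n (by omega) hr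
  rw [pow_one, zeta_apply_ne (by omega)] at h1
  exact_mod_cast h1

theorem dr_le (r s e q : ℕ) (hr : 1 ≤ r) (hrs : r ≤ s) (he : e ∣ q) (hq : 1 ≤ q) :
    dr r e ≤ dr s q := by
  have he0 : e ≠ 0 := by
    rintro rfl
    rw [zero_dvd_iff] at he
    omega
  obtain ⟨t, rfl⟩ : ∃ t, s = t + 1 := ⟨s - 1, by omega⟩
  unfold dr
  exact_mod_cast (z_idx' r (t + 1) e he0 hrs).trans (z_mono t e q he (by omega))

theorem dfree_nonneg (r : ℕ) (z w : ℝ) (n : ℕ) : 0 ≤ dfree r z w n := by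
  unfold dfree
  split_ifs
  · exact dr_nonneg _ _
  · exact le_rfl

theorem tau_nonneg (r : ℕ) (z w : ℝ) (S n : ℕ) : 0 ≤ tau r z w S n := by
  unfold tau
  have h1 : 0 ≤ (r : ℝ) * nu2 z w n * dr r n :=
    mul_nonneg (by positivity) (dr_nonneg _ _)
  have h2 : 0 ≤ (r : ℝ) * dr (3 * r + 1) n := mul_nonneg (by positivity) (dr_nonneg _ _)
  split_ifs
  · linarith
  · linarith

/-- `be` without the logarithms -/
noncomputable def bz (r q : ℕ) : ℝ := (q.divisors.card : ℝ) * dr r q / (Nat.totient q : ℝ)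

theorem bz_le (r q : ℕ) (hq : 1 ≤ q) : bz r q ≤ be r q := by
  unfold bz be
  have hφ : (0 : ℝ) < (Nat.totient q : ℝ) := by exact_mod_cast Nat.totient_pos.2 hq
  have h1 : (0 : ℝ) ≤ (q.divisors.card : ℝ) * dr r q := mul_nonneg (by positivity) (dr_nonneg _ _)
  have h2 : (1 : ℝ) ≤ (1 + Real.log q) ^ r := by
    refine one_le_pow₀ ?_
    have := Real.log_natCast_nonneg q
    linarith
  refine div_le_div_of_nonneg_right ?_ hφ.le
  nlinarith

theorem inv_le_bz (r q : ℕ) (hr : 1 ≤ r) (hq : 1 ≤ q) : 1 / (q : ℝ) ≤ bz r q := by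
  unfold bz
  have hq0 : (0 : ℝ) < q := by exact_mod_cast hq
  have hφ : (0 : ℝ) < (Nat.totient q : ℝ) := by exact_mod_cast Nat.totient_pos.2 hq
  have h1 : (1 : ℝ) ≤ (q.divisors.card : ℝ) := by
    exact_mod_cast Finset.card_pos.2 ⟨1, Nat.one_mem_divisors.2 (by omega)⟩
  have h2 := one_le_dr r q hr hq
  have h3 : (Nat.totient q : ℝ) ≤ q := by exact_mod_cast Nat.totient_le q
  have h4 : (1 : ℝ) ≤ (q.divisors.card : ℝ) * dr r q := by nlinarith
  rw [div_le_div_iff₀ hq0 hφ]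
  nlinarith

/-! ### Sizes -/

theorem zc_eq (X : ℝ) : zc X = Real.exp (l2 X ^ 3) := by
  unfold zc zi
  rw [pow_zero, one_mul]

/-- the sizes -/
theorem sizes (h2 : fpP2) (X H x : ℝ) (hl : 10 ≤ l2 X) (hL : 3 ≤ Real.log X)
    (hX : 16 ≤ X) (hX2 : Real.exp (l2 X ^ 3) ≤ X ^ (1 / 100 : ℝ))
    (hH : l2 X ^ 6 ≤ Real.log H) (hHX : H ≤ X) (hH0 : 0 < H)
    (hx : X ^ (1 / 2 : ℝ) ≤ x) (hxX : x ≤ X) :
    1 ≤ x ∧ Real.log X / 2 ≤ Real.log x ∧ Real.log x ≤ Real.log X ∧ 1 ≤ Sc H ∧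
    (Sc H : ℝ) * wc X H ≤ x ^ (1 / 4 : ℝ) ∧ 1 ≤ zc X ∧ 2 ≤ zc X ∧ zc X ≤ wc X H ∧
    Real.exp 4 ≤ wc X H ∧
    (∀ e : ℕ, 1 ≤ e → (e : ℝ) ≤ Real.exp (l2 X ^ 3) → wc X H ≤ x / e ∧ 3 ≤ x / e) ∧
    l2 X ^ 2 / 20 ≤ Real.log (Sc H) / Real.log (wc X H) ∧
    1 ≤ Real.log (wc X H) / Real.log (zc X) ∧
    Real.log (wc X H) / Real.log (zc X) ≤ Real.log X := by
  obtain ⟨a1, a2, a3, _, _, _⟩ := h2 X H (by linarith) hH hHX hH0
  have hX0 : 0 < X := by linarith
  have hx0 : 0 < x := (Real.rpow_pos_of_pos hX0 _).trans_le hx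
  have b1 : Real.log X / 2 ≤ Real.log x := by
    have e1 := Real.log_le_log (Real.rpow_pos_of_pos hX0 _) hx
    rw [Real.log_rpow hX0] at e1
    linarith
  have b2 : Real.log x ≤ Real.log X := Real.log_le_log hx0 hxX
  have b3 : 1 ≤ x := by
    have e1 : 0 ≤ Real.log x := by linarith
    by_contra hc
    push Not at hc
    have := Real.log_neg hx0 hc
    linarith
  have hl3 : (4 : ℝ) ≤ l2 X ^ 3 := by nlinarith [sq_nonneg (l2 X)]
  have hl2 : (100 : ℝ) ≤ l2 X ^ 2 := by nlinarith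
  have hl6 : (64 : ℝ) ≤ l2 X ^ 6 := by
    have : l2 X ^ 6 = l2 X ^ 3 * l2 X ^ 3 := by ring
    nlinarith
  have hz2 : 2 ≤ zc X := by
    rw [zc_eq]
    have e1 := Real.add_one_le_exp (l2 X ^ 3)
    linarith
  have hw4 : Real.exp 4 ≤ wc X H := by
    refine le_trans ?_ a2
    rw [zc_eq]
    exact Real.exp_le_exp.2 hl3
  have hw0 : 0 < wc X H := (Real.exp_pos _).trans_le hw4
  have hlH : Real.log H ≤ Real.log X := Real.log_le_log hH0 hHX
  have hlH0 : 0 < Real.log H := by linarith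
  -- log w ≤ log X / 100
  have c1 : Real.log (wc X H) ≤ Real.log X / 100 := by
    refine a3.trans ?_
    rw [div_le_div_iff₀ (by positivity) (by norm_num)]
    nlinarith
  have hlw0 : 4 ≤ Real.log (wc X H) := by
    rw [Real.le_log_iff_exp_le hw0]
    exact hw4
  -- S
  have hHS : (1 : ℝ) ≤ H ^ (1 / 16 : ℝ) := by
    rw [← Real.log_nonneg_iff (Real.rpow_pos_of_pos hH0 _), Real.log_rpow hH0]
    positivity
  have hS1 : 1 ≤ Sc H := by
    unfold Sc
    exact (Nat.le_floor_iff (by positivity)).2 (by exact_mod_cast hHS)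
  have hSle : (Sc H : ℝ) ≤ H ^ (1 / 16 : ℝ) := by
    unfold Sc
    exact Nat.floor_le (by positivity)
  have hS0 : (0 : ℝ) < Sc H := by exact_mod_cast hS1
  have hSge : H ^ (1 / 16 : ℝ) / 2 ≤ Sc H := by
    have e1 : H ^ (1 / 16 : ℝ) < (Sc H : ℝ) + 1 := by
      unfold Sc
      exact Nat.lt_floor_add_one _
    have e2 : (1 : ℝ) ≤ Sc H := by exact_mod_cast hS1
    linarith
  have hlS : Real.log H / 20 ≤ Real.log (Sc H) := by
    have e1 := Real.log_le_log (by positivity) hSge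
    rw [Real.log_div (by positivity) (by norm_num), Real.log_rpow hH0] at e1
    have e2 : Real.log 2 ≤ 0.7 := by
      have := Real.log_two_lt_d9
      linarith
    linarith
  have hSw : (Sc H : ℝ) * wc X H ≤ x ^ (1 / 4 : ℝ) := by
    rw [← Real.log_le_log_iff (by positivity) (Real.rpow_pos_of_pos hx0 _),
      Real.log_mul hS0.ne' hw0.ne', Real.log_rpow hx0]
    have e1 := Real.log_le_log hS0 hSle
    rw [Real.log_rpow hH0] at e1
    linarith
  refine ⟨b3, b1, b2, hS1, hSw, by linarith, hz2, a2, hw4, ?_, ?_, ?_, ?_⟩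
  · intro e he1 he
    have he0 : (0 : ℝ) < e := by exact_mod_cast he1
    have e1 : wc X H ≤ x / e := by
      rw [le_div_iff₀ he0, ← Real.log_le_log_iff (by positivity) hx0,
        Real.log_mul hw0.ne' he0.ne']
      have e2 := Real.log_le_log he0 (he.trans hX2)
      rw [Real.log_rpow hX0] at e2
      linarith
    refine ⟨e1, le_trans ?_ e1⟩
    have e2 := Real.add_one_le_exp (4 : ℝ)
    linarith
  · rw [le_div_iff₀ (by linarith)]
    rw [le_div_iff₀ (by positivity)] at a3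
    nlinarith
  · rw [le_div_iff₀ (by rw [a1]; positivity), one_mul]
    exact Real.log_le_log (by linarith) a2
  · rw [a1]
    rw [div_le_iff₀ (by positivity)]
    nlinarith

/-- the main term is not too small -/
theorem lower (r : ℕ) (C X z w : ℝ) (hL : 3 ≤ Real.log X)
    (h8 : |pw z w - Real.log (Real.log w / Real.log z)| ≤ C)
    (hq1 : 1 ≤ Real.log w / Real.log z) (hq2 : Real.log w / Real.log z ≤ Real.log X) :
    Real.exp (-(r * (l2 X + C))) ≤ Real.log X ^ (r - 1) * Real.exp (-(r * pw z w)) := by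
  have e1 : pw z w ≤ l2 X + C := by
    have e2 := (abs_le.1 h8).2
    have e3 : Real.log (Real.log w / Real.log z) ≤ l2 X := by
      unfold l2
      exact Real.log_le_log (by linarith) hq2
    linarith
  have e2 : Real.exp (-(r * (l2 X + C))) ≤ Real.exp (-(r * pw z w)) := by
    refine Real.exp_le_exp.2 ?_
    have : (r : ℝ) * pw z w ≤ r * (l2 X + C) := mul_le_mul_of_nonneg_left e1 (by positivity)
    linarith
  have e3 : 1 ≤ Real.log X ^ (r - 1) := one_le_pow₀ (by linarith)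
  calc Real.exp (-(r * (l2 X + C))) ≤ Real.exp (-(r * pw z w)) := e2
    _ = 1 * Real.exp (-(r * pw z w)) := (one_mul _).symm
    _ ≤ Real.log X ^ (r - 1) * Real.exp (-(r * pw z w)) :=
        mul_le_mul_of_nonneg_right e3 (Real.exp_pos _).le

theorem err1 (r : ℕ) (A C X u : ℝ) (hC : 0 < C) (hL : 3 ≤ Real.log X)
    (hl : 10 ≤ l2 X) (hl2 : 20 * (A + r + r * C) ≤ l2 X) (hu : l2 X ^ 2 / 20 ≤ u) :
    Real.log X ^ A * (1 / Real.exp (l2 X ^ 3) + Real.exp (-u)) ≤
      2 * Real.exp (-(r * (l2 X + C))) := by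
  have e1 : Real.log X ^ A = Real.exp (A * l2 X) := by
    rw [Real.rpow_def_of_pos (by linarith)]
    unfold l2
    ring_nf
  have e2 : 1 / Real.exp (l2 X ^ 3) ≤ Real.exp (-(l2 X ^ 2 / 20)) := by
    rw [one_div, ← Real.exp_neg]
    refine Real.exp_le_exp.2 ?_
    nlinarith [sq_nonneg (l2 X)]
  have e3 : Real.exp (-u) ≤ Real.exp (-(l2 X ^ 2 / 20)) := Real.exp_le_exp.2 (by linarith)
  have e4 : Real.exp (A * l2 X) * Real.exp (-(l2 X ^ 2 / 20)) ≤
      Real.exp (-(r * (l2 X + C))) := by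
    rw [← Real.exp_add]
    refine Real.exp_le_exp.2 ?_
    have hr : (0 : ℝ) ≤ r := Nat.cast_nonneg _
    have e5 : 20 * (A + r + r * C) * l2 X ≤ l2 X * l2 X :=
      mul_le_mul_of_nonneg_right hl2 (by linarith)
    have e6 : (r : ℝ) * C * 1 ≤ r * C * l2 X :=
      mul_le_mul_of_nonneg_left (by linarith) (by positivity)
    nlinarith
  rw [e1]
  calc Real.exp (A * l2 X) * (1 / Real.exp (l2 X ^ 3) + Real.exp (-u)) ≤
      Real.exp (A * l2 X) * (Real.exp (-(l2 X ^ 2 / 20)) + Real.exp (-(l2 X ^ 2 / 20))) :=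
        mul_le_mul_of_nonneg_left (add_le_add e2 e3) (Real.exp_pos _).le
    _ = 2 * (Real.exp (A * l2 X) * Real.exp (-(l2 X ^ 2 / 20))) := by ring
    _ ≤ _ := by linarith

/-- `exp l` is large -/
theorem exp_big (B c l : ℝ) (hc : 0 < c) (hl : 0 ≤ l) (h : 24 * B / c ≤ l) :
    B * l ^ 3 ≤ c * Real.exp l := by
  have e1 : l ^ 4 / (Nat.factorial 4 : ℝ) ≤ Real.exp l := Real.pow_div_factorial_le_exp l hl 4
  have e2 : (Nat.factorial 4 : ℝ) = 24 := by norm_num [Nat.factorial]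
  rw [e2] at e1
  have e3 : 24 * B ≤ c * l := by
    rw [div_le_iff₀ hc] at h
    linarith
  have e4 : 24 * B * l ^ 3 ≤ c * l * l ^ 3 := mul_le_mul_of_nonneg_right e3 (by positivity)
  have e5 : c * (l ^ 4 / 24) ≤ c * Real.exp l := mul_le_mul_of_nonneg_left e1 hc.le
  nlinarith

theorem err2 (r : ℕ) (D c C X x q : ℝ) (hD : 0 < D) (hc : 0 < c) (hC : 0 < C)
    (hL : 3 ≤ Real.log X) (hl : 10 ≤ l2 X)
    (hl2 : 24 * (D + 1 + r + r * C) / (c / 2) ≤ l2 X) (hx1 : 1 ≤ x)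
    (hx : Real.log X / 2 ≤ Real.log x) (hq : 1 ≤ q) (hq2 : q ≤ Real.exp (l2 X ^ 3)) :
    q ^ D * x ^ (1 - c) ≤ x * (1 / q * Real.exp (-(r * (l2 X + C)))) := by
  have hx0 : 0 < x := by linarith
  have hq0 : 0 < q := by linarith
  have hr : (0 : ℝ) ≤ r := Nat.cast_nonneg _
  rw [← Real.log_le_log_iff (by positivity) (by positivity),
    Real.log_mul (by positivity) (by positivity), Real.log_rpow hq0, Real.log_rpow hx0,
    Real.log_mul (by positivity) (by positivity), Real.log_mul (by positivity) (by positivity),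
    Real.log_exp, one_div, Real.log_inv]
  have e1 : Real.log q ≤ l2 X ^ 3 := (Real.log_le_iff_le_exp hq0).2 hq2
  have e2 := exp_big (D + 1 + r + r * C) (c / 2) (l2 X) (by positivity) (by linarith) hl2
  have e3 : Real.exp (l2 X) = Real.log X := by
    unfold l2
    exact Real.exp_log (by linarith)
  rw [e3] at e2
  have e4 : c * (Real.log X / 2) ≤ c * Real.log x := mul_le_mul_of_nonneg_left hx hc.le
  have e5 : (D + 1) * Real.log q ≤ (D + 1) * l2 X ^ 3 :=
    mul_le_mul_of_nonneg_left e1 (by positivity)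
  have e6 : l2 X ≤ l2 X ^ 3 := by nlinarith [sq_nonneg (l2 X)]
  have e7 : (1 : ℝ) ≤ l2 X ^ 3 := by linarith
  have e8 : (r : ℝ) * l2 X ≤ r * l2 X ^ 3 := mul_le_mul_of_nonneg_left e6 hr
  have e9 : (r : ℝ) * C * 1 ≤ r * C * l2 X ^ 3 := mul_le_mul_of_nonneg_left e7 (by positivity)
  nlinarith

end G2x

open G2x in
/-- G2: the means of `d_r` and of `fS` are close. -/
theorem pfG2 (h1 : fpP1) (h2 : fpP2) (h3 : fpA1) (h4 : fpB4) (h5 : fpC2) (h6 : fpV2)
    (h7 : tsE1) (h8 : tsN1) : fpG2 := by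
  intro r E hr hE hCB
  have hr1 : 1 ≤ r := by omega
  obtain ⟨C4, hC4, H4⟩ := h4 r hr1
  obtain ⟨C5, hC5, H5⟩ := h5 r hr1
  obtain ⟨c2, C2, hc2, hC2, H6⟩ := h6 r E hr1 hE hCB
  obtain ⟨_, _, c1, C1, hc1, _, hC1, H1⟩ := hE
  obtain ⟨C8, hC8, _, H8⟩ := h8
  obtain ⟨X0, HX⟩ := h1 (max 10 (max (20 * (C4 + r + r * C8))
    (max (24 * (C1 + 1 + r + r * C8) / (c1 / 2)) (24 * (C2 + 1 + r + r * C8) / (c2 / 2)))))
  refine ⟨C5 + 2 * C4 + C1 + C2, X0, by positivity, ?_⟩
  intro X H x k q hX hH hHX hH0 hk hq hqe hx hxX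
  obtain ⟨hX16, hL, hA, _, hX2⟩ := HX X hX
  have hl : 10 ≤ l2 X := (le_max_left _ _).trans hA
  have hA1 := (le_max_right _ _).trans hA
  have hl1 : 20 * (C4 + r + r * C8) ≤ l2 X := (le_max_left _ _).trans hA1
  have hA2 := (le_max_right _ _).trans hA1
  have hl2 : 24 * (C1 + 1 + r + r * C8) / (c1 / 2) ≤ l2 X := (le_max_left _ _).trans hA2
  have hl3 : 24 * (C2 + 1 + r + r * C8) / (c2 / 2) ≤ l2 X := (le_max_right _ _).trans hA2
  obtain ⟨s1, s2, s3, s4, s5, s6, s7, s8, s9, s10, s11, s12, s13⟩ :=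
    sizes h2 X H x hl hL hX16 hX2 hH hHX hH0 hx hxX
  set z : ℝ := zc X with hz
  set w : ℝ := wc X H with hw
  set S : ℕ := Sc H with hS
  set N : ℕ := ⌊x⌋₊ with hN
  set T : ℝ := Real.log X ^ (r - 1) * Real.exp (-(r * pw z w)) with hT
  set T' : ℝ := Real.exp (-(r * (l2 X + C8))) with hT'
  have hT'0 : 0 < T' := Real.exp_pos _
  have hTT : T' ≤ T := lower r C8 X z w hL (H8 z w s7 s8) s12 s13
  have hT0 : 0 < T := hT'0.trans_le hTT
  have hx0 : 0 < x := by linarith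
  have hq1 : (1 : ℝ) ≤ q := by exact_mod_cast hq
  have hq0 : (0 : ℝ) < q := by linarith
  have hφ : (0 : ℝ) < (Nat.totient q : ℝ) := by exact_mod_cast Nat.totient_pos.2 hq
  have hw1 : 1 ≤ w := by linarith
  have hzq : ∀ p ∈ q.primeFactors, (p : ℝ) ≤ z := by
    intro p hp
    have e1 : (p : ℝ) ≤ q := by exact_mod_cast Nat.le_of_mem_primeFactors hp
    rw [hz, zc_eq]
    linarith
  -- the averages
  have m1 := avg h7 (dr r) N q hq (x * (E q).eval (Real.log x)) (C1 * (q : ℝ) ^ C1 * x ^ (1 - c1))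
    (fun a ha => H1 q a x hq ha s1)
  have m2 := avg h7 (fS r k z w S) N q hq (x * (E0 r k E z w S q).eval (Real.log x))
    (C2 * (q : ℝ) ^ C2 * x ^ (1 - c2))
    (fun a ha => H6 x z w k S q a hk s1 hw1 s4 s5 hq hzq ha)
  -- the sum over the multiples
  have m3 := swap (fun n => dr r n - fS r k z w S n) (fun n => dfree r z w n + tau r z w S n) N q
    (by
      intro n hn
      have e1 := (h3 r z w k S n hr1 hk hn).1
      have e2 := dfree_nonneg r z w n
      rw [abs_le] at e1 ⊢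
      constructor <;> linarith [e1.1, e1.2])
  have m4 : ∀ e ∈ q.divisors, (e : ℝ) * ∑ n ∈ (Finset.Icc 1 N).filter (e ∣ ·),
      (dfree r z w n + tau r z w S n) ≤ x * (dr (3 * r + 1) q * ((C5 + 2 * C4) * T)) := by
    intro e he
    have hed := Nat.dvd_of_mem_divisors he
    have he1 : 1 ≤ e := Nat.pos_of_mem_divisors he
    have he0 : (0 : ℝ) < e := by exact_mod_cast he1
    have heq : (e : ℝ) ≤ q := by exact_mod_cast Nat.le_of_dvd hq hed
    obtain ⟨t1, t2⟩ := s10 e he1 (heq.trans hqe)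
    have hze : ∀ p ∈ e.primeFactors, (p : ℝ) ≤ z := fun p hp =>
      hzq p (Nat.primeFactors_mono hed (by omega) hp)
    have u1 := H5 x z w e s6 s8 he1 hze t1 t2
    have u2 := H4 x z w S e s6 s9 he1 hze t1 s4
    have v1 : dr r e ≤ dr (3 * r + 1) q := dr_le r (3 * r + 1) e q hr1 (by omega) hed hq
    have v2 : dr (3 * r + 1) e ≤ dr (3 * r + 1) q :=
      dr_le (3 * r + 1) (3 * r + 1) e q (by omega) le_rfl hed hq
    have hD0 : 0 ≤ dr (3 * r + 1) q := dr_nonneg _ _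
    have hlx0 : 0 ≤ Real.log x := by linarith
    have w1 : Real.log x ^ (r - 1) * Real.exp (-(r * pw z w)) ≤ T :=
      mul_le_mul_of_nonneg_right (pow_le_pow_left₀ hlx0 s3 _) (Real.exp_pos _).le
    have w2 : Real.log x ^ C4 * (1 / z + Real.exp (-(Real.log S / Real.log w))) ≤ 2 * T := by
      have y1 : Real.log x ^ C4 ≤ Real.log X ^ C4 := Real.rpow_le_rpow hlx0 s3 hC4.le
      have y2 := err1 r C4 C8 X (Real.log S / Real.log w) hC8 hL hl hl1 s11
      have y3 : 0 ≤ 1 / z + Real.exp (-(Real.log S / Real.log w)) := by positivity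
      have y4 : z = Real.exp (l2 X ^ 3) := zc_eq X
      rw [← y4] at y2
      have y5 := mul_le_mul_of_nonneg_right y1 y3
      linarith
    have w3 : 0 ≤ Real.log x ^ (r - 1) * Real.exp (-(r * pw z w)) := by positivity
    have w4 : 0 ≤ Real.log x ^ C4 * (1 / z + Real.exp (-(Real.log S / Real.log w))) := by
      positivity
    rw [Finset.sum_add_distrib, mul_add]
    have k1 : (e : ℝ) * ∑ n ∈ (Finset.Icc 1 N).filter (e ∣ ·), dfree r z w n ≤
        x * (dr (3 * r + 1) q * (C5 * T)) := by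
      calc (e : ℝ) * ∑ n ∈ (Finset.Icc 1 N).filter (e ∣ ·), dfree r z w n
          ≤ e * (C5 * dr r e * (x / e) * Real.log x ^ (r - 1) * Real.exp (-(r * pw z w))) :=
            mul_le_mul_of_nonneg_left u1 he0.le
        _ = x * (dr r e * (C5 * (Real.log x ^ (r - 1) * Real.exp (-(r * pw z w))))) := by
            field_simp
        _ ≤ x * (dr (3 * r + 1) q * (C5 * T)) := by
            refine mul_le_mul_of_nonneg_left ?_ hx0.le
            exact mul_le_mul v1 (mul_le_mul_of_nonneg_left w1 hC5.le) (by positivity) hD0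
    have k2 : (e : ℝ) * ∑ n ∈ (Finset.Icc 1 N).filter (e ∣ ·), tau r z w S n ≤
        x * (dr (3 * r + 1) q * (C4 * (2 * T))) := by
      calc (e : ℝ) * ∑ n ∈ (Finset.Icc 1 N).filter (e ∣ ·), tau r z w S n
          ≤ e * (C4 * dr (3 * r + 1) e * (x / e) * Real.log x ^ C4 *
              (1 / z + Real.exp (-(Real.log S / Real.log w)))) :=
            mul_le_mul_of_nonneg_left u2 he0.le
        _ = x * (dr (3 * r + 1) e * (C4 * (Real.log x ^ C4 *
              (1 / z + Real.exp (-(Real.log S / Real.log w)))))) := by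
            field_simp
        _ ≤ x * (dr (3 * r + 1) q * (C4 * (2 * T))) := by
            refine mul_le_mul_of_nonneg_left ?_ hx0.le
            exact mul_le_mul v2 (mul_le_mul_of_nonneg_left w2 hC4.le) (by positivity) hD0
    calc _ ≤ _ := add_le_add k1 k2
      _ = x * (dr (3 * r + 1) q * ((C5 + 2 * C4) * T)) := by ring
  have m5 : |∑ n ∈ Finset.Icc 1 N, (dr r n - fS r k z w S n) * Gh n q| ≤
      (q.divisors.card : ℝ) * (x * (dr (3 * r + 1) q * ((C5 + 2 * C4) * T))) := by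
    refine m3.trans ((Finset.sum_le_sum m4).trans ?_)
    rw [Finset.sum_const, nsmul_eq_mul]
  have m6 : ∑ n ∈ Finset.Icc 1 N, (dr r n - fS r k z w S n) * Gh n q =
      ∑ n ∈ Finset.Icc 1 N, dr r n * Gh n q - ∑ n ∈ Finset.Icc 1 N, fS r k z w S n * Gh n q := by
    rw [← Finset.sum_sub_distrib]
    exact Finset.sum_congr rfl fun n _ => sub_mul _ _ _
  have n1 := err2 r C1 c1 C8 X x q hC1 hc1 hC8 hL hl hl2 s1 s2 hq1 hqe
  have n2 := err2 r C2 c2 C8 X x q hC2 hc2 hC8 hL hl hl3 s1 s2 hq1 hqe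
  -- the conclusion
  set D : ℝ := (E q - E0 r k E z w S q).eval (Real.log x) with hD
  have hDD : D = (E q).eval (Real.log x) - (E0 r k E z w S q).eval (Real.log x) := by
    rw [hD, Polynomial.eval_sub]
  have f1 : |(Nat.totient q : ℝ) * (x * D)| ≤
      (q.divisors.card : ℝ) * (x * (dr (3 * r + 1) q * ((C5 + 2 * C4) * T))) +
      (Nat.totient q : ℝ) * (C1 * (q : ℝ) ^ C1 * x ^ (1 - c1)) +
      (Nat.totient q : ℝ) * (C2 * (q : ℝ) ^ C2 * x ^ (1 - c2)) := by
    rw [m6] at m5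
    have e1 : (Nat.totient q : ℝ) * (x * D) =
        (Nat.totient q : ℝ) * (x * (E q).eval (Real.log x)) -
        (Nat.totient q : ℝ) * (x * (E0 r k E z w S q).eval (Real.log x)) := by
      rw [hDD]
      ring
    rw [e1]
    rw [abs_le] at m1 m2 m5 ⊢
    constructor <;> linarith [m1.1, m1.2, m2.1, m2.2, m5.1, m5.2]
  have f2 : (Nat.totient q : ℝ) * x * |D| ≤
      (Nat.totient q : ℝ) * x * (bz (3 * r + 1) q * ((C5 + 2 * C4) * T) +
        (C1 + C2) * (1 / q * T')) := by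
    have e1 : (Nat.totient q : ℝ) * x * |D| = |(Nat.totient q : ℝ) * (x * D)| := by
      rw [abs_mul, abs_mul, abs_of_pos hφ, abs_of_pos hx0]
      ring
    rw [e1]
    refine f1.trans ?_
    have e2 : (q.divisors.card : ℝ) * (x * (dr (3 * r + 1) q * ((C5 + 2 * C4) * T))) =
        (Nat.totient q : ℝ) * x * (bz (3 * r + 1) q * ((C5 + 2 * C4) * T)) := by
      unfold bz
      field_simp
    have e3 : (Nat.totient q : ℝ) * (C1 * (q : ℝ) ^ C1 * x ^ (1 - c1)) ≤
        (Nat.totient q : ℝ) * x * (C1 * (1 / q * T')) := by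
      have := mul_le_mul_of_nonneg_left n1 (mul_pos hφ hC1).le
      calc _ = (Nat.totient q : ℝ) * C1 * ((q : ℝ) ^ C1 * x ^ (1 - c1)) := by ring
        _ ≤ _ := this
        _ = _ := by ring
    have e4 : (Nat.totient q : ℝ) * (C2 * (q : ℝ) ^ C2 * x ^ (1 - c2)) ≤
        (Nat.totient q : ℝ) * x * (C2 * (1 / q * T')) := by
      have := mul_le_mul_of_nonneg_left n2 (mul_pos hφ hC2).le
      calc _ = (Nat.totient q : ℝ) * C2 * ((q : ℝ) ^ C2 * x ^ (1 - c2)) := by ring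
        _ ≤ _ := this
        _ = _ := by ring
    rw [e2]
    calc _ ≤ (Nat.totient q : ℝ) * x * (bz (3 * r + 1) q * ((C5 + 2 * C4) * T)) +
          (Nat.totient q : ℝ) * x * (C1 * (1 / q * T')) +
          (Nat.totient q : ℝ) * x * (C2 * (1 / q * T')) := add_le_add (add_le_add le_rfl e3) e4
      _ = _ := by ring
  have f3 : |D| ≤ bz (3 * r + 1) q * ((C5 + 2 * C4) * T) + (C1 + C2) * (1 / q * T') :=
    le_of_mul_le_mul_left f2 (mul_pos hφ hx0)
  have f4 : 1 / (q : ℝ) ≤ bz (3 * r + 1) q := inv_le_bz _ _ (by omega) hq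
  have f5 : bz (3 * r + 1) q ≤ be (3 * r + 1) q := bz_le _ _ hq
  have f6 : 0 < 1 / (q : ℝ) := by positivity
  have f7 : 1 / (q : ℝ) * T' ≤ be (3 * r + 1) q * T :=
    mul_le_mul (f4.trans f5) hTT hT'0.le (f6.le.trans (f4.trans f5))
  have f8 : bz (3 * r + 1) q * ((C5 + 2 * C4) * T) ≤ be (3 * r + 1) q * ((C5 + 2 * C4) * T) :=
    mul_le_mul_of_nonneg_right f5 (by positivity)
  calc |D| ≤ _ := f3
    _ ≤ be (3 * r + 1) q * ((C5 + 2 * C4) * T) + (C1 + C2) * (be (3 * r + 1) q * T) :=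
        add_le_add f8 (mul_le_mul_of_nonneg_left f7 (by positivity))
    _ = (C5 + 2 * C4 + C1 + C2) * be (3 * r + 1) q * T := by ring

end Pool.Agent.Work.MP_122e00_nt.FP
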