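import Pool.Agent.Work.MP_122e00_nt.FP.StmtsA

/-!
# The full polynomial at every scale, item G3: the main term of the unstructured part (helper87)
-/

set_option autoImplicit false

namespace Pool.Agent.Work.MP_122e00_nt.FP

open Finset Filter Topology ArithmeticFunction MeasureTheory
open Pool.Agent.Work.MP_122e00_nt.TS
open scoped ArithmeticFunction.zeta ArithmeticFunction.Moebius

namespace G3x

theorem dr_nonneg (r n : ℕ) : 0 ≤ dr r n := by
  unfold dr
  positivity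

theorem be_nonneg (r q : ℕ) (hq : 1 ≤ q) : 0 ≤ be r q := by
  unfold be
  have h1 : 0 ≤ dr r q := dr_nonneg r q
  have h2 : 0 ≤ Real.log q := Real.log_nonneg (by exact_mod_cast hq)
  positivity

theorem one_le_ll (h : ℕ) : 1 ≤ ll h := by
  unfold ll
  have h0 : (0 : ℝ) ≤ (h : ℝ) := by positivity
  have h1 : Real.exp 1 ≤ Real.log ((h : ℝ) + 16) := by
    have h2 : Real.log 16 ≤ Real.log ((h : ℝ) + 16) :=
      Real.log_le_log (by norm_num) (by linarith)
    have h3 : Real.log 16 = 4 * Real.log 2 := by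
      rw [show (16 : ℝ) = 2 ^ 4 by norm_num, Real.log_pow]
      norm_num
    have h4 := Real.log_two_gt_d9
    have h5 := Real.exp_one_lt_d9
    linarith
  calc (1 : ℝ) = Real.log (Real.exp 1) := (Real.log_exp 1).symm
    _ ≤ _ := Real.log_le_log (Real.exp_pos 1) h1

/-- a polynomial which is small on `[log X / 2, log X]` -/
theorem poly_bound {d : ℕ} {C1 : ℝ} (hC1 : 0 < C1)
    (hG : ∀ p : Polynomial ℝ, p.natDegree ≤ d → ∀ A M : ℝ,
      1 ≤ A → 0 ≤ M → (∀ t ∈ Set.Icc A (2 * A), |p.eval t| ≤ M) → ∀ t ∈ Set.Icc 0 (2 * A),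
      |p.eval t| ≤ C1 * M ∧ |(Polynomial.derivative p).eval t| ≤ C1 * M / A)
    (D : Polynomial ℝ) (hD : D.natDegree ≤ d) (X M : ℝ) (hX : 2 ≤ Real.log X) (hM : 0 ≤ M)
    (hb : ∀ t ∈ Set.Icc (Real.log X / 2) (Real.log X), |D.eval t| ≤ M) (t : ℝ)
    (ht : t ∈ Set.Icc 0 (Real.log X)) : |(ed D).eval t| ≤ 2 * C1 * M := by
  have hA : (1 : ℝ) ≤ Real.log X / 2 := by linarith
  have h2 : 2 * (Real.log X / 2) = Real.log X := by ring
  have h := hG D hD (Real.log X / 2) M hA hM (by rw [h2]; exact hb) t (by rw [h2]; exact ht)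
  obtain ⟨h3, h4⟩ := h
  have h5 : C1 * M / (Real.log X / 2) ≤ C1 * M :=
    div_le_self (mul_nonneg hC1.le hM) hA
  unfold ed
  rw [Polynomial.eval_add]
  calc |D.eval t + (Polynomial.derivative D).eval t|
      ≤ |D.eval t| + |(Polynomial.derivative D).eval t| := abs_add_le _ _
    _ ≤ C1 * M + C1 * M := add_le_add h3 (h4.trans h5)
    _ = 2 * C1 * M := by ring

theorem integral_bound (D : Polynomial ℝ) (X B : ℝ) (hX1 : 1 ≤ X) (hB : 0 ≤ B)
    (hb : ∀ t ∈ Set.Icc 0 (Real.log X), |D.eval t| ≤ B) (f g : Polynomial ℝ) (hfg : f - g = D) :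
    |∫ t in (1 : ℝ)..X, (f.eval (Real.log t) - g.eval (Real.log t)) ^ 2| ≤ B ^ 2 * X := by
  have h1 : ∀ t ∈ Set.uIoc (1 : ℝ) X,
      ‖(f.eval (Real.log t) - g.eval (Real.log t)) ^ 2‖ ≤ B ^ 2 := by
    intro t ht
    rw [Set.uIoc_of_le hX1] at ht
    have h2 : f.eval (Real.log t) - g.eval (Real.log t) = D.eval (Real.log t) := by
      rw [← hfg, Polynomial.eval_sub]
    rw [h2, norm_pow, Real.norm_eq_abs]
    exact pow_le_pow_left₀ (abs_nonneg _)
      (hb _ ⟨Real.log_nonneg ht.1.le, Real.log_le_log (by linarith [ht.1]) ht.2⟩) 2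
  have h3 := intervalIntegral.norm_integral_le_of_norm_le_const h1
  rw [Real.norm_eq_abs] at h3
  refine h3.trans ?_
  rw [abs_of_nonneg (by linarith)]
  exact mul_le_mul_of_nonneg_left (by linarith) (by positivity)

end G3x

theorem pfG3 (h1 : fpG1) (h2 : fpG2) (h3 : fpV1) (h4 : tsZ3) : fpG3 := by
  intro r E hr hAP hCB
  obtain ⟨C1, hC1, hG1⟩ := h1 (r - 1)
  obtain ⟨C2, X2, hC2, hG2⟩ := h2 r E hr hAP hCB
  obtain ⟨C3, -, hV1⟩ := h3 r E (by omega) hAP hCB
  obtain ⟨C4, hC4, hZ3⟩ := h4 (3 * r + 1) (by omega)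
  set C0 : ℝ := 4 * C1 ^ 2 * C2 ^ 2 * C4 with hC0
  have hC0pos : 0 < C0 := by positivity
  refine ⟨max C0 C4, max X2 (Real.exp (Real.exp 1)), lt_max_of_lt_right hC4, ?_⟩
  intro X H k Q h hX hl hHX hH hKK hQ hh
  have hX2 : X2 ≤ X := (le_max_left _ _).trans hX
  have hXe : Real.exp (Real.exp 1) ≤ X := (le_max_right _ _).trans hX
  have hX0 : 0 < X := (Real.exp_pos _).trans_le hXe
  have hlog : Real.exp 1 ≤ Real.log X := by
    rw [← Real.log_exp (Real.exp 1)]
    exact Real.log_le_log (Real.exp_pos _) hXe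
  have he2 : (2 : ℝ) ≤ Real.exp 1 := by
    have := Real.add_one_le_exp (1 : ℝ)
    linarith
  have hlog2 : (2 : ℝ) ≤ Real.log X := he2.trans hlog
  have hX1 : (1 : ℝ) ≤ X := by
    have : (1 : ℝ) ≤ Real.exp (Real.exp 1) := Real.one_le_exp (by positivity)
    linarith
  have hl2 : 0 ≤ l2 X := by
    unfold l2
    exact Real.log_nonneg (by linarith)
  set z := zc X with hz
  set w := wc X H with hw
  have hw1 : (1 : ℝ) ≤ w := by
    rw [hw]
    unfold wc zi
    exact Real.one_le_exp (by positivity)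
  set W : ℝ := Real.log X ^ (r - 1) * Real.exp (-(r * pw z w)) with hW
  have hW0 : 0 ≤ W := by positivity
  -- the degree
  have hdeg : ∀ q, (E q - E0 r k E z w (Sc H) q).natDegree ≤ r - 1 := by
    intro q
    have hv := (hV1 (max 3 (max w (Sc H : ℝ))) z w k (Sc H) q hKK (le_max_left _ _) hw1
      ((le_max_left _ _).trans (le_max_right _ _)) ((le_max_right _ _).trans (le_max_right _ _))).1
    exact (Polynomial.natDegree_sub_le _ _).trans (max_le (hAP.1 q) hv)
  have hterm : ∀ q ∈ Finset.Icc 1 Q, |Gh h q * ∫ t in (1 : ℝ)..X,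
      ((ed (E q)).eval (Real.log t) - (ed (E0 r k E z w (Sc H) q)).eval (Real.log t)) ^ 2| ≤
      (4 * C1 ^ 2 * C2 ^ 2 * W ^ 2 * X) * (|Gh h q| * be (3 * r + 1) q ^ 2) := by
    intro q hq
    rw [Finset.mem_Icc] at hq
    have hbe : 0 ≤ be (3 * r + 1) q := G3x.be_nonneg _ _ hq.1
    have hM : 0 ≤ C2 * be (3 * r + 1) q * W := by positivity
    have hq' : (q : ℝ) ≤ Real.exp (l2 X ^ 3) := by
      refine le_trans ?_ hQ
      exact_mod_cast hq.2
    have hb : ∀ t ∈ Set.Icc (Real.log X / 2) (Real.log X),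
        |(E q - E0 r k E z w (Sc H) q).eval t| ≤ C2 * be (3 * r + 1) q * W := by
      intro t ht
      have hx1 : X ^ (1 / 2 : ℝ) ≤ Real.exp t := by
        rw [Real.rpow_def_of_pos hX0]
        exact Real.exp_le_exp.2 (by linarith [ht.1])
      have hx2 : Real.exp t ≤ X := by
        rw [← Real.exp_log hX0]
        exact Real.exp_le_exp.2 ht.2
      have := hG2 X H (Real.exp t) k q hX2 hl hHX hH hKK hq.1 hq' hx1 hx2
      rwa [Real.log_exp] at this
    have hed := G3x.poly_bound hC1 hG1 (E q - E0 r k E z w (Sc H) q) (hdeg q) X _ hlog2 hM hb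
    have hI := G3x.integral_bound (ed (E q - E0 r k E z w (Sc H) q)) X
      (2 * C1 * (C2 * be (3 * r + 1) q * W)) hX1 (by positivity) hed (ed (E q))
      (ed (E0 r k E z w (Sc H) q)) (by
        unfold ed
        rw [Polynomial.derivative_sub]
        ring)
    rw [abs_mul]
    calc |Gh h q| * _ ≤ |Gh h q| * ((2 * C1 * (C2 * be (3 * r + 1) q * W)) ^ 2 * X) :=
          mul_le_mul_of_nonneg_left hI (abs_nonneg _)
      _ = _ := by ring
  have hsum := hZ3 h Q hh
  have hll := G3x.one_le_ll h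
  have hW2 : W ^ 2 = Real.log X ^ (2 * r - 2) * Real.exp (-(2 * r * pw z w)) := by
    rw [hW, mul_pow, ← pow_mul, ← Real.exp_nat_mul]
    congr 2
    · congr 1
      omega
    · push_cast
      ring
  calc |∑ q ∈ Finset.Icc 1 Q, Gh h q * ∫ t in (1 : ℝ)..X,
        ((ed (E q)).eval (Real.log t) - (ed (E0 r k E z w (Sc H) q)).eval (Real.log t)) ^ 2|
      ≤ ∑ q ∈ Finset.Icc 1 Q, |Gh h q * ∫ t in (1 : ℝ)..X,
        ((ed (E q)).eval (Real.log t) - (ed (E0 r k E z w (Sc H) q)).eval (Real.log t)) ^ 2| :=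
        Finset.abs_sum_le_sum_abs _ _
    _ ≤ ∑ q ∈ Finset.Icc 1 Q,
        (4 * C1 ^ 2 * C2 ^ 2 * W ^ 2 * X) * (|Gh h q| * be (3 * r + 1) q ^ 2) :=
        Finset.sum_le_sum hterm
    _ = (4 * C1 ^ 2 * C2 ^ 2 * W ^ 2 * X) *
        ∑ q ∈ Finset.Icc 1 Q, |Gh h q| * be (3 * r + 1) q ^ 2 := by rw [Finset.mul_sum]
    _ ≤ (4 * C1 ^ 2 * C2 ^ 2 * W ^ 2 * X) * (C4 * ll h ^ C4) :=
        mul_le_mul_of_nonneg_left hsum (by positivity)
    _ = C0 * ll h ^ C4 * (X * W ^ 2) := by rw [hC0]; ring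
    _ ≤ max C0 C4 * ll h ^ (max C0 C4) * (X * W ^ 2) := by
        refine mul_le_mul_of_nonneg_right ?_ (by positivity)
        refine mul_le_mul (le_max_left _ _) ?_ (by positivity) (by positivity)
        exact Real.rpow_le_rpow_of_exponent_le hll (le_max_right _ _)
    _ = _ := by rw [hW2]; ring

end Pool.Agent.Work.MP_122e00_nt.FP
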