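import Pool.Agent.Work.MP_122e00_nt.FP.StmtsB
import Pool.Agent.Work.MP_122e00_nt.TS.I_Y2

set_option autoImplicit false

/-!
# The full polynomial, part B, item H0: a twisted sum of `d_r(n)` with a shifted smooth weight
-/

namespace Pool.Agent.Work.MP_122e00_nt.FP

open Finset Filter Topology ArithmeticFunction MeasureTheory
open Pool.Agent.Work.MP_122e00_nt.TS
open scoped ArithmeticFunction.zeta ArithmeticFunction.Moebius

namespace H0x

/-- the two forms of the exponential -/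
theorem ee_eq (x : ℝ) : Pool.Agent.Work.MP_122e00_nt.ee x = TS.ee x := by
  unfold Pool.Agent.Work.MP_122e00_nt.ee TS.ee
  push_cast
  rfl

theorem dr_zero (r : ℕ) : dr r 0 = 0 := by
  unfold dr
  rw [ArithmeticFunction.map_zero, Nat.cast_zero]

/-- partial sums -/
theorem partial_sum (r : ℕ) (α : ℝ) (N : ℕ) :
    ∑ k ∈ Finset.Icc 0 N, (dr r k : ℂ) * TS.ee ((k : ℝ) * α) = SS (dr r) N α := by
  unfold SS
  rw [← Finset.sum_subset (s₁ := Finset.Icc 1 N) (s₂ := Finset.Icc 0 N)]
  · intro n hn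
    rw [Finset.mem_Icc] at hn ⊢
    omega
  · intro n hn hn'
    have : n = 0 := by
      rw [Finset.mem_Icc] at hn hn'
      omega
    rw [this, dr_zero, Complex.ofReal_zero, zero_mul]

theorem ne_zero_of_mem {X t : ℝ} (ht : t ∈ Set.Icc 1 X) : t ≠ 0 := by
  have := ht.1
  intro h0
  rw [h0] at this
  linarith

theorem log_cont (X : ℝ) : ContinuousOn Real.log (Set.Icc 1 X) :=
  Real.continuousOn_log.mono fun t ht => by
    simp only [Set.mem_compl_iff, Set.mem_singleton_iff]
    exact ne_zero_of_mem ht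

theorem logh_cont (X : ℝ) (h : ℕ) :
    ContinuousOn (fun t : ℝ => Real.log (t + h)) (Set.Icc 1 X) := by
  refine ContinuousOn.log (continuousOn_id.add continuousOn_const) fun t ht => ?_
  have h0 := ht.1
  have h1 : (0 : ℝ) ≤ h := Nat.cast_nonneg h
  show (t : ℝ) + (h : ℝ) ≠ 0
  intro h2
  linarith

/-- `log(t+h) - log t ≤ h/t` -/
theorem log_diff {t : ℝ} (ht0 : 0 < t) (h : ℕ) :
    Real.log (t + h) - Real.log t ≤ h * t⁻¹ := by
  have h1 : (0 : ℝ) ≤ h := Nat.cast_nonneg h
  rw [← Real.log_div (by linarith) ht0.ne']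
  have h3 := Real.log_le_sub_one_of_pos (show 0 < (t + h) / t by positivity)
  have h4 : (t + h) / t - 1 = h * t⁻¹ := by
    field_simp
    ring
  linarith

end H0x

open H0x TS.IY2

/-- item H0 -/
theorem pfH0 : fpH0 := by
  intro r E θ hr hAP hCB hθ0 hθ1
  obtain ⟨hdeg, -, c₀, C₀, hc₀, hc₀4, hC₀, hap⟩ := hAP
  obtain ⟨C1, hC1, hco⟩ := hCB 1 one_pos
  obtain ⟨c, hcd⟩ : ∃ c : ℝ, c = min (c₀ / 2) ((1 - θ) / 2) := ⟨_, rfl⟩
  have hc0 : 0 < c := by rw [hcd]; exact lt_min (by linarith) (by linarith)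
  have hcc : 2 * c ≤ c₀ := by
    have := min_le_left (c₀ / 2) ((1 - θ) / 2)
    rw [← hcd] at this
    linarith
  have hcθ : 2 * c ≤ 1 - θ := by
    have := min_le_right (c₀ / 2) ((1 - θ) / 2)
    rw [← hcd] at this
    linarith
  obtain ⟨R, hR⟩ : ∃ R : ℝ, R = (r : ℝ) + 1 := ⟨_, rfl⟩
  have hR1 : 1 ≤ R := by rw [hR]; linarith [Nat.cast_nonneg (α := ℝ) r]
  obtain ⟨C2, hC2⟩ : ∃ C2 : ℝ, C2 = (R + 1) * C1 := ⟨_, rfl⟩
  have hC2p : 0 < C2 := by rw [hC2]; positivity
  obtain ⟨C, hC⟩ : ∃ C : ℝ, C = 2 * R ^ 2 * C₀ + R ^ 2 * C1 + R ^ 3 * C2 + C₀ := ⟨_, rfl⟩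
  have hCp : 0 < C := by rw [hC]; positivity
  have hCC₀ : C₀ ≤ C := by
    rw [hC]
    have : 0 ≤ 2 * R ^ 2 * C₀ + R ^ 2 * C1 + R ^ 3 * C2 := by positivity
    linarith
  obtain ⟨X0, hX0⟩ := Filter.eventually_atTop.1
    ((logpow3 (2 * r + 1) c hc0).and (eventually_ge_atTop (1 : ℝ)))
  refine ⟨c, C, X0, hc0, hCp, ?_⟩
  intro p M X q h a hX hM hpd hpc hq hcop hh hhX
  obtain ⟨hlog, hX1⟩ := hX0 X hX
  have hXp : 0 < X := by linarith
  have hqr : (1 : ℝ) ≤ q := by exact_mod_cast hq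
  have hhr : (1 : ℝ) ≤ h := by exact_mod_cast hh
  have hXθ1 : 1 ≤ X ^ θ := Real.one_le_rpow hX1 hθ0.le
  have hhX' : (h : ℝ) ≤ X := by
    refine hhX.trans ?_
    have := Real.rpow_le_rpow_of_exponent_le hX1 hθ1.le
    rwa [Real.rpow_one] at this
  obtain ⟨L, hL⟩ : ∃ L : ℝ, L = 1 + Real.log (3 * X) := ⟨_, rfl⟩
  rw [← hL] at hlog
  have hL1 : 1 ≤ L := by
    have := Real.log_nonneg (show (1 : ℝ) ≤ 3 * X by linarith)
    linarith
  have hlogL : ∀ t : ℝ, 1 ≤ t → t ≤ 2 * X → Real.log t ≤ L := by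
    intro t ht1 ht2
    have := Real.log_le_log (by linarith) (show t ≤ 3 * X by linarith)
    linarith
  have hlXL : Real.log X ≤ L := hlogL X hX1 (by linarith)
  have hlX0 : 0 ≤ Real.log X := Real.log_nonneg hX1
  -- the coefficients
  have hec : ∀ j, |(E q).coeff j| ≤ C1 := by
    intro j
    have := hco q j hq
    rwa [sub_self, Real.rpow_zero, mul_one] at this
  have hed : (E q).natDegree ≤ r := (hdeg q).trans (by omega)
  have hpd' : p.natDegree ≤ r := hpd.trans (by omega)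
  have hedc : ∀ j, |(ed (E q)).coeff j| ≤ C2 := by
    intro j
    unfold ed
    rw [Polynomial.coeff_add, hC2]
    have h1 := hec j
    have h2 := dc r (E q) hed C1 hC1.le hec j
    rw [← hR] at h2
    have h3 := abs_add_le ((E q).coeff j) ((Polynomial.derivative (E q)).coeff j)
    linarith
  have hedd : (ed (E q)).natDegree ≤ r := by
    unfold ed
    exact (Polynomial.natDegree_add_le _ _).trans (max_le hed (dd r _ hed))
  -- the functions
  obtain ⟨α, hα⟩ : ∃ α : ℝ, α = (a : ℝ) / q := ⟨_, rfl⟩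
  have hsum : ∑ n ∈ Finset.Icc 1 ⌊X⌋₊, ((p.eval (Real.log ((n : ℝ) + h)) * dr r n : ℝ) : ℂ) *
      ee ((n : ℝ) * (a / q)) =
      ∑ k ∈ Finset.Icc 0 ⌊X⌋₊, ((p.eval (Real.log ((k : ℝ) + h)) : ℝ) : ℂ) *
        ((dr r k : ℂ) * TS.ee ((k : ℝ) * α)) := by
    rw [← Finset.sum_subset (s₁ := Finset.Icc 1 ⌊X⌋₊) (s₂ := Finset.Icc 0 ⌊X⌋₊)]
    · refine Finset.sum_congr rfl fun n hn => ?_
      rw [← hα, ee_eq]
      push_cast
      ring
    · intro n hn
      rw [Finset.mem_Icc] at hn ⊢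
      omega
    · intro n hn hn'
      have : n = 0 := by
        rw [Finset.mem_Icc] at hn hn'
        omega
      rw [this, dr_zero, Complex.ofReal_zero, zero_mul, mul_zero]
  rw [hsum]
  obtain ⟨B, hB⟩ : ∃ B : ℝ, B = C₀ * (q : ℝ) ^ C₀ * X ^ (1 - c₀) := ⟨_, rfl⟩
  have hB0 : 0 ≤ B := by rw [hB]; positivity
  have hmain := core (fun t => p.eval (Real.log (t + h)))
    (fun t => (Polynomial.derivative p).eval (Real.log (t + h)) * (t + h)⁻¹)
    (fun t => t * (E q).eval (Real.log t))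
    (fun t => (ed (E q)).eval (Real.log t))
    (fun t => (ed (E q)).eval (Real.log t))
    (fun k => (dr r k : ℂ) * TS.ee ((k : ℝ) * α)) X B (R * M * L ^ r) (R * (R * M) * L ^ r)
    (R * C1 * L ^ r) 0 hX1
    (by
      show (dr r 0 : ℂ) * _ = 0
      rw [dr_zero, Complex.ofReal_zero, zero_mul])
    (fun t ht => by
      have ht0 : t + h ≠ 0 := by
        have := ht.1
        intro h0
        linarith
      have h1 : HasDerivAt (fun t : ℝ => t + (h : ℝ)) 1 t := (hasDerivAt_id t).add_const _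
      have h2 : HasDerivAt (fun t : ℝ => Real.log (t + h)) (1 / (t + h)) t := h1.log ht0
      have h3 : HasDerivAt (fun t : ℝ => p.eval (Real.log (t + h)))
          ((Polynomial.derivative p).eval (Real.log (t + h)) * (1 / (t + h))) t :=
        HasDerivAt.comp (h₂ := fun x => p.eval x) t (p.hasDerivAt (Real.log (t + h))) h2
      rw [one_div] at h3
      exact h3)
    (by
      refine ((Polynomial.continuous _).comp_continuousOn (logh_cont X h)).mul ?_
      refine ContinuousOn.inv₀ (continuousOn_id.add continuousOn_const) fun t ht => ?_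
      have h0 := ht.1
      show (t : ℝ) + (h : ℝ) ≠ 0
      intro h2
      linarith)
    (fun t ht => by
      have ht0 : t ≠ 0 := ne_zero_of_mem ht
      have h3 : HasDerivAt (fun t : ℝ => (E q).eval (Real.log t))
          ((Polynomial.derivative (E q)).eval (Real.log t) * t⁻¹) t :=
        HasDerivAt.comp (h₂ := fun x => (E q).eval x) t ((E q).hasDerivAt (Real.log t))
          (Real.hasDerivAt_log ht0)
      have h4 := (hasDerivAt_id t).mul h3
      refine h4.congr_deriv ?_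
      unfold ed
      rw [Polynomial.eval_add]
      show 1 * (E q).eval (Real.log t) + t * ((Polynomial.derivative (E q)).eval (Real.log t) * t⁻¹)
        = _
      field_simp)
    ((Polynomial.continuous _).comp_continuousOn (log_cont X))
    ((Polynomial.continuous _).comp_continuousOn (log_cont X))
    (fun t ht => by
      rw [partial_sum]
      have e1 := hap q a t hq hcop ht.1
      rw [← hα] at e1
      refine e1.trans ?_
      rw [hB]
      refine mul_le_mul_of_nonneg_left ?_ (by positivity)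
      exact Real.rpow_le_rpow (by linarith [ht.1]) ht.2 (by linarith))
    (by positivity)
    (fun t ht => by
      rw [hR]
      exact pe r p hpd' M L _ hM hpc (Real.log_nonneg (by linarith [ht.1])) hL1
        (hlogL _ (by linarith [ht.1]) (by linarith [ht.2])))
    (fun t ht => by
      have ht0 : 0 < t := by linarith [ht.1]
      have hth : 0 < t + h := by linarith
      rw [abs_mul, abs_of_pos (inv_pos.2 hth)]
      have k1 : |(Polynomial.derivative p).eval (Real.log (t + h))| ≤ R * (R * M) * L ^ r := by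
        rw [hR]
        exact pe r _ (dd r p hpd') _ L _ (by positivity) (dc r p hpd' M hM hpc)
          (Real.log_nonneg (by linarith [ht.1])) hL1
          (hlogL _ (by linarith [ht.1]) (by linarith [ht.2]))
      have k2 : (t + h)⁻¹ ≤ t⁻¹ := inv_anti₀ ht0 (by linarith)
      exact mul_le_mul k1 k2 (inv_pos.2 hth).le (by positivity))
    (by positivity)
    (by
      rw [Real.log_one, one_mul, hR]
      exact pe r _ hed C1 L 0 hC1.le hec le_rfl hL1 (by linarith))
    (fun t _ => by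
      rw [sub_self, abs_zero, zero_mul])
  rw [mul_zero, zero_mul, add_zero] at hmain
  -- the shift of the weight
  have hwi1 : IntervalIntegrable (fun t => p.eval (Real.log (t + h)) *
      (ed (E q)).eval (Real.log t)) volume 1 X := by
    apply ContinuousOn.intervalIntegrable
    rw [Set.uIcc_of_le hX1]
    exact ((Polynomial.continuous _).comp_continuousOn (logh_cont X h)).mul
      ((Polynomial.continuous _).comp_continuousOn (log_cont X))
  have hwi2 : IntervalIntegrable (fun t => p.eval (Real.log t) *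
      (ed (E q)).eval (Real.log t)) volume 1 X := by
    apply ContinuousOn.intervalIntegrable
    rw [Set.uIcc_of_le hX1]
    exact ((Polynomial.continuous _).comp_continuousOn (log_cont X)).mul
      ((Polynomial.continuous _).comp_continuousOn (log_cont X))
  have hshift : |(∫ t in (1 : ℝ)..X, p.eval (Real.log (t + h)) * (ed (E q)).eval (Real.log t)) -
      ∫ t in (1 : ℝ)..X, p.eval (Real.log t) * (ed (E q)).eval (Real.log t)| ≤
      (R * (R * M) * L ^ r * h * (R * C2 * L ^ r)) * Real.log X := by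
    rw [← intervalIntegral.integral_sub hwi1 hwi2,
      ← int_inv (R * (R * M) * L ^ r * h * (R * C2 * L ^ r)) X hX1, ← Real.norm_eq_abs]
    refine intervalIntegral.norm_integral_le_of_norm_le hX1 ?_ (int_inv_int _ X hX1)
    refine Filter.Eventually.of_forall fun t ht => ?_
    have ht1 : 1 ≤ t := ht.1.le
    have ht2 : t ≤ X := ht.2
    have ht0 : 0 < t := by linarith
    have h1 := pd r p hpd' M L (Real.log t) (Real.log (t + h)) hM hpc
      (Real.log_nonneg ht1) hL1 (Real.log_le_log ht0 (by linarith))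
      (hlogL _ (by linarith) (by linarith))
    rw [← hR] at h1
    have h2 := log_diff ht0 h
    have h3 : |(ed (E q)).eval (Real.log t)| ≤ R * C2 * L ^ r := by
      rw [hR]
      exact pe r _ hedd C2 L _ hC2p.le hedc (Real.log_nonneg ht1) hL1
        (hlogL _ ht1 (by linarith))
    rw [Real.norm_eq_abs, ← sub_mul, abs_mul]
    calc |p.eval (Real.log (t + h)) - p.eval (Real.log t)| * |(ed (E q)).eval (Real.log t)| ≤
          (R * (R * M) * L ^ r * (h * t⁻¹)) * (R * C2 * L ^ r) := by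
          refine mul_le_mul (h1.trans ?_) h3 (abs_nonneg _) (by positivity)
          exact mul_le_mul_of_nonneg_left h2 (by positivity)
      _ = (R * (R * M) * L ^ r * h * (R * C2 * L ^ r)) * t⁻¹ := by ring
  have htri : ‖∑ k ∈ Finset.Icc 0 ⌊X⌋₊, ((p.eval (Real.log ((k : ℝ) + h)) : ℝ) : ℂ) *
        ((dr r k : ℂ) * TS.ee ((k : ℝ) * α)) -
      ((∫ t in (1 : ℝ)..X, p.eval (Real.log t) * (ed (E q)).eval (Real.log t) : ℝ) : ℂ)‖ ≤
      (R * M * L ^ r * B + R * (R * M) * L ^ r * B * Real.log X +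
        R * M * L ^ r * (R * C1 * L ^ r)) +
      (R * (R * M) * L ^ r * h * (R * C2 * L ^ r)) * Real.log X := by
    have e : ∑ k ∈ Finset.Icc 0 ⌊X⌋₊, ((p.eval (Real.log ((k : ℝ) + h)) : ℝ) : ℂ) *
        ((dr r k : ℂ) * TS.ee ((k : ℝ) * α)) -
      ((∫ t in (1 : ℝ)..X, p.eval (Real.log t) * (ed (E q)).eval (Real.log t) : ℝ) : ℂ) =
      (∑ k ∈ Finset.Icc 0 ⌊X⌋₊, ((p.eval (Real.log ((k : ℝ) + h)) : ℝ) : ℂ) *
        ((dr r k : ℂ) * TS.ee ((k : ℝ) * α)) -
        ((∫ t in (1 : ℝ)..X, p.eval (Real.log (t + h)) *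
          (ed (E q)).eval (Real.log t) : ℝ) : ℂ)) +
      (((∫ t in (1 : ℝ)..X, p.eval (Real.log (t + h)) * (ed (E q)).eval (Real.log t)) -
        ∫ t in (1 : ℝ)..X, p.eval (Real.log t) * (ed (E q)).eval (Real.log t) : ℝ) : ℂ) := by
      push_cast
      ring
    rw [e]
    refine (norm_add_le _ _).trans (add_le_add hmain ?_)
    rw [Complex.norm_real, Real.norm_eq_abs]
    exact hshift
  refine htri.trans ?_
  -- the final estimate
  have hqC : (q : ℝ) ^ C₀ ≤ (q : ℝ) ^ C := Real.rpow_le_rpow_of_exponent_le hqr hCC₀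
  have hqC1 : 1 ≤ (q : ℝ) ^ C := Real.one_le_rpow hqr hCp.le
  have hLr : L ^ (r + 1) ≤ L ^ (2 * r + 1) := pow_le_pow_right₀ hL1 (by omega)
  have hLr2 : L ^ (2 * r) ≤ L ^ (2 * r + 1) := pow_le_pow_right₀ hL1 (by omega)
  have hLr3 : L ^ r ≤ L ^ (r + 1) := pow_le_pow_right₀ hL1 (by omega)
  have hXc1 : X ^ (1 - c₀) * X ^ c ≤ X ^ (1 - c) := by
    rw [← Real.rpow_add hXp]
    exact Real.rpow_le_rpow_of_exponent_le hX1 (by linarith)
  have hXc2 : X ^ θ * X ^ c ≤ X ^ (1 - c) := by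
    rw [← Real.rpow_add hXp]
    exact Real.rpow_le_rpow_of_exponent_le hX1 (by linarith)
  have hBle : B ≤ C₀ * (q : ℝ) ^ C * X ^ (1 - c₀) := by
    rw [hB]
    gcongr
  have hP1 : L ^ (r + 1) * B ≤ C₀ * (q : ℝ) ^ C * X ^ (1 - c) := by
    calc L ^ (r + 1) * B ≤ X ^ c * (C₀ * (q : ℝ) ^ C * X ^ (1 - c₀)) :=
          mul_le_mul (hLr.trans hlog) hBle hB0 (by positivity)
      _ = C₀ * (q : ℝ) ^ C * (X ^ (1 - c₀) * X ^ c) := by ring
      _ ≤ C₀ * (q : ℝ) ^ C * X ^ (1 - c) := by gcongr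
  have hP2 : (h : ℝ) * L ^ (2 * r + 1) ≤ X ^ (1 - c) := by
    calc (h : ℝ) * L ^ (2 * r + 1) ≤ X ^ θ * X ^ c :=
          mul_le_mul hhX hlog (by positivity) (by positivity)
      _ ≤ X ^ (1 - c) := hXc2
  have t1 : R * M * L ^ r * B ≤ R ^ 2 * M * (L ^ (r + 1) * B) := by
    calc R * M * L ^ r * B ≤ (R ^ 2) * M * L ^ (r + 1) * B := by
          have : R ≤ R ^ 2 := by nlinarith
          gcongr
      _ = _ := by ring
  have t2 : R * (R * M) * L ^ r * B * Real.log X ≤ R ^ 2 * M * (L ^ (r + 1) * B) := by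
    calc R * (R * M) * L ^ r * B * Real.log X ≤ R * (R * M) * L ^ r * B * L := by gcongr
      _ = _ := by ring
  have t3 : R * M * L ^ r * (R * C1 * L ^ r) ≤
      R ^ 2 * C1 * M * (h * L ^ (2 * r + 1)) := by
    calc R * M * L ^ r * (R * C1 * L ^ r) =
          R ^ 2 * C1 * M * (1 * L ^ (2 * r)) := by
          rw [two_mul r, pow_add]
          ring
      _ ≤ R ^ 2 * C1 * M * (h * L ^ (2 * r + 1)) := by
          gcongr
  have t4 : (R * (R * M) * L ^ r * h * (R * C2 * L ^ r)) * Real.log X ≤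
      R ^ 3 * C2 * M * (h * L ^ (2 * r + 1)) := by
    calc (R * (R * M) * L ^ r * h * (R * C2 * L ^ r)) * Real.log X ≤
          (R * (R * M) * L ^ r * h * (R * C2 * L ^ r)) * L := by gcongr
      _ = _ := by
          rw [pow_succ L (2 * r), two_mul r, pow_add]
          ring
  have hM1 : 0 ≤ R ^ 2 * M := by positivity
  have u1 := mul_le_mul_of_nonneg_left hP1 hM1
  have u2 := mul_le_mul_of_nonneg_left hP2 (show 0 ≤ R ^ 2 * C1 * M by positivity)
  have u3 := mul_le_mul_of_nonneg_left hP2 (show 0 ≤ R ^ 3 * C2 * M by positivity)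
  have hXc0 : 0 ≤ X ^ (1 - c) := by positivity
  have v2 : X ^ (1 - c) ≤ (q : ℝ) ^ C * X ^ (1 - c) := le_mul_of_one_le_left hXc0 hqC1
  have w2 := mul_le_mul_of_nonneg_left v2 (show 0 ≤ R ^ 2 * C1 * M by positivity)
  have w3 := mul_le_mul_of_nonneg_left v2 (show 0 ≤ R ^ 3 * C2 * M by positivity)
  calc _ ≤ 2 * (R ^ 2 * M * (C₀ * (q : ℝ) ^ C * X ^ (1 - c))) +
        R ^ 2 * C1 * M * ((q : ℝ) ^ C * X ^ (1 - c)) +
        R ^ 3 * C2 * M * ((q : ℝ) ^ C * X ^ (1 - c)) := by linarith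
    _ = (2 * R ^ 2 * C₀ + R ^ 2 * C1 + R ^ 3 * C2) * (M * ((q : ℝ) ^ C * X ^ (1 - c))) := by
        ring
    _ ≤ C * (M * ((q : ℝ) ^ C * X ^ (1 - c))) := by
        refine mul_le_mul_of_nonneg_right ?_ (by positivity)
        rw [hC]
        linarith
    _ = C * M * (q : ℝ) ^ C * X ^ (1 - c) := by ring

end Pool.Agent.Work.MP_122e00_nt.FP
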