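import Pool.Agent.Work.MP_122e00_nt.FP.StmtsB
import Pool.Agent.Work.MP_122e00_nt.TS.I_Y3

/-!
# The full polynomial at every scale, item H1: the correlation of `d_r` with a model, for every shift
-/

set_option autoImplicit false

namespace Pool.Agent.Work.MP_122e00_nt.FP

open Finset Filter Topology ArithmeticFunction MeasureTheory
open Pool.Agent.Work.MP_122e00_nt.TS
open scoped ArithmeticFunction.zeta ArithmeticFunction.Moebius

namespace H1x

/-- in this namespace `ee` is the function of `LSAdd.lean`; it is equal to `TS.ee` -/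
theorem ee_eq (x : ℝ) : ee x = TS.ee x := by
  unfold ee TS.ee
  push_cast
  rfl

theorem ee_add (x y : ℝ) : ee (x + y) = ee x * ee y := by
  simp only [ee_eq]
  exact IY3.ee_add x y

theorem norm_ee (x : ℝ) : ‖ee x‖ = 1 := by
  rw [ee_eq]
  exact IY3.norm_ee x

theorem rama (hE1 : tsE1) (q n : ℕ) (hq : 1 ≤ q) :
    ((Gh n q : ℝ) : ℂ) =
      ∑ a ∈ (Finset.range q).filter (fun a => Nat.Coprime a q), ee ((n : ℝ) * a / q) := by
  rw [← hE1 q n hq]
  exact Finset.sum_congr rfl fun a _ => (ee_eq _).symm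

/-- one denominator -/
theorem one (hE1 : tsE1) (p : Polynomial ℝ) (r N h q : ℕ) (hq : 1 ≤ q) (I B : ℝ) (hB : 0 ≤ B)
    (hb : ∀ a : ℕ, Nat.Coprime a q → ‖∑ n ∈ Finset.Icc 1 N,
      ((p.eval (Real.log ((n : ℝ) + h)) * dr r n : ℝ) : ℂ) * ee ((n : ℝ) * (a / q)) -
        (I : ℂ)‖ ≤ B) :
    |∑ n ∈ Finset.Icc 1 N, dr r n * (Gh (n + h) q * p.eval (Real.log ((n + h : ℕ) : ℝ))) -
      Gh h q * I| ≤ q * B := by
  set A := (Finset.range q).filter (fun a => Nat.Coprime a q) with hA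
  have e1 : ((∑ n ∈ Finset.Icc 1 N, dr r n * (Gh (n + h) q *
        p.eval (Real.log ((n + h : ℕ) : ℝ))) : ℝ) : ℂ) =
      ∑ a ∈ A, ee ((h : ℝ) * a / q) * ∑ n ∈ Finset.Icc 1 N,
        ((p.eval (Real.log ((n : ℝ) + h)) * dr r n : ℝ) : ℂ) * ee ((n : ℝ) * (a / q)) := by
    rw [Complex.ofReal_sum]
    simp only [Finset.mul_sum]
    rw [Finset.sum_comm]
    refine Finset.sum_congr rfl fun n _ => ?_
    have e2 : ((Gh (n + h) q : ℝ) : ℂ) = ∑ a ∈ A, ee (((n + h : ℕ) : ℝ) * a / q) :=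
      rama hE1 q (n + h) hq
    have e0 : dr r n * (Gh (n + h) q * p.eval (Real.log ((n + h : ℕ) : ℝ))) =
        Gh (n + h) q * (p.eval (Real.log ((n : ℝ) + h)) * dr r n) := by
      rw [Nat.cast_add]
      ring
    rw [e0, Complex.ofReal_mul, e2, Finset.sum_mul]
    refine Finset.sum_congr rfl fun a _ => ?_
    have e3 : ee (((n + h : ℕ) : ℝ) * a / q) = ee ((h : ℝ) * a / q) * ee ((n : ℝ) * (a / q)) := by
      rw [← ee_add]
      congr 1
      rw [Nat.cast_add]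
      ring
    rw [e3]
    ring
  have e4 : ((Gh h q * I : ℝ) : ℂ) = ∑ a ∈ A, ee ((h : ℝ) * a / q) * (I : ℂ) := by
    have e5 : ((Gh h q : ℝ) : ℂ) = ∑ a ∈ A, ee ((h : ℝ) * a / q) := rama hE1 q h hq
    rw [Complex.ofReal_mul, e5, Finset.sum_mul]
  have e7 : |∑ n ∈ Finset.Icc 1 N, dr r n * (Gh (n + h) q *
        p.eval (Real.log ((n + h : ℕ) : ℝ))) - Gh h q * I| =
      ‖∑ a ∈ A, ee ((h : ℝ) * a / q) * (∑ n ∈ Finset.Icc 1 N,
        ((p.eval (Real.log ((n : ℝ) + h)) * dr r n : ℝ) : ℂ) * ee ((n : ℝ) * (a / q)) -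
          (I : ℂ))‖ := by
    rw [← Real.norm_eq_abs, ← Complex.norm_real, Complex.ofReal_sub, e1, e4,
      ← Finset.sum_sub_distrib]
    congr 1
    refine Finset.sum_congr rfl fun a _ => ?_
    rw [mul_sub]
  rw [e7]
  calc _ ≤ ∑ a ∈ A, B := by
        refine (norm_sum_le _ _).trans (Finset.sum_le_sum fun a ha => ?_)
        rw [norm_mul, norm_ee, one_mul]
        exact hb a (Finset.mem_filter.1 ha).2
    _ = (A.card : ℝ) * B := by rw [Finset.sum_const, nsmul_eq_mul]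
    _ ≤ q * B := by
        refine mul_le_mul_of_nonneg_right ?_ hB
        have : A.card ≤ q := (Finset.card_filter_le _ _).trans (by rw [Finset.card_range])
        exact_mod_cast this

theorem cor_eq (E' : ℕ → Polynomial ℝ) (r Q N h : ℕ) :
    cor (dr r) (fs E' Q) N h = ∑ q ∈ Finset.Icc 1 Q, ∑ n ∈ Finset.Icc 1 N,
      dr r n * (Gh (n + h) q * (ed (E' q)).eval (Real.log ((n + h : ℕ) : ℝ))) := by
  unfold cor fs
  rw [Finset.sum_comm]
  refine Finset.sum_congr rfl fun n _ => ?_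
  rw [Finset.mul_sum]

end H1x

/-- H1 -/
theorem pfH1 (hE1 : tsE1) (hH0 : fpH0) : fpH1 := by
  intro r E θ hr hAP hCB hθ hθ1
  obtain ⟨c, C, X0, hc, hC, hY⟩ := hH0 r E θ hr hAP hCB hθ hθ1
  have hC2 : 0 < C + 2 := by linarith
  refine ⟨c / (2 * (C + 2)), c / 4, max X0 (max 1 ((C * r) ^ (4 / c))), by positivity,
    by positivity, ?_⟩
  intro E' M X Q h hX hM hdeg hco hQ hh hhX
  have hX0 : X0 ≤ X := (le_max_left _ _).trans hX
  have hX1 : 1 ≤ X := (le_max_left _ _).trans ((le_max_right _ _).trans hX)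
  have hX2 : (C * r) ^ (4 / c) ≤ X := (le_max_right _ _).trans ((le_max_right _ _).trans hX)
  have hXp : 0 < X := by linarith
  have hr0 : (0 : ℝ) ≤ r := Nat.cast_nonneg r
  have hrM : 0 ≤ r * M := mul_nonneg hr0 hM
  have hXc : 0 ≤ X ^ (1 - c) := Real.rpow_nonneg hXp.le _
  have hCr : C * r ≤ X ^ (c / 4) := by
    have h1 : ((C * r) ^ (4 / c)) ^ (c / 4) ≤ X ^ (c / 4) :=
      Real.rpow_le_rpow (Real.rpow_nonneg (mul_nonneg hC.le hr0) _) hX2 (by positivity)
    rw [← Real.rpow_mul (mul_nonneg hC.le hr0)] at h1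
    have h2 : 4 / c * (c / 4) = 1 := by field_simp
    rwa [h2, Real.rpow_one] at h1
  rw [H1x.cor_eq, ← Finset.sum_sub_distrib]
  have key : ∀ q ∈ Finset.Icc 1 Q, |∑ n ∈ Finset.Icc 1 ⌊X⌋₊,
      dr r n * (Gh (n + h) q * (ed (E' q)).eval (Real.log ((n + h : ℕ) : ℝ))) -
      Gh h q * ∫ t in (1 : ℝ)..X, (ed (E' q)).eval (Real.log t) * (ed (E q)).eval (Real.log t)| ≤
      Q * (C * (r * M) * (Q : ℝ) ^ C * X ^ (1 - c)) := by
    intro q hq
    rw [Finset.mem_Icc] at hq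
    have hqQ : (q : ℝ) ≤ Q := by exact_mod_cast hq.2
    have hq0 : (0 : ℝ) ≤ q := Nat.cast_nonneg q
    have hB : 0 ≤ C * (r * M) * (q : ℝ) ^ C * X ^ (1 - c) :=
      mul_nonneg (mul_nonneg (mul_nonneg hC.le hrM) (Real.rpow_nonneg hq0 _)) hXc
    have h1 := H1x.one hE1 (ed (E' q)) r ⌊X⌋₊ h q hq.1
      (∫ t in (1 : ℝ)..X, (ed (E' q)).eval (Real.log t) * (ed (E q)).eval (Real.log t))
      (C * (r * M) * (q : ℝ) ^ C * X ^ (1 - c)) hB (fun a ha => by
        have h2 := hY (ed (E' q)) (r * M) X q h (a : ℤ) hX0 hrM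
          (IY3.ed_natDegree _ _ (hdeg q))
          (IY3.ed_coeff _ r M hr (hdeg q) hM (fun j => hco q j hq.1)) hq.1
          (Nat.isCoprime_iff_coprime.2 ha) hh hhX
        rw [Int.cast_natCast] at h2
        exact h2)
    refine h1.trans (mul_le_mul hqQ ?_ hB (Nat.cast_nonneg Q))
    refine mul_le_mul_of_nonneg_right ?_ hXc
    exact mul_le_mul_of_nonneg_left (Real.rpow_le_rpow hq0 hqQ hC.le) (mul_nonneg hC.le hrM)
  rcases Nat.eq_zero_or_pos Q with hQ0 | hQ0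
  · subst hQ0
    simp only [Nat.not_lt_zero, zero_lt_one, Finset.Icc_eq_empty_of_lt, Finset.sum_empty, abs_zero]
    exact mul_nonneg hM (Real.rpow_nonneg hXp.le _)
  · have hQp : (0 : ℝ) < Q := by exact_mod_cast hQ0
    have hQpow : (Q : ℝ) * Q * (Q : ℝ) ^ C ≤ X ^ (c / 2) := by
      have h1 : (Q : ℝ) * Q * (Q : ℝ) ^ C = (Q : ℝ) ^ (C + 2) := by
        rw [Real.rpow_add hQp]
        have : (Q : ℝ) ^ (2 : ℝ) = (Q : ℝ) * Q := by
          rw [show (2 : ℝ) = ((2 : ℕ) : ℝ) by norm_num, Real.rpow_natCast]; ring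
        rw [this]
        ring
      rw [h1]
      calc (Q : ℝ) ^ (C + 2) ≤ (X ^ (c / (2 * (C + 2)))) ^ (C + 2) :=
            Real.rpow_le_rpow hQp.le hQ hC2.le
        _ = X ^ (c / 2) := by
            rw [← Real.rpow_mul hXp.le]
            congr 1
            field_simp
    calc _ ≤ ∑ q ∈ Finset.Icc 1 Q, Q * (C * (r * M) * (Q : ℝ) ^ C * X ^ (1 - c)) :=
          (Finset.abs_sum_le_sum_abs _ _).trans (Finset.sum_le_sum key)
      _ = (C * r) * M * ((Q : ℝ) * Q * (Q : ℝ) ^ C) * X ^ (1 - c) := by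
          rw [Finset.sum_const, Nat.card_Icc, nsmul_eq_mul, Nat.add_sub_cancel]
          ring
      _ ≤ X ^ (c / 4) * M * X ^ (c / 2) * X ^ (1 - c) := by
          refine mul_le_mul_of_nonneg_right ?_ hXc
          refine mul_le_mul (mul_le_mul_of_nonneg_right hCr hM) hQpow ?_ ?_
          · exact mul_nonneg (mul_nonneg hQp.le hQp.le) (Real.rpow_nonneg hQp.le _)
          · exact mul_nonneg (Real.rpow_nonneg hXp.le _) hM
      _ = M * X ^ (1 - c / 4) := by
          have : X ^ (1 - c / 4) = X ^ (c / 4) * X ^ (c / 2) * X ^ (1 - c) := by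
            rw [← Real.rpow_add hXp, ← Real.rpow_add hXp]
            congr 1
            ring
          rw [this]
          ring

end Pool.Agent.Work.MP_122e00_nt.FP
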