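import Pool.Agent.Work.MP_122e00_nt.FP.StmtsC

/-!
# Item L1: sums of divisor functions
-/

namespace Pool.Agent.Work.MP_122e00_nt.FP

open Finset Filter Topology ArithmeticFunction
open Pool.Agent.Work.MP_122e00_nt.TS
open scoped ArithmeticFunction.zeta ArithmeticFunction.Moebius

namespace L1x

lemma harm (N : ℕ) : ∑ n ∈ Finset.Icc 1 N, (1 : ℝ) / n ≤ 1 + Real.log N := by
  have h := harmonic_le_one_add_log N
  rw [harmonic_eq_sum_Icc] at h
  push_cast at h
  simpa only [one_div] using h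

lemma dr_nonneg (r n : ℕ) : 0 ≤ dr r n := Nat.cast_nonneg _

lemma dr_succ (r n : ℕ) : dr (r + 1) n = ∑ x ∈ n.divisorsAntidiagonal, dr r x.1 := by
  unfold dr
  rw [pow_succ, ArithmeticFunction.mul_apply, Nat.cast_sum]
  refine Finset.sum_congr rfl fun x hx => ?_
  have h2 : x.2 ≠ 0 := by
    have := Nat.mem_divisorsAntidiagonal.1 hx
    rintro h
    exact this.2 (by rw [← this.1, h, mul_zero])
  rw [ArithmeticFunction.zeta_apply, if_neg h2, mul_one]

lemma dA_eq (N n : ℕ) (hn : n ∈ Finset.Icc 1 N) : n.divisorsAntidiagonal =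
    (Finset.Icc 1 N ×ˢ Finset.Icc 1 N).filter (fun x => x.1 * x.2 = n) := by
  rw [Finset.mem_Icc] at hn
  ext ⟨x, y⟩
  simp only [Nat.mem_divisorsAntidiagonal, Finset.mem_filter, Finset.mem_product, Finset.mem_Icc]
  constructor
  · rintro ⟨h1, h2⟩
    have hx : x ≠ 0 := by rintro rfl; rw [zero_mul] at h1; omega
    have hy : y ≠ 0 := by rintro rfl; rw [mul_zero] at h1; omega
    have h3 : x ≤ x * y := Nat.le_mul_of_pos_right x (by omega)
    have h4 : y ≤ x * y := Nat.le_mul_of_pos_left y (by omega)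
    exact ⟨⟨⟨by omega, by omega⟩, ⟨by omega, by omega⟩⟩, h1⟩
  · rintro ⟨-, h1⟩
    exact ⟨h1, by omega⟩

/-- the logarithmic sum of the divisor function -/
lemma logsum (r N : ℕ) : ∑ n ∈ Finset.Icc 1 N, dr r n / n ≤ (1 + Real.log N) ^ r := by
  have hlog : 0 ≤ Real.log N := Real.log_natCast_nonneg N
  induction r with
  | zero =>
    rw [pow_zero]
    have h1 : ∀ n ∈ Finset.Icc 1 N, dr 0 n / n ≤ if n = 1 then 1 else 0 := by
      intro n hn
      unfold dr
      rw [pow_zero, ArithmeticFunction.one_apply]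
      split_ifs with h
      · rw [h]; norm_num
      · simp
    refine (Finset.sum_le_sum h1).trans ?_
    rw [Finset.sum_ite_eq']
    split_ifs <;> norm_num
  | succ r ih =>
    have h1 : ∀ n ∈ Finset.Icc 1 N, dr (r + 1) n / n =
        ∑ x ∈ (Finset.Icc 1 N ×ˢ Finset.Icc 1 N) with x.1 * x.2 = n,
          (dr r x.1 / x.1) * (1 / (x.2 : ℝ)) := by
      intro n hn
      rw [dr_succ, Finset.sum_div, dA_eq N n hn]
      refine Finset.sum_congr rfl fun x hx => ?_
      rw [Finset.mem_filter] at hx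
      rw [← hx.2]
      push_cast
      rw [div_mul_div_comm, mul_one]
    rw [Finset.sum_congr rfl h1]
    calc ∑ n ∈ Finset.Icc 1 N, ∑ x ∈ (Finset.Icc 1 N ×ˢ Finset.Icc 1 N) with x.1 * x.2 = n,
          (dr r x.1 / x.1) * (1 / (x.2 : ℝ))
        ≤ ∑ x ∈ Finset.Icc 1 N ×ˢ Finset.Icc 1 N, (dr r x.1 / x.1) * (1 / (x.2 : ℝ)) := by
          refine Finset.sum_fiberwise_le_sum_of_sum_fiber_nonneg fun y _ => ?_
          exact Finset.sum_nonneg fun x _ => by
            have := dr_nonneg r x.1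
            positivity
      _ = (∑ n ∈ Finset.Icc 1 N, dr r n / n) * ∑ n ∈ Finset.Icc 1 N, 1 / (n : ℝ) := by
          rw [Finset.sum_mul_sum, Finset.sum_product]
      _ ≤ (1 + Real.log N) ^ r * (1 + Real.log N) :=
          mul_le_mul ih (harm N) (Finset.sum_nonneg fun _ _ => by positivity) (by positivity)
      _ = (1 + Real.log N) ^ (r + 1) := by rw [pow_succ]

end L1x

/-- item L1 -/
theorem pfL1 : fpL1 := fun R S _ => L1x.logsum R S

end Pool.Agent.Work.MP_122e00_nt.FP
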