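import Pool.Agent.Work.MP_122e00_nt.FP.StmtsC

/-!
# Full polynomial, item M1: a geometric sum with a smooth weight
-/

set_option autoImplicit false

namespace Pool.Agent.Work.MP_122e00_nt.FP

open Finset Filter Topology ArithmeticFunction MeasureTheory
open Pool.Agent.Work.MP_122e00_nt.TS
open scoped ArithmeticFunction.zeta ArithmeticFunction.Moebius

namespace M1x

theorem nn_nonneg (x : ℝ) : 0 ≤ nn x := abs_nonneg _

/-- the two definitions of `e(x)` agree -/
theorem ee_eq (x : ℝ) : Pool.Agent.Work.MP_122e00_nt.ee x = TS.ee x := by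
  unfold Pool.Agent.Work.MP_122e00_nt.ee TS.ee
  push_cast
  rfl

theorem coeff_one_le (j : ℕ) : |(1 : Polynomial ℝ).coeff j| ≤ 1 := by
  rw [Polynomial.coeff_one]
  split_ifs <;> simp

/-- the sum over an initial interval -/
theorem initial (h1 : tsF1) {d : ℕ} {C : ℝ}
    (h2 : ∀ (p p' : Polynomial ℝ) (M M' : ℝ) (N h : ℕ),
      p.natDegree ≤ d → p'.natDegree ≤ d → (∀ j, |p.coeff j| ≤ M) → (∀ j, |p'.coeff j| ≤ M') →
      1 ≤ N → |p.eval (Real.log N) * p'.eval (Real.log ((N : ℝ) + h))| +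
        ∑ n ∈ Finset.Ico 1 N, |p.eval (Real.log ((n + 1 : ℕ) : ℝ)) *
          p'.eval (Real.log (((n + 1 : ℕ) : ℝ) + h)) -
          p.eval (Real.log n) * p'.eval (Real.log ((n : ℝ) + h))| ≤
      C * M * M' * (1 + Real.log ((N : ℝ) + h)) ^ (2 * d))
    (p : Polynomial ℝ) (M φ : ℝ) (N : ℕ) (hp : p.natDegree ≤ d) (hM : ∀ j, |p.coeff j| ≤ M)
    (hN : 1 ≤ N) :
    ‖∑ m ∈ Finset.Icc 1 N, ((p.eval (Real.log m) : ℝ) : ℂ) * TS.ee (m * φ)‖ * nn φ ≤
      C * M * (1 + Real.log N) ^ (2 * d) := by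
  refine h1 (fun m => p.eval (Real.log m)) _ φ N ?_
  have h3 := h2 p 1 M 1 N 0 hp (by simp) hM coeff_one_le hN
  simpa only [Polynomial.eval_one, mul_one, Nat.cast_zero, add_zero] using h3

end M1x

open M1x in
theorem pfM1 (h1 : tsF1) (h2 : tsF2) : fpM1 := by
  intro d
  obtain ⟨C, hC, h2d⟩ := h2 d
  refine ⟨2 * C, by positivity, ?_⟩
  intro p M φ lo hi hp hM hM0 hlo hhi
  simp only [ee_eq]
  have hhi1 : (1 : ℝ) ≤ hi := by exact_mod_cast hhi
  have hl0 : 0 ≤ Real.log hi := Real.log_nonneg hhi1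
  have e1 := initial h1 h2d p M φ hi hp hM hhi
  rcases Nat.eq_zero_or_pos lo with h0 | h0
  · have e2 : Finset.Ioc lo hi = Finset.Icc 1 hi := by
      ext n
      rw [Finset.mem_Ioc, Finset.mem_Icc]
      omega
    rw [e2]
    refine e1.trans ?_
    have : 0 ≤ C * M * (1 + Real.log hi) ^ (2 * d) := by positivity
    linarith
  · have e2 := initial h1 h2d p M φ lo hp hM h0
    have hlo1 : (1 : ℝ) ≤ lo := by exact_mod_cast h0
    have hll : Real.log lo ≤ Real.log hi :=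
      Real.log_le_log (by linarith) (by exact_mod_cast hlo)
    have hll0 : 0 ≤ Real.log lo := Real.log_nonneg hlo1
    have e3 : C * M * (1 + Real.log lo) ^ (2 * d) ≤ C * M * (1 + Real.log hi) ^ (2 * d) := by
      refine mul_le_mul_of_nonneg_left ?_ (by positivity)
      exact pow_le_pow_left₀ (by linarith) (by linarith) _
    have e4 : ∑ m ∈ Finset.Ioc lo hi, ((p.eval (Real.log m) : ℝ) : ℂ) * TS.ee (m * φ) =
        ∑ m ∈ Finset.Icc 1 hi, ((p.eval (Real.log m) : ℝ) : ℂ) * TS.ee (m * φ) -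
        ∑ m ∈ Finset.Icc 1 lo, ((p.eval (Real.log m) : ℝ) : ℂ) * TS.ee (m * φ) := by
      have e5 : Finset.Icc 1 hi = Finset.Icc 1 lo ∪ Finset.Ioc lo hi := by
        ext n
        rw [Finset.mem_union, Finset.mem_Ioc, Finset.mem_Icc, Finset.mem_Icc]
        omega
      have e6 : Disjoint (Finset.Icc 1 lo) (Finset.Ioc lo hi) := by
        rw [Finset.disjoint_left]
        intro n hn hn'
        rw [Finset.mem_Icc] at hn
        rw [Finset.mem_Ioc] at hn'
        omega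
      rw [e5, Finset.sum_union e6]
      ring
    rw [e4]
    have e7 := norm_sub_le (∑ m ∈ Finset.Icc 1 hi, ((p.eval (Real.log m) : ℝ) : ℂ) * TS.ee (m * φ))
      (∑ m ∈ Finset.Icc 1 lo, ((p.eval (Real.log m) : ℝ) : ℂ) * TS.ee (m * φ))
    have e8 := mul_le_mul_of_nonneg_right e7 (nn_nonneg φ)
    rw [add_mul] at e8
    linarith

end Pool.Agent.Work.MP_122e00_nt.FP
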