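import Pool.Agent.Work.MP_122e00_nt.FP.StmtsC

/-!
# Full polynomial, item M10: the two models have nearly equal windows
-/

set_option autoImplicit false

namespace Pool.Agent.Work.MP_122e00_nt.FP

open Finset Filter Topology ArithmeticFunction MeasureTheory
open Pool.Agent.Work.MP_122e00_nt.TS
open scoped ArithmeticFunction.zeta ArithmeticFunction.Moebius

namespace M10x

theorem wn_sub (u v : ℕ → ℝ) (N L x : ℕ) (γ : ℝ) :
    wn (fun n => u n - v n) N L x γ = wn u N L x γ - wn v N L x γ := by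
  unfold wn
  rw [← Finset.sum_sub_distrib]
  refine Finset.sum_congr rfl fun n _ => ?_
  push_cast
  ring

theorem wn_mul (c : ℝ) (u : ℕ → ℝ) (N L x : ℕ) (γ : ℝ) :
    wn (fun n => c * u n) N L x γ = (c : ℂ) * wn u N L x γ := by
  unfold wn
  rw [Finset.mul_sum]
  refine Finset.sum_congr rfl fun n _ => ?_
  push_cast
  ring

theorem wn_sum {ι : Type} (J : Finset ι) (u : ι → ℕ → ℝ) (N L x : ℕ) (γ : ℝ) :
    wn (fun n => ∑ j ∈ J, u j n) N L x γ = ∑ j ∈ J, wn (u j) N L x γ := by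
  unfold wn
  rw [Finset.sum_comm]
  refine Finset.sum_congr rfl fun n _ => ?_
  push_cast
  rw [Finset.sum_mul]

theorem wn_mS (r : ℕ) (k : ℕ → ℝ) (E : ℕ → Polynomial ℝ) (η X : ℝ) (I S N L x : ℕ) (γ : ℝ) :
    wn (fun n => mS r k E η X I S n) N L x γ = (r : ℂ) * ∑ s ∈ Finset.Icc 1 S, (k s : ℂ) *
      ∑ i ∈ Finset.range I,
        wn (dil s (fs (Eu E (zi X i) (zi X (i + 1))) (Qi η X i))) N L x γ := by
  unfold mS
  rw [wn_mul]
  rw [wn_sum (Finset.Icc 1 S) (fun s n => k s * ∑ i ∈ Finset.range I,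
    dil s (fs (Eu E (zi X i) (zi X (i + 1))) (Qi η X i)) n)]
  rw [Complex.ofReal_natCast]
  congr 1
  refine Finset.sum_congr rfl fun s _ => ?_
  rw [wn_mul]
  rw [wn_sum (Finset.range I) (fun i n =>
    dil s (fs (Eu E (zi X i) (zi X (i + 1))) (Qi η X i)) n)]

theorem dil_one (u : ℕ → ℝ) : dil 1 u = u := by
  funext n
  simp [dil]

/-- the sum of one frequency -/
noncomputable def FF (P : Polynomial ℝ) (s q a lo hi : ℕ) (γ : ℝ) : ℂ :=
  ∑ m ∈ Finset.Ioc lo hi, ((P.eval (Real.log m) : ℝ) : ℂ) * ee (m * ((a : ℝ) / q + s * γ))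

open Classical in
/-- matched part -/
noncomputable def VV (Mc : ℕ → ℕ → Prop) (E' : ℕ → Polynomial ℝ) (s Q lo hi : ℕ) (γ : ℝ) : ℂ :=
  ∑ q ∈ Finset.Icc 1 Q, ∑ a ∈ (Finset.range q).filter (fun a => Nat.Coprime a q),
    if Mc q a then FF (ed (E' q)) s q a lo hi γ else 0

open Classical in
/-- unmatched part -/
noncomputable def UU (Mc : ℕ → ℕ → Prop) (E' : ℕ → Polynomial ℝ) (s Q lo hi : ℕ) (γ : ℝ) : ℂ :=
  ∑ q ∈ Finset.Icc 1 Q, ∑ a ∈ (Finset.range q).filter (fun a => Nat.Coprime a q),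
    if Mc q a then 0 else FF (ed (E' q)) s q a lo hi γ

theorem UV (h5 : fpM6) (Mc : ℕ → ℕ → Prop) (E' : ℕ → Polynomial ℝ) (s Q N L x : ℕ) (γ : ℝ)
    (hs : 1 ≤ s) : wn (dil s (fs E' Q)) N L x γ =
      UU Mc E' s Q ((x - L) / s) (min (N / s) (x / s)) γ +
        VV Mc E' s Q ((x - L) / s) (min (N / s) (x / s)) γ := by
  classical
  rw [h5 E' s Q N L x γ hs]
  unfold UU VV
  rw [← Finset.sum_add_distrib]
  refine Finset.sum_congr rfl fun q _ => ?_
  rw [← Finset.sum_add_distrib]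
  refine Finset.sum_congr rfl fun a _ => ?_
  split_ifs
  · rw [zero_add]; rfl
  · rw [add_zero]; rfl

theorem UU_bound (Mc : ℕ → ℕ → Prop) (E' : ℕ → Polynomial ℝ) (s Q lo hi : ℕ) (γ B : ℝ)
    (hB : 0 ≤ B) (h : ∀ q a, 1 ≤ q → q ≤ Q → Nat.Coprime a q → ¬ Mc q a →
      ‖FF (ed (E' q)) s q a lo hi γ‖ ≤ B) : ‖UU Mc E' s Q lo hi γ‖ ≤ (Q : ℝ) ^ 2 * B := by
  classical
  unfold UU
  have h1 : ∀ q ∈ Finset.Icc 1 Q,
      ‖∑ a ∈ (Finset.range q).filter (fun a => Nat.Coprime a q),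
        (if Mc q a then 0 else FF (ed (E' q)) s q a lo hi γ)‖ ≤ Q * B := by
    intro q hq
    rw [Finset.mem_Icc] at hq
    refine (norm_sum_le _ _).trans ?_
    have h2 : ∀ a ∈ (Finset.range q).filter (fun a => Nat.Coprime a q),
        ‖(if Mc q a then (0 : ℂ) else FF (ed (E' q)) s q a lo hi γ)‖ ≤ B := by
      intro a ha
      rw [Finset.mem_filter] at ha
      split_ifs with hm
      · rw [norm_zero]; exact hB
      · exact h q a hq.1 hq.2 ha.2 hm
    refine (Finset.sum_le_sum h2).trans ?_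
    rw [Finset.sum_const, nsmul_eq_mul]
    apply mul_le_mul_of_nonneg_right _ hB
    have h3 : ((Finset.range q).filter (fun a => Nat.Coprime a q)).card ≤ q := by
      refine (Finset.card_filter_le _ _).trans ?_
      rw [Finset.card_range]
    exact_mod_cast h3.trans hq.2
  refine (norm_sum_le _ _).trans ((Finset.sum_le_sum h1).trans ?_)
  rw [Finset.sum_const, nsmul_eq_mul, Nat.card_Icc]
  have : ((Q + 1 - 1 : ℕ) : ℝ) = Q := by rw [Nat.add_sub_cancel]
  rw [this]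
  apply le_of_eq
  ring

theorem VV_single (Mc : ℕ → ℕ → Prop) (E' : ℕ → Polynomial ℝ) (s Q lo hi : ℕ) (γ : ℝ)
    (hu : ∀ q a q' a', 1 ≤ q → a < q → Nat.Coprime a q → Mc q a → 1 ≤ q' → a' < q' →
      Nat.Coprime a' q' → Mc q' a' → q = q' ∧ a = a') (q a : ℕ) (h1 : 1 ≤ q) (h2 : q ≤ Q)
    (h3 : a < q) (h4 : Nat.Coprime a q) (h5 : Mc q a) :
    VV Mc E' s Q lo hi γ = FF (ed (E' q)) s q a lo hi γ := by
  classical
  unfold VV
  rw [Finset.sum_eq_single q, Finset.sum_eq_single a, if_pos h5]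
  · intro a' ha' hne
    rw [Finset.mem_filter, Finset.mem_range] at ha'
    rw [if_neg]
    intro hm
    exact hne (hu q a' q a h1 ha'.1 ha'.2 hm h1 h3 h4 h5).2
  · intro hna
    exact absurd (Finset.mem_filter.mpr ⟨Finset.mem_range.mpr h3, h4⟩) hna
  · intro q' hq' hne
    rw [Finset.mem_Icc] at hq'
    refine Finset.sum_eq_zero fun a' ha' => ?_
    rw [Finset.mem_filter, Finset.mem_range] at ha'
    rw [if_neg]
    intro hm
    exact hne (hu q' a' q a hq'.1 ha'.1 ha'.2 hm h1 h3 h4 h5).1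
  · intro hnq
    exact absurd (Finset.mem_Icc.mpr ⟨h1, h2⟩) hnq

theorem VV_cases (Mc : ℕ → ℕ → Prop) (E' : ℕ → Polynomial ℝ) (s Q lo hi : ℕ) (γ : ℝ)
    (hu : ∀ q a q' a', 1 ≤ q → a < q → Nat.Coprime a q → Mc q a → 1 ≤ q' → a' < q' →
      Nat.Coprime a' q' → Mc q' a' → q = q' ∧ a = a') :
    VV Mc E' s Q lo hi γ = 0 ∨ ∃ q a, 1 ≤ q ∧ q ≤ Q ∧ a < q ∧ Nat.Coprime a q ∧ Mc q a ∧
      VV Mc E' s Q lo hi γ = FF (ed (E' q)) s q a lo hi γ := by
  classical
  by_cases hex : ∃ q a, 1 ≤ q ∧ q ≤ Q ∧ a < q ∧ Nat.Coprime a q ∧ Mc q a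
  · right
    obtain ⟨q, a, h1, h2, h3, h4, h5⟩ := hex
    exact ⟨q, a, h1, h2, h3, h4, h5, VV_single Mc E' s Q lo hi γ hu q a h1 h2 h3 h4 h5⟩
  · left
    push Not at hex
    unfold VV
    refine Finset.sum_eq_zero fun q hq => Finset.sum_eq_zero fun a ha => ?_
    rw [Finset.mem_Icc] at hq
    rw [Finset.mem_filter, Finset.mem_range] at ha
    rw [if_neg]
    exact hex q a hq.1 hq.2 ha.1 ha.2

theorem Mt_uniq (h7 : fpM8) (D s : ℕ) (c : ℤ) (hD : 1 ≤ D) (hs : 1 ≤ s)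
    (hc : IsCoprime c (D : ℤ)) : ∀ q a q' a', 1 ≤ q → a < q → Nat.Coprime a q → Mt D c s q a →
      1 ≤ q' → a' < q' → Nat.Coprime a' q' → Mt D c s q' a' → q = q' ∧ a = a' := by
  intro q a q' a' hq ha hca hm hq' ha' hca' hm'
  obtain ⟨m1, m2, -, -⟩ := h7 D s c hD hs hc
  have e3 : q = q' := (m1 q a hq hca hm).trans (m1 q' a' hq' hca' hm').symm
  subst e3
  exact ⟨rfl, m2 q a a' ha ha' hm hm'⟩

theorem VV_small (h7 : fpM8) (D s : ℕ) (c : ℤ) (hD : 1 ≤ D) (hs : 1 ≤ s)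
    (hc : IsCoprime c (D : ℤ)) (hcop : Nat.Coprime D s) (E' : ℕ → Polynomial ℝ)
    (Q lo hi : ℕ) (γ : ℝ) (hDQ : D ≤ Q) :
    VV (fun q a => Mt D c s q a) E' s Q lo hi γ = ∑ m ∈ Finset.Ioc lo hi,
      (((ed (E' D)).eval (Real.log m) : ℝ) : ℂ) * ee (m * (s * (γ - c / D))) := by
  obtain ⟨-, -, m3, m4⟩ := h7 D s c hD hs hc
  obtain ⟨a0, ha0, hca0, hma0⟩ := m3 hcop
  rw [VV_single _ E' s Q lo hi γ (Mt_uniq h7 D s c hD hs hc) D a0 hD hDQ ha0 hca0 hma0]
  unfold FF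
  refine Finset.sum_congr rfl fun m _ => ?_
  rw [m4 D a0 m γ hD hma0]

theorem q_pow {D g : ℕ} (hD : 1 ≤ D) (hg : 1 ≤ g) (hgD : g ∣ D) :
    ((D / g : ℕ) : ℝ) ^ ((1 / 2 : ℝ) - 1) = ((g : ℝ) / D) ^ (1 / 2 : ℝ) := by
  have hg' : (g : ℝ) ≠ 0 := by
    have : g ≠ 0 := by omega
    exact_mod_cast this
  rw [Nat.cast_div hgD hg']
  have e1 : ((1 / 2 : ℝ) - 1) = -(1 / 2 : ℝ) := by norm_num
  rw [e1, Real.rpow_neg (by positivity), ← Real.inv_rpow (by positivity), inv_div]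

theorem ed_bound {r : ℕ} (hr : 1 ≤ r) (P : Polynomial ℝ) (M : ℝ) (hd : P.natDegree ≤ r - 1)
    (hM : 0 ≤ M) (hc : ∀ j, |P.coeff j| ≤ M) :
    (ed P).natDegree ≤ r - 1 ∧ ∀ j, |(ed P).coeff j| ≤ (r + 1) * M := by
  constructor
  · unfold ed
    refine (Polynomial.natDegree_add_le _ _).trans (max_le hd ?_)
    exact (Polynomial.natDegree_derivative_le P).trans (by omega)
  · intro j
    unfold ed
    rw [Polynomial.coeff_add, Polynomial.coeff_derivative]
    have h1 : |P.coeff (j + 1) * ((j : ℝ) + 1)| ≤ r * M := by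
      by_cases hj : j + 1 ≤ r - 1
      · rw [abs_mul]
        have h2 : |((j : ℝ) + 1)| ≤ r := by
          rw [abs_of_nonneg (by positivity)]
          have : j + 1 ≤ r := by omega
          exact_mod_cast this
        calc |P.coeff (j + 1)| * |((j : ℝ) + 1)| ≤ M * r :=
              mul_le_mul (hc _) h2 (abs_nonneg _) hM
          _ = r * M := mul_comm _ _
      · have h0 : P.coeff (j + 1) = 0 :=
          Polynomial.coeff_eq_zero_of_natDegree_lt (by omega)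
        rw [h0, zero_mul, abs_zero]
        positivity
    calc |P.coeff j + P.coeff (j + 1) * ((j : ℝ) + 1)|
        ≤ |P.coeff j| + |P.coeff (j + 1) * ((j : ℝ) + 1)| := abs_add_le _ _
      _ ≤ M + r * M := add_le_add (hc j) h1
      _ = (r + 1) * M := by ring

theorem eval_bound {d : ℕ} (P : Polynomial ℝ) (M t : ℝ) (hd : P.natDegree ≤ d) (hM : 0 ≤ M)
    (hc : ∀ j, |P.coeff j| ≤ M) (ht : 0 ≤ t) : |P.eval t| ≤ (d + 1) * M * (1 + t) ^ d := by
  rw [Polynomial.eval_eq_sum_range' (Nat.lt_succ_of_le hd)]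
  refine (Finset.abs_sum_le_sum_abs _ _).trans ?_
  have h1 : ∀ i ∈ Finset.range (d + 1), |P.coeff i * t ^ i| ≤ M * (1 + t) ^ d := by
    intro i hi
    rw [Finset.mem_range] at hi
    rw [abs_mul, abs_pow, abs_of_nonneg ht]
    apply mul_le_mul (hc i) _ (by positivity) hM
    calc t ^ i ≤ (1 + t) ^ i := pow_le_pow_left₀ ht (by linarith) i
      _ ≤ (1 + t) ^ d := pow_le_pow_right₀ (by linarith) (by omega)
  refine (Finset.sum_le_sum h1).trans (le_of_eq ?_)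
  rw [Finset.sum_const, card_range, nsmul_eq_mul]
  push_cast
  ring

theorem FF_unm {d : ℕ} {Cm : ℝ} (hM1 : ∀ (p : Polynomial ℝ) (M φ : ℝ) (lo hi : ℕ),
    p.natDegree ≤ d → (∀ j, |p.coeff j| ≤ M) → 0 ≤ M → lo ≤ hi → 1 ≤ hi →
    ‖∑ m ∈ Finset.Ioc lo hi, ((p.eval (Real.log m) : ℝ) : ℂ) * ee (m * φ)‖ * nn φ ≤
      Cm * M * (1 + Real.log hi) ^ (2 * d)) (hCm : 0 < Cm) (P : Polynomial ℝ) (M : ℝ)
    (hd : P.natDegree ≤ d) (hc : ∀ j, |P.coeff j| ≤ M) (hM0 : 0 ≤ M) (s q a lo hi : ℕ)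
    (γ lam R : ℝ) (hR : 0 < R) (hnn : 1 / (2 * R ^ 2) ≤ nn ((a : ℝ) / q + s * γ))
    (hlam : 1 ≤ hi → 1 + Real.log hi ≤ 2 * lam) (hlam0 : 0 ≤ lam) :
    ‖FF P s q a lo hi γ‖ ≤ 2 * R ^ 2 * (Cm * M * (2 * lam) ^ (2 * d)) := by
  have hrhs : 0 ≤ 2 * R ^ 2 * (Cm * M * (2 * lam) ^ (2 * d)) := by positivity
  by_cases h : lo ≤ hi ∧ 1 ≤ hi
  · have h1 := hM1 P M ((a : ℝ) / q + s * γ) lo hi hd hc hM0 h.1 h.2
    have hlog : 0 ≤ Real.log hi := Real.log_natCast_nonneg _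
    have h2 : Cm * M * (1 + Real.log hi) ^ (2 * d) ≤ Cm * M * (2 * lam) ^ (2 * d) := by
      apply mul_le_mul_of_nonneg_left _ (by positivity)
      exact pow_le_pow_left₀ (by linarith) (hlam h.2) _
    have h3 : ‖FF P s q a lo hi γ‖ * (1 / (2 * R ^ 2)) ≤
        ‖FF P s q a lo hi γ‖ * nn ((a : ℝ) / q + s * γ) :=
      mul_le_mul_of_nonneg_left hnn (norm_nonneg _)
    have h4 : ‖FF P s q a lo hi γ‖ * (1 / (2 * R ^ 2)) ≤ Cm * M * (2 * lam) ^ (2 * d) :=
      h3.trans (h1.trans h2)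
    rw [mul_one_div, div_le_iff₀ (by positivity)] at h4
    linarith
  · have h0 : FF P s q a lo hi γ = 0 := by
      unfold FF
      rw [Finset.Ioc_eq_empty, Finset.sum_empty]
      intro hlt
      exact h ⟨hlt.le, by omega⟩
    rw [h0, norm_zero]
    exact hrhs

theorem norm_ee (x : ℝ) : ‖ee x‖ = 1 := by
  have h : ee x = Complex.exp (((2 * Real.pi * x : ℝ) : ℂ) * Complex.I) := by
    unfold ee
    push_cast
    rfl
  rw [h]
  exact Complex.norm_exp_ofReal_mul_I _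

theorem FF_triv {d : ℕ} (P : Polynomial ℝ) (M : ℝ) (hd : P.natDegree ≤ d)
    (hc : ∀ j, |P.coeff j| ≤ M) (hM0 : 0 ≤ M) (s q a lo hi : ℕ) (γ lam U : ℝ)
    (hlam : 1 ≤ hi → 1 + Real.log hi ≤ 2 * lam) (hlam0 : 0 ≤ lam)
    (hU : ((hi - lo : ℕ) : ℝ) ≤ U) :
    ‖FF P s q a lo hi γ‖ ≤ U * ((d + 1) * M * (2 * lam) ^ d) := by
  unfold FF
  refine (norm_sum_le _ _).trans ?_
  have h1 : ∀ m ∈ Finset.Ioc lo hi,
      ‖((P.eval (Real.log m) : ℝ) : ℂ) * ee (m * ((a : ℝ) / q + s * γ))‖ ≤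
        (d + 1) * M * (2 * lam) ^ d := by
    intro m hm
    rw [Finset.mem_Ioc] at hm
    rw [norm_mul, norm_ee, mul_one, Complex.norm_real, Real.norm_eq_abs]
    have hlog : 0 ≤ Real.log m := Real.log_natCast_nonneg _
    refine (eval_bound P M (Real.log m) hd hM0 hc hlog).trans ?_
    apply mul_le_mul_of_nonneg_left _ (by positivity)
    apply pow_le_pow_left₀ (by linarith)
    have h2 : Real.log m ≤ Real.log hi := by
      apply Real.log_le_log
      · have : 0 < m := by omega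
        exact_mod_cast this
      · exact_mod_cast hm.2
    have h3 := hlam (by omega)
    linarith
  refine (Finset.sum_le_sum h1).trans ?_
  rw [Finset.sum_const, nsmul_eq_mul, Nat.card_Ioc]
  exact mul_le_mul_of_nonneg_right hU (by positivity)

theorem div_len (N L x s : ℕ) (hs : 1 ≤ s) (hsL : s ≤ L) :
    ((min (N / s) (x / s) - (x - L) / s : ℕ) : ℝ) ≤ 2 * L / s := by
  have h1 : x / s ≤ (x - L) / s + L / s + 1 := by
    have h2 : x < s * ((x - L) / s + L / s + 2) := by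
      have h3 := Nat.lt_mul_div_succ (x - L) hs
      have h4 := Nat.lt_mul_div_succ L hs
      have h5 : s * ((x - L) / s + L / s + 2) = s * ((x - L) / s + 1) + s * (L / s + 1) := by ring
      omega
    have := Nat.div_lt_of_lt_mul h2
    omega
  have h6 : min (N / s) (x / s) - (x - L) / s ≤ L / s + 1 := by
    rw [Nat.sub_le_iff_le_add]
    refine (min_le_right _ _).trans (h1.trans (le_of_eq ?_))
    ring
  have hs' : (0 : ℝ) < s := by exact_mod_cast hs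
  have h7 : ((L / s : ℕ) : ℝ) ≤ L / s := Nat.cast_div_le
  have h8 : (1 : ℝ) ≤ L / s := by
    rw [le_div_iff₀ hs', one_mul]
    exact_mod_cast hsL
  calc ((min (N / s) (x / s) - (x - L) / s : ℕ) : ℝ) ≤ ((L / s + 1 : ℕ) : ℝ) := by
        exact_mod_cast h6
    _ = ((L / s : ℕ) : ℝ) + 1 := by push_cast; rfl
    _ ≤ L / s + L / s := by linarith
    _ = 2 * L / s := by ring

theorem absorb {K e A lam : ℝ} (hK : 0 ≤ K) (hl : 3 ≤ lam) (hA : K + e ≤ A) :
    K * lam ^ e ≤ lam ^ A := by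
  have hlam : 0 < lam := by linarith
  have h1 : 1 ≤ Real.log lam := by
    rw [Real.le_log_iff_exp_le hlam]
    have := Real.exp_one_lt_d9
    linarith
  have h2 : K ≤ lam ^ K := by
    rw [Real.rpow_def_of_pos hlam]
    have h3 : K ≤ Real.log lam * K := by nlinarith
    have h4 := Real.add_one_le_exp (Real.log lam * K)
    linarith
  calc K * lam ^ e ≤ lam ^ K * lam ^ e :=
        mul_le_mul_of_nonneg_right h2 (Real.rpow_nonneg hlam.le _)
    _ = lam ^ (K + e) := (Real.rpow_add hlam _ _).symm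
    _ ≤ lam ^ A := Real.rpow_le_rpow_of_exponent_le (by linarith) hA

theorem fin_ineq {l h L η : ℝ} (hl : 3 ≤ l) (hη : 0 < η) (hlη : 5 / η ≤ l) (hh : l ^ 6 ≤ h)
    (hL : Real.exp (3 / 4 * h) ≤ L) :
    2 * Real.exp (l ^ 2) * Real.exp (h / 4) + L * Real.exp (-(h / 20)) +
      Real.exp (l ^ 2) * L * Real.exp (-(η * l ^ 3)) ≤ L * Real.exp (-(2 * l ^ 2)) := by
  have hL0 : 0 < L := lt_of_lt_of_le (Real.exp_pos _) hL
  have h4e : (4 : ℝ) ≤ Real.exp 2 := by
    have h1 : Real.exp 2 = Real.exp 1 * Real.exp 1 := by rw [← Real.exp_add]; norm_num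
    have h2 := Real.exp_one_gt_d9
    rw [h1]
    nlinarith
  have hl2 : 9 ≤ l ^ 2 := by nlinarith
  have hl4 : 81 ≤ l ^ 4 := by
    have : l ^ 4 = l ^ 2 * l ^ 2 := by ring
    nlinarith
  have hl6 : 81 * l ^ 2 ≤ l ^ 6 := by
    have : l ^ 6 = l ^ 4 * l ^ 2 := by ring
    nlinarith [sq_nonneg l]
  have key : ∀ u v : ℝ, u + 2 ≤ v → 4 * Real.exp u ≤ Real.exp v := by
    intro u v huv
    calc 4 * Real.exp u ≤ Real.exp 2 * Real.exp u :=
          mul_le_mul_of_nonneg_right h4e (Real.exp_pos _).le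
      _ = Real.exp (u + 2) := by rw [← Real.exp_add]; ring_nf
      _ ≤ Real.exp v := Real.exp_le_exp.mpr huv
  have t1 : 2 * Real.exp (l ^ 2) * Real.exp (h / 4) ≤ (1 / 2) * (L * Real.exp (-(2 * l ^ 2))) := by
    have e1 := key (l ^ 2 + h / 4) (3 / 4 * h - 2 * l ^ 2) (by nlinarith)
    rw [Real.exp_add] at e1
    have e2 : Real.exp (3 / 4 * h - 2 * l ^ 2) =
        Real.exp (3 / 4 * h) * Real.exp (-(2 * l ^ 2)) := by
      rw [← Real.exp_add]; ring_nf
    rw [e2] at e1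
    have e3 : Real.exp (3 / 4 * h) * Real.exp (-(2 * l ^ 2)) ≤ L * Real.exp (-(2 * l ^ 2)) :=
      mul_le_mul_of_nonneg_right hL (Real.exp_pos _).le
    linarith
  have t2 : L * Real.exp (-(h / 20)) ≤ (1 / 4) * (L * Real.exp (-(2 * l ^ 2))) := by
    have e1 := key (-(h / 20)) (-(2 * l ^ 2)) (by nlinarith)
    nlinarith
  have t3 : Real.exp (l ^ 2) * L * Real.exp (-(η * l ^ 3)) ≤
      (1 / 4) * (L * Real.exp (-(2 * l ^ 2))) := by
    have e0 : 5 ≤ η * l := by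
      rw [div_le_iff₀ hη] at hlη
      linarith
    have e1 := key (l ^ 2 + -(η * l ^ 3)) (-(2 * l ^ 2)) (by
      have : η * l ^ 3 = (η * l) * l ^ 2 := by ring
      rw [this]
      nlinarith)
    rw [Real.exp_add] at e1
    nlinarith [Real.exp_pos (l ^ 2), Real.exp_pos (-(η * l ^ 3))]
  linarith

theorem sum_bound (r S I : ℕ) (k : ℕ → ℝ) (f : ℕ → ℕ → ℂ) (T : ℕ → ℝ) (lam : ℝ)
    (hT0 : ∀ s, 0 ≤ T s)
    (hT : ∀ s ∈ Finset.Icc 1 S, k s ≠ 0 → ∀ i ∈ Finset.range I, ‖f s i‖ ≤ T s)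
    (hI : (I : ℝ) ≤ lam) :
    ‖(r : ℂ) * ∑ s ∈ Finset.Icc 1 S, (k s : ℂ) * ∑ i ∈ Finset.range I, f s i‖ ≤
      r * (lam * ∑ s ∈ Finset.Icc 1 S, |k s| * T s) := by
  rw [norm_mul, Complex.norm_natCast]
  apply mul_le_mul_of_nonneg_left _ (Nat.cast_nonneg _)
  refine (norm_sum_le _ _).trans ?_
  rw [Finset.mul_sum]
  refine Finset.sum_le_sum fun s hs => ?_
  rw [norm_mul, Complex.norm_real, Real.norm_eq_abs]
  by_cases hk : k s = 0
  · rw [hk]; simp
  have h1 : ‖∑ i ∈ Finset.range I, f s i‖ ≤ lam * T s := by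
    refine (norm_sum_le _ _).trans ((Finset.sum_le_sum (hT s hs hk)).trans ?_)
    rw [Finset.sum_const, card_range, nsmul_eq_mul]
    exact mul_le_mul_of_nonneg_right hI (hT0 s)
  calc |k s| * ‖∑ i ∈ Finset.range I, f s i‖ ≤ |k s| * (lam * T s) :=
        mul_le_mul_of_nonneg_left h1 (abs_nonneg _)
    _ = lam * (|k s| * T s) := by ring

theorem dr_nonneg (R s : ℕ) : 0 ≤ dr R s := Nat.cast_nonneg _

theorem ksum (h9 : fpL1) (R S : ℕ) (hS : 1 ≤ S) :
    ∑ s ∈ Finset.Icc 1 S, dr R s ≤ S * (1 + Real.log S) ^ R := by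
  have h := h9 R S hS
  calc ∑ s ∈ Finset.Icc 1 S, dr R s ≤ ∑ s ∈ Finset.Icc 1 S, (S : ℝ) * (dr R s / s) := by
        refine Finset.sum_le_sum fun s hs => ?_
        rw [Finset.mem_Icc] at hs
        have hs' : (0 : ℝ) < s := by exact_mod_cast hs.1
        have h1 : (s : ℝ) ≤ S := by exact_mod_cast hs.2
        have h2 := dr_nonneg R s
        rw [← mul_div_assoc, le_div_iff₀ hs']
        nlinarith
    _ = S * ∑ s ∈ Finset.Icc 1 S, dr R s / s := (Finset.mul_sum _ _ _).symm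
    _ ≤ _ := mul_le_mul_of_nonneg_left h (Nat.cast_nonneg _)

/-- the coefficients of the class polynomials, `ε = 1` -/
theorem coefE1 {E : ℕ → Polynomial ℝ} {r : ℕ} {C1 ε : ℝ}
    (hK : ∀ (z w : ℝ) (q j : ℕ), 1 ≤ w → 1 ≤ q →
      |(Eu E z w q).coeff j| ≤ C1 * (1 + Real.log w) ^ (r + 1) * (q : ℝ) ^ (ε - 1))
    (hC1 : 0 < C1) (z w lam : ℝ) (q j : ℕ) (hw : 1 ≤ w) (hq : 1 ≤ q)
    (hl : 1 + Real.log w ≤ 2 * lam) :
    |(Eu E z w q).coeff j| ≤ C1 * (2 * lam) ^ (r + 1) * (q : ℝ) ^ (ε - 1) := by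
  refine (hK z w q j hw hq).trans ?_
  apply mul_le_mul_of_nonneg_right _ (Real.rpow_nonneg (Nat.cast_nonneg _) _)
  apply mul_le_mul_of_nonneg_left _ hC1.le
  have := Real.log_nonneg hw
  exact pow_le_pow_left₀ (by linarith) hl _

end M10x

open M10x in
theorem pfM10 (h1 : fpP1) (h2 : fpP2) (h3 : fpM1) (h4 : fpM5) (h5 : fpM6) (h6 : fpM7)
    (h7 : fpM8) (h8 : fpM9) (h9 : fpL1) (h10 : fpV1) (h11 : fpS1) (h12 : tsK5) : fpM10 := by
  intro r E hr hAP hCB η hη hη1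
  have hr1 : 1 ≤ r := by omega
  obtain ⟨Cm, hCm, hM1⟩ := h3 (r - 1)
  obtain ⟨hEd, hK5⟩ := h12 r E hr1 hAP.1 hCB
  obtain ⟨C1, hC1, hK1⟩ := hK5 1 one_pos
  obtain ⟨C2, hC2, hK2⟩ := hK5 (1 / 2) (by norm_num)
  obtain ⟨Cv, hCv, hV⟩ := h10 r E hr1 hAP hCB
  obtain ⟨Cs, hCs, hS1⟩ := h11 r 1 one_pos
  obtain ⟨C5, hC5, hM5⟩ := h4 (2 * r) (by omega)
  obtain ⟨X7, hX7⟩ := h6 r E hr hAP hCB
  -- constants
  obtain ⟨K1, hK1d⟩ : ∃ K1 : ℝ, K1 = r * (2 * (Cm * ((r + 1) * C1) *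
    2 ^ ((r + 1) + 2 * (r - 1)))) := ⟨_, rfl⟩
  obtain ⟨K2, hK2d⟩ : ∃ K2 : ℝ, K2 = r * (2 * ((((r - 1 : ℕ) : ℝ) + 1) * ((r + 1) * C2) *
    2 ^ ((r + 1) + (r - 1)))) * C5 := ⟨_, rfl⟩
  obtain ⟨K3, hK3d⟩ : ∃ K3 : ℝ, K3 = 2 * (Cm * ((r + 1) * (Cv * Cs)) * 2 ^ (2 * (r - 1))) :=
    ⟨_, rfl⟩
  have hK10 : 0 ≤ K1 := by rw [hK1d]; positivity
  have hK20 : 0 ≤ K2 := by rw [hK2d]; positivity
  have hK30 : 0 ≤ K3 := by rw [hK3d]; positivity
  obtain ⟨A, hA⟩ : ∃ A : ℝ, A = 3 + 5 / η + (K1 + ((1 + 2 * r + (r + 1) + 2 * (r - 1) : ℕ) : ℝ)) +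
    (K2 + ((1 + 2 * r + (r + 1) + (r - 1) : ℕ) : ℝ)) +
    (K3 + (Cv + ((2 * (r - 1) : ℕ) : ℝ))) := ⟨_, rfl⟩
  have h5η : 0 < 5 / η := by positivity
  obtain ⟨X1, hX1⟩ := h1 A
  refine ⟨max X7 X1, ?_⟩
  intro X H γ k N L x hX hH6 hHX hH0 hKK hN hL1 hL2
  have hXX7 : X7 ≤ X := (le_max_left _ _).trans hX
  obtain ⟨hX16, hlam3, hAl, hlamA, -⟩ := hX1 X ((le_max_right _ _).trans hX)
  set l : ℝ := l2 X with hl
  set lam : ℝ := Real.log X with hlam
  have hl3 : 3 ≤ l := by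
    have h0 : (3 : ℝ) ≤ A := by
      rw [hA]
      have e1 : (0 : ℝ) ≤ ((1 + 2 * r + (r + 1) + 2 * (r - 1) : ℕ) : ℝ) := Nat.cast_nonneg _
      have e2 : (0 : ℝ) ≤ ((1 + 2 * r + (r + 1) + (r - 1) : ℕ) : ℝ) := Nat.cast_nonneg _
      have e3 : (0 : ℝ) ≤ ((2 * (r - 1) : ℕ) : ℝ) := Nat.cast_nonneg _
      linarith
    linarith
  have hlη : 5 / η ≤ l := by
    have h0 : 5 / η ≤ A := by
      rw [hA]
      have e1 : (0 : ℝ) ≤ ((1 + 2 * r + (r + 1) + 2 * (r - 1) : ℕ) : ℝ) := Nat.cast_nonneg _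
      have e2 : (0 : ℝ) ≤ ((1 + 2 * r + (r + 1) + (r - 1) : ℕ) : ℝ) := Nat.cast_nonneg _
      have e3 : (0 : ℝ) ≤ ((2 * (r - 1) : ℕ) : ℝ) := Nat.cast_nonneg _
      linarith
    linarith
  have hX0 : 0 < X := by linarith
  have hlam0 : 0 < lam := by linarith
  obtain ⟨hz, hzw, hw1, -, hI1, hIlam⟩ := h2 X H (by rw [← hl]; linarith) hH6 hHX hH0
  rw [← hl] at hz hw1
  rw [← hlam] at hIlam
  set I : ℕ := nI X H with hI
  set S : ℕ := Sc H with hS
  set h : ℝ := Real.log H with hh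
  have hH6' : l ^ 6 ≤ h := hH6
  have hl2 : 9 ≤ l ^ 2 := by
    have h0 := pow_le_pow_left₀ (by norm_num : (0 : ℝ) ≤ 3) hl3 2
    norm_num at h0
    exact h0
  have hl3p : 0 < l ^ 3 := by positivity
  have hl6 : 729 ≤ l ^ 6 := by
    have h0 := pow_le_pow_left₀ (by norm_num : (0 : ℝ) ≤ 3) hl3 6
    norm_num at h0
    exact h0
  have hh729 : 729 ≤ h := hl6.trans hH6'
  have hhlam : h ≤ lam := Real.log_le_log hH0 hHX
  have hpow : ∀ t : ℝ, H ^ t = Real.exp (h * t) := fun t => Real.rpow_def_of_pos hH0 t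
  set G : ℝ := Real.exp (l ^ 2) with hG
  have hG1 : K1 * lam ^ (1 + 2 * r + (r + 1) + 2 * (r - 1)) ≤ G := by
    refine le_trans ?_ hlamA
    rw [← Real.rpow_natCast]
    apply absorb hK10 hlam3
    rw [hA]
    have e2 : (0 : ℝ) ≤ ((1 + 2 * r + (r + 1) + (r - 1) : ℕ) : ℝ) := Nat.cast_nonneg _
    have e3 : (0 : ℝ) ≤ ((2 * (r - 1) : ℕ) : ℝ) := Nat.cast_nonneg _
    linarith
  have hG2 : K2 * lam ^ (1 + 2 * r + (r + 1) + (r - 1)) ≤ G := by
    refine le_trans ?_ hlamA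
    rw [← Real.rpow_natCast]
    apply absorb hK20 hlam3
    rw [hA]
    have e2 : (0 : ℝ) ≤ ((1 + 2 * r + (r + 1) + 2 * (r - 1) : ℕ) : ℝ) := Nat.cast_nonneg _
    have e3 : (0 : ℝ) ≤ ((2 * (r - 1) : ℕ) : ℝ) := Nat.cast_nonneg _
    linarith
  have hG3 : K3 * (lam ^ Cv * lam ^ (2 * (r - 1))) ≤ G := by
    refine le_trans ?_ hlamA
    rw [← Real.rpow_natCast, ← Real.rpow_add hlam0]
    apply absorb hK30 hlam3
    rw [hA]
    have e2 : (0 : ℝ) ≤ ((1 + 2 * r + (r + 1) + 2 * (r - 1) : ℕ) : ℝ) := Nat.cast_nonneg _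
    have e3 : (0 : ℝ) ≤ ((1 + 2 * r + (r + 1) + (r - 1) : ℕ) : ℝ) := Nat.cast_nonneg _
    linarith
  have hG0 : 0 < G := Real.exp_pos _
  -- sizes of the parameters
  set a : ℝ := H ^ (1 / 16 : ℝ) with ha
  set b : ℝ := H ^ (1 / 100 : ℝ) with hb
  set u : ℝ := H ^ (1 / 12 : ℝ) with hu
  have ha' : a = Real.exp (h * (1 / 16)) := hpow _
  have hb' : b = Real.exp (h * (1 / 100)) := hpow _
  have hu' : u = Real.exp (h * (1 / 12)) := hpow _
  have ha1 : 1 ≤ a := by rw [ha']; exact Real.one_le_exp (by linarith)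
  have hb0 : 0 < b := by rw [hb']; exact Real.exp_pos _
  have hu0 : 0 < u := by rw [hu']; exact Real.exp_pos _
  have hu4 : 4 ≤ u := by
    rw [hu']
    have := Real.add_one_le_exp (h * (1 / 12))
    linarith
  have habu : a * b ^ 2 * u ^ 2 ≤ Real.exp (h / 4) := by
    rw [ha', hb', hu', ← Real.exp_nat_mul, ← Real.exp_nat_mul, ← Real.exp_add, ← Real.exp_add]
    apply Real.exp_le_exp.mpr
    push_cast
    linarith
  have hH1 : 1 ≤ H := by
    rw [← Real.exp_log hH0]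
    exact Real.one_le_exp (by linarith)
  have haH : a ≤ H := by
    have e1 : Real.exp h = H := Real.exp_log hH0
    rw [ha']
    refine (Real.exp_le_exp.mpr ?_).trans e1.le
    linarith
  have hSa : (S : ℝ) ≤ a := Nat.floor_le (by linarith)
  have hS1' : 1 ≤ S := Nat.le_floor (by rw [Nat.cast_one]; exact ha1)
  have hSX : (S : ℝ) ≤ X := hSa.trans (haH.trans hHX)
  have hlogS : 1 + Real.log S ≤ lam := by
    have e1 : Real.log S ≤ Real.log a :=
      Real.log_le_log (by exact_mod_cast hS1') hSa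
    have e2 : Real.log a = h * (1 / 16) := by rw [ha', Real.log_exp]
    rw [e2] at e1
    linarith
  have hlogS0 : 0 ≤ Real.log S := Real.log_natCast_nonneg _
  have hSL : ∀ s ∈ Finset.Icc 1 S, s ≤ L := by
    intro s hs
    rw [Finset.mem_Icc] at hs
    have e1 : a ≤ H ^ (3 / 4 : ℝ) := Real.rpow_le_rpow_of_exponent_le hH1 (by norm_num)
    have e2 : (s : ℝ) ≤ L := by
      have : (s : ℝ) ≤ S := by exact_mod_cast hs.2
      linarith
    exact_mod_cast e2
  have hzi : ∀ i, Real.log (zi X i) = 2 ^ i * l ^ 3 := fun i => Real.log_exp _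
  have hzi1 : ∀ i, 1 ≤ zi X i := fun i => Real.one_le_exp (by positivity)
  have hziI : ∀ i, i ≤ I → 2 ^ i * l ^ 3 ≤ h / l ^ 2 := by
    intro i hi
    have e1 : Real.log (wc X H) = 2 ^ I * l ^ 3 := hzi I
    rw [e1] at hw1
    refine le_trans ?_ hw1
    apply mul_le_mul_of_nonneg_right _ hl3p.le
    exact pow_le_pow_right₀ (by norm_num) hi
  have hhl : h / l ^ 2 ≤ h / 9 := div_le_div_of_nonneg_left (by linarith) (by norm_num) hl2
  have hQi : ∀ i, i ≤ I → (Qi η X i : ℝ) ≤ b := by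
    intro i hi
    have e1 : (Qi η X i : ℝ) ≤ Real.exp (8 * η * 2 ^ i * l2 X ^ 3) :=
      Nat.floor_le (Real.exp_pos _).le
    refine e1.trans ?_
    rw [hb']
    apply Real.exp_le_exp.mpr
    have e2 := hziI i hi
    have e3 : 8 * η * 2 ^ i * l2 X ^ 3 = (8 * η) * (2 ^ i * l ^ 3) := by rw [hl]; ring
    rw [e3]
    have e4 : 0 ≤ 2 ^ i * l ^ 3 := by positivity
    have e5 : (8 * η) * (2 ^ i * l ^ 3) ≤ (8 / 100) * (h / 9) :=
      mul_le_mul (by linarith) (e2.trans hhl) e4 (by norm_num)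
    linarith
  have hQQ : ∀ i, Qc (4 * η) X ≤ Qi η X i := by
    intro i
    apply Nat.floor_mono
    apply Real.exp_le_exp.mpr
    have e1 : (1 : ℝ) ≤ 2 ^ i := one_le_pow₀ (by norm_num)
    have e2 : 0 < η * l2 X ^ 3 := by rw [← hl]; positivity
    have e3 : 8 * (η * l2 X ^ 3) ≤ 8 * (η * l2 X ^ 3) * 2 ^ i :=
      le_mul_of_one_le_right (by linarith) e1
    have e4 : 8 * η * 2 ^ i * l2 X ^ 3 = 8 * (η * l2 X ^ 3) * 2 ^ i := by ring
    have e5 : 4 * η * l2 X ^ 3 = 4 * (η * l2 X ^ 3) := by ring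
    rw [e4, e5]
    linarith
  set Q : ℕ := Qc (4 * η) X with hQ
  have hQb : (Q : ℝ) ≤ b := by
    have e1 : (Q : ℝ) ≤ (Qi η X 0 : ℝ) := by exact_mod_cast hQQ 0
    exact e1.trans (hQi 0 (Nat.zero_le _))
  set R : ℕ := ⌊u⌋₊ with hR
  have hRu : (R : ℝ) ≤ u := Nat.floor_le hu0.le
  have hRlow : u < R + 1 := Nat.lt_floor_add_one u
  have hR1 : 1 ≤ R := Nat.le_floor (by rw [Nat.cast_one]; linarith)
  have hRpos : (0 : ℝ) < R := by exact_mod_cast hR1
  have hR2 : 1 / (2 * (R : ℝ) ^ 2) ≤ H ^ (-(1 / 6) : ℝ) := by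
    have e1 : H ^ (-(1 / 6) : ℝ) = (u ^ 2)⁻¹ := by
      rw [hpow, hu', ← Real.exp_nat_mul, ← Real.exp_neg]
      congr 1
      push_cast
      ring
    rw [e1, ← one_div (u ^ 2)]
    apply one_div_le_one_div_of_le (by positivity)
    have e2 : 3 / 4 * u ≤ R := by linarith
    have e3 : (3 / 4 * u) ^ 2 ≤ (R : ℝ) ^ 2 := pow_le_pow_left₀ (by positivity) e2 2
    have e4 : (3 / 4 * u) ^ 2 = 9 / 16 * u ^ 2 := by ring
    rw [e4] at e3
    have e5 : 0 ≤ u ^ 2 := sq_nonneg u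
    linarith
  have hsqR : ∀ i, i ≤ I → ∀ s ∈ Finset.Icc 1 S, ∀ q, q ≤ Qi η X i → q * s ≤ R := by
    intro i hi s hs q hq
    rw [Finset.mem_Icc] at hs
    apply Nat.le_floor
    push_cast
    have e1 : (q : ℝ) ≤ b := by
      have : (q : ℝ) ≤ Qi η X i := by exact_mod_cast hq
      exact this.trans (hQi i hi)
    have e2 : (s : ℝ) ≤ a := by
      have : (s : ℝ) ≤ S := by exact_mod_cast hs.2
      linarith
    calc (q : ℝ) * s ≤ b * a := mul_le_mul e1 e2 (Nat.cast_nonneg _) hb0.le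
      _ ≤ u := by
        rw [ha', hb', hu', ← Real.exp_add]
        exact Real.exp_le_exp.mpr (by linarith)
  -- logarithms of the variables
  have hhi : ∀ hi : ℕ, hi ≤ N → 1 ≤ hi → 1 + Real.log hi ≤ 2 * lam := by
    intro hi h1' h2'
    have e1 : (hi : ℝ) ≤ 2 * X := by
      have : (hi : ℝ) ≤ N := by exact_mod_cast h1'
      linarith
    have e2 : Real.log hi ≤ Real.log (2 * X) := Real.log_le_log (by exact_mod_cast h2') e1
    rw [Real.log_mul (by norm_num) hX0.ne'] at e2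
    have e3 := Real.log_two_lt_d9
    linarith
  have hhis : ∀ s, 1 ≤ min (N / s) (x / s) →
      1 + Real.log ((min (N / s) (x / s) : ℕ) : ℝ) ≤ 2 * lam := by
    intro s hs
    exact hhi _ ((min_le_left _ _).trans (Nat.div_le_self _ _)) hs
  have hwlog : ∀ i ∈ Finset.range I, 1 + Real.log (zi X (i + 1)) ≤ 2 * lam := by
    intro i hi
    rw [Finset.mem_range] at hi
    have e1 := hziI (i + 1) hi
    rw [hzi]
    linarith
  have hwX : wc X H ≤ X := by
    have e1 : Real.log (wc X H) ≤ Real.log X := by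
      refine hw1.trans (hhl.trans ?_)
      linarith
    exact (Real.log_le_log_iff (Real.exp_pos _) hX0).mp e1
  have hw1' : 1 ≤ wc X H := hzi1 _
  have hksum : ∑ s ∈ Finset.Icc 1 S, |k s| ≤ a * lam ^ (2 * r) := by
    refine (Finset.sum_le_sum (fun s _ => hKK.1 s)).trans ((ksum h9 (2 * r) S hS1').trans ?_)
    apply mul_le_mul hSa _ (by positivity) (by linarith)
    exact pow_le_pow_left₀ (by linarith) hlogS _
  -- the unmatched frequencies
  have main : ∀ Mc : ℕ → ℕ → ℕ → Prop,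
      (∀ s q a : ℕ, 1 ≤ s → 1 ≤ q → q * s ≤ R → ¬ Mc s q a →
        1 / (2 * (R : ℝ) ^ 2) ≤ nn ((a : ℝ) / q + s * γ)) →
      ∀ TM : ℝ, ‖(r : ℂ) * ∑ s ∈ Finset.Icc 1 S, (k s : ℂ) * ∑ i ∈ Finset.range I,
        VV (Mc s) (Eu E (zi X i) (zi X (i + 1))) s (Qi η X i) ((x - L) / s)
          (min (N / s) (x / s)) γ -
        VV (Mc 1) (E0 r k E (zc X) (wc X H) S) 1 Q ((x - L) / 1) (min (N / 1) (x / 1)) γ‖ ≤
          TM →
      ‖wn (fun n => mS r k E η X I S n - fs (E0 r k E (zc X) (wc X H) S) Q n) N L x γ‖ ≤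
        2 * G * Real.exp (h / 4) + TM := by
    intro Mc hMc TM hTM
    rw [wn_sub, wn_mS]
    have hd1 : wn (fun n => fs (E0 r k E (zc X) (wc X H) S) Q n) N L x γ =
        UU (Mc 1) (E0 r k E (zc X) (wc X H) S) 1 Q ((x - L) / 1) (min (N / 1) (x / 1)) γ +
        VV (Mc 1) (E0 r k E (zc X) (wc X H) S) 1 Q ((x - L) / 1) (min (N / 1) (x / 1)) γ := by
      have := UV h5 (Mc 1) (E0 r k E (zc X) (wc X H) S) 1 Q N L x γ le_rfl
      rw [dil_one] at this
      exact this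
    have hd2 : (r : ℂ) * ∑ s ∈ Finset.Icc 1 S, (k s : ℂ) * ∑ i ∈ Finset.range I,
        wn (dil s (fs (Eu E (zi X i) (zi X (i + 1))) (Qi η X i))) N L x γ =
        (r : ℂ) * ∑ s ∈ Finset.Icc 1 S, (k s : ℂ) * ∑ i ∈ Finset.range I,
          UU (Mc s) (Eu E (zi X i) (zi X (i + 1))) s (Qi η X i) ((x - L) / s)
            (min (N / s) (x / s)) γ +
        (r : ℂ) * ∑ s ∈ Finset.Icc 1 S, (k s : ℂ) * ∑ i ∈ Finset.range I,
          VV (Mc s) (Eu E (zi X i) (zi X (i + 1))) s (Qi η X i) ((x - L) / s)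
            (min (N / s) (x / s)) γ := by
      rw [← mul_add, ← Finset.sum_add_distrib]
      congr 1
      refine Finset.sum_congr rfl fun s hs => ?_
      rw [← mul_add, ← Finset.sum_add_distrib]
      congr 1
      refine Finset.sum_congr rfl fun i _ => ?_
      exact UV h5 (Mc s) _ s _ N L x γ (Finset.mem_Icc.mp hs).1
    rw [hd1, hd2]
    have hU1 : ‖(r : ℂ) * ∑ s ∈ Finset.Icc 1 S, (k s : ℂ) * ∑ i ∈ Finset.range I,
        UU (Mc s) (Eu E (zi X i) (zi X (i + 1))) s (Qi η X i) ((x - L) / s)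
          (min (N / s) (x / s)) γ‖ ≤ G * Real.exp (h / 4) := by
      set B1 : ℝ := 2 * u ^ 2 * (Cm * ((r + 1) * (C1 * (2 * lam) ^ (r + 1))) *
        (2 * lam) ^ (2 * (r - 1))) with hB1
      have hB10 : 0 ≤ B1 := by rw [hB1]; positivity
      refine (sum_bound r S I k _ (fun _ => b ^ 2 * B1) lam (fun _ => by positivity) ?_
        hIlam).trans ?_
      · intro s hs _ i hi
        have hi' : i ≤ I := (Finset.mem_range.mp hi).le
        refine (UU_bound (Mc s) _ s (Qi η X i) _ _ γ B1 hB10 ?_).trans ?_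
        · intro q a' hq1 hq2 _ hnm
          have hcj : ∀ j, |(Eu E (zi X i) (zi X (i + 1)) q).coeff j| ≤
              C1 * (2 * lam) ^ (r + 1) := by
            intro j
            have := coefE1 hK1 hC1 (zi X i) (zi X (i + 1)) lam q j (hzi1 _) hq1 (hwlog i hi)
            rw [sub_self, Real.rpow_zero, mul_one] at this
            exact this
          have hed := ed_bound hr1 _ _ (hEd (zi X i) (zi X (i + 1)) q) (by positivity) hcj
          refine (FF_unm hM1 hCm _ _ hed.1 hed.2 (by positivity) s q a' _ _ γ lam R hRpos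
            (hMc s q a' (Finset.mem_Icc.mp hs).1 hq1 (hsqR i hi' s hs q hq2) hnm)
            (hhis s) hlam0.le).trans ?_
          rw [hB1]
          apply mul_le_mul_of_nonneg_right _ (by positivity)
          have : (R : ℝ) ^ 2 ≤ u ^ 2 := pow_le_pow_left₀ hRpos.le hRu 2
          linarith
        · apply mul_le_mul_of_nonneg_right _ hB10
          exact pow_le_pow_left₀ (Nat.cast_nonneg _) (hQi i hi') 2
      · rw [← Finset.sum_mul]
        have e1 : (∑ s ∈ Finset.Icc 1 S, |k s|) * (b ^ 2 * B1) ≤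
            (a * lam ^ (2 * r)) * (b ^ 2 * B1) :=
          mul_le_mul_of_nonneg_right hksum (by positivity)
        have e2 : (r : ℝ) * (lam * ((∑ s ∈ Finset.Icc 1 S, |k s|) * (b ^ 2 * B1))) ≤
            r * (lam * ((a * lam ^ (2 * r)) * (b ^ 2 * B1))) := by
          apply mul_le_mul_of_nonneg_left _ (Nat.cast_nonneg _)
          exact mul_le_mul_of_nonneg_left e1 hlam0.le
        refine e2.trans ?_
        have e3 : (r : ℝ) * (lam * ((a * lam ^ (2 * r)) * (b ^ 2 * B1))) =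
            (K1 * lam ^ (1 + 2 * r + (r + 1) + 2 * (r - 1))) * (a * b ^ 2 * u ^ 2) := by
          rw [hB1, hK1d]
          simp only [mul_pow, pow_add]
          ring
        rw [e3]
        exact mul_le_mul hG1 habu (by positivity) hG0.le
    have hU2 : ‖UU (Mc 1) (E0 r k E (zc X) (wc X H) S) 1 Q ((x - L) / 1)
        (min (N / 1) (x / 1)) γ‖ ≤ G * Real.exp (h / 4) := by
      set B3 : ℝ := 2 * u ^ 2 * (Cm * ((r + 1) * (Cv * lam ^ Cv * Cs)) *
        (2 * lam) ^ (2 * (r - 1))) with hB3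
      have hlv : 0 ≤ lam ^ Cv := Real.rpow_nonneg hlam0.le _
      have hB30 : 0 ≤ B3 := by rw [hB3]; positivity
      refine (UU_bound (Mc 1) _ 1 Q _ _ γ B3 hB30 ?_).trans ?_
      · intro q a' hq1 hq2 _ hnm
        obtain ⟨hv1, hv2⟩ := hV X (zc X) (wc X H) k S q hKK (by linarith) hw1' hwX hSX
        have hcj : ∀ j, |(E0 r k E (zc X) (wc X H) S q).coeff j| ≤ Cv * lam ^ Cv * Cs := by
          intro j
          refine (hv2 j hq1).trans ?_
          apply mul_le_mul_of_nonneg_left _ (by positivity)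
          have := (hS1 q hq1).2
          rw [sub_self, Real.rpow_zero, mul_one] at this
          exact this
        have hed := ed_bound hr1 _ _ hv1 (by positivity) hcj
        have hqR : q * 1 ≤ R := hsqR 0 (Nat.zero_le _) 1 (Finset.mem_Icc.mpr ⟨le_rfl, hS1'⟩) q
          (hq2.trans (hQQ 0))
        refine (FF_unm hM1 hCm _ _ hed.1 hed.2 (by positivity) 1 q a' _ _ γ lam R hRpos
          (hMc 1 q a' le_rfl hq1 hqR hnm) (hhis 1) hlam0.le).trans ?_
        rw [hB3]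
        apply mul_le_mul_of_nonneg_right _ (by positivity)
        have : (R : ℝ) ^ 2 ≤ u ^ 2 := pow_le_pow_left₀ hRpos.le hRu 2
        linarith
      · have e1 : (Q : ℝ) ^ 2 * B3 ≤ b ^ 2 * B3 :=
          mul_le_mul_of_nonneg_right (pow_le_pow_left₀ (Nat.cast_nonneg _) hQb 2) hB30
        refine e1.trans ?_
        have e3 : b ^ 2 * B3 = (K3 * (lam ^ Cv * lam ^ (2 * (r - 1)))) * (1 * b ^ 2 * u ^ 2) := by
          rw [hB3, hK3d]
          simp only [mul_pow]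
          ring
        rw [e3]
        have e4 : 1 * b ^ 2 * u ^ 2 ≤ a * b ^ 2 * u ^ 2 := by
          apply mul_le_mul_of_nonneg_right _ (by positivity)
          exact mul_le_mul_of_nonneg_right ha1 (by positivity)
        exact mul_le_mul hG3 (e4.trans habu) (by positivity) hG0.le
    generalize (r : ℂ) * ∑ s ∈ Finset.Icc 1 S, (k s : ℂ) * ∑ i ∈ Finset.range I,
        UU (Mc s) (Eu E (zi X i) (zi X (i + 1))) s (Qi η X i) ((x - L) / s)
          (min (N / s) (x / s)) γ = p1 at hU1 ⊢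
    generalize (r : ℂ) * ∑ s ∈ Finset.Icc 1 S, (k s : ℂ) * ∑ i ∈ Finset.range I,
        VV (Mc s) (Eu E (zi X i) (zi X (i + 1))) s (Qi η X i) ((x - L) / s)
          (min (N / s) (x / s)) γ = p2 at hTM ⊢
    generalize UU (Mc 1) (E0 r k E (zc X) (wc X H) S) 1 Q ((x - L) / 1)
        (min (N / 1) (x / 1)) γ = p3 at hU2 ⊢
    generalize VV (Mc 1) (E0 r k E (zc X) (wc X H) S) 1 Q ((x - L) / 1)
        (min (N / 1) (x / 1)) γ = p4 at hTM ⊢
    have e5 : p1 + p2 - (p3 + p4) = p1 + (p2 - p4) - p3 := by ring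
    rw [e5]
    calc ‖p1 + (p2 - p4) - p3‖ ≤ ‖p1 + (p2 - p4)‖ + ‖p3‖ := norm_sub_le _ _
      _ ≤ ‖p1‖ + ‖p2 - p4‖ + ‖p3‖ := by linarith [norm_add_le p1 (p2 - p4)]
      _ ≤ 2 * G * Real.exp (h / 4) + TM := by linarith
  have hLexp : Real.exp (3 / 4 * h) ≤ L := by
    have : H ^ (3 / 4 : ℝ) = Real.exp (3 / 4 * h) := by rw [hpow, mul_comm]
    rw [← this]
    exact hL1
  have hfin := fin_ineq hl3 hη hlη hH6' hLexp
  have hH20 : H ^ (-(1 / 20) : ℝ) = Real.exp (-(h / 20)) := by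
    rw [hpow]
    congr 1
    ring
  have hL0 : (0 : ℝ) ≤ L := Nat.cast_nonneg _
  suffices hmm : ∃ Mc : ℕ → ℕ → ℕ → Prop,
      (∀ s q a : ℕ, 1 ≤ s → 1 ≤ q → q * s ≤ R → ¬ Mc s q a →
        1 / (2 * (R : ℝ) ^ 2) ≤ nn ((a : ℝ) / q + s * γ)) ∧
      ‖(r : ℂ) * ∑ s ∈ Finset.Icc 1 S, (k s : ℂ) * ∑ i ∈ Finset.range I,
        VV (Mc s) (Eu E (zi X i) (zi X (i + 1))) s (Qi η X i) ((x - L) / s)
          (min (N / s) (x / s)) γ -
        VV (Mc 1) (E0 r k E (zc X) (wc X H) S) 1 Q ((x - L) / 1) (min (N / 1) (x / 1)) γ‖ ≤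
          L * Real.exp (-(h / 20)) + G * L * Real.exp (-(η * l ^ 3)) by
    obtain ⟨Mc, hMc, hTM⟩ := hmm
    refine (main Mc hMc _ hTM).trans ?_
    linarith
  have hp1 : 0 ≤ L * Real.exp (-(h / 20)) := by positivity
  have hp2 : 0 ≤ G * L * Real.exp (-(η * l ^ 3)) := by positivity
  rcases h8 R γ hR1 with hA' | ⟨D, c, hD1, hDR, hcD, hγ, hB⟩
  · refine ⟨fun _ _ _ => False, fun s q a' hs hq hqs _ => hA' s q a' hs hq hqs, ?_⟩
    have hV0 : ∀ (E' : ℕ → Polynomial ℝ) (s Q' lo hi : ℕ),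
        VV (fun _ _ => False) E' s Q' lo hi γ = 0 := by
      intro E' s Q' lo hi
      unfold VV
      simp
    simp only [hV0]
    simp only [Finset.sum_const_zero, mul_zero, sub_zero, norm_zero]
    linarith
  · refine ⟨fun s q a' => Mt D c s q a', fun s q a' hs hq hqs hn => hB s q a' hs hq hqs hn, ?_⟩
    by_cases hDQ : D ≤ Q
    · refine le_trans ?_ (le_add_of_nonneg_right hp2)
      rw [← hH20]
      have h77 := hX7 X H (γ - c / D) k N L x D hXX7 hH6 hHX hH0 hKK hN hL1 hL2 hD1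
        (hγ.le.trans hR2)
      have hcop : ∀ s, 1 ≤ s → k s ≠ 0 → Nat.Coprime D s := by
        intro s hs hk
        apply Nat.coprime_of_dvd
        intro p hp hpD hps
        have e1 := (hKK.2.1 s hk).2 p (Nat.mem_primeFactors.mpr ⟨hp, hps, by omega⟩)
        have e2 : (p : ℝ) ≤ D := by exact_mod_cast Nat.le_of_dvd (by omega) hpD
        have e3 : (D : ℝ) ≤ Q := by exact_mod_cast hDQ
        have e4 : (Q : ℝ) ≤ Real.exp (4 * η * l2 X ^ 3) := Nat.floor_le (Real.exp_pos _).le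
        have e5 : Real.exp (4 * η * l2 X ^ 3) ≤ zc X := by
          have e6 : zc X = Real.exp (2 ^ 0 * l2 X ^ 3) := rfl
          rw [e6]
          apply Real.exp_le_exp.mpr
          rw [← hl, pow_zero]
          exact mul_le_mul_of_nonneg_right (by linarith) hl3p.le
        linarith [e1.1]
      have hsum : (r : ℂ) * ∑ s ∈ Finset.Icc 1 S, (k s : ℂ) * ∑ i ∈ Finset.range I,
          VV (fun q a' => Mt D c s q a') (Eu E (zi X i) (zi X (i + 1))) s (Qi η X i)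
            ((x - L) / s) (min (N / s) (x / s)) γ =
          (r : ℂ) * ∑ s ∈ Finset.Icc 1 S, (k s : ℂ) * ∑ i ∈ Finset.range I,
            ∑ m ∈ Finset.Ioc ((x - L) / s) (min (N / s) (x / s)),
              (((ed (Eu E (zi X i) (zi X (i + 1)) D)).eval (Real.log m) : ℝ) : ℂ) *
                ee (m * (s * (γ - c / D))) := by
        congr 1
        refine Finset.sum_congr rfl fun s hs => ?_
        have hs1 := (Finset.mem_Icc.mp hs).1
        by_cases hk : k s = 0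
        · rw [hk]; simp
        congr 1
        refine Finset.sum_congr rfl fun i _ => ?_
        exact VV_small h7 D s c hD1 hs1 hcD (hcop s hs1 hk) _ _ _ _ γ (hDQ.trans (hQQ i))
      have hone := VV_small h7 D 1 c hD1 le_rfl hcD (Nat.coprime_one_right D)
        (E0 r k E (zc X) (wc X H) S) Q ((x - L) / 1) (min (N / 1) (x / 1)) γ hDQ
      rw [hsum, hone]
      simp only [Nat.div_one, Nat.cast_one, one_mul]
      exact h77
    · refine le_trans ?_ (le_add_of_nonneg_left hp1)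
      push Not at hDQ
      have hone : VV (fun q a' => Mt D c 1 q a') (E0 r k E (zc X) (wc X H) S) 1 Q ((x - L) / 1)
          (min (N / 1) (x / 1)) γ = 0 := by
        rcases VV_cases (fun q a' => Mt D c 1 q a') (E0 r k E (zc X) (wc X H) S) 1 Q
          ((x - L) / 1) (min (N / 1) (x / 1)) γ (Mt_uniq h7 D 1 c hD1 le_rfl hcD) with
          h0 | ⟨q, a', hq1, hq2, _, hca, hm, _⟩
        · exact h0
        · exfalso
          have e1 := (h7 D 1 c hD1 le_rfl hcD).1 q a' hq1 hca hm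
          rw [Nat.gcd_one_right, Nat.div_one] at e1
          omega
      rw [hone, sub_zero]
      set T : ℕ → ℝ := fun s => (2 * L / s) * ((((r - 1 : ℕ) : ℝ) + 1) *
        ((r + 1) * (C2 * (2 * lam) ^ (r + 1) * ((Nat.gcd D s : ℝ) / D) ^ (1 / 2 : ℝ))) *
          (2 * lam) ^ (r - 1)) with hT
      have hT0 : ∀ s, 0 ≤ T s := fun s => by
        have : 0 ≤ ((Nat.gcd D s : ℝ) / D) ^ (1 / 2 : ℝ) := Real.rpow_nonneg (by positivity) _
        simp only [hT]
        positivity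
      refine (sum_bound r S I k _ T lam hT0 ?_ hIlam).trans ?_
      · intro s hs _ i hi
        have hs1 := (Finset.mem_Icc.mp hs).1
        rcases VV_cases (fun q a' => Mt D c s q a') (Eu E (zi X i) (zi X (i + 1))) s
          (Qi η X i) ((x - L) / s) (min (N / s) (x / s)) γ (Mt_uniq h7 D s c hD1 hs1 hcD) with
          h0 | ⟨q, a', hq1, hq2, _, hca, hm, hval⟩
        · rw [h0, norm_zero]
          exact hT0 s
        · rw [hval]
          have e1 := (h7 D s c hD1 hs1 hcD).1 q a' hq1 hca hm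
          have hg1 : 1 ≤ Nat.gcd D s := Nat.gcd_pos_of_pos_left s (by omega)
          have hcj : ∀ j, |(Eu E (zi X i) (zi X (i + 1)) q).coeff j| ≤
              C2 * (2 * lam) ^ (r + 1) * ((Nat.gcd D s : ℝ) / D) ^ (1 / 2 : ℝ) := by
            intro j
            have e2 := coefE1 hK2 hC2 (zi X i) (zi X (i + 1)) lam q j (hzi1 _) hq1 (hwlog i hi)
            have e3 : (q : ℝ) ^ ((1 / 2 : ℝ) - 1) = ((Nat.gcd D s : ℝ) / D) ^ (1 / 2 : ℝ) := by
              rw [e1]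
              exact q_pow hD1 hg1 (Nat.gcd_dvd_left D s)
            rw [e3] at e2
            exact e2
          have hg0 : 0 ≤ ((Nat.gcd D s : ℝ) / D) ^ (1 / 2 : ℝ) :=
            Real.rpow_nonneg (by positivity) _
          have hed := ed_bound hr1 _ _ (hEd (zi X i) (zi X (i + 1)) q) (by positivity) hcj
          exact FF_triv _ _ hed.1 hed.2 (by positivity) s q a' _ _ γ lam (2 * L / s) (hhis s)
            hlam0.le (div_len N L x s hs1 (hSL s hs))
      · have hD0 : (0 : ℝ) < D := by exact_mod_cast hD1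
        have e1 : ∑ s ∈ Finset.Icc 1 S, |k s| * T s ≤ (2 * L * ((((r - 1 : ℕ) : ℝ) + 1) *
            ((r + 1) * (C2 * (2 * lam) ^ (r + 1))) * (2 * lam) ^ (r - 1))) *
            ∑ s ∈ Finset.Icc 1 S, dr (2 * r) s / (s : ℝ) *
              ((Nat.gcd D s : ℝ) / D) ^ (1 / 2 : ℝ) := by
          rw [Finset.mul_sum]
          refine Finset.sum_le_sum fun s _ => ?_
          refine (mul_le_mul_of_nonneg_right (hKK.1 s) (hT0 s)).trans (le_of_eq ?_)
          simp only [hT]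
          ring
        have e2 := hM5 D S hD1 hS1'
        have e3 : (D : ℝ) ^ (-(1 / 4) : ℝ) ≤ Real.exp (-(η * l ^ 3)) := by
          have e4 : Real.exp (4 * η * l2 X ^ 3) < D := (Nat.floor_lt (Real.exp_pos _).le).mp hDQ
          have e5 : (D : ℝ) ^ (-(1 / 4) : ℝ) ≤
              (Real.exp (4 * η * l2 X ^ 3)) ^ (-(1 / 4) : ℝ) :=
            Real.rpow_le_rpow_of_nonpos (Real.exp_pos _) e4.le (by norm_num)
          refine e5.trans (le_of_eq ?_)
          rw [← Real.exp_mul, ← hl]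
          congr 1
          ring
        have e6 : C5 * (D : ℝ) ^ (-(1 / 4) : ℝ) * (1 + Real.log S) ^ (2 * r) ≤
            C5 * Real.exp (-(η * l ^ 3)) * lam ^ (2 * r) := by
          apply mul_le_mul
          · exact mul_le_mul_of_nonneg_left e3 hC5.le
          · exact pow_le_pow_left₀ (by linarith) hlogS _
          · positivity
          · positivity
        set W : ℝ := 2 * L * ((((r - 1 : ℕ) : ℝ) + 1) *
            ((r + 1) * (C2 * (2 * lam) ^ (r + 1))) * (2 * lam) ^ (r - 1)) with hW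
        have hW0 : 0 ≤ W := by rw [hW]; positivity
        have e7 : ∑ s ∈ Finset.Icc 1 S, |k s| * T s ≤
            W * (C5 * Real.exp (-(η * l ^ 3)) * lam ^ (2 * r)) :=
          e1.trans (mul_le_mul_of_nonneg_left (e2.trans e6) hW0)
        have e8 : (r : ℝ) * (lam * ∑ s ∈ Finset.Icc 1 S, |k s| * T s) ≤
            r * (lam * (W * (C5 * Real.exp (-(η * l ^ 3)) * lam ^ (2 * r)))) := by
          apply mul_le_mul_of_nonneg_left _ (Nat.cast_nonneg _)
          exact mul_le_mul_of_nonneg_left e7 hlam0.le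
        refine e8.trans ?_
        have e9 : (r : ℝ) * (lam * (W * (C5 * Real.exp (-(η * l ^ 3)) * lam ^ (2 * r)))) =
            (K2 * lam ^ (1 + 2 * r + (r + 1) + (r - 1))) * (L * Real.exp (-(η * l ^ 3))) := by
          rw [hW, hK2d]
          simp only [mul_pow, pow_add]
          ring
        rw [e9, mul_assoc G]
        exact mul_le_mul_of_nonneg_right hG2 (by positivity)

end Pool.Agent.Work.MP_122e00_nt.FP
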