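import Pool.Agent.Work.MP_122e00_nt.FP.StmtsC

/-!
# MP_122e00_nt, block FP, item M2 (helper60): the sum over the multiples of `s` and the whole sum

Abel summation with the partial sums of `1_{s ∣ n} - 1/s`, which are at most one.
-/

set_option autoImplicit false

namespace Pool.Agent.Work.MP_122e00_nt.FP

open Finset

namespace M2x

/-- partial sums of `1_{s ∣ n} - 1/s` over `(lo, x]` -/
noncomputable def S (s lo x : ℕ) : ℝ := ((x / s : ℕ) : ℝ) - ((lo / s : ℕ) : ℝ) - ((x : ℝ) - lo) / s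

theorem S_lo (s lo : ℕ) : S s lo lo = 0 := by simp [S]

theorem S_succ (s lo x : ℕ) :
    S s lo (x + 1) = S s lo x + (if s ∣ x + 1 then 1 else 0) - 1 / s := by
  unfold S
  rw [Nat.succ_div]
  push_cast
  split_ifs <;> ring

theorem S_abs (s lo x : ℕ) (hs : 1 ≤ s) : |S s lo x| ≤ 1 := by
  have hs' : (0 : ℝ) < s := by exact_mod_cast hs
  have key : ∀ y : ℕ, 0 ≤ (y : ℝ) / s - ((y / s : ℕ) : ℝ) ∧ (y : ℝ) / s - ((y / s : ℕ) : ℝ) ≤ 1 := by
    intro y
    have h1 : y = s * (y / s) + y % s := (Nat.div_add_mod y s).symm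
    have h2 : (y : ℝ) = s * ((y / s : ℕ) : ℝ) + ((y % s : ℕ) : ℝ) := by exact_mod_cast h1
    have h3 : y % s < s := Nat.mod_lt _ hs
    have h4 : ((y % s : ℕ) : ℝ) < s := by exact_mod_cast h3
    have h5 : (0 : ℝ) ≤ ((y % s : ℕ) : ℝ) := by positivity
    have h6 : (y : ℝ) / s - ((y / s : ℕ) : ℝ) = ((y % s : ℕ) : ℝ) / s := by
      rw [h2]
      have : s * (y / s) + y % s = y := Nat.div_add_mod y s
      field_simp
      ring
    rw [h6]
    exact ⟨by positivity, by rw [div_le_one hs']; exact h4.le⟩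
  have h1 := key x
  have h2 := key lo
  have e : S s lo x = ((lo : ℝ) / s - ((lo / s : ℕ) : ℝ)) - ((x : ℝ) / s - ((x / s : ℕ) : ℝ)) := by
    unfold S
    ring
  rw [e, abs_le]
  constructor <;> linarith [h1.1, h1.2, h2.1, h2.2]

theorem abelS (F : ℕ → ℂ) (s lo k : ℕ) :
    ∑ n ∈ Ioc lo (lo + k), (if s ∣ n then F n else 0) - (1 / (s : ℂ)) * ∑ n ∈ Ioc lo (lo + k), F n =
      (S s lo (lo + k) : ℂ) * F (lo + k) -
        ∑ n ∈ Ioc lo (lo + k - 1), (S s lo n : ℂ) * (F (n + 1) - F n) := by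
  induction k with
  | zero => simp [S_lo]
  | succ k ih =>
    have h1 : ∀ f : ℕ → ℂ, ∑ n ∈ Ioc lo (lo + (k + 1)), f n =
        ∑ n ∈ Ioc lo (lo + k), f n + f (lo + (k + 1)) := by
      intro f
      rw [← add_assoc, Finset.sum_Ioc_succ_top (by omega)]
    have h2 : ∑ n ∈ Ioc lo (lo + (k + 1) - 1), (S s lo n : ℂ) * (F (n + 1) - F n) =
        ∑ n ∈ Ioc lo (lo + k - 1), (S s lo n : ℂ) * (F (n + 1) - F n) +
          (S s lo (lo + k) : ℂ) * (F (lo + k + 1) - F (lo + k)) := by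
      rcases Nat.eq_zero_or_pos k with hk | hk
      · subst hk
        simp [S_lo]
      · obtain ⟨j, rfl⟩ : ∃ j, k = j + 1 := ⟨k - 1, by omega⟩
        have e1 : lo + (j + 1 + 1) - 1 = lo + j + 1 := by omega
        have e2 : lo + (j + 1) - 1 = lo + j := by omega
        rw [e1, e2, Finset.sum_Ioc_succ_top (by omega)]
        rfl
    rw [h1, h1, h2, ← add_assoc]
    have h3 : (S s lo (lo + k + 1) : ℂ) = (S s lo (lo + k) : ℂ) +
        (if s ∣ lo + k + 1 then 1 else 0) - 1 / s := by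
      rw [S_succ]
      push_cast
      split_ifs <;> simp
    rw [h3]
    by_cases hd : s ∣ lo + k + 1
    · simp only [hd, if_true]
      linear_combination ih
    · simp only [hd, if_false]
      linear_combination ih

end M2x

open M2x in
theorem pfM2 : fpM2 := by
  intro F s lo hi G V hs hlh hG hF hV
  obtain ⟨k, rfl⟩ : ∃ k, hi = lo + k := ⟨hi - lo, by omega⟩
  rw [Finset.sum_filter, M2x.abelS]
  have hA : ‖(S s lo (lo + k) : ℂ) * F (lo + k)‖ ≤ G := by
    rcases Nat.eq_zero_or_pos k with hk | hk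
    · subst hk
      simpa [S_lo] using hG
    · have h1 := hF (lo + k) (Finset.mem_Ioc.mpr ⟨by omega, le_rfl⟩)
      rw [norm_mul, Complex.norm_real, Real.norm_eq_abs]
      have h2 := S_abs s lo (lo + k) hs
      calc |S s lo (lo + k)| * ‖F (lo + k)‖ ≤ 1 * ‖F (lo + k)‖ :=
            mul_le_mul_of_nonneg_right h2 (norm_nonneg _)
        _ ≤ G := by rw [one_mul]; exact h1
  have hB : ‖∑ n ∈ Ioc lo (lo + k - 1), (S s lo n : ℂ) * (F (n + 1) - F n)‖ ≤ V := by
    refine (norm_sum_le _ _).trans (le_trans (Finset.sum_le_sum fun n _ => ?_) hV)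
    rw [norm_mul, Complex.norm_real, Real.norm_eq_abs]
    calc |S s lo n| * ‖F (n + 1) - F n‖ ≤ 1 * ‖F (n + 1) - F n‖ :=
          mul_le_mul_of_nonneg_right (S_abs s lo n hs) (norm_nonneg _)
      _ = ‖F (n + 1) - F n‖ := one_mul _
  have := norm_sub_le ((S s lo (lo + k) : ℂ) * F (lo + k))
    (∑ n ∈ Ioc lo (lo + k - 1), (S s lo n : ℂ) * (F (n + 1) - F n))
  linarith

end Pool.Agent.Work.MP_122e00_nt.FP
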