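import Mathlib
import Pool.Agent.Work.MP_122e00_nt.FP.StmtsC

set_option autoImplicit false

/-! # Item M3 of the block FP: variation of `p(log n - log s) e(n θ)` -/

namespace Pool.Agent.Work.MP_122e00_nt.FP

open Finset Filter Topology ArithmeticFunction MeasureTheory
open Pool.Agent.Work.MP_122e00_nt.TS
open scoped ArithmeticFunction.zeta ArithmeticFunction.Moebius

namespace M3x

theorem ee_add (x y : ℝ) : ee (x + y) = ee x * ee y := by
  unfold ee
  rw [← Complex.exp_add]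
  congr 1
  push_cast
  ring

theorem ee_eq (x : ℝ) : ee x = Complex.exp (((2 * Real.pi * x : ℝ) : ℂ) * Complex.I) := by
  unfold ee
  push_cast
  rfl

theorem ee_norm (x : ℝ) : ‖ee x‖ = 1 := by
  rw [ee_eq]
  exact Complex.norm_exp_ofReal_mul_I _

theorem ee_sub_one (β : ℝ) : ‖ee β - 1‖ ≤ 2 * Real.pi * |β| := by
  have h := Real.norm_exp_I_mul_ofReal_sub_one_le (x := 2 * Real.pi * β)
  have h2 : ‖(2 * Real.pi * β : ℝ)‖ = 2 * Real.pi * |β| := by
    rw [Real.norm_eq_abs, abs_mul, abs_of_pos Real.two_pi_pos]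
  rw [h2] at h
  refine le_trans (le_of_eq ?_) h
  rw [ee_eq, mul_comm]

theorem ee_step (β : ℝ) (n : ℕ) :
    ‖ee (((n + 1 : ℕ) : ℝ) * β) - ee ((n : ℝ) * β)‖ ≤ 2 * Real.pi * |β| := by
  have h : ee (((n + 1 : ℕ) : ℝ) * β) - ee ((n : ℝ) * β) = ee ((n : ℝ) * β) * (ee β - 1) := by
    have : (((n + 1 : ℕ) : ℝ) * β) = (n : ℝ) * β + β := by
      push_cast
      ring
    rw [this, ee_add]
    ring
  rw [h, norm_mul, ee_norm, one_mul]
  exact ee_sub_one β

theorem eval_le (d : ℕ) (p : Polynomial ℝ) (M L x : ℝ) (hp : p.natDegree ≤ d)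
    (hM : ∀ j, |p.coeff j| ≤ M) (hL : 1 ≤ L) (hx : |x| ≤ L) :
    |p.eval x| ≤ ((d : ℝ) + 1) * M * L ^ d := by
  have hM0 : 0 ≤ M := le_trans (abs_nonneg _) (hM 0)
  rw [Polynomial.eval_eq_sum_range' (Nat.lt_succ_of_le hp) x]
  refine le_trans (Finset.abs_sum_le_sum_abs _ _) ?_
  have h1 : ∀ i ∈ Finset.range (d + 1), |p.coeff i * x ^ i| ≤ M * L ^ d := by
    intro i hi
    rw [Finset.mem_range] at hi
    rw [abs_mul, abs_pow]
    have h2 : |x| ^ i ≤ L ^ d :=
      (pow_le_pow_left₀ (abs_nonneg x) hx i).trans (pow_le_pow_right₀ hL (by omega))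
    exact mul_le_mul (hM i) h2 (by positivity) hM0
  refine le_trans (Finset.sum_le_sum h1) (le_of_eq ?_)
  rw [Finset.sum_const, Finset.card_range, nsmul_eq_mul]
  push_cast
  ring

theorem pow_sub_le (L x y : ℝ) (hL : 1 ≤ L) (hx : |x| ≤ L) (hy : |y| ≤ L) (j : ℕ) :
    |x ^ j - y ^ j| ≤ j * L ^ j * |x - y| := by
  induction j with
  | zero => simp
  | succ j ih =>
    have h1 : x ^ (j + 1) - y ^ (j + 1) = x * (x ^ j - y ^ j) + y ^ j * (x - y) := by ring
    have h2 : |x * (x ^ j - y ^ j)| ≤ L * (j * L ^ j * |x - y|) := by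
      rw [abs_mul]
      exact mul_le_mul hx ih (abs_nonneg _) (by linarith)
    have h3 : |y ^ j * (x - y)| ≤ L ^ (j + 1) * |x - y| := by
      rw [abs_mul, abs_pow]
      refine mul_le_mul_of_nonneg_right ?_ (abs_nonneg _)
      exact (pow_le_pow_left₀ (abs_nonneg y) hy j).trans (pow_le_pow_right₀ hL (by omega))
    rw [h1]
    refine (abs_add_le _ _).trans ((add_le_add h2 h3).trans (le_of_eq ?_))
    push_cast
    ring

theorem eval_sub_le (d : ℕ) (p : Polynomial ℝ) (M L x y : ℝ) (hp : p.natDegree ≤ d)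
    (hM : ∀ j, |p.coeff j| ≤ M) (hL : 1 ≤ L) (hx : |x| ≤ L) (hy : |y| ≤ L) :
    |p.eval x - p.eval y| ≤ ((d : ℝ) + 1) ^ 2 * M * L ^ d * |x - y| := by
  have hM0 : 0 ≤ M := le_trans (abs_nonneg _) (hM 0)
  rw [Polynomial.eval_eq_sum_range' (Nat.lt_succ_of_le hp) x,
    Polynomial.eval_eq_sum_range' (Nat.lt_succ_of_le hp) y, ← Finset.sum_sub_distrib]
  refine le_trans (Finset.abs_sum_le_sum_abs _ _) ?_
  have h1 : ∀ i ∈ Finset.range (d + 1), |p.coeff i * x ^ i - p.coeff i * y ^ i| ≤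
      M * (((d : ℝ) + 1) * L ^ d * |x - y|) := by
    intro i hi
    rw [Finset.mem_range] at hi
    rw [← mul_sub, abs_mul]
    have hid : (i : ℝ) ≤ (d : ℝ) + 1 := by exact_mod_cast hi.le
    have h2 : |x ^ i - y ^ i| ≤ ((d : ℝ) + 1) * L ^ d * |x - y| := by
      refine (pow_sub_le L x y hL hx hy i).trans ?_
      refine mul_le_mul_of_nonneg_right ?_ (abs_nonneg _)
      exact mul_le_mul hid (pow_le_pow_right₀ hL (by omega)) (by positivity) (by positivity)
    exact mul_le_mul (hM i) h2 (abs_nonneg _) hM0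
  refine le_trans (Finset.sum_le_sum h1) (le_of_eq ?_)
  rw [Finset.sum_const, Finset.card_range, nsmul_eq_mul]
  push_cast
  ring

theorem tele (K : ℕ) : ∑ n ∈ Finset.Ioc 0 K, (Real.log ((n + 1 : ℕ) : ℝ) - Real.log n) =
    Real.log ((K + 1 : ℕ) : ℝ) := by
  induction K with
  | zero => simp
  | succ K ih =>
    rw [Finset.sum_Ioc_succ_top (Nat.zero_le K), ih]
    ring

end M3x

open M3x in
theorem pfM3 : fpM3 := by
  intro d
  have hpi : (1 : ℝ) ≤ 2 * Real.pi := by nlinarith [Real.pi_gt_three]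
  refine ⟨((d : ℝ) + 1) ^ 2 * (2 * Real.pi), by positivity, ?_⟩
  intro p M θ lam s lo hi hp hM hM0 hs hlohi hlam hhi hsl
  have hd1 : (1 : ℝ) ≤ (d : ℝ) + 1 := by
    have : (0 : ℝ) ≤ d := Nat.cast_nonneg d
    linarith
  have hsl0 : 0 ≤ Real.log s := Real.log_nonneg (by exact_mod_cast hs)
  have hx : ∀ n : ℕ, 1 ≤ n → n ≤ hi → |Real.log n - Real.log s| ≤ lam := by
    intro n hn1 hn2
    have hn1' : (1 : ℝ) ≤ n := by exact_mod_cast hn1
    have hn2' : (n : ℝ) ≤ hi := by exact_mod_cast hn2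
    have h1 : 0 ≤ Real.log n := Real.log_nonneg hn1'
    have h2 : Real.log n ≤ lam := (Real.log_le_log (by linarith) hn2').trans hhi
    rw [abs_le]
    constructor <;> linarith
  have hval : ∀ n : ℕ, 1 ≤ n → n ≤ hi →
      |p.eval (Real.log n - Real.log s)| ≤ ((d : ℝ) + 1) * M * lam ^ d :=
    fun n h1 h2 => eval_le d p M lam _ hp hM hlam (hx n h1 h2)
  have hpow : (0 : ℝ) ≤ lam ^ d := by positivity
  have hMl : 0 ≤ M * lam ^ d := mul_nonneg hM0 hpow
  have hdd : (d : ℝ) + 1 ≤ ((d : ℝ) + 1) ^ 2 * (2 * Real.pi) := by nlinarith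
  refine ⟨?_, ?_⟩
  · intro n hn
    rw [Finset.mem_Ioc] at hn
    rw [norm_mul, ee_norm, mul_one, Complex.norm_real, Real.norm_eq_abs]
    refine (hval n (by omega) hn.2).trans ?_
    rw [mul_assoc, mul_assoc _ M]
    exact mul_le_mul_of_nonneg_right hdd hMl
  · have hterm : ∀ n ∈ Finset.Ioc lo (hi - 1),
        ‖((p.eval (Real.log ((n + 1 : ℕ) : ℝ) - Real.log s) : ℝ) : ℂ) * ee (((n + 1 : ℕ) : ℝ) * θ) -
          ((p.eval (Real.log n - Real.log s) : ℝ) : ℂ) * ee (n * θ)‖ ≤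
        ((d : ℝ) + 1) ^ 2 * M * lam ^ d * (Real.log ((n + 1 : ℕ) : ℝ) - Real.log n) +
          ((d : ℝ) + 1) * M * lam ^ d * (2 * Real.pi * |θ|) := by
      intro n hn
      rw [Finset.mem_Ioc] at hn
      have hn1 : 1 ≤ n := by omega
      have hn2 : n + 1 ≤ hi := by omega
      have h0 : (0 : ℝ) < n := by exact_mod_cast hn1
      have h1 : ((p.eval (Real.log ((n + 1 : ℕ) : ℝ) - Real.log s) : ℝ) : ℂ) *
            ee (((n + 1 : ℕ) : ℝ) * θ) - ((p.eval (Real.log n - Real.log s) : ℝ) : ℂ) * ee (n * θ) =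
          ((p.eval (Real.log ((n + 1 : ℕ) : ℝ) - Real.log s) -
            p.eval (Real.log n - Real.log s) : ℝ) : ℂ) * ee (((n + 1 : ℕ) : ℝ) * θ) +
          ((p.eval (Real.log n - Real.log s) : ℝ) : ℂ) *
            (ee (((n + 1 : ℕ) : ℝ) * θ) - ee ((n : ℝ) * θ)) := by
        rw [Complex.ofReal_sub]
        ring
      rw [h1]
      refine (norm_add_le _ _).trans (add_le_add ?_ ?_)
      · rw [norm_mul, ee_norm, mul_one, Complex.norm_real, Real.norm_eq_abs]
        have h2 := eval_sub_le d p M lam _ _ hp hM hlam (hx (n + 1) (by omega) hn2)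
          (hx n hn1 (by omega))
        refine h2.trans (le_of_eq ?_)
        have h3 : Real.log n ≤ Real.log ((n + 1 : ℕ) : ℝ) :=
          Real.log_le_log h0 (by push_cast; linarith)
        have h4 : Real.log ((n + 1 : ℕ) : ℝ) - Real.log s - (Real.log n - Real.log s) =
            Real.log ((n + 1 : ℕ) : ℝ) - Real.log n := by ring
        rw [h4, abs_of_nonneg (sub_nonneg.2 h3)]
      · rw [norm_mul, Complex.norm_real, Real.norm_eq_abs]
        exact mul_le_mul (hval n hn1 (by omega)) (ee_step θ n) (norm_nonneg _)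
          (mul_nonneg (mul_nonneg (by linarith) hM0) hpow)
    refine (Finset.sum_le_sum hterm).trans ?_
    rw [Finset.sum_add_distrib, ← Finset.mul_sum, Finset.sum_const, Nat.card_Ioc, nsmul_eq_mul]
    have hlog : ∑ n ∈ Finset.Ioc lo (hi - 1), (Real.log ((n + 1 : ℕ) : ℝ) - Real.log n) ≤ lam := by
      rcases Nat.eq_zero_or_pos hi with h0 | h0
      · rw [h0]
        simp only [zero_tsub, Finset.Ioc_eq_empty_of_le (Nat.zero_le lo), Finset.sum_empty]
        linarith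
      · have h1 : ∑ n ∈ Finset.Ioc lo (hi - 1), (Real.log ((n + 1 : ℕ) : ℝ) - Real.log n) ≤
            ∑ n ∈ Finset.Ioc 0 (hi - 1), (Real.log ((n + 1 : ℕ) : ℝ) - Real.log n) := by
          refine Finset.sum_le_sum_of_subset_of_nonneg
            (Finset.Ioc_subset_Ioc_left (Nat.zero_le lo)) ?_
          intro n hn _
          rw [Finset.mem_Ioc] at hn
          have h0 : (0 : ℝ) < n := by exact_mod_cast hn.1
          exact sub_nonneg.2 (Real.log_le_log h0 (by push_cast; linarith))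
        rw [tele, Nat.sub_add_cancel h0] at h1
        exact h1.trans hhi
    have hcard : ((hi - 1 - lo : ℕ) : ℝ) ≤ (hi : ℝ) - lo := by
      rw [← Nat.cast_sub hlohi]
      exact_mod_cast (by omega : hi - 1 - lo ≤ hi - lo)
    have hθ := abs_nonneg θ
    have hhl : 0 ≤ (hi : ℝ) - lo := sub_nonneg.2 (by exact_mod_cast hlohi)
    have hlp : lam ^ d ≤ lam ^ (d + 1) := pow_le_pow_right₀ hlam (Nat.le_succ d)
    have hMl1 : 0 ≤ M * lam ^ (d + 1) := mul_nonneg hM0 (by positivity)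
    have t1 : ((d : ℝ) + 1) ^ 2 * M * lam ^ d *
        ∑ n ∈ Finset.Ioc lo (hi - 1), (Real.log ((n + 1 : ℕ) : ℝ) - Real.log n) ≤
        ((d : ℝ) + 1) ^ 2 * (2 * Real.pi) * (M * lam ^ (d + 1)) := by
      have : ((d : ℝ) + 1) ^ 2 * M * lam ^ d *
          ∑ n ∈ Finset.Ioc lo (hi - 1), (Real.log ((n + 1 : ℕ) : ℝ) - Real.log n) ≤
          ((d : ℝ) + 1) ^ 2 * M * lam ^ d * lam :=
        mul_le_mul_of_nonneg_left hlog (mul_nonneg (mul_nonneg (by positivity) hM0) hpow)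
      refine this.trans ?_
      have e1 : ((d : ℝ) + 1) ^ 2 * M * lam ^ d * lam =
          ((d : ℝ) + 1) ^ 2 * 1 * (M * lam ^ (d + 1)) := by ring
      rw [e1]
      exact mul_le_mul_of_nonneg_right (mul_le_mul_of_nonneg_left hpi (by positivity)) hMl1
    have t2 : ((hi - 1 - lo : ℕ) : ℝ) * (((d : ℝ) + 1) * M * lam ^ d * (2 * Real.pi * |θ|)) ≤
        ((d : ℝ) + 1) ^ 2 * (2 * Real.pi) * (M * lam ^ (d + 1)) * (|θ| * ((hi : ℝ) - lo)) := by
      have e1 : ((hi - 1 - lo : ℕ) : ℝ) * (((d : ℝ) + 1) * M * lam ^ d * (2 * Real.pi * |θ|)) =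
          (((d : ℝ) + 1) * (2 * Real.pi)) * (M * lam ^ d) * (|θ| * ((hi - 1 - lo : ℕ) : ℝ)) := by
        ring
      rw [e1]
      refine mul_le_mul ?_ (mul_le_mul_of_nonneg_left hcard hθ) (by positivity) (by positivity)
      refine mul_le_mul ?_ (mul_le_mul_of_nonneg_left hlp hM0) hMl (by positivity)
      refine mul_le_mul_of_nonneg_right ?_ (by positivity)
      nlinarith
    refine (add_le_add t1 t2).trans (le_of_eq ?_)
    ring

end Pool.Agent.Work.MP_122e00_nt.FP
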