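import Pool.Agent.Work.MP_122e00_nt.FP.StmtsC

/-! Item [122e00 FP M4] (helper99): at most one fraction with small denominator is near. -/

namespace Pool.Agent.Work.MP_122e00_nt.FP

namespace M4x

theorem sep {R D q : ℕ} {b c : ℤ} (hD : 1 ≤ D) (hDR : D ≤ R) (hq : 1 ≤ q) (hqR : q ≤ R)
    (hne : b * (D : ℤ) ≠ c * (q : ℤ)) : 1 / (R : ℝ) ^ 2 ≤ |(b : ℝ) / q - (c : ℝ) / D| := by
  have hD0 : (0 : ℝ) < D := by exact_mod_cast hD
  have hq0 : (0 : ℝ) < q := by exact_mod_cast hq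
  have hR0 : (0 : ℝ) < R := lt_of_lt_of_le hD0 (by exact_mod_cast hDR)
  have h1 : (b : ℝ) / q - (c : ℝ) / D = ((b * (D : ℤ) - c * (q : ℤ) : ℤ) : ℝ) / (q * D) := by
    push_cast
    field_simp
  have h2 : (1 : ℝ) ≤ |((b * (D : ℤ) - c * (q : ℤ) : ℤ) : ℝ)| := by
    rw [← Int.cast_abs]
    have : (1 : ℤ) ≤ |b * (D : ℤ) - c * (q : ℤ)| := Int.one_le_abs (sub_ne_zero.2 hne)
    exact_mod_cast this
  have h3 : (0 : ℝ) < q * D := mul_pos hq0 hD0
  rw [h1, abs_div, abs_of_pos h3]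
  have h4 : (q : ℝ) * D ≤ R ^ 2 := by
    have e1 : (q : ℝ) ≤ R := by exact_mod_cast hqR
    have e2 : (D : ℝ) ≤ R := by exact_mod_cast hDR
    nlinarith
  calc 1 / (R : ℝ) ^ 2 ≤ 1 / (q * D) := one_div_le_one_div_of_le h3 h4
    _ ≤ |((b * (D : ℤ) - c * (q : ℤ) : ℤ) : ℝ)| / (q * D) := by gcongr

end M4x

/-- M4 -/
theorem pfM4 : fpM4 := by
  intro R γ hR
  by_cases h : ∀ (q : ℕ) (b : ℤ), 1 ≤ q → q ≤ R → 1 / (2 * (R : ℝ) ^ 2) ≤ |γ - b / q|
  · exact Or.inl h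
  · right
    push Not at h
    obtain ⟨q, b, hq, hqR, hlt⟩ := h
    have hq0 : (q : ℤ) ≠ 0 := by exact_mod_cast (by omega : q ≠ 0)
    set x : ℚ := (b : ℚ) / (q : ℤ) with hx
    have hden : (x.den : ℤ) ∣ (q : ℤ) := by
      rw [hx, ← Rat.divInt_eq_div]
      exact Rat.den_dvd b q
    have hdn : x.den ∣ q := by exact_mod_cast hden
    have hDR : x.den ≤ R := le_trans (Nat.le_of_dvd (by omega) hdn) hqR
    have hD1 : 1 ≤ x.den := x.den_pos
    have hcast : ((x.num : ℤ) : ℝ) / (x.den : ℝ) = (b : ℝ) / (q : ℝ) := by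
      have h1 : ((x.num : ℚ) / (x.den : ℚ) : ℚ) = (b : ℚ) / (q : ℤ) := by
        rw [Rat.num_div_den]
      have h2 : (((x.num : ℚ) / (x.den : ℚ) : ℚ) : ℝ) = (((b : ℚ) / (q : ℤ) : ℚ) : ℝ) := by
        rw [h1]
      push_cast at h2
      exact h2
    have hlt' : |γ - ((x.num : ℤ) : ℝ) / (x.den : ℝ)| < 1 / (2 * (R : ℝ) ^ 2) := by
      rw [hcast]
      exact hlt
    refine ⟨x.den, x.num, hD1, hDR, ?_, hlt', ?_⟩
    · rw [Int.isCoprime_iff_gcd_eq_one]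
      have := x.reduced
      unfold Nat.Coprime at this
      simpa [Int.gcd] using this
    · intro q' b' hq' hqR' hne
      have hs := M4x.sep (b := b') (c := x.num) hD1 hDR hq' hqR' hne
      by_contra hcon
      push Not at hcon
      have htri : |(b' : ℝ) / q' - ((x.num : ℤ) : ℝ) / x.den| ≤
          |γ - (b' : ℝ) / q'| + |γ - ((x.num : ℤ) : ℝ) / x.den| := by
        have e : (b' : ℝ) / q' - ((x.num : ℤ) : ℝ) / x.den =
            -(γ - (b' : ℝ) / q') + (γ - ((x.num : ℤ) : ℝ) / x.den) := by ring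
        rw [e]
        refine (abs_add_le _ _).trans ?_
        rw [abs_neg]
      have hhalf : 1 / (R : ℝ) ^ 2 = 1 / (2 * (R : ℝ) ^ 2) + 1 / (2 * (R : ℝ) ^ 2) := by
        have : (R : ℝ) ≠ 0 := by
          have : (0 : ℝ) < R := by exact_mod_cast hR
          exact this.ne'
        field_simp
        norm_num
      rw [hhalf] at hs
      linarith

end Pool.Agent.Work.MP_122e00_nt.FP
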