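import Pool.Agent.Work.MP_122e00_nt.FP.StmtsC
import Pool.Agent.Work.MP_122e00_nt.TS.I_X2

/-!
# Full polynomial, item M5: a sum over common divisors
-/

set_option autoImplicit false

namespace Pool.Agent.Work.MP_122e00_nt.FP

open Finset Filter Topology ArithmeticFunction MeasureTheory
open Pool.Agent.Work.MP_122e00_nt.TS
open scoped ArithmeticFunction.zeta ArithmeticFunction.Moebius

namespace M5x

theorem dr_nonneg (r n : ℕ) : 0 ≤ dr r n := Nat.cast_nonneg _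

theorem dr_sub (r a b : ℕ) : dr r (a * b) ≤ dr r a * dr r b := by
  unfold dr
  exact_mod_cast IX2.z_sub r a b

theorem dr_two (n : ℕ) : dr 2 n = (n.divisors.card : ℝ) := by
  unfold dr
  rw [pow_two]
  have h2 : (ζ : ArithmeticFunction ℕ) * ζ = ArithmeticFunction.sigma 0 := by
    rw [← ArithmeticFunction.zeta_mul_pow_eq_sigma, ArithmeticFunction.pow_zero_eq_zeta]
  rw [h2, ArithmeticFunction.sigma_zero_apply]

/-- the multiples of `g` -/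
theorem inner (h1 : fpL1) (R g S : ℕ) (hg : 1 ≤ g) (hS : 1 ≤ S) :
    ∑ s ∈ (Finset.Icc 1 S).filter (fun s => g ∣ s), dr R s / (s : ℝ) ≤
      dr R g / g * (1 + Real.log S) ^ R := by
  have hg0 : (0 : ℝ) < g := by exact_mod_cast hg
  have hinj : Set.InjOn (fun m : ℕ => g * m) ((Finset.Icc 1 S : Finset ℕ) : Set ℕ) := by
    intro a _ b _ h
    exact Nat.eq_of_mul_eq_mul_left (by omega) h
  calc ∑ s ∈ (Finset.Icc 1 S).filter (fun s => g ∣ s), dr R s / (s : ℝ)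
      ≤ ∑ s ∈ (Finset.Icc 1 S).image (fun m => g * m), dr R s / (s : ℝ) := by
        apply Finset.sum_le_sum_of_subset_of_nonneg
        · intro s hs
          rw [Finset.mem_filter, Finset.mem_Icc] at hs
          obtain ⟨⟨hs1, hs2⟩, m, rfl⟩ := hs
          rw [Finset.mem_image]
          refine ⟨m, ?_, rfl⟩
          rw [Finset.mem_Icc]
          refine ⟨Nat.pos_of_ne_zero fun h => ?_, ?_⟩
          · rw [h, mul_zero] at hs1
            omega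
          · exact (Nat.le_mul_of_pos_left m hg).trans hs2
        · intro s _ _
          exact div_nonneg (dr_nonneg _ _) (Nat.cast_nonneg _)
    _ = ∑ m ∈ Finset.Icc 1 S, dr R (g * m) / ((g * m : ℕ) : ℝ) := Finset.sum_image hinj
    _ ≤ ∑ m ∈ Finset.Icc 1 S, dr R g / g * (dr R m / (m : ℝ)) := by
        apply Finset.sum_le_sum
        intro m hm
        have hm0 : (0 : ℝ) < m := by exact_mod_cast (Finset.mem_Icc.1 hm).1
        rw [Nat.cast_mul, div_mul_div_comm]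
        gcongr
        exact dr_sub R g m
    _ = dr R g / g * ∑ m ∈ Finset.Icc 1 S, dr R m / (m : ℝ) := by rw [Finset.mul_sum]
    _ ≤ dr R g / g * (1 + Real.log S) ^ R :=
        mul_le_mul_of_nonneg_left (h1 R S hS) (div_nonneg (dr_nonneg _ _) hg0.le)

end M5x

open M5x in
theorem pfM5 (h1 : fpL1) (h2 : tsL0) : fpM5 := by
  intro R _
  obtain ⟨C1, hC1, h3⟩ := h2 R (1 / 2) (by norm_num)
  obtain ⟨C2, hC2, h4⟩ := h2 2 (1 / 4) (by norm_num)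
  refine ⟨C1 * C2, mul_pos hC1 hC2, fun D S hD hS => ?_⟩
  have hD0 : (0 : ℝ) < D := by exact_mod_cast hD
  have hDh : (0 : ℝ) < (D : ℝ) ^ (1 / 2 : ℝ) := Real.rpow_pos_of_pos hD0 _
  have hL0 : (0 : ℝ) ≤ Real.log S := Real.log_natCast_nonneg S
  set L : ℝ := (1 + Real.log S) ^ R with hL
  have hLn : 0 ≤ L := by positivity
  have hpt : ∀ s ∈ Finset.Icc 1 S, dr R s / (s : ℝ) * ((Nat.gcd D s : ℝ) / D) ^ (1 / 2 : ℝ) ≤
      ((D : ℝ) ^ (1 / 2 : ℝ))⁻¹ * ∑ g ∈ D.divisors.filter (fun g => g ∣ s),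
        (g : ℝ) ^ (1 / 2 : ℝ) * (dr R s / (s : ℝ)) := by
    intro s _
    have h5 : (Nat.gcd D s : ℝ) ^ (1 / 2 : ℝ) ≤
        ∑ g ∈ D.divisors.filter (fun g => g ∣ s), (g : ℝ) ^ (1 / 2 : ℝ) := by
      refine Finset.single_le_sum (f := fun g : ℕ => (g : ℝ) ^ (1 / 2 : ℝ)) (fun g _ => ?_) ?_
      · exact Real.rpow_nonneg (Nat.cast_nonneg _) _
      · rw [Finset.mem_filter, Nat.mem_divisors]
        exact ⟨⟨Nat.gcd_dvd_left _ _, by omega⟩, Nat.gcd_dvd_right _ _⟩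
    rw [Real.div_rpow (Nat.cast_nonneg _) hD0.le, ← Finset.sum_mul, div_eq_mul_inv _ ((D : ℝ) ^ _)]
    have h6 : 0 ≤ dr R s / (s : ℝ) := div_nonneg (dr_nonneg _ _) (Nat.cast_nonneg _)
    have h7 : 0 ≤ ((D : ℝ) ^ (1 / 2 : ℝ))⁻¹ := (inv_pos.2 hDh).le
    calc dr R s / (s : ℝ) * ((Nat.gcd D s : ℝ) ^ (1 / 2 : ℝ) * ((D : ℝ) ^ (1 / 2 : ℝ))⁻¹)
        = ((D : ℝ) ^ (1 / 2 : ℝ))⁻¹ * ((Nat.gcd D s : ℝ) ^ (1 / 2 : ℝ) * (dr R s / (s : ℝ))) := by
          ring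
      _ ≤ _ := by
          apply mul_le_mul_of_nonneg_left _ h7
          exact mul_le_mul_of_nonneg_right h5 h6
  calc ∑ s ∈ Finset.Icc 1 S, dr R s / (s : ℝ) * ((Nat.gcd D s : ℝ) / D) ^ (1 / 2 : ℝ)
      ≤ ∑ s ∈ Finset.Icc 1 S, ((D : ℝ) ^ (1 / 2 : ℝ))⁻¹ *
          ∑ g ∈ D.divisors.filter (fun g => g ∣ s),
            (g : ℝ) ^ (1 / 2 : ℝ) * (dr R s / (s : ℝ)) := Finset.sum_le_sum hpt
    _ = ((D : ℝ) ^ (1 / 2 : ℝ))⁻¹ * ∑ s ∈ Finset.Icc 1 S,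
          ∑ g ∈ D.divisors.filter (fun g => g ∣ s),
            (g : ℝ) ^ (1 / 2 : ℝ) * (dr R s / (s : ℝ)) := by rw [Finset.mul_sum]
    _ = ((D : ℝ) ^ (1 / 2 : ℝ))⁻¹ * ∑ g ∈ D.divisors,
          ∑ s ∈ (Finset.Icc 1 S).filter (fun s => g ∣ s),
            (g : ℝ) ^ (1 / 2 : ℝ) * (dr R s / (s : ℝ)) := by
        congr 1
        apply Finset.sum_comm'
        intro s g
        simp only [Finset.mem_filter]
        tauto
    _ ≤ ((D : ℝ) ^ (1 / 2 : ℝ))⁻¹ * ∑ _g ∈ D.divisors, C1 * L := by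
        apply mul_le_mul_of_nonneg_left _ (inv_pos.2 hDh).le
        apply Finset.sum_le_sum
        intro g hg
        have hg1 : 1 ≤ g := Nat.pos_of_mem_divisors hg
        have hg0 : (0 : ℝ) < g := by exact_mod_cast hg1
        rw [← Finset.mul_sum]
        have h5 := inner h1 R g S hg1 hS
        have h6 := h3 g hg1
        have h7 : (g : ℝ) ^ (1 / 2 : ℝ) * (g : ℝ) ^ (1 / 2 : ℝ) = g := by
          rw [← Real.rpow_add hg0]
          norm_num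
        have h8 : 0 < (g : ℝ) ^ (1 / 2 : ℝ) := Real.rpow_pos_of_pos hg0 _
        calc (g : ℝ) ^ (1 / 2 : ℝ) * ∑ s ∈ (Finset.Icc 1 S).filter (fun s => g ∣ s),
              dr R s / (s : ℝ)
            ≤ (g : ℝ) ^ (1 / 2 : ℝ) * (dr R g / g * L) := mul_le_mul_of_nonneg_left h5 h8.le
          _ ≤ (g : ℝ) ^ (1 / 2 : ℝ) * (C1 * (g : ℝ) ^ (1 / 2 : ℝ) / g * L) := by gcongr
          _ = C1 * (((g : ℝ) ^ (1 / 2 : ℝ) * (g : ℝ) ^ (1 / 2 : ℝ)) / g) * L := by ring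
          _ = C1 * L := by rw [h7, div_self hg0.ne', mul_one]
    _ = ((D : ℝ) ^ (1 / 2 : ℝ))⁻¹ * (dr 2 D * (C1 * L)) := by
        rw [Finset.sum_const, nsmul_eq_mul, dr_two]
    _ ≤ ((D : ℝ) ^ (1 / 2 : ℝ))⁻¹ * (C2 * (D : ℝ) ^ (1 / 4 : ℝ) * (C1 * L)) := by
        apply mul_le_mul_of_nonneg_left _ (inv_pos.2 hDh).le
        exact mul_le_mul_of_nonneg_right (h4 D hD) (by positivity)
    _ = C1 * C2 * (D : ℝ) ^ (-(1 / 4) : ℝ) * L := by
        have h9 : ((D : ℝ) ^ (1 / 2 : ℝ))⁻¹ * (D : ℝ) ^ (1 / 4 : ℝ) = (D : ℝ) ^ (-(1 / 4) : ℝ) := by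
          rw [← Real.rpow_neg hD0.le, ← Real.rpow_add hD0]
          norm_num
        rw [← h9]
        ring

end Pool.Agent.Work.MP_122e00_nt.FP
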