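import Mathlib
import Pool.Agent.Work.MP_122e00_nt.FP.StmtsC

/-!
# Item M7: the matched terms for a small denominator
-/

namespace Pool.Agent.Work.MP_122e00_nt.FP

open Finset Filter Topology ArithmeticFunction MeasureTheory
open Pool.Agent.Work.MP_122e00_nt.TS
open scoped ArithmeticFunction.zeta ArithmeticFunction.Moebius

namespace M7x

theorem ed_deg {P : Polynomial ℝ} {D : ℕ} (h : P.natDegree ≤ D) : (ed P).natDegree ≤ D := by
  unfold ed
  refine (Polynomial.natDegree_add_le _ _).trans (max_le h ?_)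
  exact (Polynomial.natDegree_derivative_le P).trans (by omega)

theorem ed_coeff {P : Polynomial ℝ} {D : ℕ} {M : ℝ} (h : P.natDegree ≤ D)
    (hM : ∀ j, |P.coeff j| ≤ M) (j : ℕ) : |(ed P).coeff j| ≤ (D + 1) * M := by
  have hM0 : 0 ≤ M := (abs_nonneg _).trans (hM 0)
  have hD0 : (0 : ℝ) ≤ D := Nat.cast_nonneg _
  unfold ed
  rw [Polynomial.coeff_add, Polynomial.coeff_derivative]
  rcases Nat.lt_or_ge D (j + 1) with hj | hj
  · rw [Polynomial.coeff_eq_zero_of_natDegree_lt (lt_of_le_of_lt h hj), zero_mul, add_zero]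
    have h1 := hM j
    have h2 : 0 ≤ (D : ℝ) * M := mul_nonneg hD0 hM0
    linarith
  · refine (abs_add_le _ _).trans ?_
    rw [abs_mul]
    have h1 : |((j : ℝ) + 1)| ≤ D := by
      rw [abs_of_nonneg (by positivity)]
      exact_mod_cast hj
    have h2 := hM j
    have h3 : |P.coeff (j + 1)| * |((j : ℝ) + 1)| ≤ M * D :=
      mul_le_mul (hM (j + 1)) h1 (abs_nonneg _) hM0
    linarith

/-- `ed` of `E0` -/
theorem ed_E0 (r : ℕ) (k : ℕ → ℝ) (E : ℕ → Polynomial ℝ) (z w : ℝ) (S q : ℕ) (T : ℝ) :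
    (ed (E0 r k E z w S q)).eval T
      = ∑ s ∈ Finset.Icc 1 S, (r * k s / s) * (ed (Eu E z w q)).eval (T - Real.log s) := by
  unfold ed E0
  rw [Polynomial.derivative_sum, Polynomial.eval_add, Polynomial.eval_finsetSum,
    Polynomial.eval_finsetSum, ← Finset.sum_add_distrib]
  refine Finset.sum_congr rfl fun s _ => ?_
  rw [Polynomial.derivative_C_mul, Polynomial.derivative_comp]
  simp only [Polynomial.eval_mul, Polynomial.eval_C, Polynomial.eval_comp, Polynomial.eval_sub,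
    Polynomial.eval_X, Polynomial.derivative_sub, Polynomial.derivative_X,
    Polynomial.derivative_C, Polynomial.eval_one, Polynomial.eval_zero, Polynomial.eval_add]
  ring

/-- `ed` is additive -/
theorem ed_sum {ι : Type*} (J : Finset ι) (P : ι → Polynomial ℝ) (T : ℝ) :
    (ed (∑ i ∈ J, P i)).eval T = ∑ i ∈ J, (ed (P i)).eval T := by
  unfold ed
  rw [Polynomial.derivative_sum, Polynomial.eval_add, Polynomial.eval_finsetSum,
    Polynomial.eval_finsetSum, ← Finset.sum_add_distrib]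
  refine Finset.sum_congr rfl fun i _ => ?_
  rw [Polynomial.eval_add]

/-- the multiples of `s` -/
theorem mult_sum (p : Polynomial ℝ) (θ : ℝ) (s lo hi : ℕ) (hs : 1 ≤ s) :
    ∑ m ∈ Finset.Ioc (lo / s) (hi / s),
        ((p.eval (Real.log m) : ℝ) : ℂ) * ee (m * (s * θ)) =
      ∑ n ∈ (Finset.Ioc lo hi).filter (s ∣ ·),
        ((p.eval (Real.log n - Real.log s) : ℝ) : ℂ) * ee (n * θ) := by
  refine Finset.sum_bij (fun m _ => m * s) ?_ ?_ ?_ ?_
  · intro m hm
    rw [Finset.mem_Ioc] at hm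
    rw [Finset.mem_filter, Finset.mem_Ioc]
    refine ⟨⟨(Nat.div_lt_iff_lt_mul hs).mp hm.1, (Nat.le_div_iff_mul_le hs).mp hm.2⟩, ?_⟩
    exact Dvd.intro_left m rfl
  · intro a _ b _ h
    exact Nat.eq_of_mul_eq_mul_right hs h
  · intro n hn
    rw [Finset.mem_filter, Finset.mem_Ioc] at hn
    obtain ⟨m, rfl⟩ := hn.2
    refine ⟨m, ?_, mul_comm _ _⟩
    rw [Finset.mem_Ioc]
    refine ⟨(Nat.div_lt_iff_lt_mul hs).mpr ?_, (Nat.le_div_iff_mul_le hs).mpr ?_⟩
    · rw [mul_comm]; exact hn.1.1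
    · rw [mul_comm]; exact hn.1.2
  · intro m hm
    rw [Finset.mem_Ioc] at hm
    have hm1 : (m : ℝ) ≠ 0 := by
      have : 0 < m := lt_of_le_of_lt (Nat.zero_le _) hm.1
      positivity
    have hs1 : (s : ℝ) ≠ 0 := by positivity
    have h1 : Real.log ((m * s : ℕ) : ℝ) - Real.log s = Real.log m := by
      rw [Nat.cast_mul, Real.log_mul hm1 hs1]; ring
    have h2 : (((m * s : ℕ) : ℝ)) * θ = m * (s * θ) := by
      rw [Nat.cast_mul]; ring
    rw [h1, h2]

/-- the numbers -/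
theorem num (r : ℕ) (K0 X H L : ℝ) (hK0 : 0 ≤ K0) (hX3 : 3 ≤ Real.log X)
    (hA : K0 + (8 * r + 5) + 10 ≤ l2 X)
    (hP : Real.log X ^ (K0 + (8 * r + 5) + 10 : ℝ) ≤ Real.exp (l2 X ^ 2))
    (hH : l2 X ^ 6 ≤ Real.log H) (hH0 : 0 < H) (hL : H ^ (3 / 4 : ℝ) ≤ L) :
    K0 * (Real.log X + 1) ^ (4 * r + 2) * (1 + H ^ (-(1 / 6) : ℝ) * L) * H ^ (1 / 16 : ℝ) ≤
      L * H ^ (-(1 / 20) : ℝ) := by
  have hl : (10 : ℝ) ≤ l2 X := by
    have : (0 : ℝ) ≤ r := Nat.cast_nonneg _
    linarith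
  have hr0 : (0 : ℝ) ≤ r := Nat.cast_nonneg _
  have hlX : Real.exp (l2 X) = Real.log X := Real.exp_log (by linarith)
  have h1 : K0 ≤ Real.log X := by
    rw [← hlX]
    have := Real.add_one_le_exp (l2 X)
    linarith
  have h2 : Real.log X + 1 ≤ Real.log X ^ 2 := by nlinarith
  have h3 : K0 * (Real.log X + 1) ^ (4 * r + 2) ≤ Real.exp (l2 X ^ 2) := by
    have h4 : (Real.log X + 1) ^ (4 * r + 2) ≤ (Real.log X ^ 2) ^ (4 * r + 2) :=
      pow_le_pow_left₀ (by linarith) h2 _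
    have h5 : K0 * (Real.log X + 1) ^ (4 * r + 2) ≤ Real.log X * (Real.log X ^ 2) ^ (4 * r + 2) :=
      mul_le_mul h1 h4 (by positivity) (by linarith)
    have h6 : Real.log X * (Real.log X ^ 2) ^ (4 * r + 2) = Real.log X ^ ((8 * r + 5 : ℕ) : ℝ) := by
      rw [Real.rpow_natCast]; ring
    refine h5.trans (le_trans ?_ hP)
    rw [h6]
    refine Real.rpow_le_rpow_of_exponent_le (by linarith) ?_
    push_cast
    linarith
  have hh : 0 ≤ Real.log H := le_trans (by positivity) hH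
  have hH1 : 1 ≤ H := by
    by_contra hc
    push Not at hc
    have h7 := Real.log_neg hH0 hc
    linarith
  have hL0 : 0 < L := lt_of_lt_of_le (Real.rpow_pos_of_pos hH0 _) hL
  have e1 : H ^ (-(1 / 6) : ℝ) = Real.exp (-(1 / 6) * Real.log H) := by
    rw [Real.rpow_def_of_pos hH0, mul_comm]
  have e2 : H ^ (1 / 16 : ℝ) = Real.exp ((1 / 16) * Real.log H) := by
    rw [Real.rpow_def_of_pos hH0, mul_comm]
  have e3 : H ^ (-(1 / 20) : ℝ) = Real.exp (-(1 / 20) * Real.log H) := by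
    rw [Real.rpow_def_of_pos hH0, mul_comm]
  have e4 : H ^ (3 / 4 : ℝ) = Real.exp ((3 / 4) * Real.log H) := by
    rw [Real.rpow_def_of_pos hH0, mul_comm]
  have h8 : 1 ≤ H ^ (-(1 / 6) : ℝ) * L := by
    calc (1 : ℝ) ≤ H ^ (-(1 / 6) : ℝ) * H ^ (3 / 4 : ℝ) := by
          rw [e1, e4, ← Real.exp_add]
          exact Real.one_le_exp (by linarith)
      _ ≤ H ^ (-(1 / 6) : ℝ) * L := mul_le_mul_of_nonneg_left hL (Real.rpow_nonneg hH0.le _)
  have h9 : Real.exp (l2 X ^ 2) * (2 * H ^ (-(1 / 6) : ℝ)) * H ^ (1 / 16 : ℝ) ≤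
      H ^ (-(1 / 20) : ℝ) := by
    have h10 : (2 : ℝ) ≤ Real.exp 1 := by
      have := Real.add_one_le_exp (1 : ℝ)
      linarith
    have h11 : 1 + l2 X ^ 2 ≤ (13 / 240) * Real.log H := by
      have h12 : (100 : ℝ) ≤ l2 X ^ 2 := by nlinarith
      have h13 : l2 X ^ 6 = (l2 X ^ 2) * (l2 X ^ 2) * (l2 X ^ 2) := by ring
      have h14 : (10000 : ℝ) ≤ (l2 X ^ 2) * (l2 X ^ 2) := by nlinarith
      have h15 : 10000 * (l2 X ^ 2) ≤ l2 X ^ 6 := by
        rw [h13]
        exact mul_le_mul_of_nonneg_right h14 (by positivity)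
      linarith
    calc Real.exp (l2 X ^ 2) * (2 * H ^ (-(1 / 6) : ℝ)) * H ^ (1 / 16 : ℝ)
        ≤ Real.exp (l2 X ^ 2) * (Real.exp 1 * H ^ (-(1 / 6) : ℝ)) * H ^ (1 / 16 : ℝ) := by
          gcongr
      _ = Real.exp (l2 X ^ 2 + 1 + -(1 / 6) * Real.log H + (1 / 16) * Real.log H) := by
          rw [e1, e2, Real.exp_add, Real.exp_add, Real.exp_add]; ring
      _ ≤ Real.exp (-(1 / 20) * Real.log H) := by
          apply Real.exp_le_exp.mpr
          linarith
      _ = H ^ (-(1 / 20) : ℝ) := e3.symm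
  have hp1 : 0 < H ^ (-(1 / 6) : ℝ) := Real.rpow_pos_of_pos hH0 _
  have hp2 : 0 < H ^ (1 / 16 : ℝ) := Real.rpow_pos_of_pos hH0 _
  calc K0 * (Real.log X + 1) ^ (4 * r + 2) * (1 + H ^ (-(1 / 6) : ℝ) * L) * H ^ (1 / 16 : ℝ)
      ≤ Real.exp (l2 X ^ 2) * (2 * H ^ (-(1 / 6) : ℝ) * L) * H ^ (1 / 16 : ℝ) := by
        apply mul_le_mul_of_nonneg_right _ hp2.le
        apply mul_le_mul h3 (by linarith) (by positivity) (Real.exp_pos _).le
    _ = L * (Real.exp (l2 X ^ 2) * (2 * H ^ (-(1 / 6) : ℝ)) * H ^ (1 / 16 : ℝ)) := by ring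
    _ ≤ L * H ^ (-(1 / 20) : ℝ) := mul_le_mul_of_nonneg_left h9 hL0.le

/-- the main term, opened -/
theorem main_id (h3 : fpP3) (r : ℕ) (k : ℕ → ℝ) (E : ℕ → Polynomial ℝ) (X H θ : ℝ) (S D lo hi : ℕ)
    (hl : 0 < l2 X) :
    ∑ n ∈ Finset.Ioc lo hi,
      (((ed (E0 r k E (zc X) (wc X H) S D)).eval (Real.log n) : ℝ) : ℂ) * ee (n * θ) =
    (r : ℂ) * ∑ s ∈ Finset.Icc 1 S, (k s : ℂ) * ∑ i ∈ Finset.range (nI X H),
      (1 / (s : ℂ)) * ∑ n ∈ Finset.Ioc lo hi,
        (((ed (Eu E (zi X i) (zi X (i + 1)) D)).eval (Real.log n - Real.log s) : ℝ) : ℂ) *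
          ee (n * θ) := by
  have hE : Eu E (zc X) (wc X H) D =
      ∑ i ∈ Finset.range (nI X H), Eu E (zi X i) (zi X (i + 1)) D := (h3 X (nI X H) hl).2 E D
  have h1 : ∀ n : ℕ, (((ed (E0 r k E (zc X) (wc X H) S D)).eval (Real.log n) : ℝ) : ℂ) =
      (r : ℂ) * ∑ s ∈ Finset.Icc 1 S, (k s : ℂ) * ∑ i ∈ Finset.range (nI X H), (1 / (s : ℂ)) *
        (((ed (Eu E (zi X i) (zi X (i + 1)) D)).eval (Real.log n - Real.log s) : ℝ) : ℂ) := by
    intro n
    rw [ed_E0, hE]
    push_cast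
    rw [Finset.mul_sum]
    refine Finset.sum_congr rfl fun s _ => ?_
    rw [ed_sum]
    push_cast
    rw [← Finset.mul_sum]
    ring
  calc ∑ n ∈ Finset.Ioc lo hi,
      (((ed (E0 r k E (zc X) (wc X H) S D)).eval (Real.log n) : ℝ) : ℂ) * ee (n * θ)
      = ∑ n ∈ Finset.Ioc lo hi, (r : ℂ) * ∑ s ∈ Finset.Icc 1 S, (k s : ℂ) *
          ∑ i ∈ Finset.range (nI X H), (1 / (s : ℂ)) *
          ((((ed (Eu E (zi X i) (zi X (i + 1)) D)).eval (Real.log n - Real.log s) : ℝ) : ℂ) *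
            ee (n * θ)) := by
        refine Finset.sum_congr rfl fun n _ => ?_
        rw [h1 n, mul_assoc, Finset.sum_mul]
        congr 1
        refine Finset.sum_congr rfl fun s _ => ?_
        rw [mul_assoc, Finset.sum_mul]
        congr 1
        refine Finset.sum_congr rfl fun i _ => ?_
        rw [mul_assoc]
    _ = _ := by
        rw [← Finset.mul_sum, Finset.sum_comm]
        congr 1
        refine Finset.sum_congr rfl fun s _ => ?_
        rw [← Finset.mul_sum, Finset.sum_comm]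
        congr 1
        refine Finset.sum_congr rfl fun i _ => ?_
        rw [← Finset.mul_sum]

/-- the sum of the coefficients -/
theorem sum_k (h6 : fpL1) (r : ℕ) (z w : ℝ) (k : ℕ → ℝ) (hk : KK r z w k) (S : ℕ) (hS : 1 ≤ S) :
    ∑ s ∈ Finset.Icc 1 S, |k s| ≤ S * (1 + Real.log S) ^ (2 * r) := by
  calc ∑ s ∈ Finset.Icc 1 S, |k s| ≤ ∑ s ∈ Finset.Icc 1 S, (S : ℝ) * (dr (2 * r) s / (s : ℝ)) := by
        refine Finset.sum_le_sum fun s hs => ?_
        rw [Finset.mem_Icc] at hs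
        have hs0 : (0 : ℝ) < s := by exact_mod_cast hs.1
        have hsS : (s : ℝ) ≤ S := by exact_mod_cast hs.2
        have h0 : 0 ≤ dr (2 * r) s := le_trans (abs_nonneg _) (hk.1 s)
        refine (hk.1 s).trans ?_
        calc dr (2 * r) s = s * (dr (2 * r) s / (s : ℝ)) := by field_simp
          _ ≤ (S : ℝ) * (dr (2 * r) s / (s : ℝ)) :=
            mul_le_mul_of_nonneg_right hsS (div_nonneg h0 hs0.le)
    _ = (S : ℝ) * ∑ s ∈ Finset.Icc 1 S, dr (2 * r) s / (s : ℝ) := by rw [Finset.mul_sum]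
    _ ≤ S * (1 + Real.log S) ^ (2 * r) :=
        mul_le_mul_of_nonneg_left (h6 (2 * r) S hS) (Nat.cast_nonneg _)

theorem min_div (N x s : ℕ) : min (N / s) (x / s) = (min N x) / s := by
  rcases le_total N x with h | h
  · rw [min_eq_left h, min_eq_left (Nat.div_le_div_right h)]
  · rw [min_eq_right h, min_eq_right (Nat.div_le_div_right h)]

end M7x

open M7x in
/-- M7 -/
theorem pfM7 (h1 : fpP1) (h2 : fpP2) (h3 : fpP3) (h4 : fpM2) (h5 : fpM3) (h6 : fpL1)
    (h7 : tsK5) : fpM7 := by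
  intro r E hr hAP hCB
  obtain ⟨C3, hC3, hM3⟩ := h5 (r - 1)
  obtain ⟨hdeg, hK⟩ := h7 r E (by omega) hAP.1 hCB
  obtain ⟨C5, hC5, hK5⟩ := hK 1 one_pos
  obtain ⟨X0, hX0⟩ := h1 (r * (3 * C3 * (r * C5)) + (8 * r + 5) + 10)
  refine ⟨X0, ?_⟩
  intro X H θ k N L x D hX hH1 hHX hH0 hk hN hL1 hL2 hD hθ
  obtain ⟨hX16, hX3, hA, hP, -⟩ := hX0 X hX
  have hr0 : (0 : ℝ) ≤ r := Nat.cast_nonneg _
  have hK0 : 0 ≤ (r : ℝ) * (3 * C3 * (r * C5)) := by positivity
  have hl10 : 10 ≤ l2 X := by linarith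
  obtain ⟨-, -, hw1, -, hI1, hI2⟩ := h2 X H (by linarith) hH1 hHX hH0
  have hLpos : (0 : ℝ) ≤ L := Nat.cast_nonneg _
  have hlH0 : 0 ≤ Real.log H := le_trans (by positivity) hH1
  have hHone : 1 ≤ H := by
    by_contra hc
    push Not at hc
    have h7 := Real.log_neg hH0 hc
    linarith
  have hlHX : Real.log H ≤ Real.log X := Real.log_le_log hH0 hHX
  set lam : ℝ := Real.log X + 1 with hlam
  have hlam1 : 1 ≤ lam := by linarith
  set S : ℕ := Sc H with hS
  have hSH : (S : ℝ) ≤ H ^ (1 / 16 : ℝ) := Nat.floor_le (Real.rpow_nonneg hH0.le _)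
  have hS1 : 1 ≤ S := by
    rw [hS, Sc, Nat.one_le_floor_iff]
    exact Real.one_le_rpow hHone (by norm_num)
  have hSX : Real.log S ≤ Real.log X := by
    have h8 : (S : ℝ) ≤ H := hSH.trans (by
      calc H ^ (1 / 16 : ℝ) ≤ H ^ (1 : ℝ) :=
            Real.rpow_le_rpow_of_exponent_le hHone (by norm_num)
        _ = H := Real.rpow_one H)
    exact Real.log_le_log (by exact_mod_cast hS1) (h8.trans hHX)
  -- the bound for the coefficients
  set M : ℝ := r * (C5 * lam ^ (r + 1)) with hM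
  have hM0 : 0 ≤ M := by positivity
  have hpd : ∀ i, (ed (Eu E (zi X i) (zi X (i + 1)) D)).natDegree ≤ r - 1 :=
    fun i => ed_deg (hdeg _ _ _)
  have hpc : ∀ i ∈ Finset.range (nI X H), ∀ j,
      |(ed (Eu E (zi X i) (zi X (i + 1)) D)).coeff j| ≤ M := by
    intro i hi j
    rw [Finset.mem_range] at hi
    have hz1 : Real.log (zi X (i + 1)) = 2 ^ (i + 1) * l2 X ^ 3 := by rw [zi, Real.log_exp]
    have hz2 : Real.log (wc X H) = 2 ^ (nI X H) * l2 X ^ 3 := by rw [wc, zi, Real.log_exp]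
    have hz3 : Real.log (zi X (i + 1)) ≤ Real.log (wc X H) := by
      rw [hz1, hz2]
      apply mul_le_mul_of_nonneg_right _ (by positivity)
      exact pow_le_pow_right₀ (by norm_num) hi
    have hz4 : Real.log H / l2 X ^ 2 ≤ Real.log H :=
      div_le_self hlH0 (by nlinarith)
    have hz5 : 1 + Real.log (zi X (i + 1)) ≤ lam := by rw [hlam]; linarith
    have hz6 : 0 ≤ Real.log (zi X (i + 1)) := by rw [hz1]; positivity
    have hz7 : 1 ≤ zi X (i + 1) := by
      rw [zi]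
      exact Real.one_le_exp (by positivity)
    have h8 := ed_coeff (P := Eu E (zi X i) (zi X (i + 1)) D) (D := r - 1)
      (M := C5 * lam ^ (r + 1)) (hdeg _ _ _) (fun j => by
        refine (hK5 (zi X i) (zi X (i + 1)) D j hz7 hD).trans ?_
        rw [sub_self, Real.rpow_zero, mul_one]
        exact mul_le_mul_of_nonneg_left (pow_le_pow_left₀ (by linarith) hz5 _) hC5.le) j
    refine h8.trans (le_of_eq ?_)
    rw [hM]
    have : ((r - 1 : ℕ) : ℝ) + 1 = r := by
      rw [Nat.cast_sub (by omega)]; push_cast; ring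
    rw [this]
  by_cases hlh : x - L ≤ min N x
  · have hN1 : Real.log ((min N x : ℕ) : ℝ) ≤ lam := by
      rcases Nat.eq_zero_or_pos (min N x) with h0 | h0
      · rw [h0, Nat.cast_zero, Real.log_zero]; linarith
      · have h8 : ((min N x : ℕ) : ℝ) ≤ 2 * X :=
          le_trans (by exact_mod_cast min_le_left N x) hN
        have h9 : Real.log ((min N x : ℕ) : ℝ) ≤ Real.log (2 * X) :=
          Real.log_le_log (by exact_mod_cast h0) h8
        rw [Real.log_mul (by norm_num) (by linarith)] at h9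
        have h10 : Real.log 2 ≤ 1 := by
          have := Real.log_two_lt_d9
          linarith
        rw [hlam]; linarith
    have hhl : ((min N x : ℕ) : ℝ) - ((x - L : ℕ) : ℝ) ≤ L := by
      have h8 : min N x ≤ L + (x - L) := by
        have := min_le_right N x
        omega
      have h9 : ((min N x : ℕ) : ℝ) ≤ L + ((x - L : ℕ) : ℝ) := by exact_mod_cast h8
      linarith
    have hhl0 : (0 : ℝ) ≤ ((min N x : ℕ) : ℝ) - ((x - L : ℕ) : ℝ) := by
      have : ((x - L : ℕ) : ℝ) ≤ ((min N x : ℕ) : ℝ) := by exact_mod_cast hlh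
      linarith
    have hpm : 0 ≤ H ^ (-(1 / 6) : ℝ) := Real.rpow_nonneg hH0.le _
    set B : ℝ := 3 * C3 * M * lam ^ r * (1 + H ^ (-(1 / 6) : ℝ) * L) with hB
    have hB0 : 0 ≤ B := by positivity
    have key : ∀ s ∈ Finset.Icc 1 S, ∀ i ∈ Finset.range (nI X H),
        ‖∑ m ∈ Finset.Ioc ((x - L) / s) (min (N / s) (x / s)),
          (((ed (Eu E (zi X i) (zi X (i + 1)) D)).eval (Real.log m) : ℝ) : ℂ) *
            ee (m * (s * θ)) -
          (1 / (s : ℂ)) * ∑ n ∈ Finset.Ioc (x - L) (min N x),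
            (((ed (Eu E (zi X i) (zi X (i + 1)) D)).eval (Real.log n - Real.log s) : ℝ) : ℂ) *
              ee (n * θ)‖ ≤ B := by
      intro s hs i hi
      rw [Finset.mem_Icc] at hs
      have hls : Real.log s ≤ lam := by
        have h8 : Real.log s ≤ Real.log S :=
          Real.log_le_log (by exact_mod_cast hs.1) (by exact_mod_cast hs.2)
        rw [hlam]; linarith
      obtain ⟨hb1, hb2⟩ := hM3 (ed (Eu E (zi X i) (zi X (i + 1)) D)) M θ lam s (x - L) (min N x)
        (hpd i) (hpc i hi) hM0 hs.1 hlh hlam1 hN1 hls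
      have h8 := h4 (fun n : ℕ =>
        (((ed (Eu E (zi X i) (zi X (i + 1)) D)).eval (Real.log n - Real.log s) : ℝ) : ℂ) *
              ee (n * θ)) s (x - L) (min N x) (C3 * M * lam ^ (r - 1))
          (C3 * M * lam ^ (r - 1 + 1) * (1 + |θ| * (((min N x : ℕ) : ℝ) - ((x - L : ℕ) : ℝ))))
          hs.1 hlh (by positivity) hb1 hb2
      rw [min_div, mult_sum _ _ _ _ _ hs.1]
      refine h8.trans ?_
      have hr1 : r - 1 + 1 = r := by omega
      rw [hr1]
      have h9 : lam ^ (r - 1) ≤ lam ^ r := pow_le_pow_right₀ hlam1 (by omega)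
      have h10 : |θ| * (((min N x : ℕ) : ℝ) - ((x - L : ℕ) : ℝ)) ≤ H ^ (-(1 / 6) : ℝ) * L :=
        mul_le_mul hθ hhl hhl0 hpm
      have hpL : 0 ≤ H ^ (-(1 / 6) : ℝ) * L := mul_nonneg hpm hLpos
      calc C3 * M * lam ^ r * (1 + |θ| * (((min N x : ℕ) : ℝ) - ((x - L : ℕ) : ℝ))) +
            2 * (C3 * M * lam ^ (r - 1))
          ≤ C3 * M * lam ^ r * (1 + H ^ (-(1 / 6) : ℝ) * L) +
            2 * (C3 * M * lam ^ r * (1 + H ^ (-(1 / 6) : ℝ) * L)) := by
            have h11 : C3 * M * lam ^ (r - 1) ≤ C3 * M * lam ^ r * (1 + H ^ (-(1 / 6) : ℝ) * L) := by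
              calc C3 * M * lam ^ (r - 1) ≤ C3 * M * lam ^ r * 1 := by
                    rw [mul_one]
                    exact mul_le_mul_of_nonneg_left h9 (by positivity)
                _ ≤ _ := mul_le_mul_of_nonneg_left (by linarith) (by positivity)
            have h12 : C3 * M * lam ^ r * (1 + |θ| * (((min N x : ℕ) : ℝ) - ((x - L : ℕ) : ℝ))) ≤
                C3 * M * lam ^ r * (1 + H ^ (-(1 / 6) : ℝ) * L) :=
              mul_le_mul_of_nonneg_left (by linarith) (by positivity)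
            linarith
        _ = B := by rw [hB]; ring
    rw [main_id h3 r k E X H θ S D (x - L) (min N x) (by linarith)]
    rw [← mul_sub, ← Finset.sum_sub_distrib, norm_mul, Complex.norm_natCast]
    calc (r : ℝ) * ‖∑ s ∈ Finset.Icc 1 S, ((k s : ℂ) * ∑ i ∈ Finset.range (nI X H),
            ∑ m ∈ Finset.Ioc ((x - L) / s) (min (N / s) (x / s)),
              (((ed (Eu E (zi X i) (zi X (i + 1)) D)).eval (Real.log m) : ℝ) : ℂ) *
                ee (m * (s * θ)) - (k s : ℂ) * ∑ i ∈ Finset.range (nI X H), (1 / (s : ℂ)) *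
            ∑ n ∈ Finset.Ioc (x - L) (min N x),
            (((ed (Eu E (zi X i) (zi X (i + 1)) D)).eval (Real.log n - Real.log s) : ℝ) : ℂ) *
              ee (n * θ))‖
        ≤ (r : ℝ) * ∑ s ∈ Finset.Icc 1 S, |k s| * ((nI X H : ℝ) * B) := by
          apply mul_le_mul_of_nonneg_left _ hr0
          refine (norm_sum_le _ _).trans (Finset.sum_le_sum fun s hs => ?_)
          rw [← mul_sub, ← Finset.sum_sub_distrib, norm_mul, Complex.norm_real, Real.norm_eq_abs]
          apply mul_le_mul_of_nonneg_left _ (abs_nonneg _)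
          refine (norm_sum_le _ _).trans ?_
          refine (Finset.sum_le_sum (key s hs)).trans (le_of_eq ?_)
          rw [Finset.sum_const, Finset.card_range, nsmul_eq_mul]
      _ = (r : ℝ) * ((∑ s ∈ Finset.Icc 1 S, |k s|) * ((nI X H : ℝ) * B)) := by
          rw [Finset.sum_mul]
      _ ≤ (r : ℝ) * ((H ^ (1 / 16 : ℝ) * lam ^ (2 * r)) * (lam * B)) := by
          apply mul_le_mul_of_nonneg_left _ hr0
          apply mul_le_mul _ _ (by positivity) (by positivity)
          · refine (sum_k h6 r _ _ k hk S hS1).trans ?_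
            apply mul_le_mul hSH _ _ (Real.rpow_nonneg hH0.le _)
            · apply pow_le_pow_left₀
              · have : 0 ≤ Real.log S := Real.log_nonneg (by exact_mod_cast hS1)
                linarith
              · rw [hlam]; linarith
            · apply pow_nonneg
              have : 0 ≤ Real.log S := Real.log_nonneg (by exact_mod_cast hS1)
              linarith
          · apply mul_le_mul_of_nonneg_right _ hB0
            rw [hlam]; linarith
      _ = (r * (3 * C3 * (r * C5))) * lam ^ (4 * r + 2) * (1 + H ^ (-(1 / 6) : ℝ) * L) *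
            H ^ (1 / 16 : ℝ) := by
          rw [hB, hM]
          have : lam ^ (4 * r + 2) = lam ^ (2 * r) * lam * lam ^ (r + 1) * lam ^ r := by
            ring
          rw [this]
          ring
      _ ≤ L * H ^ (-(1 / 20) : ℝ) := num r _ X H L hK0 hX3 hA hP hH1 hH0 hL1
  · push Not at hlh
    have h8 : Finset.Ioc (x - L) (min N x) = ∅ := Finset.Ioc_eq_empty (by omega)
    have h9 : ∀ s, Finset.Ioc ((x - L) / s) (min (N / s) (x / s)) = ∅ := by
      intro s
      rw [min_div]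
      apply Finset.Ioc_eq_empty
      have := Nat.div_le_div_right (c := s) hlh.le
      omega
    rw [h8]
    simp only [h9, Finset.sum_empty, Finset.sum_const_zero, mul_zero, sub_zero, norm_zero]
    exact mul_nonneg hLpos (Real.rpow_nonneg hH0.le _)

end Pool.Agent.Work.MP_122e00_nt.FP
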