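import Pool.Agent.Work.MP_122e00_nt.FP.StmtsC

/-!
# Full polynomial: item M8 (matching of frequencies)
-/

namespace Pool.Agent.Work.MP_122e00_nt.FP

open Pool.Agent.Work.MP_122e00_nt.TS

namespace M8x

lemma ee_add_int (x : ℝ) (n : ℤ) : ee (x + n) = ee x := by
  unfold ee
  have h : (2 * (Real.pi : ℂ) * ((x + n : ℝ) : ℂ)) * Complex.I =
      (2 * (Real.pi : ℂ) * (x : ℂ)) * Complex.I + n * (2 * Real.pi * Complex.I) := by
    push_cast
    ring
  push_cast at h ⊢
  rw [h, Complex.exp_add, Complex.exp_int_mul_two_pi_mul_I, mul_one]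

lemma denom (D s : ℕ) (c : ℤ) (hD : 1 ≤ D) (hc : IsCoprime c (D : ℤ)) (q a : ℕ)
    (hqa : Nat.Coprime a q) (h : Mt D c s q a) : q = D / Nat.gcd D s := by
  obtain ⟨j, hj⟩ := h
  have hg : 0 < Nat.gcd D s := Nat.gcd_pos_of_pos_left _ hD
  obtain ⟨D', hD'⟩ := Nat.gcd_dvd_left D s
  obtain ⟨s', hs'⟩ := Nat.gcd_dvd_right D s
  have hcop : Nat.Coprime D' s' := by
    have h1 := Nat.coprime_div_gcd_div_gcd hg
    have e1 : D / Nat.gcd D s = D' := Nat.div_eq_of_eq_mul_right hg hD'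
    have e2 : s / Nat.gcd D s = s' := Nat.div_eq_of_eq_mul_right hg hs'
    rwa [e1, e2] at h1
  have e1 : D / Nat.gcd D s = D' := Nat.div_eq_of_eq_mul_right hg hD'
  rw [e1]
  have hgz : ((Nat.gcd D s : ℕ) : ℤ) ≠ 0 := by exact_mod_cast hg.ne'
  have hDz : (D : ℤ) = (Nat.gcd D s : ℕ) * D' := by exact_mod_cast hD'
  have hsz : (s : ℤ) = (Nat.gcd D s : ℕ) * s' := by exact_mod_cast hs'
  have hj' : (j * q - a) * (D' : ℤ) = c * ((q : ℤ) * s') := by
    apply mul_left_cancel₀ hgz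
    calc ((Nat.gcd D s : ℕ) : ℤ) * ((j * q - a) * (D' : ℤ))
        = (j * q - a) * ((Nat.gcd D s : ℕ) * D') := by ring
      _ = (j * q - a) * D := by rw [← hDz]
      _ = c * (q * s) := hj
      _ = c * (q * ((Nat.gcd D s : ℕ) * s')) := by rw [← hsz]
      _ = _ := by ring
  apply Nat.dvd_antisymm
  · have h1 : (q : ℤ) ∣ (j * q - a) * (D' : ℤ) := by
      rw [hj']
      exact ⟨c * s', by ring⟩
    have h2 : IsCoprime (q : ℤ) (j * q - a) := by
      have h3 : IsCoprime (q : ℤ) (a : ℤ) := (Nat.isCoprime_iff_coprime.2 hqa).symm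
      have h4 : (j * q - a : ℤ) = -(a : ℤ) + q * j := by ring
      rw [h4]
      exact (IsCoprime.neg_right h3).add_mul_left_right j
    exact_mod_cast h2.dvd_of_dvd_mul_left h1
  · have h1 : (D' : ℤ) ∣ c * ((q : ℤ) * s') := by
      rw [← hj']
      exact ⟨j * q - a, by ring⟩
    have h2 : IsCoprime (D' : ℤ) c := by
      have h3 := hc.symm
      rw [hDz] at h3
      exact h3.of_mul_left_right
    have h3 := h2.dvd_of_dvd_mul_left h1
    have h4 : IsCoprime (D' : ℤ) (s' : ℤ) := Nat.isCoprime_iff_coprime.2 hcop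
    exact_mod_cast h4.dvd_of_dvd_mul_right h3

end M8x

open M8x in
theorem pfM8 : fpM8 := by
  intro D s c hD hs hc
  refine ⟨fun q a _ hqa h => denom D s c hD hc q a hqa h, ?_, ?_, ?_⟩
  · rintro q a a' ha ha' ⟨j, hj⟩ ⟨j', hj'⟩
    have hD0 : (D : ℤ) ≠ 0 := by exact_mod_cast (by omega : D ≠ 0)
    have h1 : (j * q - a : ℤ) = j' * q - a' := mul_right_cancel₀ hD0 (hj.trans hj'.symm)
    have hq0 : (0 : ℤ) < q := by exact_mod_cast (by omega : 0 < q)
    have h2 : (a : ℤ) - a' = (j - j') * q := by linarith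
    have h3 : j = j' := by
      by_contra hne
      rcases lt_or_gt_of_ne hne with h | h
      · have h5 : (j - j') * (q : ℤ) ≤ -1 * q := mul_le_mul_of_nonneg_right (by omega) hq0.le
        have h6 : (a' : ℤ) < q := by exact_mod_cast ha'
        have h7 : (0 : ℤ) ≤ a := by positivity
        linarith
      · have h5 : 1 * (q : ℤ) ≤ (j - j') * q := mul_le_mul_of_nonneg_right (by omega) hq0.le
        have h6 : (a : ℤ) < q := by exact_mod_cast ha
        have h7 : (0 : ℤ) ≤ a' := by positivity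
        linarith
    rw [h3, sub_self, zero_mul] at h2
    omega
  · intro hDs
    have hD0 : (0 : ℤ) < D := by exact_mod_cast hD
    obtain ⟨a, ha⟩ : ∃ a : ℕ, (a : ℤ) = (-(s * c)) % (D : ℤ) :=
      ⟨((-(s * c)) % (D : ℤ)).toNat, Int.toNat_of_nonneg (Int.emod_nonneg _ hD0.ne')⟩
    have hlt : a < D := by
      have := Int.emod_lt_of_pos (-(s * c)) hD0
      rw [← ha] at this
      exact_mod_cast this
    have hem := Int.emod_add_mul_ediv (-(s * c)) (D : ℤ)
    rw [← ha] at hem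
    refine ⟨a, hlt, ?_, -((-(s * c)) / (D : ℤ)), ?_⟩
    · rw [← Nat.isCoprime_iff_coprime]
      have h1 : IsCoprime (s * c : ℤ) (D : ℤ) :=
        IsCoprime.mul_left (Nat.isCoprime_iff_coprime.2 hDs.symm) hc
      have h2 : IsCoprime (-(s * c) : ℤ) (D : ℤ) := h1.neg_left
      have h3 : (a : ℤ) = -(s * c) + (D : ℤ) * (-((-(s * c)) / (D : ℤ))) := by
        rw [mul_neg]
        linarith
      rw [h3]
      exact h2.add_mul_left_left _
    · have h3 : -((-(s * c)) / (D : ℤ)) * (D : ℤ) - a = s * c := by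
        have : (D : ℤ) * ((-(s * c)) / (D : ℤ)) = -(s * c) - a := by linarith
        rw [neg_mul, mul_comm _ (D : ℤ), this]
        ring
      rw [h3]
      ring
  · rintro q a m γ hq ⟨j, hj⟩
    have hq0 : (q : ℝ) ≠ 0 := by exact_mod_cast (by omega : q ≠ 0)
    have hD0 : (D : ℝ) ≠ 0 := by exact_mod_cast (by omega : D ≠ 0)
    have hjr : ((j : ℝ) * q - a) * D = c * (q * s) := by exact_mod_cast hj
    have h1 : (a : ℝ) / q + s * c / D = j := by
      field_simp
      linarith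
    have h2 : (m : ℝ) * ((a : ℝ) / q + s * γ) = m * (s * (γ - c / D)) + ((m * j : ℤ) : ℝ) := by
      push_cast
      rw [← h1]
      ring
    rw [h2, ee_add_int]

end Pool.Agent.Work.MP_122e00_nt.FP
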