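import Pool.Agent.Work.MP_122e00_nt.FP.StmtsC

/-! Item M9: unmatched frequencies are far from the integers. -/

namespace Pool.Agent.Work.MP_122e00_nt.FP

open Pool.Agent.Work.MP_122e00_nt.TS

namespace M9x

lemma key (γ ρ : ℝ) (s q a : ℕ) (hs : 1 ≤ s) (hq : 1 ≤ q) (hρ : 0 ≤ ρ)
    (h : ρ ≤ |γ - ((round ((a : ℝ) / q + s * γ) * (q : ℤ) - (a : ℤ) : ℤ) : ℝ) / ((q * s : ℕ) : ℝ)|) :
    ρ ≤ nn ((a : ℝ) / q + s * γ) := by
  have hs' : (1 : ℝ) ≤ s := by exact_mod_cast hs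
  have hq' : (1 : ℝ) ≤ q := by exact_mod_cast hq
  unfold nn
  have e : (a : ℝ) / q + s * γ - (round ((a : ℝ) / q + s * γ) : ℤ) =
      s * (γ - ((round ((a : ℝ) / q + s * γ) * (q : ℤ) - (a : ℤ) : ℤ) : ℝ) / ((q * s : ℕ) : ℝ)) := by
    push_cast
    field_simp
    ring
  rw [e, abs_mul, abs_of_nonneg (by linarith : (0 : ℝ) ≤ s)]
  nlinarith [abs_nonneg (γ - ((round ((a : ℝ) / q + s * γ) * (q : ℤ) - (a : ℤ) : ℤ) : ℝ) /
    ((q * s : ℕ) : ℝ))]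

end M9x

theorem pfM9 (h1 : fpM4) : fpM9 := by
  intro R γ hR
  have hR' : (1 : ℝ) ≤ R := by exact_mod_cast hR
  have hρ : (0 : ℝ) ≤ 1 / (2 * (R : ℝ) ^ 2) := by positivity
  rcases h1 R γ hR with h | ⟨D, c, hD, hDR, hc, hγ, h⟩
  · left
    intro s q a hs hq hqs
    exact M9x.key γ _ s q a hs hq hρ (h (q * s) _ (Nat.mul_pos hq hs) hqs)
  · right
    refine ⟨D, c, hD, hDR, hc, hγ, ?_⟩
    intro s q a hs hq hqs hM
    refine M9x.key γ _ s q a hs hq hρ (h (q * s) _ (Nat.mul_pos hq hs) hqs ?_)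
    intro e
    apply hM
    refine ⟨round ((a : ℝ) / q + s * γ), ?_⟩
    rw [e]
    push_cast
    ring

end Pool.Agent.Work.MP_122e00_nt.FP
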