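import Pool.Agent.Work.MP_122e00_nt.FP.StmtsA

/-!
# Block FP of MP_122e00_nt, item P1: sizes
-/

set_option autoImplicit false

namespace Pool.Agent.Work.MP_122e00_nt.FP

open Finset Filter Topology

namespace P1x

theorem tendsto_l2 : Tendsto l2 atTop atTop :=
  Real.tendsto_log_atTop.comp Real.tendsto_log_atTop

theorem ev_cube : ∀ᶠ l : ℝ in atTop, l ^ 3 ≤ 1 / 100 * Real.exp l := by
  have h := (Real.isLittleO_pow_exp_atTop (n := 3)).bound (show (0 : ℝ) < 1 / 100 by norm_num)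
  filter_upwards [h, eventually_ge_atTop (0 : ℝ)] with l hl h0
  rw [Real.norm_eq_abs, Real.norm_eq_abs, abs_of_pos (Real.exp_pos l),
    abs_of_nonneg (by positivity)] at hl
  exact hl

end P1x

theorem pfP1 : fpP1 := by
  intro A
  have h1 : ∀ᶠ X : ℝ in atTop, 16 ≤ X ∧ 3 ≤ Real.log X ∧ A ≤ l2 X ∧
      Real.log X ^ A ≤ Real.exp (l2 X ^ 2) ∧ Real.exp (l2 X ^ 3) ≤ X ^ (1 / 100 : ℝ) := by
    filter_upwards [eventually_ge_atTop (16 : ℝ),
      Real.tendsto_log_atTop.eventually (eventually_ge_atTop (3 : ℝ)),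
      P1x.tendsto_l2.eventually (eventually_ge_atTop A),
      P1x.tendsto_l2.eventually (eventually_ge_atTop (0 : ℝ)),
      P1x.tendsto_l2.eventually P1x.ev_cube] with X hX hlog hA h0 hc
    have hXpos : 0 < X := by linarith
    have hLpos : 0 < Real.log X := by linarith
    refine ⟨hX, hlog, hA, ?_, ?_⟩
    · rw [Real.rpow_def_of_pos hLpos, Real.exp_le_exp]
      change l2 X * A ≤ l2 X ^ 2
      nlinarith
    · rw [Real.rpow_def_of_pos hXpos, Real.exp_le_exp]
      have : Real.exp (l2 X) = Real.log X := Real.exp_log hLpos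
      rw [this] at hc
      linarith
  obtain ⟨X0, hX0⟩ := eventually_atTop.1 h1
  exact ⟨X0, fun X hX => hX0 X hX⟩

end Pool.Agent.Work.MP_122e00_nt.FP
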