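import Pool.Agent.Work.MP_122e00_nt.FP.StmtsA

/-!
# Item P2: the window
-/

namespace Pool.Agent.Work.MP_122e00_nt.FP

open Finset Filter Topology ArithmeticFunction MeasureTheory
open Pool.Agent.Work.MP_122e00_nt.TS

theorem pfP2 : fpP2 := by
  intro X H h1 h2 h3 h4
  set L : ℝ := l2 X with hL
  have hL0 : 0 < L := by linarith
  have l2p : 0 < Real.log 2 := Real.log_pos (by norm_num)
  have hL5 : 0 < L ^ 5 := pow_pos hL0 5
  have hlH : 0 < Real.log H := lt_of_lt_of_le (pow_pos hL0 6) h2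
  set y : ℝ := Real.log H / L ^ 5 with hy
  have hyL : L ≤ y := by
    rw [hy, le_div_iff₀ hL5]
    calc L * L ^ 5 = L ^ 6 := by ring
      _ ≤ _ := h2
  have hy2 : 2 ≤ y := h1.trans hyL
  have hy0 : 0 < y := by linarith
  have hlogy : Real.log 2 ≤ Real.log y := Real.log_le_log (by norm_num) hy2
  have hnI : nI X H = ⌊Real.log y / Real.log 2⌋₊ := rfl
  set I : ℕ := nI X H with hI
  have hq0 : 0 ≤ Real.log y / Real.log 2 := div_nonneg (l2p.le.trans hlogy) l2p.le
  have a1 : (I : ℝ) ≤ Real.log y / Real.log 2 := by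
    rw [hnI]; exact Nat.floor_le hq0
  have a2 : Real.log y / Real.log 2 < (I : ℝ) + 1 := by
    rw [hnI]; exact Nat.lt_floor_add_one _
  have b1 : (2 : ℝ) ^ I ≤ y := by
    rw [← Real.log_le_log_iff (by positivity) hy0, Real.log_pow]
    rwa [le_div_iff₀ l2p] at a1
  have b2 : y < (2 : ℝ) ^ (I + 1) := by
    rw [← Real.log_lt_log_iff hy0 (by positivity), Real.log_pow]
    rw [div_lt_iff₀ l2p] at a2
    push_cast
    exact a2
  have b3 : 1 ≤ I := by
    rw [hnI]
    apply Nat.le_floor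
    rw [Nat.cast_one, one_le_div l2p]
    exact hlogy
  have c1 : Real.log (zc X) = L ^ 3 := by
    unfold zc zi
    rw [Real.log_exp]
    simp [hL]
  have c2 : Real.log (wc X H) = 2 ^ I * L ^ 3 := by
    unfold wc zi
    rw [Real.log_exp]
  have p1 : (1 : ℝ) ≤ 2 ^ I := one_le_pow₀ (by norm_num)
  have hL3 : 0 < L ^ 3 := pow_pos hL0 3
  refine ⟨c1, ?_, ?_, ?_, b3, ?_⟩
  · unfold zc wc zi
    rw [Real.exp_le_exp, ← hI, ← hL]
    rw [pow_zero]
    exact mul_le_mul_of_nonneg_right p1 hL3.le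
  · rw [c2, le_div_iff₀ (by positivity)]
    have := mul_le_mul_of_nonneg_right b1 hL5.le
    rw [hy, div_mul_cancel₀ _ hL5.ne'] at this
    calc 2 ^ I * L ^ 3 * L ^ 2 = 2 ^ I * L ^ 5 := by ring
      _ ≤ _ := this
  · rw [c2, div_le_iff₀ (by positivity)]
    have := mul_lt_mul_of_pos_right b2 hL5
    rw [hy, div_mul_cancel₀ _ hL5.ne'] at this
    calc Real.log H ≤ 2 ^ (I + 1) * L ^ 5 := this.le
      _ = 2 ^ I * L ^ 3 * (2 * L ^ 2) := by ring
  · have d1 : (I : ℝ) ≤ 2 ^ I := by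
      have : I < 2 ^ I := Nat.lt_two_pow_self
      exact_mod_cast this.le
    have d2 : y ≤ Real.log H := by
      rw [hy]
      apply div_le_self hlH.le
      exact one_le_pow₀ (by linarith)
    have d3 : Real.log H ≤ Real.log X := Real.log_le_log h4 h3
    linarith

end Pool.Agent.Work.MP_122e00_nt.FP
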