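import Pool.Agent.Work.MP_122e00_nt.FP.StmtsA

set_option autoImplicit false

namespace Pool.Agent.Work.MP_122e00_nt.FP

open Finset Filter Topology ArithmeticFunction
open Pool.Agent.Work.MP_122e00_nt.TS
open scoped ArithmeticFunction.zeta ArithmeticFunction.Moebius

namespace P3x

lemma mem_PW (z w : ℝ) (hw : 0 ≤ w) (p : ℕ) :
    p ∈ PW z w ↔ 1 ≤ p ∧ (p : ℝ) ≤ w ∧ p.Prime ∧ z < (p : ℝ) := by
  unfold PW
  rw [Finset.mem_filter, Finset.mem_Icc, Nat.le_floor_iff hw]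
  tauto

lemma zi_pos (X : ℝ) (i : ℕ) : 0 < zi X i := Real.exp_pos _

lemma zi_le (X : ℝ) (h : 0 < l2 X) (i : ℕ) : zi X i ≤ zi X (i + 1) := by
  unfold zi
  apply Real.exp_le_exp.mpr
  have h3 : 0 < l2 X ^ 3 := by positivity
  have h2 : (2 : ℝ) ^ i ≤ 2 ^ (i + 1) := pow_le_pow_right₀ (by norm_num) (by omega)
  exact mul_le_mul_of_nonneg_right h2 h3.le

lemma zi_mono (X : ℝ) (h : 0 < l2 X) : Monotone (zi X) := monotone_nat_of_le_succ (zi_le X h)

lemma sum_PW {M : Type*} [AddCommMonoid M] (X : ℝ) (h : 0 < l2 X) (g : ℕ → M) (I : ℕ) :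
    ∑ p ∈ PW (zi X 0) (zi X I), g p =
      ∑ i ∈ Finset.range I, ∑ p ∈ PW (zi X i) (zi X (i + 1)), g p := by
  classical
  induction I with
  | zero =>
    rw [Finset.sum_range_zero]
    apply Finset.sum_eq_zero
    intro p hp
    rw [mem_PW _ _ (zi_pos X 0).le] at hp
    exact absurd hp.2.1 (not_le.mpr hp.2.2.2)
  | succ I ih =>
    rw [Finset.sum_range_succ, ← ih]
    have hd : Disjoint (PW (zi X 0) (zi X I)) (PW (zi X I) (zi X (I + 1))) := by
      rw [Finset.disjoint_left]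
      intro p hp hq
      rw [mem_PW _ _ (zi_pos X _).le] at hp hq
      exact absurd hp.2.1 (not_le.mpr hq.2.2.2)
    rw [← Finset.sum_union hd]
    apply Finset.sum_congr _ (fun _ _ => rfl)
    ext p
    rw [Finset.mem_union, mem_PW _ _ (zi_pos X _).le, mem_PW _ _ (zi_pos X _).le,
      mem_PW _ _ (zi_pos X _).le]
    have h0 : zi X 0 ≤ zi X I := zi_mono X h (Nat.zero_le _)
    have h1 : zi X I ≤ zi X (I + 1) := zi_le X h I
    constructor
    · rintro ⟨a, b, c, d⟩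
      by_cases hc : (p : ℝ) ≤ zi X I
      · exact Or.inl ⟨a, hc, c, d⟩
      · exact Or.inr ⟨a, b, c, not_le.mp hc⟩
    · rintro (⟨a, b, c, d⟩ | ⟨a, b, c, d⟩)
      · exact ⟨a, b.trans h1, c, d⟩
      · exact ⟨a, b, c, lt_of_le_of_lt h0 d⟩

end P3x

/-- item P3 -/
theorem pfP3 : fpP3 := by
  intro X I h
  refine ⟨?_, ?_⟩
  · intro r n
    unfold TS.up
    rw [Finset.sum_filter, P3x.sum_PW X h]
    refine Finset.sum_congr rfl (fun i _ => ?_)
    rw [Finset.sum_filter]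
  · intro E q
    unfold Eu
    exact P3x.sum_PW X h _ I

end Pool.Agent.Work.MP_122e00_nt.FP
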