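import Pool.Agent.Work.MP_122e00_nt.FP.StmtsA

/-!
# Block FP, item P4: the density of the integers without window primes
-/

namespace Pool.Agent.Work.MP_122e00_nt.FP

open Finset Filter Topology ArithmeticFunction MeasureTheory
open Pool.Agent.Work.MP_122e00_nt.TS
open scoped ArithmeticFunction.zeta ArithmeticFunction.Moebius

theorem pfP4 (h1 : fpP2) (h2 : tsN1) : fpP4 := by
  obtain ⟨C, -, -, hC⟩ := h2
  refine ⟨2 * Real.exp C, by positivity, ?_⟩
  intro X H hl hH hHX hH0
  obtain ⟨hz, hzw, -, hw, -, -⟩ := h1 X H hl hH hHX hH0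
  have hl0 : 0 < l2 X := by linarith
  have hlogH : 0 < Real.log H := lt_of_lt_of_le (by positivity) hH
  have hzpos : 0 < zc X := Real.exp_pos _
  have hl3 : (8 : ℝ) ≤ l2 X ^ 3 := by
    calc (8 : ℝ) = 2 ^ 3 := by norm_num
      _ ≤ l2 X ^ 3 := pow_le_pow_left₀ (by norm_num) hl 3
  have hz2 : 2 ≤ zc X := by
    have e : zc X = Real.exp (Real.log (zc X)) := (Real.exp_log hzpos).symm
    rw [e, hz]
    have := Real.add_one_le_exp (l2 X ^ 3)
    linarith
  have hlw : 0 < Real.log (wc X H) := lt_of_lt_of_le (by positivity) hw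
  have h3 := (abs_le.1 (hC (zc X) (wc X H) hz2 hzw)).1
  have hq : 0 < Real.log (wc X H) / Real.log (zc X) := by
    rw [hz]; positivity
  have h4 : Real.exp (-pw (zc X) (wc X H)) ≤
      Real.exp (C - Real.log (Real.log (wc X H) / Real.log (zc X))) :=
    Real.exp_le_exp.2 (by linarith)
  have h5 : Real.exp (C - Real.log (Real.log (wc X H) / Real.log (zc X))) =
      Real.exp C * (Real.log (zc X) / Real.log (wc X H)) := by
    rw [Real.exp_sub, Real.exp_log hq, div_div_eq_mul_div, mul_div_assoc]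
  have h6 : Real.log (zc X) / Real.log (wc X H) ≤ l2 X ^ 3 / (Real.log H / (2 * l2 X ^ 2)) := by
    rw [hz]
    exact div_le_div_of_nonneg_left (by positivity) (by positivity) hw
  have h7 : l2 X ^ 3 / (Real.log H / (2 * l2 X ^ 2)) = 2 * l2 X ^ 5 / Real.log H := by
    field_simp
  calc Real.exp (-pw (zc X) (wc X H)) ≤ Real.exp C * (Real.log (zc X) / Real.log (wc X H)) :=
        h4.trans h5.le
    _ ≤ Real.exp C * (2 * l2 X ^ 5 / Real.log H) := by
        rw [← h7]
        exact mul_le_mul_of_nonneg_left h6 (Real.exp_pos C).le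
    _ = 2 * Real.exp C * l2 X ^ 5 / Real.log H := by ring

end Pool.Agent.Work.MP_122e00_nt.FP
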