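import Mathlib
import Pool.Agent.Work.MP_122e00_nt.FP.StmtsB

set_option autoImplicit false

/-!
# Full polynomial, item Q1: the second moment over the shifts; model: `TS/I_X17.lean`
-/

namespace Pool.Agent.Work.MP_122e00_nt.FP

open Finset Filter Topology ArithmeticFunction MeasureTheory
open Pool.Agent.Work.MP_122e00_nt.TS
open scoped ArithmeticFunction.zeta ArithmeticFunction.Moebius

namespace Q1x

/-- the name `ee` means the function of `LSAdd.lean` here -/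
lemma ee_eq (x : ℝ) : TS.ee x = ee x := by
  unfold TS.ee ee
  push_cast
  rfl

lemma nn_le_abs (x : ℝ) : nn x ≤ |x| := by
  unfold nn
  have := round_le x 0
  simpa using this

/-- the length of the windows -/
lemma length (H D : ℝ) (hD : 1 ≤ D) (hH1 : 1 ≤ H) (hH : 16 * D ≤ H ^ (1 / 4 : ℝ)) :
    1 ≤ ⌊H / (8 * D)⌋₊ ∧ H ^ (3 / 4 : ℝ) ≤ ((⌊H / (8 * D)⌋₊ : ℕ) : ℝ) ∧
    ((⌊H / (8 * D)⌋₊ : ℕ) : ℝ) ≤ H ∧ D / H ≤ 1 / (8 * ((⌊H / (8 * D)⌋₊ : ℕ) : ℝ)) := by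
  have hH0 : 0 < H := by linarith
  have hD0 : 0 < D := by linarith
  have h2 : 1 ≤ H ^ (3 / 4 : ℝ) := Real.one_le_rpow hH1 (by norm_num)
  have h1 : 2 * H ^ (3 / 4 : ℝ) ≤ H / (8 * D) := by
    rw [le_div_iff₀ (by positivity)]
    have e1 : H ^ (1 / 4 : ℝ) * H ^ (3 / 4 : ℝ) = H := by
      rw [← Real.rpow_add hH0]
      norm_num
    have e2 : 16 * D * H ^ (3 / 4 : ℝ) ≤ H ^ (1 / 4 : ℝ) * H ^ (3 / 4 : ℝ) :=
      mul_le_mul_of_nonneg_right hH (by positivity)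
    rw [e1] at e2
    calc 2 * H ^ (3 / 4 : ℝ) * (8 * D) = 16 * D * H ^ (3 / 4 : ℝ) := by ring
      _ ≤ H := e2
  have h3 : ((⌊H / (8 * D)⌋₊ : ℕ) : ℝ) ≤ H / (8 * D) := Nat.floor_le (by positivity)
  have h4 : H / (8 * D) < ((⌊H / (8 * D)⌋₊ : ℕ) : ℝ) + 1 := Nat.lt_floor_add_one _
  have h5 : H ^ (3 / 4 : ℝ) ≤ ((⌊H / (8 * D)⌋₊ : ℕ) : ℝ) := by linarith
  have h6 : (1 : ℝ) ≤ ((⌊H / (8 * D)⌋₊ : ℕ) : ℝ) := h2.trans h5
  have h7 : ((⌊H / (8 * D)⌋₊ : ℕ) : ℝ) * (8 * D) ≤ H := by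
    rwa [le_div_iff₀ (by positivity)] at h3
  refine ⟨by exact_mod_cast h6, h5, ?_, ?_⟩
  · nlinarith
  · rw [div_le_div_iff₀ hH0 (by linarith)]
    linarith

lemma numer (K X LX l B C C₁ A₁ : ℝ) (n : ℕ) (hK : 0 ≤ K) (hLX : 0 < LX)
    (hl : Real.log LX = l) (hC : 0 < C)
    (h1 : 2 * (l * C₁) - l * B + l * A₁ ≤ -1)
    (h2 : Real.log (8 * C) + n * (l * B) + l * C₁ + l * A₁ ≤ l ^ 2) :
    K / LX ^ B * (X * LX ^ C₁) * (X * LX ^ C₁) +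
      K * (C * (LX ^ B) ^ n * (4 * (X * Real.exp (-(l ^ 2))))) * (X * LX ^ C₁) ≤
    K * X ^ 2 * LX ^ (-A₁) := by
  have e1 : ∀ y : ℝ, LX ^ y = Real.exp (l * y) := by
    intro y
    rw [Real.rpow_def_of_pos hLX, hl]
  rw [e1 B, e1 C₁, e1 (-A₁), ← Real.exp_nat_mul]
  have t1 : Real.exp (2 * (l * C₁) - l * B) ≤ Real.exp (l * -A₁) / 2 := by
    calc Real.exp (2 * (l * C₁) - l * B) ≤ Real.exp (l * -A₁ + -1) :=
          Real.exp_le_exp.2 (by linarith)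
      _ = Real.exp (l * -A₁) * Real.exp (-1) := Real.exp_add _ _
      _ ≤ Real.exp (l * -A₁) * (1 / 2) := by
          refine mul_le_mul_of_nonneg_left ?_ (Real.exp_pos _).le
          have := Real.exp_neg_one_lt_d9
          linarith
      _ = Real.exp (l * -A₁) / 2 := by ring
  have t2 : 4 * C * Real.exp (n * (l * B) + -(l ^ 2) + l * C₁) ≤ Real.exp (l * -A₁) / 2 := by
    have e2 : 8 * C = Real.exp (Real.log (8 * C)) := (Real.exp_log (by positivity)).symm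
    have e3 : 8 * C * Real.exp (n * (l * B) + -(l ^ 2) + l * C₁) ≤ Real.exp (l * -A₁) := by
      rw [e2, ← Real.exp_add]
      exact Real.exp_le_exp.2 (by linarith)
    linarith
  have s1 : K / Real.exp (l * B) * (X * Real.exp (l * C₁)) * (X * Real.exp (l * C₁)) =
      K * X ^ 2 * Real.exp (2 * (l * C₁) - l * B) := by
    rw [Real.exp_sub, two_mul, Real.exp_add]
    ring
  have s2 : K * (C * Real.exp (n * (l * B)) * (4 * (X * Real.exp (-(l ^ 2))))) *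
      (X * Real.exp (l * C₁)) =
      K * X ^ 2 * (4 * C * Real.exp (n * (l * B) + -(l ^ 2) + l * C₁)) := by
    rw [Real.exp_add, Real.exp_add]
    ring
  rw [s1, s2]
  have hKX : 0 ≤ K * X ^ 2 := by positivity
  calc K * X ^ 2 * Real.exp (2 * (l * C₁) - l * B) +
        K * X ^ 2 * (4 * C * Real.exp (n * (l * B) + -(l ^ 2) + l * C₁)) ≤
        K * X ^ 2 * (Real.exp (l * -A₁) / 2) + K * X ^ 2 * (Real.exp (l * -A₁) / 2) := by
        gcongr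
    _ = K * X ^ 2 * Real.exp (l * -A₁) := by ring

/-- `16 D ≤ H^(1/4)` -/
lemma small (H LX l B C : ℝ) (n : ℕ) (hH : 0 < H) (hLX : 0 < LX) (hl : Real.log LX = l)
    (hC : 0 < C) (h1 : Real.log (16 * C) + n * (l * B) ≤ l ^ 6 / 4) (h2 : l ^ 6 ≤ Real.log H) :
    16 * (C * (LX ^ B) ^ n) ≤ H ^ (1 / 4 : ℝ) := by
  rw [Real.rpow_def_of_pos hLX, hl, ← Real.exp_nat_mul, Real.rpow_def_of_pos hH]
  have e2 : 16 * C = Real.exp (Real.log (16 * C)) := (Real.exp_log (by positivity)).symm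
  rw [← mul_assoc, e2, ← Real.exp_add]
  exact Real.exp_le_exp.2 (by linarith)

end Q1x

open Q1x in
theorem pfQ1 (hQ5 : tsQ5) (hH2 : tsH2) (hTW : fpTW) : fpQ1 := by
  intro F A hd hlc hpos C₁ A₁ θ₂ hθ₂ hθ₂'
  obtain ⟨A', c, CF, hc, hCF, -, hCFb⟩ := hH2 F hd hlc
  obtain ⟨C, hC1, hTW'⟩ := hTW F A hd hlc hpos
  have hC1r : (1 : ℝ) ≤ C := by exact_mod_cast hC1
  have hC0 : (0 : ℝ) < C := by linarith
  obtain ⟨B, hB0, hB1⟩ : ∃ B : ℝ, 0 ≤ B ∧ 2 * C₁ + A₁ + 2 ≤ B :=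
    ⟨max 0 (2 * C₁ + A₁ + 2), le_max_left _ _, le_max_right _ _⟩
  -- the conditions on `X`
  have hl2 : Tendsto l2 atTop atTop := Real.tendsto_log_atTop.comp Real.tendsto_log_atTop
  have ev1 : ∀ᶠ X : ℝ in atTop, CF * X ^ θ₂ ≤ X / 2 - 1 := by
    have h1 : ∀ᶠ X : ℝ in atTop, 4 * CF ≤ X ^ (1 - θ₂) :=
      (tendsto_rpow_atTop (by linarith : 0 < 1 - θ₂)).eventually_ge_atTop _
    filter_upwards [h1, eventually_ge_atTop (4 : ℝ)] with X hX1 hX4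
    have hX0 : 0 < X := by linarith
    have e1 : X ^ (1 - θ₂) * X ^ θ₂ = X := by
      rw [← Real.rpow_add hX0]; simp
    have e2 : 0 < X ^ θ₂ := by positivity
    nlinarith
  have ev2 : ∀ᶠ X : ℝ in atTop, 1 ≤ l2 X := hl2.eventually_ge_atTop _
  have ev3 : ∀ᶠ X : ℝ in atTop, 4 * (Real.log (16 * C) + C * B) ≤ l2 X :=
    hl2.eventually_ge_atTop _
  have ev4 : ∀ᶠ X : ℝ in atTop, Real.log (8 * C) + C * B + |C₁| + |A₁| ≤ l2 X :=
    hl2.eventually_ge_atTop _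
  have ev6 : ∀ᶠ X : ℝ in atTop, 1 ≤ Real.log X :=
    Real.tendsto_log_atTop.eventually_ge_atTop _
  obtain ⟨X1, hX1⟩ := (((ev1.and ev2).and (ev3.and ev4)).and
    ((eventually_ge_atTop (3 : ℝ)).and ev6)).exists_forall_of_atTop
  refine ⟨X1, ?_⟩
  intro X H K u v hXX hHK hHl hHθ hu hv
  obtain ⟨⟨⟨c1, c2⟩, c3, c4⟩, c7, c8⟩ := hX1 X hXX
  have hX1' : 1 ≤ X := by linarith
  have hX0' : 0 < X := by linarith
  have hlog0 : 0 < Real.log X := by linarith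
  obtain ⟨l, hl⟩ : ∃ l : ℝ, l = l2 X := ⟨_, rfl⟩
  rw [← hl] at c2 c3 c4 hHl
  have hll : Real.log (Real.log X) = l := by rw [hl]; rfl
  have hl1 : l ≤ l ^ 2 := by nlinarith
  have hl2 : l ^ 2 ≤ l ^ 6 := pow_le_pow_right₀ c2 (by norm_num)
  have hl6 : 1 ≤ l ^ 6 := one_le_pow₀ c2
  -- `K`, `H`
  have hKne : K ≠ 0 := by
    rintro rfl
    rw [Nat.cast_zero, zero_pow (by omega)] at hHK
    rw [hHK, Real.log_zero] at hHl
    linarith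
  have hK1n : 1 ≤ K := Nat.one_le_iff_ne_zero.2 hKne
  have hK1r : (1 : ℝ) ≤ K := by exact_mod_cast hK1n
  have hHge1 : 1 ≤ H := by rw [hHK]; exact one_le_pow₀ hK1r
  have hH0 : 0 < H := by linarith
  -- `T`, `D`
  obtain ⟨T, hT⟩ : ∃ T : ℝ, T = Real.log X ^ B := ⟨_, rfl⟩
  have hT1 : 1 ≤ T := by rw [hT]; exact Real.one_le_rpow c8 hB0
  obtain ⟨D, hD⟩ : ∃ D : ℝ, D = C * T ^ C := ⟨_, rfl⟩
  have hD1 : 1 ≤ D := by
    rw [hD]
    have h1 : 1 ≤ T ^ C := one_le_pow₀ hT1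
    nlinarith
  have hlog16 : 0 ≤ Real.log (16 * C) := Real.log_nonneg (by linarith)
  have hlog8 : 0 ≤ Real.log (8 * C) := Real.log_nonneg (by linarith)
  have hCB : (0 : ℝ) ≤ C * B := by positivity
  have hl0 : 0 ≤ l := by linarith
  have hsm : 16 * D ≤ H ^ (1 / 4 : ℝ) := by
    rw [hD, hT]
    refine small H (Real.log X) l B C C hH0 hlog0 hll hC0 ?_ hHl
    have h1 : Real.log (16 * C) ≤ Real.log (16 * C) * l := le_mul_of_one_le_right hlog16 c2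
    have h2 : 4 * (Real.log (16 * C) + C * B) * l ≤ l * l := mul_le_mul_of_nonneg_right c3 hl0
    nlinarith
  -- the numbers `N`, `H'`, `L`
  obtain ⟨N, hN⟩ : ∃ N : ℕ, N = ⌊X⌋₊ := ⟨_, rfl⟩
  obtain ⟨H', hH'⟩ : ∃ H' : ℕ, H' = ⌊X / 2⌋₊ := ⟨_, rfl⟩
  obtain ⟨hL1, hL2, hL3, hL4⟩ := length H D hD1 hHge1 hsm
  obtain ⟨L, hLdef⟩ : ∃ L : ℕ, L = ⌊H / (8 * D)⌋₊ := ⟨_, rfl⟩
  rw [← hLdef] at hL1 hL2 hL3 hL4
  have hL1r : (1 : ℝ) ≤ L := by exact_mod_cast hL1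
  have hNX : (N : ℝ) ≤ X := by rw [hN]; exact Nat.floor_le hX0'.le
  have hHX : (H' : ℝ) ≤ X / 2 := by rw [hH']; exact Nat.floor_le (by positivity)
  have hHX' : X / 2 < H' + 1 := by rw [hH']; exact Nat.lt_floor_add_one _
  have hNH : ((N + H' : ℕ) : ℝ) ≤ 2 * X := by push_cast; linarith
  have hN2 : (N : ℝ) ≤ 2 * X := by linarith
  have hsh : ∀ k ∈ Finset.Ioc A K, fv F k ≤ H' := by
    intro k hk
    rw [Finset.mem_Ioc] at hk
    have hk1 : 1 ≤ k := by omega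
    have h1 := hpos k hk.1
    have h2 : ((fv F k : ℕ) : ℝ) = ((F.eval (k : ℤ) : ℤ) : ℝ) := by
      unfold fv
      have : (((F.eval (k : ℤ)).toNat : ℕ) : ℤ) = F.eval (k : ℤ) := Int.toNat_of_nonneg (by omega)
      exact_mod_cast this
    have h3 : ((F.eval (k : ℤ) : ℤ) : ℝ) ≤ CF * (k : ℝ) ^ F.natDegree :=
      (le_abs_self _).trans (hCFb k hk1)
    have h4 : CF * (k : ℝ) ^ F.natDegree ≤ CF * (K : ℝ) ^ F.natDegree := by
      have : (k : ℝ) ≤ K := by exact_mod_cast hk.2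
      gcongr
    have h5 : CF * (K : ℝ) ^ F.natDegree ≤ CF * X ^ θ₂ := by
      rw [← hHK]
      gcongr
    have h6 : ((fv F k : ℕ) : ℝ) < H' + 1 := by rw [h2]; linarith
    have h7 : fv F k < H' + 1 := by exact_mod_cast h6
    omega
  obtain ⟨w, hw⟩ : ∃ w : ℝ, w = (K : ℝ) / T := ⟨_, rfl⟩
  have hw0 : 0 ≤ w := by rw [hw]; positivity
  obtain ⟨Y, hY⟩ : ∃ Y : ℝ, Y = (L : ℝ) ^ 2 * X * Real.exp (-(l ^ 2)) := ⟨_, rfl⟩
  have hY0 : 0 ≤ Y := by rw [hY]; positivity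
  have hY4 : 4 / (L : ℝ) ^ 2 * Y = 4 * (X * Real.exp (-(l ^ 2))) := by
    rw [hY]; field_simp
  obtain ⟨Γ, hΓ1, hΓ2⟩ := hTW' K T hK1n hT1
  rw [← hD] at hΓ1
  have hbad : ∀ t < N + H' + L + 1, w < ‖∑ k ∈ Finset.Ioc A K,
      TS.ee ((fv F k : ℝ) * (t : ℕ) / ((N + H' + L + 1 : ℕ) : ℝ))‖ →
      ∃ g ∈ Γ, nn ((t : ℝ) / ((N + H' + L + 1 : ℕ) : ℝ) - g) ≤ 1 / (8 * (L : ℝ)) := by
    intro t ht hwt
    rw [hw] at hwt
    simp only [ee_eq] at hwt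
    obtain ⟨g, hg, hgt⟩ := hΓ2 (N + H' + L + 1) t ht hwt
    rw [← hD, ← hHK] at hgt
    exact ⟨g, hg, (nn_le_abs _).trans (hgt.trans hL4)⟩
  -- second moments
  obtain ⟨S, hS⟩ : ∃ S : ℝ, S = X * Real.log X ^ C₁ := ⟨_, rfl⟩
  rw [← hS] at hu hv
  have hNf : N ≤ ⌊2 * X⌋₊ := Nat.le_floor hN2
  have hNHf : N + H' ≤ ⌊2 * X⌋₊ := Nat.le_floor hNH
  have hmono : ∀ (a : ℕ → ℝ) (m : ℕ), m ≤ ⌊2 * X⌋₊ →
      ∑ n ∈ Finset.Icc 1 ⌊2 * X⌋₊, a n ^ 2 ≤ S → ∑ n ∈ Finset.Icc 1 m, a n ^ 2 ≤ S := by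
    intro a m hm ha
    refine (Finset.sum_le_sum_of_subset_of_nonneg (Finset.Icc_subset_Icc_right hm)
      (fun n _ _ => sq_nonneg _)).trans ha
  have hcard : ((Finset.Ioc A K).card : ℝ) ≤ K := by
    rw [Nat.card_Ioc]
    exact_mod_cast Nat.sub_le K A
  have hS0 : 0 ≤ S := by rw [hS]; positivity
  have hlC : l * C₁ ≤ l * |C₁| := mul_le_mul_of_nonneg_left (le_abs_self _) hl0
  have hlA : l * A₁ ≤ l * |A₁| := mul_le_mul_of_nonneg_left (le_abs_self _) hl0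
  have hnum1 : 2 * (l * C₁) - l * B + l * A₁ ≤ -1 := by
    have h1 : l * (2 * C₁ + A₁ + 2) ≤ l * B := mul_le_mul_of_nonneg_left hB1 hl0
    nlinarith
  have hnum2 : Real.log (8 * C) + C * (l * B) + l * C₁ + l * A₁ ≤ l ^ 2 := by
    have h1 : Real.log (8 * C) ≤ Real.log (8 * C) * l := le_mul_of_one_le_right hlog8 c2
    have h2 : (Real.log (8 * C) + C * B + |C₁| + |A₁|) * l ≤ l * l :=
      mul_le_mul_of_nonneg_right c4 hl0
    nlinarith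
  have hfin := numer (K : ℝ) X (Real.log X) l B C C₁ A₁ C (by positivity) hlog0 hll hC0
    hnum1 hnum2
  rw [← hT, ← hS, ← hD] at hfin
  have hQ := hQ5 (Finset.Ioc A K) (fv F) u v N H' L (N + H' + L + 1) w Y Γ hL1
    (Nat.lt_succ_self _) hsh hw0 hY0 hbad
  have hu1 := hmono u N hNf hu
  have hv1 := hmono v (N + H') hNHf hv
  have hn1 : 0 ≤ ∑ n ∈ Finset.Icc 1 N, u n ^ 2 := Finset.sum_nonneg fun m _ => sq_nonneg _
  have hn2 : 0 ≤ ∑ n ∈ Finset.Icc 1 (N + H'), v n ^ 2 := Finset.sum_nonneg fun m _ => sq_nonneg _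
  have hE0 : 0 ≤ 4 * (X * Real.exp (-(l ^ 2))) := by positivity
  have hD0 : 0 ≤ D := by linarith
  rw [← hN]
  constructor
  · intro hyp
    have h1 := hQ.1 (fun γ => by
      rw [hY, hl]
      exact hyp γ N L hN2 hL2 hL3)
    refine h1.trans (le_trans ?_ hfin)
    rw [← hw, hY4]
    gcongr
  · intro hyp
    have h1 := hQ.2 (fun γ => by
      rw [hY, hl]
      exact hyp γ (N + H') L hNH hL2 hL3)
    refine h1.trans (le_trans ?_ hfin)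
    rw [← hw, hY4]
    gcongr

end Pool.Agent.Work.MP_122e00_nt.FP
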