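import Pool.Agent.Work.MP_122e00_nt.FP.StmtsA

/-!
# Item FP.S1: the numbers `be r q`
-/

namespace Pool.Agent.Work.MP_122e00_nt.FP

open Finset Filter Topology ArithmeticFunction MeasureTheory
open Pool.Agent.Work.MP_122e00_nt.TS
open scoped ArithmeticFunction.zeta ArithmeticFunction.Moebius

namespace S1x

theorem dr_two (n : ℕ) : dr 2 n = (n.divisors.card : ℝ) := by
  unfold dr
  rw [pow_two]
  have h2 : (ζ : ArithmeticFunction ℕ) * ζ = ArithmeticFunction.sigma 0 := by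
    rw [← ArithmeticFunction.zeta_mul_pow_eq_sigma, ArithmeticFunction.pow_zero_eq_zeta]
  rw [h2, ArithmeticFunction.sigma_zero_apply]

theorem le_tot (q : ℕ) (hq : 1 ≤ q) : q ≤ q.divisors.card * Nat.totient q := by
  calc q = ∑ d ∈ q.divisors, Nat.totient d := (Nat.sum_totient q).symm
    _ ≤ ∑ _d ∈ q.divisors, Nat.totient q := by
        refine Finset.sum_le_sum fun d hd => ?_
        exact Nat.le_of_dvd (Nat.totient_pos.2 hq)
          (Nat.totient_dvd_of_dvd (Nat.dvd_of_mem_divisors hd))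
    _ = q.divisors.card * Nat.totient q := by simp

end S1x

theorem pfS1 (h1 : tsL0) : fpS1 := by
  intro r ε hε
  obtain ⟨C1, hC1, h2⟩ := h1 2 (ε / 4) (by positivity)
  obtain ⟨C2, hC2, h3⟩ := h1 r (ε / 4) (by positivity)
  set η : ℝ := ε / (4 * ((r : ℝ) + 1)) with hη
  have hη0 : 0 < η := by positivity
  have hr0 : (0 : ℝ) ≤ r := by positivity
  refine ⟨C1 ^ 2 * C2 * (1 + 1 / η) ^ r, by positivity, fun q hq => ?_⟩
  have hq1 : (1 : ℝ) ≤ q := by exact_mod_cast hq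
  have hq0 : (0 : ℝ) < q := by linarith
  have hφ : (0 : ℝ) < (Nat.totient q : ℝ) := by exact_mod_cast Nat.totient_pos.2 hq
  have hl : 0 ≤ Real.log q := Real.log_natCast_nonneg q
  have hdr : 0 ≤ dr r q := by unfold dr; positivity
  have hd0 : (0 : ℝ) ≤ (q.divisors.card : ℝ) := by positivity
  refine ⟨by unfold be; positivity, ?_⟩
  have e1 : (q.divisors.card : ℝ) ≤ C1 * (q : ℝ) ^ (ε / 4) := by
    rw [← S1x.dr_two]; exact h2 q hq
  have e2 : dr r q ≤ C2 * (q : ℝ) ^ (ε / 4) := h3 q hq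
  have e3 : 1 + Real.log q ≤ (1 + 1 / η) * (q : ℝ) ^ η := by
    have a1 : Real.log q ≤ (q : ℝ) ^ η / η := Real.log_le_rpow_div hq0.le hη0
    have a2 : (1 : ℝ) ≤ (q : ℝ) ^ η := Real.one_le_rpow hq1 hη0.le
    calc 1 + Real.log q ≤ (q : ℝ) ^ η + (q : ℝ) ^ η / η := add_le_add a2 a1
      _ = (1 + 1 / η) * (q : ℝ) ^ η := by ring
  have e4 : (1 + Real.log q) ^ r ≤ (1 + 1 / η) ^ r * (q : ℝ) ^ (ε / 4) := by
    calc (1 + Real.log q) ^ r ≤ ((1 + 1 / η) * (q : ℝ) ^ η) ^ r :=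
          pow_le_pow_left₀ (by positivity) e3 r
      _ = (1 + 1 / η) ^ r * (q : ℝ) ^ (η * r) := by
          rw [mul_pow, ← Real.rpow_natCast ((q : ℝ) ^ η) r, ← Real.rpow_mul hq0.le]
      _ ≤ (1 + 1 / η) ^ r * (q : ℝ) ^ (ε / 4) := by
          gcongr
          rw [hη, div_mul_eq_mul_div, div_le_div_iff₀ (by positivity) (by positivity)]
          nlinarith
  have e5 : 1 / (Nat.totient q : ℝ) ≤ (q.divisors.card : ℝ) / q := by
    rw [div_le_div_iff₀ hφ hq0]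
    have := S1x.le_tot q hq
    have h' : (q : ℝ) ≤ (q.divisors.card : ℝ) * (Nat.totient q : ℝ) := by exact_mod_cast this
    linarith
  have e6 : be r q ≤ (q.divisors.card : ℝ) * dr r q * (1 + Real.log q) ^ r *
      ((q.divisors.card : ℝ) / q) := by
    unfold be
    rw [div_eq_mul_one_div]
    exact mul_le_mul_of_nonneg_left e5 (by positivity)
  have e7 : (q.divisors.card : ℝ) * dr r q * (1 + Real.log q) ^ r *
      ((q.divisors.card : ℝ) / q) ≤
      (C1 * (q : ℝ) ^ (ε / 4)) * (C2 * (q : ℝ) ^ (ε / 4)) *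
        ((1 + 1 / η) ^ r * (q : ℝ) ^ (ε / 4)) * ((C1 * (q : ℝ) ^ (ε / 4)) / q) := by
    gcongr
  have e8 : (C1 * (q : ℝ) ^ (ε / 4)) * (C2 * (q : ℝ) ^ (ε / 4)) *
        ((1 + 1 / η) ^ r * (q : ℝ) ^ (ε / 4)) * ((C1 * (q : ℝ) ^ (ε / 4)) / q) =
      C1 ^ 2 * C2 * (1 + 1 / η) ^ r * (q : ℝ) ^ (ε - 1) := by
    have : (q : ℝ) ^ (ε - 1) = (q : ℝ) ^ (ε / 4) * (q : ℝ) ^ (ε / 4) * (q : ℝ) ^ (ε / 4) *
        (q : ℝ) ^ (ε / 4) / q := by
      rw [← Real.rpow_add hq0, ← Real.rpow_add hq0, ← Real.rpow_add hq0, Real.rpow_sub_one hq0.ne']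
      congr 2
      ring
    rw [this]
    ring
  linarith

end Pool.Agent.Work.MP_122e00_nt.FP
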