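import Pool.Agent.Work.MP_122e00_nt.FP.StmtsA
import Pool.Agent.Work.MP_122e00_nt.TS.I_F6
import Pool.Agent.Work.MP_122e00_nt.TS.I_X2

/-!
# Full polynomial, item S2: pointwise bound of a model
-/

set_option autoImplicit false

namespace Pool.Agent.Work.MP_122e00_nt.FP

open Finset Filter Topology ArithmeticFunction MeasureTheory
open Pool.Agent.Work.MP_122e00_nt.TS
open scoped ArithmeticFunction.zeta ArithmeticFunction.Moebius

namespace S2x

theorem card_mul_le (a b : ℕ) :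
    (a * b).divisors.card ≤ a.divisors.card * b.divisors.card := by
  classical
  have h : (a * b).divisors ⊆ (a.divisors ×ˢ b.divisors).image (fun x => x.1 * x.2) := by
    intro d hd
    obtain ⟨h1, h2⟩ := Nat.mem_divisors.1 hd
    obtain ⟨x, y, hx, hy, hxy⟩ := exists_dvd_and_dvd_of_dvd_mul h1
    have ha : a ≠ 0 := left_ne_zero_of_mul h2
    have hb : b ≠ 0 := right_ne_zero_of_mul h2
    exact Finset.mem_image.2 ⟨(x, y), Finset.mem_product.2
      ⟨Nat.mem_divisors.2 ⟨hx, ha⟩, Nat.mem_divisors.2 ⟨hy, hb⟩⟩, hxy.symm⟩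
  calc (a * b).divisors.card ≤ ((a.divisors ×ˢ b.divisors).image (fun x => x.1 * x.2)).card :=
        Finset.card_le_card h
    _ ≤ (a.divisors ×ˢ b.divisors).card := Finset.card_image_le
    _ = _ := Finset.card_product _ _

theorem self_le (E : ℕ) (hE : E ≠ 0) : E ≤ E.divisors.card * E.totient := by
  calc E = ∑ d ∈ E.divisors, d.totient := (Nat.sum_totient E).symm
    _ ≤ ∑ d ∈ E.divisors, E.totient := by
        apply Finset.sum_le_sum
        intro d hd
        exact Nat.le_of_dvd (Nat.totient_pos.mpr (Nat.pos_of_ne_zero hE))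
          (Nat.totient_dvd_of_dvd (Nat.dvd_of_mem_divisors hd))
    _ = _ := by simp

theorem dr_nonneg (r n : ℕ) : 0 ≤ dr r n := Nat.cast_nonneg _

theorem dr_two (n : ℕ) : dr 2 n = (n.divisors.card : ℝ) := by
  unfold dr
  rw [pow_two]
  have h2 : (ζ : ArithmeticFunction ℕ) * ζ = ArithmeticFunction.sigma 0 := by
    rw [← ArithmeticFunction.zeta_mul_pow_eq_sigma, ArithmeticFunction.pow_zero_eq_zeta]
  rw [h2, ArithmeticFunction.sigma_zero_apply]

theorem dr_mul (r a b : ℕ) : dr r (a * b) ≤ dr r a * dr r b := by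
  unfold dr
  exact_mod_cast IX2.z_sub r a b

theorem dr_succ (r n : ℕ) : dr (r + 1) n = ∑ d ∈ n.divisors, dr r d := by
  unfold dr
  rw [IX2.z_succ]
  push_cast
  rfl

theorem be_nonneg (r q : ℕ) : 0 ≤ be r q := by
  unfold be
  have h1 := dr_nonneg r q
  have h2 : 0 ≤ Real.log q := Real.log_natCast_nonneg q
  positivity

theorem be_mul (r g m : ℕ) (hg : 1 ≤ g) (hm : 1 ≤ m) : be r (g * m) ≤ be r g * be r m := by
  have hg0 : (0 : ℝ) < g := by exact_mod_cast hg
  have hm0 : (0 : ℝ) < m := by exact_mod_cast hm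
  have hφg : (0 : ℝ) < (Nat.totient g : ℝ) := by exact_mod_cast Nat.totient_pos.2 hg
  have hφm : (0 : ℝ) < (Nat.totient m : ℝ) := by exact_mod_cast Nat.totient_pos.2 hm
  have hlg : 0 ≤ Real.log g := Real.log_natCast_nonneg g
  have hlm : 0 ≤ Real.log m := Real.log_natCast_nonneg m
  have h1 : ((g * m).divisors.card : ℝ) ≤ (g.divisors.card : ℝ) * (m.divisors.card : ℝ) := by
    exact_mod_cast card_mul_le g m
  have h2 : (Nat.totient g : ℝ) * (Nat.totient m : ℝ) ≤ (Nat.totient (g * m) : ℝ) := by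
    exact_mod_cast Nat.totient_super_multiplicative g m
  have h4 : 1 + Real.log ((g * m : ℕ) : ℝ) ≤ (1 + Real.log g) * (1 + Real.log m) := by
    push_cast
    rw [Real.log_mul hg0.ne' hm0.ne']
    nlinarith [mul_nonneg hlg hlm]
  have h5 : 0 ≤ Real.log ((g * m : ℕ) : ℝ) := Real.log_natCast_nonneg _
  have h6 := dr_mul r g m
  have h7 := dr_nonneg r g
  have h8 := dr_nonneg r m
  have h9 := dr_nonneg r (g * m)
  unfold be
  calc ((g * m).divisors.card : ℝ) * dr r (g * m) * (1 + Real.log ((g * m : ℕ) : ℝ)) ^ r /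
        (Nat.totient (g * m) : ℝ)
      ≤ ((g.divisors.card : ℝ) * (m.divisors.card : ℝ)) * (dr r g * dr r m) *
        ((1 + Real.log g) * (1 + Real.log m)) ^ r /
        ((Nat.totient g : ℝ) * (Nat.totient m : ℝ)) := by
        gcongr
    _ = _ := by
        rw [mul_pow]
        field_simp

theorem self_mul_be (h1 : ∀ r s n : ℕ, 1 ≤ r → 1 ≤ s → dr r n * dr s n ≤ dr (r * s) n)
    (r q : ℕ) (hr : 1 ≤ r) (hq : 1 ≤ q) :
    (q : ℝ) * be r q ≤ dr (4 * r) q * (1 + Real.log q) ^ r := by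
  have hq0 : (0 : ℝ) < q := by exact_mod_cast hq
  have hφ : (0 : ℝ) < (Nat.totient q : ℝ) := by exact_mod_cast Nat.totient_pos.2 hq
  have hl : 0 ≤ Real.log q := Real.log_natCast_nonneg q
  have hf : (q : ℝ) / (Nat.totient q : ℝ) ≤ dr 2 q := by
    rw [div_le_iff₀ hφ, dr_two]
    exact_mod_cast self_le q (by omega)
  have h2 := h1 2 2 q (by norm_num) (by norm_num)
  have h3 := h1 4 r q (by norm_num) hr
  have h4 := dr_nonneg r q
  have h5 := dr_nonneg 2 q
  have e1 : (q : ℝ) * be r q =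
      ((q : ℝ) / (Nat.totient q : ℝ)) * (dr 2 q * dr r q * (1 + Real.log q) ^ r) := by
    unfold be
    rw [dr_two]
    ring
  rw [e1]
  calc ((q : ℝ) / (Nat.totient q : ℝ)) * (dr 2 q * dr r q * (1 + Real.log q) ^ r)
      ≤ dr 2 q * (dr 2 q * dr r q * (1 + Real.log q) ^ r) :=
        mul_le_mul_of_nonneg_right hf (by positivity)
    _ = (dr 2 q * dr 2 q) * (dr r q * (1 + Real.log q) ^ r) := by ring
    _ ≤ dr 4 q * (dr r q * (1 + Real.log q) ^ r) :=
        mul_le_mul_of_nonneg_right h2 (by positivity)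
    _ = (dr 4 q * dr r q) * (1 + Real.log q) ^ r := by ring
    _ ≤ dr (4 * r) q * (1 + Real.log q) ^ r :=
        mul_le_mul_of_nonneg_right h3 (by positivity)

/-- a double sum over factorisations -/
theorem dbl (f g : ℕ → ℝ) (hf : ∀ a, 0 ≤ f a) (hg : ∀ a, 0 ≤ g a) (Q : ℕ) :
    ∑ q ∈ Finset.Icc 1 Q, ∑ x ∈ q.divisorsAntidiagonal, f x.1 * g x.2 ≤
      (∑ a ∈ Finset.Icc 1 Q, f a) * ∑ b ∈ Finset.Icc 1 Q, g b := by
  have hnn : ∀ x : ℕ × ℕ, 0 ≤ f x.1 * g x.2 := fun x => mul_nonneg (hf _) (hg _)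
  have h1 : ∀ q ∈ Finset.Icc 1 Q, ∑ x ∈ q.divisorsAntidiagonal, f x.1 * g x.2 ≤
      ∑ x ∈ (Finset.Icc 1 Q) ×ˢ (Finset.Icc 1 Q), if q = x.1 * x.2 then f x.1 * g x.2 else 0 := by
    intro q hq
    rw [Finset.mem_Icc] at hq
    rw [← Finset.sum_filter]
    have hsub : q.divisorsAntidiagonal ⊆
        ((Finset.Icc 1 Q) ×ˢ (Finset.Icc 1 Q)).filter (fun x => q = x.1 * x.2) := by
      intro x hx
      rw [Nat.mem_divisorsAntidiagonal] at hx
      rw [Finset.mem_filter, Finset.mem_product, Finset.mem_Icc, Finset.mem_Icc]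
      have hx1 : 0 < x.1 := Nat.pos_of_ne_zero (by rintro h; rw [h] at hx; simp at hx; omega)
      have hx2 : 0 < x.2 := Nat.pos_of_ne_zero (by rintro h; rw [h] at hx; simp at hx; omega)
      have h3 : x.1 ≤ q := by rw [← hx.1]; exact Nat.le_mul_of_pos_right _ hx2
      have h4 : x.2 ≤ q := by rw [← hx.1]; exact Nat.le_mul_of_pos_left _ hx1
      exact ⟨⟨⟨hx1, by omega⟩, ⟨hx2, by omega⟩⟩, hx.1.symm⟩
    exact Finset.sum_le_sum_of_subset_of_nonneg hsub (fun x _ _ => hnn x)
  refine le_trans (Finset.sum_le_sum h1) ?_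
  have e : (∑ a ∈ Finset.Icc 1 Q, f a) * ∑ b ∈ Finset.Icc 1 Q, g b =
      ∑ x ∈ (Finset.Icc 1 Q) ×ˢ (Finset.Icc 1 Q), f x.1 * g x.2 := by
    rw [Finset.sum_mul_sum, Finset.sum_product]
  rw [e, Finset.sum_comm]
  apply Finset.sum_le_sum
  intro x _
  rw [Finset.sum_ite_eq']
  split_ifs
  · exact le_refl _
  · exact hnn x

theorem sum_dr_div (r Q : ℕ) :
    ∑ m ∈ Finset.Icc 1 Q, dr r m / (m : ℝ) ≤ (1 + Real.log Q) ^ r := by
  have hlQ : 0 ≤ Real.log Q := Real.log_natCast_nonneg Q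
  induction r with
  | zero =>
    rw [pow_zero]
    have h1 : ∀ m ∈ Finset.Icc 1 Q, dr 0 m / (m : ℝ) = if m = 1 then (1 : ℝ) else 0 := by
      intro m hm
      unfold dr
      rw [pow_zero]
      by_cases h : m = 1
      · rw [h]
        simp
      · rw [ArithmeticFunction.one_apply_ne h, if_neg h]
        simp
    rw [Finset.sum_congr rfl h1, Finset.sum_ite_eq']
    split_ifs
    · exact le_refl _
    · norm_num
  | succ r ih =>
    have h1 : ∀ m ∈ Finset.Icc 1 Q, dr (r + 1) m / (m : ℝ) =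
        ∑ x ∈ m.divisorsAntidiagonal, (dr r x.1 / (x.1 : ℝ)) * (1 / (x.2 : ℝ)) := by
      intro m hm
      rw [Finset.mem_Icc] at hm
      rw [dr_succ, Finset.sum_div, ← Nat.map_div_right_divisors, Finset.sum_map]
      refine Finset.sum_congr rfl fun d hd => ?_
      obtain ⟨e, he⟩ := Nat.dvd_of_mem_divisors hd
      have hd0 : 0 < d := Nat.pos_of_mem_divisors hd
      show dr r d / (m : ℝ) = (dr r d / (d : ℝ)) * (1 / ((m / d : ℕ) : ℝ))
      have he2 : m / d = e := by
        rw [he]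
        exact Nat.mul_div_cancel_left e hd0
      rw [he2, div_mul_div_comm, mul_one]
      congr 1
      rw [he]
      push_cast
      ring
    rw [Finset.sum_congr rfl h1]
    refine (dbl (fun a => dr r a / (a : ℝ)) (fun b => 1 / (b : ℝ))
      (fun a => div_nonneg (dr_nonneg _ _) (Nat.cast_nonneg _)) (fun b => by positivity) Q).trans ?_
    rw [pow_succ]
    exact mul_le_mul ih (IF6.harm Q) (Finset.sum_nonneg fun a _ => by positivity) (by positivity)

end S2x

open S2x in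
theorem pfS2 (h1 : tsX2) : fpS2 := by
  intro r hr
  obtain ⟨hmul, -, -⟩ := h1
  set A : ℝ := ((r : ℝ) + 1) * ((r : ℝ) + 2) * 4 ^ (7 * r) with hA
  have hA0 : 0 < A := by positivity
  refine ⟨A + 7 * r, by positivity, ?_⟩
  intro E' M X Q n hX hM hdeg hco hQX hn hnX
  have hX0 : (0 : ℝ) < X := by linarith
  have hn1 : (1 : ℝ) ≤ n := by exact_mod_cast hn
  have hlog : 1 ≤ Real.log X := by
    have h1 : Real.exp 1 ≤ 3 := by linarith [Real.exp_one_lt_d9]
    rw [Real.le_log_iff_exp_le (by linarith)]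
    linarith
  set L : ℝ := 1 + Real.log (3 * X) with hL
  have hlog3 : Real.log (3 * X) = Real.log 3 + Real.log X :=
    Real.log_mul (by norm_num) (by linarith)
  have hl3 : 0 ≤ Real.log 3 := Real.log_nonneg (by norm_num)
  have hl3X : Real.log 3 ≤ Real.log X := Real.log_le_log (by norm_num) hX
  have hL1 : 1 ≤ L := by rw [hL, hlog3]; linarith
  have hL0 : 0 ≤ L := by linarith
  have hL4 : L ≤ 4 * Real.log X := by rw [hL, hlog3]; linarith
  have hXL : 1 + Real.log X ≤ L := by rw [hL, hlog3]; linarith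
  have hu0 : 0 ≤ Real.log n := Real.log_nonneg hn1
  have huL : Real.log n ≤ L := by
    have := Real.log_le_log (by linarith) hnX
    linarith
  have hqL : ∀ q ∈ Finset.Icc 1 Q, 0 ≤ 1 + Real.log q ∧ 1 + Real.log q ≤ L := by
    intro q hq
    rw [Finset.mem_Icc] at hq
    have hq1 : (1 : ℝ) ≤ q := by exact_mod_cast hq.1
    have hqX : (q : ℝ) ≤ X := le_trans (by exact_mod_cast hq.2) hQX
    have h2 := Real.log_nonneg hq1
    have h3 := Real.log_le_log (by linarith) hqX
    constructor <;> linarith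
  have hlogQ : 1 + Real.log Q ≤ L := by
    rcases Nat.eq_zero_or_pos Q with h0 | h0
    · rw [h0, Nat.cast_zero, Real.log_zero]
      linarith
    · exact (hqL Q (Finset.mem_Icc.2 ⟨h0, le_rfl⟩)).2
  have hlogQ0 : 0 ≤ 1 + Real.log Q := by
    have := Real.log_natCast_nonneg Q
    linarith
  -- the first factor
  have hs1 : ∑ a ∈ Finset.Icc 1 Q, be r a ≤ L ^ (5 * r) := by
    have h2 : ∀ a ∈ Finset.Icc 1 Q, be r a ≤ L ^ r * (dr (4 * r) a / (a : ℝ)) := by
      intro a ha
      have ha1 : 1 ≤ a := (Finset.mem_Icc.1 ha).1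
      have ha0 : (0 : ℝ) < a := by exact_mod_cast ha1
      obtain ⟨k1, k2⟩ := hqL a ha
      have h3 := self_mul_be hmul r a hr ha1
      have h4 : (1 + Real.log a) ^ r ≤ L ^ r := pow_le_pow_left₀ k1 k2 r
      rw [← mul_div_assoc, le_div_iff₀ ha0]
      calc be r a * (a : ℝ) = (a : ℝ) * be r a := mul_comm _ _
        _ ≤ dr (4 * r) a * (1 + Real.log a) ^ r := h3
        _ ≤ dr (4 * r) a * L ^ r := mul_le_mul_of_nonneg_left h4 (dr_nonneg _ _)
        _ = L ^ r * dr (4 * r) a := mul_comm _ _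
    refine (Finset.sum_le_sum h2).trans ?_
    rw [← Finset.mul_sum]
    calc L ^ r * ∑ a ∈ Finset.Icc 1 Q, dr (4 * r) a / (a : ℝ)
        ≤ L ^ r * (1 + Real.log Q) ^ (4 * r) :=
          mul_le_mul_of_nonneg_left (sum_dr_div (4 * r) Q) (by positivity)
      _ ≤ L ^ r * L ^ (4 * r) :=
          mul_le_mul_of_nonneg_left (pow_le_pow_left₀ hlogQ0 hlogQ _) (by positivity)
      _ = L ^ (5 * r) := by
          rw [← pow_add]
          congr 1
          ring
  -- the second factor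
  have hs2 : ∑ b ∈ Finset.Icc 1 Q, Fh n b * be r b ≤ L ^ r * dr (4 * r + 1) n := by
    have h2 : ∀ b ∈ Finset.Icc 1 Q, Fh n b * be r b ≤
        if b ∣ n then L ^ r * dr (4 * r) b else 0 := by
      intro b hb
      have hb1 : 1 ≤ b := (Finset.mem_Icc.1 hb).1
      obtain ⟨k1, k2⟩ := hqL b hb
      rw [Fh_apply]
      split_ifs
      · have h3 := self_mul_be hmul r b hr hb1
        have h4 : (1 + Real.log b) ^ r ≤ L ^ r := pow_le_pow_left₀ k1 k2 r
        calc (b : ℝ) * be r b ≤ dr (4 * r) b * (1 + Real.log b) ^ r := h3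
          _ ≤ dr (4 * r) b * L ^ r := mul_le_mul_of_nonneg_left h4 (dr_nonneg _ _)
          _ = L ^ r * dr (4 * r) b := mul_comm _ _
      · rw [zero_mul]
    refine (Finset.sum_le_sum h2).trans ?_
    rw [← Finset.sum_filter, ← Finset.mul_sum, dr_succ]
    refine mul_le_mul_of_nonneg_left ?_ (by positivity)
    refine Finset.sum_le_sum_of_subset_of_nonneg ?_ fun b _ _ => dr_nonneg _ _
    intro b hb
    rw [Finset.mem_filter] at hb
    exact Nat.mem_divisors.2 ⟨hb.2, by omega⟩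
  -- the terms
  have hterm : ∀ q ∈ Finset.Icc 1 Q, |Gh n q * (ed (E' q)).eval (Real.log n)| ≤
      (((r : ℝ) + 1) * ((r : ℝ) + 2) * M * L ^ r) *
        ∑ x ∈ q.divisorsAntidiagonal, be r x.1 * (Fh n x.2 * be r x.2) := by
    intro q hq
    rw [Finset.mem_Icc] at hq
    have hb := be_nonneg r q
    have k1 := IF6.ed_bd r (E' q) (hdeg q) (M * be r q) (mul_nonneg hM hb)
      (fun j => hco q j hq.1) (Real.log n) L hu0 hL1 huL
    have k2 := IF6.abs_Gh n q
    rw [abs_mul]
    calc |Gh n q| * |(ed (E' q)).eval (Real.log n)|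
        ≤ (∑ x ∈ q.divisorsAntidiagonal, Fh n x.2) *
          (((r : ℝ) + 1) * ((r : ℝ) + 2) * (M * be r q) * L ^ r) :=
          mul_le_mul k2 k1 (abs_nonneg _) (Finset.sum_nonneg fun x _ => IF6.Fh_nonneg _ _)
      _ = (((r : ℝ) + 1) * ((r : ℝ) + 2) * M * L ^ r) *
          ∑ x ∈ q.divisorsAntidiagonal, Fh n x.2 * be r q := by
          rw [← Finset.sum_mul]
          ring
      _ ≤ _ := by
          refine mul_le_mul_of_nonneg_left (Finset.sum_le_sum fun x hx => ?_) (by positivity)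
          obtain ⟨hx1, hx2⟩ := Nat.mem_divisorsAntidiagonal.1 hx
          have hx3 : x.1 ≠ 0 := by
            intro h0
            rw [h0, zero_mul] at hx1
            exact hx2 hx1.symm
          have hx4 : x.2 ≠ 0 := by
            intro h0
            rw [h0, mul_zero] at hx1
            exact hx2 hx1.symm
          have k3 := be_mul r x.1 x.2 (by omega) (by omega)
          rw [hx1] at k3
          calc Fh n x.2 * be r q ≤ Fh n x.2 * (be r x.1 * be r x.2) :=
                mul_le_mul_of_nonneg_left k3 (IF6.Fh_nonneg _ _)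
            _ = _ := by ring
  have hB : 0 ≤ ((r : ℝ) + 1) * ((r : ℝ) + 2) * M * L ^ r := by positivity
  have hdn : 0 ≤ dr (4 * r + 1) n := dr_nonneg _ _
  have hlC : Real.log X ^ (7 * r) ≤ Real.log X ^ (A + 7 * r) := by
    rw [← Real.rpow_natCast]
    refine Real.rpow_le_rpow_of_exponent_le hlog ?_
    push_cast
    linarith
  calc |fs E' Q n| ≤ ∑ q ∈ Finset.Icc 1 Q, |Gh n q * (ed (E' q)).eval (Real.log n)| := by
        unfold fs
        exact Finset.abs_sum_le_sum_abs _ _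
    _ ≤ ∑ q ∈ Finset.Icc 1 Q, (((r : ℝ) + 1) * ((r : ℝ) + 2) * M * L ^ r) *
        ∑ x ∈ q.divisorsAntidiagonal, be r x.1 * (Fh n x.2 * be r x.2) :=
        Finset.sum_le_sum hterm
    _ = (((r : ℝ) + 1) * ((r : ℝ) + 2) * M * L ^ r) *
        ∑ q ∈ Finset.Icc 1 Q, ∑ x ∈ q.divisorsAntidiagonal,
          be r x.1 * (Fh n x.2 * be r x.2) := by
        rw [Finset.mul_sum]
    _ ≤ (((r : ℝ) + 1) * ((r : ℝ) + 2) * M * L ^ r) *
        ((∑ a ∈ Finset.Icc 1 Q, be r a) * ∑ b ∈ Finset.Icc 1 Q, Fh n b * be r b) := by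
        refine mul_le_mul_of_nonneg_left ?_ hB
        exact dbl (fun a => be r a) (fun b => Fh n b * be r b) (fun a => be_nonneg r a)
          (fun b => mul_nonneg (IF6.Fh_nonneg _ _) (be_nonneg r b)) Q
    _ ≤ (((r : ℝ) + 1) * ((r : ℝ) + 2) * M * L ^ r) *
        (L ^ (5 * r) * (L ^ r * dr (4 * r + 1) n)) := by
        refine mul_le_mul_of_nonneg_left ?_ hB
        exact mul_le_mul hs1 hs2
          (Finset.sum_nonneg fun b _ => mul_nonneg (IF6.Fh_nonneg _ _) (be_nonneg r b))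
          (by positivity)
    _ = (((r : ℝ) + 1) * ((r : ℝ) + 2)) * L ^ (7 * r) * (M * dr (4 * r + 1) n) := by
        have e1 : L ^ (7 * r) = L ^ r * (L ^ (5 * r) * L ^ r) := by
          rw [← pow_add, ← pow_add]
          congr 1
          ring
        rw [e1]
        ring
    _ ≤ (((r : ℝ) + 1) * ((r : ℝ) + 2)) * (4 * Real.log X) ^ (7 * r) * (M * dr (4 * r + 1) n) := by
        refine mul_le_mul_of_nonneg_right ?_ (mul_nonneg hM hdn)
        exact mul_le_mul_of_nonneg_left (pow_le_pow_left₀ hL0 hL4 _) (by positivity)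
    _ = A * Real.log X ^ (7 * r) * (M * dr (4 * r + 1) n) := by
        rw [mul_pow, hA]
        ring
    _ ≤ (A + 7 * r) * Real.log X ^ (A + 7 * r) * (M * dr (4 * r + 1) n) := by
        refine mul_le_mul_of_nonneg_right ?_ (mul_nonneg hM hdn)
        refine mul_le_mul ?_ hlC (by positivity) (by positivity)
        have : (0 : ℝ) ≤ 7 * r := by positivity
        linarith
    _ = (A + 7 * r) * M * Real.log X ^ (A + 7 * r) * dr (4 * r + 1) n := by ring

end Pool.Agent.Work.MP_122e00_nt.FP
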