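import Pool.Agent.Work.MP_122e00_nt.FP.StmtsD

/-!
# Full polynomial, item S4: second moments
-/

namespace Pool.Agent.Work.MP_122e00_nt.FP

open Finset Filter Topology ArithmeticFunction MeasureTheory
open Pool.Agent.Work.MP_122e00_nt.TS
open scoped ArithmeticFunction.zeta ArithmeticFunction.Moebius

namespace S4x

lemma dr_nn (r n : ℕ) : 0 ≤ dr r n := Nat.cast_nonneg _

lemma sub_sq_le (x y : ℝ) : (x - y) ^ 2 ≤ 2 * x ^ 2 + 2 * y ^ 2 := by
  nlinarith [sq_nonneg (x + y)]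

/-- the sum of a divisor function over `n ≤ 2X` -/
lemma sum_dr (h7 : tsX2) (R : ℕ) (hR : 1 ≤ R) (X : ℝ) (hX : 16 ≤ X) (hL : 3 ≤ Real.log X) :
    ∑ n ∈ Finset.Icc 1 ⌊2 * X⌋₊, dr R n ≤ X * Real.log X ^ (2 * R) := by
  have hN1 : 1 ≤ ⌊2 * X⌋₊ := Nat.le_floor (by norm_num; linarith)
  have hN2 : ((⌊2 * X⌋₊ : ℕ) : ℝ) ≤ 2 * X := Nat.floor_le (by linarith)
  have hN3 : (1 : ℝ) ≤ ((⌊2 * X⌋₊ : ℕ) : ℝ) := by exact_mod_cast hN1
  have h1 := h7.2.1 R ⌊2 * X⌋₊ hR hN1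
  have hlog : Real.log ((⌊2 * X⌋₊ : ℕ) : ℝ) ≤ 1 + Real.log X := by
    have h2 : Real.log ((⌊2 * X⌋₊ : ℕ) : ℝ) ≤ Real.log (2 * X) :=
      Real.log_le_log (by linarith) hN2
    rw [Real.log_mul (by norm_num) (by linarith)] at h2
    have h3 : Real.log 2 ≤ 1 := by
      have := Real.log_le_sub_one_of_pos (show (0 : ℝ) < 2 by norm_num)
      linarith
    linarith
  have hlog0 : 0 ≤ Real.log ((⌊2 * X⌋₊ : ℕ) : ℝ) := Real.log_nonneg hN3
  have h2 : 1 + Real.log ((⌊2 * X⌋₊ : ℕ) : ℝ) ≤ 2 * Real.log X := by linarith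
  have h3 : (1 + Real.log ((⌊2 * X⌋₊ : ℕ) : ℝ)) ^ (R - 1) ≤ (2 * Real.log X) ^ (R - 1) :=
    pow_le_pow_left₀ (by linarith) h2 _
  have hL0 : 0 < Real.log X := by linarith
  obtain ⟨m, rfl⟩ : ∃ m, R = m + 1 := ⟨R - 1, by omega⟩
  rw [Nat.add_sub_cancel] at h1 h3
  calc ∑ n ∈ Finset.Icc 1 ⌊2 * X⌋₊, dr (m + 1) n
      ≤ ((⌊2 * X⌋₊ : ℕ) : ℝ) * (1 + Real.log ((⌊2 * X⌋₊ : ℕ) : ℝ)) ^ m := h1
    _ ≤ (2 * X) * (2 * Real.log X) ^ m :=
        mul_le_mul hN2 h3 (pow_nonneg (by linarith) _) (by linarith)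
    _ = X * (2 ^ (m + 1) * Real.log X ^ m) := by rw [mul_pow]; ring
    _ ≤ X * (Real.log X ^ (m + 1) * Real.log X ^ (m + 1)) := by
        refine mul_le_mul_of_nonneg_left ?_ (by linarith)
        refine mul_le_mul (pow_le_pow_left₀ (by norm_num) (by linarith) _) ?_
          (pow_nonneg hL0.le _) (pow_nonneg hL0.le _)
        exact pow_le_pow_right₀ (by linarith) (Nat.le_succ m)
    _ = X * Real.log X ^ (2 * (m + 1)) := by rw [← pow_add]; congr 2; ring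

/-- a function which is bounded by a divisor function -/
lemma sum_sq (h7 : tsX2) (R : ℕ) (hR : 1 ≤ R) (X : ℝ) (hX : 16 ≤ X) (hL : 3 ≤ Real.log X)
    (f : ℕ → ℝ) (B : ℝ)
    (hf : ∀ n ∈ Finset.Icc 1 ⌊2 * X⌋₊, |f n| ≤ B * dr R n) :
    ∑ n ∈ Finset.Icc 1 ⌊2 * X⌋₊, f n ^ 2 ≤ B ^ 2 * (X * Real.log X ^ (2 * (R * R))) := by
  have h1 : ∀ n ∈ Finset.Icc 1 ⌊2 * X⌋₊, f n ^ 2 ≤ B ^ 2 * dr (R * R) n := by
    intro n hn
    have h2 : f n ^ 2 ≤ (B * dr R n) ^ 2 := by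
      rw [← sq_abs (f n)]
      exact pow_le_pow_left₀ (abs_nonneg _) (hf n hn) 2
    refine h2.trans ?_
    rw [mul_pow]
    refine mul_le_mul_of_nonneg_left ?_ (sq_nonneg B)
    rw [sq]
    exact h7.1 R R n hR hR
  refine (Finset.sum_le_sum h1).trans ?_
  rw [← Finset.mul_sum]
  exact mul_le_mul_of_nonneg_left (sum_dr h7 (R * R) (Nat.mul_pos hR hR) X hX hL) (sq_nonneg B)

end S4x

open S4x in
/-- item S4 -/
theorem pfS4 (h1 : fpP1) (h2 : fpP2) (h3 : fpA1) (h4 : fpS1) (h5 : fpS2) (h6 : fpV1)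
    (h7 : tsX2) : fpS4 := by
  intro r E hr hAP hCB
  have hr1 : 1 ≤ r := by omega
  obtain ⟨C₂, hC₂, hS2⟩ := h5 r hr1
  obtain ⟨C₁, hC₁, hV1⟩ := h6 r E hr1 hAP hCB
  obtain ⟨X0, hX0⟩ := h1 ((r : ℝ) ^ 2 + (C₁ * C₂) ^ 2 + 2)
  -- the exponents
  set c1 : ℝ := ((2 * (r * r) : ℕ) : ℝ) with hc1
  set c2 : ℝ := ((2 * ((3 * r + 1) * (3 * r + 1)) + 1 : ℕ) : ℝ) with hc2
  set c3 : ℝ := 2 * (C₁ + C₂) + 1 + ((2 * ((4 * r + 1) * (4 * r + 1)) : ℕ) : ℝ) with hc3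
  have hc1n : 0 ≤ c1 := Nat.cast_nonneg _
  have hc2n : 0 ≤ c2 := Nat.cast_nonneg _
  have hc3n : 0 ≤ c3 := by
    have : (0 : ℝ) ≤ ((2 * ((4 * r + 1) * (4 * r + 1)) : ℕ) : ℝ) := Nat.cast_nonneg _
    rw [hc3]
    linarith
  refine ⟨c1 + c2 + c3 + 2, X0, by linarith, ?_⟩
  intro X H η k hX hlH hHX hH0 hη0 hη hKK
  obtain ⟨hX16, hL3, hl, -, hexp⟩ := hX0 X hX
  have hL0 : 0 < Real.log X := by linarith
  have hL1 : 1 ≤ Real.log X := by linarith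
  have hlL : l2 X ≤ Real.log X := by
    have h8 := Real.log_le_sub_one_of_pos hL0
    unfold l2
    linarith
  have hl2 : 2 ≤ l2 X := by
    have h8 : 0 ≤ (r : ℝ) ^ 2 := sq_nonneg _
    have h9 : 0 ≤ (C₁ * C₂) ^ 2 := sq_nonneg _
    linarith
  have hrL : (r : ℝ) ^ 2 ≤ Real.log X := by
    have h9 : 0 ≤ (C₁ * C₂) ^ 2 := sq_nonneg _
    linarith
  have hCL : (C₁ * C₂) ^ 2 ≤ Real.log X := by
    have h8 : 0 ≤ (r : ℝ) ^ 2 := sq_nonneg _
    linarith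
  have hmono : ∀ a b : ℝ, a ≤ b → X * Real.log X ^ a ≤ X * Real.log X ^ b := fun a b hab =>
    mul_le_mul_of_nonneg_left (Real.rpow_le_rpow_of_exponent_le hL1 hab) (by linarith)
  obtain ⟨hz, hzw, hw1, hw2, hI, hI'⟩ := h2 X H hl2 hlH hHX hH0
  have hl6 : (64 : ℝ) ≤ l2 X ^ 6 := by
    have := pow_le_pow_left₀ (by norm_num : (0 : ℝ) ≤ 2) hl2 6
    norm_num at this
    exact this
  have hlogH : 64 ≤ Real.log H := hl6.trans hlH
  have hH1 : 1 ≤ H := by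
    by_contra hcon
    push Not at hcon
    have := Real.log_neg hH0 hcon
    linarith
  have hlHX : Real.log H ≤ Real.log X := Real.log_le_log hH0 hHX
  have hzc1 : 1 ≤ zc X := by
    unfold zc zi
    refine Real.one_le_exp ?_
    have : 0 ≤ l2 X := by linarith
    positivity
  have hwc1 : 1 ≤ wc X H := hzc1.trans hzw
  have hwcX : wc X H ≤ X := by
    have h8 : Real.log (wc X H) ≤ Real.log X := by
      refine hw1.trans (le_trans ?_ hlHX)
      have h9 : 0 ≤ Real.log H := by linarith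
      exact div_le_self h9 (one_le_pow₀ (by linarith))
    exact (Real.log_le_log_iff (by linarith) (by linarith)).1 h8
  have hSX : ((Sc H : ℕ) : ℝ) ≤ X := by
    unfold Sc
    refine (Nat.floor_le (Real.rpow_nonneg hH0.le _)).trans (le_trans ?_ hHX)
    calc H ^ (1 / 16 : ℝ) ≤ H ^ (1 : ℝ) :=
          Real.rpow_le_rpow_of_exponent_le hH1 (by norm_num)
      _ = H := Real.rpow_one H
  have hQX : ((Qc (4 * η) X : ℕ) : ℝ) ≤ X := by
    unfold Qc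
    refine (Nat.floor_le (Real.exp_pos _).le).trans ?_
    have h8 : Real.exp (4 * η * l2 X ^ 3) ≤ Real.exp (l2 X ^ 3) := by
      refine Real.exp_le_exp.2 ?_
      have h9 : 0 ≤ l2 X ^ 3 := pow_nonneg (by linarith) 3
      have h10 : 4 * η ≤ 1 := by linarith
      exact (mul_le_mul_of_nonneg_right h10 h9).trans_eq (one_mul _)
    refine h8.trans (hexp.trans ?_)
    calc X ^ (1 / 100 : ℝ) ≤ X ^ (1 : ℝ) :=
          Real.rpow_le_rpow_of_exponent_le (by linarith) (by norm_num)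
      _ = X := Real.rpow_one X
  -- (1)
  have e1 : ∑ n ∈ Finset.Icc 1 ⌊2 * X⌋₊, dr r n ^ 2 ≤ X * Real.log X ^ c1 := by
    have h8 := sum_sq h7 r hr1 X hX16 hL3 (dr r) 1 (fun n _ => by
      rw [one_mul, abs_of_nonneg (dr_nn r n)])
    rw [one_pow, one_mul] at h8
    rw [hc1, Real.rpow_natCast]
    exact h8
  -- (2)
  have e2 : ∑ n ∈ Finset.Icc 1 ⌊2 * X⌋₊, fX r k X H n ^ 2 ≤ X * Real.log X ^ c2 := by
    have h8 := sum_sq h7 (3 * r + 1) (by omega) X hX16 hL3 (fX r k X H) r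
      (fun n hn => (h3 r (zc X) (wc X H) k (Sc H) n hr1 hKK (Finset.mem_Icc.1 hn).1).2)
    refine h8.trans ?_
    rw [hc2, Real.rpow_natCast, pow_succ]
    have h9 : 0 ≤ X * Real.log X ^ (2 * ((3 * r + 1) * (3 * r + 1))) :=
      mul_nonneg (by linarith) (pow_nonneg hL0.le _)
    calc (r : ℝ) ^ 2 * (X * Real.log X ^ (2 * ((3 * r + 1) * (3 * r + 1))))
        ≤ Real.log X * (X * Real.log X ^ (2 * ((3 * r + 1) * (3 * r + 1)))) :=
          mul_le_mul_of_nonneg_right hrL h9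
      _ = X * (Real.log X ^ (2 * ((3 * r + 1) * (3 * r + 1))) * Real.log X) := by ring
  -- (3)
  have e3 : ∑ n ∈ Finset.Icc 1 ⌊2 * X⌋₊, fm r k E η X H n ^ 2 ≤ X * Real.log X ^ c3 := by
    have hV := fun q => hV1 X (zc X) (wc X H) k (Sc H) q hKK (by linarith) hwc1 hwcX hSX
    have hM : 0 ≤ C₁ * Real.log X ^ C₁ := mul_nonneg hC₁.le (Real.rpow_nonneg hL0.le _)
    have hpt : ∀ n ∈ Finset.Icc 1 ⌊2 * X⌋₊, |fm r k E η X H n| ≤
        (C₂ * (C₁ * Real.log X ^ C₁) * Real.log X ^ C₂) * dr (4 * r + 1) n := by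
      intro n hn
      obtain ⟨hn1, hn2⟩ := Finset.mem_Icc.1 hn
      have hn3 : (n : ℝ) ≤ 3 * X := by
        have h8 : ((n : ℕ) : ℝ) ≤ ((⌊2 * X⌋₊ : ℕ) : ℝ) := by exact_mod_cast hn2
        have h9 : ((⌊2 * X⌋₊ : ℕ) : ℝ) ≤ 2 * X := Nat.floor_le (by linarith)
        linarith
      exact hS2 (E0 r k E (zc X) (wc X H) (Sc H)) (C₁ * Real.log X ^ C₁) X (Qc (4 * η) X) n
        (by linarith) hM (fun s => (hV s).1) (fun s j hs => (hV s).2 j hs) hQX hn1 hn3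
    have h8 := sum_sq h7 (4 * r + 1) (by omega) X hX16 hL3 (fm r k E η X H) _ hpt
    refine h8.trans ?_
    have h10 : (C₂ * (C₁ * Real.log X ^ C₁) * Real.log X ^ C₂) ^ 2 =
        (C₁ * C₂) ^ 2 * Real.log X ^ (2 * (C₁ + C₂)) := by
      have h11 : Real.log X ^ (2 * (C₁ + C₂)) = (Real.log X ^ C₁ * Real.log X ^ C₂) ^ 2 := by
        rw [← Real.rpow_add hL0, ← Real.rpow_natCast, ← Real.rpow_mul hL0.le]
        congr 1
        push_cast
        ring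
      rw [h11]
      ring
    rw [h10, hc3, Real.rpow_add hL0, Real.rpow_add hL0, Real.rpow_one, Real.rpow_natCast]
    have h9 : 0 ≤ Real.log X ^ (2 * (C₁ + C₂)) *
        (X * Real.log X ^ (2 * ((4 * r + 1) * (4 * r + 1)))) :=
      mul_nonneg (Real.rpow_nonneg hL0.le _) (mul_nonneg (by linarith) (pow_nonneg hL0.le _))
    calc (C₁ * C₂) ^ 2 * Real.log X ^ (2 * (C₁ + C₂)) *
          (X * Real.log X ^ (2 * ((4 * r + 1) * (4 * r + 1))))
        = (C₁ * C₂) ^ 2 * (Real.log X ^ (2 * (C₁ + C₂)) *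
          (X * Real.log X ^ (2 * ((4 * r + 1) * (4 * r + 1))))) := by ring
      _ ≤ Real.log X * (Real.log X ^ (2 * (C₁ + C₂)) *
          (X * Real.log X ^ (2 * ((4 * r + 1) * (4 * r + 1))))) :=
          mul_le_mul_of_nonneg_right hCL h9
      _ = X * (Real.log X ^ (2 * (C₁ + C₂)) * Real.log X *
          Real.log X ^ (2 * ((4 * r + 1) * (4 * r + 1)))) := by ring
  refine ⟨e1.trans (hmono _ _ (by linarith)), e2.trans (hmono _ _ (by linarith)),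
    e3.trans (hmono _ _ (by linarith)), ?_⟩
  -- (4)
  have h8 : ∀ n ∈ Finset.Icc 1 ⌊2 * X⌋₊, fd r k E η X H n ^ 2 ≤
      2 * fX r k X H n ^ 2 + 2 * fm r k E η X H n ^ 2 := by
    intro n _
    have h9 : fd r k E η X H n = fX r k X H n - fm r k E η X H n := rfl
    rw [h9]
    exact sub_sq_le _ _
  refine (Finset.sum_le_sum h8).trans ?_
  rw [Finset.sum_add_distrib, ← Finset.mul_sum, ← Finset.mul_sum]
  have f2 := e2.trans (hmono c2 (c2 + c3) (by linarith))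
  have f3 := e3.trans (hmono c3 (c2 + c3) (by linarith))
  have h9 : 0 ≤ X * Real.log X ^ (c2 + c3) :=
    mul_nonneg (by linarith) (Real.rpow_nonneg hL0.le _)
  have h10 : 4 * (X * Real.log X ^ (c2 + c3)) ≤ X * Real.log X ^ (c2 + c3 + 2) := by
    have h12 : Real.log X ^ (c2 + c3 + 2) = Real.log X ^ (c2 + c3) * Real.log X ^ 2 := by
      rw [Real.rpow_add hL0 (c2 + c3) 2, Real.rpow_two]
    rw [h12]
    have h11 : 4 ≤ Real.log X ^ 2 := by
      have h14 := pow_le_pow_left₀ (by norm_num : (0 : ℝ) ≤ 2)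
        (by linarith : (2 : ℝ) ≤ Real.log X) 2
      norm_num at h14
      exact h14
    have h13 := mul_le_mul_of_nonneg_left h11 h9
    linarith
  refine le_trans ?_ (h10.trans (hmono _ _ (by linarith)))
  linarith

end Pool.Agent.Work.MP_122e00_nt.FP
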