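import Pool.Agent.Work.MP_122e00_nt.FP.StmtsB

set_option autoImplicit false

/-!
# Full polynomial, item TW: the frequencies where the Weyl sum of a polynomial is large
-/

namespace Pool.Agent.Work.MP_122e00_nt.FP

open Finset Filter Topology ArithmeticFunction MeasureTheory
open Pool.Agent.Work.MP_122e00_nt.TS
open scoped ArithmeticFunction.zeta ArithmeticFunction.Moebius

namespace TWx

theorem weyl_all (h1 : fpWT1) (h2 : fpWT2) : ∀ d : ℕ, WeylT (d + 1)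
  | 0 => h1
  | d + 1 => h2 (d + 1) (Nat.le_add_left 1 d) (weyl_all h1 h2 d)

/-- the sum over the values is a sum of the values of a real polynomial -/
theorem conv (F : Polynomial ℤ) (A K t M : ℕ) (hF : ∀ k : ℕ, A < k → 1 ≤ F.eval (k : ℤ)) :
    ∑ k ∈ Finset.Ioc A K, ee ((fv F k : ℝ) * t / M) =
      ∑ k ∈ Finset.Ioc A K, ee ((t : ℝ) / M * ((F.eval (k : ℤ) : ℤ) : ℝ)) := by
  refine Finset.sum_congr rfl fun k hk => ?_
  rw [Finset.mem_Ioc] at hk
  have h1 := hF k hk.1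
  have h2 : ((fv F k : ℕ) : ℝ) = ((F.eval (k : ℤ) : ℤ) : ℝ) := by
    unfold fv
    have h3 : (((F.eval (k : ℤ)).toNat : ℕ) : ℤ) = F.eval (k : ℤ) := Int.toNat_of_nonneg (by omega)
    exact_mod_cast h3
  rw [h2]
  congr 1
  ring

open Classical in
/-- the fractions `m/(q L)` with `q ≤ Q`, `|m| ≤ Q L + Q` -/
noncomputable def fr (L Q : ℕ) : Finset ℝ :=
  (Finset.Icc 1 Q ×ˢ Finset.Icc (-((Q * L + Q : ℕ) : ℤ)) ((Q * L + Q : ℕ) : ℤ)).image
    fun x : ℕ × ℤ => (x.2 : ℝ) / ((x.1 : ℝ) * L)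

theorem card_fr (L Q : ℕ) : (fr L Q).card ≤ Q * (2 * (Q * L + Q) + 1) := by
  classical
  unfold fr
  refine Finset.card_image_le.trans ?_
  rw [Finset.card_product, Nat.card_Icc, Int.card_Icc, Nat.add_sub_cancel]
  refine Nat.mul_le_mul le_rfl ?_
  omega

theorem card_fr_le (L : ℕ) (R : ℝ) (hR : 1 ≤ R) :
    ((fr L ⌊R⌋₊).card : ℝ) ≤ (2 * L + 3) * R ^ 2 := by
  have h1 : ((fr L ⌊R⌋₊).card : ℝ) ≤
      (⌊R⌋₊ : ℝ) * (2 * ((⌊R⌋₊ : ℝ) * L + (⌊R⌋₊ : ℝ)) + 1) := by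
    exact_mod_cast card_fr L ⌊R⌋₊
  have h2 : (⌊R⌋₊ : ℝ) ≤ R := Nat.floor_le (by linarith)
  have h3 : (0 : ℝ) ≤ (⌊R⌋₊ : ℝ) := Nat.cast_nonneg _
  have h4 : (0 : ℝ) ≤ (L : ℝ) := Nat.cast_nonneg _
  refine h1.trans ?_
  have h5 : (⌊R⌋₊ : ℝ) * (2 * ((⌊R⌋₊ : ℝ) * L + (⌊R⌋₊ : ℝ)) + 1) ≤ R * (2 * (R * L + R) + R) := by
    gcongr
  refine h5.trans (le_of_eq ?_)
  ring

end TWx

open TWx in
theorem pfTW (h1 : fpWT1) (h2 : fpWT2) : fpTW := by
  intro F A hd hL hF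
  have hW : WeylT F.natDegree := by
    have := weyl_all h1 h2 (F.natDegree - 1)
    rwa [Nat.sub_add_cancel hd] at this
  obtain ⟨C₀, hC₀, hW⟩ := hW
  obtain ⟨L, hLe⟩ : ∃ L : ℕ, (L : ℤ) = F.leadingCoeff :=
    ⟨F.leadingCoeff.toNat, Int.toNat_of_nonneg hL.le⟩
  have hL1 : 1 ≤ L := by
    have : (0 : ℤ) < L := by rw [hLe]; exact hL
    exact_mod_cast this
  refine ⟨(2 * L + 3) * C₀ ^ 2 + 2 * C₀, by omega, ?_⟩
  intro K T hK hT
  have hC₀r : (1 : ℝ) ≤ C₀ := by exact_mod_cast hC₀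
  have hKr : (1 : ℝ) ≤ K := by exact_mod_cast hK
  set C : ℕ := (2 * L + 3) * C₀ ^ 2 + 2 * C₀ with hC
  set R : ℝ := C₀ * T ^ C₀ with hR
  have hTp : (1 : ℝ) ≤ T ^ C₀ := one_le_pow₀ hT
  have hR1 : 1 ≤ R := by
    rw [hR]
    nlinarith
  have hRC : R ≤ C * T ^ C := by
    rw [hR]
    have e1 : (C₀ : ℝ) ≤ C := by
      have : C₀ ≤ C := by omega
      exact_mod_cast this
    have e2 : T ^ C₀ ≤ T ^ C := pow_le_pow_right₀ hT (by omega)
    gcongr
  refine ⟨fr L ⌊R⌋₊, ?_, ?_⟩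
  · refine (card_fr_le L R hR1).trans ?_
    have e1 : (2 * (L : ℝ) + 3) * R ^ 2 = ((2 * L + 3) * (C₀ : ℝ) ^ 2) * T ^ (2 * C₀) := by
      rw [hR, mul_pow, ← pow_mul, Nat.mul_comm C₀ 2]
      ring
    rw [e1]
    have e2 : (2 * (L : ℝ) + 3) * (C₀ : ℝ) ^ 2 ≤ C := by
      have : (2 * L + 3) * C₀ ^ 2 ≤ C := by omega
      exact_mod_cast this
    have e3 : T ^ (2 * C₀) ≤ T ^ C := pow_le_pow_right₀ hT (by omega)
    have e4 : (0 : ℝ) ≤ T ^ (2 * C₀) := by positivity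
    gcongr
  · intro M t ht hbig
    rw [conv F A K t M hF] at hbig
    have hM0 : (0 : ℝ) < M := by
      have : 0 < M := by omega
      exact_mod_cast this
    set γ : ℝ := (t : ℝ) / M with hγ
    have hγ0 : 0 ≤ γ := by positivity
    have hγ1 : γ < 1 := by
      rw [hγ, div_lt_one hM0]
      exact_mod_cast ht
    set f : Polynomial ℝ := Polynomial.C γ * F.map (Int.castRingHom ℝ) with hf
    have hfd : f.natDegree ≤ F.natDegree :=
      (Polynomial.natDegree_C_mul_le _ _).trans Polynomial.natDegree_map_le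
    have hfe : ∀ k : ℕ, f.eval (k : ℝ) = γ * ((F.eval (k : ℤ) : ℤ) : ℝ) := by
      intro k
      rw [hf, Polynomial.eval_mul, Polynomial.eval_C]
      congr 1
      have h := Polynomial.eval_intCast_map (Int.castRingHom ℝ) F (k : ℤ)
      simpa using h
    have hfc : f.coeff F.natDegree = γ * (L : ℝ) := by
      rw [hf, Polynomial.coeff_C_mul, Polynomial.coeff_map]
      congr 1
      have h : F.coeff F.natDegree = (L : ℤ) := by rw [hLe]; rfl
      rw [h]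
      simp
    obtain ⟨q, hq1, hq2, m, hm⟩ := hW K T hK hT f hfd A K (Nat.le_add_left K A) (by
      simp only [hfe]
      exact hbig.le)
    rw [hfc] at hm
    have hq0 : (0 : ℝ) < (q : ℝ) := by exact_mod_cast hq1
    have hL0 : (0 : ℝ) < (L : ℝ) := by exact_mod_cast hL1
    have hKd : (1 : ℝ) ≤ (K : ℝ) ^ F.natDegree := one_le_pow₀ hKr
    have hqR : q ≤ ⌊R⌋₊ := Nat.le_floor hq2
    refine ⟨(m : ℝ) / ((q : ℝ) * L), ?_, ?_⟩
    · unfold fr
      refine Finset.mem_image.2 ⟨(q, m), ?_, rfl⟩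
      rw [Finset.mem_product]
      refine ⟨Finset.mem_Icc.2 ⟨hq1, hqR⟩, ?_⟩
      have e1 : |(q : ℝ) * (γ * L) - m| ≤ R := hm.trans (div_le_self (by linarith) hKd)
      obtain ⟨e2, e3⟩ := abs_le.1 e1
      have e4 : (0 : ℝ) ≤ (q : ℝ) * (γ * L) := by positivity
      have e5 : (q : ℝ) * (γ * L) ≤ q * L := by
        have : γ * L ≤ L := by nlinarith
        gcongr
      have e6 : (m : ℝ) ≤ q * L + R := by linarith
      have e7 : -(m : ℝ) ≤ q * L + R := by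
        have : (0 : ℝ) ≤ q * L := by positivity
        linarith
      have key : ∀ a : ℤ, (a : ℝ) ≤ q * L + R → a ≤ ((⌊R⌋₊ * L + ⌊R⌋₊ : ℕ) : ℤ) := by
        intro a ha
        have f1 : ((a - (q * L : ℕ) : ℤ) : ℝ) ≤ R := by
          push_cast
          linarith
        have f2 : a - (q * L : ℕ) ≤ ⌊R⌋ := Int.le_floor.2 f1
        have f3 : (⌊R⌋₊ : ℤ) = ⌊R⌋ := Int.natCast_floor_eq_floor (by linarith)
        have f4 : q * L ≤ ⌊R⌋₊ * L := Nat.mul_le_mul hqR le_rfl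
        have f5 : ((q * L : ℕ) : ℤ) ≤ ((⌊R⌋₊ * L : ℕ) : ℤ) := by exact_mod_cast f4
        rw [Nat.cast_add]
        linarith
      rw [Finset.mem_Icc]
      constructor
      · have := key (-m) (by push_cast; exact e7)
        linarith
      · exact key m e6
    · have h5 : γ - (m : ℝ) / ((q : ℝ) * L) = ((q : ℝ) * (γ * L) - m) / ((q : ℝ) * L) := by
        field_simp
      rw [h5, abs_div, abs_of_pos (mul_pos hq0 hL0)]
      have h6 : (1 : ℝ) ≤ (q : ℝ) * L := by exact_mod_cast Nat.mul_pos hq1 hL1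
      calc |(q : ℝ) * (γ * L) - m| / ((q : ℝ) * L) ≤ |(q : ℝ) * (γ * L) - m| :=
            div_le_self (abs_nonneg _) h6
        _ ≤ R / (K : ℝ) ^ F.natDegree := hm
        _ ≤ C * T ^ C / (K : ℝ) ^ F.natDegree := by gcongr

end Pool.Agent.Work.MP_122e00_nt.FP
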