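import Pool.Agent.Work.MP_122e00_nt.FP.StmtsD

/-!
# Full polynomial, item U1: the grid
-/

set_option autoImplicit false

namespace Pool.Agent.Work.MP_122e00_nt.FP

open Finset Filter Topology ArithmeticFunction MeasureTheory
open Pool.Agent.Work.MP_122e00_nt.TS
open scoped ArithmeticFunction.zeta ArithmeticFunction.Moebius

namespace U1x

theorem exp_le {u : ℝ} (h0 : 0 ≤ u) (h1 : u ≤ 1) : Real.exp u ≤ 1 + 2 * u := by
  have h2 := Real.abs_exp_sub_one_le (show |u| ≤ 1 by rw [abs_of_nonneg h0]; exact h1)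
  rw [abs_of_nonneg h0] at h2
  have h3 := (abs_le.1 h2).2
  linarith

/-- the telescoping step -/
theorem step {t : ℝ} (ht : 0 < t) (n : ℕ) (hn : 1 ≤ n) :
    t * ((n + 1 : ℕ) : ℝ) ^ (-(t + 1)) ≤ (n : ℝ) ^ (-t) - ((n + 1 : ℕ) : ℝ) ^ (-t) := by
  have hn0 : (0 : ℝ) < n := by exact_mod_cast hn
  have hm0 : (0 : ℝ) < ((n + 1 : ℕ) : ℝ) := by positivity
  set m : ℝ := ((n + 1 : ℕ) : ℝ) with hm
  have hmn : (n : ℝ) = m * (1 - 1 / m) := by
    rw [mul_sub, mul_one, mul_one_div_cancel hm0.ne', hm]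
    push_cast
    ring
  have hx0 : 0 < 1 - 1 / m := by
    have h1 : 0 < m * (1 - 1 / m) := by rw [← hmn]; exact hn0
    exact (pos_iff_pos_of_mul_pos h1).1 hm0
  have h1 : 1 + t * (1 / m) ≤ (1 - 1 / m) ^ (-t) := by
    rw [Real.rpow_def_of_pos hx0]
    have h2 := Real.log_le_sub_one_of_pos hx0
    have h3 : t * (1 / m) ≤ Real.log (1 - 1 / m) * -t := by
      nlinarith
    have h4 := Real.add_one_le_exp (Real.log (1 - 1 / m) * -t)
    linarith
  have h2 : (n : ℝ) ^ (-t) = m ^ (-t) * (1 - 1 / m) ^ (-t) := by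
    rw [← Real.mul_rpow hm0.le hx0.le, ← hmn]
  have h3 : m ^ (-(t + 1)) = m ^ (-t) * (1 / m) := by
    rw [neg_add, Real.rpow_add hm0, Real.rpow_neg_one, one_div]
  have h4 : 0 ≤ m ^ (-t) := by positivity
  rw [h2, h3]
  nlinarith [mul_le_mul_of_nonneg_left h1 h4]

theorem sum_le {t : ℝ} (ht : 0 < t) (n₀ n₁ : ℕ) (h0 : 1 ≤ n₀) (h1 : n₀ ≤ n₁) :
    ∑ n ∈ Finset.Icc n₀ n₁, (n : ℝ) ^ (-(t + 1)) ≤
      (1 + 1 / t) * (n₀ : ℝ) ^ (-t) - 1 / t * (n₁ : ℝ) ^ (-t) := by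
  induction n₁, h1 using Nat.le_induction with
  | base =>
    rw [Finset.Icc_self, Finset.sum_singleton]
    have h2 : (n₀ : ℝ) ^ (-(t + 1)) ≤ (n₀ : ℝ) ^ (-t) :=
      Real.rpow_le_rpow_of_exponent_le (by exact_mod_cast h0) (by linarith)
    linarith
  | succ n hn ih =>
    rw [Finset.sum_Icc_succ_top (by omega)]
    have h2 := step ht n (by omega)
    have h3 : ((n + 1 : ℕ) : ℝ) ^ (-(t + 1)) ≤
        1 / t * ((n : ℝ) ^ (-t) - ((n + 1 : ℕ) : ℝ) ^ (-t)) := by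
      rw [one_div, ← div_eq_inv_mul, le_div_iff₀ ht]
      linarith
    rw [mul_sub] at h3
    linarith

end U1x

open U1x in
theorem pfU1 : fpU1 := by
  intro r
  have hr0 : (0 : ℝ) < 2 * (r : ℝ) + 4 := by positivity
  set κ : ℝ := 1 / (2 * (r : ℝ) + 4) with hκ
  have hκ0 : 0 < κ := by positivity
  have hκr : κ * (2 * (r : ℝ) + 4) = 1 := by
    rw [hκ]
    field_simp
  have hκ1 : κ ≤ 1 := by
    rw [hκ, div_le_one hr0]
    have : (0 : ℝ) ≤ r := Nat.cast_nonneg r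
    linarith
  have hlog : ∀ n : ℕ, Real.log (gX r n) = (n : ℝ) ^ κ := by
    intro n
    unfold gX
    rw [Real.log_exp]
  refine ⟨?_, ?_, ?_⟩
  · intro X hX
    have hX0 : 0 < X := by linarith
    have hL : 0 ≤ Real.log X := Real.log_nonneg hX
    have hLp : 0 ≤ Real.log X ^ (2 * (r : ℝ) + 4) := Real.rpow_nonneg hL _
    have hback : (Real.log X ^ (2 * (r : ℝ) + 4)) ^ κ = Real.log X := by
      rw [← Real.rpow_mul hL, mul_comm, hκr, Real.rpow_one]
    refine ⟨⌊Real.log X ^ (2 * (r : ℝ) + 4)⌋₊, ?_, ?_⟩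
    · unfold gX
      rw [← hκ]
      calc Real.exp ((⌊Real.log X ^ (2 * (r : ℝ) + 4)⌋₊ : ℝ) ^ κ)
          ≤ Real.exp (Real.log X) := by
            refine Real.exp_le_exp.2 ?_
            rw [← hback]
            refine Real.rpow_le_rpow (Nat.cast_nonneg _) ?_ hκ0.le
            rw [hback]
            exact Nat.floor_le hLp
        _ = X := Real.exp_log hX0
    · unfold gX
      rw [← hκ]
      calc X = Real.exp (Real.log X) := (Real.exp_log hX0).symm
        _ ≤ _ := by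
            refine Real.exp_le_exp.2 ?_
            calc Real.log X = (Real.log X ^ (2 * (r : ℝ) + 4)) ^ κ := hback.symm
              _ ≤ _ := by
                refine Real.rpow_le_rpow hLp ?_ hκ0.le
                push_cast
                exact (Nat.lt_floor_add_one _).le
  · intro n hn
    have hn0 : (0 : ℝ) < n := by exact_mod_cast hn
    have hn1 : (1 : ℝ) ≤ n := by exact_mod_cast hn
    refine ⟨hlog n, ?_, ?_⟩
    · unfold gX
      refine Real.exp_le_exp.2 (Real.rpow_le_rpow hn0.le ?_ (by rw [← hκ]; exact hκ0.le))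
      push_cast
      linarith
    · rw [hlog]
      have e1 : ((n : ℝ) ^ κ) ^ (-(2 * (r : ℝ) + 3)) = (n : ℝ) ^ (κ - 1) := by
        rw [← Real.rpow_mul hn0.le]
        congr 1
        linarith
      have e2 : (n : ℝ) ^ (κ - 1) ≤ 1 := by
        refine Real.rpow_le_one_of_one_le_of_nonpos hn1 (by linarith)
      have e3 : 0 ≤ (n : ℝ) ^ (κ - 1) := by positivity
      have e4 : (((n + 1 : ℕ)) : ℝ) ^ κ ≤ (n : ℝ) ^ κ + (n : ℝ) ^ (κ - 1) := by
        have k1 : (((n + 1 : ℕ)) : ℝ) = n * (1 + 1 / (n : ℝ)) := by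
          push_cast
          field_simp
        have k2 : (0 : ℝ) ≤ 1 + 1 / (n : ℝ) := by positivity
        have k3 : (1 + 1 / (n : ℝ)) ^ κ ≤ 1 + κ * (1 / (n : ℝ)) :=
          rpow_one_add_le_one_add_mul_self (by
            have : (0 : ℝ) ≤ 1 / (n : ℝ) := by positivity
            linarith) hκ0.le hκ1
        have k4 : (n : ℝ) ^ (κ - 1) = (n : ℝ) ^ κ * (1 / (n : ℝ)) := by
          rw [Real.rpow_sub_one hn0.ne']
          ring
        rw [k1, Real.mul_rpow hn0.le k2, k4]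
        have k5 : 0 ≤ (n : ℝ) ^ κ := by positivity
        have k6 : κ * (1 / (n : ℝ)) ≤ 1 / (n : ℝ) :=
          mul_le_of_le_one_left (by positivity) hκ1
        calc (n : ℝ) ^ κ * (1 + 1 / (n : ℝ)) ^ κ ≤ (n : ℝ) ^ κ * (1 + 1 / (n : ℝ)) :=
              mul_le_mul_of_nonneg_left (by linarith) k5
          _ = _ := by ring
      rw [e1]
      unfold gX
      rw [← hκ]
      calc Real.exp ((((n + 1 : ℕ)) : ℝ) ^ κ)
          ≤ Real.exp ((n : ℝ) ^ κ + (n : ℝ) ^ (κ - 1)) := Real.exp_le_exp.2 e4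
        _ = Real.exp ((n : ℝ) ^ κ) * Real.exp ((n : ℝ) ^ (κ - 1)) := Real.exp_add _ _
        _ ≤ Real.exp ((n : ℝ) ^ κ) * (1 + 2 * (n : ℝ) ^ (κ - 1)) :=
            mul_le_mul_of_nonneg_left (exp_le e3 e2) (Real.exp_pos _).le
  · intro A₂ hA
    have ht : 0 < κ * A₂ - 1 := by
      have h1 : κ * (2 * (r : ℝ) + 4) < κ * A₂ := mul_lt_mul_of_pos_left hA hκ0
      linarith
    refine ⟨1 + 1 / (κ * A₂ - 1), by positivity, ?_⟩
    intro n₀ n₁ hn₀
    have hn0 : (0 : ℝ) < n₀ := by exact_mod_cast hn₀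
    have e1 : Real.log (gX r n₀) ^ (2 * (r : ℝ) + 4 - A₂) = (n₀ : ℝ) ^ (-(κ * A₂ - 1)) := by
      rw [hlog, ← Real.rpow_mul hn0.le]
      congr 1
      linarith
    have e2 : ∀ n ∈ Finset.Icc n₀ n₁, Real.log (gX r n) ^ (-A₂) =
        (n : ℝ) ^ (-((κ * A₂ - 1) + 1)) := by
      intro n hn
      rw [hlog, ← Real.rpow_mul (Nat.cast_nonneg n)]
      congr 1
      ring
    rw [e1, Finset.sum_congr rfl e2]
    rcases le_or_gt n₀ n₁ with h | h
    · refine (sum_le ht n₀ n₁ hn₀ h).trans ?_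
      have : 0 ≤ 1 / (κ * A₂ - 1) * (n₁ : ℝ) ^ (-(κ * A₂ - 1)) := by positivity
      linarith
    · rw [Finset.Icc_eq_empty (by omega), Finset.sum_empty]
      positivity

end Pool.Agent.Work.MP_122e00_nt.FP
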