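import Mathlib
import Pool.Agent.Work.MP_122e00_nt.FP.StmtsD

/-!
# Full polynomial, item U2 (helper41): between two points of the grid
-/

set_option autoImplicit false

namespace Pool.Agent.Work.MP_122e00_nt.FP

open Finset Filter Topology ArithmeticFunction MeasureTheory
open Pool.Agent.Work.MP_122e00_nt.TS
open scoped ArithmeticFunction.zeta ArithmeticFunction.Moebius

namespace U2x

/-- size of a polynomial with bounded coefficients -/
theorem eval_le (P : Polynomial ℝ) (N : ℕ) (B τ W : ℝ) (hP : P.natDegree ≤ N) (hB : ∀ j, |P.coeff j| ≤ B)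
    (hτ : 0 ≤ τ) (hτW : τ ≤ W) (hW : 1 ≤ W) : |P.eval τ| ≤ ((N : ℝ) + 1) * (B * W ^ N) := by
  have hB0 : 0 ≤ B := (abs_nonneg _).trans (hB 0)
  rw [Polynomial.eval_eq_sum_range' (Nat.lt_succ_of_le hP)]
  refine (Finset.abs_sum_le_sum_abs _ _).trans ?_
  have h : ∀ i ∈ Finset.range N.succ, |P.coeff i * τ ^ i| ≤ B * W ^ N := by
    intro i hi
    rw [abs_mul, abs_of_nonneg (pow_nonneg hτ i)]
    have h1 : τ ^ i ≤ W ^ i := pow_le_pow_left₀ hτ hτW i
    have h2 : W ^ i ≤ W ^ N := pow_le_pow_right₀ hW (Nat.lt_succ_iff.1 (Finset.mem_range.1 hi))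
    exact mul_le_mul (hB i) (h1.trans h2) (pow_nonneg hτ i) hB0
  refine (Finset.sum_le_card_nsmul _ _ _ h).trans (le_of_eq ?_)
  rw [Finset.card_range, nsmul_eq_mul]
  push_cast
  ring

theorem deriv_le (P : Polynomial ℝ) (N : ℕ) (B τ W : ℝ) (hP : P.natDegree ≤ N) (hB : ∀ j, |P.coeff j| ≤ B)
    (hτ : 0 ≤ τ) (hτW : τ ≤ W) (hW : 1 ≤ W) :
    |P.derivative.eval τ| ≤ ((N : ℝ) + 1) * (((N : ℝ) + 1) * B * W ^ N) := by
  have hB0 : 0 ≤ B := (abs_nonneg _).trans (hB 0)
  refine eval_le P.derivative N (((N : ℝ) + 1) * B) τ W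
    ((Polynomial.natDegree_derivative_le P).trans ((Nat.sub_le _ _).trans hP)) ?_ hτ hτW hW
  intro j
  rw [Polynomial.coeff_derivative, abs_mul, mul_comm]
  have h0 : |((j : ℝ) + 1)| = (j : ℝ) + 1 := abs_of_nonneg (by positivity)
  rw [h0]
  rcases le_or_gt j N with h | h
  · have h1 : (j : ℝ) + 1 ≤ (N : ℝ) + 1 := by
      have : (j : ℝ) ≤ N := by exact_mod_cast h
      linarith
    exact mul_le_mul h1 (hB _) (abs_nonneg _) (by positivity)
  · rw [Polynomial.coeff_eq_zero_of_natDegree_lt (by omega), abs_zero, mul_zero]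
    positivity

theorem PH_deg (r : ℕ) (E : ℕ → Polynomial ℝ) (h : ℕ) : (PH r E h).natDegree ≤ 2 * (r - 1) := by
  unfold PH
  refine Polynomial.natDegree_sum_le_of_forall_le _ _ fun j hj => ?_
  exact (Polynomial.natDegree_C_mul_X_pow_le _ _).trans (Nat.lt_succ_iff.1 (Finset.mem_range.1 hj))

theorem cor_mono (r h : ℕ) {N M : ℕ} (hNM : N ≤ M) :
    cor (dr r) (dr r) N h ≤ cor (dr r) (dr r) M h := by
  unfold cor
  refine Finset.sum_le_sum_of_subset_of_nonneg (Finset.Icc_subset_Icc le_rfl hNM) ?_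
  intro n _ _
  unfold dr
  positivity

/-- the function `y P(log y)` on `[s, t]` -/
theorem lip (P : Polynomial ℝ) (s t M u v : ℝ) (hs : 0 < s) (hM : 0 ≤ M)
    (hb : ∀ y ∈ Set.Icc s t, |P.eval (Real.log y) + P.derivative.eval (Real.log y)| ≤ M)
    (hu : u ∈ Set.Icc s t) (hv : v ∈ Set.Icc s t) :
    |v * P.eval (Real.log v) - u * P.eval (Real.log u)| ≤ M * (t - s) := by
  have h := Convex.norm_image_sub_le_of_norm_hasDerivWithin_le
    (f := fun y : ℝ => y * P.eval (Real.log y))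
    (f' := fun y : ℝ => P.eval (Real.log y) + P.derivative.eval (Real.log y)) (C := M)
    (s := Set.Icc s t) (x := u) (y := v) ?_ hb (convex_Icc s t) hu hv
  · refine le_trans h ?_
    apply mul_le_mul_of_nonneg_left _ hM
    rw [Real.norm_eq_abs, abs_le]
    constructor
    · linarith [hu.2, hv.1]
    · linarith [hu.1, hv.2]
  · intro y hy
    have hy0 : y ≠ 0 := (hs.trans_le hy.1).ne'
    have h1 : HasDerivAt (fun y : ℝ => P.eval (Real.log y)) (P.derivative.eval (Real.log y) * y⁻¹) y :=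
      (P.hasDerivAt (Real.log y)).comp y (Real.hasDerivAt_log hy0)
    have h2 := (hasDerivAt_id y).mul h1
    have h3 : P.eval (Real.log y) + P.derivative.eval (Real.log y) =
        1 * P.eval (Real.log y) + id y * (P.derivative.eval (Real.log y) * y⁻¹) := by
      simp only [id]
      field_simp
    rw [h3]
    exact h2.hasDerivWithinAt

end U2x

open U2x in
/-- U2 -/
theorem pfU2 (h1 : fpP1) (h2 : fpU1) (h3 : fpZ4) : fpU2 := by
  intro r E hr hAP hCB C hC
  obtain ⟨X0, hX0⟩ := h1 1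
  obtain ⟨C₄, hC₄, hZ⟩ := h3 r E (by omega) hAP hCB
  obtain ⟨-, hgrid, -⟩ := h2 r
  obtain ⟨N, hN⟩ : ∃ N, N = 2 * (r - 1) := ⟨_, rfl⟩
  -- the constants
  obtain ⟨K₁, hK₁⟩ : ∃ K₁ : ℝ, K₁ = ((N : ℝ) + 1) * (C₄ * 2 ^ C₄ * 3 ^ N) * ((N : ℝ) + 2) * (2 * 2 ^ (2 * r + 3)) :=
    ⟨_, rfl⟩
  have hK₁0 : 0 < K₁ := by rw [hK₁]; positivity
  obtain ⟨K₂, hK₂⟩ : ∃ K₂ : ℝ, K₂ = C * (3 * 2 ^ N * 2 ^ C) := ⟨_, rfl⟩
  have hK₂0 : 0 < K₂ := by rw [hK₂]; positivity
  refine ⟨K₁ + K₂ + C + C₄, X0, by positivity, ?_⟩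
  intro X H h n hX hH1 hHX hh hhX hsX hXt hGs hGt
  obtain ⟨hX16, hL3, hl1, -, -⟩ := hX0 X hX
  obtain ⟨C', hC'⟩ : ∃ C' : ℝ, C' = K₁ + K₂ + C + C₄ := ⟨_, rfl⟩
  rw [← hC']
  have hXpos : 0 < X := by linarith
  obtain ⟨L, hL⟩ : ∃ L, L = Real.log X := ⟨_, rfl⟩
  have hL3' : 3 ≤ L := by rw [hL]; exact hL3
  have hLpos : 0 < L := by linarith
  obtain ⟨l, hl⟩ : ∃ l, l = l2 X := ⟨_, rfl⟩
  have hl1' : 1 ≤ l := by rw [hl]; exact hl1
  have hll : l = Real.log L := by rw [hl, hL]; rfl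
  -- numbers
  have hexp1 : Real.exp 1 < 3 := lt_trans Real.exp_one_lt_d9 (by norm_num)
  have hlog3 : Real.log 3 < 3 / 2 := by
    rw [Real.log_lt_iff_lt_exp (by norm_num)]
    have e1 : Real.exp (3 / 2) = Real.exp (1 / 2) * Real.exp 1 := by rw [← Real.exp_add]; norm_num
    have e2 : (1 : ℝ) + 1 / 2 ≤ Real.exp (1 / 2) := by
      have := Real.add_one_le_exp (1 / 2 : ℝ)
      linarith
    have e3 : (2.7182818283 : ℝ) < Real.exp 1 := Real.exp_one_gt_d9
    rw [e1]
    nlinarith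
  have hlog2 : Real.log 2 ≤ 1 := by
    have := Real.log_two_lt_d9
    linarith
  -- the grid points
  have hn1 : 1 ≤ n := by
    by_contra hn
    have hn0 : n = 0 := by omega
    subst hn0
    have e1 : gX r (0 + 1) = Real.exp 1 := by
      unfold gX
      norm_num
    rw [e1] at hXt
    linarith
  obtain ⟨g1, g2, g3⟩ := hgrid n hn1
  obtain ⟨s, hs⟩ : ∃ s, s = gX r n := ⟨_, rfl⟩
  obtain ⟨t, ht⟩ : ∃ t, t = gX r (n + 1) := ⟨_, rfl⟩
  rw [← hs] at g1 g2 g3 hsX hGs
  rw [← ht] at g2 g3 hXt hGt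
  have hs0 : 0 < s := by rw [hs]; exact Real.exp_pos _
  have ht0 : 0 < t := by linarith
  have hls1 : 1 ≤ Real.log s := by
    rw [g1]
    exact Real.one_le_rpow (by exact_mod_cast hn1) (by positivity)
  have hpow1 : Real.log s ^ (-(2 * (r : ℝ) + 3)) ≤ 1 :=
    Real.rpow_le_one_of_one_le_of_nonpos hls1 (by
      have : (0 : ℝ) ≤ r := Nat.cast_nonneg _
      linarith)
  have hpow0 : 0 ≤ Real.log s ^ (-(2 * (r : ℝ) + 3)) := Real.rpow_nonneg (by linarith) _
  have ht3 : t ≤ 3 * s := by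
    refine g3.trans ?_
    nlinarith
  have hLs : L / 2 ≤ Real.log s := by
    have e1 : X ≤ 3 * s := hXt.trans ht3
    have e2 : Real.log X ≤ Real.log (3 * s) := Real.log_le_log hXpos e1
    rw [Real.log_mul (by norm_num) hs0.ne', ← hL] at e2
    linarith
  have hLs2 : Real.log s ≤ L := by rw [hL]; exact Real.log_le_log hs0 hsX
  have hLt : Real.log t ≤ 2 * L := by
    have e2 : Real.log t ≤ Real.log (3 * X) := Real.log_le_log ht0 (by linarith)
    rw [Real.log_mul (by norm_num) hXpos.ne', ← hL] at e2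
    linarith
  -- `t - s`
  have hts : t - s ≤ X * (2 * 2 ^ (2 * r + 3)) / L ^ (2 * r + 3) := by
    have e1 : Real.log s ^ (-(2 * (r : ℝ) + 3)) ≤ (L / 2) ^ (-(2 * (r : ℝ) + 3)) :=
      Real.rpow_le_rpow_of_nonpos (by positivity) hLs (by
        have : (0 : ℝ) ≤ r := Nat.cast_nonneg _
        linarith)
    have e2 : (L / 2) ^ (-(2 * (r : ℝ) + 3)) = 2 ^ (2 * r + 3) / L ^ (2 * r + 3) := by
      rw [Real.rpow_neg (by positivity)]
      have e3 : (2 * (r : ℝ) + 3) = ((2 * r + 3 : ℕ) : ℝ) := by push_cast; ring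
      rw [e3, Real.rpow_natCast, div_pow, inv_div]
    rw [e2] at e1
    calc t - s ≤ 2 * s * Real.log s ^ (-(2 * (r : ℝ) + 3)) := by linarith
      _ ≤ 2 * X * (2 ^ (2 * r + 3) / L ^ (2 * r + 3)) := by
        apply mul_le_mul (by linarith) e1 hpow0 (by positivity)
      _ = X * (2 * 2 ^ (2 * r + 3)) / L ^ (2 * r + 3) := by ring
  have hts0 : 0 ≤ t - s := by linarith
  -- the coefficients of `P`
  obtain ⟨P, hP⟩ : ∃ P, P = PH r E h := ⟨_, rfl⟩
  obtain ⟨B, hB⟩ : ∃ B, B = C₄ * (2 * l) ^ C₄ := ⟨_, rfl⟩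
  have hB0 : 0 ≤ B := by rw [hB]; positivity
  have hllh : ll h ≤ 2 * l := by
    unfold ll
    have hh1 : (1 : ℝ) ≤ h := by exact_mod_cast hh
    have e1 : (h : ℝ) + 16 ≤ X ^ 2 := by nlinarith
    have e2 : Real.log ((h : ℝ) + 16) ≤ 2 * L := by
      rw [hL]
      refine (Real.log_le_log (by positivity) e1).trans (le_of_eq ?_)
      rw [Real.log_pow]
      norm_num
    have e3 : 0 < Real.log ((h : ℝ) + 16) := Real.log_pos (by linarith)
    refine (Real.log_le_log e3 e2).trans ?_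
    rw [Real.log_mul (by norm_num) hLpos.ne', ← hll]
    linarith
  have hllh0 : 0 ≤ ll h := by
    unfold ll
    have hh1 : (1 : ℝ) ≤ h := by exact_mod_cast hh
    apply Real.log_nonneg
    rw [Real.le_log_iff_exp_le (by positivity)]
    linarith
  have hcoef : ∀ j, |P.coeff j| ≤ B := by
    intro j
    rw [hP, hB]
    refine ((hZ h hh).2 j).trans ?_
    exact mul_le_mul_of_nonneg_left (Real.rpow_le_rpow hllh0 hllh hC₄.le) hC₄.le
  have hdeg : P.natDegree ≤ N := by rw [hP, hN]; exact PH_deg r E h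
  obtain ⟨M, hM⟩ : ∃ M, M = ((N : ℝ) + 1) * (B * (3 * L) ^ N) * ((N : ℝ) + 2) := ⟨_, rfl⟩
  have hM0 : 0 ≤ M := by rw [hM]; positivity
  have hder : ∀ y ∈ Set.Icc s t, |P.eval (Real.log y) + P.derivative.eval (Real.log y)| ≤ M := by
    intro y hy
    have hy0 : 0 < y := hs0.trans_le hy.1
    have e1 : 0 ≤ Real.log y := by
      have := Real.log_le_log hs0 hy.1
      linarith
    have e2 : Real.log y ≤ 3 * L := by
      have := Real.log_le_log hy0 hy.2
      linarith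
    have e3 := eval_le P N B (Real.log y) (3 * L) hdeg hcoef e1 e2 (by linarith)
    have e4 := deriv_le P N B (Real.log y) (3 * L) hdeg hcoef e1 e2 (by linarith)
    refine (abs_add_le _ _).trans ((add_le_add e3 e4).trans (le_of_eq ?_))
    rw [hM]
    ring
  -- the error of the interpolation
  obtain ⟨W, hW⟩ : ∃ W, W = X * L ^ (2 * r - 2) * l ^ C' / Real.log H ^ (2 * r) := ⟨_, rfl⟩
  have hlogH : 0 < Real.log H := Real.log_pos hH1
  have hlogHL : Real.log H ≤ L := by rw [hL]; exact Real.log_le_log (by linarith) hHX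
  have hW0 : 0 ≤ W := by rw [hW]; positivity
  have hlC : ∀ c : ℝ, c ≤ C' → l ^ c ≤ l ^ C' := fun c hc => Real.rpow_le_rpow_of_exponent_le hl1' hc
  have hint : M * (t - s) ≤ K₁ * W := by
    have e0 : M * (t - s) ≤ M * (X * (2 * 2 ^ (2 * r + 3)) / L ^ (2 * r + 3)) :=
      mul_le_mul_of_nonneg_left hts hM0
    refine e0.trans ?_
    have e1 : M * (X * (2 * 2 ^ (2 * r + 3)) / L ^ (2 * r + 3)) =
        K₁ * (X * (l ^ C₄ * L ^ N) / L ^ (2 * r + 3)) := by
      rw [hM, hK₁, hB, Real.mul_rpow (by norm_num) (by linarith), mul_pow]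
      ring
    rw [e1]
    apply mul_le_mul_of_nonneg_left _ hK₁0.le
    have e2 : N = 2 * r - 2 := by omega
    rw [hW, ← e2]
    have e3 : L ^ (2 * r) ≤ L ^ (2 * r + 3) := pow_le_pow_right₀ (by linarith) (by omega)
    have e4 : Real.log H ^ (2 * r) ≤ L ^ (2 * r) := pow_le_pow_left₀ hlogH.le hlogHL _
    calc X * (l ^ C₄ * L ^ N) / L ^ (2 * r + 3) ≤ X * (l ^ C' * L ^ N) / L ^ (2 * r + 3) := by
          apply div_le_div_of_nonneg_right _ (by positivity)
          apply mul_le_mul_of_nonneg_left _ hXpos.le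
          apply mul_le_mul_of_nonneg_right _ (by positivity)
          exact hlC C₄ (by rw [hC']; linarith)
      _ ≤ X * (l ^ C' * L ^ N) / Real.log H ^ (2 * r) := by
          apply div_le_div_of_nonneg_left (by positivity) (by positivity) (e4.trans e3)
      _ = X * L ^ N * l ^ C' / Real.log H ^ (2 * r) := by ring
  -- the errors at the grid points
  have hebX : ∀ Y : ℝ, 0 < Y → Y ≤ 3 * X → 1 ≤ Real.log Y → Real.log Y ≤ 2 * L → C * eb r C Y H ≤ K₂ * W := by
    intro Y hY hYX hY1 hYL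
    have e1 : l2 Y ≤ 2 * l := by
      unfold l2
      refine (Real.log_le_log (by linarith) hYL).trans ?_
      rw [Real.log_mul (by norm_num) hLpos.ne', ← hll]
      linarith
    have e0 : 0 ≤ l2 Y := Real.log_nonneg hY1
    have e2 : N = 2 * r - 2 := by omega
    unfold eb
    rw [hK₂, hW, mul_assoc C, ← e2]
    apply mul_le_mul_of_nonneg_left _ hC.le
    calc Y * Real.log Y ^ N * l2 Y ^ C / Real.log H ^ (2 * r)
        ≤ (3 * X) * (2 * L) ^ N * (2 ^ C * l ^ C') / Real.log H ^ (2 * r) := by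
          apply div_le_div_of_nonneg_right _ (by positivity)
          apply mul_le_mul _ _ (Real.rpow_nonneg e0 _) (by positivity)
          · exact mul_le_mul hYX (pow_le_pow_left₀ (by linarith) hYL _) (pow_nonneg (by linarith) _) (by positivity)
          · calc l2 Y ^ C ≤ (2 * l) ^ C := Real.rpow_le_rpow e0 e1 hC.le
              _ = 2 ^ C * l ^ C := Real.mul_rpow (by norm_num) (by linarith)
              _ ≤ 2 ^ C * l ^ C' := mul_le_mul_of_nonneg_left (hlC C (by rw [hC']; linarith)) (by positivity)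
      _ = 3 * 2 ^ N * 2 ^ C * (X * L ^ N * l ^ C' / Real.log H ^ (2 * r)) := by
          rw [mul_pow]
          ring
  have hes := hebX s hs0 (by linarith) hls1 (by linarith)
  have het := hebX t ht0 (by linarith) (by
    have := Real.log_le_log hs0 g2
    linarith) hLt
  unfold Gf at hGs hGt ⊢
  have hfin : (K₁ + K₂) * W ≤ C' * eb r C' X H := by
    have e1 : eb r C' X H = W := by
      rw [hW]
      unfold eb
      rw [← hL, ← hl]
    rw [e1]
    apply mul_le_mul_of_nonneg_right _ hW0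
    rw [hC']
    linarith
  refine le_trans ?_ hfin
  rw [← hP] at hGs hGt ⊢
  have hXm : X ∈ Set.Icc s t := ⟨hsX, hXt⟩
  have i1 := lip P s t M s X hs0 hM0 hder ⟨le_rfl, by linarith⟩ hXm
  have i2 := lip P s t M X t hs0 hM0 hder hXm ⟨by linarith, le_rfl⟩
  have m1 := cor_mono r h (Nat.floor_mono hsX)
  have m2 := cor_mono r h (Nat.floor_mono hXt)
  rw [abs_le] at hGs hGt i1 i2 ⊢
  constructor
  · linarith [hGs.1, i1.2]
  · linarith [hGt.2, i2.2]

end Pool.Agent.Work.MP_122e00_nt.FP
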