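import Pool.Agent.Work.MP_122e00_nt.FP.StmtsD

/-! Item U3: all `X` at once. -/

namespace Pool.Agent.Work.MP_122e00_nt.FP

open Finset Filter Topology ArithmeticFunction MeasureTheory
open Pool.Agent.Work.MP_122e00_nt.TS
open scoped ArithmeticFunction.zeta ArithmeticFunction.Moebius

namespace U3x

/-- the lower condition at a point near `X` -/
theorem low_ok {b c T X Y hv : ℝ} (hb0 : 0 < b) (hb : b < 1)
    (hc : 0 < c) (hT1 : 1 ≤ T)
    (hT2 : 3 / c ^ ((1 + b) / 2 / b) ≤ T ^ ((1 + b) / 2 / b - 1)) (hX : 1 ≤ X)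
    (h2 : hv ≤ X ^ b) (h3 : c * T ≤ hv) (hY1 : X / 3 ≤ Y) :
    T ≤ Y ^ ((1 + b) / 2) := by
  have hs : 1 < (1 + b) / 2 / b := by
    rw [lt_div_iff₀ hb0]; linarith
  set s := (1 + b) / 2 / b with hsdef
  have e1 : (X / 3) ^ ((1 + b) / 2) ≤ Y ^ ((1 + b) / 2) :=
    Real.rpow_le_rpow (by linarith) hY1 (by positivity)
  have e2 : (X / 3) ^ ((1 + b) / 2) = X ^ ((1 + b) / 2) / (3 : ℝ) ^ ((1 + b) / 2) :=
    Real.div_rpow (by linarith) (by norm_num) _
  have e3 : (3 : ℝ) ^ ((1 + b) / 2) ≤ 3 := by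
    calc (3 : ℝ) ^ ((1 + b) / 2) ≤ (3 : ℝ) ^ (1 : ℝ) :=
          Real.rpow_le_rpow_of_exponent_le (by norm_num) (by linarith)
      _ = 3 := Real.rpow_one 3
  have e4 : X ^ ((1 + b) / 2) = (X ^ b) ^ s := by
    rw [← Real.rpow_mul (by linarith)]
    congr 1
    rw [hsdef]
    field_simp
  have e5 : (c * T) ^ s ≤ (X ^ b) ^ s :=
    Real.rpow_le_rpow (by positivity) (h3.trans h2) (by linarith)
  have e6 : (c * T) ^ s = c ^ s * T ^ s := Real.mul_rpow hc.le (by linarith)
  have e7 : T ^ s = T ^ (s - 1) * T := by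
    rw [Real.rpow_sub_one (by linarith)]
    field_simp
  have hcs : 0 < c ^ s := Real.rpow_pos_of_pos hc s
  have e8 : 3 * T ≤ c ^ s * T ^ s := by
    rw [e7]
    rw [div_le_iff₀ hcs] at hT2
    nlinarith
  have e9 : 3 * T ≤ X ^ ((1 + b) / 2) := by
    rw [e4]
    calc 3 * T ≤ c ^ s * T ^ s := e8
      _ = (c * T) ^ s := e6.symm
      _ ≤ (X ^ b) ^ s := e5
  have e10 : T ≤ X ^ ((1 + b) / 2) / (3 : ℝ) ^ ((1 + b) / 2) := by
    rw [le_div_iff₀ (by positivity)]
    calc T * (3 : ℝ) ^ ((1 + b) / 2) ≤ T * 3 :=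
          mul_le_mul_of_nonneg_left e3 (by linarith)
      _ = 3 * T := by ring
      _ ≤ _ := e9
  calc T ≤ (X / 3) ^ ((1 + b) / 2) := by rw [e2]; exact e10
    _ ≤ _ := e1

/-- comparison of the constants -/
theorem const_ok {a e C Y l D : ℝ} (ha0 : 0 ≤ a) (ha : a ≤ C) (he : e ≤ C) (hl : 1 ≤ l)
    (hY : 0 ≤ Y) (hD : 0 < D) : a * (Y * l ^ e / D) ≤ C * (Y * l ^ C / D) := by
  have h1 : l ^ e ≤ l ^ C := Real.rpow_le_rpow_of_exponent_le hl he
  have h2 : Y * l ^ e / D ≤ Y * l ^ C / D :=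
    div_le_div_of_nonneg_right (mul_le_mul_of_nonneg_left h1 hY) hD.le
  have h3 : 0 ≤ Y * l ^ e / D :=
    div_nonneg (mul_nonneg hY (Real.rpow_nonneg (by linarith) _)) hD.le
  exact mul_le_mul ha h2 h3 (ha0.trans ha)

/-- the grid: logarithms -/
theorem grid_log {r n : ℕ} (hn : 1 ≤ n) : 1 ≤ Real.log (gX r n) := by
  unfold gX
  rw [Real.log_exp]
  exact Real.one_le_rpow (by exact_mod_cast hn) (by positivity)

theorem grid_pos (r n : ℕ) : 1 ≤ gX r n := by
  unfold gX
  exact Real.one_le_exp (Real.rpow_nonneg (Nat.cast_nonneg n) _)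

theorem grid_zero (r : ℕ) : gX r 0 = 1 := by
  unfold gX
  rw [Nat.cast_zero, Real.zero_rpow (by positivity), Real.exp_zero]

theorem grid_one (r : ℕ) : gX r 1 ≤ 3 := by
  unfold gX
  rw [Nat.cast_one, Real.one_rpow]
  exact Real.exp_one_lt_d9.le.trans (by norm_num)

/-- the next point of the grid is not far -/
theorem grid_step {r n : ℕ} (hn : 1 ≤ n)
    (h : gX r (n + 1) ≤ gX r n * (1 + 2 * Real.log (gX r n) ^ (-(2 * (r : ℝ) + 3)))) :
    gX r (n + 1) ≤ 3 * gX r n := by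
  have h1 : Real.log (gX r n) ^ (-(2 * (r : ℝ) + 3)) ≤ 1 :=
    Real.rpow_le_one_of_one_le_of_nonpos (grid_log hn) (by
      have : (0 : ℝ) ≤ r := Nat.cast_nonneg r
      linarith)
  have h2 : 0 < gX r n := by linarith [grid_pos r n]
  calc gX r (n + 1) ≤ gX r n * (1 + 2 * Real.log (gX r n) ^ (-(2 * (r : ℝ) + 3))) := h
    _ ≤ gX r n * 3 := mul_le_mul_of_nonneg_left (by linarith) h2.le
    _ = 3 * gX r n := mul_comm _ _

/-- the double logarithm at the next point -/
theorem l2_step {X Y : ℝ} (hX : 3 ≤ Real.log X) (hX0 : 0 < X) (h1 : X ≤ Y) (h2 : Y ≤ 3 * X) :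
    l2 Y ≤ 2 * l2 X := by
  have hY0 : 0 < Y := by linarith
  have h3 : Real.log Y ≤ Real.log 3 + Real.log X := by
    rw [← Real.log_mul (by norm_num) hX0.ne']
    exact Real.log_le_log hY0 h2
  have h4 : Real.log 3 ≤ 2 := by
    have := Real.log_le_sub_one_of_pos (show (0 : ℝ) < 3 by norm_num)
    linarith
  have h5 : Real.log Y ≤ Real.log X ^ 2 := by nlinarith
  have h6 : Real.log X ≤ Real.log Y := Real.log_le_log hX0 h1
  unfold l2
  calc Real.log (Real.log Y) ≤ Real.log (Real.log X ^ 2) := Real.log_le_log (by linarith) h5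
    _ = 2 * Real.log (Real.log X) := by rw [Real.log_pow]; norm_num

theorem l2_mono {X Y : ℝ} (hX : 1 ≤ Real.log X) (hX0 : 0 < X) (h1 : X ≤ Y) :
    0 ≤ l2 X ∧ l2 X ≤ l2 Y := by
  have h2 : Real.log X ≤ Real.log Y := Real.log_le_log hX0 h1
  exact ⟨Real.log_nonneg hX, Real.log_le_log (by linarith) h2⟩

end U3x

open U3x in
theorem pfU3 (h1 : fpP1) (h2 : fpU1) (h3 : fpU2) (h4 : fpX2) (h5 : fpX3) (h6 : tsH2) : fpU3 := by
  classical
  intro r E hr hAP hCB F hF1 hF2 b A₁ hb0 hb hA₁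
  obtain ⟨A, c, C₀, hc, hC₀, hA, hCk⟩ := h6 F hF1 hF2
  set d := F.natDegree with hd
  set θ := (1 + b) / 2 with hθ
  have hθ0 : 0 < θ := by positivity
  have hθ1 : θ < 1 := by rw [hθ]; linarith
  set A₂ := A₁ + 2 * r + 5 with hA₂
  have hr0 : (0 : ℝ) ≤ r := Nat.cast_nonneg r
  have hA₂0 : 0 < A₂ := by rw [hA₂]; positivity
  obtain ⟨C₂, X₂, hC₂, hX2⟩ := h4 r E hr hAP hCB F A hF1 hF2 (fun k hk => (hA k hk).1)
    θ A₂ hθ0 hθ1 hA₂0
  obtain ⟨hg1, hg2, hg3⟩ := h2 r
  obtain ⟨Cs, hCs, hsum⟩ := hg3 A₂ (by rw [hA₂]; linarith)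
  obtain ⟨C', X₃, hC', hU2⟩ := h3 r E hr hAP hCB C₂ hC₂
  obtain ⟨C₃, X₄, hC₃, hX3⟩ := h5 r E hr hAP hCB
  obtain ⟨X₅, hP⟩ := h1 1
  set u := c / 2 ^ d with hu
  have hu0 : 0 < u := by positivity
  set s := (1 + b) / 2 / b with hs
  have hs1 : 1 < s := by rw [hs, lt_div_iff₀ hb0]; linarith
  set W := 3 / u ^ s with hW
  have hW0 : 0 < W := div_pos three_pos (Real.rpow_pos_of_pos hu0 s)
  set Cf := C₃ * 128 ^ (2 * r) + (C₃ + 12 * r) + C' * 4 ^ r + C' with hCf
  have hCf0 : 0 < Cf := by positivity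
  set Xm := max X₃ (max X₄ (max X₅ 1)) with hXm
  refine ⟨Cf, max (max 3 (2 * (A + 1))) (max (max X₂ (Real.exp Cs))
    (max (max (Xm / u) (C₀ + 1)) (W ^ (1 / (s - 1))))), hCf0, fun K hK => ?_⟩
  have hK3 : (3 : ℝ) ≤ K := ((le_max_left _ _).trans (le_max_left _ _)).trans hK
  have hKA : (2 * (A + 1) : ℝ) ≤ K := ((le_max_right _ _).trans (le_max_left _ _)).trans hK
  have hK' := (le_max_right _ _).trans hK
  have hKX : X₂ ≤ K := ((le_max_left _ _).trans (le_max_left _ _)).trans hK'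
  have hKCs : Real.exp Cs ≤ K := ((le_max_right _ _).trans (le_max_left _ _)).trans hK'
  have hK'' := (le_max_right _ _).trans hK'
  have hKu : Xm / u ≤ K := ((le_max_left _ _).trans (le_max_left _ _)).trans hK''
  have hKC : C₀ + 1 ≤ K := ((le_max_right _ _).trans (le_max_left _ _)).trans hK''
  have hKW : W ^ (1 / (s - 1)) ≤ K := (le_max_right _ _).trans hK''
  have hK0 : (0 : ℝ) < K := by linarith
  have hK1 : 1 ≤ K := by
    have : (1 : ℝ) ≤ K := by linarith
    exact_mod_cast this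
  set T := (K : ℝ) ^ d with hT
  have hTK : (K : ℝ) ≤ T := by
    calc (K : ℝ) = (K : ℝ) ^ 1 := (pow_one _).symm
      _ ≤ T := pow_le_pow_right₀ (by linarith) hF1
  have hT1 : 1 ≤ T := by linarith
  have hT0 : 0 < T := by linarith
  have hlK : 1 ≤ Real.log K := by
    rw [Real.le_log_iff_exp_le hK0]
    exact (Real.exp_one_lt_d9.le.trans (by norm_num)).trans hK3
  have hlT : Real.log K ≤ Real.log T := Real.log_le_log hK0 hTK
  have hTW : W ≤ T ^ (s - 1) := by
    have h1 : W = (W ^ (1 / (s - 1))) ^ (s - 1) := by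
      rw [← Real.rpow_mul hW0.le, one_div, inv_mul_cancel₀ (by linarith), Real.rpow_one]
    rw [h1]
    exact Real.rpow_le_rpow (Real.rpow_nonneg hW0.le _) (hKW.trans hTK) (by linarith)
  have huT : Xm ≤ u * T := by
    rw [div_le_iff₀ hu0] at hKu
    calc Xm ≤ K * u := hKu
      _ ≤ T * u := mul_le_mul_of_nonneg_right hTK hu0.le
      _ = u * T := mul_comm _ _
  -- the good points of the grid
  set NN : ℕ → Prop := fun n => l2 (gX r n) ^ 6 ≤ Real.log T ∧ T ≤ gX r n ^ θ with hNN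
  have hNT : ∀ n, NN n → T ≤ gX r n := by
    intro n hn
    calc T ≤ gX r n ^ θ := hn.2
      _ ≤ gX r n ^ (1 : ℝ) := Real.rpow_le_rpow_of_exponent_le (grid_pos r n) hθ1.le
      _ = gX r n := Real.rpow_one _
  have hN1 : ∀ n, NN n → 1 ≤ n := by
    intro n hn
    by_contra h0
    have h0' : n = 0 := by omega
    have := hNT n hn
    rw [h0', grid_zero] at this
    linarith
  set Ex := fun n : ℕ => (Finset.Ioc A K).filter (fun k => ¬ Gf r E C₂ (gX r n) T (fv F k))
    with hEx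
  have hExc : ∀ n, NN n → ((Ex n).card : ℝ) ≤ K * Real.log (gX r n) ^ (-A₂) := by
    intro n hn
    exact hX2 (gX r n) K (hKX.trans (hTK.trans (hNT n hn))) hK1 hn.1 hn.2
  -- the exceptional set
  set B := (Finset.Ioc A K).filter (fun k => ∃ n, NN n ∧ ¬ Gf r E C₂ (gX r n) T (fv F k))
    with hB
  have hBcard : (B.card : ℝ) ≤ K * Real.log K ^ (-A₁) := by
    have hw : ∀ k ∈ B, ∃ n, NN n ∧ ¬ Gf r E C₂ (gX r n) T (fv F k) := fun k hk =>
      (Finset.mem_filter.1 hk).2
    choose! nn hnn using hw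
    rcases B.eq_empty_or_nonempty with hBe | hBe
    · rw [hBe, Finset.card_empty, Nat.cast_zero]
      exact mul_nonneg hK0.le (Real.rpow_nonneg (by linarith) _)
    set M := B.image nn with hM
    have hMe : M.Nonempty := hBe.image nn
    have hMN : ∀ n ∈ M, NN n := by
      intro n hn
      obtain ⟨k, hk, rfl⟩ := Finset.mem_image.1 hn
      exact (hnn k hk).1
    have hcov : B ⊆ M.biUnion Ex := by
      intro k hk
      rw [Finset.mem_biUnion]
      exact ⟨nn k, Finset.mem_image_of_mem nn hk,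
        Finset.mem_filter.2 ⟨(Finset.mem_filter.1 hk).1, (hnn k hk).2⟩⟩
    have hn0 : M.min' hMe ∈ M := M.min'_mem hMe
    set n₀ := M.min' hMe with hn₀
    set n₁ := M.max' hMe with hn₁
    have hsub : M ⊆ Finset.Icc n₀ n₁ := fun n hn =>
      Finset.mem_Icc.2 ⟨M.min'_le n hn, M.le_max' n hn⟩
    have hlog0 : ∀ n : ℕ, 0 ≤ Real.log (gX r n) := fun n => Real.log_nonneg (grid_pos r n)
    have hlg : Real.log K ≤ Real.log (gX r n₀) :=
      Real.log_le_log hK0 (hTK.trans (hNT n₀ (hMN n₀ hn0)))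
    have hlK0 : 0 < Real.log K := by linarith
    have hexp : 2 * (r : ℝ) + 4 - A₂ = -A₁ - 1 := by rw [hA₂]; ring
    calc (B.card : ℝ) ≤ ((M.biUnion Ex).card : ℝ) := by
          exact_mod_cast Finset.card_le_card hcov
      _ ≤ ∑ n ∈ M, ((Ex n).card : ℝ) := by exact_mod_cast Finset.card_biUnion_le
      _ ≤ ∑ n ∈ M, K * Real.log (gX r n) ^ (-A₂) :=
          Finset.sum_le_sum fun n hn => hExc n (hMN n hn)
      _ ≤ ∑ n ∈ Finset.Icc n₀ n₁, K * Real.log (gX r n) ^ (-A₂) :=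
          Finset.sum_le_sum_of_subset_of_nonneg hsub fun n _ _ =>
            mul_nonneg hK0.le (Real.rpow_nonneg (hlog0 n) _)
      _ = K * ∑ n ∈ Finset.Icc n₀ n₁, Real.log (gX r n) ^ (-A₂) := by rw [Finset.mul_sum]
      _ ≤ K * (Cs * Real.log (gX r n₀) ^ (2 * (r : ℝ) + 4 - A₂)) :=
          mul_le_mul_of_nonneg_left (hsum n₀ n₁ (hN1 n₀ (hMN n₀ hn0))) hK0.le
      _ ≤ K * (Cs * Real.log K ^ (2 * (r : ℝ) + 4 - A₂)) := by
          refine mul_le_mul_of_nonneg_left (mul_le_mul_of_nonneg_left ?_ hCs.le) hK0.le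
          exact Real.rpow_le_rpow_of_nonpos hlK0 hlg (by rw [hexp]; linarith)
      _ ≤ K * Real.log K ^ (-A₁) := by
          refine mul_le_mul_of_nonneg_left ?_ hK0.le
          rw [hexp, Real.rpow_sub_one hlK0.ne']
          have h8 : Cs ≤ Real.log K := by
            rw [Real.le_log_iff_exp_le hK0]
            exact hKCs
          rw [mul_div_assoc', div_le_iff₀ hlK0, mul_comm Cs]
          exact mul_le_mul_of_nonneg_left h8 (Real.rpow_nonneg hlK0.le _)
  have hcover : {k : ℕ | BadF r E F b Cf k ∧ K < 2 * k ∧ k ≤ K} ⊆ ((B : Finset ℕ) : Set ℕ) := by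
    rintro k ⟨hbad, hk1, hk2⟩
    have hkA : A < k := by
      have h1 : (2 * (A + 1) : ℝ) < 2 * k := lt_of_le_of_lt hKA (by exact_mod_cast hk1)
      have h2 : 2 * (A + 1) < 2 * k := by exact_mod_cast h1
      omega
    have hFk := hA k hkA
    rcases hbad with hbad | ⟨X, hX16, hXb, hG⟩
    · exact absurd hFk.1 hbad
    by_contra hcon
    have hno : ∀ n, NN n → Gf r E C₂ (gX r n) T (fv F k) := by
      intro n hn
      by_contra hg
      apply hcon
      rw [Finset.mem_coe]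
      exact Finset.mem_filter.2 ⟨Finset.mem_Ioc.2 ⟨hkA, hk2⟩, n, hn, hg⟩
    have hfv : 1 ≤ fv F k := by
      unfold fv
      have := hFk.1
      omega
    have hfvR : ((fv F k : ℕ) : ℝ) = ((F.eval (k : ℤ) : ℤ) : ℝ) := by
      have h7 : ((fv F k : ℕ) : ℤ) = F.eval (k : ℤ) := by
        unfold fv
        exact Int.toNat_of_nonneg (by linarith [hFk.1])
      exact_mod_cast congrArg (fun z : ℤ => (z : ℝ)) h7
    set hv : ℝ := ((F.eval (k : ℤ) : ℤ) : ℝ) with hhv
    have hX1 : 1 ≤ X := by linarith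
    have hk0 : 1 ≤ k := by omega
    have hkR : (K : ℝ) / 2 ≤ k := by
      have : (K : ℝ) ≤ 2 * k := by exact_mod_cast hk1.le
      linarith
    have hkK : (k : ℝ) ≤ K := by exact_mod_cast hk2
    have h3 : u * T ≤ hv := by
      calc u * T = c * ((K : ℝ) / 2) ^ d := by rw [hu, hT, div_pow]; ring
        _ ≤ c * (k : ℝ) ^ d :=
            mul_le_mul_of_nonneg_left (pow_le_pow_left₀ (by positivity) hkR d) hc.le
        _ ≤ hv := hFk.2
    have h4 : hv ≤ C₀ * T := by
      calc hv ≤ |hv| := le_abs_self _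
        _ ≤ C₀ * (k : ℝ) ^ d := hCk k hk0
        _ ≤ C₀ * T := mul_le_mul_of_nonneg_left (pow_le_pow_left₀ (by positivity) hkK d) hC₀.le
    have hv1 : 1 ≤ hv := by
      rw [← hfvR]
      exact_mod_cast hfv
    -- `X` is large
    have hvX : hv ≤ X := by
      calc hv ≤ X ^ b := hXb
        _ ≤ X ^ (1 : ℝ) := Real.rpow_le_rpow_of_exponent_le hX1 hb.le
        _ = X := Real.rpow_one X
    have hXX : Xm ≤ X := huT.trans (h3.trans hvX)
    have hXX3 : X₃ ≤ X := (le_max_left _ _).trans hXX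
    have hXX4 : X₄ ≤ X := ((le_max_left _ _).trans (le_max_right _ _)).trans hXX
    have hXX5 : X₅ ≤ X :=
      (((le_max_left _ _).trans (le_max_right _ _)).trans (le_max_right _ _)).trans hXX
    obtain ⟨-, hlX3, hl1, -, -⟩ := hP X hXX5
    have hX0 : 0 < X := by linarith
    -- the logarithm of the shift
    have hlv0 : 0 < Real.log (hv + 1) := Real.log_pos (by linarith)
    have hlvT : Real.log (hv + 1) ≤ 2 * Real.log T := by
      have h7 : hv + 1 ≤ T ^ 2 := by nlinarith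
      calc Real.log (hv + 1) ≤ Real.log (T ^ 2) := Real.log_le_log (by linarith) h7
        _ = 2 * Real.log T := by rw [Real.log_pow]; norm_num
    have hD : 0 < Real.log (hv + 1) ^ (2 * r) := pow_pos hlv0 _
    have hlT0 : 0 < Real.log T := by linarith
    have hYY : 0 ≤ X * Real.log X ^ (2 * r - 2) :=
      mul_nonneg hX0.le (pow_nonneg (by linarith) _)
    -- the place in the grid
    obtain ⟨n, hn1, hn2⟩ := hg1 X hX1
    have hn0 : 1 ≤ n := by
      by_contra h0
      have h0' : n = 0 := by omega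
      rw [h0', zero_add] at hn2
      have := grid_one r
      linarith
    have hn3 : gX r (n + 1) ≤ 3 * gX r n := grid_step hn0 (hg2 n hn0).2.2
    have hgn0 : 0 < gX r n := by linarith [grid_pos r n]
    have hn4 : gX r (n + 1) ≤ 3 * X := by linarith
    have hl2 : l2 (gX r (n + 1)) ≤ 2 * l2 X := l2_step hlX3 hX0 hn2 hn4
    have hl2' := l2_mono (grid_log (r := r) hn0) hgn0 (hn1.trans hn2)
    refine absurd hG (not_lt.2 ?_)
    rcases le_or_gt (l2 (gX r (n + 1)) ^ 6) (Real.log T) with hcase | hcase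
    · -- both points of the grid are good
      have hN1' : NN (n + 1) := by
        refine ⟨hcase, ?_⟩
        exact low_ok hb0 hb hu0 hT1 hTW hX1 hXb h3 (by linarith)
      have hN0' : NN n := by
        refine ⟨(pow_le_pow_left₀ hl2'.1 hl2'.2 6).trans hcase, ?_⟩
        exact low_ok hb0 hb hu0 hT1 hTW hX1 hXb h3 (by linarith)
      have hTX : T ≤ X := (hNT n hN0').trans hn1
      have hfin := hU2 X T (fv F k) n hXX3 (by linarith) hTX hfv (by rw [hfvR]; exact hvX) hn1 hn2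
        (hno n hN0') (hno (n + 1) hN1')
      unfold Gf eb at hfin
      refine hfin.trans ?_
      have h8 : Real.log (hv + 1) ^ (2 * r) ≤ 4 ^ r * Real.log T ^ (2 * r) := by
        calc Real.log (hv + 1) ^ (2 * r) ≤ (2 * Real.log T) ^ (2 * r) :=
              pow_le_pow_left₀ hlv0.le hlvT _
          _ = 4 ^ r * Real.log T ^ (2 * r) := by
              rw [mul_pow, pow_mul 2 2 r]
              norm_num
      have h9 : 1 / Real.log T ^ (2 * r) ≤ 4 ^ r / Real.log (hv + 1) ^ (2 * r) := by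
        rw [div_le_div_iff₀ (pow_pos hlT0 _) hD]
        linarith
      have h10 : 0 ≤ X * Real.log X ^ (2 * r - 2) * l2 X ^ C' :=
        mul_nonneg hYY (Real.rpow_nonneg (by linarith) _)
      calc C' * (X * Real.log X ^ (2 * r - 2) * l2 X ^ C' / Real.log T ^ (2 * r))
          = C' * (X * Real.log X ^ (2 * r - 2) * l2 X ^ C' * (1 / Real.log T ^ (2 * r))) := by
            ring
        _ ≤ C' * (X * Real.log X ^ (2 * r - 2) * l2 X ^ C' *
              (4 ^ r / Real.log (hv + 1) ^ (2 * r))) :=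
            mul_le_mul_of_nonneg_left (mul_le_mul_of_nonneg_left h9 h10) hC'.le
        _ = (C' * 4 ^ r) * (X * Real.log X ^ (2 * r - 2) * l2 X ^ C' /
              Real.log (hv + 1) ^ (2 * r)) := by ring
        _ ≤ Cf * (X * Real.log X ^ (2 * r - 2) * l2 X ^ Cf /
              Real.log (hv + 1) ^ (2 * r)) := by
            refine const_ok (by positivity) ?_ ?_ hl1 hYY hD
            · rw [hCf]
              have : 0 ≤ C₃ * 128 ^ (2 * r) + (C₃ + 12 * r) := by positivity
              linarith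
            · rw [hCf]
              have : 0 ≤ C₃ * 128 ^ (2 * r) + (C₃ + 12 * r) + C' * 4 ^ r := by positivity
              linarith
    · -- the shift is very small
      have hfin := hX3 X (fv F k) hXX4 hfv (by rw [hfvR]; exact hvX)
      refine hfin.trans ?_
      have hl20 : 0 ≤ l2 (gX r (n + 1)) := hl2'.1.trans hl2'.2
      have h8 : Real.log (hv + 1) ≤ 128 * l2 X ^ 6 := by
        have h9 : l2 (gX r (n + 1)) ^ 6 ≤ (2 * l2 X) ^ 6 := pow_le_pow_left₀ hl20 hl2 6
        have h10 : (2 * l2 X) ^ 6 = 64 * l2 X ^ 6 := by ring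
        linarith
      have h9 : Real.log (hv + 1) ^ (2 * r) ≤ 128 ^ (2 * r) * l2 X ^ (12 * r) := by
        calc Real.log (hv + 1) ^ (2 * r) ≤ (128 * l2 X ^ 6) ^ (2 * r) :=
              pow_le_pow_left₀ hlv0.le h8 _
          _ = 128 ^ (2 * r) * l2 X ^ (12 * r) := by
              rw [mul_pow, ← pow_mul, show 6 * (2 * r) = 12 * r by ring]
      have h10 : 0 ≤ X * Real.log X ^ (2 * r - 2) * l2 X ^ C₃ :=
        mul_nonneg hYY (Real.rpow_nonneg (by linarith) _)
      have h11 : l2 X ^ C₃ * l2 X ^ (12 * r) = l2 X ^ (C₃ + 12 * r) := by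
        rw [Real.rpow_add (by linarith), ← Real.rpow_natCast (l2 X) (12 * r)]
        push_cast
        rfl
      calc C₃ * (X * Real.log X ^ (2 * r - 2) * l2 X ^ C₃)
          = C₃ * (X * Real.log X ^ (2 * r - 2) * l2 X ^ C₃ * Real.log (hv + 1) ^ (2 * r) /
              Real.log (hv + 1) ^ (2 * r)) := by
            rw [mul_div_assoc, div_self hD.ne', mul_one]
        _ ≤ C₃ * (X * Real.log X ^ (2 * r - 2) * l2 X ^ C₃ * (128 ^ (2 * r) * l2 X ^ (12 * r)) /
              Real.log (hv + 1) ^ (2 * r)) :=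
            mul_le_mul_of_nonneg_left (div_le_div_of_nonneg_right
              (mul_le_mul_of_nonneg_left h9 h10) hD.le) hC₃.le
        _ = (C₃ * 128 ^ (2 * r)) * (X * Real.log X ^ (2 * r - 2) *
              (l2 X ^ C₃ * l2 X ^ (12 * r)) / Real.log (hv + 1) ^ (2 * r)) := by ring
        _ = (C₃ * 128 ^ (2 * r)) * (X * Real.log X ^ (2 * r - 2) *
              l2 X ^ (C₃ + 12 * r) / Real.log (hv + 1) ^ (2 * r)) := by rw [h11]
        _ ≤ Cf * (X * Real.log X ^ (2 * r - 2) * l2 X ^ Cf /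
              Real.log (hv + 1) ^ (2 * r)) := by
            refine const_ok (by positivity) ?_ ?_ hl1 hYY hD
            · rw [hCf]
              have : 0 ≤ (C₃ + 12 * r) + C' * 4 ^ r + C' := by positivity
              linarith
            · rw [hCf]
              have : 0 ≤ C₃ * 128 ^ (2 * r) + C' * 4 ^ r + C' := by positivity
              linarith
  calc (Set.ncard {k : ℕ | BadF r E F b Cf k ∧ K < 2 * k ∧ k ≤ K} : ℝ)
      ≤ (B.card : ℝ) := by
        have := Set.ncard_le_ncard hcover (Finset.finite_toSet _)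
        rw [Set.ncard_coe_finset] at this
        exact_mod_cast this
    _ ≤ K * Real.log K ^ (-A₁) := hBcard

end Pool.Agent.Work.MP_122e00_nt.FP
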