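import Mathlib
import Pool.Agent.Work.MP_122e00_nt.FP.StmtsD

/-!
# U4: dyadic blocks add up, with a power of the logarithm
-/

namespace Pool.Agent.Work.MP_122e00_nt.FP

namespace U4x

/-- The set up to `K` is finite. -/
theorem fin1 (S : Set ℕ) (K : ℕ) : {k : ℕ | k ∈ S ∧ 1 ≤ k ∧ k ≤ K}.Finite :=
  (Set.finite_Iic K).subset (fun _ hk => hk.2.2)

/-- The block is finite. -/
theorem fin2 (S : Set ℕ) (K : ℕ) : {k : ℕ | k ∈ S ∧ K < 2 * k ∧ k ≤ K}.Finite :=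
  (Set.finite_Iic K).subset (fun _ hk => hk.2.2)

/-- There are at most `K` elements up to `K`. -/
theorem card_le (S : Set ℕ) (K : ℕ) :
    Set.ncard {k : ℕ | k ∈ S ∧ 1 ≤ k ∧ k ≤ K} ≤ K := by
  have h : {k : ℕ | k ∈ S ∧ 1 ≤ k ∧ k ≤ K} ⊆ ((Finset.Icc 1 K : Finset ℕ) : Set ℕ) := by
    intro k hk
    simp only [Finset.coe_Icc, Set.mem_Icc]
    exact hk.2
  calc Set.ncard {k : ℕ | k ∈ S ∧ 1 ≤ k ∧ k ≤ K}
      ≤ Set.ncard ((Finset.Icc 1 K : Finset ℕ) : Set ℕ) :=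
        Set.ncard_le_ncard h (Finset.finite_toSet _)
    _ = K := by rw [Set.ncard_coe_finset]; simp

/-- The count up to `K` splits at `K / 2`. -/
theorem split (S : Set ℕ) (K : ℕ) :
    Set.ncard {k : ℕ | k ∈ S ∧ 1 ≤ k ∧ k ≤ K} ≤
      Set.ncard {k : ℕ | k ∈ S ∧ 1 ≤ k ∧ k ≤ K / 2} +
        Set.ncard {k : ℕ | k ∈ S ∧ K < 2 * k ∧ k ≤ K} := by
  have h : {k : ℕ | k ∈ S ∧ 1 ≤ k ∧ k ≤ K} ⊆
      {k : ℕ | k ∈ S ∧ 1 ≤ k ∧ k ≤ K / 2} ∪ {k : ℕ | k ∈ S ∧ K < 2 * k ∧ k ≤ K} := by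
    rintro k ⟨h1, h2, h3⟩
    rcases Nat.lt_or_ge K (2 * k) with h4 | h4
    · exact Or.inr ⟨h1, h4, h3⟩
    · exact Or.inl ⟨h1, h2, by omega⟩
  exact (Set.ncard_le_ncard h ((fin1 S _).union (fin2 S _))).trans (Set.ncard_union_le _ _)

/-- The logarithm of the half, to the power `-A`. -/
theorem log_half (A a : ℝ) (hA : 0 < A) (ha : 1 < a) (haA : a ^ A = 3 / 2) (K : ℕ) (hK : 4 ≤ K)
    (hlog : a * Real.log 3 / (a - 1) ≤ Real.log K) :
    Real.log ((K / 2 : ℕ) : ℝ) ^ (-A) ≤ 3 / 2 * Real.log K ^ (-A) := by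
  have hKr : (4 : ℝ) ≤ (K : ℝ) := by exact_mod_cast hK
  have h1 : (K : ℝ) / 3 ≤ ((K / 2 : ℕ) : ℝ) := by
    have h2 : K ≤ 3 * (K / 2) := by omega
    have h3 : (K : ℝ) ≤ 3 * ((K / 2 : ℕ) : ℝ) := by exact_mod_cast h2
    linarith
  have h4 : Real.log K - Real.log 3 ≤ Real.log ((K / 2 : ℕ) : ℝ) := by
    rw [← Real.log_div (by positivity) (by norm_num)]
    exact Real.log_le_log (by positivity) h1
  have hK2 : (2 : ℝ) ≤ ((K / 2 : ℕ) : ℝ) := by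
    have : 2 ≤ K / 2 := by omega
    exact_mod_cast this
  have hL : 0 < Real.log ((K / 2 : ℕ) : ℝ) := Real.log_pos (by linarith)
  have hLK : 0 < Real.log (K : ℝ) := Real.log_pos (by linarith)
  have h5 : a * Real.log 3 ≤ (a - 1) * Real.log K := by
    rw [div_le_iff₀ (by linarith)] at hlog
    linarith
  have h6 : Real.log K ≤ a * Real.log ((K / 2 : ℕ) : ℝ) := by
    have h7 : a * (Real.log K - Real.log 3) ≤ a * Real.log ((K / 2 : ℕ) : ℝ) :=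
      mul_le_mul_of_nonneg_left h4 (by linarith)
    linarith
  have h8 : Real.log K ^ A ≤ 3 / 2 * Real.log ((K / 2 : ℕ) : ℝ) ^ A := by
    have h9 := Real.rpow_le_rpow hLK.le h6 hA.le
    rwa [Real.mul_rpow (by linarith) hL.le, haA] at h9
  rw [Real.rpow_neg hL.le, Real.rpow_neg hLK.le]
  have hp1 : 0 < Real.log ((K / 2 : ℕ) : ℝ) ^ A := Real.rpow_pos_of_pos hL _
  have hp2 : 0 < Real.log (K : ℝ) ^ A := Real.rpow_pos_of_pos hLK _
  rw [← div_eq_mul_inv, inv_eq_one_div, div_le_div_iff₀ hp1 hp2]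
  linarith

end U4x

/-- U4. -/
theorem pfU4 : fpU4 := by
  intro S A K0 hA hblock
  set a : ℝ := (3 / 2 : ℝ) ^ (1 / A) with ha
  have ha1 : 1 < a := Real.one_lt_rpow (by norm_num) (by positivity)
  have haA : a ^ A = 3 / 2 := by
    rw [ha, ← Real.rpow_mul (by norm_num), one_div, inv_mul_cancel₀ hA.ne', Real.rpow_one]
  set N : ℕ := max 4 (max ⌈K0⌉₊ ⌈Real.exp (a * Real.log 3 / (a - 1))⌉₊) with hN
  have hN4 : 4 ≤ N := le_max_left _ _
  have hN0 : K0 ≤ (N : ℝ) := by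
    refine (Nat.le_ceil K0).trans ?_
    exact_mod_cast (le_max_left _ _).trans (le_max_right 4 _)
  have hNe : Real.exp (a * Real.log 3 / (a - 1)) ≤ (N : ℝ) := by
    refine (Nat.le_ceil _).trans ?_
    exact_mod_cast (le_max_right _ _).trans (le_max_right 4 _)
  have hN1 : (4 : ℝ) ≤ (N : ℝ) := by exact_mod_cast hN4
  have hLN : 0 < Real.log (N : ℝ) := Real.log_pos (by linarith)
  set C : ℝ := 4 + Real.log (N : ℝ) ^ A with hC
  have hpN : 0 < Real.log (N : ℝ) ^ A := Real.rpow_pos_of_pos hLN _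
  have hC4 : 4 ≤ C := by linarith
  refine ⟨C, by linarith, ?_⟩
  intro K
  induction K using Nat.strong_induction_on with
  | _ K ih =>
    intro hK
    have hK2 : (2 : ℝ) ≤ (K : ℝ) := by exact_mod_cast hK
    have hLK : 0 < Real.log (K : ℝ) := Real.log_pos (by linarith)
    have hpK : 0 < Real.log (K : ℝ) ^ (-A) := Real.rpow_pos_of_pos hLK _
    have hg : 0 < (K : ℝ) * Real.log (K : ℝ) ^ (-A) := mul_pos (by linarith) hpK
    rcases Nat.lt_or_ge K N with hKN | hKN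
    · have h1 : (Set.ncard {k : ℕ | k ∈ S ∧ 1 ≤ k ∧ k ≤ K} : ℝ) ≤ (K : ℝ) := by
        exact_mod_cast U4x.card_le S K
      have h2 : Real.log (K : ℝ) ^ A ≤ Real.log (N : ℝ) ^ A := by
        refine Real.rpow_le_rpow hLK.le ?_ hA.le
        refine Real.log_le_log (by linarith) ?_
        exact_mod_cast hKN.le
      have h3 : Real.log (K : ℝ) ^ A ≤ C := by linarith
      have h4 : 1 ≤ C * Real.log (K : ℝ) ^ (-A) := by
        have h5 : Real.log (K : ℝ) ^ A * Real.log (K : ℝ) ^ (-A) = 1 := by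
          rw [← Real.rpow_add hLK, add_neg_cancel, Real.rpow_zero]
        calc (1 : ℝ) = Real.log (K : ℝ) ^ A * Real.log (K : ℝ) ^ (-A) := h5.symm
          _ ≤ C * Real.log (K : ℝ) ^ (-A) := mul_le_mul_of_nonneg_right h3 hpK.le
      calc (Set.ncard {k : ℕ | k ∈ S ∧ 1 ≤ k ∧ k ≤ K} : ℝ) ≤ (K : ℝ) := h1
        _ = (K : ℝ) * 1 := (mul_one _).symm
        _ ≤ (K : ℝ) * (C * Real.log (K : ℝ) ^ (-A)) :=
          mul_le_mul_of_nonneg_left h4 (by linarith)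
        _ = C * ((K : ℝ) * Real.log (K : ℝ) ^ (-A)) := by ring
    · have hK4 : 4 ≤ K := hN4.trans hKN
      have hKNr : (N : ℝ) ≤ (K : ℝ) := by exact_mod_cast hKN
      have hsplit : (Set.ncard {k : ℕ | k ∈ S ∧ 1 ≤ k ∧ k ≤ K} : ℝ) ≤
          (Set.ncard {k : ℕ | k ∈ S ∧ 1 ≤ k ∧ k ≤ K / 2} : ℝ) +
            (Set.ncard {k : ℕ | k ∈ S ∧ K < 2 * k ∧ k ≤ K} : ℝ) := by
        exact_mod_cast U4x.split S K
      have hb := hblock K (hN0.trans hKNr)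
      have hi := ih (K / 2) (by omega) (by omega)
      have hlog : a * Real.log 3 / (a - 1) ≤ Real.log K := by
        rw [Real.le_log_iff_exp_le (by linarith)]
        exact hNe.trans hKNr
      have hl := U4x.log_half A a hA ha1 haA K hK4 hlog
      have h8 : ((K / 2 : ℕ) : ℝ) ≤ (K : ℝ) / 2 := Nat.cast_div_le
      have hK2r : (2 : ℝ) ≤ ((K / 2 : ℕ) : ℝ) := by
        have : 2 ≤ K / 2 := by omega
        exact_mod_cast this
      have hL2 : 0 < Real.log ((K / 2 : ℕ) : ℝ) := Real.log_pos (by linarith)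
      have hp2 : 0 < Real.log ((K / 2 : ℕ) : ℝ) ^ (-A) := Real.rpow_pos_of_pos hL2 _
      have h9 : ((K / 2 : ℕ) : ℝ) * Real.log ((K / 2 : ℕ) : ℝ) ^ (-A) ≤
          3 / 4 * ((K : ℝ) * Real.log (K : ℝ) ^ (-A)) := by
        calc ((K / 2 : ℕ) : ℝ) * Real.log ((K / 2 : ℕ) : ℝ) ^ (-A)
            ≤ (K : ℝ) / 2 * (3 / 2 * Real.log (K : ℝ) ^ (-A)) :=
              mul_le_mul h8 hl hp2.le (by linarith)
          _ = 3 / 4 * ((K : ℝ) * Real.log (K : ℝ) ^ (-A)) := by ring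
      have h10 : C * (((K / 2 : ℕ) : ℝ) * Real.log ((K / 2 : ℕ) : ℝ) ^ (-A)) ≤
          C * (3 / 4 * ((K : ℝ) * Real.log (K : ℝ) ^ (-A))) :=
        mul_le_mul_of_nonneg_left h9 (by linarith)
      nlinarith [h10, hi, hb, hsplit, hg, hC4]

end Pool.Agent.Work.MP_122e00_nt.FP
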