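import Pool.Agent.Work.MP_122e00_nt.FP.StmtsA
import Pool.Agent.Work.MP_122e00_nt.TS.I_K5
import Pool.Agent.Work.MP_122e00_nt.TS.I_X1

/-!
# The full polynomial at every scale, item V1: degree and coefficients of `E0`
-/

set_option autoImplicit false

namespace Pool.Agent.Work.MP_122e00_nt.FP

open Finset Filter Topology ArithmeticFunction
open Pool.Agent.Work.MP_122e00_nt.TS
open scoped ArithmeticFunction.zeta ArithmeticFunction.Moebius

namespace V1x

theorem be_nonneg (r q : ℕ) (hq : 1 ≤ q) : 0 ≤ be r q := by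
  unfold be
  have h1 : 0 ≤ dr r q := IX1.dr_nonneg r q
  have h2 : 0 ≤ Real.log q := Real.log_nonneg (by exact_mod_cast hq)
  positivity

theorem Eu_deg (r : ℕ) (E : ℕ → Polynomial ℝ) (hdeg : ∀ q, (E q).natDegree ≤ r - 1) (z w : ℝ)
    (q : ℕ) : (Eu E z w q).natDegree ≤ r - 1 := by
  unfold Eu
  refine Polynomial.natDegree_sum_le_of_forall_le _ _ fun p _ => ?_
  refine (Polynomial.natDegree_C_mul_le _ _).trans ?_
  exact IK5.natDegree_comp_lin _ _ _ (hdeg q)

theorem E0_deg (r : ℕ) (k : ℕ → ℝ) (E : ℕ → Polynomial ℝ) (hdeg : ∀ q, (E q).natDegree ≤ r - 1)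
    (z w : ℝ) (S q : ℕ) : (E0 r k E z w S q).natDegree ≤ r - 1 := by
  unfold E0
  refine Polynomial.natDegree_sum_le_of_forall_le _ _ fun s _ => ?_
  refine (Polynomial.natDegree_C_mul_le _ _).trans ?_
  exact IK5.natDegree_comp_lin _ _ _ (Eu_deg r E hdeg z w q)

theorem Eu_coeff (r : ℕ) (E : ℕ → Polynomial ℝ) (hr : 1 ≤ r)
    (hdeg : ∀ q, (E q).natDegree ≤ r - 1) (z w L M : ℝ) (q j : ℕ) (hw : 1 ≤ w)
    (hL : Real.log w ≤ L) (hM : 0 ≤ M) (hc : ∀ i, |(E q).coeff i| ≤ M) :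
    |(Eu E z w q).coeff j| ≤ (1 + L) * (M * (r * 2 ^ r) * (1 + L) ^ r) := by
  have hL0 : 0 ≤ Real.log w := Real.log_nonneg hw
  have hL1 : 0 ≤ L := hL0.trans hL
  unfold Eu
  rw [Polynomial.finsetSum_coeff]
  calc |∑ p ∈ PW z w, (Polynomial.C (1 / (p : ℝ)) *
          (E q).comp (Polynomial.X - Polynomial.C (Real.log p))).coeff j|
      ≤ ∑ p ∈ PW z w, |(Polynomial.C (1 / (p : ℝ)) *
          (E q).comp (Polynomial.X - Polynomial.C (Real.log p))).coeff j| :=
        Finset.abs_sum_le_sum_abs _ _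
    _ ≤ ∑ p ∈ PW z w, (1 / (p : ℝ)) * (M * (r * 2 ^ r) * (1 + L) ^ r) := by
        refine Finset.sum_le_sum fun p hp => ?_
        obtain ⟨hp1, hp2⟩ := IK5.mem_PW hw hp
        have hp0 : (0 : ℝ) < p := by exact_mod_cast hp1
        rw [Polynomial.coeff_C_mul, abs_mul, abs_of_nonneg (by positivity : (0 : ℝ) ≤ 1 / (p : ℝ))]
        refine mul_le_mul_of_nonneg_left ?_ (by positivity)
        refine IK5.coeff_bd (E q) (Real.log p) L _ j r ?_ ?_ ?_ hM hc
        · have := hdeg q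
          omega
        · exact Real.log_nonneg (by exact_mod_cast hp1)
        · exact (Real.log_le_log hp0 hp2).trans hL
    _ = (∑ p ∈ PW z w, 1 / (p : ℝ)) * (M * (r * 2 ^ r) * (1 + L) ^ r) := by
        rw [Finset.sum_mul]
    _ ≤ (1 + L) * (M * (r * 2 ^ r) * (1 + L) ^ r) := by
        refine mul_le_mul_of_nonneg_right ((IK5.sum_inv z w hw).trans ?_) (by positivity)
        linarith

theorem sum_k (r : ℕ) (k : ℕ → ℝ) (S : ℕ) (L : ℝ) (hk : ∀ s, |k s| ≤ dr (2 * r) s)
    (hS : 1 ≤ S) (hL : Real.log S ≤ L) :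
    ∑ s ∈ Finset.Icc 1 S, |(r : ℝ) * k s / s| ≤ r * (1 + L) ^ (2 * r) := by
  have hL0 : 0 ≤ Real.log S := Real.log_natCast_nonneg S
  calc ∑ s ∈ Finset.Icc 1 S, |(r : ℝ) * k s / s|
      ≤ ∑ s ∈ Finset.Icc 1 S, r * (dr (2 * r) s / s) := by
        refine Finset.sum_le_sum fun s _ => ?_
        rw [abs_div, abs_mul, Nat.abs_cast, Nat.abs_cast, mul_div_assoc]
        refine mul_le_mul_of_nonneg_left ?_ (Nat.cast_nonneg _)
        exact div_le_div_of_nonneg_right (hk s) (Nat.cast_nonneg _)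
    _ = r * ∑ s ∈ Finset.Icc 1 S, dr (2 * r) s / s := by rw [Finset.mul_sum]
    _ ≤ r * (1 + L) ^ (2 * r) := by
        refine mul_le_mul_of_nonneg_left ((IX1.logsum (2 * r) S).trans ?_) (Nat.cast_nonneg _)
        exact pow_le_pow_left₀ (by linarith) (by linarith) _

theorem E0_coeff (r : ℕ) (k : ℕ → ℝ) (E : ℕ → Polynomial ℝ) (hr : 1 ≤ r)
    (hdeg : ∀ q, (E q).natDegree ≤ r - 1) (z w L M : ℝ) (S q j : ℕ) (hw : 1 ≤ w)
    (hL : Real.log w ≤ L) (hM : 0 ≤ M) (hc : ∀ i, |(E q).coeff i| ≤ M)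
    (hk : ∀ s, |k s| ≤ dr (2 * r) s) (hS : ∀ s ∈ Finset.Icc 1 S, Real.log s ≤ L) :
    |(E0 r k E z w S q).coeff j| ≤ (r * (1 + L) ^ (2 * r)) *
      (((1 + L) * (M * (r * 2 ^ r) * (1 + L) ^ r)) * (r * 2 ^ r) * (1 + L) ^ r) := by
  have hL0 : 0 ≤ Real.log w := Real.log_nonneg hw
  have hL1 : 0 ≤ L := hL0.trans hL
  rcases Nat.eq_zero_or_pos S with hS0 | hS0
  · subst hS0
    unfold E0
    rw [Finset.Icc_eq_empty (by omega), Finset.sum_empty, Polynomial.coeff_zero, abs_zero]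
    positivity
  · unfold E0
    rw [Polynomial.finsetSum_coeff]
    calc |∑ s ∈ Finset.Icc 1 S, (Polynomial.C ((r : ℝ) * k s / s) *
            (Eu E z w q).comp (Polynomial.X - Polynomial.C (Real.log s))).coeff j|
        ≤ ∑ s ∈ Finset.Icc 1 S, |(Polynomial.C ((r : ℝ) * k s / s) *
            (Eu E z w q).comp (Polynomial.X - Polynomial.C (Real.log s))).coeff j| :=
          Finset.abs_sum_le_sum_abs _ _
      _ ≤ ∑ s ∈ Finset.Icc 1 S, |(r : ℝ) * k s / s| *
          (((1 + L) * (M * (r * 2 ^ r) * (1 + L) ^ r)) * (r * 2 ^ r) * (1 + L) ^ r) := by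
          refine Finset.sum_le_sum fun s hs => ?_
          have hs1 : 1 ≤ s := (Finset.mem_Icc.mp hs).1
          rw [Polynomial.coeff_C_mul, abs_mul]
          refine mul_le_mul_of_nonneg_left ?_ (abs_nonneg _)
          refine IK5.coeff_bd (Eu E z w q) (Real.log s) L _ j r ?_ ?_ (hS s hs) (by positivity) ?_
          · have := Eu_deg r E hdeg z w q
            omega
          · exact Real.log_nonneg (by exact_mod_cast hs1)
          · intro i
            exact Eu_coeff r E hr hdeg z w L M q i hw hL hM hc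
      _ = (∑ s ∈ Finset.Icc 1 S, |(r : ℝ) * k s / s|) *
          (((1 + L) * (M * (r * 2 ^ r) * (1 + L) ^ r)) * (r * 2 ^ r) * (1 + L) ^ r) := by
          rw [Finset.sum_mul]
      _ ≤ _ := by
          refine mul_le_mul_of_nonneg_right ?_ (by positivity)
          exact sum_k r k S L hk hS0 (hS S (Finset.mem_Icc.mpr ⟨hS0, le_refl _⟩))

end V1x

open V1x in
theorem pfV1 (h1 : tsZ1) : fpV1 := by
  intro r E hr hAP _
  obtain ⟨C0, hC0, hC⟩ := h1 r E hr hAP
  have hdeg := hAP.1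
  have hr0 : (0 : ℝ) < r := by exact_mod_cast hr
  set K : ℝ := r * 2 ^ (2 * r) * (2 * (C0 * (r * 2 ^ r) * 2 ^ r) * (r * 2 ^ r) * 2 ^ r) with hK
  have hK0 : 0 < K := by positivity
  refine ⟨K + (4 * r + 1), by positivity, ?_⟩
  intro X z w k S q hKK hX hw hwX hSX
  refine ⟨E0_deg r k E hdeg z w S q, ?_⟩
  intro j hq
  have hlX : 1 ≤ Real.log X := by
    have h3 : Real.exp 1 ≤ X := by
      have := Real.exp_one_lt_d9
      linarith
    have h4 := Real.log_le_log (Real.exp_pos 1) h3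
    rwa [Real.log_exp] at h4
  have hbe := be_nonneg r q hq
  have hb := E0_coeff r k E hr hdeg z w (Real.log X) (C0 * be r q) S q j hw
    (Real.log_le_log (by linarith) hwX) (by positivity) (fun i => hC q i hq) hKK.1 (by
      intro s hs
      rw [Finset.mem_Icc] at hs
      refine Real.log_le_log (by exact_mod_cast hs.1) ?_
      have : (s : ℝ) ≤ S := by exact_mod_cast hs.2
      linarith)
  refine hb.trans ?_
  have h2 : 1 + Real.log X ≤ 2 * Real.log X := by linarith
  have hpos : 0 ≤ 1 + Real.log X := by linarith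
  calc (r * (1 + Real.log X) ^ (2 * r)) * (((1 + Real.log X) *
        (C0 * be r q * (r * 2 ^ r) * (1 + Real.log X) ^ r)) * (r * 2 ^ r) * (1 + Real.log X) ^ r)
      ≤ (r * (2 * Real.log X) ^ (2 * r)) * (((2 * Real.log X) *
        (C0 * be r q * (r * 2 ^ r) * (2 * Real.log X) ^ r)) * (r * 2 ^ r) *
          (2 * Real.log X) ^ r) := by
        gcongr
    _ = K * Real.log X ^ (4 * r + 1) * be r q := by
        rw [hK]
        simp only [mul_pow]
        ring
    _ ≤ (K + (4 * r + 1)) * Real.log X ^ (K + (4 * r + 1) : ℝ) * be r q := by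
        refine mul_le_mul_of_nonneg_right ?_ hbe
        refine mul_le_mul ?_ ?_ (by positivity) (by positivity)
        · have : (0 : ℝ) ≤ 4 * r + 1 := by positivity
          linarith
        · rw [← Real.rpow_natCast]
          refine Real.rpow_le_rpow_of_exponent_le hlX ?_
          push_cast
          linarith

end Pool.Agent.Work.MP_122e00_nt.FP
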