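import Pool.Agent.Work.MP_122e00_nt.FP.StmtsA

set_option autoImplicit false

/-!
# Full polynomial, item V2: the means of `fS(n) e(a n/q)`
-/

namespace Pool.Agent.Work.MP_122e00_nt.FP

open Finset Filter Topology ArithmeticFunction MeasureTheory
open Pool.Agent.Work.MP_122e00_nt.TS
open scoped ArithmeticFunction.zeta ArithmeticFunction.Moebius

namespace V2x

theorem mem_PW {z w : ℝ} {p : ℕ} (hp : p ∈ PW z w) : p.Prime ∧ z < (p : ℝ) ∧ (p : ℝ) ≤ w := by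
  rw [PW, Finset.mem_filter, Finset.mem_Icc] at hp
  have hw : 0 ≤ w := by
    by_contra h
    push Not at h
    rw [Nat.floor_of_nonpos h.le] at hp
    omega
  exact ⟨hp.2.1, hp.2.2, (Nat.cast_le.2 hp.1.2).trans (Nat.floor_le hw)⟩

/-- exponential sums of a sum over multiples -/
theorem SS_dil (g : ℕ → ℝ) (D : Finset ℕ) (c : ℕ → ℝ) (hD : ∀ s ∈ D, 0 < s) (N : ℕ) (α : ℝ) :
    SS (fun n => ∑ s ∈ D.filter (· ∣ n), c s * g (n / s)) N α =
      ∑ s ∈ D, (c s : ℂ) * SS g (N / s) (s * α) := by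
  have h1 : SS (fun n => ∑ s ∈ D.filter (· ∣ n), c s * g (n / s)) N α =
      ∑ n ∈ Finset.Icc 1 N, ∑ s ∈ D, if s ∣ n then (c s : ℂ) * ((g (n / s) : ℂ) * TS.ee (n * α))
        else 0 := by
    rw [SS]
    refine Finset.sum_congr rfl fun n _ => ?_
    rw [Finset.sum_filter]
    push_cast
    rw [Finset.sum_mul]
    refine Finset.sum_congr rfl fun s _ => ?_
    split_ifs
    · push_cast
      rw [mul_assoc]
    · simp
  rw [h1, Finset.sum_comm]
  refine Finset.sum_congr rfl fun p hp => ?_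
  have hp0 : 0 < p := hD p hp
  rw [← Finset.sum_filter, SS, Finset.mul_sum]
  refine Finset.sum_nbij' (fun n => n / p) (fun m => p * m) ?_ ?_ ?_ ?_ ?_
  · intro n hn
    rw [Finset.mem_filter, Finset.mem_Icc] at hn
    obtain ⟨⟨h1, h2⟩, m, rfl⟩ := hn
    rw [Nat.mul_div_cancel_left _ hp0, Finset.mem_Icc]
    have hm : 0 < m := by
      rcases Nat.eq_zero_or_pos m with h | h
      · subst h; simp at h1
      · exact h
    exact ⟨hm, (Nat.le_div_iff_mul_le hp0).2 (by rwa [mul_comm])⟩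
  · intro m hm
    rw [Finset.mem_Icc] at hm
    rw [Finset.mem_filter, Finset.mem_Icc]
    refine ⟨⟨Nat.mul_pos hp0 hm.1, ?_⟩, dvd_mul_right _ _⟩
    have := (Nat.le_div_iff_mul_le hp0).1 hm.2
    rwa [mul_comm] at this
  · intro n hn
    rw [Finset.mem_filter] at hn
    exact Nat.mul_div_cancel' hn.2
  · intro m _
    exact Nat.mul_div_cancel_left _ hp0
  · intro n hn
    rw [Finset.mem_filter] at hn
    obtain ⟨_, m, rfl⟩ := hn
    simp only [Nat.mul_div_cancel_left _ hp0]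
    congr 3
    push_cast
    ring

theorem SS_up (r : ℕ) (z w : ℝ) (N : ℕ) (α : ℝ) :
    SS (TS.up r z w) N α = ∑ p ∈ PW z w, SS (dr r) (N / p) (p * α) := by
  have h := SS_dil (dr r) (PW z w) (fun _ => 1) (fun s hs => (mem_PW hs).1.pos) N α
  have h2 : (fun n => ∑ s ∈ (PW z w).filter (· ∣ n), (1 : ℝ) * dr r (n / s)) = TS.up r z w := by
    funext n
    rw [TS.up]
    refine Finset.sum_congr rfl fun s _ => ?_
    rw [one_mul]
  rw [h2] at h
  rw [h]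
  refine Finset.sum_congr rfl fun s _ => ?_
  simp

theorem eval_Eu (E : ℕ → Polynomial ℝ) (z w y : ℝ) (q : ℕ) :
    (Eu E z w q).eval y = ∑ p ∈ PW z w, 1 / (p : ℝ) * (E q).eval (y - Real.log p) := by
  rw [Eu, Polynomial.eval_finsetSum]
  refine Finset.sum_congr rfl fun p _ => ?_
  simp [Polynomial.eval_comp]

theorem eval_E0 (r : ℕ) (k : ℕ → ℝ) (E : ℕ → Polynomial ℝ) (z w y : ℝ) (S q : ℕ) :
    (E0 r k E z w S q).eval y =
      ∑ s ∈ Finset.Icc 1 S, r * k s / s * (Eu E z w q).eval (y - Real.log s) := by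
  rw [E0, Polynomial.eval_finsetSum]
  refine Finset.sum_congr rfl fun p _ => ?_
  simp [Polynomial.eval_comp]

theorem harm (N : ℕ) : ∑ n ∈ Finset.Icc 1 N, (1 : ℝ) / n ≤ 1 + Real.log N := by
  have h := harmonic_le_one_add_log N
  rw [harmonic_eq_sum_Icc] at h
  push_cast at h
  simpa only [one_div] using h

theorem sum_inv_le {z w : ℝ} (hw : 1 ≤ w) :
    ∑ p ∈ PW z w, 1 / (p : ℝ) ≤ 1 + Real.log w := by
  have h1 : ∑ p ∈ PW z w, 1 / (p : ℝ) ≤ ∑ p ∈ Finset.Icc 1 ⌊w⌋₊, 1 / (p : ℝ) := by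
    apply Finset.sum_le_sum_of_subset_of_nonneg (Finset.filter_subset _ _)
    intro i _ _
    positivity
  have h2 : ∑ p ∈ Finset.Icc 1 ⌊w⌋₊, 1 / (p : ℝ) = ((harmonic ⌊w⌋₊ : ℚ) : ℝ) := by
    rw [harmonic_eq_sum_Icc]
    push_cast
    refine Finset.sum_congr rfl fun p _ => ?_
    rw [one_div]
  have h3 := harmonic_floor_le_one_add_log w hw
  linarith

theorem dr_nonneg (r n : ℕ) : 0 ≤ dr r n := Nat.cast_nonneg _

theorem dr_succ (r n : ℕ) : dr (r + 1) n = ∑ x ∈ n.divisorsAntidiagonal, dr r x.1 := by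
  unfold dr
  rw [pow_succ, ArithmeticFunction.mul_apply, Nat.cast_sum]
  refine Finset.sum_congr rfl fun x hx => ?_
  have h2 : x.2 ≠ 0 := by
    have := Nat.mem_divisorsAntidiagonal.1 hx
    rintro h
    exact this.2 (by rw [← this.1, h, mul_zero])
  rw [ArithmeticFunction.zeta_apply, if_neg h2, mul_one]

theorem dA_eq (N n : ℕ) (hn : n ∈ Finset.Icc 1 N) : n.divisorsAntidiagonal =
    (Finset.Icc 1 N ×ˢ Finset.Icc 1 N).filter (fun x => x.1 * x.2 = n) := by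
  rw [Finset.mem_Icc] at hn
  ext ⟨x, y⟩
  simp only [Nat.mem_divisorsAntidiagonal, Finset.mem_filter, Finset.mem_product, Finset.mem_Icc]
  constructor
  · rintro ⟨h1, h2⟩
    have hx : x ≠ 0 := by rintro rfl; rw [zero_mul] at h1; omega
    have hy : y ≠ 0 := by rintro rfl; rw [mul_zero] at h1; omega
    have h3 : x ≤ x * y := Nat.le_mul_of_pos_right x (by omega)
    have h4 : y ≤ x * y := Nat.le_mul_of_pos_left y (by omega)
    exact ⟨⟨⟨by omega, by omega⟩, ⟨by omega, by omega⟩⟩, h1⟩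
  · rintro ⟨-, h1⟩
    exact ⟨h1, by omega⟩

/-- the logarithmic sum of the divisor function -/
theorem logsum (r N : ℕ) : ∑ n ∈ Finset.Icc 1 N, dr r n / n ≤ (1 + Real.log N) ^ r := by
  have hlog : 0 ≤ Real.log N := Real.log_natCast_nonneg N
  induction r with
  | zero =>
    rw [pow_zero]
    have h1 : ∀ n ∈ Finset.Icc 1 N, dr 0 n / n ≤ if n = 1 then 1 else 0 := by
      intro n hn
      unfold dr
      rw [pow_zero, ArithmeticFunction.one_apply]
      split_ifs with h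
      · rw [h]; norm_num
      · simp
    refine (Finset.sum_le_sum h1).trans ?_
    rw [Finset.sum_ite_eq']
    split_ifs <;> norm_num
  | succ r ih =>
    have h1 : ∀ n ∈ Finset.Icc 1 N, dr (r + 1) n / n =
        ∑ x ∈ (Finset.Icc 1 N ×ˢ Finset.Icc 1 N) with x.1 * x.2 = n,
          (dr r x.1 / x.1) * (1 / (x.2 : ℝ)) := by
      intro n hn
      rw [dr_succ, Finset.sum_div, dA_eq N n hn]
      refine Finset.sum_congr rfl fun x hx => ?_
      rw [Finset.mem_filter] at hx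
      rw [← hx.2]
      push_cast
      rw [div_mul_div_comm, mul_one]
    rw [Finset.sum_congr rfl h1]
    calc ∑ n ∈ Finset.Icc 1 N, ∑ x ∈ (Finset.Icc 1 N ×ˢ Finset.Icc 1 N) with x.1 * x.2 = n,
          (dr r x.1 / x.1) * (1 / (x.2 : ℝ))
        ≤ ∑ x ∈ Finset.Icc 1 N ×ˢ Finset.Icc 1 N, (dr r x.1 / x.1) * (1 / (x.2 : ℝ)) := by
          refine Finset.sum_fiberwise_le_sum_of_sum_fiber_nonneg fun y _ => ?_
          exact Finset.sum_nonneg fun x _ => by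
            have := dr_nonneg r x.1
            positivity
      _ = (∑ n ∈ Finset.Icc 1 N, dr r n / n) * ∑ n ∈ Finset.Icc 1 N, 1 / (n : ℝ) := by
          rw [Finset.sum_mul_sum, Finset.sum_product]
      _ ≤ (1 + Real.log N) ^ r * (1 + Real.log N) :=
          mul_le_mul ih (harm N) (Finset.sum_nonneg fun _ _ => by positivity) (by positivity)
      _ = (1 + Real.log N) ^ (r + 1) := by rw [pow_succ]

/-- powers of the logarithm -/
theorem log_pow_le (m : ℕ) (c : ℝ) (hc : 0 < c) : ∃ K : ℝ, 0 < K ∧ ∀ x : ℝ, 1 ≤ x →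
    (1 + Real.log x) ^ m ≤ K * x ^ c := by
  have he : 0 < c / (m + 1) := by positivity
  refine ⟨(1 + 1 / (c / (m + 1))) ^ m, by positivity, fun x hx => ?_⟩
  have hx0 : 0 < x := by linarith
  have h1 : Real.log x ≤ x ^ (c / (m + 1)) / (c / (m + 1)) := Real.log_le_rpow_div hx0.le he
  have h2 : 1 ≤ x ^ (c / (m + 1)) := Real.one_le_rpow hx he.le
  have h3 : 1 + Real.log x ≤ (1 + 1 / (c / (m + 1))) * x ^ (c / (m + 1)) := by
    have : (1 + 1 / (c / (m + 1))) * x ^ (c / (m + 1)) =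
        x ^ (c / (m + 1)) + x ^ (c / (m + 1)) / (c / (m + 1)) := by ring
    rw [this]
    linarith
  have h4 : 0 ≤ 1 + Real.log x := by
    have := Real.log_nonneg hx
    linarith
  refine (pow_le_pow_left₀ h4 h3 m).trans ?_
  rw [mul_pow]
  apply mul_le_mul_of_nonneg_left _ (by positivity)
  rw [← Real.rpow_natCast, ← Real.rpow_mul hx0.le]
  apply Real.rpow_le_rpow_of_exponent_le hx
  rw [div_mul_eq_mul_div, div_le_iff₀ (by positivity)]
  nlinarith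

/-- the mean of `u(n) e(a n/q)` -/
theorem upmean {r : ℕ} {E : ℕ → Polynomial ℝ} {c₀ C₀ : ℝ} (hc0 : 0 < c₀) (hC0 : 0 < C₀)
    (hA : ∀ (q : ℕ) (a : ℤ) (x : ℝ), 1 ≤ q → IsCoprime a (q : ℤ) →
      1 ≤ x → ‖SS (dr r) ⌊x⌋₊ (a / q) - ((x * (E q).eval (Real.log x) : ℝ) : ℂ)‖ ≤
        C₀ * (q : ℝ) ^ C₀ * x ^ (1 - c₀))
    {x z w : ℝ} {q : ℕ} {a : ℤ} (hw1 : 1 ≤ w) (hwx : w ≤ x) (hq : 1 ≤ q)
    (hqz : ∀ p ∈ q.primeFactors, (p : ℝ) ≤ z) (ha : IsCoprime a (q : ℤ)) :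
    ‖SS (TS.up r z w) ⌊x⌋₊ (a / q) - ((x * (Eu E z w q).eval (Real.log x) : ℝ) : ℂ)‖ ≤
      C₀ * (q : ℝ) ^ C₀ * (x ^ (1 - c₀) * w ^ c₀) * (1 + Real.log w) := by
  have hw0 : 0 < w := by linarith
  have hx0 : 0 < x := by linarith
  rw [SS_up, eval_Eu, Finset.mul_sum]
  push_cast
  rw [← Finset.sum_sub_distrib]
  have hterm : ∀ p ∈ PW z w, ‖SS (dr r) (⌊x⌋₊ / p) (p * ((a : ℝ) / q)) -
      (x : ℂ) * (1 / (p : ℂ) * (((E q).eval (Real.log x - Real.log p) : ℝ) : ℂ))‖ ≤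
      C₀ * (q : ℝ) ^ C₀ * (x ^ (1 - c₀) * w ^ c₀) * (1 / (p : ℝ)) := by
    intro p hp
    obtain ⟨hpp, hpz, hpw⟩ := mem_PW hp
    have hp0 : (0 : ℝ) < p := by exact_mod_cast hpp.pos
    have hcop : IsCoprime ((p : ℤ) * a) (q : ℤ) := by
      apply IsCoprime.mul_left _ ha
      rw [Nat.isCoprime_iff_coprime]
      apply (Nat.Prime.coprime_iff_not_dvd hpp).2
      intro hdvd
      have h2 := hqz p (Nat.mem_primeFactors.2 ⟨hpp, hdvd, by omega⟩)
      linarith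
    have hxp : 1 ≤ x / p := by
      rw [le_div_iff₀ hp0]
      linarith
    have h1 := hA q ((p : ℤ) * a) (x / p) hq hcop hxp
    have h2 : ⌊x / p⌋₊ = ⌊x⌋₊ / p := Nat.floor_div_natCast x p
    have h3 : ((((p : ℤ) * a : ℤ) : ℝ) / (q : ℝ)) = (p : ℝ) * ((a : ℝ) / q) := by
      push_cast
      ring
    rw [h2, h3, Real.log_div hx0.ne' hp0.ne'] at h1
    have h4 : (((x / p * (E q).eval (Real.log x - Real.log p) : ℝ)) : ℂ) =
        (x : ℂ) * (1 / (p : ℂ) * (((E q).eval (Real.log x - Real.log p) : ℝ) : ℂ)) := by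
      push_cast
      ring
    rw [h4] at h1
    refine h1.trans ?_
    have h5 : (x / p) ^ (1 - c₀) ≤ x ^ (1 - c₀) * w ^ c₀ * (1 / (p : ℝ)) := by
      rw [Real.div_rpow hx0.le hp0.le, div_eq_mul_inv, ← Real.rpow_neg hp0.le]
      have h6 : (p : ℝ) ^ (-(1 - c₀)) = (p : ℝ) ^ c₀ * (1 / (p : ℝ)) := by
        have : -(1 - c₀) = c₀ + (-1 : ℝ) := by ring
        rw [this, Real.rpow_add hp0, Real.rpow_neg_one, one_div]
      rw [h6]
      have h7 : (p : ℝ) ^ c₀ ≤ w ^ c₀ := Real.rpow_le_rpow hp0.le hpw hc0.le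
      have h8 : 0 ≤ x ^ (1 - c₀) := Real.rpow_nonneg hx0.le _
      have h9 : 0 ≤ 1 / (p : ℝ) := by positivity
      calc x ^ (1 - c₀) * ((p : ℝ) ^ c₀ * (1 / (p : ℝ)))
          ≤ x ^ (1 - c₀) * (w ^ c₀ * (1 / (p : ℝ))) := by gcongr
        _ = _ := by ring
    have h10 : 0 ≤ C₀ * (q : ℝ) ^ C₀ := by positivity
    calc C₀ * (q : ℝ) ^ C₀ * (x / p) ^ (1 - c₀)
        ≤ C₀ * (q : ℝ) ^ C₀ * (x ^ (1 - c₀) * w ^ c₀ * (1 / (p : ℝ))) := by gcongr
      _ = _ := by ring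
  refine (norm_sum_le _ _).trans ((Finset.sum_le_sum hterm).trans ?_)
  rw [← Finset.mul_sum]
  exact mul_le_mul_of_nonneg_left (sum_inv_le (z := z) hw1) (by positivity)

end V2x

open V2x in
/-- Item V2. -/
theorem pfV2 : fpV2 := by
  intro r E hr hAP _
  obtain ⟨-, -, c₀, C₀, hc0, hc1, hC0, hA⟩ := hAP
  obtain ⟨K, hK0, hK⟩ := log_pow_le (2 * r + 1) (c₀ / 4) (by positivity)
  refine ⟨c₀ / 2, C₀ * (1 + r * K), by positivity, by positivity, ?_⟩
  intro x z w k S q a hk hx hw hS hSw hq hqz ha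
  have hx0 : 0 < x := by linarith
  have hw0 : 0 < w := by linarith
  have hS1 : (1 : ℝ) ≤ S := by exact_mod_cast hS
  have hS0 : (0 : ℝ) < S := by linarith
  have hqR : (1 : ℝ) ≤ q := by exact_mod_cast hq
  have hx4 : x ^ (1 / 4 : ℝ) ≤ x := by
    have := Real.rpow_le_rpow_of_exponent_le hx (show (1 / 4 : ℝ) ≤ 1 by norm_num)
    rwa [Real.rpow_one] at this
  have hSwx : (S : ℝ) * w ≤ x := hSw.trans hx4
  have hSx : (S : ℝ) ≤ x := by nlinarith
  have hwx : w ≤ x := by nlinarith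
  have hlx : 0 ≤ Real.log x := Real.log_nonneg hx
  have hlw : 0 ≤ Real.log w := Real.log_nonneg hw
  have hlS : 0 ≤ Real.log S := Real.log_nonneg hS1
  -- the exponential sum
  have hSS : SS (fS r k z w S) ⌊x⌋₊ (a / q) =
      ∑ s ∈ Finset.Icc 1 S, ((r * k s : ℝ) : ℂ) *
        SS (TS.up r z w) (⌊x⌋₊ / s) (s * ((a : ℝ) / q)) := by
    rw [← SS_dil (TS.up r z w) (Finset.Icc 1 S) (fun s => r * k s)
      (fun s hs => (Finset.mem_Icc.1 hs).1)]
    congr 1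
    funext n
    rw [fS, Finset.mul_sum]
    refine Finset.sum_congr rfl fun s _ => ?_
    ring
  rw [hSS, eval_E0, Finset.mul_sum, Complex.ofReal_sum, ← Finset.sum_sub_distrib]
  set G : ℝ := C₀ * (q : ℝ) ^ C₀ * (x ^ (1 - c₀) * (S : ℝ) ^ c₀ * w ^ c₀) * (1 + Real.log w)
    with hG
  have hG0 : 0 ≤ G := by positivity
  have hterm : ∀ s ∈ Finset.Icc 1 S, ‖((r * k s : ℝ) : ℂ) *
      SS (TS.up r z w) (⌊x⌋₊ / s) (s * ((a : ℝ) / q)) -
      ((x * (r * k s / s * (Eu E z w q).eval (Real.log x - Real.log s)) : ℝ) : ℂ)‖ ≤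
      r * G * (dr (2 * r) s / s) := by
    intro s hs
    obtain ⟨hs1, hsS⟩ := Finset.mem_Icc.1 hs
    have hs1R : (1 : ℝ) ≤ s := by exact_mod_cast hs1
    have hs0 : (0 : ℝ) < s := by linarith
    have hsSR : (s : ℝ) ≤ S := by exact_mod_cast hsS
    by_cases hks : k s = 0
    · rw [hks]
      simp only [mul_zero, zero_div, zero_mul, Complex.ofReal_zero, sub_zero, norm_zero]
      have := dr_nonneg (2 * r) s
      positivity
    have hsm := hk.2.1 s hks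
    have hcop : IsCoprime ((s : ℤ) * a) (q : ℤ) := by
      apply IsCoprime.mul_left _ ha
      rw [Nat.isCoprime_iff_coprime]
      by_contra hn
      obtain ⟨p, hp, h1, h2⟩ := Nat.Prime.not_coprime_iff_dvd.1 hn
      have h3 := (hsm.2 p (Nat.mem_primeFactors.2 ⟨hp, h1, by omega⟩)).1
      have h4 := hqz p (Nat.mem_primeFactors.2 ⟨hp, h2, by omega⟩)
      linarith
    have hwxs : w ≤ x / s := by
      rw [le_div_iff₀ hs0]
      nlinarith
    have h1 := upmean (r := r) (E := E) hc0 hC0 hA (z := z) hw hwxs hq hqz hcop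
    have h2 : ⌊x / s⌋₊ = ⌊x⌋₊ / s := Nat.floor_div_natCast x s
    have h3 : ((((s : ℤ) * a : ℤ) : ℝ) / (q : ℝ)) = (s : ℝ) * ((a : ℝ) / q) := by
      push_cast
      ring
    rw [h2, h3, Real.log_div hx0.ne' hs0.ne'] at h1
    have h4 : ((x * (r * k s / s * (Eu E z w q).eval (Real.log x - Real.log s)) : ℝ) : ℂ) =
        ((r * k s : ℝ) : ℂ) *
          ((x / s * (Eu E z w q).eval (Real.log x - Real.log s) : ℝ) : ℂ) := by
      push_cast
      ring
    rw [h4, ← mul_sub, norm_mul, Complex.norm_real, Real.norm_eq_abs, abs_mul,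
      abs_of_nonneg (Nat.cast_nonneg r)]
    have h5 : (x / s) ^ (1 - c₀) ≤ x ^ (1 - c₀) * (S : ℝ) ^ c₀ * (1 / (s : ℝ)) := by
      rw [Real.div_rpow hx0.le hs0.le, div_eq_mul_inv, ← Real.rpow_neg hs0.le]
      have h6 : (s : ℝ) ^ (-(1 - c₀)) = (s : ℝ) ^ c₀ * (1 / (s : ℝ)) := by
        have : -(1 - c₀) = c₀ + (-1 : ℝ) := by ring
        rw [this, Real.rpow_add hs0, Real.rpow_neg_one, one_div]
      rw [h6]
      have h7 : (s : ℝ) ^ c₀ ≤ (S : ℝ) ^ c₀ := Real.rpow_le_rpow hs0.le hsSR hc0.le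
      have h8 : 0 ≤ x ^ (1 - c₀) := Real.rpow_nonneg hx0.le _
      have h9 : 0 ≤ 1 / (s : ℝ) := by positivity
      calc x ^ (1 - c₀) * ((s : ℝ) ^ c₀ * (1 / (s : ℝ)))
          ≤ x ^ (1 - c₀) * ((S : ℝ) ^ c₀ * (1 / (s : ℝ))) := by gcongr
        _ = _ := by ring
    have h6 : C₀ * (q : ℝ) ^ C₀ * ((x / s) ^ (1 - c₀) * w ^ c₀) * (1 + Real.log w) ≤
        G * (1 / (s : ℝ)) := by
      calc C₀ * (q : ℝ) ^ C₀ * ((x / s) ^ (1 - c₀) * w ^ c₀) * (1 + Real.log w)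
          ≤ C₀ * (q : ℝ) ^ C₀ * ((x ^ (1 - c₀) * (S : ℝ) ^ c₀ * (1 / (s : ℝ))) * w ^ c₀) *
            (1 + Real.log w) := by gcongr
        _ = _ := by rw [hG]; ring
    have h7 : 0 ≤ G * (1 / (s : ℝ)) := by positivity
    calc r * |k s| * _ ≤ r * dr (2 * r) s * (G * (1 / (s : ℝ))) :=
          mul_le_mul (mul_le_mul_of_nonneg_left (hk.1 s) (Nat.cast_nonneg r)) (h1.trans h6)
            (norm_nonneg _) (mul_nonneg (Nat.cast_nonneg r) (dr_nonneg _ _))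
      _ = _ := by ring
  refine (norm_sum_le _ _).trans ((Finset.sum_le_sum hterm).trans ?_)
  rw [← Finset.mul_sum]
  have hls := logsum (2 * r) S
  have h1 : (1 + Real.log S) ^ (2 * r) ≤ (1 + Real.log x) ^ (2 * r) := by
    apply pow_le_pow_left₀ (by linarith)
    have := Real.log_le_log hS0 hSx
    linarith
  have h2 : 1 + Real.log w ≤ 1 + Real.log x := by
    have := Real.log_le_log hw0 hwx
    linarith
  have h3 : (S : ℝ) ^ c₀ * w ^ c₀ ≤ x ^ (c₀ / 4) := by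
    rw [← Real.mul_rpow hS0.le hw0.le]
    calc ((S : ℝ) * w) ^ c₀ ≤ (x ^ (1 / 4 : ℝ)) ^ c₀ :=
          Real.rpow_le_rpow (by positivity) hSw hc0.le
      _ = _ := by
        rw [← Real.rpow_mul hx0.le]
        congr 1
        ring
  have h4 := hK x hx
  have h5 : x ^ (1 - c₀) * x ^ (c₀ / 4) * x ^ (c₀ / 4) = x ^ (1 - c₀ / 2) := by
    rw [← Real.rpow_add hx0, ← Real.rpow_add hx0]
    congr 1
    ring
  have hqC : (q : ℝ) ^ C₀ ≤ (q : ℝ) ^ (C₀ * (1 + r * K)) := by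
    apply Real.rpow_le_rpow_of_exponent_le hqR
    have : 0 ≤ C₀ * (r * K) := by positivity
    linarith
  have hsum0 : 0 ≤ ∑ n ∈ Finset.Icc 1 S, dr (2 * r) n / n :=
    Finset.sum_nonneg fun n _ => div_nonneg (dr_nonneg _ _) (Nat.cast_nonneg n)
  have hGle : G ≤ C₀ * (q : ℝ) ^ C₀ * (x ^ (1 - c₀) * x ^ (c₀ / 4)) * (1 + Real.log x) := by
    rw [hG, mul_assoc (x ^ (1 - c₀))]
    gcongr
  calc r * G * ∑ n ∈ Finset.Icc 1 S, dr (2 * r) n / n
      ≤ r * (C₀ * (q : ℝ) ^ C₀ * (x ^ (1 - c₀) * x ^ (c₀ / 4)) * (1 + Real.log x)) *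
        (1 + Real.log x) ^ (2 * r) :=
        mul_le_mul (mul_le_mul_of_nonneg_left hGle (Nat.cast_nonneg r)) (hls.trans h1) hsum0
          (by positivity)
    _ = r * (C₀ * (q : ℝ) ^ C₀ * (x ^ (1 - c₀) * x ^ (c₀ / 4))) *
        (1 + Real.log x) ^ (2 * r + 1) := by rw [pow_succ]; ring
    _ ≤ r * (C₀ * (q : ℝ) ^ C₀ * (x ^ (1 - c₀) * x ^ (c₀ / 4))) * (K * x ^ (c₀ / 4)) :=
        mul_le_mul_of_nonneg_left h4 (by positivity)
    _ = r * K * C₀ * (q : ℝ) ^ C₀ * x ^ (1 - c₀ / 2) := by rw [← h5]; ring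
    _ ≤ C₀ * (1 + r * K) * (q : ℝ) ^ (C₀ * (1 + r * K)) * x ^ (1 - c₀ / 2) := by
        have h6 : r * K * C₀ ≤ C₀ * (1 + r * K) := by
          have : 0 ≤ C₀ := hC0.le
          nlinarith
        gcongr

end Pool.Agent.Work.MP_122e00_nt.FP
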