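import Mathlib
import Pool.Agent.Work.MP_122e00_nt.FP.StmtsC

/-!
# Block FP, item W1 (helper39): long windows of `u(n/s)` from short windows of `u`
-/

namespace Pool.Agent.Work.MP_122e00_nt.FP

open Finset Filter Topology ArithmeticFunction MeasureTheory
open Pool.Agent.Work.MP_122e00_nt.TS
open scoped ArithmeticFunction.zeta ArithmeticFunction.Moebius

namespace W1x

theorem nee (x : ℝ) : ‖TS.ee x‖ = 1 := by
  unfold TS.ee
  exact Complex.norm_exp_ofReal_mul_I _

/-- the window in the variable `m = n / s` -/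
theorem wn_dil (s L N : ℕ) (u : ℕ → ℝ) (γ : ℝ) (hs : 1 ≤ s) (x : ℕ) :
    wn (dil s u) N L x γ = ∑ m ∈ (Finset.Icc 1 (N / s)).filter
      (fun m => m * s ≤ x ∧ x < m * s + L), (u m : ℂ) * TS.ee (m * (s * γ)) := by
  unfold wn
  have hinj : Set.InjOn (fun m : ℕ => m * s)
      (((Finset.Icc 1 (N / s)).filter (fun m => m * s ≤ x ∧ x < m * s + L) : Finset ℕ) : Set ℕ) := by
    intro a _ b _ hab
    exact Nat.eq_of_mul_eq_mul_right hs hab
  have hsub : ((Finset.Icc 1 (N / s)).filter (fun m => m * s ≤ x ∧ x < m * s + L)).image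
      (fun m => m * s) ⊆ (Finset.Icc 1 N).filter (fun n => n ≤ x ∧ x < n + L) := by
    intro n hn
    rw [Finset.mem_image] at hn
    obtain ⟨m, hm, rfl⟩ := hn
    rw [Finset.mem_filter, Finset.mem_Icc] at hm
    obtain ⟨⟨h1, h2⟩, h3, h4⟩ := hm
    rw [Finset.mem_filter, Finset.mem_Icc]
    refine ⟨⟨?_, ?_⟩, h3, h4⟩
    · exact Nat.mul_pos h1 hs
    · exact (Nat.le_div_iff_mul_le hs).1 h2
  rw [← Finset.sum_subset hsub, Finset.sum_image hinj]
  · refine Finset.sum_congr rfl fun m _ => ?_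
    have h1 : dil s u (m * s) = u m := by
      unfold dil
      rw [if_pos (Dvd.intro_left m rfl), Nat.mul_div_cancel _ hs]
    rw [h1]
    congr 2
    push_cast
    ring
  · intro n hn hni
    have h1 : ¬ s ∣ n := by
      rintro ⟨m, rfl⟩
      apply hni
      rw [Finset.mem_image]
      rw [Finset.mem_filter, Finset.mem_Icc] at hn
      obtain ⟨⟨h1, h2⟩, h3, h4⟩ := hn
      rw [mul_comm] at h1 h2 h3 h4
      refine ⟨m, ?_, mul_comm m s⟩
      rw [Finset.mem_filter, Finset.mem_Icc]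
      refine ⟨⟨?_, (Nat.le_div_iff_mul_le hs).2 h2⟩, h3, h4⟩
      rcases Nat.eq_zero_or_pos m with h | h
      · rw [h, zero_mul] at h1
        omega
      · exact h
    unfold dil
    rw [if_neg h1]
    simp

/-- the window is a union of blocks and a rest -/
theorem split {M : Type} [AddCommMonoid M] (s L L₁ N' : ℕ) (hs : 1 ≤ s) (hL₁ : 1 ≤ L₁) (x : ℕ)
    (f : ℕ → M) :
    ∑ m ∈ (Finset.Icc 1 N').filter (fun m => m * s ≤ x ∧ x < m * s + L), f m =
      (∑ j ∈ Finset.range (L / (s * L₁)), ∑ m ∈ (Finset.Icc 1 N').filter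
        (fun m => m ≤ x / s - j * L₁ ∧ x / s - j * L₁ < m + L₁), f m) +
      ∑ m ∈ (Finset.Icc 1 N').filter
        (fun m => m + L / (s * L₁) * L₁ ≤ x / s ∧ x < m * s + L), f m := by
  set G := L / (s * L₁) with hG
  have hGL : G * (s * L₁) ≤ L := Nat.div_mul_le_self _ _
  have hy1 : x / s * s ≤ x := Nat.div_mul_le_self _ _
  have hy2 : x < (x / s + 1) * s := by
    have := Nat.lt_div_mul_add hs (a := x)
    rw [add_mul, one_mul]
    exact this
  set y := x / s with hy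
  simp_rw [Finset.sum_filter]
  rw [Finset.sum_comm, ← Finset.sum_add_distrib]
  refine Finset.sum_congr rfl fun m hm => ?_
  have hm1 : 1 ≤ m := (Finset.mem_Icc.1 hm).1
  have hA : m * s ≤ x ↔ m ≤ y := (Nat.le_div_iff_mul_le hs).symm
  by_cases hmy : m ≤ y
  · obtain ⟨d, hd⟩ : ∃ d, y = m + d := ⟨y - m, by omega⟩
    have hB : ∀ j : ℕ, (m ≤ y - j * L₁ ∧ y - j * L₁ < m + L₁) ↔ j = d / L₁ := by
      intro j
      constructor
      · rintro ⟨h1, h2⟩
        have h3 : j * L₁ ≤ d := by omega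
        have h4 : d < (j + 1) * L₁ := by
          rw [add_mul, one_mul]
          omega
        exact (Nat.div_eq_of_lt_le h3 h4).symm
      · intro h
        have h3 : j * L₁ ≤ d := by
          rw [h]
          exact Nat.div_mul_le_self _ _
        have h4 : d < j * L₁ + L₁ := by
          rw [h]
          exact Nat.lt_div_mul_add hL₁
        omega
    have hsum : ∑ j ∈ Finset.range G, (if m ≤ y - j * L₁ ∧ y - j * L₁ < m + L₁ then f m else 0) =
        if d / L₁ < G then f m else 0 := by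
      simp_rw [hB]
      rw [Finset.sum_ite_eq' (Finset.range G) (d / L₁) (fun _ => f m)]
      simp only [Finset.mem_range]
    rw [hsum]
    by_cases hk : d / L₁ < G
    · have h5 : d < G * L₁ := (Nat.div_lt_iff_lt_mul hL₁).1 hk
      have h6 : x < m * s + L := by
        have h7 : (y + 1) * s ≤ (m + G * L₁) * s := Nat.mul_le_mul_right s (by omega)
        have h8 : (m + G * L₁) * s = m * s + G * (s * L₁) := by ring
        omega
      rw [if_pos hk, if_pos ⟨hA.2 hmy, h6⟩, if_neg (fun h => by omega), add_zero]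
    · have h5 : G * L₁ ≤ d := by
        by_contra h
        exact hk ((Nat.div_lt_iff_lt_mul hL₁).2 (by omega))
      rw [if_neg hk, zero_add]
      refine if_congr ?_ rfl rfl
      constructor
      · rintro ⟨_, h⟩
        exact ⟨by omega, h⟩
      · rintro ⟨_, h⟩
        exact ⟨hA.2 hmy, h⟩
  · have h1 : ∑ j ∈ Finset.range G, (if m ≤ y - j * L₁ ∧ y - j * L₁ < m + L₁ then f m else 0) =
        0 := by
      refine Finset.sum_eq_zero fun j _ => ?_
      rw [if_neg]
      rintro ⟨h, _⟩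
      omega
    rw [h1, zero_add, if_neg, if_neg]
    · rintro ⟨h, _⟩
      omega
    · rintro ⟨h, _⟩
      exact hmy (hA.1 h)

/-- the rest has at most `L₁` elements -/
theorem rest_card (s L L₁ N' : ℕ) (hs : 1 ≤ s) (hL₁ : 1 ≤ L₁) (x : ℕ) :
    ((Finset.Icc 1 N').filter
      (fun m => m + L / (s * L₁) * L₁ ≤ x / s ∧ x < m * s + L)).card ≤ L₁ := by
  set G := L / (s * L₁) with hG
  have hpos : 0 < s * L₁ := Nat.mul_pos hs hL₁
  have hGL : L < (G + 1) * (s * L₁) := by
    have := Nat.lt_div_mul_add hpos (a := L)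
    rw [add_mul, one_mul]
    exact this
  have hy1 : x / s * s ≤ x := Nat.div_mul_le_self _ _
  set y := x / s with hy
  have hsub : (Finset.Icc 1 N').filter (fun m => m + G * L₁ ≤ y ∧ x < m * s + L) ⊆
      Finset.Ioc (y - (G * L₁ + L₁)) (y - G * L₁) := by
    intro m hm
    rw [Finset.mem_filter, Finset.mem_Icc] at hm
    obtain ⟨⟨h1, h2⟩, h3, h4⟩ := hm
    rw [Finset.mem_Ioc]
    have h5 : y * s < (m + (G * L₁ + L₁)) * s := by
      have h6 : (m + (G * L₁ + L₁)) * s = m * s + (G + 1) * (s * L₁) := by ring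
      omega
    have h7 : y < m + (G * L₁ + L₁) := Nat.lt_of_mul_lt_mul_right h5
    constructor <;> omega
  refine (Finset.card_le_card hsub).trans ?_
  rw [Nat.card_Ioc]
  omega

/-- every value of `x / s - c` is taken at most `s` times -/
theorem fib (s c M K : ℕ) (hs : 1 ≤ s) (g : ℕ → ℝ) (hg : ∀ y, 0 ≤ g y) (hg0 : g 0 = 0)
    (hgK : ∀ y, K < y → g y = 0) :
    ∑ x ∈ Finset.Icc 1 M, g (x / s - c) ≤ s * ∑ y ∈ Finset.Icc 1 K, g y := by
  rw [Finset.sum_comp g (fun x => x / s - c)]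
  have h1 : ∀ b ∈ (Finset.Icc 1 M).image (fun x => x / s - c),
      ((Finset.Icc 1 M).filter (fun a => a / s - c = b)).card • g b ≤ s * g b := by
    intro b _
    rcases Nat.eq_zero_or_pos b with h | h
    · rw [h, hg0]
      simp
    · rw [nsmul_eq_mul]
      refine mul_le_mul_of_nonneg_right ?_ (hg b)
      have h2 : (Finset.Icc 1 M).filter (fun a => a / s - c = b) ⊆
          Finset.Ico ((b + c) * s) ((b + c) * s + s) := by
        intro a ha
        rw [Finset.mem_filter] at ha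
        have h3 : a / s = b + c := by omega
        rw [Finset.mem_Ico, ← h3]
        exact ⟨Nat.div_mul_le_self _ _, Nat.lt_div_mul_add hs⟩
      have h3 := Finset.card_le_card h2
      rw [Nat.card_Ico] at h3
      have h4 : ((Finset.Icc 1 M).filter (fun a => a / s - c = b)).card ≤ s := by omega
      exact_mod_cast h4
  refine (Finset.sum_le_sum h1).trans ?_
  rw [← Finset.mul_sum]
  refine mul_le_mul_of_nonneg_left ?_ (Nat.cast_nonneg s)
  have h2 : ∑ b ∈ (Finset.Icc 1 M).image (fun x => x / s - c), g b =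
      ∑ b ∈ (Finset.Icc 1 M).image (fun x => x / s - c) ∩ Finset.Icc 1 K, g b := by
    symm
    refine Finset.sum_subset Finset.inter_subset_left fun b hb hni => ?_
    by_contra hne
    apply hni
    rw [Finset.mem_inter, Finset.mem_Icc]
    refine ⟨hb, ?_, ?_⟩
    · by_contra h
      have h3 : b = 0 := by omega
      rw [h3] at hne
      exact hne hg0
    · by_contra h
      exact hne (hgK b (by omega))
  rw [h2]
  exact Finset.sum_le_sum_of_subset_of_nonneg Finset.inter_subset_right fun b _ _ => hg b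

/-- an element is in the rest for few `x` -/
theorem rest_x (s L L₁ M m : ℕ) (hs : 1 ≤ s) (hL₁ : 1 ≤ L₁) :
    ((Finset.Icc 1 M).filter
      (fun x => m + L / (s * L₁) * L₁ ≤ x / s ∧ x < m * s + L)).card ≤ s * L₁ := by
  set G := L / (s * L₁) with hG
  have hpos : 0 < s * L₁ := Nat.mul_pos hs hL₁
  have hGL : L < (G + 1) * (s * L₁) := by
    have := Nat.lt_div_mul_add hpos (a := L)
    rw [add_mul, one_mul]
    exact this
  have hsub : (Finset.Icc 1 M).filter (fun x => m + G * L₁ ≤ x / s ∧ x < m * s + L) ⊆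
      Finset.Ico (m * s + G * (s * L₁)) (m * s + L) := by
    intro x hx
    rw [Finset.mem_filter] at hx
    obtain ⟨_, h3, h4⟩ := hx
    rw [Finset.mem_Ico]
    have h5 : (m + G * L₁) * s ≤ x := (Nat.le_div_iff_mul_le hs).1 h3
    have h6 : (m + G * L₁) * s = m * s + G * (s * L₁) := by ring
    exact ⟨by omega, h4⟩
  refine (Finset.card_le_card hsub).trans ?_
  rw [Nat.card_Ico]
  have h7 : (G + 1) * (s * L₁) = G * (s * L₁) + s * L₁ := by ring
  omega

end W1x

open W1x in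
theorem pfW1 : fpW1 := by
  intro s L L₁ N u γ hs hL₁
  set G := L / (s * L₁) with hG
  set N' := N / s with hN'
  have hsR : (0 : ℝ) < s := by exact_mod_cast hs
  have hL₁R : (1 : ℝ) ≤ L₁ := by exact_mod_cast hL₁
  -- pointwise
  have hpt : ∀ x : ℕ, ‖wn (dil s u) N L x γ‖ ^ 2 ≤
      2 * G * ∑ j ∈ Finset.range G, ‖wn u N' L₁ (x / s - j * L₁) (s * γ)‖ ^ 2 +
      2 * L₁ * ∑ m ∈ (Finset.Icc 1 N').filter
        (fun m => m + G * L₁ ≤ x / s ∧ x < m * s + L), u m ^ 2 := by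
    intro x
    rw [wn_dil s L N u γ hs x, split s L L₁ (N / s) hs hL₁ x]
    set A := ∑ j ∈ Finset.range G, ∑ m ∈ (Finset.Icc 1 N').filter
        (fun m => m ≤ x / s - j * L₁ ∧ x / s - j * L₁ < m + L₁), (u m : ℂ) * TS.ee (m * (s * γ))
      with hA
    set R := ∑ m ∈ (Finset.Icc 1 N').filter
        (fun m => m + G * L₁ ≤ x / s ∧ x < m * s + L), (u m : ℂ) * TS.ee (m * (s * γ)) with hR
    have h1 : ‖A + R‖ ^ 2 ≤ 2 * ‖A‖ ^ 2 + 2 * ‖R‖ ^ 2 := by
      have h2 : ‖A + R‖ ≤ ‖A‖ + ‖R‖ := norm_add_le _ _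
      have h3 : ‖A + R‖ ^ 2 ≤ (‖A‖ + ‖R‖) ^ 2 := pow_le_pow_left₀ (norm_nonneg _) h2 2
      nlinarith [sq_nonneg (‖A‖ - ‖R‖)]
    have h2 : ‖A‖ ^ 2 ≤ G * ∑ j ∈ Finset.range G, ‖wn u N' L₁ (x / s - j * L₁) (s * γ)‖ ^ 2 := by
      have h3 : ‖A‖ ≤ ∑ j ∈ Finset.range G, ‖wn u N' L₁ (x / s - j * L₁) (s * γ)‖ :=
        norm_sum_le _ _
      refine (pow_le_pow_left₀ (norm_nonneg _) h3 2).trans ?_
      refine (sq_sum_le_card_mul_sum_sq).trans (le_of_eq ?_)
      rw [Finset.card_range]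
    have h4 : ‖R‖ ^ 2 ≤ L₁ * ∑ m ∈ (Finset.Icc 1 N').filter
        (fun m => m + G * L₁ ≤ x / s ∧ x < m * s + L), u m ^ 2 := by
      have h5 : ‖R‖ ≤ ∑ m ∈ (Finset.Icc 1 N').filter
          (fun m => m + G * L₁ ≤ x / s ∧ x < m * s + L), |u m| := by
        refine (norm_sum_le _ _).trans (Finset.sum_le_sum fun m _ => ?_)
        rw [norm_mul, nee, mul_one, Complex.norm_real, Real.norm_eq_abs]
      refine (pow_le_pow_left₀ (norm_nonneg _) h5 2).trans ?_
      refine (sq_sum_le_card_mul_sum_sq).trans ?_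
      simp_rw [sq_abs]
      refine mul_le_mul_of_nonneg_right ?_ (Finset.sum_nonneg fun m _ => sq_nonneg _)
      exact_mod_cast rest_card s L L₁ N' hs hL₁ x
    calc ‖A + R‖ ^ 2 ≤ 2 * ‖A‖ ^ 2 + 2 * ‖R‖ ^ 2 := h1
      _ ≤ 2 * (G * ∑ j ∈ Finset.range G, ‖wn u N' L₁ (x / s - j * L₁) (s * γ)‖ ^ 2) +
          2 * (L₁ * ∑ m ∈ (Finset.Icc 1 N').filter
            (fun m => m + G * L₁ ≤ x / s ∧ x < m * s + L), u m ^ 2) := by linarith
      _ = _ := by ring
  have hsum : SI (dil s u) N L γ ≤ ∑ x ∈ Finset.Icc 1 (N + L),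
      (2 * G * ∑ j ∈ Finset.range G, ‖wn u N' L₁ (x / s - j * L₁) (s * γ)‖ ^ 2 +
      2 * L₁ * ∑ m ∈ (Finset.Icc 1 N').filter
        (fun m => m + G * L₁ ≤ x / s ∧ x < m * s + L), u m ^ 2) :=
    Finset.sum_le_sum fun x _ => hpt x
  rw [Finset.sum_add_distrib, ← Finset.mul_sum, ← Finset.mul_sum, Finset.sum_comm] at hsum
  have hSI0 : 0 ≤ SI u N' L₁ (s * γ) := Finset.sum_nonneg fun x _ => sq_nonneg _
  have hT0 : 0 ≤ ∑ m ∈ Finset.Icc 1 N', u m ^ 2 := Finset.sum_nonneg fun m _ => sq_nonneg _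
  -- first part
  have hP1 : ∑ j ∈ Finset.range G, ∑ x ∈ Finset.Icc 1 (N + L),
      ‖wn u N' L₁ (x / s - j * L₁) (s * γ)‖ ^ 2 ≤ G * (s * SI u N' L₁ (s * γ)) := by
    have h1 : ∀ j ∈ Finset.range G, ∑ x ∈ Finset.Icc 1 (N + L),
        ‖wn u N' L₁ (x / s - j * L₁) (s * γ)‖ ^ 2 ≤ s * SI u N' L₁ (s * γ) := by
      intro j _
      refine fib s (j * L₁) (N + L) (N' + L₁) hs (fun y => ‖wn u N' L₁ y (s * γ)‖ ^ 2)
        (fun y => sq_nonneg _) ?_ ?_
      · have h2 : wn u N' L₁ 0 (s * γ) = 0 := by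
          unfold wn
          refine Finset.sum_eq_zero fun n hn => ?_
          rw [Finset.mem_filter, Finset.mem_Icc] at hn
          omega
        show ‖wn u N' L₁ 0 (s * γ)‖ ^ 2 = 0
        rw [h2]
        simp
      · intro y hy
        have h2 : wn u N' L₁ y (s * γ) = 0 := by
          unfold wn
          refine Finset.sum_eq_zero fun n hn => ?_
          rw [Finset.mem_filter, Finset.mem_Icc] at hn
          omega
        show ‖wn u N' L₁ y (s * γ)‖ ^ 2 = 0
        rw [h2]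
        simp
    refine (Finset.sum_le_sum h1).trans (le_of_eq ?_)
    rw [Finset.sum_const, Finset.card_range, nsmul_eq_mul]
  -- second part
  have hP2 : ∑ x ∈ Finset.Icc 1 (N + L), ∑ m ∈ (Finset.Icc 1 N').filter
        (fun m => m + G * L₁ ≤ x / s ∧ x < m * s + L), u m ^ 2 ≤
      s * L₁ * ∑ m ∈ Finset.Icc 1 N', u m ^ 2 := by
    simp_rw [Finset.sum_filter]
    rw [Finset.sum_comm, Finset.mul_sum]
    refine Finset.sum_le_sum fun m _ => ?_
    rw [← Finset.sum_filter, Finset.sum_const, nsmul_eq_mul]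
    refine mul_le_mul_of_nonneg_right ?_ (sq_nonneg _)
    exact_mod_cast rest_x s L L₁ (N + L) m hs hL₁
  have hGR : (G : ℝ) ≤ (L : ℝ) / (s * L₁) := by
    have h1 : ((L / (s * L₁) : ℕ) : ℝ) ≤ (L : ℝ) / ((s * L₁ : ℕ) : ℝ) := Nat.cast_div_le
    rw [Nat.cast_mul] at h1
    exact h1
  have hG0 : (0 : ℝ) ≤ G := Nat.cast_nonneg _
  have hG2 : (G : ℝ) ^ 2 ≤ ((L : ℝ) / (s * L₁)) ^ 2 := pow_le_pow_left₀ hG0 hGR 2
  refine hsum.trans (add_le_add ?_ ?_)
  · refine (mul_le_mul_of_nonneg_left hP1 (by positivity)).trans ?_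
    calc 2 * (G : ℝ) * (G * (s * SI u N' L₁ (s * γ))) =
          2 * s * (G : ℝ) ^ 2 * SI u N' L₁ (s * γ) := by ring
      _ ≤ 2 * s * ((L : ℝ) / (s * L₁)) ^ 2 * SI u N' L₁ (s * γ) := by
          refine mul_le_mul_of_nonneg_right ?_ hSI0
          exact mul_le_mul_of_nonneg_left hG2 (by positivity)
  · refine (mul_le_mul_of_nonneg_left hP2 (by positivity)).trans ?_
    calc 2 * (L₁ : ℝ) * (s * L₁ * ∑ m ∈ Finset.Icc 1 N', u m ^ 2) =
          2 * s * (L₁ : ℝ) ^ 2 * ∑ m ∈ Finset.Icc 1 N', u m ^ 2 := by ring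
      _ ≤ 2 * s * ((L₁ : ℝ) + 3) ^ 2 * ∑ m ∈ Finset.Icc 1 N', u m ^ 2 := by
          refine mul_le_mul_of_nonneg_right ?_ hT0
          refine mul_le_mul_of_nonneg_left ?_ (by positivity)
          exact pow_le_pow_left₀ (by positivity) (by linarith) 2

end Pool.Agent.Work.MP_122e00_nt.FP
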