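import Mathlib
import Pool.Agent.Work.MP_122e00_nt.FP.StmtsC

/-!
# Block FP, item W2 (helper39): Cauchy's inequality for `SI`
-/

namespace Pool.Agent.Work.MP_122e00_nt.FP

open Finset Filter Topology ArithmeticFunction MeasureTheory
open Pool.Agent.Work.MP_122e00_nt.TS
open scoped ArithmeticFunction.zeta ArithmeticFunction.Moebius

namespace W2x

theorem wn_lin {ι : Type} (J : Finset ι) (c : ι → ℝ) (u : ι → ℕ → ℝ) (N L x : ℕ) (γ : ℝ) :
    wn (fun n => ∑ j ∈ J, c j * u j n) N L x γ = ∑ j ∈ J, (c j : ℂ) * wn (u j) N L x γ := by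
  unfold wn
  simp_rw [Finset.mul_sum]
  rw [Finset.sum_comm]
  refine Finset.sum_congr rfl fun n _ => ?_
  push_cast
  rw [Finset.sum_mul]
  refine Finset.sum_congr rfl fun j _ => ?_
  ring

theorem point {ι : Type} (J : Finset ι) (c lam : ι → ℝ) (a : ι → ℂ)
    (hl : ∀ j ∈ J, 0 < lam j) :
    ‖∑ j ∈ J, (c j : ℂ) * a j‖ ^ 2 ≤
      (∑ j ∈ J, |c j| / lam j) * ∑ j ∈ J, |c j| * lam j * ‖a j‖ ^ 2 := by
  have h1 : ‖∑ j ∈ J, (c j : ℂ) * a j‖ ≤ ∑ j ∈ J, |c j| * ‖a j‖ := by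
    refine (norm_sum_le _ _).trans (Finset.sum_le_sum fun j _ => ?_)
    rw [norm_mul, Complex.norm_real, Real.norm_eq_abs]
  refine (pow_le_pow_left₀ (norm_nonneg _) h1 2).trans ?_
  refine Finset.sum_sq_le_sum_mul_sum_of_sq_le_mul J ?_ ?_ ?_
  · intro j hj
    exact div_nonneg (abs_nonneg _) (hl j hj).le
  · intro j hj
    exact mul_nonneg (mul_nonneg (abs_nonneg _) (hl j hj).le) (sq_nonneg _)
  · intro j hj
    have h2 := (hl j hj).ne'
    refine le_of_eq ?_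
    field_simp

end W2x

open W2x in
theorem pfW2 : fpW2 := by
  intro ι J c lam u N L γ hl
  unfold SI
  have h1 : ∀ x ∈ Finset.Icc 1 (N + L),
      ‖wn (fun n => ∑ j ∈ J, c j * u j n) N L x γ‖ ^ 2 ≤
        (∑ j ∈ J, |c j| / lam j) * ∑ j ∈ J, |c j| * lam j * ‖wn (u j) N L x γ‖ ^ 2 := by
    intro x _
    rw [wn_lin]
    exact point J c lam (fun j => wn (u j) N L x γ) hl
  refine (Finset.sum_le_sum h1).trans (le_of_eq ?_)
  rw [← Finset.mul_sum, Finset.sum_comm]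
  congr 1
  refine Finset.sum_congr rfl fun j _ => ?_
  rw [Finset.mul_sum]

end Pool.Agent.Work.MP_122e00_nt.FP
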