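import Mathlib
import Pool.Agent.Work.MP_122e00_nt.FP.StmtsC

/-! # W3: the mean square of `fS` minus its model, class by class -/

set_option autoImplicit false

namespace Pool.Agent.Work.MP_122e00_nt.FP

open Finset Filter Topology ArithmeticFunction MeasureTheory
open Pool.Agent.Work.MP_122e00_nt.TS
open scoped ArithmeticFunction.zeta ArithmeticFunction.Moebius

namespace W3x

/-- the scale of the class `i` -/
noncomputable def Hi (X : ℝ) (i : ℕ) : ℝ := Real.exp (8 * 2 ^ i * l2 X ^ 3)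

theorem Hi_8 (X : ℝ) (i : ℕ) : Hi X i ^ (1 / 8 : ℝ) = zi X i := by
  unfold Hi zi
  rw [← Real.exp_mul]
  congr 1
  ring

theorem Hi_4 (X : ℝ) (i : ℕ) : Hi X i ^ (1 / 4 : ℝ) = zi X (i + 1) := by
  unfold Hi zi
  rw [← Real.exp_mul, pow_succ]
  congr 1
  ring

theorem Hi_eta (η X : ℝ) (i : ℕ) : ⌊Hi X i ^ η⌋₊ = Qi η X i := by
  unfold Hi Qi
  rw [← Real.exp_mul]
  congr 2
  ring

/-- the decomposition into classes -/
theorem decomp (h3 : fpP3) (r : ℕ) (k : ℕ → ℝ) (E : ℕ → Polynomial ℝ) (η X : ℝ) (I S n : ℕ)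
    (hl : 0 < l2 X) :
    fS r k (zi X 0) (zi X I) S n - mS r k E η X I S n =
      ∑ j ∈ Finset.Icc 1 S ×ˢ Finset.range I, ((r : ℝ) * k j.1) *
        dil j.1 (fu r E (zi X j.2) (zi X (j.2 + 1)) (Qi η X j.2)) n := by
  have hup := (h3 X I hl).1 r
  unfold fS mS
  rw [Finset.sum_product, Finset.sum_filter, ← mul_sub, ← Finset.sum_sub_distrib, Finset.mul_sum]
  apply Finset.sum_congr rfl
  intro s _
  simp only [dil, fu]
  by_cases hsn : s ∣ n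
  · simp only [if_pos hsn]
    rw [hup (n / s), ← Finset.mul_sum, mul_assoc, ← mul_sub, Finset.sum_sub_distrib]
  · simp only [if_neg hsn]
    simp

/-- the estimate for one scale: the inputs are in exponential form -/
theorem final_rho {l h δ : ℝ} (hl : 20 ≤ l) (hlδ : 1 / δ ≤ l) (hδ : 0 < δ) (hh : l ^ 6 ≤ h) :
    2 * Real.exp (-(8 * δ * l ^ 3)) + Real.exp (-(h / 2)) ≤ Real.exp (-(3 * l ^ 2)) := by
  have hl2 : 0 ≤ l ^ 2 := by positivity
  have hl1 : 1 ≤ δ * l := by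
    rw [div_le_iff₀ hδ] at hlδ
    linarith
  have h400 : 400 ≤ l ^ 2 := by nlinarith
  have e1 : 3 * l ^ 2 + 4 ≤ 8 * δ * l ^ 3 := by
    have : 8 * δ * l ^ 3 = 8 * (δ * l) * l ^ 2 := by ring
    rw [this]
    nlinarith
  have e2 : 3 * l ^ 2 + 1 ≤ h / 2 := by
    have h6 : l ^ 6 = l ^ 2 * (l ^ 2 * l ^ 2) := by ring
    have : 160000 * l ^ 2 ≤ l ^ 6 := by
      rw [h6]
      nlinarith [mul_le_mul h400 h400 (by norm_num) hl2]
    linarith
  have e3 : Real.exp (-(8 * δ * l ^ 3)) ≤ Real.exp (-(3 * l ^ 2)) * Real.exp (-4) := by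
    rw [← Real.exp_add]
    exact Real.exp_le_exp.mpr (by linarith)
  have e4 : Real.exp (-(h / 2)) ≤ Real.exp (-(3 * l ^ 2)) * Real.exp (-1) := by
    rw [← Real.exp_add]
    exact Real.exp_le_exp.mpr (by linarith)
  have e5 : Real.exp (-4) ≤ 1 / 5 := by
    rw [Real.exp_neg, ← one_div]
    apply one_div_le_one_div_of_le (by norm_num)
    linarith [Real.add_one_le_exp (4 : ℝ)]
  have e6 : Real.exp (-1) ≤ 1 / 2 := by
    rw [Real.exp_neg, ← one_div]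
    apply one_div_le_one_div_of_le (by norm_num)
    linarith [Real.add_one_le_exp (1 : ℝ)]
  have e7 : 0 < Real.exp (-(3 * l ^ 2)) := Real.exp_pos _
  nlinarith

theorem sq_sub_le (x y : ℝ) : (x - y) ^ 2 ≤ 2 * x ^ 2 + 2 * y ^ 2 := by
  nlinarith [sq_nonneg (x + y)]

/-- the bounds for one pair `(s, i)` -/
theorem sizes {X H : ℝ} {i s : ℕ} (h2 : fpP2) (hl : 20 ≤ l2 X) (hh : l2 X ^ 6 ≤ Real.log H)
    (hHX : H ≤ X) (hH : 0 < H) (hi : i < nI X H) (hsS : s ≤ Sc H) :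
    Hi X i ≤ Real.exp (Real.log H / 100) ∧ (s : ℝ) ≤ Real.exp (Real.log H / 16) ∧
      Real.exp (8 * l2 X ^ 3) ≤ Hi X i := by
  have hl0 : 0 ≤ l2 X ^ 3 := by positivity
  have hl2 : 400 ≤ l2 X ^ 2 := by nlinarith
  have hpos2 : 0 < l2 X ^ 2 := by linarith
  have hlogH : 0 ≤ Real.log H := le_trans (by positivity) hh
  refine ⟨?_, ?_, ?_⟩
  · obtain ⟨-, -, hw, -⟩ := h2 X H (by linarith) hh hHX hH
    have hw' : Real.log (wc X H) = 2 ^ (nI X H) * l2 X ^ 3 := by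
      unfold wc zi
      rw [Real.log_exp]
    rw [hw'] at hw
    have hpow : (2 : ℝ) ^ (i + 1) ≤ 2 ^ (nI X H) := pow_le_pow_right₀ (by norm_num) hi
    unfold Hi
    apply Real.exp_le_exp.mpr
    have e1 : 8 * 2 ^ i * l2 X ^ 3 = 4 * (2 ^ (i + 1) * l2 X ^ 3) := by rw [pow_succ]; ring
    have e2 : (2 : ℝ) ^ (i + 1) * l2 X ^ 3 ≤ 2 ^ (nI X H) * l2 X ^ 3 :=
      mul_le_mul_of_nonneg_right hpow hl0
    have e3 : Real.log H / l2 X ^ 2 ≤ Real.log H / 400 :=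
      div_le_div_of_nonneg_left hlogH (by norm_num) hl2
    rw [e1]
    linarith
  · have h1 : (s : ℝ) ≤ (Sc H : ℝ) := by exact_mod_cast hsS
    have h3 : (Sc H : ℝ) ≤ H ^ (1 / 16 : ℝ) := Nat.floor_le (by positivity)
    have h4 : H ^ (1 / 16 : ℝ) = Real.exp (Real.log H / 16) := by
      rw [Real.rpow_def_of_pos hH]
      congr 1
      ring
    rw [← h4]
    exact h1.trans h3
  · unfold Hi
    apply Real.exp_le_exp.mpr
    have : (1 : ℝ) ≤ 2 ^ i := one_le_pow₀ (by norm_num)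
    nlinarith

/-- the scaled interval -/
theorem scaled {X H : ℝ} {s : ℕ} (hX : 0 < X) (hLX : 3 ≤ Real.log X) (hHX : H ≤ X) (hH : 0 < H)
    (hs1 : 1 ≤ s) (hs : (s : ℝ) ≤ Real.exp (Real.log H / 16)) :
    Real.exp (15 * Real.log X / 16) ≤ X / s ∧ X / s ≤ X ∧ 0 < X / s ∧ 1 ≤ Real.log (X / s) ∧
      Real.log (X / s) ≤ Real.log X := by
  have hs0 : (0 : ℝ) < s := by exact_mod_cast hs1
  have hs1' : (1 : ℝ) ≤ s := by exact_mod_cast hs1
  have hHX' : Real.log H ≤ Real.log X := Real.log_le_log hH hHX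
  have h1 : Real.exp (15 * Real.log X / 16) ≤ X / s := by
    rw [le_div_iff₀ hs0]
    calc Real.exp (15 * Real.log X / 16) * s
        ≤ Real.exp (15 * Real.log X / 16) * Real.exp (Real.log X / 16) := by
          apply mul_le_mul_of_nonneg_left _ (Real.exp_pos _).le
          exact hs.trans (Real.exp_le_exp.mpr (by linarith))
      _ = Real.exp (Real.log X) := by
          rw [← Real.exp_add]
          congr 1
          ring
      _ = X := Real.exp_log hX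
  have h2 : X / s ≤ X := div_le_self hX.le hs1'
  have h3 : 0 < X / s := div_pos hX hs0
  refine ⟨h1, h2, h3, ?_, Real.log_le_log h3 h2⟩
  rw [Real.le_log_iff_exp_le h3]
  exact (Real.exp_le_exp.mpr (by linarith)).trans h1

theorem exp_ge {x : ℝ} : x + 1 ≤ Real.exp x := Real.add_one_le_exp x

/-- the short windows of `fu` at the scale `X/s` -/
theorem useX16 {r : ℕ} {E : ℕ → Polynomial ℝ} {η δ A₀ X1 A : ℝ} (hδ : 0 < δ)
    (h16 : ∀ (X H γ : ℝ) (N L : ℕ), X1 ≤ X → Real.log X ^ A₀ ≤ H → H ≤ X ^ (1 / 2 : ℝ) →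
      (N : ℝ) ≤ 2 * X → H ^ (3 / 4 : ℝ) ≤ L → (L : ℝ) ≤ H →
      SI (fu r E (H ^ (1 / 8 : ℝ)) (H ^ (1 / 4 : ℝ)) ⌊H ^ η⌋₊) N L γ ≤ (L : ℝ) ^ 2 * X * H ^ (-δ))
    {X H γ : ℝ} {N i s : ℕ} (hX : 0 < X) (hLX : 3 ≤ Real.log X) (hl : 20 ≤ l2 X)
    (hHX : H ≤ X) (hH : 0 < H) (hX1 : X1 ≤ Real.exp (Real.log X / 2))
    (hA : A₀ ≤ A) (hA0 : 0 ≤ A) (hAX : Real.log X ^ A ≤ Real.exp (l2 X ^ 2))
    (hN : (N : ℝ) ≤ 2 * X) (hs1 : 1 ≤ s) (hs : (s : ℝ) ≤ Real.exp (Real.log H / 16))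
    (hHi : Hi X i ≤ Real.exp (Real.log H / 100)) (hHi2 : Real.exp (8 * l2 X ^ 3) ≤ Hi X i) :
    SI (fu r E (zi X i) (zi X (i + 1)) (Qi η X i)) (N / s) ⌊Hi X i⌋₊ (s * γ) ≤
      (⌊Hi X i⌋₊ : ℝ) ^ 2 * (X / s) * Real.exp (-(8 * δ * l2 X ^ 3)) := by
  obtain ⟨a1, a2, a3, a4, a5⟩ := scaled hX hLX hHX hH hs1 hs
  have hHX' : Real.log H ≤ Real.log X := Real.log_le_log hH hHX
  have hHi0 : 0 < Hi X i := Real.exp_pos _
  have hl3 : 8000 ≤ l2 X ^ 3 := by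
    calc (8000 : ℝ) = 20 ^ 3 := by norm_num
      _ ≤ l2 X ^ 3 := pow_le_pow_left₀ (by norm_num) hl 3
  have c1 : X1 ≤ X / s := hX1.trans ((Real.exp_le_exp.mpr (by linarith)).trans a1)
  have c2 : Real.log (X / s) ^ A₀ ≤ Hi X i := by
    calc Real.log (X / s) ^ A₀ ≤ Real.log (X / s) ^ A := Real.rpow_le_rpow_of_exponent_le a4 hA
      _ ≤ Real.log X ^ A := Real.rpow_le_rpow (by linarith) a5 hA0
      _ ≤ Real.exp (l2 X ^ 2) := hAX
      _ ≤ Real.exp (8 * l2 X ^ 3) := by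
          apply Real.exp_le_exp.mpr
          nlinarith [sq_nonneg (l2 X)]
      _ ≤ Hi X i := hHi2
  have c3 : Hi X i ≤ (X / s) ^ (1 / 2 : ℝ) := by
    calc Hi X i ≤ Real.exp (Real.log H / 100) := hHi
      _ ≤ Real.exp (15 * Real.log X / 16 * (1 / 2)) := Real.exp_le_exp.mpr (by linarith)
      _ = Real.exp (15 * Real.log X / 16) ^ (1 / 2 : ℝ) := Real.exp_mul _ _
      _ ≤ (X / s) ^ (1 / 2 : ℝ) := Real.rpow_le_rpow (Real.exp_pos _).le a1 (by norm_num)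
  have c4 : ((N / s : ℕ) : ℝ) ≤ 2 * (X / s) := by
    have hs0 : (0 : ℝ) < s := by exact_mod_cast hs1
    calc ((N / s : ℕ) : ℝ) ≤ (N : ℝ) / s := Nat.cast_div_le
      _ ≤ 2 * X / s := div_le_div_of_nonneg_right hN hs0.le
      _ = 2 * (X / s) := by ring
  have hHbig : 2 ≤ Hi X i ^ (1 / 4 : ℝ) := by
    have e1 : Hi X i ^ (1 / 4 : ℝ) = Real.exp (2 ^ (i + 1) * l2 X ^ 3) := by
      rw [Hi_4]
      rfl
    have e2 : (1 : ℝ) ≤ 2 ^ (i + 1) := one_le_pow₀ (by norm_num)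
    rw [e1]
    nlinarith [@exp_ge (2 ^ (i + 1) * l2 X ^ 3)]
  have hHsplit : Hi X i ^ (3 / 4 : ℝ) * Hi X i ^ (1 / 4 : ℝ) = Hi X i := by
    rw [← Real.rpow_add hHi0]
    norm_num
  have hH34 : 0 < Hi X i ^ (3 / 4 : ℝ) := by positivity
  have hH34b : 2 * Hi X i ^ (3 / 4 : ℝ) ≤ Hi X i := by nlinarith
  have hHi3 : 2 ≤ Hi X i := by
    have := @exp_ge (8 * l2 X ^ 3)
    linarith
  have c5 : Hi X i ^ (3 / 4 : ℝ) ≤ ((⌊Hi X i⌋₊ : ℕ) : ℝ) := by
    have := Nat.lt_floor_add_one (Hi X i)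
    linarith
  have c6 : ((⌊Hi X i⌋₊ : ℕ) : ℝ) ≤ Hi X i := Nat.floor_le hHi0.le
  have hmain := h16 (X / s) (Hi X i) (s * γ) (N / s) ⌊Hi X i⌋₊ c1 c2 c3 c4 c5 c6
  rw [Hi_8, Hi_4, Hi_eta] at hmain
  refine hmain.trans ?_
  apply mul_le_mul_of_nonneg_left _ (by positivity)
  have e3 : Hi X i ^ (-δ) ≤ Real.exp (8 * l2 X ^ 3) ^ (-δ) :=
    Real.rpow_le_rpow_of_nonpos (Real.exp_pos _) hHi2 (by linarith)
  refine e3.trans (le_of_eq ?_)
  rw [← Real.exp_mul]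
  congr 1
  ring

theorem expfin {l h c : ℝ} (hl : 20 ≤ l) (hc : 8 * c ≤ l) (hh : l ^ 6 ≤ h) :
    8 * c * Real.exp (l ^ 2) * Real.exp (h / 100) ≤ Real.exp (h / 20) := by
  have e1 : 8 * c ≤ Real.exp (l ^ 2) := by
    have := @exp_ge (l ^ 2)
    nlinarith
  have h400 : 400 ≤ l ^ 2 := by nlinarith
  have h6 : l ^ 6 = l ^ 2 * (l ^ 2 * l ^ 2) := by ring
  have h7 : 160000 * l ^ 2 ≤ l ^ 6 := by
    rw [h6]
    nlinarith [mul_le_mul h400 h400 (by norm_num) (by linarith)]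
  calc 8 * c * Real.exp (l ^ 2) * Real.exp (h / 100)
      ≤ Real.exp (l ^ 2) * Real.exp (l ^ 2) * Real.exp (h / 100) := by
        apply mul_le_mul_of_nonneg_right _ (Real.exp_pos _).le
        exact mul_le_mul_of_nonneg_right e1 (Real.exp_pos _).le
    _ = Real.exp (l ^ 2 + l ^ 2 + h / 100) := by rw [Real.exp_add, Real.exp_add]
    _ ≤ Real.exp (h / 20) := Real.exp_le_exp.mpr (by linarith)

/-- second moment of `fu` -/
theorem useX3 {r : ℕ} {E : ℕ → Polynomial ℝ} {η δs C : ℝ} (hδs : 0 < δs) (hC : 0 < C)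
    (hX3 : ∀ (X z w : ℝ) (Q a b : ℕ), 3 ≤ X → 1 ≤ w →
      w ≤ X → (Q : ℝ) ≤ X → a ≤ b → (b : ℝ) ≤ 3 * X → X ^ (1 - δs) ≤ (b : ℝ) - a →
      ∑ n ∈ Finset.Ioc a b, TS.up r z w n ^ 2 ≤ C * ((b : ℝ) - a) * Real.log X ^ C ∧
      ∑ n ∈ Finset.Ioc a b, dr r n ^ 2 ≤ C * ((b : ℝ) - a) * Real.log X ^ C ∧
      ∑ n ∈ Finset.Ioc a b, fs (Eu E z w) Q n ^ 2 ≤
        C * ((b : ℝ) - a) * Real.log X ^ C * (Q : ℝ) ^ (1 : ℝ))
    {X H : ℝ} {N i s : ℕ} (hη1 : η ≤ 1) (hX : 0 < X) (hLX : 3 ≤ Real.log X)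
    (hl : 20 ≤ l2 X) (hlC : 8 * C ≤ l2 X) (hh : l2 X ^ 6 ≤ Real.log H)
    (hHX : H ≤ X) (hH : 0 < H) (hAX : Real.log X ^ C ≤ Real.exp (l2 X ^ 2))
    (hN : (N : ℝ) ≤ 2 * X) (hs1 : 1 ≤ s) (hs : (s : ℝ) ≤ Real.exp (Real.log H / 16))
    (hHi : Hi X i ≤ Real.exp (Real.log H / 100)) (hHi2 : Real.exp (8 * l2 X ^ 3) ≤ Hi X i) :
    ∑ m ∈ Finset.Icc 1 (N / s), fu r E (zi X i) (zi X (i + 1)) (Qi η X i) m ^ 2 ≤
      (X / s) * Real.exp (Real.log H / 20) := by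
  obtain ⟨a1, a2, a3, a4, a5⟩ := scaled hX hLX hHX hH hs1 hs
  have hHX' : Real.log H ≤ Real.log X := Real.log_le_log hH hHX
  have hHi0 : 0 < Hi X i := Real.exp_pos _
  have hl3 : 8000 ≤ l2 X ^ 3 := by
    calc (8000 : ℝ) = 20 ^ 3 := by norm_num
      _ ≤ l2 X ^ 3 := pow_le_pow_left₀ (by norm_num) hl 3
  have hl0 : 0 ≤ l2 X ^ 3 := by positivity
  have h2i : (1 : ℝ) ≤ 2 ^ i := one_le_pow₀ (by norm_num)
  have hHX3 : Hi X i ≤ X / s := by
    refine hHi.trans (le_trans (Real.exp_le_exp.mpr ?_) a1)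
    linarith
  have b1 : 3 ≤ X / s := by
    have := @exp_ge (15 * Real.log X / 16)
    linarith
  have b2 : 1 ≤ zi X (i + 1) := by
    unfold zi
    exact Real.one_le_exp (by positivity)
  have b3 : zi X (i + 1) ≤ Hi X i := by
    unfold zi Hi
    apply Real.exp_le_exp.mpr
    rw [pow_succ]
    have : 0 ≤ (2 : ℝ) ^ i * l2 X ^ 3 := by positivity
    nlinarith
  have b4 : (Qi η X i : ℝ) ≤ Hi X i := by
    have : (Qi η X i : ℝ) ≤ Real.exp (8 * η * 2 ^ i * l2 X ^ 3) :=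
      Nat.floor_le (Real.exp_pos _).le
    refine this.trans ?_
    unfold Hi
    apply Real.exp_le_exp.mpr
    have : 0 ≤ (2 : ℝ) ^ i * l2 X ^ 3 := by positivity
    nlinarith
  have hb5 : ((⌊2 * (X / s)⌋₊ : ℕ) : ℝ) ≤ 2 * (X / s) := Nat.floor_le (by positivity)
  have hb6 : X / s ≤ ((⌊2 * (X / s)⌋₊ : ℕ) : ℝ) := by
    have := Nat.lt_floor_add_one (2 * (X / s))
    linarith
  have b7 : (X / s) ^ (1 - δs) ≤ ((⌊2 * (X / s)⌋₊ : ℕ) : ℝ) - ((0 : ℕ) : ℝ) := by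
    rw [Nat.cast_zero, sub_zero]
    refine le_trans ?_ hb6
    calc (X / s) ^ (1 - δs) ≤ (X / s) ^ (1 : ℝ) :=
          Real.rpow_le_rpow_of_exponent_le (by linarith) (by linarith)
      _ = X / s := Real.rpow_one _
  obtain ⟨m1, -, m3⟩ := hX3 (X / s) (zi X i) (zi X (i + 1)) (Qi η X i) 0 ⌊2 * (X / s)⌋₊ b1 b2
    (b3.trans hHX3) (b4.trans hHX3) (Nat.zero_le _) (by linarith) b7
  rw [Nat.cast_zero, sub_zero] at m1 m3
  rw [Real.rpow_one] at m3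
  have hNs : N / s ≤ ⌊2 * (X / s)⌋₊ := by
    apply Nat.le_floor
    have hs0 : (0 : ℝ) < s := by exact_mod_cast hs1
    calc ((N / s : ℕ) : ℝ) ≤ (N : ℝ) / s := Nat.cast_div_le
      _ ≤ 2 * X / s := div_le_div_of_nonneg_right hN hs0.le
      _ = 2 * (X / s) := by ring
  have hsub : Finset.Icc 1 (N / s) ⊆ Finset.Ioc 0 ⌊2 * (X / s)⌋₊ := by
    intro m hm
    rw [Finset.mem_Icc] at hm
    rw [Finset.mem_Ioc]
    omega
  have hΛ : Real.log (X / s) ^ C ≤ Real.exp (l2 X ^ 2) :=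
    (Real.rpow_le_rpow (by linarith) a5 hC.le).trans hAX
  have hΛ0 : 0 ≤ Real.log (X / s) ^ C := Real.rpow_nonneg (by linarith) _
  have hQ0 : (0 : ℝ) ≤ (Qi η X i : ℝ) := Nat.cast_nonneg _
  have hHi1 : 1 ≤ Hi X i := by
    have := @exp_ge (8 * l2 X ^ 3)
    linarith
  calc ∑ m ∈ Finset.Icc 1 (N / s), fu r E (zi X i) (zi X (i + 1)) (Qi η X i) m ^ 2
      ≤ ∑ m ∈ Finset.Ioc 0 ⌊2 * (X / s)⌋₊, fu r E (zi X i) (zi X (i + 1)) (Qi η X i) m ^ 2 :=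
        Finset.sum_le_sum_of_subset_of_nonneg hsub fun _ _ _ => sq_nonneg _
    _ ≤ ∑ m ∈ Finset.Ioc 0 ⌊2 * (X / s)⌋₊, (2 * TS.up r (zi X i) (zi X (i + 1)) m ^ 2 +
          2 * fs (Eu E (zi X i) (zi X (i + 1))) (Qi η X i) m ^ 2) :=
        Finset.sum_le_sum fun m _ => sq_sub_le _ _
    _ = 2 * ∑ m ∈ Finset.Ioc 0 ⌊2 * (X / s)⌋₊, TS.up r (zi X i) (zi X (i + 1)) m ^ 2 +
          2 * ∑ m ∈ Finset.Ioc 0 ⌊2 * (X / s)⌋₊,
            fs (Eu E (zi X i) (zi X (i + 1))) (Qi η X i) m ^ 2 := by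
        rw [Finset.sum_add_distrib, Finset.mul_sum, Finset.mul_sum]
    _ ≤ 2 * (C * ((⌊2 * (X / s)⌋₊ : ℕ) : ℝ) * Real.log (X / s) ^ C) +
          2 * (C * ((⌊2 * (X / s)⌋₊ : ℕ) : ℝ) * Real.log (X / s) ^ C * (Qi η X i : ℝ)) := by
        linarith
    _ = 2 * (C * ((⌊2 * (X / s)⌋₊ : ℕ) : ℝ)) * (Real.log (X / s) ^ C) * (1 + (Qi η X i : ℝ)) := by
        ring
    _ ≤ 2 * (C * (2 * (X / s))) * (Real.exp (l2 X ^ 2)) * (2 * Real.exp (Real.log H / 100)) := by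
        apply mul_le_mul _ _ (by positivity) (by positivity)
        · apply mul_le_mul _ hΛ hΛ0 (by positivity)
          apply mul_le_mul_of_nonneg_left _ (by norm_num)
          exact mul_le_mul_of_nonneg_left hb5 hC.le
        · linarith
    _ = (X / s) * ((8 * C) * Real.exp (l2 X ^ 2) * Real.exp (Real.log H / 100)) := by ring
    _ ≤ (X / s) * Real.exp (Real.log H / 20) := by
        apply mul_le_mul_of_nonneg_left _ a3.le
        exact expfin hl hlC hh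

/-- the second term of W1 is small -/
theorem second {L₁ h s L : ℝ} (hh : 64 ≤ h) (hL1 : 1 ≤ L₁) (hL1h : L₁ ≤ Real.exp (h / 100))
    (hs0 : 0 < s) (hs : s ≤ Real.exp (h / 16)) (hL : Real.exp (3 * h / 4) ≤ L) :
    2 * (L₁ + 3) ^ 2 * Real.exp (h / 20) ≤ (L / s) ^ 2 * Real.exp (-(h / 2)) := by
  have h1 : (L₁ + 3) ^ 2 ≤ 16 * Real.exp (h / 50) := by
    have e1 : Real.exp (h / 50) = Real.exp (h / 100) ^ 2 := by
      rw [← Real.exp_nat_mul]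
      congr 1
      push_cast
      ring
    rw [e1]
    have : L₁ + 3 ≤ 4 * Real.exp (h / 100) := by linarith
    calc (L₁ + 3) ^ 2 ≤ (4 * Real.exp (h / 100)) ^ 2 := pow_le_pow_left₀ (by linarith) this 2
      _ = 16 * Real.exp (h / 100) ^ 2 := by ring
  have h2 : Real.exp (11 * h / 16) ≤ L / s := by
    rw [le_div_iff₀ hs0]
    calc Real.exp (11 * h / 16) * s ≤ Real.exp (11 * h / 16) * Real.exp (h / 16) :=
          mul_le_mul_of_nonneg_left hs (Real.exp_pos _).le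
      _ = Real.exp (3 * h / 4) := by
          rw [← Real.exp_add]
          congr 1
          ring
      _ ≤ L := hL
  have h3 : Real.exp (11 * h / 8) ≤ (L / s) ^ 2 := by
    have e1 : Real.exp (11 * h / 8) = Real.exp (11 * h / 16) ^ 2 := by
      rw [← Real.exp_nat_mul]
      congr 1
      push_cast
      ring
    rw [e1]
    exact pow_le_pow_left₀ (Real.exp_pos _).le h2 2
  have h4 : (32 : ℝ) ≤ Real.exp (h / 2) := by
    have := @exp_ge (h / 2)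
    linarith
  calc 2 * (L₁ + 3) ^ 2 * Real.exp (h / 20) ≤ 2 * (16 * Real.exp (h / 50)) * Real.exp (h / 20) := by
        apply mul_le_mul_of_nonneg_right _ (Real.exp_pos _).le
        linarith
    _ = 32 * (Real.exp (h / 50) * Real.exp (h / 20)) := by ring
    _ ≤ Real.exp (h / 2) * (Real.exp (h / 50) * Real.exp (h / 20)) :=
        mul_le_mul_of_nonneg_right h4 (by positivity)
    _ = Real.exp (h / 2 + (h / 50 + h / 20)) := by rw [Real.exp_add, Real.exp_add]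
    _ ≤ Real.exp (11 * h / 8 + -(h / 2)) := Real.exp_le_exp.mpr (by linarith)
    _ = Real.exp (11 * h / 8) * Real.exp (-(h / 2)) := by rw [Real.exp_add]
    _ ≤ (L / s) ^ 2 * Real.exp (-(h / 2)) := mul_le_mul_of_nonneg_right h3 (Real.exp_pos _).le

/-- combination of the two terms of W1 -/
theorem combine {X s L L₁ A B e1 e2 g : ℝ} (hX : 0 < X) (hs : 0 < s) (hL₁ : 0 < L₁)
    (hA : A ≤ L₁ ^ 2 * (X / s) * e1) (hB : B ≤ (X / s) * g)
    (h2 : 2 * (L₁ + 3) ^ 2 * g ≤ (L / s) ^ 2 * e2) :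
    2 * s * (L / (s * L₁)) ^ 2 * A + 2 * s * (L₁ + 3) ^ 2 * B ≤
      L ^ 2 * X / s ^ 2 * (2 * e1 + e2) := by
  have t1 : 2 * s * (L / (s * L₁)) ^ 2 * A ≤ 2 * s * (L / (s * L₁)) ^ 2 * (L₁ ^ 2 * (X / s) * e1) :=
    mul_le_mul_of_nonneg_left hA (by positivity)
  have t2 : 2 * s * (L / (s * L₁)) ^ 2 * (L₁ ^ 2 * (X / s) * e1) = L ^ 2 * X / s ^ 2 * (2 * e1) := by
    field_simp
  have t3 : 2 * s * (L₁ + 3) ^ 2 * B ≤ 2 * s * (L₁ + 3) ^ 2 * ((X / s) * g) :=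
    mul_le_mul_of_nonneg_left hB (by positivity)
  have t4 : 2 * s * (L₁ + 3) ^ 2 * ((X / s) * g) = X * (2 * (L₁ + 3) ^ 2 * g) := by
    field_simp
  have t5 : X * (2 * (L₁ + 3) ^ 2 * g) ≤ X * ((L / s) ^ 2 * e2) :=
    mul_le_mul_of_nonneg_left h2 hX.le
  have t6 : X * ((L / s) ^ 2 * e2) = L ^ 2 * X / s ^ 2 * e2 := by
    field_simp
  calc _ ≤ L ^ 2 * X / s ^ 2 * (2 * e1) + L ^ 2 * X / s ^ 2 * e2 := by linarith
    _ = _ := by ring

theorem dr_nonneg (r n : ℕ) : 0 ≤ dr r n := by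
  unfold dr
  exact Nat.cast_nonneg _

/-- the sum of the coefficients -/
theorem coefsum (hL1 : fpL1) {r : ℕ} {k : ℕ → ℝ} {z w : ℝ} (hk : KK r z w k) {S I : ℕ} {lm : ℝ}
    (hS : 1 ≤ S) (hlm : 3 ≤ lm) (hSlm : Real.log S ≤ lm) (hI : (I : ℝ) ≤ lm) (hr : (r : ℝ) ≤ lm) :
    ∑ j ∈ Finset.Icc 1 S ×ˢ Finset.range I, |(r : ℝ) * k j.1| / (j.1 : ℝ) ≤ lm ^ (4 * r + 2) := by
  rw [Finset.sum_product]
  simp only [Finset.sum_const, Finset.card_range, nsmul_eq_mul]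
  have h1 : ∀ s ∈ Finset.Icc 1 S, (I : ℝ) * (|(r : ℝ) * k s| / (s : ℝ)) ≤
      lm * lm * (dr (2 * r) s / (s : ℝ)) := by
    intro s hs
    rw [Finset.mem_Icc] at hs
    have hs0 : (0 : ℝ) < s := by exact_mod_cast hs.1
    rw [abs_mul, Nat.abs_cast]
    have e1 : (I : ℝ) * ((r : ℝ) * |k s| / s) = (I : ℝ) * r * (|k s| / s) := by ring
    rw [e1]
    apply mul_le_mul _ _ (by positivity) (by positivity)
    · exact mul_le_mul hI hr (Nat.cast_nonneg _) (by linarith)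
    · exact div_le_div_of_nonneg_right (hk.1 s) hs0.le
  refine (Finset.sum_le_sum h1).trans ?_
  rw [← Finset.mul_sum]
  have h2 : 1 + Real.log S ≤ lm ^ 2 := by nlinarith
  have h3 : 0 ≤ 1 + Real.log S := by
    have : (1 : ℝ) ≤ S := by exact_mod_cast hS
    linarith [Real.log_nonneg this]
  calc lm * lm * ∑ s ∈ Finset.Icc 1 S, dr (2 * r) s / (s : ℝ)
      ≤ lm * lm * (1 + Real.log S) ^ (2 * r) :=
        mul_le_mul_of_nonneg_left (hL1 (2 * r) S hS) (by positivity)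
    _ ≤ lm * lm * (lm ^ 2) ^ (2 * r) :=
        mul_le_mul_of_nonneg_left (pow_le_pow_left₀ h3 h2 _) (by positivity)
    _ = lm ^ (4 * r + 2) := by
        rw [← pow_mul]
        ring

end W3x

theorem pfW3 (h1 : fpP1) (h2 : fpP2) (h3 : fpP3) (h4 : fpW1) (h5 : fpW2) (h6 : fpL1) (h7 : tsX3)
    (h8 : tsX16) : fpW3 := by
  intro r E hr hAP hCB
  obtain ⟨η₀, hη₀, hX16⟩ := h8 r E (by omega) hAP hCB (1 / 8) (1 / 2) (by norm_num) (by norm_num)
    (by norm_num) (by norm_num)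
  refine ⟨min η₀ 1, lt_min hη₀ one_pos, ?_⟩
  intro η hη hηle
  obtain ⟨δ, A₀, X1, hδ, h16⟩ := hX16 η hη (hηle.trans (min_le_left _ _))
  obtain ⟨δs, hδs, hX3'⟩ := h7 r E (by omega) hAP.1 hCB
  obtain ⟨C, hC, hX3⟩ := hX3' 1 one_pos
  -- the constant of P1
  obtain ⟨X2, hP1⟩ := h1 (20 + |A₀| + 8 * C + (8 * r + 4) + 1 / δ)
  set A : ℝ := 20 + |A₀| + 8 * C + (8 * r + 4) + 1 / δ with hA
  have hr0 : (0 : ℝ) ≤ r := Nat.cast_nonneg _
  have hδ' : 0 < 1 / δ := by positivity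
  have hA0abs := abs_nonneg A₀
  have hA20 : 20 ≤ A := by rw [hA]; linarith
  have hAA0 : A₀ ≤ A := by
    rw [hA]
    linarith [le_abs_self A₀]
  have hAC : 8 * C ≤ A := by rw [hA]; linarith
  have hAr : (8 * r + 4 : ℝ) ≤ A := by rw [hA]; linarith
  have hAδ : 1 / δ ≤ A := by rw [hA]; linarith
  refine ⟨max X2 ((max X1 1) ^ 2), ?_⟩
  intro X H γ k N L hX0 hh hHX hH hk hN hL hLH
  obtain ⟨g1, g2, g3, g4, -⟩ := hP1 X ((le_max_left _ _).trans hX0)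
  have hX : 0 < X := by linarith
  have hlog1 : 1 ≤ Real.log X := by linarith
  have hl : 20 ≤ l2 X := hA20.trans g3
  have hX1 : X1 ≤ Real.exp (Real.log X / 2) := by
    have e1 : (max X1 1) ^ 2 ≤ Real.exp (Real.log X / 2) ^ 2 := by
      rw [← Real.exp_nat_mul]
      have e2 : ((2 : ℕ) : ℝ) * (Real.log X / 2) = Real.log X := by
        push_cast
        ring
      rw [e2, Real.exp_log hX]
      exact (le_max_right _ _).trans hX0
    have e3 := (pow_le_pow_iff_left₀ (by positivity) (Real.exp_pos _).le two_ne_zero).mp e1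
    exact (le_max_left _ _).trans e3
  have hAXC : Real.log X ^ C ≤ Real.exp (l2 X ^ 2) :=
    (Real.rpow_le_rpow_of_exponent_le hlog1 (by linarith)).trans g4
  -- the sizes of H
  have hl6 : 64 ≤ l2 X ^ 6 := by
    calc (64 : ℝ) ≤ 20 ^ 6 := by norm_num
      _ ≤ l2 X ^ 6 := pow_le_pow_left₀ (by norm_num) hl 6
  have hh64 : 64 ≤ Real.log H := hl6.trans hh
  have hHX' : Real.log H ≤ Real.log X := Real.log_le_log hH hHX
  have hL' : Real.exp (3 * Real.log H / 4) ≤ L := by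
    rw [Real.rpow_def_of_pos hH] at hL
    refine le_trans (le_of_eq ?_) hL
    congr 1
    ring
  -- the level `S`
  have hS16 : H ^ (1 / 16 : ℝ) = Real.exp (Real.log H / 16) := by
    rw [Real.rpow_def_of_pos hH]
    congr 1
    ring
  have hS1 : 1 ≤ Sc H := by
    unfold Sc
    rw [hS16]
    apply Nat.le_floor
    rw [Nat.cast_one]
    exact Real.one_le_exp (by linarith)
  have hSlog : Real.log (Sc H : ℝ) ≤ Real.log X := by
    have e1 : ((Sc H : ℕ) : ℝ) ≤ Real.exp (Real.log H / 16) := by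
      rw [← hS16]
      exact Nat.floor_le (by positivity)
    have e2 : (0 : ℝ) < (Sc H : ℝ) := by exact_mod_cast hS1
    have e3 := Real.log_le_log e2 e1
    rw [Real.log_exp] at e3
    linarith
  obtain ⟨-, -, -, -, -, hI⟩ := h2 X H (by linarith) hh hHX hH
  -- the bound for one pair
  have hpair : ∀ j ∈ Finset.Icc 1 (Sc H) ×ˢ Finset.range (nI X H),
      SI (dil j.1 (fu r E (zi X j.2) (zi X (j.2 + 1)) (Qi η X j.2))) N L γ ≤
        (L : ℝ) ^ 2 * X / (j.1 : ℝ) ^ 2 *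
          (2 * Real.exp (-(8 * δ * l2 X ^ 3)) + Real.exp (-(Real.log H / 2))) := by
    intro j hj
    rw [Finset.mem_product, Finset.mem_Icc, Finset.mem_range] at hj
    obtain ⟨⟨hs1, hsS⟩, hi⟩ := hj
    obtain ⟨q1, q2, q3⟩ := W3x.sizes h2 hl hh hHX hH hi hsS
    have hs0 : (0 : ℝ) < (j.1 : ℝ) := by exact_mod_cast hs1
    have hA' := W3x.useX16 (γ := γ) (N := N) hδ h16 hX g2 hl hHX hH hX1 hAA0 (by linarith) g4 hN hs1
      q2 q1 q3
    have hB' := W3x.useX3 (N := N) hδs hC hX3 (hηle.trans (min_le_right _ _)) hX g2 hl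
      (hAC.trans g3) hh hHX hH hAXC hN hs1 q2 q1 q3
    have hl3 : 8000 ≤ l2 X ^ 3 := by
      calc (8000 : ℝ) = 20 ^ 3 := by norm_num
        _ ≤ l2 X ^ 3 := pow_le_pow_left₀ (by norm_num) hl 3
    have hHi1 : 1 ≤ W3x.Hi X j.2 := by
      have := @W3x.exp_ge (8 * l2 X ^ 3)
      linarith
    have hfl1 : 1 ≤ ⌊W3x.Hi X j.2⌋₊ := Nat.le_floor (by rwa [Nat.cast_one])
    have hfl2 : ((⌊W3x.Hi X j.2⌋₊ : ℕ) : ℝ) ≤ Real.exp (Real.log H / 100) :=
      (Nat.floor_le (by linarith)).trans q1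
    have hfl1' : (1 : ℝ) ≤ ((⌊W3x.Hi X j.2⌋₊ : ℕ) : ℝ) := by exact_mod_cast hfl1
    have hsec := W3x.second hh64 hfl1' hfl2 hs0 q2 hL'
    refine (h4 j.1 L ⌊W3x.Hi X j.2⌋₊ N _ γ hs1 hfl1).trans ?_
    exact W3x.combine hX hs0 (by linarith) hA' hB' hsec
  -- the sum
  have hfun : (fun n => fS r k (zc X) (wc X H) (Sc H) n - mS r k E η X (nI X H) (Sc H) n) =
      fun n => ∑ j ∈ Finset.Icc 1 (Sc H) ×ˢ Finset.range (nI X H), ((r : ℝ) * k j.1) *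
        dil j.1 (fu r E (zi X j.2) (zi X (j.2 + 1)) (Qi η X j.2)) n := by
    funext n
    exact W3x.decomp h3 r k E η X (nI X H) (Sc H) n (by linarith)
  rw [hfun]
  have hW2 := h5 (ℕ × ℕ) (Finset.Icc 1 (Sc H) ×ˢ Finset.range (nI X H))
    (fun j => (r : ℝ) * k j.1) (fun j => (j.1 : ℝ))
    (fun j => dil j.1 (fu r E (zi X j.2) (zi X (j.2 + 1)) (Qi η X j.2))) N L γ (by
      intro j hj
      rw [Finset.mem_product, Finset.mem_Icc] at hj
      exact_mod_cast hj.1.1)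
  refine hW2.trans ?_
  set ρ : ℝ := 2 * Real.exp (-(8 * δ * l2 X ^ 3)) + Real.exp (-(Real.log H / 2)) with hρ
  have hρ0 : 0 ≤ ρ := by positivity
  set T : ℝ := ∑ j ∈ Finset.Icc 1 (Sc H) ×ˢ Finset.range (nI X H), |(r : ℝ) * k j.1| / (j.1 : ℝ)
    with hT
  have hT0 : 0 ≤ T := Finset.sum_nonneg fun j _ => by positivity
  have hsum2 : ∑ j ∈ Finset.Icc 1 (Sc H) ×ˢ Finset.range (nI X H), |(r : ℝ) * k j.1| * (j.1 : ℝ) *
      SI (dil j.1 (fu r E (zi X j.2) (zi X (j.2 + 1)) (Qi η X j.2))) N L γ ≤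
      T * ((L : ℝ) ^ 2 * X * ρ) := by
    rw [hT, Finset.sum_mul]
    apply Finset.sum_le_sum
    intro j hj
    have hj' := hpair j hj
    rw [Finset.mem_product, Finset.mem_Icc] at hj
    have hs0 : (0 : ℝ) < (j.1 : ℝ) := by exact_mod_cast hj.1.1
    calc |(r : ℝ) * k j.1| * (j.1 : ℝ) * SI (dil j.1 (fu r E (zi X j.2) (zi X (j.2 + 1)) (Qi η X j.2))) N L γ
        ≤ |(r : ℝ) * k j.1| * (j.1 : ℝ) * ((L : ℝ) ^ 2 * X / (j.1 : ℝ) ^ 2 * ρ) :=
          mul_le_mul_of_nonneg_left hj' (by positivity)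
      _ = |(r : ℝ) * k j.1| / (j.1 : ℝ) * ((L : ℝ) ^ 2 * X * ρ) := by
          field_simp
  have hrΛ : (r : ℝ) ≤ Real.log X := by
    have e1 : l2 X ≤ Real.log X := by
      have := Real.add_one_le_exp (l2 X)
      have e2 : Real.exp (l2 X) = Real.log X := Real.exp_log (by linarith)
      linarith
    linarith
  have hTb : T ≤ Real.log X ^ (4 * r + 2) := W3x.coefsum h6 hk hS1 g2 hSlog hI hrΛ
  have hT2 : T * T ≤ Real.exp (l2 X ^ 2) := by
    calc T * T ≤ Real.log X ^ (4 * r + 2) * Real.log X ^ (4 * r + 2) :=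
          mul_le_mul hTb hTb hT0 (by positivity)
      _ = Real.log X ^ (((8 * r + 4 : ℕ) : ℝ)) := by
          rw [Real.rpow_natCast, ← pow_add]
          congr 1
          ring
      _ ≤ Real.log X ^ A := by
          apply Real.rpow_le_rpow_of_exponent_le hlog1
          push_cast
          exact hAr
      _ ≤ Real.exp (l2 X ^ 2) := g4
  have hρ3 : ρ ≤ Real.exp (-(3 * l2 X ^ 2)) := W3x.final_rho hl (hAδ.trans g3) hδ hh
  calc T * ∑ j ∈ Finset.Icc 1 (Sc H) ×ˢ Finset.range (nI X H), |(r : ℝ) * k j.1| * (j.1 : ℝ) *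
        SI (dil j.1 (fu r E (zi X j.2) (zi X (j.2 + 1)) (Qi η X j.2))) N L γ
      ≤ T * (T * ((L : ℝ) ^ 2 * X * ρ)) := mul_le_mul_of_nonneg_left hsum2 hT0
    _ = (L : ℝ) ^ 2 * X * ((T * T) * ρ) := by ring
    _ ≤ (L : ℝ) ^ 2 * X * (Real.exp (l2 X ^ 2) * Real.exp (-(3 * l2 X ^ 2))) := by
        apply mul_le_mul_of_nonneg_left _ (by positivity)
        exact mul_le_mul hT2 hρ3 hρ0 (Real.exp_pos _).le
    _ = (L : ℝ) ^ 2 * X * Real.exp (-(2 * l2 X ^ 2)) := by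
        rw [← Real.exp_add]
        congr 2
        ring

end Pool.Agent.Work.MP_122e00_nt.FP
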