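import Pool.Agent.Work.MP_122e00_nt.FP.StmtsC

namespace Pool.Agent.Work.MP_122e00_nt.FP

open Finset Filter Topology ArithmeticFunction MeasureTheory
open Pool.Agent.Work.MP_122e00_nt.TS
open scoped ArithmeticFunction.zeta ArithmeticFunction.Moebius

namespace W4x

theorem wn_add (u v : ℕ → ℝ) (N L x : ℕ) (γ : ℝ) :
    wn (fun n => u n + v n) N L x γ = wn u N L x γ + wn v N L x γ := by
  unfold wn
  rw [← Finset.sum_add_distrib]
  refine Finset.sum_congr rfl fun n _ => ?_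
  push_cast
  ring

theorem SI_add (u v : ℕ → ℝ) (N L : ℕ) (γ : ℝ) :
    SI (fun n => u n + v n) N L γ ≤ 2 * SI u N L γ + 2 * SI v N L γ := by
  unfold SI
  rw [Finset.mul_sum, Finset.mul_sum, ← Finset.sum_add_distrib]
  refine Finset.sum_le_sum fun x _ => ?_
  rw [wn_add]
  have h1 := norm_add_le (wn u N L x γ) (wn v N L x γ)
  have h2 : 0 ≤ ‖wn u N L x γ + wn v N L x γ‖ := norm_nonneg _
  have h3 : ‖wn u N L x γ + wn v N L x γ‖ ^ 2 ≤ (‖wn u N L x γ‖ + ‖wn v N L x γ‖) ^ 2 :=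
    pow_le_pow_left₀ h2 h1 2
  nlinarith [sq_nonneg (‖wn u N L x γ‖ - ‖wn v N L x γ‖)]

end W4x

theorem pfW4 (h1 : fpW3) (h2 : fpM10) (h3 : fpP1) : fpW4 := by
  intro r E hr hAP hCB
  obtain ⟨η₁, hη₁, hW⟩ := h1 r E hr hAP hCB
  refine ⟨min η₁ (1 / 100), lt_min hη₁ (by norm_num), ?_⟩
  intro η hη hη2
  obtain ⟨X1, hX1⟩ := hW η hη (hη2.trans (min_le_left _ _))
  obtain ⟨X2, hX2⟩ := h2 r E hr hAP hCB η hη (hη2.trans (min_le_right _ _))
  obtain ⟨X3, hX3⟩ := h3 2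
  refine ⟨max X1 (max X2 X3), ?_⟩
  intro X H γ k N L hX hl hHX hH hK hN hL1 hL2
  have hXa : X1 ≤ X := (le_max_left _ _).trans hX
  have hXb : X2 ≤ X := ((le_max_left _ _).trans (le_max_right _ _)).trans hX
  have hXc : X3 ≤ X := ((le_max_right _ _).trans (le_max_right _ _)).trans hX
  obtain ⟨h16, -, hl2, -, -⟩ := hX3 X hXc
  have hXpos : (0 : ℝ) < X := by linarith
  have hu := hX1 X H γ k N L hXa hl hHX hH hK hN hL1 hL2
  have hv := fun x => hX2 X H γ k N L x hXb hl hHX hH hK hN hL1 hL2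
  set u : ℕ → ℝ := fun n => fS r k (zc X) (wc X H) (Sc H) n - mS r k E η X (nI X H) (Sc H) n
    with hudef
  set v : ℕ → ℝ := fun n => mS r k E η X (nI X H) (Sc H) n -
    fs (E0 r k E (zc X) (wc X H) (Sc H)) (Qc (4 * η) X) n with hvdef
  have hfb : fb r k E (zc X) (wc X H) (Sc H) (Qc (4 * η) X) = fun n => u n + v n := by
    funext n
    simp only [hudef, hvdef]
    unfold fb
    ring
  rw [hfb]
  refine (W4x.SI_add u v N L γ).trans ?_
  have hLX : (L : ℝ) ≤ X := hL2.trans hHX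
  have hL0 : (0 : ℝ) ≤ L := Nat.cast_nonneg L
  set e := Real.exp (-(l2 X ^ 2)) with he
  have e2 : Real.exp (-(2 * l2 X ^ 2)) = e ^ 2 := by
    rw [he, ← Real.exp_nat_mul]
    congr 1
    push_cast
    ring
  have hepos : 0 < e := Real.exp_pos _
  have hesmall : e ≤ 1 / 8 := by
    have h4 : (3 : ℝ) ≤ l2 X ^ 2 := by nlinarith
    have h5 : e ≤ Real.exp (-3) := Real.exp_le_exp.2 (by linarith)
    have h6 : (8 : ℝ) ≤ Real.exp 3 := by
      have h7 : (2 : ℝ) ≤ Real.exp 1 := by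
        have := Real.add_one_le_exp (1 : ℝ)
        linarith
      have h8 : Real.exp 3 = Real.exp 1 ^ 3 := by
        rw [← Real.exp_nat_mul]
        norm_num
      rw [h8]
      nlinarith [mul_nonneg (sub_nonneg.2 h7) (sub_nonneg.2 h7),
        mul_nonneg (mul_nonneg (sub_nonneg.2 h7) (sub_nonneg.2 h7)) (sub_nonneg.2 h7)]
    have h9 : Real.exp (-3) ≤ 1 / 8 := by
      rw [Real.exp_neg, inv_eq_one_div]
      exact one_div_le_one_div_of_le (by norm_num) h6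
    linarith
  rw [e2] at hu hv
  have hSv : SI v N L γ ≤ (3 * X) * ((L : ℝ) * e ^ 2) ^ 2 := by
    unfold SI
    have h4 : ∀ x ∈ Finset.Icc 1 (N + L), ‖wn v N L x γ‖ ^ 2 ≤ ((L : ℝ) * e ^ 2) ^ 2 :=
      fun x _ => pow_le_pow_left₀ (norm_nonneg _) (hv x) 2
    refine (Finset.sum_le_card_nsmul _ _ _ h4).trans ?_
    rw [nsmul_eq_mul, Nat.card_Icc]
    refine mul_le_mul_of_nonneg_right ?_ (by positivity)
    have h5 : ((N + L + 1 - 1 : ℕ) : ℝ) = (N : ℝ) + L := by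
      rw [Nat.add_sub_cancel]
      push_cast
      ring
    rw [h5]
    linarith
  have hfac : 2 * e ^ 2 + 6 * e ^ 4 ≤ e := by
    have h6 : 2 * e + 6 * e ^ 3 ≤ 1 := by
      have h7 : e ^ 3 ≤ (1 / 8) ^ 3 := pow_le_pow_left₀ hepos.le hesmall 3
      norm_num at h7
      linarith
    nlinarith [mul_le_mul_of_nonneg_left h6 hepos.le]
  calc 2 * SI u N L γ + 2 * SI v N L γ
      ≤ 2 * ((L : ℝ) ^ 2 * X * e ^ 2) + 2 * ((3 * X) * ((L : ℝ) * e ^ 2) ^ 2) := by linarith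
    _ = (L : ℝ) ^ 2 * X * (2 * e ^ 2 + 6 * e ^ 4) := by ring
    _ ≤ (L : ℝ) ^ 2 * X * e := mul_le_mul_of_nonneg_left hfac (by positivity)

end Pool.Agent.Work.MP_122e00_nt.FP
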