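import Mathlib
import Pool.Agent.Work.MP_122e00_nt.FP.StmtsB

/-!
# Full polynomial, item WT2 (helper41): the induction step of Weyl's inequality
-/

set_option autoImplicit false

namespace Pool.Agent.Work.MP_122e00_nt.FP

open Finset Filter Topology ArithmeticFunction MeasureTheory
open Pool.Agent.Work.MP_122e00_nt.TS
open scoped ArithmeticFunction.zeta ArithmeticFunction.Moebius

namespace WT2x

/-- the difference polynomial `f(x + h) - f(x)` -/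
noncomputable def gh (f : Polynomial ℝ) (h : ℝ) : Polynomial ℝ := Polynomial.taylor h f - f

theorem gh_eval (f : Polynomial ℝ) (h x : ℝ) : (gh f h).eval x = f.eval (x + h) - f.eval x := by
  unfold gh
  rw [Polynomial.eval_sub, Polynomial.taylor_eval, add_comm]

theorem hasse_top {f : Polynomial ℝ} {d n : ℕ} (hf : f.natDegree ≤ d + 1) (hn : d < n) :
    Polynomial.hasseDeriv n f = Polynomial.C (f.coeff n) := by
  ext k
  rw [Polynomial.hasseDeriv_coeff, Polynomial.coeff_C]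
  split_ifs with h
  · subst h
    simp
  · rw [Polynomial.coeff_eq_zero_of_natDegree_lt (by omega), mul_zero]

theorem hasse_snd {f : Polynomial ℝ} {d : ℕ} (hf : f.natDegree ≤ d + 1) :
    Polynomial.hasseDeriv d f = Polynomial.C (f.coeff d) +
      Polynomial.C (((d : ℝ) + 1) * f.coeff (d + 1)) * Polynomial.X := by
  ext k
  rw [Polynomial.hasseDeriv_coeff, Polynomial.coeff_add, Polynomial.coeff_C, Polynomial.coeff_C_mul,
    Polynomial.coeff_X]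
  rcases k with _ | _ | k
  · simp
  · have h1 : 0 + 1 + d = d + 1 := by omega
    rw [h1, Nat.choose_symm_of_eq_add (a := d) (b := 1) rfl, Nat.choose_one_right]
    simp
  · rw [Polynomial.coeff_eq_zero_of_natDegree_lt (by omega)]
    simp

theorem gh_natDegree {f : Polynomial ℝ} {d : ℕ} (hf : f.natDegree ≤ d + 1) (h : ℝ) :
    (gh f h).natDegree ≤ d := by
  rw [Polynomial.natDegree_le_iff_coeff_eq_zero]
  intro n hn
  unfold gh
  rw [Polynomial.coeff_sub, Polynomial.taylor_coeff, hasse_top hf hn, Polynomial.eval_C, sub_self]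

theorem gh_coeff {f : Polynomial ℝ} {d : ℕ} (hf : f.natDegree ≤ d + 1) (h : ℝ) :
    (gh f h).coeff d = ((d : ℝ) + 1) * h * f.coeff (d + 1) := by
  unfold gh
  rw [Polynomial.coeff_sub, Polynomial.taylor_coeff, hasse_snd hf, Polynomial.eval_add, Polynomial.eval_C,
    Polynomial.eval_mul, Polynomial.eval_C, Polynomial.eval_X]
  ring

/-- the two definitions of `e(x)` agree -/
theorem eeq : Pool.Agent.Work.MP_122e00_nt.ee = TS.ee := by
  funext x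
  unfold Pool.Agent.Work.MP_122e00_nt.ee TS.ee
  push_cast
  rfl

theorem norm_ee (x : ℝ) : ‖Pool.Agent.Work.MP_122e00_nt.ee x‖ = 1 := by
  rw [eeq]
  unfold TS.ee
  exact Complex.norm_exp_ofReal_mul_I _

theorem nn_le (x : ℝ) (m : ℤ) : nn x ≤ |x - m| := by
  unfold nn
  exact round_le x m

/-- the new constant -/
def CC (d C : ℕ) : ℕ := (200 * (d + 1) * C ^ 2 * 16 ^ C) ^ (d + 1) + (4 * C + 2) * (d + 1)

theorem bd (d C : ℕ) (T : ℝ) (hT : 1 ≤ T) :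
    (200 * ((d : ℝ) + 1) * (T ^ 2 * (C * (4 * T ^ 2) ^ C) ^ 2)) ^ (d + 1) ≤ CC d C * T ^ CC d C := by
  have e1 : 200 * ((d : ℝ) + 1) * (T ^ 2 * (C * (4 * T ^ 2) ^ C) ^ 2) =
      (200 * ((d : ℝ) + 1) * (C : ℝ) ^ 2 * 16 ^ C) * T ^ (4 * C + 2) := by
    have e2 : (16 : ℝ) ^ C = 4 ^ C * 4 ^ C := by rw [← mul_pow]; norm_num
    have e3 : T ^ (4 * C + 2) = T ^ 2 * (T ^ (2 * C) * T ^ (2 * C)) := by
      rw [← pow_add, ← pow_add]; congr 1; omega
    rw [e2, e3, mul_pow (4 : ℝ) (T ^ 2) C, ← pow_mul T 2 C]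
    ring
  rw [e1, mul_pow, ← pow_mul]
  have hD : (200 * ((d : ℝ) + 1) * (C : ℝ) ^ 2 * 16 ^ C) ^ (d + 1) ≤ (CC d C : ℝ) := by
    have h : (200 * (d + 1) * C ^ 2 * 16 ^ C) ^ (d + 1) ≤ CC d C := Nat.le_add_right _ _
    have h2 : (((200 * (d + 1) * C ^ 2 * 16 ^ C) ^ (d + 1) : ℕ) : ℝ) ≤ (CC d C : ℝ) := by exact_mod_cast h
    push_cast at h2
    exact h2
  exact mul_le_mul hD (pow_le_pow_right₀ hT (Nat.le_add_left _ _)) (by positivity) (Nat.cast_nonneg _)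

/-- the main case: `K` is large -/
theorem main (h2 : tsW2) (h3 : tsW3) (d C : ℕ) (hd : 1 ≤ d) (hC : 1 ≤ C) (K : ℕ) (T : ℝ) (hK : 1 ≤ K)
    (hT : 1 ≤ T) (Q : ℝ) (hQ : Q = C * (4 * T ^ 2) ^ C)
    (hW : ∀ f : Polynomial ℝ, f.natDegree ≤ d → ∀ A B : ℕ, B ≤ A + K →
      (K : ℝ) / (4 * T ^ 2) ≤ ‖∑ k ∈ Finset.Ioc A B, ee (f.eval (k : ℝ))‖ →
      ∃ q : ℕ, 1 ≤ q ∧ (q : ℝ) ≤ Q ∧ ∃ m : ℤ, |(q : ℝ) * f.coeff d - m| ≤ Q / (K : ℝ) ^ d)
    (hKQ : 200 * T ^ 2 * Q ^ 2 ≤ K)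
    (f : Polynomial ℝ) (hf : f.natDegree ≤ d + 1) (A B : ℕ) (hAB : B ≤ A + K)
    (hS : (K : ℝ) / T ≤ ‖∑ k ∈ Finset.Ioc A B, ee (f.eval (k : ℝ))‖) :
    ∃ q : ℕ, 1 ≤ q ∧ (q : ℝ) ≤ 96 * ((d : ℝ) + 1) * (T ^ 2 * Q ^ 2) ∧
      ∃ m : ℤ, |(q : ℝ) * f.coeff (d + 1) - m| ≤ 8 * (T ^ 2 * Q ^ 2) / (K : ℝ) ^ (d + 1) := by
  have hKpos : (0 : ℝ) < K := by exact_mod_cast hK
  have hK1 : (1 : ℝ) ≤ K := by exact_mod_cast hK
  have hTpos : 0 < T := by linarith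
  have hT2 : 1 ≤ T ^ 2 := one_le_pow₀ hT
  have hT2pos : 0 < T ^ 2 := by positivity
  have hC1 : (1 : ℝ) ≤ C := by exact_mod_cast hC
  have hQ1 : 1 ≤ Q := by
    have : 1 ≤ (4 * T ^ 2) ^ C := one_le_pow₀ (by linarith)
    rw [hQ]
    nlinarith
  have hQpos : 0 < Q := by linarith
  have hQ2 : 1 ≤ Q ^ 2 := one_le_pow₀ hQ1
  have hK8 : 8 * T ^ 2 ≤ K := by nlinarith
  -- the sums for the differences
  set Sh : ℕ → ℝ := fun h => ‖∑ k ∈ Finset.Ioc A (B - h), ee ((gh f h).eval (k : ℝ))‖ with hSh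
  have hW2 : ‖∑ k ∈ Finset.Ioc A B, ee (f.eval (k : ℝ))‖ ^ 2 ≤ (K : ℝ) + 2 * ∑ h ∈ Finset.Icc 1 K, Sh h := by
    have h4 := h2 (fun k => f.eval (k : ℝ)) K A B hAB
    rw [← eeq] at h4
    refine h4.trans (le_of_eq ?_)
    congr 2
    refine Finset.sum_congr rfl fun h _ => ?_
    rw [hSh]
    simp only
    congr 1
    refine Finset.sum_congr rfl fun k _ => ?_
    rw [gh_eval]
    push_cast
    rfl
  have hShK : ∀ h, Sh h ≤ K := by
    intro h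
    rw [hSh]
    simp only
    refine (norm_sum_le _ _).trans ?_
    simp only [norm_ee, Finset.sum_const, nsmul_eq_mul, mul_one, Nat.card_Ioc]
    exact_mod_cast (by omega : B - h - A ≤ K)
  obtain ⟨R, hR⟩ : ∃ R, R = (K : ℝ) / (4 * T ^ 2) := ⟨_, rfl⟩
  have hR0 : 0 ≤ R := by rw [hR]; positivity
  have hRT : R * (4 * T ^ 2) = K := by rw [hR]; field_simp
  set Hs : Finset ℕ := (Finset.Icc 1 K).filter (fun h => R ≤ Sh h) with hHs
  have hsum : ∑ h ∈ Finset.Icc 1 K, Sh h ≤ Hs.card * K + K * R := by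
    rw [← Finset.sum_filter_add_sum_filter_not (Finset.Icc 1 K) (fun h => R ≤ Sh h)]
    refine add_le_add ?_ ?_
    · rw [← nsmul_eq_mul]
      exact Finset.sum_le_card_nsmul _ _ _ (fun h _ => hShK h)
    · have h5 : ∑ h ∈ (Finset.Icc 1 K).filter (fun h => ¬ R ≤ Sh h), Sh h ≤
          ((Finset.Icc 1 K).filter (fun h => ¬ R ≤ Sh h)).card • R :=
        Finset.sum_le_card_nsmul _ _ _ (fun h hh => (not_le.1 (Finset.mem_filter.1 hh).2).le)
      refine h5.trans ?_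
      rw [nsmul_eq_mul]
      apply mul_le_mul_of_nonneg_right _ hR0
      have h6 := Finset.card_filter_le (Finset.Icc 1 K) (fun h => ¬ R ≤ Sh h)
      rw [Nat.card_Icc] at h6
      exact_mod_cast (by omega : ((Finset.Icc 1 K).filter (fun h => ¬ R ≤ Sh h)).card ≤ K)
  -- the number of large sums
  have hn1 : R / 2 ≤ Hs.card := by
    have e1 : ((K : ℝ) / T) ^ 2 ≤ (K : ℝ) + 2 * (Hs.card * K + K * R) :=
      (pow_le_pow_left₀ (by positivity) hS 2).trans (hW2.trans (by linarith))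
    have e2 : ((K : ℝ) / T) ^ 2 = K * (4 * R) := by
      rw [hR]
      field_simp
    rw [e2] at e1
    have e6 : (K : ℝ) * (4 * R) ≤ K * (1 + 2 * (Hs.card + R)) := by
      refine e1.trans (le_of_eq ?_)
      ring
    have e7 := le_of_mul_le_mul_left e6 hKpos
    have e8 : 2 ≤ R := by
      have : 2 * (4 * T ^ 2) ≤ R * (4 * T ^ 2) := by rw [hRT]; linarith
      exact le_of_mul_le_mul_right this (by positivity)
    linarith
  -- the denominators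
  have hq : ∀ h ∈ Hs, ∃ q : ℕ, q ∈ Finset.Icc 1 ⌊Q⌋₊ ∧
      nn ((q : ℝ) * (((d : ℝ) + 1) * f.coeff (d + 1)) * (h : ℕ)) ≤ Q / (K : ℝ) ^ d := by
    intro h hh
    rw [hHs, Finset.mem_filter] at hh
    obtain ⟨q, q1, q2, m, hm⟩ := hW (gh f h) (gh_natDegree hf h) A (B - h) (by omega)
      (hR ▸ hh.2)
    refine ⟨q, Finset.mem_Icc.2 ⟨q1, Nat.le_floor q2⟩, ?_⟩
    refine (nn_le _ m).trans (le_trans (le_of_eq ?_) hm)
    rw [gh_coeff hf]
    congr 1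
    ring
  choose! qf hqf1 hqf2 using hq
  have hfl : 1 ≤ ⌊Q⌋₊ := Nat.le_floor (by exact_mod_cast hQ1)
  obtain ⟨κ, hκ⟩ : ∃ κ, κ = 1 / (8 * T ^ 2 * Q) := ⟨_, rfl⟩
  have hκ0 : 0 < κ := by rw [hκ]; positivity
  have hκe : κ * (8 * T ^ 2 * Q) = 1 := by rw [hκ]; field_simp
  have hTQ : 1 ≤ T ^ 2 * Q := by nlinarith
  have hκ1 : κ ≤ 1 := by nlinarith
  have hpig : ∃ y ∈ Finset.Icc 1 ⌊Q⌋₊, κ * K ≤ ((Hs.filter (fun h => qf h = y)).card : ℝ) := by
    refine Finset.exists_le_card_fiber_of_nsmul_le_card_of_maps_to (fun h hh => hqf1 h hh)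
      ⟨1, Finset.mem_Icc.2 ⟨le_rfl, hfl⟩⟩ ?_
    rw [nsmul_eq_mul, Nat.card_Icc, Nat.add_sub_cancel]
    refine le_trans ?_ hn1
    have e1 : (⌊Q⌋₊ : ℝ) ≤ Q := Nat.floor_le hQpos.le
    refine (mul_le_mul_of_nonneg_right e1 (by positivity)).trans (le_of_eq ?_)
    rw [hκ, hR]
    field_simp
    norm_num
  obtain ⟨q, hq1, hqc⟩ := hpig
  rw [Finset.mem_Icc] at hq1
  have hqK : (q : ℝ) ≤ Q := le_trans (by exact_mod_cast hq1.2) (Nat.floor_le hQpos.le)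
  obtain ⟨β, hβ⟩ : ∃ β, β = (q : ℝ) * (((d : ℝ) + 1) * f.coeff (d + 1)) := ⟨_, rfl⟩
  have hcount : κ * K ≤ (((Finset.Icc 1 K).filter (fun h => nn (β * (h : ℕ)) ≤ Q / (K : ℝ) ^ d)).card : ℝ) := by
    refine hqc.trans ?_
    have hsub : Hs.filter (fun h => qf h = q) ⊆
        (Finset.Icc 1 K).filter (fun h => nn (β * (h : ℕ)) ≤ Q / (K : ℝ) ^ d) := by
      intro h hh
      rw [Finset.mem_filter] at hh
      have h7 := hqf2 h hh.1
      rw [hh.2, ← hβ] at h7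
      rw [Finset.mem_filter]
      exact ⟨(Finset.mem_filter.1 hh.1).1, h7⟩
    exact_mod_cast Finset.card_le_card hsub
  have hεκ : Q / (K : ℝ) ^ d ≤ κ / 25 := by
    have e1 : 200 * T ^ 2 * Q ^ 2 ≤ (K : ℝ) ^ d := hKQ.trans (le_self_pow₀ hK1 (by omega))
    rw [div_le_iff₀ (by positivity)]
    calc Q = κ / 25 * (200 * T ^ 2 * Q ^ 2) := by linear_combination (-Q) * hκe
      _ ≤ κ / 25 * (K : ℝ) ^ d := mul_le_mul_of_nonneg_left e1 (by positivity)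
  obtain ⟨q2, b1, b2, m, hm⟩ := h3 β κ (Q / (K : ℝ) ^ d) K hK hκ0 hκ1 (by positivity) hεκ hcount
  refine ⟨q2 * q * (d + 1), Nat.mul_pos (Nat.mul_pos b1 hq1.1) (Nat.succ_pos d), ?_, m, ?_⟩
  · push_cast
    have e1 : 12 / κ = 96 * T ^ 2 * Q := by
      rw [div_eq_iff hκ0.ne']
      linear_combination (-12) * hκe
    have e3 : (q2 : ℝ) * q ≤ 96 * T ^ 2 * Q * Q := by
      rw [e1] at b2
      exact mul_le_mul b2 hqK (Nat.cast_nonneg _) (by positivity)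
    calc (q2 : ℝ) * q * ((d : ℝ) + 1) ≤ 96 * T ^ 2 * Q * Q * ((d : ℝ) + 1) :=
          mul_le_mul_of_nonneg_right e3 (by positivity)
      _ = 96 * ((d : ℝ) + 1) * (T ^ 2 * Q ^ 2) := by ring
  · have e1 : ((q2 * q * (d + 1) : ℕ) : ℝ) * f.coeff (d + 1) - m = q2 * β - m := by
      rw [hβ]
      push_cast
      ring
    rw [e1]
    refine hm.trans (le_of_eq ?_)
    rw [hκ]
    field_simp
    ring

end WT2x

open WT2x in
/-- WT2 -/
theorem pfWT2 (h2 : tsW2) (h3 : tsW3) : fpWT2 := by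
  intro d hd hW
  obtain ⟨C, hC, hW⟩ := hW
  refine ⟨CC d C, ?_, ?_⟩
  · have : 1 ≤ (4 * C + 2) * (d + 1) := Nat.mul_pos (by omega) (Nat.succ_pos d)
    exact this.trans (Nat.le_add_left _ _)
  intro K T hK hT f hf A B hAB hS
  obtain ⟨Q, hQ⟩ : ∃ Q, Q = C * (4 * T ^ 2) ^ C := ⟨_, rfl⟩
  have hb := bd d C T hT
  rw [← hQ] at hb
  have hT2 : 1 ≤ T ^ 2 := one_le_pow₀ hT
  have hC1 : (1 : ℝ) ≤ C := by exact_mod_cast hC
  have hQ1 : 1 ≤ Q := by
    have : 1 ≤ (4 * T ^ 2) ^ C := one_le_pow₀ (by linarith)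
    rw [hQ]
    nlinarith
  have hQ2 : 1 ≤ Q ^ 2 := one_le_pow₀ hQ1
  obtain ⟨Z, hZ⟩ : ∃ Z, Z = T ^ 2 * Q ^ 2 := ⟨_, rfl⟩
  rw [← hZ] at hb
  have hZ1 : 1 ≤ Z := by rw [hZ]; nlinarith
  have hd0 : (0 : ℝ) ≤ d := Nat.cast_nonneg _
  have hdZ : Z ≤ ((d : ℝ) + 1) * Z := by nlinarith
  have hb1 : 200 * ((d : ℝ) + 1) * Z ≤ CC d C * T ^ CC d C :=
    (le_self_pow₀ (by nlinarith) (by omega)).trans hb
  have hKpos : (0 : ℝ) < K := by exact_mod_cast hK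
  rcases le_or_gt (200 * T ^ 2 * Q ^ 2) (K : ℝ) with hKQ | hKQ
  · have hT4 : (1 : ℝ) ≤ 4 * T ^ 2 := by linarith
    obtain ⟨q, q1, q2, m, hm⟩ := main h2 h3 d C hd hC K T hK hT Q hQ
      (fun f hf A B hAB hS => by
        have := hW K (4 * T ^ 2) hK hT4 f hf A B hAB hS
        rw [← hQ] at this
        exact this) hKQ f hf A B hAB hS
    rw [← hZ] at q2 hm
    refine ⟨q, q1, ?_, m, hm.trans ?_⟩
    · linarith
    · apply div_le_div_of_nonneg_right _ (by positivity)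
      linarith
  · refine ⟨1, le_rfl, ?_, round (f.coeff (d + 1)), ?_⟩
    · push_cast
      linarith
    · rw [le_div_iff₀ (by positivity), Nat.cast_one, one_mul]
      have e1 : |f.coeff (d + 1) - round (f.coeff (d + 1))| ≤ 1 := (abs_sub_round _).trans (by norm_num)
      have e2 : (K : ℝ) ^ (d + 1) ≤ CC d C * T ^ CC d C := by
        refine le_trans (pow_le_pow_left₀ hKpos.le ?_ _) hb
        rw [hZ] at hdZ ⊢
        nlinarith
      calc |f.coeff (d + 1) - round (f.coeff (d + 1))| * (K : ℝ) ^ (d + 1) ≤ 1 * (K : ℝ) ^ (d + 1) :=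
            mul_le_mul_of_nonneg_right e1 (by positivity)
        _ ≤ CC d C * T ^ CC d C := by rw [one_mul]; exact e2

end Pool.Agent.Work.MP_122e00_nt.FP
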