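import Pool.Agent.Work.MP_122e00_nt.FP.StmtsD

/-!
# Full polynomial, item X0: the bilinear identity
-/

set_option autoImplicit false

namespace Pool.Agent.Work.MP_122e00_nt.FP

open Finset Filter Topology ArithmeticFunction
open Pool.Agent.Work.MP_122e00_nt.TS

theorem pfX0 : fpX0 := by
  intro d f m b N h hf
  unfold cor
  simp only [← Finset.sum_add_distrib, ← Finset.sum_sub_distrib]
  refine Finset.sum_congr rfl fun n _ => ?_
  simp only [hf]
  ring

end Pool.Agent.Work.MP_122e00_nt.FP
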