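import Pool.Agent.Work.MP_122e00_nt.FP.StmtsD
import Pool.Agent.Work.MP_122e00_nt.FP.I_G2

set_option autoImplicit false

/-!
# Item X1a: the unstructured part
-/

namespace Pool.Agent.Work.MP_122e00_nt.FP

open Finset Filter Topology ArithmeticFunction MeasureTheory
open Pool.Agent.Work.MP_122e00_nt.TS
open scoped ArithmeticFunction.zeta ArithmeticFunction.Moebius

namespace X1ax

open G2x

theorem fr_le (h4 : fpA1) (r : ℕ) (hr : 1 ≤ r) (k : ℕ → ℝ) (X H : ℝ)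
    (hk : KK r (zc X) (wc X H) k) (n : ℕ) (hn : 1 ≤ n) :
    |fr r k X H n| ≤ dfree r (zc X) (wc X H) n + tau r (zc X) (wc X H) (Sc H) n := by
  have h := (h4 r (zc X) (wc X H) k (Sc H) n hr hk hn).1
  unfold fr fX
  have e : dr r n - fS r k (zc X) (wc X H) (Sc H) n =
      (dr r n - fS r k (zc X) (wc X H) (Sc H) n - dfree r (zc X) (wc X H) n) +
        dfree r (zc X) (wc X H) n := by ring
  rw [e]
  refine (abs_add_le _ _).trans ?_
  rw [abs_of_nonneg (dfree_nonneg r (zc X) (wc X H) n)]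
  linarith

theorem dfree_le (r : ℕ) (z w : ℝ) (n : ℕ) : dfree r z w n ≤ dr r n := by
  unfold dfree
  split_ifs
  · exact le_rfl
  · exact dr_nonneg _ _

theorem prod_le (a b a' b' ε : ℝ) (hε : 0 < ε) (hε1 : ε ≤ 1) :
    (a + b) * (a' + b') ≤ a * a' + ε / 2 * (a ^ 2 + a' ^ 2) + (b ^ 2 + b' ^ 2) / ε := by
  have e1 : a * b' ≤ (ε * a ^ 2 + b' ^ 2 / ε) / 2 := by
    have : 0 ≤ (ε * a - b') ^ 2 / ε := by positivity
    have e : (ε * a - b') ^ 2 / ε = ε * a ^ 2 - 2 * (a * b') + b' ^ 2 / ε := by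
      field_simp
      ring
    linarith
  have e2 : b * a' ≤ (ε * a' ^ 2 + b ^ 2 / ε) / 2 := by
    have : 0 ≤ (ε * a' - b) ^ 2 / ε := by positivity
    have e : (ε * a' - b) ^ 2 / ε = ε * a' ^ 2 - 2 * (b * a') + b ^ 2 / ε := by
      field_simp
      ring
    linarith
  have e3 : b * b' ≤ (b ^ 2 + b' ^ 2) / ε / 2 := by
    have h1 : b * b' ≤ (b ^ 2 + b' ^ 2) / 2 := by nlinarith [sq_nonneg (b - b')]
    have h2 : (b ^ 2 + b' ^ 2) ≤ (b ^ 2 + b' ^ 2) / ε := by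
      rw [le_div_iff₀ hε]
      have : 0 ≤ b ^ 2 + b' ^ 2 := by positivity
      nlinarith
    linarith
  have e4 : (b ^ 2 + b' ^ 2) / ε = b ^ 2 / ε + b' ^ 2 / ε := by ring
  rw [e4] at e3 ⊢
  nlinarith

theorem shift_le (f : ℕ → ℝ) (hf : ∀ n, 0 ≤ f n) (N h M : ℕ) (hM : N + h ≤ M) :
    ∑ n ∈ Finset.Icc 1 N, f (n + h) ≤ ∑ n ∈ Finset.Icc 1 M, f n := by
  have e : ∑ n ∈ Finset.Icc 1 N, f (n + h) =
      ∑ m ∈ (Finset.Icc 1 N).map (addRightEmbedding h), f m := by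
    rw [Finset.sum_map]
    rfl
  rw [e]
  refine Finset.sum_le_sum_of_subset_of_nonneg ?_ (fun m _ _ => hf m)
  intro m hm
  obtain ⟨n, hn, rfl⟩ := Finset.mem_map.1 hm
  rw [Finset.mem_Icc] at hn ⊢
  simp only [addRightEmbedding_apply]
  omega

/-- the correlation of `fr` -/
theorem cor_le (h4 : fpA1) (r : ℕ) (hr : 1 ≤ r) (k : ℕ → ℝ) (X H : ℝ)
    (hk : KK r (zc X) (wc X H) k) (N h M : ℕ) (hM : N + h ≤ M) (ε : ℝ) (hε : 0 < ε)
    (hε1 : ε ≤ 1) :
    |cor (fr r k X H) (fr r k X H) N h| ≤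
      ∑ n ∈ Finset.Icc 1 N, dfree r (zc X) (wc X H) n * dfree r (zc X) (wc X H) (n + h) +
      ε * ∑ n ∈ Finset.Icc 1 M, dr r n ^ 2 +
      2 * (∑ n ∈ Finset.Icc 1 M, tau r (zc X) (wc X H) (Sc H) n ^ 2) / ε := by
  unfold cor
  refine (Finset.abs_sum_le_sum_abs _ _).trans ?_
  set z := zc X
  set w := wc X H
  set S := Sc H
  have key : ∀ n ∈ Finset.Icc 1 N, |fr r k X H n * fr r k X H (n + h)| ≤
      dfree r z w n * dfree r z w (n + h) + ε / 2 * (dr r n ^ 2 + dr r (n + h) ^ 2) +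
        (tau r z w S n ^ 2 + tau r z w S (n + h) ^ 2) / ε := by
    intro n hn
    have hn1 := (Finset.mem_Icc.1 hn).1
    rw [abs_mul]
    have a1 := fr_le h4 r hr k X H hk n hn1
    have a2 := fr_le h4 r hr k X H hk (n + h) (by omega)
    have b1 : dfree r z w n ^ 2 ≤ dr r n ^ 2 :=
      pow_le_pow_left₀ (dfree_nonneg _ _ _ _) (dfree_le _ _ _ _) 2
    have b2 : dfree r z w (n + h) ^ 2 ≤ dr r (n + h) ^ 2 :=
      pow_le_pow_left₀ (dfree_nonneg _ _ _ _) (dfree_le _ _ _ _) 2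
    calc |fr r k X H n| * |fr r k X H (n + h)|
        ≤ (dfree r z w n + tau r z w S n) * (dfree r z w (n + h) + tau r z w S (n + h)) :=
          mul_le_mul a1 a2 (abs_nonneg _)
            (add_nonneg (dfree_nonneg _ _ _ _) (tau_nonneg _ _ _ _ _))
      _ ≤ dfree r z w n * dfree r z w (n + h) +
          ε / 2 * (dfree r z w n ^ 2 + dfree r z w (n + h) ^ 2) +
          (tau r z w S n ^ 2 + tau r z w S (n + h) ^ 2) / ε := prod_le _ _ _ _ ε hε hε1
      _ ≤ _ := by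
        have : ε / 2 * (dfree r z w n ^ 2 + dfree r z w (n + h) ^ 2) ≤
            ε / 2 * (dr r n ^ 2 + dr r (n + h) ^ 2) :=
          mul_le_mul_of_nonneg_left (add_le_add b1 b2) (by positivity)
        linarith
  refine (Finset.sum_le_sum key).trans ?_
  rw [Finset.sum_add_distrib, Finset.sum_add_distrib, ← Finset.mul_sum, ← Finset.sum_div,
    Finset.sum_add_distrib, Finset.sum_add_distrib]
  have c1 : ∑ n ∈ Finset.Icc 1 N, dr r n ^ 2 ≤ ∑ n ∈ Finset.Icc 1 M, dr r n ^ 2 :=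
    Finset.sum_le_sum_of_subset_of_nonneg (Finset.Icc_subset_Icc_right (by omega))
      (fun m _ _ => sq_nonneg _)
  have c2 : ∑ n ∈ Finset.Icc 1 N, dr r (n + h) ^ 2 ≤ ∑ n ∈ Finset.Icc 1 M, dr r n ^ 2 :=
    shift_le (fun n => dr r n ^ 2) (fun n => sq_nonneg _) N h M hM
  have c3 : ∑ n ∈ Finset.Icc 1 N, tau r z w S n ^ 2 ≤ ∑ n ∈ Finset.Icc 1 M, tau r z w S n ^ 2 :=
    Finset.sum_le_sum_of_subset_of_nonneg (Finset.Icc_subset_Icc_right (by omega))
      (fun m _ _ => sq_nonneg _)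
  have c4 : ∑ n ∈ Finset.Icc 1 N, tau r z w S (n + h) ^ 2 ≤
      ∑ n ∈ Finset.Icc 1 M, tau r z w S n ^ 2 :=
    shift_le (fun n => tau r z w S n ^ 2) (fun n => sq_nonneg _) N h M hM
  have d1 : ε / 2 * (∑ n ∈ Finset.Icc 1 N, dr r n ^ 2 + ∑ n ∈ Finset.Icc 1 N, dr r (n + h) ^ 2) ≤
      ε * ∑ n ∈ Finset.Icc 1 M, dr r n ^ 2 := by
    have := mul_le_mul_of_nonneg_left (add_le_add c1 c2) (by positivity : 0 ≤ ε / 2)
    linarith
  have d2 : (∑ n ∈ Finset.Icc 1 N, tau r z w S n ^ 2 +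
      ∑ n ∈ Finset.Icc 1 N, tau r z w S (n + h) ^ 2) / ε ≤
      2 * (∑ n ∈ Finset.Icc 1 M, tau r z w S n ^ 2) / ε :=
    div_le_div_of_nonneg_right (by linarith) hε.le
  linarith

/-- second moment of the divisor function -/
theorem sum_dr (h8 : tsX2) (r M : ℕ) (L : ℝ) (hr : 1 ≤ r) (hM : 1 ≤ M) (X : ℝ)
    (hMX : (M : ℝ) ≤ 2 * X) (hL : 1 + Real.log M ≤ L) :
    ∑ n ∈ Finset.Icc 1 M, dr r n ^ 2 ≤ 2 * X * L ^ (r * r - 1) := by
  have hrr : 1 ≤ r * r := Nat.mul_pos hr hr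
  have h1 : ∑ n ∈ Finset.Icc 1 M, dr r n ^ 2 ≤ ∑ n ∈ Finset.Icc 1 M, dr (r * r) n := by
    refine Finset.sum_le_sum fun n _ => ?_
    rw [pow_two]
    exact h8.1 r r n hr hr
  have h2 := h8.2.1 (r * r) M hrr hM
  have h3 : 0 ≤ 1 + Real.log M := by
    have := Real.log_natCast_nonneg M
    linarith
  calc _ ≤ _ := h1
    _ ≤ (M : ℝ) * (1 + Real.log M) ^ (r * r - 1) := h2
    _ ≤ 2 * X * L ^ (r * r - 1) :=
      mul_le_mul hMX (pow_le_pow_left₀ h3 hL _) (pow_nonneg h3 _) (le_trans (Nat.cast_nonneg _) hMX)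

/-- the error term is at least `X/(log X)^2` -/
theorem eb_ge (r : ℕ) (C X H : ℝ) (hr : 2 ≤ r) (hX : 0 < X) (hL : 3 ≤ Real.log X)
    (hl : 1 ≤ l2 X) (hC : 0 ≤ C) (hH : 0 < Real.log H) (hHL : Real.log H ≤ Real.log X) :
    X / Real.log X ^ 2 ≤ eb r C X H := by
  unfold eb
  have hL0 : 0 < Real.log X := by linarith
  have h1 : 1 ≤ l2 X ^ C := Real.one_le_rpow hl hC
  have h2 : Real.log H ^ (2 * r) ≤ Real.log X ^ (2 * r) := pow_le_pow_left₀ hH.le hHL _
  have h3 : Real.log X ^ (2 * r) = Real.log X ^ (2 * r - 2) * Real.log X ^ 2 := by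
    rw [← pow_add]
    congr 1
    omega
  rw [div_le_div_iff₀ (by positivity) (by positivity)]
  calc X * Real.log H ^ (2 * r) ≤ X * (Real.log X ^ (2 * r - 2) * Real.log X ^ 2) := by
        rw [← h3]
        exact mul_le_mul_of_nonneg_left h2 hX.le
    _ = X * Real.log X ^ (2 * r - 2) * 1 * Real.log X ^ 2 := by ring
    _ ≤ X * Real.log X ^ (2 * r - 2) * l2 X ^ C * Real.log X ^ 2 := by
        refine mul_le_mul_of_nonneg_right (mul_le_mul_of_nonneg_left h1 ?_) (by positivity)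
        positivity

/-- the numerical estimate of the cross terms -/
theorem cross (r : ℕ) (D X L l δ A B : ℝ) (hD : 0 < D) (hX : 0 < X) (hL : 3 ≤ L)
    (hLl : L = Real.exp l) (hl : 40 * (4 + 2 * (r * r : ℕ) + 2 * D) ≤ l) (hl2 : 8 * D ≤ l)
    (hδ : δ ≤ 2 * Real.exp (-(l ^ 2 / 20)))
    (hA : A ≤ 2 * X * (2 * L) ^ (r * r - 1))
    (hB : B ≤ D * (2 * X) * (2 * L) ^ D * δ) :
    Real.exp (-(l ^ 2 / 40)) * A + 2 * B / Real.exp (-(l ^ 2 / 40)) ≤ X / L ^ 2 := by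
  set ε : ℝ := Real.exp (-(l ^ 2 / 40)) with hε
  have hε0 : 0 < ε := Real.exp_pos _
  have hεε : Real.exp (-(l ^ 2 / 20)) = ε * ε := by
    rw [hε, ← Real.exp_add]
    congr 1
    ring
  have hL0 : 0 < L := by linarith
  have hL1 : 1 ≤ L := by linarith
  have hLL : 2 * L ≤ L ^ 2 := by nlinarith
  have hm0 : (0 : ℝ) ≤ (r * r : ℕ) := Nat.cast_nonneg _
  set m : ℝ := ((r * r : ℕ) : ℝ) with hm
  have a1 : (2 * L) ^ (r * r - 1) ≤ L ^ (2 * m) := by
    have e1 : (2 * L) ^ (r * r - 1) ≤ (L ^ 2) ^ (r * r - 1) := pow_le_pow_left₀ (by linarith) hLL _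
    have e2 : (L ^ 2) ^ (r * r - 1) ≤ (L ^ 2) ^ (r * r) :=
      pow_le_pow_right₀ (one_le_pow₀ hL1) (by omega)
    have e3 : (L ^ 2) ^ (r * r) = L ^ (2 * m) := by
      rw [← pow_mul, ← Real.rpow_natCast]
      congr 1
      rw [hm]
      push_cast
      ring
    rw [← e3]
    exact e1.trans e2
  have a2 : (2 * L) ^ D ≤ L ^ (2 * D) := by
    have e1 : (2 * L) ^ D ≤ (L ^ 2) ^ D := Real.rpow_le_rpow (by linarith) hLL hD.le
    have e2 : (L ^ 2) ^ D = L ^ (2 * D) := by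
      rw [← Real.rpow_natCast, ← Real.rpow_mul hL0.le]
      norm_num
    rw [← e2]
    exact e1
  have hl0 : 0 ≤ l := by nlinarith
  have hel : l + 1 ≤ L := by
    rw [hLl]
    exact Real.add_one_le_exp l
  have a3 : 8 * D ≤ L := by linarith
  have b1 : ε * A ≤ ε * X * (L * L ^ (2 * m)) := by
    have e1 : A ≤ 2 * X * L ^ (2 * m) :=
      hA.trans (mul_le_mul_of_nonneg_left a1 (by positivity))
    have e2 : 2 * X * L ^ (2 * m) ≤ X * (L * L ^ (2 * m)) := by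
      have : 0 ≤ X * L ^ (2 * m) := by positivity
      nlinarith
    have e3 := mul_le_mul_of_nonneg_left (e1.trans e2) hε0.le
    calc ε * A ≤ ε * (X * (L * L ^ (2 * m))) := e3
      _ = ε * X * (L * L ^ (2 * m)) := by ring
  have b2 : 2 * B / ε ≤ ε * X * (L * L ^ (2 * D)) := by
    rw [div_le_iff₀ hε0]
    have e1 : B ≤ D * (2 * X) * (2 * L) ^ D * (2 * (ε * ε)) := by
      refine hB.trans (mul_le_mul_of_nonneg_left ?_ (by positivity))
      rw [← hεε]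
      exact hδ
    have e2 : D * (2 * X) * (2 * L) ^ D * (2 * (ε * ε)) ≤
        D * (2 * X) * L ^ (2 * D) * (2 * (ε * ε)) := by
      refine mul_le_mul_of_nonneg_right (mul_le_mul_of_nonneg_left a2 (by positivity))
        (by positivity)
    have e3 : 8 * D * (X * L ^ (2 * D) * (ε * ε)) ≤ L * (X * L ^ (2 * D) * (ε * ε)) :=
      mul_le_mul_of_nonneg_right a3 (by positivity)
    calc 2 * B ≤ 2 * (D * (2 * X) * L ^ (2 * D) * (2 * (ε * ε))) := by linarith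
      _ = 8 * D * (X * L ^ (2 * D) * (ε * ε)) := by ring
      _ ≤ L * (X * L ^ (2 * D) * (ε * ε)) := e3
      _ = ε * X * (L * L ^ (2 * D)) * ε := by ring
  set T : ℝ := 4 + 2 * m + 2 * D with hT
  have c1 : L * L ^ (2 * m) + L * L ^ (2 * D) ≤ L ^ (T - 2) := by
    have e1 : L * L ^ (2 * m) ≤ L ^ (1 + 2 * m + 2 * D) := by
      have : L * L ^ (2 * m) = L ^ (1 + 2 * m) := by
        rw [Real.rpow_add hL0, Real.rpow_one]
      rw [this]
      exact Real.rpow_le_rpow_of_exponent_le hL1 (by linarith)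
    have e2 : L * L ^ (2 * D) ≤ L ^ (1 + 2 * m + 2 * D) := by
      have : L * L ^ (2 * D) = L ^ (1 + 2 * D) := by
        rw [Real.rpow_add hL0, Real.rpow_one]
      rw [this]
      exact Real.rpow_le_rpow_of_exponent_le hL1 (by linarith)
    have e3 : L ^ (T - 2) = L * L ^ (1 + 2 * m + 2 * D) := by
      have : T - 2 = 1 + (1 + 2 * m + 2 * D) := by rw [hT]; ring
      rw [this, Real.rpow_add hL0, Real.rpow_one]
    have e4 : 0 ≤ L ^ (1 + 2 * m + 2 * D) := by positivity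
    rw [e3]
    nlinarith
  have c2 : ε * L ^ T ≤ 1 := by
    rw [hε, hLl, ← Real.exp_mul, ← Real.exp_add, Real.exp_le_one_iff]
    have : 40 * T * l ≤ l * l := mul_le_mul_of_nonneg_right hl hl0
    nlinarith
  have c3 : L ^ (T - 2) = L ^ T / L ^ 2 := by
    rw [Real.rpow_sub hL0]
    norm_num
  calc ε * A + 2 * B / ε ≤ ε * X * (L * L ^ (2 * m)) + ε * X * (L * L ^ (2 * D)) := add_le_add b1 b2
    _ = ε * X * (L * L ^ (2 * m) + L * L ^ (2 * D)) := by ring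
    _ ≤ ε * X * L ^ (T - 2) := mul_le_mul_of_nonneg_left c1 (by positivity)
    _ = X / L ^ 2 * (ε * L ^ T) := by rw [c3]; ring
    _ ≤ X / L ^ 2 * 1 := mul_le_mul_of_nonneg_left c2 (by positivity)
    _ = X / L ^ 2 := mul_one _

/-- `ll h ≤ 2 log log X` -/
theorem ll_le (X : ℝ) (h : ℕ) (hX : 16 ≤ X) (hL : 3 ≤ Real.log X) (hh : (h : ℝ) ≤ X) :
    0 < ll h ∧ ll h ≤ 2 * l2 X := by
  have h0 : (0 : ℝ) ≤ h := Nat.cast_nonneg _
  have e1 : Real.log ((h : ℝ) + 16) ≤ 2 * Real.log X := by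
    have : Real.log ((h : ℝ) + 16) ≤ Real.log (2 * X) := Real.log_le_log (by linarith) (by linarith)
    rw [Real.log_mul (by norm_num) (by linarith)] at this
    have h2 := Real.log_two_lt_d9
    linarith
  have e0 : (1 : ℝ) < Real.log ((h : ℝ) + 16) := by
    rw [Real.lt_log_iff_exp_lt (by linarith)]
    have := Real.exp_one_lt_d9
    linarith
  unfold ll l2
  refine ⟨Real.log_pos e0, ?_⟩
  have e2 : Real.log (Real.log ((h : ℝ) + 16)) ≤ Real.log (Real.log X ^ 2) := by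
    refine Real.log_le_log (by linarith) (e1.trans ?_)
    nlinarith
  rw [Real.log_pow] at e2
  push_cast at e2
  exact e2

/-- the main term -/
theorem main_term (r : ℕ) (C3 C4 C6 X H p s l u : ℝ) (hC4 : 0 < C4) (hC3 : 0 < C3)
    (hl : 1 ≤ l) (hX : 0 < X) (hL : 3 ≤ Real.log X) (hH : 0 < Real.log H) (hu0 : 0 < u)
    (hu : u ≤ 2 * l) (hs : s ≤ Real.log u + C6) (hp : Real.exp (-p) ≤ C3 * l ^ 5 / Real.log H) :
    C4 * Real.exp (-(2 * r * p) + ((r : ℝ) - 1) ^ 2 * s) * X * Real.log X ^ (2 * r - 2) ≤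
      C4 * C3 ^ (2 * r) * Real.exp (((r : ℝ) - 1) ^ 2 * C6) * (2 : ℝ) ^ (((r : ℝ) - 1) ^ 2) *
        (X * Real.log X ^ (2 * r - 2) * l ^ (10 * (r : ℝ) + ((r : ℝ) - 1) ^ 2) /
          Real.log H ^ (2 * r)) := by
  have hl0 : 0 < l := by linarith
  have hL0 : 0 < Real.log X := by linarith
  set q : ℝ := ((r : ℝ) - 1) ^ 2 with hq
  have hq0 : 0 ≤ q := sq_nonneg _
  have e1 : Real.exp (-(2 * r * p)) ≤ (C3 * l ^ 5 / Real.log H) ^ (2 * r) := by
    have : Real.exp (-(2 * r * p)) = Real.exp (-p) ^ (2 * r) := by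
      rw [← Real.exp_nat_mul]
      congr 1
      push_cast
      ring
    rw [this]
    exact pow_le_pow_left₀ (Real.exp_pos _).le hp _
  have e2 : Real.exp (q * s) ≤ (2 : ℝ) ^ q * l ^ q * Real.exp (q * C6) := by
    have a1 : Real.exp (q * s) ≤ Real.exp (q * (Real.log u + C6)) :=
      Real.exp_le_exp.2 (mul_le_mul_of_nonneg_left hs hq0)
    have a2 : Real.exp (q * (Real.log u + C6)) = u ^ q * Real.exp (q * C6) := by
      rw [mul_add, Real.exp_add, Real.rpow_def_of_pos hu0]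
      ring_nf
    have a3 : u ^ q ≤ (2 : ℝ) ^ q * l ^ q := by
      rw [← Real.mul_rpow (by norm_num) hl0.le]
      exact Real.rpow_le_rpow hu0.le hu hq0
    rw [a2] at a1
    exact a1.trans (mul_le_mul_of_nonneg_right a3 (Real.exp_pos _).le)
  have e3 : (C3 * l ^ 5 / Real.log H) ^ (2 * r) =
      C3 ^ (2 * r) * l ^ (10 * (r : ℝ)) / Real.log H ^ (2 * r) := by
    rw [div_pow, mul_pow, ← pow_mul]
    congr 2
    rw [← Real.rpow_natCast]
    congr 1
    push_cast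
    ring
  rw [e3] at e1
  have e4 : l ^ (10 * (r : ℝ) + q) = l ^ (10 * (r : ℝ)) * l ^ q := Real.rpow_add hl0 _ _
  have e5 : Real.exp (-(2 * r * p) + q * s) ≤
      C3 ^ (2 * r) * l ^ (10 * (r : ℝ)) / Real.log H ^ (2 * r) *
        ((2 : ℝ) ^ q * l ^ q * Real.exp (q * C6)) := by
    rw [Real.exp_add]
    exact mul_le_mul e1 e2 (Real.exp_pos _).le (by positivity)
  calc C4 * Real.exp (-(2 * r * p) + q * s) * X * Real.log X ^ (2 * r - 2)
      ≤ C4 * (C3 ^ (2 * r) * l ^ (10 * (r : ℝ)) / Real.log H ^ (2 * r) *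
        ((2 : ℝ) ^ q * l ^ q * Real.exp (q * C6))) * X * Real.log X ^ (2 * r - 2) := by
        refine mul_le_mul_of_nonneg_right (mul_le_mul_of_nonneg_right
          (mul_le_mul_of_nonneg_left e5 hC4.le) hX.le) (by positivity)
    _ = _ := by
        rw [e4]
        ring

end X1ax

open X1ax G2x in
/-- X1a: the unstructured part. -/
theorem pfX1a (h1 : fpP1) (h2 : fpP2) (h3 : fpP4) (h4 : fpA1) (h5 : fpB3) (h6 : fpE1)
    (h7 : fpD4) (h8 : tsX2) : fpX1a := by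
  intro r hr
  have hr1 : 1 ≤ r := by omega
  obtain ⟨C3, hC3, H3⟩ := h3
  obtain ⟨C5, hC5, H5⟩ := h5 r hr1
  obtain ⟨C6, hC6, H6⟩ := h6
  obtain ⟨C4, X4, hC4, H4⟩ := h7 r hr
  obtain ⟨X1, HX⟩ := h1 (max 10 (max (40 * (4 + 2 * (r * r : ℕ) + 2 * C5)) (8 * C5)))
  set K : ℝ := C4 * C3 ^ (2 * r) * Real.exp (((r : ℝ) - 1) ^ 2 * C6) *
    (2 : ℝ) ^ (((r : ℝ) - 1) ^ 2) with hK
  have hK0 : 0 < K := by positivity
  set e0 : ℝ := 10 * (r : ℝ) + ((r : ℝ) - 1) ^ 2 with he0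
  have he00 : 0 ≤ e0 := by positivity
  refine ⟨K + 1 + e0, max X1 X4, by positivity, ?_⟩
  intro X H k h hX hlH hHX hH0 hk hh1 hhX
  have hX1 := (le_max_left _ _).trans hX
  have hX4 := (le_max_right _ _).trans hX
  obtain ⟨hX16, hL, hA, _, hX2⟩ := HX X hX1
  have hl : 10 ≤ l2 X := (le_max_left _ _).trans hA
  have hA1 := (le_max_right _ _).trans hA
  have hl40 : 40 * (4 + 2 * (r * r : ℕ) + 2 * C5) ≤ l2 X := (le_max_left _ _).trans hA1
  have hl8 : 8 * C5 ≤ l2 X := (le_max_right _ _).trans hA1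
  have hX0 : 0 < X := by linarith
  have hXh : X ^ (1 / 2 : ℝ) ≤ X := by
    calc X ^ (1 / 2 : ℝ) ≤ X ^ (1 : ℝ) :=
          Real.rpow_le_rpow_of_exponent_le (by linarith) (by norm_num)
      _ = X := Real.rpow_one X
  obtain ⟨s1, s2, s3, s4, s5, s6, s7, s8, s9, s10, s11, s12, s13⟩ :=
    sizes h2 X H X hl hL hX16 hX2 hlH hHX hH0 hXh le_rfl
  set z : ℝ := zc X with hz
  set w : ℝ := wc X H with hw
  set S : ℕ := Sc H with hS
  set L : ℝ := Real.log X with hLdef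
  set l : ℝ := l2 X with hldef
  have hLl : L = Real.exp l := by
    rw [hldef]
    unfold l2
    rw [Real.exp_log (by linarith)]
  have hw0 : 0 < w := (Real.exp_pos _).trans_le s9
  have hS1 : (1 : ℝ) ≤ S := by exact_mod_cast s4
  have hw4 : w ≤ X ^ (1 / 4 : ℝ) := by nlinarith
  have hwX : w ≤ X := by
    refine hw4.trans ?_
    calc X ^ (1 / 4 : ℝ) ≤ X ^ (1 : ℝ) :=
          Real.rpow_le_rpow_of_exponent_le (by linarith) (by norm_num)
      _ = X := Real.rpow_one X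
  have hlogH : 0 < Real.log H := lt_of_lt_of_le (by positivity) hlH
  have hlogHL : Real.log H ≤ L := Real.log_le_log hH0 hHX
  -- the sums
  set N : ℕ := ⌊X⌋₊ with hN
  set M : ℕ := ⌊2 * X⌋₊ with hM
  have hNM : N + h ≤ M := by
    rw [hM, Nat.le_floor_iff (by positivity)]
    push_cast
    have := Nat.floor_le hX0.le
    linarith
  have hM1 : 1 ≤ M := by omega
  have hMX : (M : ℝ) ≤ 2 * X := Nat.floor_le (by positivity)
  have hM0 : (0 : ℝ) < M := by exact_mod_cast hM1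
  have hlog2X : Real.log (2 * X) ≤ 2 * L - 1 := by
    rw [Real.log_mul (by norm_num) hX0.ne']
    have := Real.log_two_lt_d9
    linarith
  have hlM : 1 + Real.log M ≤ 2 * L := by
    have := Real.log_le_log hM0 hMX
    linarith
  have hA' := sum_dr h8 r M (2 * L) hr1 hM1 X hMX hlM
  set A : ℝ := ∑ n ∈ Finset.Icc 1 M, dr r n ^ 2 with hAdef
  set B : ℝ := ∑ n ∈ Finset.Icc 1 M, tau r z w S n ^ 2 with hBdef
  set δ : ℝ := 1 / z + Real.exp (-(Real.log S / Real.log w)) with hδdef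
  have hδ0 : 0 ≤ δ := by
    have : 0 < z := by linarith
    positivity
  have hB' : B ≤ C5 * (2 * X) * (2 * L) ^ C5 * δ := by
    refine (H5 (2 * X) z w S s6 s9 (by linarith) s4).trans ?_
    refine mul_le_mul_of_nonneg_right (mul_le_mul_of_nonneg_left ?_ (by positivity)) hδ0
    refine Real.rpow_le_rpow (Real.log_nonneg (by linarith)) (by linarith) hC5.le
  have hδ : δ ≤ 2 * Real.exp (-(l ^ 2 / 20)) := by
    have e1 : 1 / z ≤ Real.exp (-(l ^ 2 / 20)) := by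
      rw [hz, zc_eq, one_div, ← Real.exp_neg]
      refine Real.exp_le_exp.2 ?_
      rw [← hldef]
      nlinarith [sq_nonneg l]
    have e2 : Real.exp (-(Real.log S / Real.log w)) ≤ Real.exp (-(l ^ 2 / 20)) :=
      Real.exp_le_exp.2 (by linarith)
    linarith
  have hcross := cross r C5 X L l δ A B hC5 hX0 hL hLl hl40 hl8 hδ hA' hB'
  have hcor := cor_le h4 r hr1 k X H hk N h M hNM (Real.exp (-(l ^ 2 / 40))) (Real.exp_pos _)
    (by rw [Real.exp_le_one_iff]; nlinarith [sq_nonneg l])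
  have hD4 := H4 X z w h hX4 s7 s8 hw4 hh1 hhX
  obtain ⟨hll0, hll⟩ := ll_le X h hX16 hL hhX
  have hmain := main_term r C3 C4 C6 X H (pw z w) (Sh h) l (ll h) hC4 hC3 (by linarith) hX0 hL
    hlogH hll0 hll (H6 h hh1) (H3 X H (by linarith) hlH hHX hH0)
  have hC0 : 0 ≤ K + 1 + e0 := by positivity
  have hebge := eb_ge r (K + 1 + e0) X H hr hX0 hL (by linarith) hC0 hlogH hlogHL
  have heb : X * L ^ (2 * r - 2) * l ^ e0 / Real.log H ^ (2 * r) ≤ eb r (K + 1 + e0) X H := by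
    unfold eb
    refine div_le_div_of_nonneg_right (mul_le_mul_of_nonneg_left ?_ (by positivity))
      (by positivity)
    exact Real.rpow_le_rpow_of_exponent_le (by linarith) (by linarith)
  have heb0 : 0 ≤ eb r (K + 1 + e0) X H := le_trans (by positivity) hebge
  calc |cor (fr r k X H) (fr r k X H) N h|
      ≤ ∑ n ∈ Finset.Icc 1 N, dfree r z w n * dfree r z w (n + h) +
        Real.exp (-(l ^ 2 / 40)) * A + 2 * B / Real.exp (-(l ^ 2 / 40)) := hcor
    _ ≤ K * eb r (K + 1 + e0) X H + eb r (K + 1 + e0) X H := by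
        have e1 := hD4.trans hmain
        have e2 : K * (X * L ^ (2 * r - 2) * l ^ e0 / Real.log H ^ (2 * r)) ≤
            K * eb r (K + 1 + e0) X H := mul_le_mul_of_nonneg_left heb hK0.le
        linarith
    _ ≤ (K + 1 + e0) * eb r (K + 1 + e0) X H := by
        have : 0 ≤ e0 * eb r (K + 1 + e0) X H := mul_nonneg he00 heb0
        linarith

end Pool.Agent.Work.MP_122e00_nt.FP
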