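import Pool.Agent.Work.MP_122e00_nt.FP.StmtsD

/-!
# Item [122e00 FP X1b] (helper51): the structured part
-/

namespace Pool.Agent.Work.MP_122e00_nt.FP

open Finset Filter Topology ArithmeticFunction MeasureTheory
open Pool.Agent.Work.MP_122e00_nt.TS
open scoped ArithmeticFunction.zeta ArithmeticFunction.Moebius

namespace X1bx

theorem expl3 {X δ : ℝ} (hδ : 0 < δ) (hX : 0 < X) (hX3 : 3 ≤ Real.log X) (hl : 24 / δ ≤ l2 X) :
    Real.exp (l2 X ^ 3) ≤ X ^ δ := by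
  have h0 : 0 < l2 X := lt_of_lt_of_le (by positivity) hl
  have he : Real.exp (l2 X) = Real.log X := Real.exp_log (by linarith)
  have h4 : l2 X ^ 4 / 24 ≤ Real.exp (l2 X) := by
    have := Real.pow_div_factorial_le_exp (l2 X) h0.le 4
    simpa [Nat.factorial] using this
  rw [Real.rpow_def_of_pos hX, Real.exp_le_exp, ← he]
  have h5 : 1 ≤ l2 X * δ / 24 := by
    rw [div_le_iff₀ hδ] at hl
    linarith
  calc l2 X ^ 3 = l2 X ^ 3 * 1 := (mul_one _).symm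
    _ ≤ l2 X ^ 3 * (l2 X * δ / 24) := mul_le_mul_of_nonneg_left h5 (by positivity)
    _ = l2 X ^ 4 / 24 * δ := by ring
    _ ≤ Real.exp (l2 X) * δ := mul_le_mul_of_nonneg_right h4 hδ.le

theorem logpow {X A B : ℝ} (hB : B ≤ A) (hX3 : 3 ≤ Real.log X) (hl1 : 1 ≤ l2 X)
    (hA : Real.log X ^ A ≤ Real.exp (l2 X ^ 2)) : Real.log X ^ B ≤ Real.exp (l2 X ^ 3) :=
  (Real.rpow_le_rpow_of_exponent_le (by linarith) hB).trans
    (hA.trans (Real.exp_le_exp.2 (pow_le_pow_right₀ hl1 (by norm_num))))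

theorem err {X δ B K : ℝ} (hX : 0 < X) (hX3 : 3 ≤ Real.log X) (hK : 0 ≤ K)
    (h : Real.log X ^ (B + 2) ≤ X ^ δ) :
    K * Real.log X ^ B * X ^ (1 - δ) ≤ K * (X / Real.log X ^ 2) := by
  have hL : 0 < Real.log X := by linarith
  have e1 : X ^ (1 - δ) = X / X ^ δ := by rw [Real.rpow_sub hX, Real.rpow_one]
  have e2 : Real.log X ^ (B + 2) = Real.log X ^ B * Real.log X ^ 2 := by
    rw [Real.rpow_add hL]
    norm_num
  have hXd : 0 < X ^ δ := Real.rpow_pos_of_pos hX δ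
  rw [e2] at h
  rw [e1, mul_assoc]
  apply mul_le_mul_of_nonneg_left _ hK
  rw [← mul_div_assoc, div_le_div_iff₀ hXd (by positivity)]
  calc Real.log X ^ B * X * Real.log X ^ 2 = X * (Real.log X ^ B * Real.log X ^ 2) := by ring
    _ ≤ X * X ^ δ := mul_le_mul_of_nonneg_left h hX.le

theorem ebge {r : ℕ} {C X H : ℝ} (hX : 0 < X) (hl1 : 1 ≤ l2 X) (hC : 0 ≤ C) (hr : 1 ≤ r)
    (hH0 : 0 < Real.log H) (hHX : Real.log H ≤ Real.log X) : X / Real.log X ^ 2 ≤ eb r C X H := by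
  have hL : 0 < Real.log X := hH0.trans_le hHX
  unfold eb
  rw [div_le_div_iff₀ (by positivity) (by positivity)]
  have h1 : Real.log H ^ (2 * r) ≤ Real.log X ^ (2 * r) := pow_le_pow_left₀ hH0.le hHX _
  have h2 : Real.log X ^ (2 * r) = Real.log X ^ (2 * r - 2) * Real.log X ^ 2 := by
    rw [← pow_add]
    congr 1
    omega
  have h3 : 1 ≤ l2 X ^ C := Real.one_le_rpow hl1 hC
  calc X * Real.log H ^ (2 * r) ≤ X * (Real.log X ^ (2 * r - 2) * Real.log X ^ 2) := by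
        rw [← h2]; exact mul_le_mul_of_nonneg_left h1 hX.le
    _ = X * Real.log X ^ (2 * r - 2) * 1 * Real.log X ^ 2 := by ring
    _ ≤ X * Real.log X ^ (2 * r - 2) * l2 X ^ C * Real.log X ^ 2 := by
        apply mul_le_mul_of_nonneg_right _ (by positivity)
        exact mul_le_mul_of_nonneg_left h3 (by positivity)

theorem ebmono {r : ℕ} {C C' X H : ℝ} (hX : 0 < X) (hL : 0 < Real.log X) (hl1 : 1 ≤ l2 X) (h : C ≤ C')
    (hH0 : 0 < Real.log H) : eb r C X H ≤ eb r C' X H := by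
  unfold eb
  apply div_le_div_of_nonneg_right _ (by positivity)
  exact mul_le_mul_of_nonneg_left (Real.rpow_le_rpow_of_exponent_le hl1 h) (by positivity)

theorem cont (P : Polynomial ℝ) {X : ℝ} (hX : 1 ≤ X) :
    ContinuousOn (fun t : ℝ => P.eval (Real.log t)) (Set.uIcc 1 X) := by
  apply P.continuous.comp_continuousOn
  apply Real.continuousOn_log.mono
  intro t ht
  rw [Set.uIcc_of_le hX] at ht
  have : t ≠ 0 := by linarith [ht.1]
  simpa using this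

theorem int1 (P R : Polynomial ℝ) {X : ℝ} (hX : 1 ≤ X) :
    ∫ t in (1 : ℝ)..X, (P.eval (Real.log t) - R.eval (Real.log t)) ^ 2 =
      (∫ t in (1 : ℝ)..X, (P.eval (Real.log t)) ^ 2) -
        2 * (∫ t in (1 : ℝ)..X, R.eval (Real.log t) * P.eval (Real.log t)) +
        ∫ t in (1 : ℝ)..X, (R.eval (Real.log t)) ^ 2 := by
  have hP := cont P hX
  have hR := cont R hX
  have i1 : IntervalIntegrable (fun t : ℝ => (P.eval (Real.log t)) ^ 2) volume 1 X :=
    (hP.pow 2).intervalIntegrable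
  have i2 : IntervalIntegrable (fun t : ℝ => R.eval (Real.log t) * P.eval (Real.log t)) volume 1 X :=
    (hR.mul hP).intervalIntegrable
  have i3 : IntervalIntegrable (fun t : ℝ => (R.eval (Real.log t)) ^ 2) volume 1 X :=
    (hR.pow 2).intervalIntegrable
  rw [← intervalIntegral.integral_const_mul, ← intervalIntegral.integral_sub i1 (i2.const_mul 2),
    ← intervalIntegral.integral_add (i1.sub (i2.const_mul 2)) i3]
  apply intervalIntegral.integral_congr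
  intro t _
  simp only
  ring

theorem ident (E E' : ℕ → Polynomial ℝ) (Q h : ℕ) {X : ℝ} (hX : 1 ≤ X) :
    ∑ q ∈ Finset.Icc 1 Q, Gh h q * ∫ t in (1 : ℝ)..X, ((ed (E q)).eval (Real.log t) -
      (ed (E' q)).eval (Real.log t)) ^ 2 =
    (∑ q ∈ Finset.Icc 1 Q, Gh h q * ∫ t in (1 : ℝ)..X, ((ed (E q)).eval (Real.log t)) ^ 2) -
      2 * (∑ q ∈ Finset.Icc 1 Q, Gh h q *
        ∫ t in (1 : ℝ)..X, (ed (E' q)).eval (Real.log t) * (ed (E q)).eval (Real.log t)) +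
      ∑ q ∈ Finset.Icc 1 Q, Gh h q * ∫ t in (1 : ℝ)..X, ((ed (E' q)).eval (Real.log t)) ^ 2 := by
  rw [Finset.mul_sum, ← Finset.sum_sub_distrib, ← Finset.sum_add_distrib]
  apply Finset.sum_congr rfl
  intro q _
  rw [int1 (ed (E q)) (ed (E' q)) hX]
  ring

theorem llb {X : ℝ} {h : ℕ} (hX : 16 ≤ X) (hl : 1 ≤ l2 X) (hh : (h : ℝ) ≤ X) :
    0 < ll h ∧ ll h ≤ 2 * l2 X := by
  have hL : 0 < Real.log X := Real.log_pos (by linarith)
  have h0 : (0 : ℝ) ≤ h := Nat.cast_nonneg h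
  have h1 : 1 < Real.log ((h : ℝ) + 16) := by
    rw [Real.lt_log_iff_exp_lt (by linarith)]
    have := Real.exp_one_lt_d9
    linarith
  refine ⟨Real.log_pos h1, ?_⟩
  have h2 : (h : ℝ) + 16 ≤ X ^ 2 := by nlinarith
  have h3 : Real.log ((h : ℝ) + 16) ≤ 2 * Real.log X := by
    have := Real.log_le_log (by linarith) h2
    rwa [Real.log_pow, Nat.cast_ofNat] at this
  have h4 : ll h ≤ Real.log (2 * Real.log X) := Real.log_le_log (by linarith) h3
  rw [Real.log_mul (by norm_num) hL.ne'] at h4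
  have h5 : Real.log 2 ≤ 1 := by
    have := Real.log_two_lt_d9
    linarith
  change ll h ≤ Real.log 2 + l2 X at h4
  linarith

theorem Qb {η X : ℝ} (hη : 0 < η) (hl : 0 < l2 X) : 1 ≤ Qc (4 * η) X ∧
    (Qc (4 * η) X : ℝ) ≤ Real.exp (4 * η * l2 X ^ 3) ∧
    4 * η * l2 X ^ 3 - 1 ≤ Real.log (Qc (4 * η) X) := by
  have h1 : 1 ≤ Real.exp (4 * η * l2 X ^ 3) := Real.one_le_exp (by positivity)
  have h2 : 1 ≤ Qc (4 * η) X := Nat.le_floor (by simpa using h1)
  refine ⟨h2, Nat.floor_le (by positivity), ?_⟩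
  have h3 : Real.exp (4 * η * l2 X ^ 3) < (Qc (4 * η) X : ℝ) + 1 := Nat.lt_floor_add_one _
  have h4 : (1 : ℝ) ≤ (Qc (4 * η) X : ℝ) := by exact_mod_cast h2
  have h5 : Real.exp (4 * η * l2 X ^ 3) ≤ 2 * (Qc (4 * η) X : ℝ) := by linarith
  have h6 := Real.log_le_log (Real.exp_pos _) h5
  rw [Real.log_exp, Real.log_mul (by norm_num) (by linarith)] at h6
  have h7 : Real.log 2 ≤ 1 := by
    have := Real.log_two_lt_d9
    linarith
  linarith

theorem expb {η X : ℝ} {h : ℕ} (hη : 0 < η) (hl : 1 ≤ l2 X) (hη2 : 1 / (2 * η) ≤ l2 X)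
    (h0 : 0 < ll h) (h1 : ll h ≤ 2 * l2 X) :
    Real.exp (-(Real.log (Qc (4 * η) X) / (8 * ll h))) ≤ Real.exp (-(η * l2 X ^ 2 / 8)) := by
  have hl0 : 0 < l2 X := by linarith
  have h2 := (Qb (X := X) hη hl0).2.2
  rw [Real.exp_le_exp, neg_le_neg_iff, div_le_div_iff₀ (by norm_num) (by positivity)]
  have h3 : 1 ≤ 2 * η * l2 X := by
    rw [div_le_iff₀ (by positivity)] at hη2
    linarith
  have h4 : 1 ≤ 2 * η * l2 X ^ 3 := by
    have h5 : l2 X ≤ l2 X ^ 3 := le_self_pow₀ hl (by norm_num)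
    exact h3.trans (mul_le_mul_of_nonneg_left h5 (by positivity))
  have h6 : 2 * η * l2 X ^ 3 ≤ Real.log (Qc (4 * η) X) := by linarith
  calc η * l2 X ^ 2 * (8 * ll h) ≤ η * l2 X ^ 2 * (8 * (2 * l2 X)) := by
        apply mul_le_mul_of_nonneg_left _ (by positivity)
        linarith
    _ = 2 * η * l2 X ^ 3 * 8 := by ring
    _ ≤ Real.log (Qc (4 * η) X) * 8 := by linarith

/-- the error of the main term -/
theorem zerr {X η C : ℝ} {r h : ℕ} (hη : 0 < η) (hC : 0 < C) (hX16 : 16 ≤ X) (hX3 : 3 ≤ Real.log X)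
    (hl : 1 ≤ l2 X) (hη2 : 1 / (2 * η) ≤ l2 X) (hη3 : 8 * (2 * C + 2 * r + 2) / η ≤ l2 X)
    (hp : Real.log X ^ (2 * C + 2) ≤ X) (h0 : 0 < ll h) (h1 : ll h ≤ 2 * l2 X) :
    C * ll h ^ C * (1 + X * Real.log X ^ (2 * r) *
      Real.exp (-(Real.log (Qc (4 * η) X) / (8 * ll h)))) ≤ 2 * C * (X / Real.log X ^ 2) := by
  have hL : 0 < Real.log X := by linarith
  have hX : 0 < X := by linarith
  have hl0 : 0 < l2 X := by linarith
  have a1 : ll h ^ C ≤ Real.log X ^ (2 * C) := by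
    have b1 : l2 X ≤ Real.log X := by
      have := Real.log_le_sub_one_of_pos hL
      change l2 X ≤ _ at this
      linarith
    have b2 : ll h ≤ Real.log X ^ 2 := by
      have b3 : 2 * Real.log X ≤ Real.log X * Real.log X := mul_le_mul_of_nonneg_right (by linarith) hL.le
      rw [sq]
      linarith
    calc ll h ^ C ≤ (Real.log X ^ 2) ^ C := Real.rpow_le_rpow h0.le b2 hC.le
      _ = Real.log X ^ (2 * C) := by
        rw [Real.rpow_mul hL.le]
        norm_num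
  have a2 : Real.log X ^ (2 * C) * Real.log X ^ 2 ≤ X := by
    have : Real.log X ^ (2 * C + 2) = Real.log X ^ (2 * C) * Real.log X ^ 2 := by
      rw [Real.rpow_add hL]
      norm_num
    rw [← this]
    exact hp
  have a3 : ll h ^ C ≤ X / Real.log X ^ 2 := by
    rw [le_div_iff₀ (by positivity)]
    exact (mul_le_mul_of_nonneg_right a1 (by positivity)).trans a2
  have a4 : ll h ^ C * (X * Real.log X ^ (2 * r) *
      Real.exp (-(Real.log (Qc (4 * η) X) / (8 * ll h)))) ≤ X / Real.log X ^ 2 := by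
    have b1 := expb hη hl hη2 h0 h1
    have b2 : Real.log X ^ (2 * C) * (Real.log X ^ (2 * r) * Real.log X ^ 2) ≤
        Real.exp (η * l2 X ^ 2 / 8) := by
      have e1 : Real.log X ^ (2 * C) * (Real.log X ^ (2 * r) * Real.log X ^ 2) =
          Real.log X ^ (2 * C + 2 * r + 2) := by
        have e2 : Real.log X ^ (2 * r) * Real.log X ^ 2 = Real.log X ^ (((2 * r + 2 : ℕ) : ℝ)) := by
          rw [Real.rpow_natCast, pow_add]
        rw [e2, ← Real.rpow_add hL]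
        congr 1
        push_cast
        ring
      rw [e1, Real.rpow_def_of_pos hL, Real.exp_le_exp]
      change l2 X * (2 * C + 2 * r + 2) ≤ η * l2 X ^ 2 / 8
      have e3 : 2 * C + 2 * r + 2 ≤ l2 X * η / 8 := by
        rw [div_le_iff₀ hη] at hη3
        linarith
      calc l2 X * (2 * C + 2 * r + 2) ≤ l2 X * (l2 X * η / 8) := mul_le_mul_of_nonneg_left e3 hl0.le
        _ = η * l2 X ^ 2 / 8 := by ring
    rw [le_div_iff₀ (by positivity)]
    calc ll h ^ C * (X * Real.log X ^ (2 * r) *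
          Real.exp (-(Real.log (Qc (4 * η) X) / (8 * ll h)))) * Real.log X ^ 2
        = X * (ll h ^ C * (Real.log X ^ (2 * r) * Real.log X ^ 2)) *
          Real.exp (-(Real.log (Qc (4 * η) X) / (8 * ll h))) := by ring
      _ ≤ X * (Real.log X ^ (2 * C) * (Real.log X ^ (2 * r) * Real.log X ^ 2)) *
          Real.exp (-(η * l2 X ^ 2 / 8)) := by
        apply mul_le_mul _ b1 (Real.exp_pos _).le (by positivity)
        apply mul_le_mul_of_nonneg_left _ hX.le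
        exact mul_le_mul_of_nonneg_right a1 (by positivity)
      _ ≤ X * Real.exp (η * l2 X ^ 2 / 8) * Real.exp (-(η * l2 X ^ 2 / 8)) := by
        apply mul_le_mul_of_nonneg_right _ (Real.exp_pos _).le
        exact mul_le_mul_of_nonneg_left b2 hX.le
      _ = X := by rw [mul_assoc, ← Real.exp_add, add_neg_cancel, Real.exp_zero, mul_one]
  calc C * ll h ^ C * (1 + X * Real.log X ^ (2 * r) *
      Real.exp (-(Real.log (Qc (4 * η) X) / (8 * ll h))))
      = C * (ll h ^ C + ll h ^ C * (X * Real.log X ^ (2 * r) *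
      Real.exp (-(Real.log (Qc (4 * η) X) / (8 * ll h))))) := by ring
    _ ≤ C * (X / Real.log X ^ 2 + X / Real.log X ^ 2) :=
        mul_le_mul_of_nonneg_left (add_le_add a3 a4) hC.le
    _ = _ := by ring

/-- the error of the unstructured part -/
theorem gerr {X H C P : ℝ} {r h : ℕ} (hC : 0 < C) (hP : 0 < P) (hX16 : 16 ≤ X) (hX3 : 3 ≤ Real.log X)
    (hl : 1 ≤ l2 X) (hH0 : 0 < Real.log H)
    (hp4 : Real.exp (-pw (zc X) (wc X H)) ≤ P * l2 X ^ 5 / Real.log H) (h0 : 0 < ll h)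
    (h1 : ll h ≤ 2 * l2 X) :
    C * ll h ^ C * X * Real.log X ^ (2 * r - 2) * Real.exp (-(2 * r * pw (zc X) (wc X H))) ≤
      C * 2 ^ C * P ^ (2 * r) * eb r (C + 10 * r) X H := by
  have hL : 0 < Real.log X := by linarith
  have hX : 0 < X := by linarith
  have hl0 : 0 < l2 X := by linarith
  have a1 : Real.exp (-(2 * r * pw (zc X) (wc X H))) ≤ P ^ (2 * r) * l2 X ^ (10 * r) / Real.log H ^ (2 * r) := by
    have e : Real.exp (-(2 * r * pw (zc X) (wc X H))) = Real.exp (-pw (zc X) (wc X H)) ^ (2 * r) := by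
      rw [← Real.exp_nat_mul]
      congr 1
      push_cast
      ring
    rw [e]
    calc Real.exp (-pw (zc X) (wc X H)) ^ (2 * r) ≤ (P * l2 X ^ 5 / Real.log H) ^ (2 * r) :=
          pow_le_pow_left₀ (Real.exp_pos _).le hp4 _
      _ = _ := by
          rw [div_pow, mul_pow, ← pow_mul]
          congr 3
          ring
  have a2 : ll h ^ C ≤ 2 ^ C * l2 X ^ C := by
    rw [← Real.mul_rpow (by norm_num) hl0.le]
    exact Real.rpow_le_rpow h0.le h1 hC.le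
  have e2 : l2 X ^ (C + 10 * (r : ℝ)) = l2 X ^ C * l2 X ^ (10 * r) := by
    rw [Real.rpow_add hl0]
    congr 1
    rw [← Real.rpow_natCast]
    push_cast
    ring_nf
  calc C * ll h ^ C * X * Real.log X ^ (2 * r - 2) * Real.exp (-(2 * r * pw (zc X) (wc X H)))
      ≤ C * (2 ^ C * l2 X ^ C) * X * Real.log X ^ (2 * r - 2) *
        (P ^ (2 * r) * l2 X ^ (10 * r) / Real.log H ^ (2 * r)) := by
        apply mul_le_mul _ a1 (Real.exp_pos _).le (by positivity)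
        apply mul_le_mul_of_nonneg_right _ (by positivity)
        apply mul_le_mul_of_nonneg_right _ hX.le
        exact mul_le_mul_of_nonneg_left a2 hC.le
    _ = _ := by
        unfold eb
        rw [e2]
        ring

theorem fin2 {K CZ G D : ℝ} (hK : 0 ≤ K) (hCZ : 0 ≤ CZ) (hG : 0 ≤ G) :
    D ≤ 2 * K + K ^ 2 + 2 * CZ + G + D := by
  have : 0 ≤ K ^ 2 := by positivity
  linarith

theorem fin1 {K CZ G D T1 T2 T3 S1 S2 S3 PP W e1 e2 : ℝ} (hK : 0 ≤ K) (hCZ : 0 ≤ CZ) (hG : 0 ≤ G)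
    (hD : 0 ≤ D) (g1 : |T1 - S2| ≤ K * W) (g2 : |T2 - S2| ≤ K * W) (g3 : |T3 - S3| ≤ K ^ 2 * W)
    (g4 : |S1 - PP| ≤ 2 * CZ * W) (g5 : |S1 - 2 * S2 + S3| ≤ G * e1) (d1 : W ≤ e2) (d2 : e1 ≤ e2)
    (he : 0 ≤ e2) : |(T1 + T2 - T3) - PP| ≤ (2 * K + K ^ 2 + 2 * CZ + G + D) * e2 := by
  have g6 : |(T1 + T2 - T3) - PP| ≤ K * W + K * W + K ^ 2 * W + 2 * CZ * W + G * e1 := by
    rw [abs_le] at g1 g2 g3 g4 g5 ⊢
    constructor <;> linarith [g1.1, g1.2, g2.1, g2.2, g3.1, g3.2, g4.1, g4.2, g5.1, g5.2]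
  refine g6.trans ?_
  have k1 : (2 * K + K ^ 2 + 2 * CZ) * W ≤ (2 * K + K ^ 2 + 2 * CZ) * e2 :=
    mul_le_mul_of_nonneg_left d1 (by positivity)
  have k2 : G * e1 ≤ G * e2 := mul_le_mul_of_nonneg_left d2 hG
  have k3 : 0 ≤ D * e2 := mul_nonneg hD he
  linarith

end X1bx

theorem pfX1b (h1 : fpP1) (h2 : fpP2) (h3 : fpP4) (h4 : fpZ5) (h5 : fpS1) (h6 : fpV1) (h7 : fpG3)
    (h8 : fpH1) (h9 : fpH2) (h10 : tsY3) : fpX1b := by
  intro r E hr hAP hCB θ' η hθ0 hθ1 hη0 hη1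
  have hr1 : 1 ≤ r := by omega
  obtain ⟨P, hP, hP4⟩ := h3
  obtain ⟨CZ, hCZ, hZ⟩ := h4 r E hr1 hAP hCB
  obtain ⟨CS, hCS, hS⟩ := h5 r 1 one_pos
  obtain ⟨CV, hCV, hV⟩ := h6 r E hr1 hAP hCB
  obtain ⟨CG, XG, hCG, hG⟩ := h7 r E hr hAP hCB
  obtain ⟨η1, δ1, X1, hη1', hδ1, hH1⟩ := h8 r E θ' hr1 hAP hCB hθ0 hθ1
  obtain ⟨η2, δ2, X2, hη2, hδ2, hH2⟩ := h9 r θ' hr1 hθ0 hθ1
  obtain ⟨η3, δ3, X3, hη3, hδ3, hY3⟩ := h10 r E θ' hr1 hAP hCB hθ0 hθ1
  set A : ℝ := 2 + 24 / η1 + 24 / δ1 + 24 / η2 + 24 / δ2 + 24 / η3 + 24 / δ3 + 1 / (2 * η) +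
    8 * (2 * CZ + 2 * r + 2) / η + (2 * CZ + 2) + 2 * (CV + 2) with hA
  obtain ⟨X0, hX0⟩ := h1 A
  have p1 : 0 < 24 / η1 := by positivity
  have p2 : 0 < 24 / δ1 := by positivity
  have p3 : 0 < 24 / η2 := by positivity
  have p4 : 0 < 24 / δ2 := by positivity
  have p5 : 0 < 24 / η3 := by positivity
  have p6 : 0 < 24 / δ3 := by positivity
  have p7 : 0 < 1 / (2 * η) := by positivity
  have p8 : 0 < 8 * (2 * CZ + 2 * r + 2) / η := by positivity
  set K : ℝ := CV * CS with hK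
  have hK0 : 0 < K := by positivity
  set G : ℝ := CG * 2 ^ CG * P ^ (2 * r) with hGdef
  have hG0 : 0 < G := by positivity
  refine ⟨2 * K + K ^ 2 + 2 * CZ + G + (CG + 10 * r), max (max X0 XG) (max X1 (max X2 X3)), by positivity, ?_⟩
  intro X H k h hX hH6 hHX hH0 hKK hh1 hhX
  have hXX0 : X0 ≤ X := le_trans ((le_max_left _ _).trans (le_max_left _ _)) hX
  have hXXG : XG ≤ X := le_trans ((le_max_right _ _).trans (le_max_left _ _)) hX
  have hXX1 : X1 ≤ X := le_trans ((le_max_left _ _).trans (le_max_right _ _)) hX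
  have hXX2 : X2 ≤ X := le_trans (((le_max_left _ _).trans (le_max_right _ _)).trans (le_max_right _ _)) hX
  have hXX3 : X3 ≤ X := le_trans (((le_max_right _ _).trans (le_max_right _ _)).trans (le_max_right _ _)) hX
  obtain ⟨hX16, hX3, hlA, hlogA, hexp100⟩ := hX0 X hXX0
  have hXpos : 0 < X := by linarith
  have hL : 0 < Real.log X := by linarith
  have hl2' : 2 ≤ l2 X := by linarith
  have hl1 : 1 ≤ l2 X := by linarith
  have hl0 : 0 < l2 X := by linarith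
  have hlH : 0 < Real.log H := lt_of_lt_of_le (by positivity) hH6
  have hH1' : 1 < H := by
    by_contra hcon
    have := Real.log_nonpos hH0.le (not_lt.1 hcon)
    linarith
  have hlHX : Real.log H ≤ Real.log X := Real.log_le_log hH0 hHX
  obtain ⟨w1, w2, w3, w4, w5, w6⟩ := h2 X H hl2' hH6 hHX hH0
  have hw1 : 1 ≤ wc X H := by
    unfold wc zi
    exact Real.one_le_exp (by positivity)
  have hwX : wc X H ≤ X := by
    rw [← Real.log_le_log_iff (by linarith) hXpos]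
    refine w3.trans ((div_le_self hlH.le ?_).trans hlHX)
    exact one_le_pow₀ hl1
  have hSX : (Sc H : ℝ) ≤ X := by
    have a1 : (Sc H : ℝ) ≤ H ^ (1 / 16 : ℝ) := Nat.floor_le (by positivity)
    have a2 : H ^ (1 / 16 : ℝ) ≤ H ^ (1 : ℝ) := Real.rpow_le_rpow_of_exponent_le hH1'.le (by norm_num)
    rw [Real.rpow_one] at a2
    linarith
  have hV' := fun q => hV X (zc X) (wc X H) k (Sc H) q hKK (by linarith) hw1 hwX hSX
  set E' : ℕ → Polynomial ℝ := E0 r k E (zc X) (wc X H) (Sc H) with hE'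
  set M : ℝ := K * Real.log X ^ CV with hM
  have hM0 : 0 ≤ M := by positivity
  have hdeg : ∀ s, (E' s).natDegree ≤ r - 1 := fun s => (hV' s).1
  have hcoef : ∀ s j, 1 ≤ s → |(E' s).coeff j| ≤ M := by
    intro s j hs
    have a1 := (hV' s).2 j hs
    have a2 := (hS s hs).2
    rw [sub_self, Real.rpow_zero, mul_one] at a2
    calc |(E' s).coeff j| ≤ CV * Real.log X ^ CV * be r s := a1
      _ ≤ CV * Real.log X ^ CV * CS := mul_le_mul_of_nonneg_left a2 (by positivity)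
      _ = M := by rw [hM, hK]; ring
  set Q : ℕ := Qc (4 * η) X with hQ
  obtain ⟨hQ1, hQ2, hQ3⟩ := X1bx.Qb (X := X) hη0 hl0
  have hQl3 : (Q : ℝ) ≤ Real.exp (l2 X ^ 3) := by
    refine hQ2.trans (Real.exp_le_exp.2 ?_)
    have h11 : 4 * η ≤ 1 := by linarith only [hη1]
    have h12 := mul_le_mul_of_nonneg_right h11 (pow_nonneg hl0.le 3)
    rwa [one_mul] at h12
  have hQη : ∀ {e : ℝ}, 0 < e → 24 / e ≤ l2 X → (Q : ℝ) ≤ X ^ e := fun he hle =>
    hQl3.trans (X1bx.expl3 he hXpos hX3 hle)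
  have hhX' : (h : ℝ) ≤ X := by
    refine hhX.trans ?_
    have : X ^ θ' ≤ X ^ (1 : ℝ) := Real.rpow_le_rpow_of_exponent_le (by linarith) hθ1.le
    rwa [Real.rpow_one] at this
  obtain ⟨hll0, hll1⟩ := X1bx.llb hX16 hl1 hhX'
  -- the three correlations
  have b1 := hY3 E' M X Q h hXX3 hM0 hdeg hcoef (hQη hη3 (by linarith)) hh1 hhX
  have b2 := hH1 E' M X Q h hXX1 hM0 hdeg hcoef (hQη hη1' (by linarith)) hh1 hhX
  have b3 := hH2 E' M X Q h hXX2 hM0 hdeg hcoef (hQη hη2 (by linarith)) hh1 hhX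
  have lp : ∀ {B : ℝ}, B ≤ A → Real.log X ^ B ≤ Real.exp (l2 X ^ 3) := fun hB =>
    X1bx.logpow hB hX3 hl1 hlogA
  have hCV2 : CV + 2 ≤ A := by linarith
  have hCV3 : 2 * CV + 2 ≤ A := by linarith
  have c1 : M * X ^ (1 - δ3) ≤ K * (X / Real.log X ^ 2) :=
    X1bx.err hXpos hX3 hK0.le ((lp hCV2).trans (X1bx.expl3 hδ3 hXpos hX3 (by linarith)))
  have c2 : M * X ^ (1 - δ1) ≤ K * (X / Real.log X ^ 2) :=
    X1bx.err hXpos hX3 hK0.le ((lp hCV2).trans (X1bx.expl3 hδ1 hXpos hX3 (by linarith)))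
  have c3 : M ^ 2 * X ^ (1 - δ2) ≤ K ^ 2 * (X / Real.log X ^ 2) := by
    have e1 : M ^ 2 = K ^ 2 * Real.log X ^ (2 * CV) := by
      rw [hM, mul_pow]
      congr 1
      rw [mul_comm 2 CV, Real.rpow_mul hL.le]
      norm_num
    rw [e1]
    exact X1bx.err hXpos hX3 (by positivity) ((lp hCV3).trans (X1bx.expl3 hδ2 hXpos hX3 (by linarith)))
  have c4 := hZ h Q X hh1 hQ1 (by linarith)
  have hpX : Real.log X ^ (2 * CZ + 2) ≤ X := by
    refine (lp (by linarith)).trans (hexp100.trans ?_)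
    have : X ^ (1 / 100 : ℝ) ≤ X ^ (1 : ℝ) := Real.rpow_le_rpow_of_exponent_le (by linarith) (by norm_num)
    rwa [Real.rpow_one] at this
  have c5 := X1bx.zerr (r := r) (h := h) hη0 hCZ hX16 hX3 hl1 (by linarith) (by linarith) hpX hll0 hll1
  have c6 := hG X H k Q h hXXG hH6 hHX hH0 hKK hQl3 hh1
  have c7 := X1bx.gerr (r := r) (h := h) (H := H) hCG hP hX16 hX3 hl1 hlH (hP4 X H hl2' hH6 hHX hH0) hll0 hll1
  have hid := X1bx.ident E E' Q h (X := X) (by linarith)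
  rw [← hE'] at c6
  rw [hid] at c6
  set S1 := ∑ q ∈ Finset.Icc 1 Q, Gh h q * ∫ t in (1 : ℝ)..X, ((ed (E q)).eval (Real.log t)) ^ 2 with hS1
  set S2 := ∑ q ∈ Finset.Icc 1 Q, Gh h q *
        ∫ t in (1 : ℝ)..X, (ed (E' q)).eval (Real.log t) * (ed (E q)).eval (Real.log t) with hS2
  set S3 := ∑ q ∈ Finset.Icc 1 Q, Gh h q * ∫ t in (1 : ℝ)..X, ((ed (E' q)).eval (Real.log t)) ^ 2 with hS3
  change |(cor (fs E' Q) (dr r) ⌊X⌋₊ h + cor (dr r) (fs E' Q) ⌊X⌋₊ h - cor (fs E' Q) (fs E' Q) ⌊X⌋₊ h) -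
    X * (PH r E h).eval (Real.log X)| ≤ _
  set T1 := cor (fs E' Q) (dr r) ⌊X⌋₊ h
  set T2 := cor (dr r) (fs E' Q) ⌊X⌋₊ h
  set T3 := cor (fs E' Q) (fs E' Q) ⌊X⌋₊ h
  set PP := X * (PH r E h).eval (Real.log X)
  set W := X / Real.log X ^ 2 with hW
  have hrR : (0 : ℝ) ≤ 10 * (r : ℝ) := by positivity
  set C : ℝ := 2 * K + K ^ 2 + 2 * CZ + G + (CG + 10 * r) with hC
  have hC0 : 0 < C := by positivity
  have d1 : W ≤ eb r C X H := X1bx.ebge hXpos hl1 hC0.le hr1 hlH hlHX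
  have d2 : eb r (CG + 10 * r) X H ≤ eb r C X H :=
    X1bx.ebmono hXpos hL hl1 (X1bx.fin2 hK0.le hCZ.le hG0.le) hlH
  have hW0 : 0 ≤ W := by positivity
  have heb : 0 ≤ eb r C X H := hW0.trans d1
  have g1 : |T1 - S2| ≤ K * W := b1.trans c1
  have g2 : |T2 - S2| ≤ K * W := b2.trans c2
  have g3 : |T3 - S3| ≤ K ^ 2 * W := b3.trans c3
  have g4 : |S1 - PP| ≤ 2 * CZ * W := c4.trans c5
  have g5 : |S1 - 2 * S2 + S3| ≤ G * eb r (CG + 10 * r) X H := c6.trans c7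
  exact X1bx.fin1 hK0.le hCZ.le hG0.le (by positivity) g1 g2 g3 g4 g5 d1 d2 heb

end Pool.Agent.Work.MP_122e00_nt.FP
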