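import Mathlib
import Pool.Agent.Work.MP_122e00_nt.FP.StmtsD

set_option autoImplicit false

/-!
# Full polynomial, item X2: few exceptions for fixed `X`
-/

namespace Pool.Agent.Work.MP_122e00_nt.FP

open Finset Filter Topology ArithmeticFunction MeasureTheory
open Pool.Agent.Work.MP_122e00_nt.TS
open scoped ArithmeticFunction.zeta ArithmeticFunction.Moebius

namespace X2x

open Classical in
/-- Chebyshev -/
theorem cheb (s : Finset ℕ) (c : ℕ → ℝ) (K X LX A₁ : ℝ) (hX : 0 < X) (hLX : 0 < LX)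
    (h : ∑ κ ∈ s, c κ ^ 2 ≤ K * X ^ 2 * LX ^ (-(A₁ + 5))) :
    ((s.filter (fun κ => ¬ |c κ| ≤ X / LX ^ 2)).card : ℝ) ≤ K * LX ^ (-A₁ - 1) := by
  have h1 : ((s.filter (fun κ => ¬ |c κ| ≤ X / LX ^ 2)).card : ℝ) * (X / LX ^ 2) ^ 2 ≤
      ∑ κ ∈ s.filter (fun κ => ¬ |c κ| ≤ X / LX ^ 2), c κ ^ 2 := by
    rw [← nsmul_eq_mul]
    refine Finset.card_nsmul_le_sum _ _ _ fun κ hκ => ?_
    have h2 : X / LX ^ 2 < |c κ| := not_le.1 (Finset.mem_filter.1 hκ).2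
    rw [← sq_abs (c κ)]
    exact pow_le_pow_left₀ (by positivity) h2.le 2
  have h2 : ∑ κ ∈ s.filter (fun κ => ¬ |c κ| ≤ X / LX ^ 2), c κ ^ 2 ≤ ∑ κ ∈ s, c κ ^ 2 :=
    Finset.sum_le_sum_of_subset_of_nonneg (Finset.filter_subset _ _) (fun _ _ _ => sq_nonneg _)
  have h3 := (h1.trans h2).trans h
  have h4 : K * X ^ 2 * LX ^ (-(A₁ + 5)) = K * LX ^ (-A₁ - 1) * (X / LX ^ 2) ^ 2 := by
    have e1 : LX ^ (-A₁ - 1) = LX ^ (-(A₁ + 5)) * LX ^ 4 := by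
      rw [← Real.rpow_natCast LX 4, ← Real.rpow_add hLX]
      congr 1
      push_cast
      ring
    rw [e1]
    field_simp
  rw [h4] at h3
  exact le_of_mul_le_mul_right h3 (by positivity)

end X2x

open X2x in
open Classical in
theorem pfX2 (h1 : fpP1) (h2 : fpK) (h3 : fpS4) (h4 : fpW4) (h5 : fpQ1) (h6 : fpX1)
    (h7 : tsH2) : fpX2 := by
  intro r E hr hAP hCB F A hd hlc hpos θ A₁ hθ hθ1 hA₁
  obtain ⟨A', c, CF, hc, hCF, -, hCFb⟩ := h7 F hd hlc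
  obtain ⟨η₀, hη₀, hW⟩ := h4 r E hr hAP hCB
  obtain ⟨η, hη, hη1, hη2⟩ : ∃ η : ℝ, 0 < η ∧ η ≤ η₀ ∧ η ≤ 1 / 100 :=
    ⟨min η₀ (1 / 100), lt_min hη₀ (by norm_num), min_le_left _ _, min_le_right _ _⟩
  obtain ⟨XW, hW'⟩ := hW η hη hη1
  obtain ⟨CS, XS, hCS, hS⟩ := h3 r E hr hAP hCB
  obtain ⟨θ', hθ'⟩ : ∃ θ' : ℝ, θ' = (1 + θ) / 2 := ⟨_, rfl⟩
  obtain ⟨CX, XX, hCX, hXX⟩ := h6 r E hr hAP hCB θ' η (by linarith) (by linarith) hη hη2
  obtain ⟨XQ, hQ⟩ := h5 F A hd hlc hpos CS (A₁ + 5) θ hθ hθ1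
  have ev1 : ∀ᶠ X : ℝ in atTop, CF ≤ X ^ (θ' - θ) :=
    (tendsto_rpow_atTop (by linarith)).eventually_ge_atTop _
  have ev2 : ∀ᶠ X : ℝ in atTop, 4 ≤ Real.log X := Real.tendsto_log_atTop.eventually_ge_atTop _
  obtain ⟨X0, hX0⟩ := (((ev1.and ev2).and ((eventually_ge_atTop XW).and
    (eventually_ge_atTop XS))).and ((eventually_ge_atTop XX).and
    ((eventually_ge_atTop XQ).and (eventually_ge_atTop (1 : ℝ))))).exists_forall_of_atTop
  refine ⟨CX, X0, hCX, fun X K hX hK hlH hHθ => ?_⟩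
  obtain ⟨⟨⟨c1, c2⟩, c3, c4⟩, c5, c6, c7⟩ := hX0 X hX
  have hXp : 0 < X := by linarith
  have hL0 : 0 < Real.log X := by linarith
  have hK1 : (1 : ℝ) ≤ K := by exact_mod_cast hK
  obtain ⟨H, hH⟩ : ∃ H : ℝ, H = (K : ℝ) ^ F.natDegree := ⟨_, rfl⟩
  rw [← hH] at hlH hHθ ⊢
  have hH1 : 1 ≤ H := by rw [hH]; exact one_le_pow₀ hK1
  have hH0 : 0 < H := by linarith
  have hHX : H ≤ X := by
    have := Real.rpow_le_rpow_of_exponent_le c7 hθ1.le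
    rw [Real.rpow_one] at this
    exact hHθ.trans this
  obtain ⟨k, hk⟩ := h2 r (zc X) (wc X H) (by omega)
  have hSI : ∀ (γ : ℝ) (N L : ℕ), (N : ℝ) ≤ 2 * X → H ^ (3 / 4 : ℝ) ≤ L → (L : ℝ) ≤ H →
      SI (fd r k E η X H) N L γ ≤ (L : ℝ) ^ 2 * X * Real.exp (-(l2 X ^ 2)) :=
    fun γ N L hN hL1 hL2 => hW' X H γ k N L c3 hlH hHX hH0 hk hN hL1 hL2
  obtain ⟨s1, s2, s3, s4⟩ := hS X H η k c4 hlH hHX hH0 hη hη2 hk
  have q1 := (hQ X H K (fd r k E η X H) (dr r) c6 hH hlH hHθ s4 s1).1 hSI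
  have q2 := (hQ X H K (dr r) (fd r k E η X H) c6 hH hlH hHθ s1 s4).2 hSI
  have q3 := (hQ X H K (fm r k E η X H) (fd r k E η X H) c6 hH hlH hHθ s3 s4).2 hSI
  have q4 := (hQ X H K (fd r k E η X H) (fX r k X H) c6 hH hlH hHθ s4 s2).1 hSI
  have b1 := cheb _ (fun κ => cor (fd r k E η X H) (dr r) ⌊X⌋₊ (fv F κ)) _ _ _ _ hXp hL0 q1
  have b2 := cheb _ (fun κ => cor (dr r) (fd r k E η X H) ⌊X⌋₊ (fv F κ)) _ _ _ _ hXp hL0 q2
  have b3 := cheb _ (fun κ => cor (fm r k E η X H) (fd r k E η X H) ⌊X⌋₊ (fv F κ)) _ _ _ _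
    hXp hL0 q3
  have b4 := cheb _ (fun κ => cor (fd r k E η X H) (fX r k X H) ⌊X⌋₊ (fv F κ)) _ _ _ _
    hXp hL0 q4
  -- all other `κ`
  have hgood : ∀ κ ∈ Finset.Ioc A K, Cr r k E η X H (fv F κ) → Gf r E CX X H (fv F κ) := by
    intro κ hκ hCr
    rw [Finset.mem_Ioc] at hκ
    have hk1 : 1 ≤ κ := by omega
    have p1 := hpos κ hκ.1
    have p2 : ((fv F κ : ℕ) : ℤ) = F.eval (κ : ℤ) := by
      unfold fv
      exact Int.toNat_of_nonneg (by omega)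
    have p3 : 1 ≤ fv F κ := by omega
    have p4 : ((fv F κ : ℕ) : ℝ) = ((F.eval (κ : ℤ) : ℤ) : ℝ) := by
      exact_mod_cast congrArg (fun z : ℤ => (z : ℝ)) p2
    have p5 : ((fv F κ : ℕ) : ℝ) ≤ X ^ θ' := by
      rw [p4]
      calc ((F.eval (κ : ℤ) : ℤ) : ℝ) ≤ CF * (κ : ℝ) ^ F.natDegree :=
            (le_abs_self _).trans (hCFb κ hk1)
        _ ≤ CF * (K : ℝ) ^ F.natDegree := by
            have : (κ : ℝ) ≤ K := by exact_mod_cast hκ.2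
            gcongr
        _ ≤ X ^ (θ' - θ) * X ^ θ := by
            rw [← hH]
            exact mul_le_mul c1 hHθ hH0.le (by positivity)
        _ = X ^ θ' := by
            rw [← Real.rpow_add hXp]
            congr 1
            ring
    exact hXX X H k (fv F κ) c5 hlH hHX hH0 hk p3 p5 hCr
  have hsub : (Finset.Ioc A K).filter (fun κ => ¬ Gf r E CX X H (fv F κ)) ⊆
      (((Finset.Ioc A K).filter (fun κ => ¬ |cor (fd r k E η X H) (dr r) ⌊X⌋₊ (fv F κ)| ≤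
          X / Real.log X ^ 2)) ∪
        ((Finset.Ioc A K).filter (fun κ => ¬ |cor (dr r) (fd r k E η X H) ⌊X⌋₊ (fv F κ)| ≤
          X / Real.log X ^ 2))) ∪
      (((Finset.Ioc A K).filter (fun κ => ¬ |cor (fm r k E η X H) (fd r k E η X H) ⌊X⌋₊
          (fv F κ)| ≤ X / Real.log X ^ 2)) ∪
        ((Finset.Ioc A K).filter (fun κ => ¬ |cor (fd r k E η X H) (fX r k X H) ⌊X⌋₊
          (fv F κ)| ≤ X / Real.log X ^ 2))) := by
    intro κ hκ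
    obtain ⟨hκ1, hκ2⟩ := Finset.mem_filter.1 hκ
    simp only [Finset.mem_union, Finset.mem_filter, hκ1, true_and]
    by_contra hcon
    push Not at hcon
    exact hκ2 (hgood κ hκ1 ⟨hcon.1.1, hcon.1.2, hcon.2.1, hcon.2.2⟩)
  have hcard := (Finset.card_le_card hsub).trans ((Finset.card_union_le _ _).trans
    (Nat.add_le_add (Finset.card_union_le _ _) (Finset.card_union_le _ _)))
  have hcard' : ((((Finset.Ioc A K).filter (fun κ => ¬ Gf r E CX X H (fv F κ))).card : ℕ) : ℝ) ≤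
      (K * Real.log X ^ (-A₁ - 1) + K * Real.log X ^ (-A₁ - 1)) +
      (K * Real.log X ^ (-A₁ - 1) + K * Real.log X ^ (-A₁ - 1)) := by
    refine ((Nat.cast_le (α := ℝ)).2 hcard).trans ?_
    rw [Nat.cast_add, Nat.cast_add, Nat.cast_add]
    exact add_le_add (add_le_add b1 b2) (add_le_add b3 b4)
  refine hcard'.trans ?_
  have e1 : Real.log X ^ (-A₁) = Real.log X ^ (-A₁ - 1) * Real.log X := by
    rw [← Real.rpow_add_one hL0.ne']
    congr 1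
    ring
  rw [e1]
  have e2 : 0 ≤ (K : ℝ) * Real.log X ^ (-A₁ - 1) := by positivity
  nlinarith

end Pool.Agent.Work.MP_122e00_nt.FP
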