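import Mathlib
import Pool.Agent.Work.MP_122e00_nt.FP.StmtsD

/-!
# Item X3: the trivial bound for every shift
-/

namespace Pool.Agent.Work.MP_122e00_nt.FP

open Finset Filter Topology ArithmeticFunction MeasureTheory
open Pool.Agent.Work.MP_122e00_nt.TS
open scoped ArithmeticFunction.zeta ArithmeticFunction.Moebius

namespace X3x

lemma PW_self (z : ℝ) (hz : 0 ≤ z) : PW z z = ∅ := by
  unfold PW
  rw [Finset.filter_eq_empty_iff]
  rintro p hp ⟨_, h2⟩
  rw [Finset.mem_Icc] at hp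
  have : (p : ℝ) ≤ z := (Nat.le_floor_iff hz).1 hp.2
  linarith

lemma dfree_self (r : ℕ) (z : ℝ) (hz : 0 ≤ z) (n : ℕ) : dfree r z z n = dr r n := by
  unfold dfree ow
  rw [PW_self z hz]
  simp

lemma pw_self (z : ℝ) (hz : 0 ≤ z) : pw z z = 0 := by
  unfold pw
  rw [PW_self z hz]
  simp

lemma ll_ge_one (h : ℕ) : 1 ≤ ll h := by
  unfold ll
  have hE : Real.exp 1 < 2.7182818286 := Real.exp_one_lt_d9
  have h16 : Real.exp (Real.exp 1) ≤ (h : ℝ) + 16 := by
    have h1 : Real.exp (Real.exp 1) ≤ Real.exp 2.75 := Real.exp_le_exp.2 (by linarith)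
    have h2 : Real.exp 2.75 ^ 4 = Real.exp 1 ^ 11 := by
      rw [← Real.exp_nat_mul, ← Real.exp_nat_mul]
      norm_num
    have h3 : Real.exp 1 ^ 11 ≤ 2.7182818286 ^ 11 :=
      pow_le_pow_left₀ (Real.exp_pos _).le hE.le 11
    have h4 : Real.exp 2.75 ≤ 16 := by
      by_contra hc
      push Not at hc
      have h5 : (16 : ℝ) ^ 4 < Real.exp 2.75 ^ 4 := pow_lt_pow_left₀ hc (by norm_num) (by norm_num)
      rw [h2] at h5
      have h6 : (2.7182818286 : ℝ) ^ 11 < 16 ^ 4 := by norm_num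
      linarith
    have h7 : (0 : ℝ) ≤ h := Nat.cast_nonneg h
    linarith
  have h17 : Real.exp 1 ≤ Real.log ((h : ℝ) + 16) := by
    rw [Real.le_log_iff_exp_le (by positivity)]
    exact h16
  rw [Real.le_log_iff_exp_le (lt_of_lt_of_le (Real.exp_pos _) h17)]
  exact h17

lemma l2_ge_one {X : ℝ} (hX : 16 ≤ X) : 1 ≤ l2 X := by
  have h := ll_ge_one 0
  unfold ll at h
  unfold l2
  refine h.trans (Real.log_le_log ?_ (Real.log_le_log (by norm_num) ?_))
  · exact Real.log_pos (by norm_num)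
  · push_cast
    linarith

lemma log_ge_one {X : ℝ} (hX : 16 ≤ X) : 1 ≤ Real.log X := by
  rw [Real.le_log_iff_exp_le (by linarith)]
  have := Real.exp_one_lt_d9
  linarith

lemma ll_le {X : ℝ} {h : ℕ} (hX : 16 ≤ X) (hh : (h : ℝ) ≤ X) : ll h ≤ 2 * l2 X := by
  have hl := log_ge_one hX
  have h2 := l2_ge_one hX
  unfold ll
  have hpos : (0 : ℝ) ≤ h := Nat.cast_nonneg h
  have h1 : Real.log ((h : ℝ) + 16) ≤ 2 * Real.log X := by
    have h3 : (h : ℝ) + 16 ≤ X ^ 2 := by nlinarith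
    calc Real.log ((h : ℝ) + 16) ≤ Real.log (X ^ 2) := Real.log_le_log (by positivity) h3
      _ = 2 * Real.log X := by rw [Real.log_pow]; norm_num
  have h4 : 0 < Real.log ((h : ℝ) + 16) := Real.log_pos (by linarith)
  calc Real.log (Real.log ((h : ℝ) + 16)) ≤ Real.log (2 * Real.log X) := Real.log_le_log h4 h1
    _ = Real.log 2 + l2 X := by
        rw [Real.log_mul (by norm_num) (by linarith)]
        rfl
    _ ≤ 2 * l2 X := by
        have : Real.log 2 ≤ 1 := by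
          have := Real.log_two_lt_d9
          linarith
        linarith

lemma ll_rpow {X : ℝ} {h : ℕ} (hX : 16 ≤ X) (hh : (h : ℝ) ≤ X) {a b : ℝ} (ha : 0 ≤ a)
    (hab : a ≤ b) : ll h ^ a ≤ 2 ^ a * l2 X ^ b := by
  have h1 := ll_ge_one h
  have h2 := l2_ge_one hX
  calc ll h ^ a ≤ (2 * l2 X) ^ a := Real.rpow_le_rpow (by linarith) (ll_le hX hh) ha
    _ = 2 ^ a * l2 X ^ a := Real.mul_rpow (by norm_num) (by linarith)
    _ ≤ 2 ^ a * l2 X ^ b := by
        refine mul_le_mul_of_nonneg_left ?_ (by positivity)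
        exact Real.rpow_le_rpow_of_exponent_le h2 hab

lemma PH_deg (r : ℕ) (E : ℕ → Polynomial ℝ) (h : ℕ) :
    (PH r E h).natDegree ≤ 2 * (r - 1) := by
  unfold PH
  refine Polynomial.natDegree_sum_le_of_forall_le _ _ ?_
  intro j hj
  rw [Finset.mem_range] at hj
  refine (Polynomial.natDegree_C_mul_X_pow_le _ _).trans (by omega)

lemma PH_eval (r : ℕ) (E : ℕ → Polynomial ℝ) (h : ℕ) (t M : ℝ) (ht : 1 ≤ t) (hM : 0 ≤ M)
    (hc : ∀ j, |(PH r E h).coeff j| ≤ M) :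
    |(PH r E h).eval t| ≤ (2 * (r - 1 : ℕ) + 1) * (M * t ^ (2 * (r - 1))) := by
  rw [Polynomial.eval_eq_sum_range' (n := 2 * (r - 1) + 1)
    (Nat.lt_succ_of_le (PH_deg r E h))]
  calc |∑ i ∈ Finset.range (2 * (r - 1) + 1), (PH r E h).coeff i * t ^ i|
      ≤ ∑ i ∈ Finset.range (2 * (r - 1) + 1), |(PH r E h).coeff i * t ^ i| :=
        Finset.abs_sum_le_sum_abs _ _
    _ ≤ ∑ i ∈ Finset.range (2 * (r - 1) + 1), M * t ^ (2 * (r - 1)) := by
        refine Finset.sum_le_sum ?_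
        intro i hi
        rw [Finset.mem_range] at hi
        rw [abs_mul, abs_of_nonneg (by positivity : (0 : ℝ) ≤ t ^ i)]
        exact mul_le_mul (hc i) (pow_le_pow_right₀ ht (by omega)) (by positivity) hM
    _ = (2 * (r - 1 : ℕ) + 1) * (M * t ^ (2 * (r - 1))) := by
        rw [Finset.sum_const, Finset.card_range, nsmul_eq_mul]
        push_cast
        ring

end X3x

open X3x in
theorem pfX3 (h1 : fpD4) (h2 : fpE1) (h3 : fpZ4) : fpX3 := by
  intro r E hr hAP hCB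
  obtain ⟨C1, Y1, hC1, H1⟩ := h1 r hr
  obtain ⟨C2, hC2, H2⟩ := h2
  obtain ⟨C3, hC3, H3⟩ := h3 r E (by omega) hAP hCB
  set ρ : ℝ := ((r : ℝ) - 1) ^ 2 with hρ
  have hρ0 : 0 ≤ ρ := by positivity
  set D1 : ℝ := C1 * (Real.exp (ρ * C2) * 2 ^ ρ) with hD1
  have hD1p : 0 < D1 := by positivity
  set D3 : ℝ := (2 * (r - 1 : ℕ) + 1) * (C3 * 2 ^ C3) with hD3
  have hD3p : 0 < D3 := by positivity
  refine ⟨D1 + D3 + ρ + C3, max Y1 16, by positivity, ?_⟩
  intro X h hX hh hhX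
  have hXY : Y1 ≤ X := (le_max_left _ _).trans hX
  have hX16 : 16 ≤ X := (le_max_right _ _).trans hX
  set C : ℝ := D1 + D3 + ρ + C3 with hC
  have hl2 := l2_ge_one hX16
  have hlog := log_ge_one hX16
  have hll := ll_ge_one h
  have e1 : 2 * (r - 1) = 2 * r - 2 := by omega
  -- the correlation
  have hz0 : (0 : ℝ) ≤ X ^ (1 / 4 : ℝ) := Real.rpow_nonneg (by linarith) _
  have hz2 : (2 : ℝ) ≤ X ^ (1 / 4 : ℝ) := by
    have h16 : (2 : ℝ) = (16 : ℝ) ^ (1 / 4 : ℝ) := by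
      rw [show (16 : ℝ) = 2 ^ (4 : ℝ) by norm_num, ← Real.rpow_mul (by norm_num)]
      norm_num
    rw [h16]
    exact Real.rpow_le_rpow (by norm_num) hX16 (by norm_num)
  have hcor := H1 X (X ^ (1 / 4 : ℝ)) (X ^ (1 / 4 : ℝ)) h hXY hz2 le_rfl le_rfl hh hhX
  simp only [dfree_self r _ hz0, pw_self _ hz0] at hcor
  have hcor0 : 0 ≤ cor (dr r) (dr r) ⌊X⌋₊ h := by
    unfold cor dr
    positivity
  have hexp : Real.exp (-(2 * (r : ℝ) * 0) + ρ * Sh h) ≤
      Real.exp (ρ * C2) * 2 ^ ρ * l2 X ^ C := by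
    calc Real.exp (-(2 * (r : ℝ) * 0) + ρ * Sh h) ≤ Real.exp (ρ * C2 + Real.log (ll h) * ρ) := by
          refine Real.exp_le_exp.2 ?_
          have := mul_le_mul_of_nonneg_left (H2 h hh) hρ0
          nlinarith
      _ = Real.exp (ρ * C2) * ll h ^ ρ := by
          rw [Real.exp_add, Real.rpow_def_of_pos (by linarith : 0 < ll h)]
      _ ≤ Real.exp (ρ * C2) * (2 ^ ρ * l2 X ^ C) := by
          refine mul_le_mul_of_nonneg_left ?_ (Real.exp_pos _).le
          exact ll_rpow hX16 hhX hρ0 (by rw [hC]; linarith)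
      _ = _ := by ring
  have hA : cor (dr r) (dr r) ⌊X⌋₊ h ≤ D1 * (X * Real.log X ^ (2 * r - 2) * l2 X ^ C) := by
    calc cor (dr r) (dr r) ⌊X⌋₊ h
        ≤ C1 * Real.exp (-(2 * (r : ℝ) * 0) + ρ * Sh h) * X * Real.log X ^ (2 * r - 2) := hcor
      _ ≤ C1 * (Real.exp (ρ * C2) * 2 ^ ρ * l2 X ^ C) * X * Real.log X ^ (2 * r - 2) := by
          gcongr
      _ = D1 * (X * Real.log X ^ (2 * r - 2) * l2 X ^ C) := by
          rw [hD1]
          ring
  -- the polynomial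
  have hP := PH_eval r E h (Real.log X) (C3 * ll h ^ C3) hlog (by positivity) (H3 h hh).2
  have hB : |X * (PH r E h).eval (Real.log X)| ≤
      D3 * (X * Real.log X ^ (2 * r - 2) * l2 X ^ C) := by
    rw [abs_mul, abs_of_nonneg (by linarith : (0 : ℝ) ≤ X)]
    have h5 : ll h ^ C3 ≤ 2 ^ C3 * l2 X ^ C := ll_rpow hX16 hhX hC3.le (by rw [hC]; linarith)
    calc X * |(PH r E h).eval (Real.log X)|
        ≤ X * ((2 * (r - 1 : ℕ) + 1) * (C3 * ll h ^ C3 * Real.log X ^ (2 * (r - 1)))) := by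
          gcongr
      _ ≤ X * ((2 * (r - 1 : ℕ) + 1) * (C3 * (2 ^ C3 * l2 X ^ C) *
            Real.log X ^ (2 * (r - 1)))) := by
          gcongr
      _ = D3 * (X * Real.log X ^ (2 * r - 2) * l2 X ^ C) := by
          rw [hD3, e1]
          ring
  have hpos : 0 ≤ X * Real.log X ^ (2 * r - 2) * l2 X ^ C := by positivity
  calc |cor (dr r) (dr r) ⌊X⌋₊ h - X * (PH r E h).eval (Real.log X)|
      ≤ |cor (dr r) (dr r) ⌊X⌋₊ h| + |X * (PH r E h).eval (Real.log X)| := abs_sub _ _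
    _ ≤ D1 * (X * Real.log X ^ (2 * r - 2) * l2 X ^ C) +
        D3 * (X * Real.log X ^ (2 * r - 2) * l2 X ^ C) := by
        rw [abs_of_nonneg hcor0]
        exact add_le_add hA hB
    _ = (D1 + D3) * (X * Real.log X ^ (2 * r - 2) * l2 X ^ C) := by ring
    _ ≤ C * (X * Real.log X ^ (2 * r - 2) * l2 X ^ C) := by
        refine mul_le_mul_of_nonneg_right ?_ hpos
        rw [hC]
        linarith

end Pool.Agent.Work.MP_122e00_nt.FP
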