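import Pool.Agent.Work.MP_122e00_nt.FP.StmtsA
import Pool.Agent.Work.MP_122e00_nt.TS.I_Z2

/-!
# The full polynomial, item Z2: a divisor sum with an extra small power, small for every `h`
-/

namespace Pool.Agent.Work.MP_122e00_nt.FP

namespace Z2x

open Finset Filter Topology ArithmeticFunction
open Pool.Agent.Work.MP_122e00_nt.TS
open Pool.Agent.Work.MP_122e00_nt.TS.IZ2

/-- the summand is at most a constant times `f0` -/
theorem term_le (A r : ℕ) (ℓ : ℝ) (hℓ : 1 ≤ ℓ) (g : ℕ) (hg1 : 1 ≤ g) :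
    (g.divisors.card : ℝ) ^ A * ((g : ℝ) / (Nat.totient g : ℝ)) ^ 2 *
      (1 + Real.log g) ^ (2 * r) * (g : ℝ) ^ (1 / (4 * ℓ)) / (g : ℝ) ≤
      2 * ((2 * r).factorial : ℝ) * (2 * (2 * ℓ)) ^ (2 * r) * f0 A (1 / (2 * ℓ)) g := by
  have hg0 : (0 : ℝ) < g := by exact_mod_cast hg1
  have hℓ0 : 0 < ℓ := by linarith
  have e1 := log_pow_le r (2 * ℓ) (by linarith) g hg1
  have e0 : 1 / (2 * (2 * ℓ)) = 1 / (4 * ℓ) := by congr 1; ring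
  rw [e0] at e1
  unfold f0
  rw [Real.rpow_sub hg0, Real.rpow_one]
  have e3 : (g : ℝ) ^ (1 / (2 * ℓ)) = (g : ℝ) ^ (1 / (4 * ℓ)) * (g : ℝ) ^ (1 / (4 * ℓ)) := by
    rw [← Real.rpow_add hg0]
    congr 1
    field_simp
    norm_num
  rw [e3]
  have e4 : 0 ≤ (g : ℝ) ^ (1 / (4 * ℓ)) := by positivity
  have e2 : 0 ≤ (g.divisors.card : ℝ) ^ A * ((g : ℝ) / (Nat.totient g : ℝ)) ^ 2 := by positivity
  calc _ ≤ (g.divisors.card : ℝ) ^ A * ((g : ℝ) / (Nat.totient g : ℝ)) ^ 2 *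
        (2 * ((2 * r).factorial : ℝ) * (2 * (2 * ℓ)) ^ (2 * r) * (g : ℝ) ^ (1 / (4 * ℓ))) *
          (g : ℝ) ^ (1 / (4 * ℓ)) / (g : ℝ) :=
        div_le_div_of_nonneg_right
          (mul_le_mul_of_nonneg_right (mul_le_mul_of_nonneg_left e1 e2) e4) hg0.le
    _ = _ := by ring

end Z2x

open Pool.Agent.Work.MP_122e00_nt.TS Pool.Agent.Work.MP_122e00_nt.TS.IZ2 Z2x in
/-- item Z2 -/
theorem pfZ2 (h1 : tsN1) : fpZ2 := by
  intro A r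
  obtain ⟨C, hC0, hC, -⟩ := h1
  obtain ⟨K, hK⟩ : ∃ K : ℝ, K = 2 * ((2 * r).factorial : ℝ) * 4 ^ (2 * r) *
    Real.exp (CA A * (2 * C + 2)) := ⟨_, rfl⟩
  have hK0 : 0 < K := by rw [hK]; positivity
  have hCA := CA_nonneg A
  refine ⟨K + (2 * r + 2 * CA A), by positivity, fun h hh => ?_⟩
  have hh0 : h ≠ 0 := by omega
  have hhr : (1 : ℝ) ≤ h := by exact_mod_cast hh
  obtain ⟨L, hLd⟩ : ∃ L, L = Real.log ((h : ℝ) + 16) := ⟨_, rfl⟩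
  have hL : Real.exp 1 ≤ L := by
    rw [hLd]
    exact sixteen.trans (Real.log_le_log (by norm_num) (by linarith))
  have hL0 : 0 < L := lt_of_lt_of_le (Real.exp_pos 1) hL
  have hhL : Real.log h ≤ L := by
    rw [hLd]
    exact Real.log_le_log (by linarith) (by linarith)
  obtain ⟨ℓ, hℓd⟩ : ∃ ℓ, ℓ = Real.log L := ⟨_, rfl⟩
  have hll : ll h = ℓ := by
    unfold ll
    rw [← hLd, hℓd]
  have hℓ : 1 ≤ ℓ := by
    rw [hℓd, Real.le_log_iff_exp_le hL0]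
    exact hL
  have hℓ0 : 0 < ℓ := by linarith
  rw [hll]
  have h1 : ∑ g ∈ h.divisors, (g.divisors.card : ℝ) ^ A * ((g : ℝ) / (Nat.totient g : ℝ)) ^ 2 *
      (1 + Real.log g) ^ (2 * r) * (g : ℝ) ^ (1 / (4 * ℓ)) / (g : ℝ) ≤
      ∑ g ∈ h.divisors, 2 * ((2 * r).factorial : ℝ) * (2 * (2 * ℓ)) ^ (2 * r) *
        f0 A (1 / (2 * ℓ)) g :=
    Finset.sum_le_sum fun g hg => term_le A r ℓ hℓ g (Nat.pos_of_mem_divisors hg)
  obtain ⟨δ, hδ⟩ : ∃ δ, δ = 1 / (2 * ℓ) := ⟨_, rfl⟩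
  rw [← hδ] at h1
  have hδ1 : δ ≤ 1 / 2 := by
    rw [hδ, div_le_div_iff₀ (by positivity) (by norm_num)]
    linarith
  have h2 := sum_le_exp A δ hδ1 h hh0
  have h3 := prime_sum C (fun Z hZ => (hC Z hZ).2) h hh0 L hL hhL
  rw [← hℓd, ← hδ] at h3
  have h4 : Real.exp (CA A * ∑ p ∈ h.primeFactors, (p : ℝ) ^ (δ - 1)) ≤
      Real.exp (CA A * (2 * C + 2)) * ℓ ^ (2 * CA A) := by
    rw [Real.rpow_def_of_pos hℓ0, ← Real.exp_add]
    refine Real.exp_le_exp.2 ?_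
    have := mul_le_mul_of_nonneg_left h3 hCA
    linarith
  refine h1.trans ?_
  rw [← Finset.mul_sum]
  have h5 : (0 : ℝ) ≤ 2 * ((2 * r).factorial : ℝ) * (2 * (2 * ℓ)) ^ (2 * r) := by positivity
  have h6 : ℓ ^ ((2 : ℝ) * r + 2 * CA A) ≤ ℓ ^ (K + (2 * r + 2 * CA A)) :=
    Real.rpow_le_rpow_of_exponent_le hℓ (by linarith)
  have h7 : (2 * (2 * ℓ)) ^ (2 * r) = 4 ^ (2 * r) * ℓ ^ ((2 : ℝ) * r) := by
    rw [show 2 * (2 * ℓ) = 4 * ℓ by ring, mul_pow, ← Real.rpow_natCast ℓ]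
    push_cast
    rfl
  calc _ ≤ 2 * ((2 * r).factorial : ℝ) * (2 * (2 * ℓ)) ^ (2 * r) *
        (Real.exp (CA A * (2 * C + 2)) * ℓ ^ (2 * CA A)) :=
        mul_le_mul_of_nonneg_left (h2.trans h4) h5
    _ = K * ℓ ^ ((2 : ℝ) * r + 2 * CA A) := by
        rw [h7, Real.rpow_add hℓ0, hK]
        ring
    _ ≤ (K + (2 * r + 2 * CA A)) * ℓ ^ (K + (2 * r + 2 * CA A)) :=
        mul_le_mul (by nlinarith [Nat.cast_nonneg (α := ℝ) r]) h6 (by positivity) (by positivity)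

end Pool.Agent.Work.MP_122e00_nt.FP
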