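import Mathlib
import Pool.Agent.Work.MP_122e00_nt.FP.StmtsA

/-!
# MP_122e00_nt, block FP, item Z4 (helper78): the polynomial `P_h` and its partial sums, every `h`
-/

set_option autoImplicit false

namespace Pool.Agent.Work.MP_122e00_nt.FP

open Finset Filter Topology ArithmeticFunction
open Pool.Agent.Work.MP_122e00_nt.TS
open scoped ArithmeticFunction.zeta ArithmeticFunction.Moebius

namespace Z4x

theorem ed_natDegree (P : Polynomial ℝ) (d : ℕ) (h : P.natDegree ≤ d) :
    (ed P).natDegree ≤ d := by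
  unfold ed
  refine (Polynomial.natDegree_add_le _ _).trans (max_le h ?_)
  exact (Polynomial.natDegree_derivative_le P).trans ((Nat.sub_le _ _).trans h)

theorem ed_coeff (P : Polynomial ℝ) (r : ℕ) (B : ℝ) (hr : 1 ≤ r) (hP : P.natDegree ≤ r - 1)
    (hB : 0 ≤ B) (h : ∀ j, |P.coeff j| ≤ B) (j : ℕ) : |(ed P).coeff j| ≤ r * B := by
  unfold ed
  rw [Polynomial.coeff_add, Polynomial.coeff_derivative]
  rcases Nat.lt_or_ge (r - 1) (j + 1) with h1 | h1
  · rw [Polynomial.coeff_eq_zero_of_natDegree_lt (lt_of_le_of_lt hP h1), zero_mul, add_zero]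
    have h2 : (1 : ℝ) ≤ r := by exact_mod_cast hr
    calc |P.coeff j| ≤ 1 * B := by rw [one_mul]; exact h j
      _ ≤ r * B := mul_le_mul_of_nonneg_right h2 hB
  · have h2 : ((j : ℝ) + 1) + 1 ≤ r := by
      have : j + 1 + 1 ≤ r := by omega
      exact_mod_cast this
    calc |P.coeff j + P.coeff (j + 1) * ((j : ℝ) + 1)|
        ≤ |P.coeff j| + |P.coeff (j + 1) * ((j : ℝ) + 1)| := abs_add_le _ _
      _ = |P.coeff j| + |P.coeff (j + 1)| * ((j : ℝ) + 1) := by
          rw [abs_mul, abs_of_nonneg (by positivity : (0 : ℝ) ≤ (j : ℝ) + 1)]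
      _ ≤ B + B * ((j : ℝ) + 1) := by
          gcongr
          · exact h j
          · exact h (j + 1)
      _ = (((j : ℝ) + 1) + 1) * B := by ring
      _ ≤ r * B := mul_le_mul_of_nonneg_right h2 hB

theorem sq_coeff (P : Polynomial ℝ) (r : ℕ) (B : ℝ) (hr : 1 ≤ r) (hP : P.natDegree ≤ r - 1)
    (hB : 0 ≤ B) (h : ∀ j, |P.coeff j| ≤ B) (j : ℕ) : |(P ^ 2).coeff j| ≤ r * B ^ 2 := by
  rw [pow_two, Polynomial.coeff_mul,
    Finset.Nat.sum_antidiagonal_eq_sum_range_succ (fun a b => P.coeff a * P.coeff b)]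
  calc |∑ a ∈ Finset.range (j + 1), P.coeff a * P.coeff (j - a)|
      ≤ ∑ a ∈ Finset.range (j + 1), |P.coeff a * P.coeff (j - a)| :=
        Finset.abs_sum_le_sum_abs _ _
    _ ≤ ∑ a ∈ Finset.range (j + 1), (if a < r then B ^ 2 else 0) := by
        refine Finset.sum_le_sum fun a _ => ?_
        split_ifs with h1
        · rw [abs_mul, pow_two]
          exact mul_le_mul (h a) (h _) (abs_nonneg _) hB
        · rw [Polynomial.coeff_eq_zero_of_natDegree_lt (by omega : P.natDegree < a), zero_mul,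
            abs_zero]
    _ = (((Finset.range (j + 1)).filter (fun a => a < r)).card : ℝ) * B ^ 2 := by
        rw [← Finset.sum_filter, Finset.sum_const, nsmul_eq_mul]
    _ ≤ r * B ^ 2 := by
        have h1 : ((Finset.range (j + 1)).filter (fun a => a < r)).card ≤ r := by
          calc ((Finset.range (j + 1)).filter (fun a => a < r)).card
              ≤ (Finset.range r).card := by
                apply Finset.card_le_card
                intro a ha
                rw [Finset.mem_filter] at ha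
                exact Finset.mem_range.2 ha.2
            _ = r := Finset.card_range r
        have h2 : (((Finset.range (j + 1)).filter (fun a => a < r)).card : ℝ) ≤ r := by
          exact_mod_cast h1
        exact mul_le_mul_of_nonneg_right h2 (by positivity)

/-- `ll h ≥ 1` -/
theorem ll_one (h : ℕ) : 1 ≤ ll h := by
  unfold ll
  have h0 : (0 : ℝ) ≤ h := Nat.cast_nonneg _
  have he : Real.exp 1 < 2.7182818286 := Real.exp_one_lt_d9
  have h1 : Real.exp 1 ≤ Real.log ((h : ℝ) + 16) := by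
    have h2 : (2.7182818286 : ℝ) ≤ Real.log 16 := by
      have h3 : Real.log 16 = 4 * Real.log 2 := by
        rw [show (16 : ℝ) = 2 ^ 4 by norm_num, Real.log_pow]
        norm_num
      have h4 := Real.log_two_gt_d9
      rw [h3]
      linarith
    have h5 : Real.log 16 ≤ Real.log ((h : ℝ) + 16) := Real.log_le_log (by norm_num) (by linarith)
    linarith
  rw [Real.le_log_iff_exp_le (by linarith [Real.exp_pos 1])]
  exact h1

/-- the tail of a convergent series is bounded by the bound for its finite pieces -/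
theorem tail_bound (f : ℕ → ℝ) (hf0 : f 0 = 0) (hf : Summable f) (Q : ℕ) (B : ℝ)
    (hB : ∀ Q' : ℕ, |∑ q ∈ Finset.Ioc Q Q', f q| ≤ B) :
    |∑' q, f q - ∑ q ∈ Finset.Icc 1 Q, f q| ≤ B := by
  have h1 : Tendsto (fun n : ℕ => |∑ q ∈ Finset.range n, f q - ∑ q ∈ Finset.Icc 1 Q, f q|) atTop
      (𝓝 |∑' q, f q - ∑ q ∈ Finset.Icc 1 Q, f q|) :=
    ((hf.hasSum.tendsto_sum_nat).sub_const _).abs
  refine le_of_tendsto h1 ?_
  filter_upwards [eventually_ge_atTop (Q + 1)] with n hn
  have h2 : ∑ q ∈ Finset.range n, f q = ∑ q ∈ Finset.Icc 1 Q, f q +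
      ∑ q ∈ Finset.Ioc Q (n - 1), f q := by
    have e : Finset.range n = insert 0 (Finset.Icc 1 Q ∪ Finset.Ioc Q (n - 1)) := by
      ext x
      rw [Finset.mem_range, Finset.mem_insert, Finset.mem_union, Finset.mem_Icc, Finset.mem_Ioc]
      omega
    rw [e, Finset.sum_insert, hf0, zero_add, Finset.sum_union]
    · rw [Finset.disjoint_left]
      intro x hx hx'
      rw [Finset.mem_Icc] at hx
      rw [Finset.mem_Ioc] at hx'
      omega
    · rw [Finset.mem_union, Finset.mem_Icc, Finset.mem_Ioc]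
      omega
  rw [h2, add_sub_cancel_left]
  exact hB (n - 1)

end Z4x

open Z4x in
/-- item **Z4** -/
theorem pfZ4 (h1 : fpZ3) (h2 : tsF9) (h3 : tsG2) (h4 : tsZ1) (h5 : tsZ3) : fpZ4 := by
  intro r E hr hAP hCB
  have hdeg := hAP.1
  obtain ⟨C0, hC0, hE⟩ := h4 r E hr hAP
  obtain ⟨C2, hC2, -, hG⟩ := h3 r E hr hdeg hCB
  obtain ⟨C3, hC3, hZ⟩ := h1 r hr
  obtain ⟨C4, hC4, hY⟩ := h5 r hr
  set s : ℕ := 2 * (r - 1) with hs
  have hr1 : (1 : ℝ) ≤ r := by exact_mod_cast hr
  set C1 : ℝ := ((s + 1).factorial : ℝ) * (r * (r * C0) ^ 2) with hC1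
  have hC1pos : 0 < C1 := by
    have : (0 : ℝ) < ((s + 1).factorial : ℝ) := by exact_mod_cast Nat.factorial_pos _
    positivity
  have hPdeg : ∀ q, (ed (E q) ^ 2).natDegree ≤ s := by
    intro q
    have e1 := ed_natDegree (E q) (r - 1) (hdeg q)
    exact Polynomial.natDegree_pow_le.trans (Nat.mul_le_mul_left 2 e1)
  have hRdeg : ∀ q, (rr (ed (E q) ^ 2)).natDegree ≤ s := fun q => (h2 _).2.1.trans (hPdeg q)
  have hcoef : ∀ q j : ℕ, 1 ≤ q → |(rr (ed (E q) ^ 2)).coeff j| ≤ C1 * be r q ^ 2 := by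
    intro q j hq
    set B : ℝ := C0 * be r q with hB
    have hBnn : 0 ≤ B := (abs_nonneg _).trans (hE q 0 hq)
    have e1 : ∀ j, |(ed (E q)).coeff j| ≤ r * B :=
      ed_coeff (E q) r B hr (hdeg q) hBnn (fun j => hE q j hq)
    have e2 : ∀ j, |(ed (E q) ^ 2).coeff j| ≤ r * (r * B) ^ 2 :=
      sq_coeff (ed (E q)) r (r * B) hr (ed_natDegree (E q) (r - 1) (hdeg q)) (by positivity) e1
    have e3 := (h2 (ed (E q) ^ 2)).2.2.2 _ e2 j
    have e6 : (((ed (E q) ^ 2).natDegree + 1).factorial : ℝ) ≤ ((s + 1).factorial : ℝ) := by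
      exact_mod_cast Nat.factorial_le (Nat.succ_le_succ (hPdeg q))
    calc |(rr (ed (E q) ^ 2)).coeff j|
        ≤ (((ed (E q) ^ 2).natDegree + 1).factorial : ℝ) * (r * (r * B) ^ 2) := e3
      _ ≤ ((s + 1).factorial : ℝ) * (r * (r * B) ^ 2) :=
          mul_le_mul_of_nonneg_right e6 (by positivity)
      _ = C1 * be r q ^ 2 := by rw [hB, hC1]; ring
  -- finite pieces
  have hpiece : ∀ (h j : ℕ) (S : Finset ℕ), (∀ q ∈ S, 1 ≤ q) →
      |∑ q ∈ S, Gh h q * (rr (ed (E q) ^ 2)).coeff j| ≤ C1 * ∑ q ∈ S, |Gh h q| * be r q ^ 2 := by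
    intro h j S hS
    refine (Finset.abs_sum_le_sum_abs _ _).trans ?_
    rw [Finset.mul_sum]
    refine Finset.sum_le_sum fun q hq => ?_
    rw [abs_mul]
    calc |Gh h q| * |(rr (ed (E q) ^ 2)).coeff j| ≤ |Gh h q| * (C1 * be r q ^ 2) :=
          mul_le_mul_of_nonneg_left (hcoef q j (hS q hq)) (abs_nonneg _)
      _ = C1 * (|Gh h q| * be r q ^ 2) := by ring
  set A : ℝ := ((s : ℝ) + 1) * (C1 * C3) with hA
  have hApos : 0 < A := by positivity
  set C : ℝ := A + C1 * C4 + C3 + C4 with hC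
  have hC1C4 : 0 < C1 * C4 := by positivity
  have hCpos : 0 < C := by positivity
  refine ⟨C, hCpos, ?_⟩
  intro h hh
  obtain ⟨hsum, -, -⟩ := hG h hh
  have hl := ll_one h
  have hp3 : ll h ^ C3 ≤ ll h ^ C := Real.rpow_le_rpow_of_exponent_le hl (by linarith)
  have hp4 : ll h ^ C4 ≤ ll h ^ C := Real.rpow_le_rpow_of_exponent_le hl (by linarith)
  have hpC : 0 ≤ ll h ^ C := Real.rpow_nonneg (by linarith) _
  have hf0 : ∀ j, Gh h 0 * (rr (ed (E 0) ^ 2)).coeff j = 0 := by
    intro j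
    rw [ArithmeticFunction.map_zero, zero_mul]
  have hcoefPH : ∀ j, (PH r E h).coeff j = if j ∈ Finset.range (2 * (r - 1) + 1) then
      ∑' q : ℕ, Gh h q * (rr (ed (E q) ^ 2)).coeff j else 0 := by
    intro j
    unfold PH
    rw [Polynomial.finsetSum_coeff]
    simp only [Polynomial.coeff_C_mul_X_pow]
    rw [Finset.sum_ite_eq]
  refine ⟨?_, ?_⟩
  · intro Q t hQ ht
    set D : ℝ := Real.exp (-(Real.log Q / (8 * ll h))) with hD
    have hD0 : 0 ≤ D := (Real.exp_pos _).le
    have htl : ∀ j, |∑' q : ℕ, Gh h q * (rr (ed (E q) ^ 2)).coeff j -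
        ∑ q ∈ Finset.Icc 1 Q, Gh h q * (rr (ed (E q) ^ 2)).coeff j| ≤
        C1 * (C3 * ll h ^ C3 * D) := by
      intro j
      refine tail_bound (fun q => Gh h q * (rr (ed (E q) ^ 2)).coeff j) (hf0 j) (hsum j) Q _ ?_
      intro Q'
      refine (hpiece h j (Finset.Ioc Q Q') (fun q hq => ?_)).trans
        (mul_le_mul_of_nonneg_left (hZ h Q Q' hh hQ) hC1pos.le)
      rw [Finset.mem_Ioc] at hq
      omega
    have hPHe : (PH r E h).eval t = ∑ j ∈ Finset.range (s + 1),
        (∑' q : ℕ, Gh h q * (rr (ed (E q) ^ 2)).coeff j) * t ^ j := by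
      unfold PH
      rw [Polynomial.eval_finsetSum]
      refine Finset.sum_congr rfl fun j _ => ?_
      rw [Polynomial.eval_mul, Polynomial.eval_C, Polynomial.eval_pow, Polynomial.eval_X]
    have hse : ∑ q ∈ Finset.Icc 1 Q, Gh h q * (rr (ed (E q) ^ 2)).eval t =
        ∑ j ∈ Finset.range (s + 1),
          (∑ q ∈ Finset.Icc 1 Q, Gh h q * (rr (ed (E q) ^ 2)).coeff j) * t ^ j := by
      have e1 : ∀ q ∈ Finset.Icc 1 Q, Gh h q * (rr (ed (E q) ^ 2)).eval t =
          ∑ j ∈ Finset.range (s + 1), Gh h q * (rr (ed (E q) ^ 2)).coeff j * t ^ j := by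
        intro q _
        rw [Polynomial.eval_eq_sum_range' (Nat.lt_succ_of_le (hRdeg q)), Finset.mul_sum]
        refine Finset.sum_congr rfl fun j _ => ?_
        ring
      rw [Finset.sum_congr rfl e1, Finset.sum_comm]
      refine Finset.sum_congr rfl fun j _ => ?_
      rw [Finset.sum_mul]
    have hts : 0 ≤ (1 + t) ^ s := by positivity
    have hl3 : 0 ≤ ll h ^ C3 := Real.rpow_nonneg (by linarith) _
    rw [hPHe, hse, ← Finset.sum_sub_distrib]
    calc |∑ j ∈ Finset.range (s + 1),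
          ((∑' q : ℕ, Gh h q * (rr (ed (E q) ^ 2)).coeff j) * t ^ j -
            (∑ q ∈ Finset.Icc 1 Q, Gh h q * (rr (ed (E q) ^ 2)).coeff j) * t ^ j)|
        ≤ ∑ j ∈ Finset.range (s + 1),
          |(∑' q : ℕ, Gh h q * (rr (ed (E q) ^ 2)).coeff j) * t ^ j -
            (∑ q ∈ Finset.Icc 1 Q, Gh h q * (rr (ed (E q) ^ 2)).coeff j) * t ^ j| :=
          Finset.abs_sum_le_sum_abs _ _
      _ ≤ ∑ _j ∈ Finset.range (s + 1), (C1 * (C3 * ll h ^ C3 * D)) * (1 + t) ^ s := by
          refine Finset.sum_le_sum fun j hj => ?_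
          rw [Finset.mem_range] at hj
          rw [← sub_mul, abs_mul, abs_of_nonneg (by positivity : (0 : ℝ) ≤ t ^ j)]
          have e1 : t ^ j ≤ (1 + t) ^ s := by
            calc t ^ j ≤ (1 + t) ^ j := pow_le_pow_left₀ ht (by linarith) j
              _ ≤ (1 + t) ^ s := pow_le_pow_right₀ (by linarith) (by omega)
          exact mul_le_mul (htl j) e1 (by positivity) (by positivity)
      _ = A * ll h ^ C3 * D * (1 + t) ^ s := by
          rw [Finset.sum_const, Finset.card_range, nsmul_eq_mul, hA]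
          push_cast
          ring
      _ ≤ C * ll h ^ C * D * (1 + t) ^ s := by
          have e1 : A * ll h ^ C3 ≤ C * ll h ^ C :=
            mul_le_mul (by linarith) hp3 hl3 hCpos.le
          exact mul_le_mul_of_nonneg_right (mul_le_mul_of_nonneg_right e1 hD0) hts
  · intro j
    rw [hcoefPH j]
    split_ifs
    · have e1 := tail_bound (fun q => Gh h q * (rr (ed (E q) ^ 2)).coeff j) (hf0 j) (hsum j) 0
        (C1 * (C4 * ll h ^ C4)) (by
          intro Q'
          have e2 : Finset.Ioc 0 Q' = Finset.Icc 1 Q' := by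
            ext x
            rw [Finset.mem_Ioc, Finset.mem_Icc]
            omega
          rw [e2]
          refine (hpiece h j (Finset.Icc 1 Q') (fun q hq => ?_)).trans
            (mul_le_mul_of_nonneg_left (hY h Q' hh) hC1pos.le)
          rw [Finset.mem_Icc] at hq
          exact hq.1)
      rw [Finset.Icc_eq_empty (by norm_num), Finset.sum_empty, sub_zero] at e1
      refine e1.trans ?_
      have hl4 : 0 ≤ ll h ^ C4 := Real.rpow_nonneg (by linarith) _
      calc C1 * (C4 * ll h ^ C4) = (C1 * C4) * ll h ^ C4 := by ring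
        _ ≤ C * ll h ^ C := mul_le_mul (by linarith) hp4 hl4 hCpos.le
    · rw [abs_zero]
      positivity

end Pool.Agent.Work.MP_122e00_nt.FP
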