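import Mathlib
import Pool.Agent.Work.MP_122e00_nt.FP.StmtsA

set_option autoImplicit false

/-!
# Full polynomial, item Z5: the main term
-/

namespace Pool.Agent.Work.MP_122e00_nt.FP

open Finset Filter Topology ArithmeticFunction MeasureTheory
open Pool.Agent.Work.MP_122e00_nt.TS
open scoped ArithmeticFunction.zeta ArithmeticFunction.Moebius

namespace Z5x

theorem ed_deg {P : Polynomial ℝ} {D : ℕ} (h : P.natDegree ≤ D) : (ed P).natDegree ≤ D := by
  unfold ed
  refine (Polynomial.natDegree_add_le _ _).trans (max_le h ?_)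
  exact (Polynomial.natDegree_derivative_le P).trans (by omega)

theorem ed_coeff {P : Polynomial ℝ} {D : ℕ} {M : ℝ} (h : P.natDegree ≤ D)
    (hM : ∀ j, |P.coeff j| ≤ M) (j : ℕ) : |(ed P).coeff j| ≤ (D + 1) * M := by
  have hM0 : 0 ≤ M := (abs_nonneg _).trans (hM 0)
  have hD0 : (0 : ℝ) ≤ D := Nat.cast_nonneg _
  unfold ed
  rw [Polynomial.coeff_add, Polynomial.coeff_derivative]
  rcases Nat.lt_or_ge D (j + 1) with hj | hj
  · rw [Polynomial.coeff_eq_zero_of_natDegree_lt (lt_of_le_of_lt h hj), zero_mul, add_zero]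
    have h1 := hM j
    have h2 : 0 ≤ (D : ℝ) * M := mul_nonneg hD0 hM0
    linarith
  · refine (abs_add_le _ _).trans ?_
    rw [abs_mul]
    have h1 : |((j : ℝ) + 1)| ≤ D := by
      rw [abs_of_nonneg (by positivity)]
      exact_mod_cast hj
    have h2 := hM j
    have h3 : |P.coeff (j + 1)| * |((j : ℝ) + 1)| ≤ M * D :=
      mul_le_mul (hM (j + 1)) h1 (abs_nonneg _) hM0
    linarith

theorem one_le_ll (h : ℕ) : 1 ≤ ll h := by
  unfold ll
  have h0 : (0 : ℝ) ≤ (h : ℝ) := by positivity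
  have h1 : Real.exp 1 ≤ Real.log ((h : ℝ) + 16) := by
    have h2 : Real.log 16 ≤ Real.log ((h : ℝ) + 16) :=
      Real.log_le_log (by norm_num) (by linarith)
    have h3 : Real.log 16 = 4 * Real.log 2 := by
      rw [show (16 : ℝ) = 2 ^ 4 by norm_num, Real.log_pow]
      norm_num
    have h4 := Real.log_two_gt_d9
    have h5 := Real.exp_one_lt_d9
    linarith
  calc (1 : ℝ) = Real.log (Real.exp 1) := (Real.log_exp 1).symm
    _ ≤ _ := Real.log_le_log (Real.exp_pos 1) h1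

theorem deriv_aux (R : Polynomial ℝ) (t : ℝ) (ht : 0 < t) :
    HasDerivAt (fun t => t * R.eval (Real.log t)) ((ed R).eval (Real.log t)) t := by
  have h1 : HasDerivAt (fun t => R.eval (Real.log t))
      ((Polynomial.derivative R).eval (Real.log t) * t⁻¹) t :=
    (R.hasDerivAt (Real.log t)).comp t (Real.hasDerivAt_log ht.ne')
  have h2 := (hasDerivAt_id t).mul h1
  have e : (ed R).eval (Real.log t) = 1 * R.eval (Real.log t) +
      id t * ((Polynomial.derivative R).eval (Real.log t) * t⁻¹) := by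
    unfold ed
    rw [Polynomial.eval_add, id]
    field_simp
  rw [e]
  exact h2

theorem integral_aux (R : Polynomial ℝ) (X : ℝ) (hX : 1 ≤ X) :
    ∫ t in (1 : ℝ)..X, (ed R).eval (Real.log t) = X * R.eval (Real.log X) - R.eval 0 := by
  have hpos : ∀ t ∈ Set.uIcc (1 : ℝ) X, 0 < t := by
    intro t ht
    rw [Set.uIcc_of_le hX] at ht
    linarith [ht.1]
  rw [intervalIntegral.integral_eq_sub_of_hasDerivAt
    (f := fun t => t * R.eval (Real.log t)) (fun t ht => deriv_aux R t (hpos t ht))]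
  · rw [Real.log_one, one_mul]
  · refine ContinuousOn.intervalIntegrable ?_
    refine (ed R).continuous.comp_continuousOn (Real.continuousOn_log.mono ?_)
    intro t ht
    exact (hpos t ht).ne'

theorem sq_coeff (P : Polynomial ℝ) (D : ℕ) (M : ℝ) (hD : P.natDegree ≤ D)
    (hM : ∀ j, |P.coeff j| ≤ M) (j : ℕ) : |(P ^ 2).coeff j| ≤ (2 * D + 1) * M ^ 2 := by
  have hM0 : 0 ≤ M := (abs_nonneg _).trans (hM 0)
  by_cases hj : j ≤ 2 * D
  · rw [pow_two P, Polynomial.coeff_mul]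
    refine (Finset.abs_sum_le_sum_abs _ _).trans ?_
    refine (Finset.sum_le_card_nsmul _ _ (M ^ 2) (fun x _ => ?_)).trans ?_
    · rw [abs_mul, pow_two]
      exact mul_le_mul (hM _) (hM _) (abs_nonneg _) hM0
    · rw [Finset.Nat.card_antidiagonal, nsmul_eq_mul]
      have h1 : (j : ℝ) ≤ 2 * D := by exact_mod_cast hj
      push_cast
      exact mul_le_mul_of_nonneg_right (by linarith) (sq_nonneg M)
  · rw [Polynomial.coeff_eq_zero_of_natDegree_lt, abs_zero]
    · positivity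
    · have h1 := Polynomial.natDegree_pow_le (p := P) (n := 2)
      omega

end Z5x

open Z5x in
theorem pfZ5 (h1 : fpZ4) (h2 : tsF9) (h3 : tsZ1) (h4 : tsZ3) : fpZ5 := by
  intro r E hr hAP hCB
  obtain ⟨C4, hC4, hZ4⟩ := h1 r E hr hAP hCB
  obtain ⟨C1, hC1, hZ1⟩ := h3 r E hr hAP
  obtain ⟨C3, hC3, hZ3⟩ := h4 r hr
  obtain ⟨d, hd⟩ : ∃ d : ℕ, d = r - 1 := ⟨_, rfl⟩
  obtain ⟨K, hK⟩ : ∃ K : ℝ, K = ((2 * d + 1).factorial : ℝ) *
      ((2 * d + 1) * (((d : ℝ) + 1) * C1) ^ 2) := ⟨_, rfl⟩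
  have hKp : 0 < K := by
    rw [hK]
    positivity
  have hR0 : ∀ q, 1 ≤ q → |(rr (ed (E q) ^ 2)).eval 0| ≤ K * be r q ^ 2 := by
    intro q hq
    have hdeg : (E q).natDegree ≤ d := by
      rw [hd]
      exact hAP.1 q
    have hc1 := ed_coeff hdeg (fun j => hZ1 q j hq)
    have hc2 := sq_coeff _ d _ (ed_deg hdeg) hc1
    have hc3 := (h2 (ed (E q) ^ 2)).2.2.2 _ hc2 0
    rw [Polynomial.coeff_zero_eq_eval_zero] at hc3
    refine hc3.trans ?_
    have hdg : (ed (E q) ^ 2).natDegree + 1 ≤ 2 * d + 1 := by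
      have h5 := Polynomial.natDegree_pow_le (p := ed (E q)) (n := 2)
      have h6 := ed_deg hdeg
      omega
    have hf : (((ed (E q) ^ 2).natDegree + 1).factorial : ℝ) ≤ ((2 * d + 1).factorial : ℝ) := by
      exact_mod_cast Nat.factorial_le hdg
    calc (((ed (E q) ^ 2).natDegree + 1).factorial : ℝ) *
          ((2 * d + 1) * (((d : ℝ) + 1) * (C1 * be r q)) ^ 2) ≤
          ((2 * d + 1).factorial : ℝ) * ((2 * d + 1) * (((d : ℝ) + 1) * (C1 * be r q)) ^ 2) :=
          mul_le_mul_of_nonneg_right hf (by positivity)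
      _ = K * be r q ^ 2 := by
          rw [hK]
          ring
  obtain ⟨C, hC⟩ : ∃ C : ℝ, C = 2 ^ (2 * r) * C4 + K * C3 + C4 + C3 := ⟨_, rfl⟩
  have hCp : 0 < C := by
    rw [hC]
    positivity
  have hCa : 2 ^ (2 * r) * C4 ≤ C := by
    have : 0 < K * C3 := by positivity
    linarith
  have hCb : K * C3 ≤ C := by
    have : 0 < 2 ^ (2 * r) * C4 := by positivity
    linarith
  have hCc : C4 ≤ C := by
    have h5 : 0 < K * C3 := by positivity
    have h6 : 0 < 2 ^ (2 * r) * C4 := by positivity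
    linarith
  have hCd : C3 ≤ C := by
    have h5 : 0 < K * C3 := by positivity
    have h6 : 0 < 2 ^ (2 * r) * C4 := by positivity
    linarith
  refine ⟨C, hCp, fun h Q X hh hQ hX => ?_⟩
  have hX1 : 1 ≤ X := by linarith
  have hlog1 : 1 ≤ Real.log X := by
    rw [← Real.log_exp 1]
    refine Real.log_le_log (Real.exp_pos 1) ?_
    have := Real.exp_one_lt_d9
    linarith
  have hlogpos : 0 < Real.log X := by linarith
  have hll := one_le_ll h
  have hll0 : 0 < ll h := by linarith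
  -- the integrals
  have hint : ∀ q, ∫ t in (1 : ℝ)..X, ((ed (E q)).eval (Real.log t)) ^ 2 =
      X * (rr (ed (E q) ^ 2)).eval (Real.log X) - (rr (ed (E q) ^ 2)).eval 0 := by
    intro q
    rw [← integral_aux _ X hX1, (h2 (ed (E q) ^ 2)).1]
    simp only [Polynomial.eval_pow]
  have hsum : (∑ q ∈ Finset.Icc 1 Q, Gh h q *
        ∫ t in (1 : ℝ)..X, ((ed (E q)).eval (Real.log t)) ^ 2) -
      X * (PH r E h).eval (Real.log X) =
      -(X * ((PH r E h).eval (Real.log X) -
        ∑ q ∈ Finset.Icc 1 Q, Gh h q * (rr (ed (E q) ^ 2)).eval (Real.log X))) -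
      ∑ q ∈ Finset.Icc 1 Q, Gh h q * (rr (ed (E q) ^ 2)).eval 0 := by
    have e1 : (∑ q ∈ Finset.Icc 1 Q, Gh h q *
        ∫ t in (1 : ℝ)..X, ((ed (E q)).eval (Real.log t)) ^ 2) =
        X * (∑ q ∈ Finset.Icc 1 Q, Gh h q * (rr (ed (E q) ^ 2)).eval (Real.log X)) -
        ∑ q ∈ Finset.Icc 1 Q, Gh h q * (rr (ed (E q) ^ 2)).eval 0 := by
      rw [Finset.mul_sum, ← Finset.sum_sub_distrib]
      refine Finset.sum_congr rfl fun q _ => ?_
      rw [hint q]
      ring
    rw [e1]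
    ring
  rw [hsum]
  -- second part
  have hB : |∑ q ∈ Finset.Icc 1 Q, Gh h q * (rr (ed (E q) ^ 2)).eval 0| ≤ C * ll h ^ C := by
    calc |∑ q ∈ Finset.Icc 1 Q, Gh h q * (rr (ed (E q) ^ 2)).eval 0| ≤
          ∑ q ∈ Finset.Icc 1 Q, |Gh h q * (rr (ed (E q) ^ 2)).eval 0| :=
          Finset.abs_sum_le_sum_abs _ _
      _ ≤ ∑ q ∈ Finset.Icc 1 Q, K * (|Gh h q| * be r q ^ 2) := by
          refine Finset.sum_le_sum fun q hq => ?_
          rw [abs_mul]
          calc |Gh h q| * |(rr (ed (E q) ^ 2)).eval 0| ≤ |Gh h q| * (K * be r q ^ 2) :=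
                mul_le_mul_of_nonneg_left (hR0 q (Finset.mem_Icc.1 hq).1) (abs_nonneg _)
            _ = K * (|Gh h q| * be r q ^ 2) := by ring
      _ = K * ∑ q ∈ Finset.Icc 1 Q, |Gh h q| * be r q ^ 2 := by rw [Finset.mul_sum]
      _ ≤ K * (C3 * ll h ^ C3) := mul_le_mul_of_nonneg_left (hZ3 h Q hh) hKp.le
      _ = K * C3 * ll h ^ C3 := by ring
      _ ≤ C * ll h ^ C := by
          refine mul_le_mul hCb ?_ (Real.rpow_nonneg hll0.le _) hCp.le
          exact Real.rpow_le_rpow_of_exponent_le hll hCd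
  -- first part
  have hA : |X * ((PH r E h).eval (Real.log X) -
        ∑ q ∈ Finset.Icc 1 Q, Gh h q * (rr (ed (E q) ^ 2)).eval (Real.log X))| ≤
      C * ll h ^ C * (X * Real.log X ^ (2 * r) * Real.exp (-(Real.log Q / (8 * ll h)))) := by
    rw [abs_mul, abs_of_pos (by linarith : (0 : ℝ) < X)]
    have h5 := (hZ4 h hh).1 Q (Real.log X) hQ hlogpos.le
    have h6 : (1 + Real.log X) ^ (2 * (r - 1)) ≤ 2 ^ (2 * r) * Real.log X ^ (2 * r) := by
      calc (1 + Real.log X) ^ (2 * (r - 1)) ≤ (1 + Real.log X) ^ (2 * r) :=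
            pow_le_pow_right₀ (by linarith) (by omega)
        _ ≤ (2 * Real.log X) ^ (2 * r) := pow_le_pow_left₀ (by linarith) (by linarith) _
        _ = _ := by rw [mul_pow]
    have h7 : ll h ^ C4 ≤ ll h ^ C := Real.rpow_le_rpow_of_exponent_le hll hCc
    have hE : 0 < Real.exp (-(Real.log Q / (8 * ll h))) := Real.exp_pos _
    calc X * |(PH r E h).eval (Real.log X) -
          ∑ q ∈ Finset.Icc 1 Q, Gh h q * (rr (ed (E q) ^ 2)).eval (Real.log X)| ≤
          X * (C4 * ll h ^ C4 * Real.exp (-(Real.log Q / (8 * ll h))) *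
            (1 + Real.log X) ^ (2 * (r - 1))) :=
          mul_le_mul_of_nonneg_left h5 (by linarith)
      _ ≤ X * (C4 * ll h ^ C * Real.exp (-(Real.log Q / (8 * ll h))) *
            (2 ^ (2 * r) * Real.log X ^ (2 * r))) := by
          gcongr
      _ = 2 ^ (2 * r) * C4 * ll h ^ C *
            (X * Real.log X ^ (2 * r) * Real.exp (-(Real.log Q / (8 * ll h)))) := by ring
      _ ≤ _ := by
          gcongr
  calc _ ≤ _ := abs_sub _ _
    _ ≤ C * ll h ^ C * (X * Real.log X ^ (2 * r) * Real.exp (-(Real.log Q / (8 * ll h)))) +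
        C * ll h ^ C := by
        rw [abs_neg]
        exact add_le_add hA hB
    _ = _ := by ring

end Pool.Agent.Work.MP_122e00_nt.FP
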