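import Mathlib
import Pool.Agent.Work.MP_122e00_nt.FP.Fin
import Pool.Agent.Work.MP_122e00_nt.TS.AllC
import Pool.Agent.Work.MP_122e00_nt.TS.AllS
import Pool.Agent.Work.MP_122e00_nt.TS.AllT
import Pool.Agent.Work.MP_122e00_nt.TS.All0
import Pool.Agent.Work.MP_122e00_nt.FP.I_P1
import Pool.Agent.Work.MP_122e00_nt.FP.I_P2
import Pool.Agent.Work.MP_122e00_nt.FP.I_P3
import Pool.Agent.Work.MP_122e00_nt.FP.I_P4
import Pool.Agent.Work.MP_122e00_nt.FP.I_K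
import Pool.Agent.Work.MP_122e00_nt.FP.I_A1
import Pool.Agent.Work.MP_122e00_nt.FP.I_B1
import Pool.Agent.Work.MP_122e00_nt.FP.I_B2
import Pool.Agent.Work.MP_122e00_nt.FP.I_B3
import Pool.Agent.Work.MP_122e00_nt.FP.I_B4
import Pool.Agent.Work.MP_122e00_nt.FP.I_C1
import Pool.Agent.Work.MP_122e00_nt.FP.I_C2
import Pool.Agent.Work.MP_122e00_nt.FP.I_E1
import Pool.Agent.Work.MP_122e00_nt.FP.I_Z2
import Pool.Agent.Work.MP_122e00_nt.FP.I_Z3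
import Pool.Agent.Work.MP_122e00_nt.FP.I_Z4
import Pool.Agent.Work.MP_122e00_nt.FP.I_Z5
import Pool.Agent.Work.MP_122e00_nt.FP.I_S1
import Pool.Agent.Work.MP_122e00_nt.FP.I_S2
import Pool.Agent.Work.MP_122e00_nt.FP.I_V1
import Pool.Agent.Work.MP_122e00_nt.FP.I_V2
import Pool.Agent.Work.MP_122e00_nt.FP.I_G1
import Pool.Agent.Work.MP_122e00_nt.FP.I_G2
import Pool.Agent.Work.MP_122e00_nt.FP.I_G3
import Pool.Agent.Work.MP_122e00_nt.FP.I_WT1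
import Pool.Agent.Work.MP_122e00_nt.FP.I_WT2
import Pool.Agent.Work.MP_122e00_nt.FP.I_TW
import Pool.Agent.Work.MP_122e00_nt.FP.I_Q1
import Pool.Agent.Work.MP_122e00_nt.FP.I_D1
import Pool.Agent.Work.MP_122e00_nt.FP.I_D2
import Pool.Agent.Work.MP_122e00_nt.FP.I_D3
import Pool.Agent.Work.MP_122e00_nt.FP.I_D4
import Pool.Agent.Work.MP_122e00_nt.FP.I_H0
import Pool.Agent.Work.MP_122e00_nt.FP.I_H1
import Pool.Agent.Work.MP_122e00_nt.FP.I_H2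
import Pool.Agent.Work.MP_122e00_nt.FP.I_W1
import Pool.Agent.Work.MP_122e00_nt.FP.I_W2
import Pool.Agent.Work.MP_122e00_nt.FP.I_L1
import Pool.Agent.Work.MP_122e00_nt.FP.I_W3
import Pool.Agent.Work.MP_122e00_nt.FP.I_M1
import Pool.Agent.Work.MP_122e00_nt.FP.I_M2
import Pool.Agent.Work.MP_122e00_nt.FP.I_M3
import Pool.Agent.Work.MP_122e00_nt.FP.I_M4
import Pool.Agent.Work.MP_122e00_nt.FP.I_M5
import Pool.Agent.Work.MP_122e00_nt.FP.I_M6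
import Pool.Agent.Work.MP_122e00_nt.FP.I_M7
import Pool.Agent.Work.MP_122e00_nt.FP.I_M8
import Pool.Agent.Work.MP_122e00_nt.FP.I_M9
import Pool.Agent.Work.MP_122e00_nt.FP.I_M10
import Pool.Agent.Work.MP_122e00_nt.FP.I_W4
import Pool.Agent.Work.MP_122e00_nt.FP.I_X0
import Pool.Agent.Work.MP_122e00_nt.FP.I_S4
import Pool.Agent.Work.MP_122e00_nt.FP.I_X1a
import Pool.Agent.Work.MP_122e00_nt.FP.I_X1b
import Pool.Agent.Work.MP_122e00_nt.FP.I_X1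
import Pool.Agent.Work.MP_122e00_nt.FP.I_X2
import Pool.Agent.Work.MP_122e00_nt.FP.I_X3
import Pool.Agent.Work.MP_122e00_nt.FP.I_U1
import Pool.Agent.Work.MP_122e00_nt.FP.I_U2
import Pool.Agent.Work.MP_122e00_nt.FP.I_U3
import Pool.Agent.Work.MP_122e00_nt.FP.I_U4

/-!
# The full polynomial: all items together
-/

namespace Pool.Agent.Work.MP_122e00_nt.FP

open Pool.Agent.Work.MP_122e00_nt.TS

theorem fP1 : fpP1 := pfP1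
theorem fP2 : fpP2 := pfP2
theorem fP3 : fpP3 := pfP3
theorem fP4 : fpP4 := pfP4 fP2 TS.tN1
theorem fK : fpK := pfK
theorem fA1 : fpA1 := pfA1 TS.tX2
theorem fB1 : fpB1 := pfB1 TS.tN1 TS.tX2
theorem fB2 : fpB2 := pfB2 TS.tX2
theorem fB3 : fpB3 := pfB3 fB1 fB2 TS.tX2
theorem fB4 : fpB4 := pfB4 fB1 fB2
theorem fC1 : fpC1 := pfC1 TS.tN1 TS.tX2
theorem fC2 : fpC2 := pfC2 fC1
theorem fE1 : fpE1 := pfE1 TS.tN1
theorem fZ2 : fpZ2 := pfZ2 TS.tN1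
theorem fZ3 : fpZ3 := pfZ3 fZ2
theorem fZ4 : fpZ4 := pfZ4 fZ3 TS.tF9 TS.tG2 TS.tZ1 TS.tZ3
theorem fZ5 : fpZ5 := pfZ5 fZ4 TS.tF9 TS.tZ1 TS.tZ3
theorem fS1 : fpS1 := pfS1 TS.tL0
theorem fS2 : fpS2 := pfS2 TS.tX2
theorem fV1 : fpV1 := pfV1 TS.tZ1
theorem fV2 : fpV2 := pfV2
theorem fG1 : fpG1 := pfG1
theorem fG2 : fpG2 := pfG2 fP1 fP2 fA1 fB4 fC2 fV2 TS.tE1 TS.tN1
theorem fG3 : fpG3 := pfG3 fG1 fG2 fV1 TS.tZ3
theorem fWT1 : fpWT1 := pfWT1 TS.tGS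
theorem fWT2 : fpWT2 := pfWT2 TS.tW2 TS.tW3
theorem fTW : fpTW := pfTW fWT1 fWT2
theorem fQ1 : fpQ1 := pfQ1 TS.tQ5 TS.tH2 fTW
theorem fD1 : fpD1 := pfD1 TS.tN6
theorem fD2 : fpD2 := pfD2 TS.tN1 TS.tN5 fD1
theorem fD3 : fpD3 := pfD3 TS.tN1 TS.tN4 TS.tN8 fD2
theorem fD4 : fpD4 := pfD4 TS.tL0 TS.tN1 TS.tN10 TS.tN11 fD3
theorem fH0 : fpH0 := pfH0
theorem fH1 : fpH1 := pfH1 TS.tE1 fH0
theorem fH2 : fpH2 := pfH2 TS.tF2 TS.tF3 TS.tF7 TS.tF8 TS.tF9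
theorem fW1 : fpW1 := pfW1
theorem fW2 : fpW2 := pfW2
theorem fL1 : fpL1 := pfL1
theorem fW3 : fpW3 := pfW3 fP1 fP2 fP3 fW1 fW2 fL1 TS.tX3 TS.tX16
theorem fM1 : fpM1 := pfM1 TS.tF1 TS.tF2
theorem fM2 : fpM2 := pfM2
theorem fM3 : fpM3 := pfM3
theorem fM4 : fpM4 := pfM4
theorem fM5 : fpM5 := pfM5 fL1 TS.tL0
theorem fM6 : fpM6 := pfM6 TS.tE1
theorem fM7 : fpM7 := pfM7 fP1 fP2 fP3 fM2 fM3 fL1 TS.tK5
theorem fM8 : fpM8 := pfM8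
theorem fM9 : fpM9 := pfM9 fM4
theorem fM10 : fpM10 := pfM10 fP1 fP2 fM1 fM5 fM6 fM7 fM8 fM9 fL1 fV1 fS1 TS.tK5
theorem fW4 : fpW4 := pfW4 fW3 fM10 fP1
theorem fX0 : fpX0 := pfX0
theorem fS4 : fpS4 := pfS4 fP1 fP2 fA1 fS1 fS2 fV1 TS.tX2
theorem fX1a : fpX1a := pfX1a fP1 fP2 fP4 fA1 fB3 fE1 fD4 TS.tX2
theorem fX1b : fpX1b := pfX1b fP1 fP2 fP4 fZ5 fS1 fV1 fG3 fH1 fH2 TS.tY3
theorem fX1 : fpX1 := pfX1 fP1 fX0 fX1a fX1b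
theorem fX2 : fpX2 := pfX2 fP1 fK fS4 fW4 fQ1 fX1 TS.tH2
theorem fX3 : fpX3 := pfX3 fD4 fE1 fZ4
theorem fU1 : fpU1 := pfU1
theorem fU2 : fpU2 := pfU2 fP1 fU1 fZ4
theorem fU3 : fpU3 := pfU3 fP1 fU1 fU2 fX2 fX3 TS.tH2
theorem fU4 : fpU4 := pfU4

/-- the final theorem -/
theorem mainF : StFinF := finF TS.tM4 TS.tE3 TS.tE5 TS.tG4 fU3 fU4

end Pool.Agent.Work.MP_122e00_nt.FP
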