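import Pool.Agent.Work.MP_122e00_nt.FP.StmtsB
import Pool.Agent.Work.MP_122e00_nt.TS.I_G2
import Pool.Agent.Work.MP_122e00_nt.TS.I_G3
import Pool.Agent.Work.MP_122e00_nt.TS.I_F3
import Pool.Agent.Work.MP_122e00_nt.TS.I_R9

/-!
# Item H2: the correlation of a model with itself
-/

set_option autoImplicit false

namespace Pool.Agent.Work.MP_122e00_nt.FP

open Finset Filter Topology ArithmeticFunction MeasureTheory
open Pool.Agent.Work.MP_122e00_nt.TS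
open scoped ArithmeticFunction.zeta ArithmeticFunction.Moebius

namespace H2x

/-- the integral of the density -/
theorem int_ed (P : Polynomial ℝ) (X : ℝ) (hX : 1 ≤ X) :
    ∫ t in (1 : ℝ)..X, (ed P).eval (Real.log t) = X * P.eval (Real.log X) - P.coeff 0 := by
  have h1 : ∀ t ∈ Set.uIcc (1 : ℝ) X, HasDerivAt (fun t => t * P.eval (Real.log t))
      ((ed P).eval (Real.log t)) t := by
    intro t ht
    rw [Set.uIcc_of_le hX] at ht
    exact IF3.hasDeriv_F P t (by linarith [ht.1])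
  have h2 : ContinuousOn (fun t => (ed P).eval (Real.log t)) (Set.uIcc (1 : ℝ) X) := by
    rw [Set.uIcc_of_le hX]
    refine (Polynomial.continuous _).comp_continuousOn ?_
    refine Real.continuousOn_log.mono ?_
    intro t ht
    have : (0 : ℝ) < t := by linarith [ht.1]
    exact this.ne'
  rw [intervalIntegral.integral_eq_sub_of_hasDerivAt h1 h2.intervalIntegrable]
  rw [Real.log_one, one_mul, Polynomial.coeff_zero_eq_eval_zero]

theorem pow_nat {X s : ℝ} (hX0 : 0 < X) (Q n : ℕ) (h : (Q : ℝ) ≤ X ^ s) :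
    (Q : ℝ) ^ n ≤ X ^ (n * s) := by
  calc (Q : ℝ) ^ n ≤ (X ^ s) ^ n := pow_le_pow_left₀ (Nat.cast_nonneg _) h n
    _ = X ^ (n * s) := by
      rw [← Real.rpow_natCast (X ^ s), ← Real.rpow_mul hX0.le]
      congr 1
      ring

/-- the diagonal terms -/
theorem diag (h Q : ℕ) (W : ℝ) (F G : ℕ → ℝ) (hW : 0 ≤ W)
    (hFG : ∀ q ∈ Finset.Icc 1 Q, |F q - G q| ≤ W) :
    |∑ q ∈ Finset.Icc 1 Q, Gh h q * F q - ∑ q ∈ Finset.Icc 1 Q, Gh h q * G q| ≤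
      (Q : ℝ) ^ 3 * W := by
  rw [← Finset.sum_sub_distrib]
  have h1 := IR9.sumGh_bound (fun q => F q - G q) Q h W hW hFG
  refine le_trans (le_of_eq ?_) h1
  congr 1
  refine Finset.sum_congr rfl fun q _ => ?_
  ring

end H2x

open H2x in
/-- H2. The correlation of a model with itself. -/
theorem pfH2 (hF2 : tsF2) (hF3 : tsF3) (hF7 : tsF7) (hF8 : tsF8) (hF9 : tsF9) : fpH2 := by
  intro r θ hr hθ hθ1
  obtain ⟨ε, hε⟩ : ∃ ε : ℝ, ε = (1 - θ) / 16 := ⟨_, rfl⟩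
  have hε0 : 0 < ε := by rw [hε]; linarith
  obtain ⟨η, hη, hη1, hη2⟩ : ∃ η : ℝ, 0 < η ∧ η ≤ 1 / 100 ∧ η ≤ (1 - θ) / 8 :=
    ⟨min (1 / 100) ((1 - θ) / 8), lt_min (by norm_num) (by linarith), min_le_left _ _,
      min_le_right _ _⟩
  obtain ⟨d, hd⟩ : ∃ d : ℕ, d = r - 1 := ⟨_, rfl⟩
  have hdr : d + 1 = r := by omega
  obtain ⟨K1, hK1⟩ : ∃ K1 : ℝ, K1 = (d : ℝ) + 1 := ⟨_, rfl⟩
  have hK1p : 0 < K1 := by rw [hK1]; positivity
  obtain ⟨cR, hcR⟩ : ∃ cR : ℝ, cR = ((2 * d + 1).factorial : ℝ) * (r * K1 ^ 2) := ⟨_, rfl⟩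
  have hr1 : (1 : ℝ) ≤ r := by exact_mod_cast hr
  have hcRp : 0 < cR := by rw [hcR]; positivity
  obtain ⟨CF2, hCF2, hF2'⟩ := hF2 d
  obtain ⟨CF3, hCF3, hF3'⟩ := hF3 (2 * d)
  obtain ⟨CF8, hCF8, hF8'⟩ := hF8 d
  obtain ⟨CL, hCL, hlog⟩ := IG3.log_pow_bound (2 * d + 1) hε0
  obtain ⟨c, hc⟩ : ∃ c : ℝ, c = CF2 * K1 * K1 * CL + CF8 * K1 ^ 2 * CL + CF3 * cR * CL + cR :=
    ⟨_, rfl⟩
  have hcp : 0 < c := by rw [hc]; positivity
  refine ⟨η, (1 - θ) / 4, max 1 (c ^ (1 / ε)), hη, by linarith, ?_⟩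
  intro E M X Q h hX hM hdeg hco hQX hh hhX
  rw [← hd] at hdeg
  have hX1 : 1 ≤ X := (le_max_left _ _).trans hX
  have hX0 : 0 < X := by linarith
  have hcX : c ≤ X ^ ε := by
    have h1 : c ^ (1 / ε) ≤ X := (le_max_right _ _).trans hX
    have h2 : (c ^ (1 / ε)) ^ ε ≤ X ^ ε :=
      Real.rpow_le_rpow (Real.rpow_nonneg hcp.le _) h1 hε0.le
    rwa [← Real.rpow_mul hcp.le, one_div, inv_mul_cancel₀ hε0.ne', Real.rpow_one] at h2
  have hmono : ∀ a b : ℝ, a ≤ b → X ^ a ≤ X ^ b := fun a b hab =>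
    Real.rpow_le_rpow_of_exponent_le hX1 hab
  have hpos : ∀ a : ℝ, 0 < X ^ a := fun a => Real.rpow_pos_of_pos hX0 a
  have hpdeg : ∀ q, (ed (E q)).natDegree ≤ d := fun q => IG3.ed_deg (hdeg q)
  have hpc : ∀ q j : ℕ, 1 ≤ q → |(ed (E q)).coeff j| ≤ K1 * M := by
    intro q j hq
    rw [hK1]
    exact IG3.ed_coeff (hdeg q) (fun j => hco q j hq) j
  obtain ⟨N, hN⟩ : ∃ N : ℕ, N = ⌊X⌋₊ := ⟨_, rfl⟩
  have hN1 : 1 ≤ N := by
    rw [hN]
    exact (Nat.one_le_floor_iff _).mpr hX1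
  have hNX : (N : ℝ) ≤ X := by
    rw [hN]
    exact Nat.floor_le hX0.le
  have hN1r : (1 : ℝ) ≤ N := by exact_mod_cast hN1
  have hh1r : (1 : ℝ) ≤ h := by exact_mod_cast hh
  have hhX' : (h : ℝ) ≤ X := by
    refine hhX.trans ?_
    have := hmono θ 1 hθ1.le
    rwa [Real.rpow_one] at this
  have hQ6 : (Q : ℝ) ^ 6 ≤ X ^ (6 * η) := by
    have := pow_nat hX0 Q 6 hQX
    exact_mod_cast this
  have hQ3 : (Q : ℝ) ^ 3 ≤ X ^ (3 * η) := by
    have := pow_nat hX0 Q 3 hQX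
    exact_mod_cast this
  obtain ⟨Lh, hLh⟩ : ∃ Lh : ℝ, Lh = 1 + Real.log ((N : ℝ) + h) := ⟨_, rfl⟩
  obtain ⟨Lx, hLx⟩ : ∃ Lx : ℝ, Lx = 1 + Real.log X := ⟨_, rfl⟩
  have hLh1 : 1 ≤ Lh := by
    have := Real.log_nonneg (x := (N : ℝ) + h) (by linarith)
    linarith
  have hLx1 : 1 ≤ Lx := by
    have := Real.log_nonneg (x := X) hX1
    linarith
  have hLhL : Lh ≤ 1 + Real.log (2 * X) := by
    have := Real.log_le_log (x := (N : ℝ) + h) (y := 2 * X) (by linarith) (by linarith)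
    linarith
  have hLxL : Lx ≤ 1 + Real.log (2 * X) := by
    have := Real.log_le_log (x := X) (y := 2 * X) (by linarith) (by linarith)
    linarith
  have hLL := hlog X hX1
  have b1 : Lh ^ (2 * d + 1) ≤ CL * X ^ ε := (pow_le_pow_left₀ (by linarith) hLhL _).trans hLL
  have b2 : Lh ^ (2 * d) ≤ CL * X ^ ε := (pow_le_pow_right₀ hLh1 (by omega)).trans b1
  have b3 : Lx ^ (2 * d + 1) ≤ CL * X ^ ε := (pow_le_pow_left₀ (by linarith) hLxL _).trans hLL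
  have hKM : 0 ≤ K1 * M := by positivity
  -- the estimates
  have hA : |cor (fs E Q) (fs E Q) N h - ∑ q ∈ Finset.Icc 1 Q, Gh h q * ∑ n ∈ Finset.Icc 1 N,
      (ed (E q)).eval (Real.log n) * (ed (E q)).eval (Real.log ((n : ℝ) + h))| ≤
      CF2 * (K1 * M) * (K1 * M) * Lh ^ (2 * d) * (Q : ℝ) ^ 6 := by
    refine IG3.partA hF7 (fun q => ed (E q)) N h Q _ (by positivity) ?_
    intro q q' hq hq'
    have h1 := hF2' (ed (E q)) (ed (E q')) (K1 * M) (K1 * M) N h (hpdeg q) (hpdeg q')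
      (fun j => hpc q j hq) (fun j => hpc q' j hq') hN1
    rw [hLh]
    exact h1
  have hRc : ∀ q j : ℕ, 1 ≤ q → |(rr (ed (E q) ^ 2)).coeff j| ≤ cR * M ^ 2 := by
    intro q j hq
    obtain ⟨-, -, -, g4⟩ := hF9 (ed (E q) ^ 2)
    have h1 : ∀ j, |(ed (E q) ^ 2).coeff j| ≤ r * (K1 * M) ^ 2 :=
      IG2.sq_coeff (ed (E q)) r (K1 * M) hr (by rw [← hd]; exact hpdeg q) hKM
        (fun j => hpc q j hq)
    refine (g4 _ h1 j).trans ?_
    have h2 : ((ed (E q) ^ 2).natDegree + 1).factorial ≤ (2 * d + 1).factorial := by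
      refine Nat.factorial_le ?_
      have := (Polynomial.natDegree_pow_le (p := ed (E q)) (n := 2)).trans
        (Nat.mul_le_mul_left 2 (hpdeg q))
      omega
    have h3 : (((ed (E q) ^ 2).natDegree + 1).factorial : ℝ) ≤ ((2 * d + 1).factorial : ℝ) := by
      exact_mod_cast h2
    calc (((ed (E q) ^ 2).natDegree + 1).factorial : ℝ) * (r * (K1 * M) ^ 2)
        ≤ ((2 * d + 1).factorial : ℝ) * (r * (K1 * M) ^ 2) :=
          mul_le_mul_of_nonneg_right h3 (by positivity)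
      _ = cR * M ^ 2 := by rw [hcR]; ring
  have hB : |∑ q ∈ Finset.Icc 1 Q, Gh h q * (∑ n ∈ Finset.Icc 1 N,
      (ed (E q)).eval (Real.log n) * (ed (E q)).eval (Real.log ((n : ℝ) + h))) -
      ∑ q ∈ Finset.Icc 1 Q, Gh h q * ∫ t in (1 : ℝ)..X, ((ed (E q)).eval (Real.log t)) ^ 2| ≤
      (Q : ℝ) ^ 3 * (CF8 * (K1 * M) ^ 2 * h * Lh ^ (2 * d + 1) +
        (CF3 * (cR * M ^ 2) * Lx ^ (2 * d + 1) + cR * M ^ 2)) := by
    refine diag h Q _ (fun q => ∑ n ∈ Finset.Icc 1 N,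
      (ed (E q)).eval (Real.log n) * (ed (E q)).eval (Real.log ((n : ℝ) + h)))
      (fun q => ∫ t in (1 : ℝ)..X, ((ed (E q)).eval (Real.log t)) ^ 2) (by positivity) ?_
    intro q hq
    rw [Finset.mem_Icc] at hq
    have h1 := hF8' (ed (E q)) (K1 * M) N h (hpdeg q) (fun j => hpc q j hq.1) hN1
    obtain ⟨g1, g2, -, -⟩ := hF9 (ed (E q) ^ 2)
    have h2 := hF3' (rr (ed (E q) ^ 2)) (cR * M ^ 2) X
      (g2.trans ((Polynomial.natDegree_pow_le).trans (Nat.mul_le_mul_left 2 (hpdeg q))))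
      (fun j => hRc q j hq.1) hX1
    have h4 := int_ed (rr (ed (E q) ^ 2)) X hX1
    rw [g1] at h2 h4
    simp only [Polynomial.eval_pow] at h2 h4
    rw [← hN, ← hLx] at h2
    rw [← hLh] at h1
    have h5 := hRc q 0 hq.1
    have h6 : |X * (rr (ed (E q) ^ 2)).eval (Real.log X) -
        ∫ t in (1 : ℝ)..X, ((ed (E q)).eval (Real.log t)) ^ 2| ≤ cR * M ^ 2 := by
      rw [h4]
      have e : X * (rr (ed (E q) ^ 2)).eval (Real.log X) -
          (X * (rr (ed (E q) ^ 2)).eval (Real.log X) - (rr (ed (E q) ^ 2)).coeff 0) =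
          (rr (ed (E q) ^ 2)).coeff 0 := by ring
      rw [e]
      exact h5
    exact (abs_sub_le _ (∑ n ∈ Finset.Icc 1 N, (ed (E q)).eval (Real.log n) ^ 2) _).trans
      (add_le_add h1 ((abs_sub_le _ (X * (rr (ed (E q) ^ 2)).eval (Real.log X)) _).trans
        (add_le_add h2 h6)))
  rw [← hN]
  have htot := (abs_sub_le (cor (fs E Q) (fs E Q) N h) _ _).trans (add_le_add hA hB)
  refine htot.trans ?_
  obtain ⟨κ, hκ⟩ : ∃ κ : ℝ, κ = 1 - (1 - θ) / 4 - ε := ⟨_, rfl⟩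
  have hM2 : 0 ≤ M ^ 2 := by positivity
  have t1 : CF2 * (K1 * M) * (K1 * M) * Lh ^ (2 * d) * (Q : ℝ) ^ 6 ≤
      M ^ 2 * (CF2 * K1 * K1 * CL * X ^ κ) := by
    calc CF2 * (K1 * M) * (K1 * M) * Lh ^ (2 * d) * (Q : ℝ) ^ 6
        = M ^ 2 * (CF2 * K1 * K1 * (Lh ^ (2 * d) * (Q : ℝ) ^ 6)) := by ring
      _ ≤ M ^ 2 * (CF2 * K1 * K1 * ((CL * X ^ ε) * X ^ (6 * η))) := by gcongr
      _ = M ^ 2 * (CF2 * K1 * K1 * CL * X ^ (ε + 6 * η)) := by
          rw [Real.rpow_add hX0]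
          ring
      _ ≤ _ := by
          refine mul_le_mul_of_nonneg_left ?_ hM2
          refine mul_le_mul_of_nonneg_left (hmono _ _ ?_) (by positivity)
          rw [hκ, hε]
          linarith
  have t2 : (Q : ℝ) ^ 3 * (CF8 * (K1 * M) ^ 2 * h * Lh ^ (2 * d + 1)) ≤
      M ^ 2 * (CF8 * K1 ^ 2 * CL * X ^ κ) := by
    calc (Q : ℝ) ^ 3 * (CF8 * (K1 * M) ^ 2 * h * Lh ^ (2 * d + 1))
        = M ^ 2 * (CF8 * K1 ^ 2 * ((Q : ℝ) ^ 3 * h * Lh ^ (2 * d + 1))) := by ring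
      _ ≤ M ^ 2 * (CF8 * K1 ^ 2 * (X ^ (3 * η) * X ^ θ * (CL * X ^ ε))) := by gcongr
      _ = M ^ 2 * (CF8 * K1 ^ 2 * CL * X ^ (3 * η + θ + ε)) := by
          rw [Real.rpow_add hX0, Real.rpow_add hX0]
          ring
      _ ≤ _ := by
          refine mul_le_mul_of_nonneg_left ?_ hM2
          refine mul_le_mul_of_nonneg_left (hmono _ _ ?_) (by positivity)
          rw [hκ, hε]
          linarith
  have t3 : (Q : ℝ) ^ 3 * (CF3 * (cR * M ^ 2) * Lx ^ (2 * d + 1)) ≤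
      M ^ 2 * (CF3 * cR * CL * X ^ κ) := by
    calc (Q : ℝ) ^ 3 * (CF3 * (cR * M ^ 2) * Lx ^ (2 * d + 1))
        = M ^ 2 * (CF3 * cR * ((Q : ℝ) ^ 3 * Lx ^ (2 * d + 1))) := by ring
      _ ≤ M ^ 2 * (CF3 * cR * (X ^ (3 * η) * (CL * X ^ ε))) := by gcongr
      _ = M ^ 2 * (CF3 * cR * CL * X ^ (3 * η + ε)) := by
          rw [Real.rpow_add hX0]
          ring
      _ ≤ _ := by
          refine mul_le_mul_of_nonneg_left ?_ hM2
          refine mul_le_mul_of_nonneg_left (hmono _ _ ?_) (by positivity)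
          rw [hκ, hε]
          linarith
  have t4 : (Q : ℝ) ^ 3 * (cR * M ^ 2) ≤ M ^ 2 * (cR * X ^ κ) := by
    calc (Q : ℝ) ^ 3 * (cR * M ^ 2) ≤ X ^ (3 * η) * (cR * M ^ 2) := by gcongr
      _ = M ^ 2 * (cR * X ^ (3 * η)) := by ring
      _ ≤ _ := by
          refine mul_le_mul_of_nonneg_left ?_ hM2
          refine mul_le_mul_of_nonneg_left (hmono _ _ ?_) (by positivity)
          rw [hκ, hε]
          linarith
  have hfin : c * X ^ κ ≤ X ^ (1 - (1 - θ) / 4) := by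
    calc c * X ^ κ ≤ X ^ ε * X ^ κ := mul_le_mul_of_nonneg_right hcX (hpos _).le
      _ = X ^ (1 - (1 - θ) / 4) := by
          rw [← Real.rpow_add hX0]
          congr 1
          rw [hκ]
          ring
  have hsum : M ^ 2 * (CF2 * K1 * K1 * CL * X ^ κ) + (M ^ 2 * (CF8 * K1 ^ 2 * CL * X ^ κ) +
      (M ^ 2 * (CF3 * cR * CL * X ^ κ) + M ^ 2 * (cR * X ^ κ))) = M ^ 2 * (c * X ^ κ) := by
    rw [hc]
    ring
  calc CF2 * (K1 * M) * (K1 * M) * Lh ^ (2 * d) * (Q : ℝ) ^ 6 +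
        (Q : ℝ) ^ 3 * (CF8 * (K1 * M) ^ 2 * h * Lh ^ (2 * d + 1) +
        (CF3 * (cR * M ^ 2) * Lx ^ (2 * d + 1) + cR * M ^ 2))
      = CF2 * (K1 * M) * (K1 * M) * Lh ^ (2 * d) * (Q : ℝ) ^ 6 +
        ((Q : ℝ) ^ 3 * (CF8 * (K1 * M) ^ 2 * h * Lh ^ (2 * d + 1)) +
        ((Q : ℝ) ^ 3 * (CF3 * (cR * M ^ 2) * Lx ^ (2 * d + 1)) +
          (Q : ℝ) ^ 3 * (cR * M ^ 2))) := by ring
    _ ≤ M ^ 2 * (CF2 * K1 * K1 * CL * X ^ κ) + (M ^ 2 * (CF8 * K1 ^ 2 * CL * X ^ κ) +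
      (M ^ 2 * (CF3 * cR * CL * X ^ κ) + M ^ 2 * (cR * X ^ κ))) :=
        add_le_add t1 (add_le_add t2 (add_le_add t3 t4))
    _ = M ^ 2 * (c * X ^ κ) := hsum
    _ ≤ M ^ 2 * X ^ (1 - (1 - θ) / 4) := mul_le_mul_of_nonneg_left hfin hM2

end Pool.Agent.Work.MP_122e00_nt.FP
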