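import Pool.Agent.Work.MP_122e00_nt.FP.StmtsA

/-!
Item K of block FP: the smooth factor.
-/

namespace Pool.Agent.Work.MP_122e00_nt.FP

open Finset Filter Topology ArithmeticFunction MeasureTheory
open Pool.Agent.Work.MP_122e00_nt.TS
open scoped ArithmeticFunction.zeta ArithmeticFunction.Moebius

namespace Kx

/-- all prime factors of `n ≥ 1` satisfy `C` -/
def Sp (C : ℕ → Prop) (n : ℕ) : Prop := 1 ≤ n ∧ ∀ p ∈ n.primeFactors, C p

theorem sp_one (C : ℕ → Prop) : Sp C 1 := ⟨le_rfl, by simp⟩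

theorem sp_mul (C : ℕ → Prop) {a b : ℕ} (ha : 1 ≤ a) (hb : 1 ≤ b) :
    Sp C (a * b) ↔ Sp C a ∧ Sp C b := by
  unfold Sp
  rw [Nat.primeFactors_mul (by omega) (by omega)]
  constructor
  · rintro ⟨-, h⟩
    exact ⟨⟨ha, fun p hp => h p (Finset.mem_union_left _ hp)⟩,
      ⟨hb, fun p hp => h p (Finset.mem_union_right _ hp)⟩⟩
  · rintro ⟨⟨-, h1⟩, ⟨-, h2⟩⟩
    refine ⟨Nat.mul_pos ha hb, fun p hp => ?_⟩
    rcases Finset.mem_union.1 hp with h | h
    · exact h1 p h
    · exact h2 p h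

open Classical in
/-- restriction to the integers all of whose prime factors satisfy `C` -/
noncomputable def res (C : ℕ → Prop) (f : ArithmeticFunction ℝ) : ArithmeticFunction ℝ :=
  ⟨fun n => if Sp C n then f n else 0, by
    rw [ArithmeticFunction.map_zero]
    exact ite_self 0⟩

open Classical in
theorem res_apply (C : ℕ → Prop) (f : ArithmeticFunction ℝ) (n : ℕ) :
    res C f n = if Sp C n then f n else 0 := rfl

theorem res_pos {C : ℕ → Prop} (f : ArithmeticFunction ℝ) {n : ℕ} (h : Sp C n) :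
    res C f n = f n := by
  rw [res_apply, if_pos h]

theorem res_neg {C : ℕ → Prop} (f : ArithmeticFunction ℝ) {n : ℕ} (h : ¬ Sp C n) :
    res C f n = 0 := by
  rw [res_apply, if_neg h]

theorem res_mul (C : ℕ → Prop) (f g : ArithmeticFunction ℝ) :
    res C (f * g) = res C f * res C g := by
  ext n
  rw [ArithmeticFunction.mul_apply]
  by_cases h : Sp C n
  · rw [res_pos _ h, ArithmeticFunction.mul_apply]
    refine Finset.sum_congr rfl fun x hx => ?_
    obtain ⟨h1, h2⟩ := Nat.mem_divisorsAntidiagonal.1 hx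
    have ha : 1 ≤ x.1 := by
      rcases Nat.eq_zero_or_pos x.1 with h0 | h0
      · rw [h0, Nat.zero_mul] at h1; exact absurd h1.symm h2
      · exact h0
    have hb : 1 ≤ x.2 := by
      rcases Nat.eq_zero_or_pos x.2 with h0 | h0
      · rw [h0, Nat.mul_zero] at h1; exact absurd h1.symm h2
      · exact h0
    rw [← h1, sp_mul C ha hb] at h
    rw [res_pos _ h.1, res_pos _ h.2]
  · rw [res_neg _ h]
    symm
    refine Finset.sum_eq_zero fun x hx => ?_
    obtain ⟨h1, h2⟩ := Nat.mem_divisorsAntidiagonal.1 hx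
    by_cases ha : Sp C x.1
    · have hb : ¬ Sp C x.2 := by
        intro hb
        exact h (h1 ▸ (sp_mul C ha.1 hb.1).2 ⟨ha, hb⟩)
      rw [res_neg g hb, mul_zero]
    · rw [res_neg f ha, zero_mul]

theorem res_one (C : ℕ → Prop) : res C 1 = 1 := by
  ext n
  by_cases h : n = 1
  · rw [h, res_pos _ (sp_one C)]
  · by_cases h1 : Sp C n
    · rw [res_pos _ h1]
    · rw [res_neg _ h1, ArithmeticFunction.one_apply_ne h]

theorem res_pow (C : ℕ → Prop) (f : ArithmeticFunction ℝ) (r : ℕ) :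
    res C (f ^ r) = res C f ^ r := by
  induction r with
  | zero => rw [pow_zero, pow_zero, res_one]
  | succ r ih => rw [pow_succ, pow_succ, res_mul, ih]

theorem exists_split (C : ℕ → Prop) (n : ℕ) (hn : 1 ≤ n) :
    ∃ s l, n = s * l ∧ Sp C s ∧ Sp (fun p => ¬ C p) l := by
  induction n using Nat.recOnMul with
  | zero => omega
  | one => exact ⟨1, 1, rfl, sp_one _, sp_one _⟩
  | prime p hp =>
    by_cases h : C p
    · refine ⟨p, 1, (mul_one p).symm, ⟨hn, fun q hq => ?_⟩, sp_one _⟩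
      rw [hp.primeFactors, Finset.mem_singleton] at hq
      rw [hq]; exact h
    · refine ⟨1, p, (one_mul p).symm, sp_one _, ⟨hn, fun q hq => ?_⟩⟩
      rw [hp.primeFactors, Finset.mem_singleton] at hq
      rw [hq]; exact h
  | mul a b ha hb =>
    have h1 : 1 ≤ a := Nat.pos_of_ne_zero fun h => by rw [h, Nat.zero_mul] at hn; omega
    have h2 : 1 ≤ b := Nat.pos_of_ne_zero fun h => by rw [h, Nat.mul_zero] at hn; omega
    obtain ⟨s, l, h3, h4, h5⟩ := ha h1
    obtain ⟨s', l', h3', h4', h5'⟩ := hb h2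
    refine ⟨s * s', l * l', ?_, (sp_mul _ h4.1 h4'.1).2 ⟨h4, h4'⟩,
      (sp_mul _ h5.1 h5'.1).2 ⟨h5, h5'⟩⟩
    rw [h3, h3']
    ring

theorem cop {C : ℕ → Prop} {s l : ℕ} (hs : Sp C s) (hl : Sp (fun p => ¬ C p) l) :
    Nat.Coprime s l := by
  refine Nat.coprime_of_dvd fun p hp h1 h2 => ?_
  exact hl.2 p (Nat.mem_primeFactors.2 ⟨hp, h2, by have := hl.1; omega⟩)
    (hs.2 p (Nat.mem_primeFactors.2 ⟨hp, h1, by have := hs.1; omega⟩))

theorem split_unique {C : ℕ → Prop} {s l s' l' : ℕ} (hs : Sp C s) (hl : Sp (fun p => ¬ C p) l)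
    (hs' : Sp C s') (hl' : Sp (fun p => ¬ C p) l') (h : s * l = s' * l') : s = s' ∧ l = l' := by
  have h1 : s ∣ s' := (cop hs hl').dvd_of_dvd_mul_right (h ▸ Nat.dvd_mul_right s l)
  have h2 : s' ∣ s := (cop hs' hl).dvd_of_dvd_mul_right (h ▸ Nat.dvd_mul_right s' l')
  have h3 : s = s' := Nat.dvd_antisymm h1 h2
  refine ⟨h3, ?_⟩
  rw [← h3] at h
  exact Nat.eq_of_mul_eq_mul_left hs.1 h

theorem conv_eval {C : ℕ → Prop} (f g : ArithmeticFunction ℝ) (hf : ∀ n, f n ≠ 0 → Sp C n)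
    (hg : ∀ n, g n ≠ 0 → Sp (fun p => ¬ C p) n) {s l : ℕ} (hs : Sp C s)
    (hl : Sp (fun p => ¬ C p) l) : (f * g) (s * l) = f s * g l := by
  rw [ArithmeticFunction.mul_apply]
  have hne : s * l ≠ 0 := Nat.mul_ne_zero (by have := hs.1; omega) (by have := hl.1; omega)
  rw [Finset.sum_eq_single (s, l)]
  · intro x hx hne'
    by_contra h0
    have h1 : f x.1 ≠ 0 := fun h => h0 (by rw [h, zero_mul])
    have h2 : g x.2 ≠ 0 := fun h => h0 (by rw [h, mul_zero])
    have h3 := (Nat.mem_divisorsAntidiagonal.1 hx).1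
    obtain ⟨h4, h5⟩ := split_unique (hf _ h1) (hg _ h2) hs hl h3
    exact hne' (Prod.ext h4 h5)
  · intro h
    exact absurd (Nat.mem_divisorsAntidiagonal.2 ⟨rfl, hne⟩) h

theorem res_ne {C : ℕ → Prop} {f : ArithmeticFunction ℝ} {n : ℕ} (h : res C f n ≠ 0) :
    Sp C n := by
  by_contra h1
  exact h (res_neg f h1)

/-- zeta with real values -/
noncomputable abbrev Zr : ArithmeticFunction ℝ := ((ζ : ArithmeticFunction ℕ) : ArithmeticFunction ℝ)

/-- the Moebius function with real values -/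
noncomputable abbrev Mr : ArithmeticFunction ℝ := ((μ : ArithmeticFunction ℤ) : ArithmeticFunction ℝ)

theorem zr_apply {n : ℕ} (hn : n ≠ 0) : Zr n = 1 := by
  unfold Zr
  rw [ArithmeticFunction.natCoe_apply, ArithmeticFunction.zeta_apply_ne hn, Nat.cast_one]

theorem dr_eq (r n : ℕ) : dr r n = (Zr ^ r) n := by
  unfold dr
  induction r generalizing n with
  | zero =>
    rw [pow_zero, pow_zero, ArithmeticFunction.one_apply, ArithmeticFunction.one_apply]
    split_ifs <;> simp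
  | succ r ih =>
    rw [pow_succ, pow_succ, ArithmeticFunction.mul_apply, ArithmeticFunction.mul_apply,
      Nat.cast_sum]
    refine Finset.sum_congr rfl fun x _ => ?_
    rw [Nat.cast_mul, ih, ArithmeticFunction.natCoe_apply]

theorem dr_nonneg (r n : ℕ) : 0 ≤ dr r n := Nat.cast_nonneg _

theorem dr_mul (r a b : ℕ) (hab : Nat.Coprime a b) : dr r (a * b) = dr r a * dr r b := by
  have hm : ((ζ : ArithmeticFunction ℕ) ^ r).IsMultiplicative := isMultiplicative_zeta.pow
  unfold dr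
  rw [hm.map_mul_of_coprime hab, Nat.cast_mul]

theorem dr_add (r r' n : ℕ) :
    dr (r + r') n = ∑ x ∈ n.divisorsAntidiagonal, dr r x.1 * dr r' x.2 := by
  rw [dr_eq, pow_add, ArithmeticFunction.mul_apply]
  refine Finset.sum_congr rfl fun x _ => ?_
  rw [dr_eq, dr_eq]

theorem dr_succ (r n : ℕ) : dr (r + 1) n = ∑ x ∈ n.divisorsAntidiagonal, dr r x.1 := by
  rw [dr_add]
  refine Finset.sum_congr rfl fun x hx => ?_
  obtain ⟨h1, h2⟩ := Nat.mem_divisorsAntidiagonal.1 hx
  have hb : x.2 ≠ 0 := fun h0 => h2 (by rw [← h1, h0, Nat.mul_zero])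
  rw [dr_eq 1, pow_one, zr_apply hb, mul_one]

theorem mr_le (n : ℕ) : |Mr n| ≤ 1 := by
  unfold Mr
  rw [ArithmeticFunction.intCoe_apply]
  have h1 : |(μ n : ℤ)| ≤ 1 := ArithmeticFunction.abs_moebius_le_one
  exact_mod_cast h1

theorem mu_pow_le (r n : ℕ) : |(Mr ^ r) n| ≤ dr r n := by
  induction r generalizing n with
  | zero =>
    rw [dr_eq, pow_zero, pow_zero, ArithmeticFunction.one_apply]
    split_ifs <;> simp
  | succ r ih =>
    rw [pow_succ, ArithmeticFunction.mul_apply, dr_succ]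
    refine (Finset.abs_sum_le_sum_abs _ _).trans (Finset.sum_le_sum fun x _ => ?_)
    rw [abs_mul]
    exact (mul_le_mul (ih _) (mr_le _) (abs_nonneg _) (dr_nonneg _ _)).trans
      (le_of_eq (mul_one _))

theorem zeta_split (C : ℕ → Prop) : Zr = res C Zr * res (fun p => ¬ C p) Zr := by
  ext n
  rcases Nat.eq_zero_or_pos n with h0 | h0
  · rw [h0, ArithmeticFunction.map_zero, ArithmeticFunction.map_zero]
  · obtain ⟨s, l, h1, h2, h3⟩ := exists_split C n h0
    have hs : s ≠ 0 := by have := h2.1; omega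
    have hl : l ≠ 0 := by have := h3.1; omega
    rw [h1, conv_eval _ _ (fun _ h => res_ne h) (fun _ h => res_ne h) h2 h3, res_pos _ h2,
      res_pos _ h3, zr_apply hs, zr_apply hl, zr_apply (Nat.mul_ne_zero hs hl), mul_one]

theorem cancel (C : ℕ → Prop) (r : ℕ) :
    res C (Mr ^ r) * Zr ^ r = res (fun p => ¬ C p) (Zr ^ r) := by
  have h1 : res C Mr * res C Zr = 1 := by
    rw [← res_mul, ArithmeticFunction.coe_moebius_mul_coe_zeta, res_one]
  have h2 : Zr ^ r = res C Zr ^ r * res (fun p => ¬ C p) Zr ^ r := by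
    rw [← mul_pow, ← zeta_split]
  calc res C (Mr ^ r) * Zr ^ r
      = res C Mr ^ r * (res C Zr ^ r * res (fun p => ¬ C p) Zr ^ r) := by rw [res_pow, ← h2]
    _ = res (fun p => ¬ C p) Zr ^ r := by
        rw [← mul_assoc, ← mul_pow, h1, one_pow, one_mul]
    _ = res (fun p => ¬ C p) (Zr ^ r) := (res_pow _ _ _).symm

theorem mem_PW (z w : ℝ) (p : ℕ) :
    p ∈ PW z w ↔ p.Prime ∧ z < (p : ℝ) ∧ (p : ℝ) ≤ w := by
  unfold PW
  rw [Finset.mem_filter, Finset.mem_Icc]
  constructor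
  · rintro ⟨⟨h1, h2⟩, h3, h4⟩
    exact ⟨h3, h4, (Nat.le_floor_iff' (by omega)).1 h2⟩
  · rintro ⟨h1, h2, h3⟩
    exact ⟨⟨h1.one_lt.le, (Nat.le_floor_iff' h1.ne_zero).2 h3⟩, h1, h2⟩

theorem ow_split (z w : ℝ) (s l : ℕ)
    (hl : Sp (fun p => ¬ (z < (p : ℝ) ∧ (p : ℝ) ≤ w)) l) : ow z w (s * l) = ow z w s := by
  unfold ow
  congr 1
  refine Finset.filter_congr fun p hp => ?_
  obtain ⟨h1, h2⟩ := (mem_PW z w p).1 hp
  constructor
  · intro h
    rcases h1.dvd_mul.1 h with h3 | h3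
    · exact h3
    · exact absurd h2 (hl.2 p (Nat.mem_primeFactors.2 ⟨h1, h3, by have := hl.1; omega⟩))
  · intro h
    exact Dvd.dvd.mul_right h l

open Classical in
/-- the restriction of `d_r/(1 + ω)` to the smooth integers -/
noncomputable def GG (r : ℕ) (z w : ℝ) (C : ℕ → Prop) : ArithmeticFunction ℝ :=
  ⟨fun n => if Sp C n then dr r n / (1 + (ow z w n : ℝ)) else 0, by
    rw [if_neg]
    intro h
    have := h.1
    omega⟩

open Classical in
theorem GG_apply (r : ℕ) (z w : ℝ) (C : ℕ → Prop) (n : ℕ) :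
    GG r z w C n = if Sp C n then dr r n / (1 + (ow z w n : ℝ)) else 0 := rfl

end Kx

open Kx

theorem pfK : fpK := by
  intro r z w _
  set C : ℕ → Prop := fun p => z < (p : ℝ) ∧ (p : ℝ) ≤ w with hC
  set k : ArithmeticFunction ℝ := GG r z w C * res C (Mr ^ r) with hk
  have hG : ∀ n, GG r z w C n ≠ 0 → Sp C n := by
    intro n h
    by_contra h1
    rw [GG_apply, if_neg h1] at h
    exact h rfl
  have hGb : ∀ n, |GG r z w C n| ≤ dr r n := by
    intro n
    rw [GG_apply]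
    split_ifs with h
    · have h1 : (0 : ℝ) ≤ (ow z w n : ℝ) := Nat.cast_nonneg _
      rw [abs_of_nonneg (div_nonneg (dr_nonneg r n) (by linarith))]
      exact div_le_self (dr_nonneg r n) (by linarith)
    · rw [abs_zero]; exact dr_nonneg r n
  have hBb : ∀ n, |res C (Mr ^ r) n| ≤ dr r n := by
    intro n
    by_cases h : Sp C n
    · rw [res_pos _ h]; exact mu_pow_le r n
    · rw [res_neg _ h, abs_zero]; exact dr_nonneg r n
  refine ⟨fun n => k n, ?_, ?_, ?_⟩
  · intro n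
    show |k n| ≤ dr (2 * r) n
    rw [hk, ArithmeticFunction.mul_apply, two_mul, dr_add]
    refine (Finset.abs_sum_le_sum_abs _ _).trans (Finset.sum_le_sum fun x _ => ?_)
    rw [abs_mul]
    exact mul_le_mul (hGb _) (hBb _) (abs_nonneg _) (dr_nonneg _ _)
  · intro n hn
    have hn : k n ≠ 0 := hn
    rw [hk, ArithmeticFunction.mul_apply] at hn
    obtain ⟨x, hx, hx'⟩ := Finset.exists_ne_zero_of_sum_ne_zero hn
    have h1 : Sp C x.1 := hG _ fun h => hx' (by rw [h, zero_mul])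
    have h2 : Sp C x.2 := res_ne (f := Mr ^ r) fun h => hx' (by rw [h, mul_zero])
    have h3 := (Nat.mem_divisorsAntidiagonal.1 hx).1
    have h4 : Sp C n := h3 ▸ (sp_mul C h1.1 h2.1).2 ⟨h1, h2⟩
    exact h4
  · intro m hm
    have h1 : ∑ s ∈ m.divisors, k s * dr r (m / s) = (k * Zr ^ r) m := by
      rw [ArithmeticFunction.mul_apply,
        Nat.sum_divisorsAntidiagonal (fun a b => k a * (Zr ^ r) b)]
      exact Finset.sum_congr rfl fun s _ => by rw [dr_eq]
    obtain ⟨s, l, h2, h3, h4⟩ := exists_split C m hm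
    have h5 : (k * Zr ^ r) m = dr r s / (1 + (ow z w s : ℝ)) * dr r l := by
      rw [hk, mul_assoc, cancel, h2,
        conv_eval _ _ hG (fun _ h => res_ne h) h3 h4, GG_apply, if_pos h3, res_pos _ h4, ← dr_eq]
    show dr r m / (1 + (ow z w m : ℝ)) = ∑ s ∈ m.divisors, k s * dr r (m / s)
    rw [h1, h5, h2, ow_split z w s l h4, dr_mul r s l (cop h3 h4)]
    ring

end Pool.Agent.Work.MP_122e00_nt.FP
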