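import Pool.Agent.Work.MP_122e00_nt.FP.StmtsC

/-!
# Full polynomial, item M6 (helper61): windows of a model at `n/s`, opened
-/

set_option autoImplicit false

namespace Pool.Agent.Work.MP_122e00_nt.FP

open Pool.Agent.Work.MP_122e00_nt.TS

namespace M6x

theorem eq_ee (x : ℝ) : Pool.Agent.Work.MP_122e00_nt.ee x = TS.ee x := by
  unfold Pool.Agent.Work.MP_122e00_nt.ee TS.ee
  congr 1
  push_cast
  ring

theorem ee_add' (a b : ℝ) : TS.ee a * TS.ee b = TS.ee (a + b) := by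
  unfold TS.ee
  rw [← Complex.exp_add]
  congr 1
  push_cast
  ring

theorem step (u : ℕ → ℝ) (s N L x : ℕ) (γ : ℝ) (hs : 0 < s) :
    wn (dil s u) N L x γ = ∑ m ∈ Finset.Ioc ((x - L) / s) (min (N / s) (x / s)),
      (u m : ℂ) * TS.ee (m * (s * γ)) := by
  unfold wn
  have h2 : ∀ m ∈ Finset.Ioc ((x - L) / s) (min (N / s) (x / s)),
      (u m : ℂ) * TS.ee (m * (s * γ)) =
        (dil s u (m * s) : ℂ) * TS.ee (((m * s : ℕ) : ℝ) * γ) := by
    intro m _
    have h3 : dil s u (m * s) = u m := by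
      unfold dil
      rw [if_pos (dvd_mul_left s m), Nat.mul_div_cancel m hs]
    rw [h3]
    push_cast
    rw [mul_assoc]
  rw [Finset.sum_congr rfl h2]
  have h4 : ∑ m ∈ Finset.Ioc ((x - L) / s) (min (N / s) (x / s)),
      (dil s u (m * s) : ℂ) * TS.ee (((m * s : ℕ) : ℝ) * γ) =
      ∑ n ∈ (Finset.Ioc ((x - L) / s) (min (N / s) (x / s))).image (fun m => m * s),
        (dil s u n : ℂ) * TS.ee ((n : ℝ) * γ) := by
    rw [Finset.sum_image (fun a _ b _ hab => Nat.eq_of_mul_eq_mul_right hs hab)]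
  rw [h4]
  have hmem : ∀ m, m ∈ Finset.Ioc ((x - L) / s) (min (N / s) (x / s)) ↔
      1 ≤ m * s ∧ m * s ≤ N ∧ m * s ≤ x ∧ x < m * s + L := by
    intro m
    rw [Finset.mem_Ioc, Nat.div_lt_iff_lt_mul hs, le_min_iff, Nat.le_div_iff_mul_le hs,
      Nat.le_div_iff_mul_le hs]
    omega
  symm
  refine Finset.sum_subset ?_ ?_
  · intro n hn
    obtain ⟨m, hm, rfl⟩ := Finset.mem_image.1 hn
    obtain ⟨a, b, c, d⟩ := (hmem m).1 hm
    exact Finset.mem_filter.2 ⟨Finset.mem_Icc.2 ⟨a, b⟩, c, d⟩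
  · intro n hn hn2
    obtain ⟨hn1, c, d⟩ := Finset.mem_filter.1 hn
    obtain ⟨a, b⟩ := Finset.mem_Icc.1 hn1
    have h5 : ¬ s ∣ n := by
      rintro ⟨m, rfl⟩
      apply hn2
      refine Finset.mem_image.2 ⟨m, (hmem m).2 ?_, mul_comm m s⟩
      rw [mul_comm m s]
      exact ⟨a, b, c, d⟩
    have h6 : dil s u n = 0 := by
      unfold dil
      rw [if_neg h5]
    rw [h6]
    simp

end M6x

theorem pfM6 (h1 : tsE1) : fpM6 := by
  intro E' s Q N L x γ hs
  rw [M6x.step _ s N L x γ hs]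
  simp only [M6x.eq_ee]
  have h2 : ∀ m : ℕ, ((fs E' Q m : ℝ) : ℂ) * TS.ee (m * (s * γ)) =
      ∑ q ∈ Finset.Icc 1 Q, ∑ a ∈ (Finset.range q).filter (fun a => Nat.Coprime a q),
        (((ed (E' q)).eval (Real.log m) : ℝ) : ℂ) * TS.ee (m * ((a : ℝ) / q + s * γ)) := by
    intro m
    unfold fs
    rw [Complex.ofReal_sum, Finset.sum_mul]
    refine Finset.sum_congr rfl fun q hq => ?_
    rw [Complex.ofReal_mul, ← h1 q m (Finset.mem_Icc.1 hq).1, Finset.sum_mul, Finset.sum_mul]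
    refine Finset.sum_congr rfl fun a _ => ?_
    have h3 : (m : ℝ) * ((a : ℝ) / q + s * γ) = (m : ℝ) * a / q + m * (s * γ) := by ring
    rw [h3, ← M6x.ee_add']
    ring
  rw [Finset.sum_congr rfl fun m _ => h2 m, Finset.sum_comm]
  refine Finset.sum_congr rfl fun q _ => ?_
  rw [Finset.sum_comm]

end Pool.Agent.Work.MP_122e00_nt.FP
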