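import Pool.Agent.Work.MP_122e00_nt.FP.StmtsB

set_option autoImplicit false

/-! # Item WT1 of the block FP: Weyl in degree one, polynomial losses -/

namespace Pool.Agent.Work.MP_122e00_nt.FP

open Finset Filter Topology ArithmeticFunction MeasureTheory
open Pool.Agent.Work.MP_122e00_nt.TS
open scoped ArithmeticFunction.zeta ArithmeticFunction.Moebius

namespace WT1x

theorem ee_eq (x : ℝ) : Pool.Agent.Work.MP_122e00_nt.ee x = Pool.Agent.Work.MP_122e00_nt.TS.ee x := by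
  unfold Pool.Agent.Work.MP_122e00_nt.ee Pool.Agent.Work.MP_122e00_nt.TS.ee
  push_cast
  rfl

theorem ee_add (x y : ℝ) : TS.ee (x + y) = TS.ee x * TS.ee y := by
  unfold TS.ee
  rw [← Complex.exp_add]
  congr 1
  push_cast
  ring

theorem norm_ee (x : ℝ) : ‖TS.ee x‖ = 1 := by
  unfold TS.ee
  exact Complex.norm_exp_ofReal_mul_I _

end WT1x

theorem pfWT1 (h : tsGS) : fpWT1 := by
  refine ⟨1, le_refl 1, ?_⟩
  intro K T hK hT f hf A B _ hS
  simp only [WT1x.ee_eq] at hS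
  obtain ⟨α, hα⟩ : ∃ α : ℝ, α = f.coeff 1 := ⟨_, rfl⟩
  have hev : ∀ x : ℝ, f.eval x = x * α + f.coeff 0 := by
    intro x
    rw [Polynomial.eval_eq_sum_range' (Nat.lt_succ_of_le hf) x, Finset.sum_range_succ,
      Finset.sum_range_one, pow_zero, pow_one, ← hα]
    ring
  have hsum : ∑ k ∈ Finset.Ioc A B, TS.ee (f.eval (k : ℝ)) =
      (∑ k ∈ Finset.Ioc A B, TS.ee (k * α)) * TS.ee (f.coeff 0) := by
    rw [Finset.sum_mul]
    refine Finset.sum_congr rfl fun k _ => ?_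
    rw [hev, WT1x.ee_add]
  have h1 := (h A B α).1
  rw [hsum, norm_mul, WT1x.norm_ee, mul_one] at hS
  have hK0 : (0 : ℝ) < K := by
    have : 0 < K := hK
    exact_mod_cast this
  have hT0 : (0 : ℝ) < T := lt_of_lt_of_le one_pos hT
  have hnn : (0 : ℝ) ≤ nn α := abs_nonneg _
  have h2 : (K : ℝ) / T * nn α ≤ 1 / 2 :=
    le_trans (mul_le_mul_of_nonneg_right hS hnn) h1
  have h3 : T / (K : ℝ) * ((K : ℝ) / T) = 1 := by
    field_simp
  have h4 : (0 : ℝ) < T / (K : ℝ) := div_pos hT0 hK0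
  refine ⟨1, le_refl 1, ?_, round α, ?_⟩
  · rw [Nat.cast_one, one_mul, pow_one]
    exact hT
  · rw [Nat.cast_one, one_mul, one_mul, pow_one, pow_one, ← hα]
    show nn α ≤ _
    calc nn α = T / (K : ℝ) * ((K : ℝ) / T * nn α) := by
          rw [← mul_assoc, h3, one_mul]
      _ ≤ T / (K : ℝ) * (1 / 2) := mul_le_mul_of_nonneg_left h2 h4.le
      _ ≤ T / (K : ℝ) := by linarith

end Pool.Agent.Work.MP_122e00_nt.FP
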