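import Pool.Agent.Work.MP_122e00_nt.FP.StmtsD

/-!
Item X1 of block FP: the formula for one shift.
-/

set_option autoImplicit false

namespace Pool.Agent.Work.MP_122e00_nt.FP

open Finset Filter Topology ArithmeticFunction MeasureTheory
open Pool.Agent.Work.MP_122e00_nt.TS
open scoped ArithmeticFunction.zeta ArithmeticFunction.Moebius

namespace X1x

/-- the error bound is nondecreasing in the exponent -/
theorem eb_mono (r : ℕ) (C C' X H : ℝ) (hX : 0 ≤ X) (hL : 0 ≤ Real.log X) (hl : 1 ≤ l2 X)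
    (hH : 0 < Real.log H) (hC : C ≤ C') : eb r C X H ≤ eb r C' X H := by
  unfold eb
  refine div_le_div_of_nonneg_right (mul_le_mul_of_nonneg_left
    (Real.rpow_le_rpow_of_exponent_le hl hC) (by positivity)) (by positivity)

/-- the trivial lower bound -/
theorem eb_low (r : ℕ) (hr : 1 ≤ r) (C X H : ℝ) (hX : 0 ≤ X) (hl : 1 ≤ l2 X)
    (hC : 0 ≤ C) (hH : 0 < Real.log H) (hHX : Real.log H ≤ Real.log X) :
    X / Real.log X ^ 2 ≤ eb r C X H := by
  have hL : 0 < Real.log X := by linarith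
  have h1 : (1 : ℝ) ≤ l2 X ^ C := Real.one_le_rpow hl hC
  have h2 : Real.log H ^ (2 * r) ≤ Real.log X ^ (2 * r) := pow_le_pow_left₀ hH.le hHX _
  have h3 : Real.log X ^ (2 * r) = Real.log X ^ (2 * r - 2) * Real.log X ^ 2 := by
    rw [← pow_add]
    congr 1
    omega
  unfold eb
  rw [div_le_div_iff₀ (by positivity) (by positivity)]
  calc X * Real.log H ^ (2 * r) ≤ X * Real.log X ^ (2 * r) := mul_le_mul_of_nonneg_left h2 hX
    _ = X * Real.log X ^ (2 * r - 2) * 1 * Real.log X ^ 2 := by rw [h3]; ring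
    _ ≤ X * Real.log X ^ (2 * r - 2) * l2 X ^ C * Real.log X ^ 2 := by
      refine mul_le_mul_of_nonneg_right (mul_le_mul_of_nonneg_left h1 (by positivity))
        (by positivity)

end X1x

open X1x in
/-- X1. The formula for one shift. -/
theorem pfX1 (h1 : fpP1) (h2 : fpX0) (h3 : fpX1a) (h4 : fpX1b) : fpX1 := by
  intro r E hr hAP hCB θ' η hθ0 hθ1 hη hη1
  obtain ⟨Ca, Xa, hCa, ha⟩ := h3 r hr
  obtain ⟨Cb, Xb, hCb, hb⟩ := h4 r E hr hAP hCB θ' η hθ0 hθ1 hη hη1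
  obtain ⟨Xp, hp⟩ := h1 1
  refine ⟨Ca + Cb + 4, max (max Xa Xb) Xp, by linarith, ?_⟩
  intro X H k h hX hlH hHX hH0 hKK hh1 hhX hCr
  have hXa : Xa ≤ X := (le_max_left _ _).trans ((le_max_left _ _).trans hX)
  have hXb : Xb ≤ X := (le_max_right _ _).trans ((le_max_left _ _).trans hX)
  obtain ⟨hX16, hL3, hl1, -, -⟩ := hp X ((le_max_right _ _).trans hX)
  have hX0 : 0 < X := by linarith
  have hlogH : 0 < Real.log H := by
    have : (1 : ℝ) ≤ l2 X ^ 6 := one_le_pow₀ hl1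
    linarith
  have hlogHX : Real.log H ≤ Real.log X := Real.log_le_log hH0 hHX
  have hhX' : (h : ℝ) ≤ X := by
    refine hhX.trans ?_
    calc X ^ θ' ≤ X ^ (1 : ℝ) := Real.rpow_le_rpow_of_exponent_le (by linarith) hθ1.le
      _ = X := Real.rpow_one X
  have e1 := ha X H k h hXa hlH hHX hH0 hKK hh1 hhX'
  have e2 := hb X H k h hXb hlH hHX hH0 hKK hh1 hhX
  obtain ⟨c1, c2, c3, c4⟩ := hCr
  have e3 := h2 (dr r) (fX r k X H) (fm r k E η X H) (fd r k E η X H) ⌊X⌋₊ h (fun n => by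
    unfold fX fm fd fb
    ring)
  have e4 : (fun n => dr r n - fX r k X H n) = fr r k X H := rfl
  rw [e4] at e3
  have m1 : eb r Ca X H ≤ eb r (Ca + Cb + 4) X H :=
    eb_mono r Ca _ X H hX0.le (by linarith) hl1 hlogH (by linarith)
  have m2 : eb r Cb X H ≤ eb r (Ca + Cb + 4) X H :=
    eb_mono r Cb _ X H hX0.le (by linarith) hl1 hlogH (by linarith)
  have m3 : X / Real.log X ^ 2 ≤ eb r (Ca + Cb + 4) X H :=
    eb_low r (by omega) _ X H hX0.le hl1 (by linarith) hlogH hlogHX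
  have m1' : Ca * eb r Ca X H ≤ Ca * eb r (Ca + Cb + 4) X H :=
    mul_le_mul_of_nonneg_left m1 hCa.le
  have m2' : Cb * eb r Cb X H ≤ Cb * eb r (Ca + Cb + 4) X H :=
    mul_le_mul_of_nonneg_left m2 hCb.le
  show |cor (dr r) (dr r) ⌊X⌋₊ h - X * (PH r E h).eval (Real.log X)| ≤
    (Ca + Cb + 4) * eb r (Ca + Cb + 4) X H
  rw [e3]
  rw [abs_le] at e1 e2 c1 c2 c3 c4 ⊢
  obtain ⟨e1l, e1r⟩ := e1
  obtain ⟨e2l, e2r⟩ := e2
  obtain ⟨c1l, c1r⟩ := c1
  obtain ⟨c2l, c2r⟩ := c2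
  obtain ⟨c3l, c3r⟩ := c3
  obtain ⟨c4l, c4r⟩ := c4
  have hsum : (Ca + Cb + 4) * eb r (Ca + Cb + 4) X H = Ca * eb r (Ca + Cb + 4) X H +
      Cb * eb r (Ca + Cb + 4) X H + 4 * eb r (Ca + Cb + 4) X H := by ring
  rw [hsum]
  constructor <;> linarith

end Pool.Agent.Work.MP_122e00_nt.FP
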