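import Pool.Agent.Work.MP_122e00_nt.FP.StmtsA
import Pool.Agent.Work.MP_122e00_nt.TS.I_Z3

/-!
# The full polynomial at every scale, item Z3: the tail of the singular series, for every shift
-/

namespace Pool.Agent.Work.MP_122e00_nt.FP

open Finset Filter Topology ArithmeticFunction
open Pool.Agent.Work.MP_122e00_nt.TS
open scoped ArithmeticFunction.zeta ArithmeticFunction.Moebius

namespace Z3x

open Pool.Agent.Work.MP_122e00_nt.TS.IZ3

theorem key (g m Q : ℕ) (L : ℝ) (hg : 1 ≤ g) (hm : 1 ≤ m) (hQ : 1 ≤ Q) (hlt : Q < g * m)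
    (hL : 1 ≤ L) :
    (m : ℝ) ^ (-(1 / 4) : ℝ) ≤ (g : ℝ) ^ (1 / (4 * L)) * Real.exp (-(Real.log Q / (8 * L))) := by
  have hg0 : (0 : ℝ) < g := by exact_mod_cast hg
  have hm0 : (0 : ℝ) < m := by exact_mod_cast hm
  have hQ0 : (0 : ℝ) < Q := by exact_mod_cast hQ
  have hL0 : 0 < L := by linarith
  have hlg : 0 ≤ Real.log g := Real.log_natCast_nonneg g
  have hlm : 0 ≤ Real.log m := Real.log_natCast_nonneg m
  rw [Real.rpow_def_of_pos hm0, Real.rpow_def_of_pos hg0, ← Real.exp_add]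
  apply Real.exp_le_exp.2
  have h1 : Real.log Q ≤ Real.log g + Real.log m := by
    rw [← Real.log_mul hg0.ne' hm0.ne']
    apply Real.log_le_log hQ0
    exact_mod_cast hlt.le
  have h2 : Real.log Q / (8 * L) ≤ (Real.log g + Real.log m) / (8 * L) := by gcongr
  have h3 : (Real.log g + Real.log m) / (8 * L) = Real.log g / (8 * L) + Real.log m / (8 * L) :=
    add_div _ _ _
  have h4 : Real.log g / (8 * L) ≤ Real.log g / (4 * L) := by
    apply div_le_div_of_nonneg_left hlg (by positivity)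
    linarith
  have h5 : Real.log m / (8 * L) ≤ Real.log m / 4 := by
    apply div_le_div_of_nonneg_left hlm (by positivity)
    linarith
  have h6 : Real.log g * (1 / (4 * L)) = Real.log g / (4 * L) := by ring
  rw [h6]
  linarith

theorem summable_v (r : ℕ) : Summable (fun m : ℕ => w r m * (m : ℝ) ^ (-(7 / 4) : ℝ)) := by
  obtain ⟨C, hC, h⟩ := w_bound r
  have hs : Summable (fun m : ℕ => C * (m : ℝ) ^ (-(5 / 4) : ℝ)) :=
    (Real.summable_nat_rpow.2 (by norm_num)).mul_left C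
  refine Summable.of_nonneg_of_le (fun m => ?_) (fun m => ?_) hs
  · exact mul_nonneg (w_nonneg r m) (by positivity)
  · rcases Nat.eq_zero_or_pos m with hm | hm
    · subst hm
      have e1 : ((0 : ℕ) : ℝ) ^ (-(7 / 4) : ℝ) = 0 := by
        rw [Nat.cast_zero]
        exact Real.zero_rpow (by norm_num)
      have e2 : ((0 : ℕ) : ℝ) ^ (-(5 / 4) : ℝ) = 0 := by
        rw [Nat.cast_zero]
        exact Real.zero_rpow (by norm_num)
      rw [e1, e2, mul_zero, mul_zero]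
    · have hm0 : (0 : ℝ) < m := by exact_mod_cast hm
      calc w r m * (m : ℝ) ^ (-(7 / 4) : ℝ)
          ≤ C * (m : ℝ) ^ (1 / 2 : ℝ) * (m : ℝ) ^ (-(7 / 4) : ℝ) := by
            gcongr
            exact h m hm
        _ = C * (m : ℝ) ^ (-(5 / 4) : ℝ) := by
            rw [mul_assoc, ← Real.rpow_add hm0]
            norm_num

theorem split (r m : ℕ) (hm : 1 ≤ m) : w r m / (m : ℝ) ^ 2 =
    w r m * (m : ℝ) ^ (-(7 / 4) : ℝ) * (m : ℝ) ^ (-(1 / 4) : ℝ) := by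
  have hm0 : (0 : ℝ) < m := by exact_mod_cast hm
  rw [mul_assoc, ← Real.rpow_add hm0, div_eq_mul_inv]
  congr 1
  rw [← Real.rpow_natCast (m : ℝ) 2, ← Real.rpow_neg hm0.le]
  norm_num

theorem tail_le (r : ℕ) (hr : 1 ≤ r) : ∃ S : ℝ, 0 < S ∧ ∀ (h Q Q' : ℕ) (L : ℝ), 1 ≤ h → 1 ≤ Q →
    1 ≤ L → ∑ q ∈ Finset.Ioc Q Q', |Gh h q| * be r q ^ 2 ≤
      S * Real.exp (-(Real.log Q / (8 * L))) *
        ∑ g ∈ h.divisors, w r g * (g : ℝ) ^ (1 / (4 * L)) / (g : ℝ) := by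
  have hs := summable_v r
  have hs0 : 0 ≤ ∑' m : ℕ, w r m * (m : ℝ) ^ (-(7 / 4) : ℝ) :=
    tsum_nonneg fun m => mul_nonneg (w_nonneg r m) (by positivity)
  refine ⟨(∑' m : ℕ, w r m * (m : ℝ) ^ (-(7 / 4) : ℝ)) + 1, by linarith,
    fun h Q Q' L hh hQ hL => ?_⟩
  have hle : ∑ q ∈ Finset.Ioc Q Q', |Gh h q| * be r q ^ 2 ≤
      ∑ q ∈ Finset.Ioc Q Q', ∑ g ∈ h.divisors,
        if g ∣ q then (g : ℝ) * (w r q / (q : ℝ) ^ 2) else 0 := by
    refine Finset.sum_le_sum fun q hq => ?_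
    have hq1 : 1 ≤ q := by
      have := (Finset.mem_Ioc.1 hq).1
      omega
    have hq0 : q ≠ 0 := by omega
    have hw0 : 0 ≤ w r q / (q : ℝ) ^ 2 := div_nonneg (w_nonneg r q) (by positivity)
    calc |Gh h q| * be r q ^ 2 ≤ |Gh h q| * (w r q / (q : ℝ) ^ 2) :=
          mul_le_mul_of_nonneg_left (be_sq r q hr hq1) (abs_nonneg _)
      _ ≤ (∑ g ∈ q.divisors.filter (· ∣ h), (g : ℝ)) * (w r q / (q : ℝ) ^ 2) :=
          mul_le_mul_of_nonneg_right (IY4.abs_Gh h q) hw0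
      _ = ∑ g ∈ h.divisors, if g ∣ q then (g : ℝ) * (w r q / (q : ℝ) ^ 2) else 0 := by
          rw [← Finset.sum_filter, Finset.sum_mul]
          refine Finset.sum_congr ?_ fun _ _ => rfl
          ext g
          rw [Finset.mem_filter, Finset.mem_filter, Nat.mem_divisors, Nat.mem_divisors]
          have : h ≠ 0 := by omega
          tauto
  refine hle.trans ?_
  rw [Finset.sum_comm, Finset.mul_sum]
  refine Finset.sum_le_sum fun g hg => ?_
  have hg0 : 0 < g := Nat.pos_of_mem_divisors hg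
  have hgR : (0 : ℝ) < g := by exact_mod_cast hg0
  set E : ℝ := Real.exp (-(Real.log Q / (8 * L))) with hE
  have hE0 : 0 < E := Real.exp_pos _
  have hG0 : 0 < (g : ℝ) ^ (1 / (4 * L)) := Real.rpow_pos_of_pos hgR _
  rw [← Finset.sum_filter]
  have h1 : ∑ q ∈ (Finset.Ioc Q Q').filter (g ∣ ·), (g : ℝ) * (w r q / (q : ℝ) ^ 2) ≤
      ∑ q ∈ (Finset.Ioc Q Q').filter (g ∣ ·),
        (E * (w r g * (g : ℝ) ^ (1 / (4 * L)) / (g : ℝ))) *
          (w r (q / g) * ((q / g : ℕ) : ℝ) ^ (-(7 / 4) : ℝ)) := by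
    refine Finset.sum_le_sum fun q hq => ?_
    obtain ⟨hq1, m, rfl⟩ := Finset.mem_filter.1 hq
    have hQm : Q < g * m := (Finset.mem_Ioc.1 hq1).1
    have hm : 1 ≤ m := by
      rcases Nat.eq_zero_or_pos m with h0 | h0
      · subst h0
        simp at hQm
      · exact h0
    have hm0 : (0 : ℝ) < m := by exact_mod_cast hm
    rw [Nat.mul_div_cancel_left m hg0]
    have hv0 : 0 ≤ w r m * (m : ℝ) ^ (-(7 / 4) : ℝ) :=
      mul_nonneg (w_nonneg r m) (by positivity)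
    have hwg0 : 0 ≤ w r g / (g : ℝ) := div_nonneg (w_nonneg r g) hgR.le
    calc (g : ℝ) * (w r (g * m) / ((g * m : ℕ) : ℝ) ^ 2)
        ≤ (g : ℝ) * (w r g * w r m / ((g * m : ℕ) : ℝ) ^ 2) := by
          gcongr
          exact w_mul r g m hg0 hm
      _ = (w r g / (g : ℝ)) * (w r m / (m : ℝ) ^ 2) := by
          push_cast
          field_simp
      _ = (w r g / (g : ℝ)) *
            (w r m * (m : ℝ) ^ (-(7 / 4) : ℝ) * (m : ℝ) ^ (-(1 / 4) : ℝ)) := by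
          rw [split r m hm]
      _ ≤ (w r g / (g : ℝ)) *
            (w r m * (m : ℝ) ^ (-(7 / 4) : ℝ) * ((g : ℝ) ^ (1 / (4 * L)) * E)) :=
          mul_le_mul_of_nonneg_left
            (mul_le_mul_of_nonneg_left (key g m Q L hg0 hm hQ hQm hL) hv0) hwg0
      _ = (E * (w r g * (g : ℝ) ^ (1 / (4 * L)) / (g : ℝ))) *
            (w r m * (m : ℝ) ^ (-(7 / 4) : ℝ)) := by ring
  refine h1.trans ?_
  rw [← Finset.mul_sum]
  have hinj : Set.InjOn (fun q : ℕ => q / g) ((Finset.Ioc Q Q').filter (g ∣ ·) : Finset ℕ) := by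
    intro a ha b hb hab
    obtain ⟨m, rfl⟩ := (Finset.mem_filter.1 ha).2
    obtain ⟨n, rfl⟩ := (Finset.mem_filter.1 hb).2
    simp only [Nat.mul_div_cancel_left _ hg0] at hab
    rw [hab]
  have h3 : ∑ q ∈ (Finset.Ioc Q Q').filter (g ∣ ·),
      (w r (q / g) * ((q / g : ℕ) : ℝ) ^ (-(7 / 4) : ℝ)) ≤
      (∑' m : ℕ, w r m * (m : ℝ) ^ (-(7 / 4) : ℝ)) + 1 := by
    rw [← Finset.sum_image (f := fun m : ℕ => w r m * (m : ℝ) ^ (-(7 / 4) : ℝ)) hinj]
    have h2 := hs.sum_le_tsum (((Finset.Ioc Q Q').filter (g ∣ ·)).image fun q : ℕ => q / g)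
      (fun m _ => mul_nonneg (w_nonneg r m) (by positivity))
    linarith
  have hc0 : 0 ≤ E * (w r g * (g : ℝ) ^ (1 / (4 * L)) / (g : ℝ)) :=
    mul_nonneg hE0.le (div_nonneg (mul_nonneg (w_nonneg r g) hG0.le) hgR.le)
  calc E * (w r g * (g : ℝ) ^ (1 / (4 * L)) / (g : ℝ)) *
        ∑ q ∈ (Finset.Ioc Q Q').filter (g ∣ ·),
          (w r (q / g) * ((q / g : ℕ) : ℝ) ^ (-(7 / 4) : ℝ))
      ≤ E * (w r g * (g : ℝ) ^ (1 / (4 * L)) / (g : ℝ)) *
        ((∑' m : ℕ, w r m * (m : ℝ) ^ (-(7 / 4) : ℝ)) + 1) :=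
        mul_le_mul_of_nonneg_left h3 hc0
    _ = ((∑' m : ℕ, w r m * (m : ℝ) ^ (-(7 / 4) : ℝ)) + 1) * E *
        (w r g * (g : ℝ) ^ (1 / (4 * L)) / (g : ℝ)) := by ring

end Z3x

open Z3x Pool.Agent.Work.MP_122e00_nt.TS.IZ3 in
theorem pfZ3 (h1 : fpZ2) : fpZ3 := by
  intro r hr
  obtain ⟨S, hS, h2⟩ := tail_le r hr
  obtain ⟨C, hC, h3⟩ := h1 (2 * r) r
  refine ⟨S * C + C, by positivity, fun h Q Q' hh hQ => ?_⟩
  have hl := one_le_ll h
  have hl0 : 0 < ll h := by linarith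
  have h4 := h2 h Q Q' (ll h) hh hQ hl
  have h5 : ∑ g ∈ h.divisors, w r g * (g : ℝ) ^ (1 / (4 * ll h)) / (g : ℝ) ≤ C * ll h ^ C :=
    h3 h hh
  have hE0 : 0 < Real.exp (-(Real.log Q / (8 * ll h))) := Real.exp_pos _
  calc ∑ q ∈ Finset.Ioc Q Q', |Gh h q| * be r q ^ 2
      ≤ S * Real.exp (-(Real.log Q / (8 * ll h))) *
        ∑ g ∈ h.divisors, w r g * (g : ℝ) ^ (1 / (4 * ll h)) / (g : ℝ) := h4
    _ ≤ S * Real.exp (-(Real.log Q / (8 * ll h))) * (C * ll h ^ C) :=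
        mul_le_mul_of_nonneg_left h5 (by positivity)
    _ = (S * C) * ll h ^ C * Real.exp (-(Real.log Q / (8 * ll h))) := by ring
    _ ≤ (S * C + C) * ll h ^ (S * C + C) * Real.exp (-(Real.log Q / (8 * ll h))) := by
        have h6 : ll h ^ C ≤ ll h ^ (S * C + C) :=
          Real.rpow_le_rpow_of_exponent_le hl (by nlinarith [mul_pos hS hC])
        have h7 : S * C ≤ S * C + C := by linarith
        have h8 : 0 ≤ ll h ^ C := by positivity
        exact mul_le_mul_of_nonneg_right (mul_le_mul h7 h6 h8 (by positivity)) hE0.le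

end Pool.Agent.Work.MP_122e00_nt.FP
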